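import Pool.Agent.Lib_MP_6e4ab6_nt.Full.NIdefs

/-!
# The primitive families with roots of unity as coefficients have rational angles
-/

namespace Pool.Agent.TriCos

open Finset

theorem fr_ee_mul (a b : ℚ) : ee a * ee b = ee (a + b) := by
  unfold ee
  rw [← Complex.exp_add]
  congr 1
  push_cast
  ring

theorem fr_ee_pow (a : ℚ) (n : ℕ) : ee a ^ n = ee (n * a) := by
  unfold ee
  rw [← Complex.exp_nat_mul]
  congr 1
  push_cast
  ring

theorem fr_ee_half : ee (1 / 2) = -1 := by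
  unfold ee
  have : (2 * Real.pi * Complex.I * ((1 / 2 : ℚ) : ℂ)) = Real.pi * Complex.I := by
    push_cast
    ring
  rw [this, Complex.exp_pi_mul_I]

theorem fr_neg_ee (a : ℚ) : -ee a = ee (a + 1 / 2) := by
  rw [← fr_ee_mul, fr_ee_half]
  ring

theorem fr_ee_congr {a b : ℚ} (h : ∃ n : ℤ, a = b + n) : ee a = ee b := by
  obtain ⟨n, rfl⟩ := h
  unfold ee
  have : (2 * Real.pi * Complex.I * ((b + n : ℚ) : ℂ)) =
      2 * Real.pi * Complex.I * (b : ℂ) + n * (2 * Real.pi * Complex.I) := by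
    push_cast
    ring
  rw [this, Complex.exp_add, Complex.exp_int_mul_two_pi_mul_I, mul_one]

theorem fr_ee_ne (a : ℚ) : ee a ≠ 0 := Complex.exp_ne_zero _

theorem fr_ee_inv (a : ℚ) : (ee a)⁻¹ = ee (-a) := by
  apply inv_eq_of_mul_eq_one_left
  rw [fr_ee_mul]
  have : ee (-a + a) = ee 0 := by
    congr 1
    ring
  rw [this]
  unfold ee
  simp

/-- a root of unity -/
def frR (ξ : ℂ) : Prop := ∃ x : ℚ, ξ = ee x

theorem frR_ee (x : ℚ) : frR (ee x) := ⟨x, rfl⟩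

theorem frR_mul {a b : ℂ} (ha : frR a) (hb : frR b) : frR (a * b) := by
  obtain ⟨x, rfl⟩ := ha
  obtain ⟨y, rfl⟩ := hb
  exact ⟨x + y, fr_ee_mul x y⟩

theorem frR_inv {a : ℂ} (ha : frR a) : frR a⁻¹ := by
  obtain ⟨x, rfl⟩ := ha
  exact ⟨-x, fr_ee_inv x⟩

theorem frR_neg {a : ℂ} (ha : frR a) : frR (-a) := by
  obtain ⟨x, rfl⟩ := ha
  exact ⟨x + 1 / 2, fr_neg_ee x⟩

theorem frR_of_neg {a : ℂ} (ha : frR (-a)) : frR a := by
  have := frR_neg ha
  rwa [neg_neg] at this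

/-- `z ^ k` and `z ^ (k+1)` roots of unity, `z ≠ 0` -/
theorem frR_of_pow {z : ℂ} (hz : z ≠ 0) (k : ℕ) (h1 : frR (z ^ k)) (h2 : frR (z ^ (k + 1))) :
    frR z := by
  have : z = z ^ (k + 1) * (z ^ k)⁻¹ := by
    field_simp
    ring
  rw [this]
  exact frR_mul h2 (frR_inv h1)

theorem fr_mem {L : Multiset (ℚ × ℕ)} {p : ℂ × ℕ} (h : p ∈ prs L) : frR p.1 := by
  unfold prs at h
  rw [Multiset.mem_map] at h
  obtain ⟨t, _, rfl⟩ := h
  exact ⟨t.1, rfl⟩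

/-- the value function -/
noncomputable def frg (p : ℂ × ℕ) : ℝ := Complex.normSq (1 + p.1)

theorem frg_ee (x : ℚ) (k : ℕ) : frg (ee x, k) = c2 (x : ℝ) := by
  rw [c2_eq_normSq]
  unfold frg ee
  norm_cast

theorem frg_eq {ξ : ℂ} {x : ℚ} (h : ξ = ee x) (k : ℕ) : frg (ξ, k) = c2 (x : ℝ) := by
  rw [h, frg_ee]

theorem fr_vals_eq (X : Multiset ℚ) : vals X = X.map (fun x : ℚ => c2 (x : ℝ)) := by
  unfold vals
  simp [Multiset.bind_def, Multiset.pure_def, Multiset.bind_singleton, Multiset.map_map]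

theorem fr_vals (L : Multiset (ℚ × ℕ)) : vals (L.map Prod.fst) = (prs L).map frg := by
  rw [fr_vals_eq]
  unfold prs
  rw [Multiset.map_map, Multiset.map_map]
  apply Multiset.map_congr rfl
  intro t _
  simp only [Function.comp_apply]
  rw [frg_ee]

theorem fr_omega {ω : ℂ} (h : ω ^ 2 + ω + 1 = 0) : ω = ee (1 / 3) ∨ ω = ee (-1 / 3) := by
  have h3 : ee (1 / 3) ^ 3 = 1 := by
    rw [fr_ee_pow]
    have : ee (((3 : ℕ) : ℚ) * (1 / 3)) = ee 0 := fr_ee_congr ⟨1, by push_cast; ring⟩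
    rw [this]
    unfold ee
    simp
  have h1 : ee (1 / 3) ≠ 1 := by
    intro h1
    have h2 : c2 ((1 / 3 : ℚ) : ℝ) = 4 := by
      rw [← frg_ee (1 / 3) 0, h1]
      unfold frg
      norm_num [Complex.normSq_apply]
    have h4 : c2 ((1 / 3 : ℚ) : ℝ) = 1 := by
      have := c2_third
      push_cast
      exact this
    rw [h4] at h2
    norm_num at h2
  have hq : ee (1 / 3) ^ 2 + ee (1 / 3) + 1 = 0 := by
    have : (ee (1 / 3) - 1) * (ee (1 / 3) ^ 2 + ee (1 / 3) + 1) = 0 := by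
      linear_combination h3
    rcases mul_eq_zero.1 this with h5 | h5
    · exact absurd (sub_eq_zero.1 h5) h1
    · exact h5
  have hf : (ω - ee (1 / 3)) * (ω - ee (1 / 3) ^ 2) = 0 := by
    have h6 : ee (1 / 3) ^ 3 = 1 := h3
    linear_combination h - ω * hq + h6
  rcases mul_eq_zero.1 hf with h5 | h5
  · left
    exact sub_eq_zero.1 h5
  · right
    rw [sub_eq_zero.1 h5, fr_ee_pow]
    exact fr_ee_congr ⟨1, by push_cast; ring⟩

theorem fr_swap12 {α : Type*} (a b c : α) : ({a, b, c} : Multiset α) = {b, a, c} :=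
  Multiset.cons_swap _ _ _

theorem fr_swap23 {α : Type*} (a b c : α) : ({a, b, c} : Multiset α) = {a, c, b} :=
  congrArg (Multiset.cons a) (Multiset.cons_swap _ _ _)

theorem fr_v1 (a : ℚ) : vals {a} = {c2 (a : ℝ)} := rfl

theorem fr_v2 (a b : ℚ) : vals {a, b} = {c2 (a : ℝ), c2 (b : ℝ)} := rfl

theorem fr_v3 (a b c : ℚ) : vals {a, b, c} = {c2 (a : ℝ), c2 (b : ℝ), c2 (c : ℝ)} := rfl

theorem fr_m1 (a : ℂ × ℕ) : Multiset.map frg {a} = {frg a} := rfl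

theorem fr_m2 (a b : ℂ × ℕ) : Multiset.map frg {a, b} = {frg a, frg b} := rfl

theorem fr_m3 (a b c : ℂ × ℕ) : Multiset.map frg {a, b, c} = {frg a, frg b, frg c} := rfl

theorem fr_one {A : ℂ} {n : ℕ} {a : ℚ} (hA : A = ee a) :
    Multiset.map frg {(A, n)} = vals {a} := by
  rw [fr_m1, fr_v1, frg_eq hA]

theorem fr_two {A B : ℂ} {n k : ℕ} {a b : ℚ} (hA : A = ee a) (hB : B = ee b) :
    Multiset.map frg {(A, n), (B, k)} = vals {a, b} := by
  rw [fr_m2, fr_v2, frg_eq hA, frg_eq hB]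

theorem fr_three {A B C : ℂ} {n k l : ℕ} {a b c : ℚ} (hA : A = ee a) (hB : B = ee b)
    (hC : C = ee c) : Multiset.map frg {(A, n), (B, k), (C, l)} = vals {a, b, c} := by
  rw [fr_m3, fr_v3, frg_eq hA, frg_eq hB, frg_eq hC]

theorem fr_three12 {A B C : ℂ} {n k l : ℕ} {a b c : ℚ} (hA : A = ee b) (hB : B = ee a)
    (hC : C = ee c) : Multiset.map frg {(A, n), (B, k), (C, l)} = vals {a, b, c} := by
  rw [fr_m3, fr_v3, frg_eq hA, frg_eq hB, frg_eq hC, fr_swap12]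

theorem fr_three23 {A B C : ℂ} {n k l : ℕ} {a b c : ℚ} (hA : A = ee a) (hB : B = ee c)
    (hC : C = ee b) : Multiset.map frg {(A, n), (B, k), (C, l)} = vals {a, b, c} := by
  rw [fr_m3, fr_v3, frg_eq hA, frg_eq hB, frg_eq hC, fr_swap23]

theorem fam_rat (L R : Multiset (ℚ × ℕ)) (h : Fam (prs L) (prs R)) :
    FamV (vals (L.map Prod.fst)) (vals (R.map Prod.fst)) := by
  rw [fr_vals, fr_vals]
  obtain ⟨ω, z, n, hω, hz, hn, h⟩ := h
  have hz0 : z ≠ 0 := by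
    rintro rfl
    simp at hz
  have hl : ∀ p ∈ prs L, frR p.1 := fun p hp => fr_mem hp
  have hr : ∀ p ∈ prs R, frR p.1 := fun p hp => fr_mem hp
  generalize prs L = A at h hl ⊢
  generalize prs R = B at h hr ⊢
  have hzr : frR z → ∃ x : ℚ, z = ee x := fun h => h
  unfold FamV
  rcases h with ⟨rfl, rfl⟩ | ⟨rfl, rfl⟩ | ⟨rfl, rfl⟩ | ⟨rfl, rfl⟩ | ⟨rfl, rfl⟩ |
    ⟨w, k, hw, hk, rfl, rfl⟩ | ⟨rfl, rfl⟩ | ⟨rfl, rfl⟩ | ⟨rfl, rfl⟩ | ⟨rfl, rfl⟩ | ⟨rfl, rfl⟩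
  · -- 1
    obtain ⟨x, rfl⟩ := hl (z, n) (by simp)
    refine ⟨x, 0, Or.inl ⟨fr_two rfl ?_, fr_one ?_⟩⟩
    all_goals (simp only [fr_neg_ee, fr_ee_mul, fr_ee_pow] <;> (apply fr_ee_congr; first | (exact ⟨0, by push_cast; ring1⟩) | (exact ⟨1, by push_cast; ring1⟩) | (exact ⟨-1, by push_cast; ring1⟩) | (exact ⟨2, by push_cast; ring1⟩) | (exact ⟨-2, by push_cast; ring1⟩)))
  · -- 2
    obtain ⟨x, rfl⟩ := hl (z, n) (by simp)
    refine ⟨x, 0, Or.inr <| Or.inl ?_⟩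
    rcases fr_omega hω with rfl | rfl
    · refine ⟨fr_three rfl ?_ ?_, fr_one ?_⟩
      all_goals (simp only [fr_neg_ee, fr_ee_mul, fr_ee_pow] <;> (apply fr_ee_congr; first | (exact ⟨0, by push_cast; ring1⟩) | (exact ⟨1, by push_cast; ring1⟩) | (exact ⟨-1, by push_cast; ring1⟩) | (exact ⟨2, by push_cast; ring1⟩) | (exact ⟨-2, by push_cast; ring1⟩)))
    · refine ⟨fr_three23 rfl ?_ ?_, fr_one ?_⟩
      all_goals (simp only [fr_neg_ee, fr_ee_mul, fr_ee_pow] <;> (apply fr_ee_congr; first | (exact ⟨0, by push_cast; ring1⟩) | (exact ⟨1, by push_cast; ring1⟩) | (exact ⟨-1, by push_cast; ring1⟩) | (exact ⟨2, by push_cast; ring1⟩) | (exact ⟨-2, by push_cast; ring1⟩)))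
  · -- 3
    obtain ⟨x, rfl⟩ := hl (z, n) (by simp)
    refine ⟨x, 0, Or.inr <| Or.inr <| Or.inl ?_⟩
    refine ⟨fr_three rfl ?_ ?_, fr_one ?_⟩
    all_goals (simp only [fr_neg_ee, fr_ee_mul, fr_ee_pow] <;> (apply fr_ee_congr; first | (exact ⟨0, by push_cast; ring1⟩) | (exact ⟨1, by push_cast; ring1⟩) | (exact ⟨-1, by push_cast; ring1⟩) | (exact ⟨2, by push_cast; ring1⟩) | (exact ⟨-2, by push_cast; ring1⟩)))
  · -- 4
    obtain ⟨x, rfl⟩ := hr (z, n) (by simp)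
    refine ⟨x, 0, Or.inr <| Or.inr <| Or.inr <| Or.inl ?_⟩
    rcases fr_omega hω with rfl | rfl
    · refine ⟨fr_three12 ?_ ?_ ?_, fr_two rfl ?_⟩
      all_goals (simp only [fr_neg_ee, fr_ee_mul, fr_ee_pow] <;> (apply fr_ee_congr; first | (exact ⟨0, by push_cast; ring1⟩) | (exact ⟨1, by push_cast; ring1⟩) | (exact ⟨-1, by push_cast; ring1⟩) | (exact ⟨2, by push_cast; ring1⟩) | (exact ⟨-2, by push_cast; ring1⟩)))
    · refine ⟨fr_three ?_ ?_ ?_, fr_two rfl ?_⟩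
      all_goals (simp only [fr_neg_ee, fr_ee_mul, fr_ee_pow] <;> (apply fr_ee_congr; first | (exact ⟨0, by push_cast; ring1⟩) | (exact ⟨1, by push_cast; ring1⟩) | (exact ⟨-1, by push_cast; ring1⟩) | (exact ⟨2, by push_cast; ring1⟩) | (exact ⟨-2, by push_cast; ring1⟩)))
  · -- 5
    have h1 : frR (z ^ 2) := frR_of_neg (hl (-z ^ 2, 2 * n) (by simp))
    have h2 : frR (z ^ 3) := hr (z ^ 3, 3 * n) (by simp)
    obtain ⟨x, rfl⟩ := frR_of_pow hz0 2 h1 h2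
    refine ⟨x, 0, Or.inr <| Or.inr <| Or.inr <| Or.inr <| Or.inl ?_⟩
    rcases fr_omega hω with rfl | rfl
    · refine ⟨fr_three23 ?_ ?_ ?_, fr_two ?_ ?_⟩
      all_goals (simp only [fr_neg_ee, fr_ee_mul, fr_ee_pow] <;> (apply fr_ee_congr; first | (exact ⟨0, by push_cast; ring1⟩) | (exact ⟨1, by push_cast; ring1⟩) | (exact ⟨-1, by push_cast; ring1⟩) | (exact ⟨2, by push_cast; ring1⟩) | (exact ⟨-2, by push_cast; ring1⟩)))
    · refine ⟨fr_three ?_ ?_ ?_, fr_two ?_ ?_⟩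
      all_goals (simp only [fr_neg_ee, fr_ee_mul, fr_ee_pow] <;> (apply fr_ee_congr; first | (exact ⟨0, by push_cast; ring1⟩) | (exact ⟨1, by push_cast; ring1⟩) | (exact ⟨-1, by push_cast; ring1⟩) | (exact ⟨2, by push_cast; ring1⟩) | (exact ⟨-2, by push_cast; ring1⟩)))
  · -- 6
    obtain ⟨x, rfl⟩ := hl (z, n) (by simp)
    obtain ⟨y, rfl⟩ := hr (w, k) (by simp)
    refine ⟨x, y, Or.inr <| Or.inr <| Or.inr <| Or.inr <| Or.inr <| Or.inl ?_⟩
    refine ⟨fr_three rfl ?_ ?_, fr_three rfl ?_ ?_⟩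
    all_goals (simp only [fr_neg_ee, fr_ee_mul, fr_ee_pow] <;> (apply fr_ee_congr; first | (exact ⟨0, by push_cast; ring1⟩) | (exact ⟨1, by push_cast; ring1⟩) | (exact ⟨-1, by push_cast; ring1⟩) | (exact ⟨2, by push_cast; ring1⟩) | (exact ⟨-2, by push_cast; ring1⟩)))
  · -- 7
    obtain ⟨x, rfl⟩ := hl (z, n) (by simp)
    refine ⟨x, 0, Or.inr <| Or.inr <| Or.inr <| Or.inr <| Or.inr <| Or.inr <| Or.inl ?_⟩
    rcases fr_omega hω with rfl | rfl
    · refine ⟨fr_three rfl ?_ ?_,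
        fr_three ?_ ?_ ?_⟩
      all_goals (simp only [fr_neg_ee, fr_ee_mul, fr_ee_pow] <;> (apply fr_ee_congr; first | (exact ⟨0, by push_cast; ring1⟩) | (exact ⟨1, by push_cast; ring1⟩) | (exact ⟨-1, by push_cast; ring1⟩) | (exact ⟨2, by push_cast; ring1⟩) | (exact ⟨-2, by push_cast; ring1⟩)))
    · refine ⟨fr_three rfl ?_ ?_,
        fr_three12 ?_ ?_ ?_⟩
      all_goals (simp only [fr_neg_ee, fr_ee_mul, fr_ee_pow] <;> (apply fr_ee_congr; first | (exact ⟨0, by push_cast; ring1⟩) | (exact ⟨1, by push_cast; ring1⟩) | (exact ⟨-1, by push_cast; ring1⟩) | (exact ⟨2, by push_cast; ring1⟩) | (exact ⟨-2, by push_cast; ring1⟩)))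
  · -- 8
    have h1 : frR (z ^ 3) := hl (z ^ 3, 3 * n) (by simp)
    have h2 : frR (z ^ 4) := frR_of_neg (hr (-z ^ 4, 4 * n) (by simp))
    obtain ⟨x, rfl⟩ := frR_of_pow hz0 3 h1 h2
    refine ⟨x, 0, Or.inr <| Or.inr <| Or.inr <| Or.inr <| Or.inr <| Or.inr <| Or.inr <|
      Or.inl ?_⟩
    rcases fr_omega hω with rfl | rfl
    · refine ⟨fr_three ?_ ?_ ?_,
        fr_three23 ?_ ?_ ?_⟩
      all_goals (simp only [fr_neg_ee, fr_ee_mul, fr_ee_pow] <;> (apply fr_ee_congr; first | (exact ⟨0, by push_cast; ring1⟩) | (exact ⟨1, by push_cast; ring1⟩) | (exact ⟨-1, by push_cast; ring1⟩) | (exact ⟨2, by push_cast; ring1⟩) | (exact ⟨-2, by push_cast; ring1⟩)))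
    · refine ⟨fr_three ?_ ?_ ?_,
        fr_three ?_ ?_ ?_⟩
      all_goals (simp only [fr_neg_ee, fr_ee_mul, fr_ee_pow] <;> (apply fr_ee_congr; first | (exact ⟨0, by push_cast; ring1⟩) | (exact ⟨1, by push_cast; ring1⟩) | (exact ⟨-1, by push_cast; ring1⟩) | (exact ⟨2, by push_cast; ring1⟩) | (exact ⟨-2, by push_cast; ring1⟩)))
  · -- 9
    have h1 : frR (z ^ 2) := hr (z ^ 2, 2 * n) (by simp)
    have h2 : frR (z ^ 3) := hr (z ^ 3, 3 * n) (by simp)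
    obtain ⟨x, rfl⟩ := frR_of_pow hz0 2 h1 h2
    refine ⟨x, 0, Or.inr <| Or.inr <| Or.inr <| Or.inr <| Or.inr <| Or.inr <| Or.inr <|
      Or.inr <| Or.inl ?_⟩
    rcases fr_omega hω with rfl | rfl
    · refine ⟨fr_three12 ?_ ?_ ?_,
        fr_three ?_ ?_ ?_⟩
      all_goals (simp only [fr_neg_ee, fr_ee_mul, fr_ee_pow] <;> (apply fr_ee_congr; first | (exact ⟨0, by push_cast; ring1⟩) | (exact ⟨1, by push_cast; ring1⟩) | (exact ⟨-1, by push_cast; ring1⟩) | (exact ⟨2, by push_cast; ring1⟩) | (exact ⟨-2, by push_cast; ring1⟩)))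
    · refine ⟨fr_three ?_ ?_ ?_,
        fr_three ?_ ?_ ?_⟩
      all_goals (simp only [fr_neg_ee, fr_ee_mul, fr_ee_pow] <;> (apply fr_ee_congr; first | (exact ⟨0, by push_cast; ring1⟩) | (exact ⟨1, by push_cast; ring1⟩) | (exact ⟨-1, by push_cast; ring1⟩) | (exact ⟨2, by push_cast; ring1⟩) | (exact ⟨-2, by push_cast; ring1⟩)))
  · -- 10
    obtain ⟨x, rfl⟩ := hr (z, n) (by simp)
    refine ⟨x, 0, Or.inr <| Or.inr <| Or.inr <| Or.inr <| Or.inr <| Or.inr <| Or.inr <|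
      Or.inr <| Or.inr <| Or.inl ?_⟩
    rcases fr_omega hω with rfl | rfl
    · refine ⟨fr_three12 ?_ ?_ ?_,
        fr_three rfl ?_ ?_⟩
      all_goals (simp only [fr_neg_ee, fr_ee_mul, fr_ee_pow] <;> (apply fr_ee_congr; first | (exact ⟨0, by push_cast; ring1⟩) | (exact ⟨1, by push_cast; ring1⟩) | (exact ⟨-1, by push_cast; ring1⟩) | (exact ⟨2, by push_cast; ring1⟩) | (exact ⟨-2, by push_cast; ring1⟩)))
    · refine ⟨fr_three ?_ ?_ ?_,
        fr_three rfl ?_ ?_⟩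
      all_goals (simp only [fr_neg_ee, fr_ee_mul, fr_ee_pow] <;> (apply fr_ee_congr; first | (exact ⟨0, by push_cast; ring1⟩) | (exact ⟨1, by push_cast; ring1⟩) | (exact ⟨-1, by push_cast; ring1⟩) | (exact ⟨2, by push_cast; ring1⟩) | (exact ⟨-2, by push_cast; ring1⟩)))
  · -- 11
    obtain ⟨x, rfl⟩ := hr (z, n) (by simp)
    refine ⟨x, 0, Or.inr <| Or.inr <| Or.inr <| Or.inr <| Or.inr <| Or.inr <| Or.inr <|
      Or.inr <| Or.inr <| Or.inr ?_⟩
    rcases fr_omega hω with rfl | rfl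
    · refine ⟨fr_three12 ?_ ?_ ?_,
        fr_three23 rfl ?_ ?_⟩
      all_goals (simp only [fr_neg_ee, fr_ee_mul, fr_ee_pow] <;> (apply fr_ee_congr; first | (exact ⟨0, by push_cast; ring1⟩) | (exact ⟨1, by push_cast; ring1⟩) | (exact ⟨-1, by push_cast; ring1⟩) | (exact ⟨2, by push_cast; ring1⟩) | (exact ⟨-2, by push_cast; ring1⟩)))
    · refine ⟨fr_three ?_ ?_ ?_,
        fr_three rfl ?_ ?_⟩
      all_goals (simp only [fr_neg_ee, fr_ee_mul, fr_ee_pow] <;> (apply fr_ee_congr; first | (exact ⟨0, by push_cast; ring1⟩) | (exact ⟨1, by push_cast; ring1⟩) | (exact ⟨-1, by push_cast; ring1⟩) | (exact ⟨2, by push_cast; ring1⟩) | (exact ⟨-2, by push_cast; ring1⟩)))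

end Pool.Agent.TriCos
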