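import Pool.Agent.Lib_MP_6e4ab6_nt.Full.LinePoly
import Pool.Agent.Lib_MP_6e4ab6_nt.Full.FamRat

/-!
# Two cosine equations from the trichotomy
-/

namespace Pool.Agent.TriCos

open Finset

/-! ### Multisets of values -/

theorem co_vals_def (X : Multiset ℚ) : vals X = X.map (fun x : ℚ => c2 (x : ℝ)) := by
  unfold vals
  simp

theorem co_vals_pair (x y : ℚ) : vals {x, y} = {c2 (x : ℝ), c2 (y : ℝ)} := by
  unfold vals
  simp [Multiset.insert_eq_cons]

theorem co_vals_one (x : ℚ) : vals {x} = {c2 (x : ℝ)} := by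
  unfold vals
  simp

theorem co_end (x y : ℝ) : ({x, y, 1} : Multiset ℝ) = {x, y} + {1} := by
  simp [Multiset.insert_eq_cons]

theorem co_mid (x y : ℝ) : ({x, 1, y} : Multiset ℝ) = {x, y} + {1} := by
  rw [← co_end]
  show x ::ₘ ({1, y} : Multiset ℝ) = x ::ₘ {y, 1}
  rw [Multiset.pair_comm]

theorem co_pair {p q r t : ℝ} (hh : ({p, q} : Multiset ℝ) = {r, t}) :
    (p = r ∧ q = t) ∨ (p = t ∧ q = r) := by
  have hp : p ∈ ({r, t} : Multiset ℝ) := by rw [← hh]; simp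
  simp only [Multiset.insert_eq_cons, Multiset.mem_cons, Multiset.mem_singleton] at hp
  rcases hp with rfl | rfl
  · left
    refine ⟨rfl, ?_⟩
    have := (Multiset.cons_inj_right p).mp (show p ::ₘ ({q} : Multiset ℝ) = p ::ₘ {t} from hh)
    simpa using this
  · right
    refine ⟨rfl, ?_⟩
    have h2 : p ::ₘ ({q} : Multiset ℝ) = p ::ₘ {r} := by
      have : ({r, p} : Multiset ℝ) = {p, r} := Multiset.pair_comm _ _
      rw [this] at hh
      exact hh
    have := (Multiset.cons_inj_right p).mp h2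
    simpa using this

/-! ### Consequences of a line of solutions -/

theorem co_ee_norm (x : ℚ) : ‖ee x‖ = 1 := by
  unfold ee
  have h : (2 * Real.pi * Complex.I * (x : ℂ)) = ((2 * Real.pi * x : ℝ) : ℂ) * Complex.I := by
    push_cast
    ring
  rw [h, Complex.norm_exp_ofReal_mul_I]

theorem co_c2_ee (x : ℚ) : c2 (x : ℝ) = Complex.normSq (1 + ee x) := by
  rw [c2_eq_normSq]
  unfold ee
  push_cast
  rfl

theorem co_mem_vals (M : Multiset (ℚ × ℕ)) (y : ℝ) :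
    y ∈ vals (M.map Prod.fst) ↔ ∃ t ∈ M, c2 (t.1 : ℝ) = y := by
  rw [co_vals_def, Multiset.mem_map]
  constructor
  · rintro ⟨x, hx, rfl⟩
    rw [Multiset.mem_map] at hx
    obtain ⟨t, ht, rfl⟩ := hx
    exact ⟨t, ht, rfl⟩
  · rintro ⟨t, ht, rfl⟩
    exact ⟨t.1, Multiset.mem_map_of_mem Prod.fst ht, rfl⟩

theorem co_ni (a : Fin 6 → ℚ) (hs : Sol a) (h : NI a) :
    ∃ A B C D : Multiset ℝ, (1 : ℝ) ∉ A ∧ (1 : ℝ) ∉ B ∧ L3 a = A + C ∧ R3 a = B + D ∧
      C.prod = D.prod ∧ ((∃ y, y ∈ A ∧ y ∈ B) ∨ FamV A B ∨ FamV B A) := by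
  obtain ⟨L, R, U, V, hne, hL, hR, hLU, hRV, hl, hr, hp, hPP⟩ := line_poly a hs h
  have hmem : ∀ (M : Multiset (ℚ × ℕ)), (∀ t ∈ M, 0 < t.2 ∧ c2 (t.1 : ℝ) ≠ 1) →
      (1 : ℝ) ∉ vals (M.map Prod.fst) := by
    intro M hM h1
    obtain ⟨t, ht, ht1⟩ := (co_mem_vals M 1).mp h1
    exact (hM t ht).2 ht1
  refine ⟨vals (L.map Prod.fst), vals (R.map Prod.fst), vals U, vals V, hmem L hL, hmem R hR,
    hl, hr, hp, ?_⟩
  have hv : ∀ (M : Multiset (ℚ × ℕ)), (∀ t ∈ M, 0 < t.2 ∧ c2 (t.1 : ℝ) ≠ 1) →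
      ∀ t ∈ prs M, ‖t.1‖ = 1 ∧ 0 < t.2 := by
    intro M hM t ht
    unfold prs at ht
    rw [Multiset.mem_map] at ht
    obtain ⟨s, hs, rfl⟩ := ht
    exact ⟨co_ee_norm s.1, (hM s hs).1⟩
  have hcard : ∀ (M : Multiset (ℚ × ℕ)), (prs M).card = M.card := by
    intro M
    unfold prs
    rw [Multiset.card_map]
  have hne' : prs L ≠ 0 ∨ prs R ≠ 0 := by
    rcases hne with h0 | h0
    · left
      intro h1
      apply h0
      rw [← Multiset.card_eq_zero, ← hcard, h1, Multiset.card_zero]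
    · right
      intro h1
      apply h0
      rw [← Multiset.card_eq_zero, ← hcard, h1, Multiset.card_zero]
  rcases poly_class (prs L) (prs R) (hv L hL) (hv R hR) (by rw [hcard]; omega)
    (by rw [hcard]; omega) hne' hPP with ⟨t, ht1, ht2⟩ | hF | hF
  · left
    unfold prs at ht1 ht2
    rw [Multiset.mem_map] at ht1 ht2
    obtain ⟨s1, hs1, h1⟩ := ht1
    obtain ⟨s2, hs2, h2⟩ := ht2
    have he : ee s1.1 = ee s2.1 := by
      rw [← h2] at h1
      exact congrArg Prod.fst h1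
    refine ⟨c2 (s1.1 : ℝ), (co_mem_vals L _).mpr ⟨s1, hs1, rfl⟩,
      (co_mem_vals R _).mpr ⟨s2, hs2, ?_⟩⟩
    rw [co_c2_ee, co_c2_ee, he]
  · right
    left
    exact fam_rat L R hF
  · right
    right
    exact fam_rat R L hF

theorem co_famV_small (A B : Multiset ℝ) (hA : A.card ≤ 2) (h : FamV A B) :
    ∃ x : ℚ, A = vals {x, x + 1/2} ∧ B = vals {2 * x + 1/2} := by
  obtain ⟨x, y, h⟩ := h
  rcases h with h | h | h | h | h | h | h | h | h | h | h
  · exact ⟨x, h⟩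
  all_goals
    exfalso
    obtain ⟨rfl, rfl⟩ := h
    simp [vals] at hA

theorem co_fam22 {p q r s : ℝ} {A B C D : Multiset ℝ} (hA : (1 : ℝ) ∉ A) (hB : (1 : ℝ) ∉ B)
    (h1 : ({p, q} : Multiset ℝ) + {1} = A + C) (h2 : ({r, s} : Multiset ℝ) + {1} = B + D)
    (hp : C.prod = D.prod) (h : FamV A B) :
    ∃ x : ℚ, ({p, q} : Multiset ℝ) = vals {x, x + 1/2} ∧
      ({r, s} : Multiset ℝ) = {c2 ((2 * x + 1/2 : ℚ) : ℝ), 1} := by
  have hC : (1 : ℝ) ∈ C := by
    have h3 : (1 : ℝ) ∈ A + C := by rw [← h1]; simp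
    rcases Multiset.mem_add.mp h3 with h4 | h4
    · exact absurd h4 hA
    · exact h4
  have hD : (1 : ℝ) ∈ D := by
    have h3 : (1 : ℝ) ∈ B + D := by rw [← h2]; simp
    rcases Multiset.mem_add.mp h3 with h4 | h4
    · exact absurd h4 hB
    · exact h4
  obtain ⟨C', rfl⟩ := Multiset.exists_cons_of_mem hC
  obtain ⟨D', rfl⟩ := Multiset.exists_cons_of_mem hD
  have h3 : ({p, q} : Multiset ℝ) = A + C' := by
    have h4 : ({p, q} : Multiset ℝ) + {1} = (A + C') + {1} := by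
      rw [h1, add_assoc, add_comm C', Multiset.singleton_add]
    exact add_right_cancel h4
  have h5 : ({r, s} : Multiset ℝ) = B + D' := by
    have h4 : ({r, s} : Multiset ℝ) + {1} = (B + D') + {1} := by
      rw [h2, add_assoc, add_comm D', Multiset.singleton_add]
    exact add_right_cancel h4
  have h6 : A.card + C'.card = 2 := by
    rw [← Multiset.card_add, ← h3]
    simp
  have h7 : B.card + D'.card = 2 := by
    rw [← Multiset.card_add, ← h5]
    simp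
  obtain ⟨x, hx1, hx2⟩ := co_famV_small A B (by omega) h
  have h8 : A.card = 2 := by
    rw [hx1]
    simp [vals]
  have h9 : B.card = 1 := by
    rw [hx2]
    simp [vals]
  have h10 : C' = 0 := by
    rw [← Multiset.card_eq_zero]
    omega
  obtain ⟨d, rfl⟩ := Multiset.card_eq_one.mp (show D'.card = 1 by omega)
  rw [h10] at h3 hp
  rw [add_zero] at h3
  simp only [Multiset.prod_cons, Multiset.prod_zero, Multiset.prod_singleton, mul_one,
    one_mul] at hp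
  refine ⟨x, by rw [h3, hx1], ?_⟩
  rw [h5, hx2, co_vals_one, ← hp]
  rfl

/-- the conclusion of `const22`, without the trivial case -/
def CoQ (X Y : Multiset ℝ) : Prop :=
  (∃ x : ℚ, (X = vals {x, 1/2 - x} ∧ Y = vals {1/3, 1/2 - 2 * x}) ∨
      (Y = vals {x, 1/2 - x} ∧ X = vals {1/3, 1/2 - 2 * x})) ∨
    (∃ (n i j k l : ℕ) (u : ℤ), (n, [i, j, k, l]) ∈ pairTable ∧ IsCoprime u (2 * n) ∧
      ((X = vals {(u * i / n : ℚ), (u * j / n : ℚ)} ∧
          Y = vals {(u * k / n : ℚ), (u * l / n : ℚ)}) ∨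
        (Y = vals {(u * i / n : ℚ), (u * j / n : ℚ)} ∧
          X = vals {(u * k / n : ℚ), (u * l / n : ℚ)})))

theorem CoQ.symm {X Y : Multiset ℝ} (h : CoQ X Y) : CoQ Y X := by
  rcases h with ⟨x, h | h⟩ | ⟨n, i, j, k, l, u, h1, h2, h | h⟩
  · exact Or.inl ⟨x, Or.inr h⟩
  · exact Or.inl ⟨x, Or.inl h⟩
  · exact Or.inr ⟨n, i, j, k, l, u, h1, h2, Or.inr h⟩
  · exact Or.inr ⟨n, i, j, k, l, u, h1, h2, Or.inl h⟩

theorem co_neg_half (x : ℚ) : c2 ((x + 1/2 : ℚ) : ℝ) = c2 ((1/2 - (-x) : ℚ) : ℝ) := by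
  congr 1
  push_cast
  ring

theorem co_fam_coQ {p q r s : ℝ} {A B C D : Multiset ℝ} (hA : (1 : ℝ) ∉ A) (hB : (1 : ℝ) ∉ B)
    (h1 : ({p, q} : Multiset ℝ) + {1} = A + C) (h2 : ({r, s} : Multiset ℝ) + {1} = B + D)
    (hp : C.prod = D.prod) (h : FamV A B) : CoQ {p, q} {r, s} := by
  obtain ⟨x, h3, h4⟩ := co_fam22 hA hB h1 h2 hp h
  refine Or.inl ⟨-x, Or.inl ⟨?_, ?_⟩⟩
  · rw [h3, co_vals_pair, co_vals_pair]
    have h5 : c2 ((x : ℚ) : ℝ) = c2 ((-x : ℚ) : ℝ) := by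
      push_cast
      rw [c2_neg]
    rw [h5, ← co_neg_half x]
  · rw [h4, co_vals_pair, Multiset.pair_comm]
    have h5 : c2 ((1/3 : ℚ) : ℝ) = 1 := ln_c2_thirdQ
    have h6 : (2 * x + 1/2 : ℚ) = 1/2 - 2 * (-x) := by ring
    rw [h5, h6]

/-! ### The table -/

/-- the rows of the table with a third on both sides -/
def co_rows : List (ℕ × List ℕ) :=
  [(12, [1, 4, 5, 4, 4, 4]), (15, [1, 4, 5, 3, 3, 5]), (15, [3, 5, 6, 5, 5, 5]),
   (30, [1, 7, 10, 4, 6, 10]), (30, [1, 10, 11, 6, 10, 10]), (42, [1, 13, 14, 6, 12, 14]),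
   (60, [2, 20, 22, 9, 20, 21]), (60, [5, 20, 25, 12, 20, 24])]

/-- the `i`-th entry of the row is a third -/
def co_one (r : ℕ × List ℕ) (i : ℕ) : Bool :=
  (3 * r.2.getD i 0) % r.1 == 0 && (r.2.getD i 0) % r.1 != 0

set_option maxRecDepth 100000 in
theorem co_rows_check : ∀ r ∈ tab, (co_one r 0 || co_one r 1 || co_one r 2) = true →
    (co_one r 3 || co_one r 4 || co_one r 5) = true → r ∈ co_rows := by decide

theorem co_val_one (n w : ℕ) (hn : 0 < n) (u : ℤ) (hu : IsCoprime u (2 * n : ℤ)) :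
    c2 ((u * w / n : ℚ) : ℝ) = 1 ↔ ((3 * w) % n = 0 ∧ w % n ≠ 0) := by
  have h1 := gc_c2_gal_iff n hn w u (gc_cop_m hu) 1
  have h2 : ((u * w / n : ℚ) : ℝ) = (((u * (w : ℤ) : ℤ) : ℝ) / n) := by
    push_cast
    rfl
  rw [h2]
  have h3 : ((1 : ℤ) : ℝ) = 1 := by norm_num
  rw [h3] at h1
  rw [h1, c2_eq_one_iff n hn]
  unfold Third
  rw [← Nat.dvd_iff_mod_eq_zero, Ne, ← Nat.dvd_iff_mod_eq_zero]
  have h4 : (((2 * n : ℕ) : ℤ) ∣ 6 * (w : ℤ)) ↔ n ∣ 3 * w := by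
    have h5 : (6 * (w : ℤ)) = ((2 * (3 * w) : ℕ) : ℤ) := by push_cast; ring
    rw [h5, Int.natCast_dvd_natCast]
    exact Nat.mul_dvd_mul_iff_left (by norm_num)
  have h6 : (((2 * n : ℕ) : ℤ) ∣ 2 * (w : ℤ)) ↔ n ∣ w := by
    have h5 : (2 * (w : ℤ)) = ((2 * w : ℕ) : ℤ) := by push_cast; ring
    rw [h5, Int.natCast_dvd_natCast]
    exact Nat.mul_dvd_mul_iff_left (by norm_num)
  rw [h4, h6]

theorem co_L3 (n : ℕ) (l : List ℕ) (u : ℤ) :
    L3 (ang n (fun i => u * rep (n, l) i)) = {c2 ((u * (l.getD 0 0 : ℕ) / n : ℚ) : ℝ),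
      c2 ((u * (l.getD 1 0 : ℕ) / n : ℚ) : ℝ), c2 ((u * (l.getD 2 0 : ℕ) / n : ℚ) : ℝ)} := by
  unfold L3 ang rep
  push_cast
  rfl

theorem co_R3 (n : ℕ) (l : List ℕ) (u : ℤ) :
    R3 (ang n (fun i => u * rep (n, l) i)) = {c2 ((u * (l.getD 3 0 : ℕ) / n : ℚ) : ℝ),
      c2 ((u * (l.getD 4 0 : ℕ) / n : ℚ) : ℝ), c2 ((u * (l.getD 5 0 : ℕ) / n : ℚ) : ℝ)} := by
  unfold R3 ang rep
  push_cast
  rfl

theorem co_rows_of (r : ℕ × List ℕ) (hr : r ∈ tab) (u : ℤ) (hu : IsCoprime u (2 * r.1 : ℤ))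
    (h1 : (1 : ℝ) ∈ L3 (ang r.1 (fun i => u * rep r i)))
    (h2 : (1 : ℝ) ∈ R3 (ang r.1 (fun i => u * rep r i))) : r ∈ co_rows := by
  have hn := gc_tab_pos r hr
  have key : ∀ i : ℕ, (1 : ℝ) = c2 ((u * (r.2.getD i 0 : ℕ) / r.1 : ℚ) : ℝ) → co_one r i = true := by
    intro i hi
    have h3 := (co_val_one r.1 (r.2.getD i 0) hn u hu).mp hi.symm
    unfold co_one
    simp only [Bool.and_eq_true, beq_iff_eq, bne_iff_ne]
    exact h3
  obtain ⟨n, l⟩ := r
  rw [co_L3] at h1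
  rw [co_R3] at h2
  simp only [Multiset.insert_eq_cons, Multiset.mem_cons, Multiset.mem_singleton] at h1 h2
  refine co_rows_check (n, l) hr ?_ ?_
  · rcases h1 with h | h | h
    · simp [key 0 h]
    · simp [key 1 h]
    · simp [key 2 h]
  · rcases h2 with h | h | h
    · simp [key 3 h]
    · simp [key 4 h]
    · simp [key 5 h]

theorem co_congr (n : ℕ) (hn : 0 < n) (u : ℤ) (w : ℕ) (x : ℚ) (l : ℤ) (hx : x = l / n)
    (h : (n : ℤ) ∣ u * w - l ∨ (n : ℤ) ∣ u * w + l) :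
    c2 ((u * w / n : ℚ) : ℝ) = c2 (x : ℝ) := by
  have h1 := gc_c2_congr n hn (u * w) l h
  rw [hx]
  push_cast at h1 ⊢
  exact h1

theorem co_odd {u : ℤ} {N : ℤ} (h : IsCoprime u (2 * N)) : u % 2 = 1 := by
  obtain ⟨a, b, hab⟩ := h
  by_contra hne
  have h1 : ∃ k, u = 2 * k := ⟨u / 2, by omega⟩
  obtain ⟨k, rfl⟩ := h1
  have h2 : 2 * (a * k + b * N) = 1 := by linear_combination hab
  omega

theorem co_not3 {u : ℤ} {N : ℤ} (h : IsCoprime u (2 * (3 * N))) : u % 3 ≠ 0 := by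
  obtain ⟨a, b, hab⟩ := h
  intro hne
  have h1 : ∃ k, u = 3 * k := ⟨u / 3, by omega⟩
  obtain ⟨k, rfl⟩ := h1
  have h2 : 3 * (a * k + 2 * (b * N)) = 1 := by linear_combination hab
  omega

theorem co_not5 {u : ℤ} {N : ℤ} (h : IsCoprime u (2 * (5 * N))) : u % 5 ≠ 0 := by
  obtain ⟨a, b, hab⟩ := h
  intro hne
  have h1 : ∃ k, u = 5 * k := ⟨u / 5, by omega⟩
  obtain ⟨k, rfl⟩ := h1
  have h2 : 5 * (a * k + 2 * (b * N)) = 1 := by linear_combination hab
  omega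

theorem co_table (r : ℕ × List ℕ) (hr : r ∈ co_rows) (u : ℤ) (hu : IsCoprime u (2 * r.1 : ℤ))
    (X Y : Multiset ℝ) (h1 : X + {1} = L3 (ang r.1 (fun i => u * rep r i)))
    (h2 : Y + {1} = R3 (ang r.1 (fun i => u * rep r i))) : CoQ X Y := by
  have one : ∀ (n w : ℕ), 0 < n → IsCoprime u (2 * n : ℤ) → (3 * w) % n = 0 → w % n ≠ 0 →
      c2 ((u * w / n : ℚ) : ℝ) = 1 := fun n w hn hu h3 h4 => (co_val_one n w hn u hu).mpr ⟨h3, h4⟩
  unfold co_rows at hr
  simp only [List.mem_cons, List.not_mem_nil, or_false] at hr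
  rcases hr with rfl | rfl | rfl | rfl | rfl | rfl | rfl | rfl <;> rw [co_L3] at h1 <;>
    rw [co_R3] at h2
  · have h3 : c2 ((u * ([1, 4, 5, 4, 4, 4].getD 1 0 : ℕ) / (12 : ℕ) : ℚ) : ℝ) = 1 :=
      one 12 4 (by norm_num) hu (by norm_num) (by norm_num)
    have h4 : c2 ((u * ([1, 4, 5, 4, 4, 4].getD 3 0 : ℕ) / (12 : ℕ) : ℚ) : ℝ) = 1 :=
      one 12 4 (by norm_num) hu (by norm_num) (by norm_num)
    have h5 : c2 ((u * ([1, 4, 5, 4, 4, 4].getD 4 0 : ℕ) / (12 : ℕ) : ℚ) : ℝ) = 1 :=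
      one 12 4 (by norm_num) hu (by norm_num) (by norm_num)
    have h6 : c2 ((u * ([1, 4, 5, 4, 4, 4].getD 5 0 : ℕ) / (12 : ℕ) : ℚ) : ℝ) = 1 :=
      one 12 4 (by norm_num) hu (by norm_num) (by norm_num)
    simp only [h3] at h1
    simp only [h4, h5, h6] at h2
    rw [co_mid] at h1
    rw [co_end] at h2
    have h7 := add_right_cancel h1
    have h8 := add_right_cancel h2
    have hodd := co_odd hu
    have h3' : u % 3 ≠ 0 := by
      have h9 : IsCoprime u (2 * (3 * 4)) := by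
        have h10 : (2 * (3 * 4) : ℤ) = 2 * ((12 : ℕ) : ℤ) := by norm_num
        rw [h10]
        exact hu
      exact co_not3 h9
    left
    refine ⟨u / 12, Or.inl ⟨?_, ?_⟩⟩
    · rw [h7, co_vals_pair]
      congr 1
      · congr 1
        push_cast
        simp
      · congr 1
        refine co_congr 12 (by norm_num) u 5 _ (6 - u) ?_ (Or.inl ?_)
        · push_cast
          ring
        · push_cast
          omega
    · rw [h8, co_vals_pair]
      have h9 : c2 ((1/3 : ℚ) : ℝ) = 1 := ln_c2_thirdQ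
      rw [h9]
      congr 1
      congr 1
      symm
      rw [← h9]
      symm
      rw [h9]
      have h10 : u % 6 = 1 ∨ u % 6 = 5 := by omega
      have h11 : c2 ((4 : ℤ) / (12 : ℕ) : ℝ) = 1 := by
        have h12 : ((4 : ℤ) / (12 : ℕ) : ℝ) = 1/3 := by norm_num
        rw [h12, c2_third]
      rw [← h11]
      have h13 : ((1/2 - 2 * (u / 12) : ℚ) : ℝ) = ((6 - 2 * u : ℤ) : ℝ) / (12 : ℕ) := by
        push_cast
        ring
      rw [h13]
      apply gc_c2_congr 12 (by norm_num)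
      push_cast
      omega
  · have h3 : c2 ((u * ([1, 4, 5, 3, 3, 5].getD 2 0 : ℕ) / (15 : ℕ) : ℚ) : ℝ) = 1 :=
      one 15 5 (by norm_num) hu (by norm_num) (by norm_num)
    have h4 : c2 ((u * ([1, 4, 5, 3, 3, 5].getD 5 0 : ℕ) / (15 : ℕ) : ℚ) : ℝ) = 1 :=
      one 15 5 (by norm_num) hu (by norm_num) (by norm_num)
    simp only [h3] at h1
    simp only [h4] at h2
    rw [co_end] at h1 h2
    refine Or.inr ⟨15, 1, 4, 3, 3, u, by decide, hu, Or.inl ⟨?_, ?_⟩⟩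
    · rw [add_right_cancel h1, co_vals_pair]
      rfl
    · rw [add_right_cancel h2, co_vals_pair]
      rfl
  · have h3 : c2 ((u * ([3, 5, 6, 5, 5, 5].getD 1 0 : ℕ) / (15 : ℕ) : ℚ) : ℝ) = 1 :=
      one 15 5 (by norm_num) hu (by norm_num) (by norm_num)
    have h4 : c2 ((u * ([3, 5, 6, 5, 5, 5].getD 5 0 : ℕ) / (15 : ℕ) : ℚ) : ℝ) = 1 :=
      one 15 5 (by norm_num) hu (by norm_num) (by norm_num)
    rw [h3, co_mid] at h1
    rw [h4, co_end] at h2
    refine Or.inr ⟨15, 3, 6, 5, 5, u, by decide, hu, Or.inl ⟨?_, ?_⟩⟩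
    · rw [add_right_cancel h1, co_vals_pair]
      rfl
    · rw [add_right_cancel h2, co_vals_pair]
      rfl
  · have h3 : c2 ((u * ([1, 7, 10, 4, 6, 10].getD 2 0 : ℕ) / (30 : ℕ) : ℚ) : ℝ) = 1 :=
      one 30 10 (by norm_num) hu (by norm_num) (by norm_num)
    have h4 : c2 ((u * ([1, 7, 10, 4, 6, 10].getD 5 0 : ℕ) / (30 : ℕ) : ℚ) : ℝ) = 1 :=
      one 30 10 (by norm_num) hu (by norm_num) (by norm_num)
    rw [h3, co_end] at h1
    rw [h4, co_end] at h2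
    refine Or.inr ⟨30, 1, 7, 4, 6, u, by decide, hu, Or.inl ⟨?_, ?_⟩⟩
    · rw [add_right_cancel h1, co_vals_pair]
      rfl
    · rw [add_right_cancel h2, co_vals_pair]
      rfl
  · have h3 : c2 ((u * ([1, 10, 11, 6, 10, 10].getD 1 0 : ℕ) / (30 : ℕ) : ℚ) : ℝ) = 1 :=
      one 30 10 (by norm_num) hu (by norm_num) (by norm_num)
    have h4 : c2 ((u * ([1, 10, 11, 6, 10, 10].getD 5 0 : ℕ) / (30 : ℕ) : ℚ) : ℝ) = 1 :=
      one 30 10 (by norm_num) hu (by norm_num) (by norm_num)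
    rw [h3, co_mid] at h1
    rw [h4, co_end] at h2
    refine Or.inr ⟨30, 1, 11, 6, 10, u, by decide, hu, Or.inl ⟨?_, ?_⟩⟩
    · rw [add_right_cancel h1, co_vals_pair]
      rfl
    · rw [add_right_cancel h2, co_vals_pair]
      rfl
  · have h3 : c2 ((u * ([1, 13, 14, 6, 12, 14].getD 2 0 : ℕ) / (42 : ℕ) : ℚ) : ℝ) = 1 :=
      one 42 14 (by norm_num) hu (by norm_num) (by norm_num)
    have h4 : c2 ((u * ([1, 13, 14, 6, 12, 14].getD 5 0 : ℕ) / (42 : ℕ) : ℚ) : ℝ) = 1 :=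
      one 42 14 (by norm_num) hu (by norm_num) (by norm_num)
    rw [h3, co_end] at h1
    rw [h4, co_end] at h2
    refine Or.inr ⟨42, 1, 13, 6, 12, u, by decide, hu, Or.inl ⟨?_, ?_⟩⟩
    · rw [add_right_cancel h1, co_vals_pair]
      rfl
    · rw [add_right_cancel h2, co_vals_pair]
      rfl
  · have h3 : c2 ((u * ([2, 20, 22, 9, 20, 21].getD 1 0 : ℕ) / (60 : ℕ) : ℚ) : ℝ) = 1 :=
      one 60 20 (by norm_num) hu (by norm_num) (by norm_num)
    have h4 : c2 ((u * ([2, 20, 22, 9, 20, 21].getD 4 0 : ℕ) / (60 : ℕ) : ℚ) : ℝ) = 1 :=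
      one 60 20 (by norm_num) hu (by norm_num) (by norm_num)
    rw [h3, co_mid] at h1
    rw [h4, co_mid] at h2
    refine Or.inr ⟨60, 2, 22, 9, 21, u, by decide, hu, Or.inl ⟨?_, ?_⟩⟩
    · rw [add_right_cancel h1, co_vals_pair]
      rfl
    · rw [add_right_cancel h2, co_vals_pair]
      rfl
  · have h3 : c2 ((u * ([5, 20, 25, 12, 20, 24].getD 1 0 : ℕ) / (60 : ℕ) : ℚ) : ℝ) = 1 :=
      one 60 20 (by norm_num) hu (by norm_num) (by norm_num)
    have h4 : c2 ((u * ([5, 20, 25, 12, 20, 24].getD 4 0 : ℕ) / (60 : ℕ) : ℚ) : ℝ) = 1 :=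
      one 60 20 (by norm_num) hu (by norm_num) (by norm_num)
    rw [h3, co_mid] at h1
    rw [h4, co_mid] at h2
    refine Or.inr ⟨60, 5, 25, 12, 24, u, by decide, hu, Or.inl ⟨?_, ?_⟩⟩
    · rw [add_right_cancel h1, co_vals_pair]
      rfl
    · rw [add_right_cancel h2, co_vals_pair]
      rfl

/-! ### The three statements -/

theorem co_L3_third (a b c d : ℚ) :
    L3 ![a, b, 1/3, c, d, 1/3] = vals {a, b} + {1} := by
  rw [co_vals_pair, ← co_end, ← ln_c2_thirdQ]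
  rfl

theorem co_R3_third (a b c d : ℚ) :
    R3 ![a, b, 1/3, c, d, 1/3] = vals {c, d} + {1} := by
  rw [co_vals_pair, ← co_end, ← ln_c2_thirdQ]
  rfl

theorem const22 (H : MainStatement) (a b c d : ℚ)
    (ha : c2 (a : ℝ) ≠ 0) (hb : c2 (b : ℝ) ≠ 0) (hc : c2 (c : ℝ) ≠ 0) (hd : c2 (d : ℝ) ≠ 0)
    (h : c2 (a : ℝ) * c2 (b : ℝ) = c2 (c : ℝ) * c2 (d : ℝ)) :
    vals {a, b} = vals {c, d} ∨
    (∃ x : ℚ, (vals {a, b} = vals {x, 1/2 - x} ∧ vals {c, d} = vals {1/3, 1/2 - 2 * x}) ∨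
      (vals {c, d} = vals {x, 1/2 - x} ∧ vals {a, b} = vals {1/3, 1/2 - 2 * x})) ∨
    (∃ (n i j k l : ℕ) (u : ℤ), (n, [i, j, k, l]) ∈ pairTable ∧ IsCoprime u (2 * n) ∧
      ((vals {a, b} = vals {(u * i / n : ℚ), (u * j / n : ℚ)} ∧
          vals {c, d} = vals {(u * k / n : ℚ), (u * l / n : ℚ)}) ∨
        (vals {c, d} = vals {(u * i / n : ℚ), (u * j / n : ℚ)} ∧
          vals {a, b} = vals {(u * k / n : ℚ), (u * l / n : ℚ)}))) := by
  have h3 : c2 ((1/3 : ℚ) : ℝ) = 1 := ln_c2_thirdQ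
  have hL := co_L3_third a b c d
  have hR := co_R3_third a b c d
  have hsol : Sol ![a, b, 1/3, c, d, 1/3] := by
    constructor
    · intro i
      fin_cases i
      · exact ha
      · exact hb
      · show c2 ((1/3 : ℚ) : ℝ) ≠ 0
        rw [h3]
        norm_num
      · exact hc
      · exact hd
      · show c2 ((1/3 : ℚ) : ℝ) ≠ 0
        rw [h3]
        norm_num
    · show c2 (a : ℝ) * c2 (b : ℝ) * c2 ((1/3 : ℚ) : ℝ) = c2 (c : ℝ) * c2 (d : ℝ) *
        c2 ((1/3 : ℚ) : ℝ)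
      rw [h]
  rcases H _ hsol with ht | hni | htab
  · left
    unfold Triv at ht
    rw [hL, hR] at ht
    exact add_right_cancel ht
  · obtain ⟨A, B, C, D, hA, hB, h1, h2, hp, hcase⟩ := co_ni _ hsol hni
    rw [hL, co_vals_pair] at h1
    rw [hR, co_vals_pair] at h2
    rcases hcase with ⟨y, hyA, hyB⟩ | hF | hF
    · left
      have hy1 : y ≠ 1 := by
        rintro rfl
        exact hA hyA
      have hya : y = c2 (a : ℝ) ∨ y = c2 (b : ℝ) := by
        have hy : y ∈ ({c2 (a : ℝ), c2 (b : ℝ)} : Multiset ℝ) + {1} := by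
          rw [h1]
          exact Multiset.mem_add.mpr (Or.inl hyA)
        simp only [Multiset.insert_eq_cons, Multiset.mem_add, Multiset.mem_cons,
          Multiset.mem_singleton] at hy
        tauto
      have hyc : y = c2 (c : ℝ) ∨ y = c2 (d : ℝ) := by
        have hy : y ∈ ({c2 (c : ℝ), c2 (d : ℝ)} : Multiset ℝ) + {1} := by
          rw [h2]
          exact Multiset.mem_add.mpr (Or.inl hyB)
        simp only [Multiset.insert_eq_cons, Multiset.mem_add, Multiset.mem_cons,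
          Multiset.mem_singleton] at hy
        tauto
      rw [co_vals_pair, co_vals_pair]
      rcases hya with h4 | h4 <;> rcases hyc with h5 | h5
      · have h6 : c2 (a : ℝ) = c2 (c : ℝ) := h4.symm.trans h5
        have h7 : c2 (b : ℝ) = c2 (d : ℝ) := by
          rw [← h6] at h
          exact mul_left_cancel₀ ha h
        rw [h6, h7]
      · have h6 : c2 (a : ℝ) = c2 (d : ℝ) := h4.symm.trans h5
        have h7 : c2 (b : ℝ) = c2 (c : ℝ) := by
          rw [← h6, mul_comm (c2 (c : ℝ))] at h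
          exact mul_left_cancel₀ ha h
        rw [h6, h7, Multiset.pair_comm]
      · have h6 : c2 (b : ℝ) = c2 (c : ℝ) := h4.symm.trans h5
        have h7 : c2 (a : ℝ) = c2 (d : ℝ) := by
          rw [← h6, mul_comm] at h
          exact mul_left_cancel₀ hb h
        rw [h6, h7, Multiset.pair_comm]
      · have h6 : c2 (b : ℝ) = c2 (d : ℝ) := h4.symm.trans h5
        have h7 : c2 (a : ℝ) = c2 (c : ℝ) := by
          rw [← h6] at h
          exact mul_right_cancel₀ hb h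
        rw [h6, h7]
    · right
      have h4 : CoQ (vals {a, b}) (vals {c, d}) := by
        rw [co_vals_pair, co_vals_pair]
        exact co_fam_coQ hA hB h1 h2 hp hF
      exact h4
    · right
      have h4 : CoQ (vals {a, b}) (vals {c, d}) := by
        rw [co_vals_pair, co_vals_pair]
        exact (co_fam_coQ hB hA h2 h1 hp.symm hF).symm
      exact h4
  · right
    obtain ⟨r, hr, u, hu, hsame⟩ := htab
    rcases hsame with ⟨h1, h2⟩ | ⟨h1, h2⟩
    · rw [hL] at h1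
      rw [hR] at h2
      have hrow := co_rows_of r hr u hu (by rw [← h1]; simp) (by rw [← h2]; simp)
      exact co_table r hrow u hu _ _ h1 h2
    · rw [hL] at h1
      rw [hR] at h2
      have hrow := co_rows_of r hr u hu (by rw [← h2]; simp) (by rw [← h1]; simp)
      exact (co_table r hrow u hu _ _ h2 h1).symm

/-- one of the two values is `1` -/
theorem co_of_one {e f g : ℝ} (h : e = f * g) (h1 : f = 1 ∨ g = 1) :
    (e = f ∧ g = 1) ∨ (e = g ∧ f = 1) := by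
  rcases h1 with rfl | rfl
  · right
    exact ⟨by rw [h, one_mul], rfl⟩
  · left
    exact ⟨by rw [h, mul_one], rfl⟩

theorem const12 (H : MainStatement) (e f g : ℚ)
    (he : c2 (e : ℝ) ≠ 0) (hf : c2 (f : ℝ) ≠ 0) (hg : c2 (g : ℝ) ≠ 0)
    (h : c2 (e : ℝ) = c2 (f : ℝ) * c2 (g : ℝ)) :
    (c2 (e : ℝ) = c2 (f : ℝ) ∧ c2 (g : ℝ) = 1) ∨ (c2 (e : ℝ) = c2 (g : ℝ) ∧ c2 (f : ℝ) = 1) ∨
    (∃ y : ℚ, c2 (e : ℝ) = c2 ((2 * y + 1/2 : ℚ) : ℝ) ∧ vals {f, g} = vals {y, y + 1/2}) ∨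
    (c2 (e : ℝ) = c2 ((1/3 : ℚ) : ℝ) ∧ vals {f, g} = vals {1/5, 2/5}) ∨
    (c2 (e : ℝ) = c2 ((1/5 : ℚ) : ℝ) ∧ vals {f, g} = vals {1/30, 11/30}) ∨
    (c2 (e : ℝ) = c2 ((2/5 : ℚ) : ℝ) ∧ vals {f, g} = vals {7/30, 13/30}) := by
  have h3 : c2 ((1/3 : ℚ) : ℝ) = 1 := ln_c2_thirdQ
  have hone : (c2 (f : ℝ) = 1 ∨ c2 (g : ℝ) = 1) →
      ((c2 (e : ℝ) = c2 (f : ℝ) ∧ c2 (g : ℝ) = 1) ∨ (c2 (e : ℝ) = c2 (g : ℝ) ∧ c2 (f : ℝ) = 1)) :=
    fun h1 => co_of_one h h1
  have hfin : ∀ {P : Prop}, (c2 (f : ℝ) = 1 ∨ c2 (g : ℝ) = 1) →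
      ((c2 (e : ℝ) = c2 (f : ℝ) ∧ c2 (g : ℝ) = 1) ∨
        (c2 (e : ℝ) = c2 (g : ℝ) ∧ c2 (f : ℝ) = 1) ∨ P) := by
    intro P h1
    rcases hone h1 with h2 | h2
    · exact Or.inl h2
    · exact Or.inr (Or.inl h2)
  rcases const22 H e (1/3) f g he (by rw [h3]; norm_num) hf hg (by rw [h3, mul_one, h]) with
    ht | ⟨x, ⟨h1, h2⟩ | ⟨h1, h2⟩⟩ | ⟨n, i, j, k, l, u, hp, hu, ⟨h1, h2⟩ | ⟨h1, h2⟩⟩
  · rw [co_vals_pair, co_vals_pair, h3] at ht
    apply hfin
    rcases co_pair ht with ⟨-, h4⟩ | ⟨-, h4⟩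
    · exact Or.inr h4.symm
    · exact Or.inl h4.symm
  · apply hfin
    rw [co_vals_pair, co_vals_pair, h3] at h2
    rcases co_pair h2 with ⟨h4, -⟩ | ⟨-, h4⟩
    · exact Or.inl h4
    · exact Or.inr h4
  · right
    right
    left
    refine ⟨-x, ?_, ?_⟩
    · rw [co_vals_pair, co_vals_pair, h3, Multiset.pair_comm] at h2
      have h4 := (Multiset.cons_inj_right (1 : ℝ)).mp h2
      have h5 : c2 (e : ℝ) = c2 ((1/2 - 2 * x : ℚ) : ℝ) := by simpa using h4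
      have h6 : (2 * -x + 1/2 : ℚ) = 1/2 - 2 * x := by ring
      rw [h6]
      exact h5
    · rw [h1, co_vals_pair, co_vals_pair]
      have h4 : c2 ((x : ℚ) : ℝ) = c2 ((-x : ℚ) : ℝ) := by
        push_cast
        rw [c2_neg]
      have h6 : (-x + 1/2 : ℚ) = 1/2 - x := by ring
      rw [h4, h6]
  · -- `{e, 1/3}` is the first side
    exfalso
    rw [co_vals_pair, co_vals_pair, h3] at h1
    have hval : c2 ((u * i / n : ℚ) : ℝ) = 1 ∨ c2 ((u * j / n : ℚ) : ℝ) = 1 := by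
      rcases co_pair h1 with ⟨-, h4⟩ | ⟨-, h4⟩
      · exact Or.inr h4.symm
      · exact Or.inl h4.symm
    unfold pairTable at hp
    simp only [List.mem_cons, Prod.mk.injEq, List.cons.injEq, List.not_mem_nil, or_false,
      and_true] at hp
    rcases hp with ⟨rfl, rfl, rfl, rfl, rfl⟩ | ⟨rfl, rfl, rfl, rfl, rfl⟩ |
      ⟨rfl, rfl, rfl, rfl, rfl⟩ | ⟨rfl, rfl, rfl, rfl, rfl⟩ | ⟨rfl, rfl, rfl, rfl, rfl⟩ |
      ⟨rfl, rfl, rfl, rfl, rfl⟩ | ⟨rfl, rfl, rfl, rfl, rfl⟩ <;>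
    · rw [co_val_one _ _ (by norm_num) u hu, co_val_one _ _ (by norm_num) u hu] at hval
      norm_num at hval
  · rw [co_vals_pair, co_vals_pair, h3] at h2
    have hval : (c2 (e : ℝ) = c2 ((u * k / n : ℚ) : ℝ) ∧ c2 ((u * l / n : ℚ) : ℝ) = 1) ∨
        (c2 (e : ℝ) = c2 ((u * l / n : ℚ) : ℝ) ∧ c2 ((u * k / n : ℚ) : ℝ) = 1) := by
      rcases co_pair h2 with ⟨h4, h5⟩ | ⟨h4, h5⟩
      · exact Or.inl ⟨h4, h5.symm⟩
      · exact Or.inr ⟨h4, h5.symm⟩
    unfold pairTable at hp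
    simp only [List.mem_cons, Prod.mk.injEq, List.cons.injEq, List.not_mem_nil, or_false,
      and_true] at hp
    rcases hp with ⟨rfl, rfl, rfl, rfl, rfl⟩ | ⟨rfl, rfl, rfl, rfl, rfl⟩ |
      ⟨rfl, rfl, rfl, rfl, rfl⟩ | ⟨rfl, rfl, rfl, rfl, rfl⟩ | ⟨rfl, rfl, rfl, rfl, rfl⟩ |
      ⟨rfl, rfl, rfl, rfl, rfl⟩ | ⟨rfl, rfl, rfl, rfl, rfl⟩
    · exfalso
      rw [co_val_one _ _ (by norm_num) u hu] at hval
      norm_num at hval
    · -- (15, [3, 6, 5, 5])
      right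
      right
      right
      left
      have h5 : c2 ((u * (5 : ℕ) / (15 : ℕ) : ℚ) : ℝ) = 1 :=
        (co_val_one 15 5 (by norm_num) u hu).mpr ⟨by norm_num, by norm_num⟩
      have h6 : c2 (e : ℝ) = 1 := by
        rcases hval with ⟨h7, -⟩ | ⟨h7, -⟩ <;> rw [h7, h5]
      refine ⟨by rw [h6, h3], ?_⟩
      rw [h1, co_vals_pair, co_vals_pair]
      have hu5 : u % 5 ≠ 0 := by
        have h9 : IsCoprime u (2 * (5 * 3)) := by
          have h10 : (2 * (5 * 3) : ℤ) = 2 * ((15 : ℕ) : ℤ) := by norm_num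
          rw [h10]
          exact hu
        exact co_not5 h9
      have h7 : (u % 5 = 1 ∨ u % 5 = 4) ∨ (u % 5 = 2 ∨ u % 5 = 3) := by omega
      rcases h7 with h7 | h7
      · have h8 : c2 ((u * (3 : ℕ) / (15 : ℕ) : ℚ) : ℝ) = c2 ((1/5 : ℚ) : ℝ) := by
          apply co_congr 15 (by norm_num) u 3 _ 3 (by norm_num)
          push_cast
          omega
        have h9 : c2 ((u * (6 : ℕ) / (15 : ℕ) : ℚ) : ℝ) = c2 ((2/5 : ℚ) : ℝ) := by
          apply co_congr 15 (by norm_num) u 6 _ 6 (by norm_num)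
          push_cast
          omega
        rw [h8, h9]
      · have h8 : c2 ((u * (3 : ℕ) / (15 : ℕ) : ℚ) : ℝ) = c2 ((2/5 : ℚ) : ℝ) := by
          apply co_congr 15 (by norm_num) u 3 _ 6 (by norm_num)
          push_cast
          omega
        have h9 : c2 ((u * (6 : ℕ) / (15 : ℕ) : ℚ) : ℝ) = c2 ((1/5 : ℚ) : ℝ) := by
          apply co_congr 15 (by norm_num) u 6 _ 3 (by norm_num)
          push_cast
          omega
        rw [h8, h9, Multiset.pair_comm]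
    · exfalso
      rw [co_val_one _ _ (by norm_num) u hu, co_val_one _ _ (by norm_num) u hu] at hval
      norm_num at hval
    · -- (30, [1, 11, 6, 10])
      right
      right
      right
      right
      have h6 : c2 (e : ℝ) = c2 ((u * (6 : ℕ) / (30 : ℕ) : ℚ) : ℝ) := by
        rcases hval with ⟨h7, -⟩ | ⟨-, h7⟩
        · exact h7
        · exfalso
          rw [co_val_one _ _ (by norm_num) u hu] at h7
          norm_num at h7
      rw [h6, h1, co_vals_pair, co_vals_pair, co_vals_pair]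
      have hodd := co_odd hu
      have hu5 : u % 5 ≠ 0 := by
        have h9 : IsCoprime u (2 * (5 * 6)) := by
          have h10 : (2 * (5 * 6) : ℤ) = 2 * ((30 : ℕ) : ℤ) := by norm_num
          rw [h10]
          exact hu
        exact co_not5 h9
      have hu3 : u % 3 ≠ 0 := by
        have h9 : IsCoprime u (2 * (3 * 10)) := by
          have h10 : (2 * (3 * 10) : ℤ) = 2 * ((30 : ℕ) : ℤ) := by norm_num
          rw [h10]
          exact hu
        exact co_not3 h9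
      have h7 : ((u % 30 = 1 ∨ u % 30 = 29) ∨ (u % 30 = 11 ∨ u % 30 = 19)) ∨
          ((u % 30 = 7 ∨ u % 30 = 23) ∨ (u % 30 = 13 ∨ u % 30 = 17)) := by
        have h11 : (u % 30) % 2 = 1 := by omega
        have h12 : (u % 30) % 3 ≠ 0 := by omega
        have h13 : (u % 30) % 5 ≠ 0 := by omega
        have h14 : 0 ≤ u % 30 := by omega
        have h15 : u % 30 < 30 := by omega
        generalize u % 30 = v at h11 h12 h13 h14 h15 ⊢
        interval_cases v <;> omega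
      rcases h7 with h7 | h7
      · left
        have h8 : c2 ((u * (6 : ℕ) / (30 : ℕ) : ℚ) : ℝ) = c2 ((1/5 : ℚ) : ℝ) := by
          apply co_congr 30 (by norm_num) u 6 _ 6 (by norm_num)
          push_cast
          omega
        refine ⟨h8, ?_⟩
        rcases h7 with h7 | h7
        · have h9 : c2 ((u * (1 : ℕ) / (30 : ℕ) : ℚ) : ℝ) = c2 ((1/30 : ℚ) : ℝ) := by
            apply co_congr 30 (by norm_num) u 1 _ 1 (by norm_num)
            push_cast
            omega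
          have h10 : c2 ((u * (11 : ℕ) / (30 : ℕ) : ℚ) : ℝ) = c2 ((11/30 : ℚ) : ℝ) := by
            apply co_congr 30 (by norm_num) u 11 _ 11 (by norm_num)
            push_cast
            omega
          rw [h9, h10]
        · have h9 : c2 ((u * (1 : ℕ) / (30 : ℕ) : ℚ) : ℝ) = c2 ((11/30 : ℚ) : ℝ) := by
            apply co_congr 30 (by norm_num) u 1 _ 11 (by norm_num)
            push_cast
            omega
          have h10 : c2 ((u * (11 : ℕ) / (30 : ℕ) : ℚ) : ℝ) = c2 ((1/30 : ℚ) : ℝ) := by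
            apply co_congr 30 (by norm_num) u 11 _ 1 (by norm_num)
            push_cast
            omega
          rw [h9, h10, Multiset.pair_comm]
      · right
        have h8 : c2 ((u * (6 : ℕ) / (30 : ℕ) : ℚ) : ℝ) = c2 ((2/5 : ℚ) : ℝ) := by
          apply co_congr 30 (by norm_num) u 6 _ 12 (by norm_num)
          push_cast
          omega
        refine ⟨h8, ?_⟩
        rcases h7 with h7 | h7
        · have h9 : c2 ((u * (1 : ℕ) / (30 : ℕ) : ℚ) : ℝ) = c2 ((7/30 : ℚ) : ℝ) := by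
            apply co_congr 30 (by norm_num) u 1 _ 7 (by norm_num)
            push_cast
            omega
          have h10 : c2 ((u * (11 : ℕ) / (30 : ℕ) : ℚ) : ℝ) = c2 ((13/30 : ℚ) : ℝ) := by
            apply co_congr 30 (by norm_num) u 11 _ 13 (by norm_num)
            push_cast
            omega
          rw [h9, h10]
        · have h9 : c2 ((u * (1 : ℕ) / (30 : ℕ) : ℚ) : ℝ) = c2 ((13/30 : ℚ) : ℝ) := by
            apply co_congr 30 (by norm_num) u 1 _ 13 (by norm_num)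
            push_cast
            omega
          have h10 : c2 ((u * (11 : ℕ) / (30 : ℕ) : ℚ) : ℝ) = c2 ((7/30 : ℚ) : ℝ) := by
            apply co_congr 30 (by norm_num) u 11 _ 7 (by norm_num)
            push_cast
            omega
          rw [h9, h10, Multiset.pair_comm]
    all_goals
      exfalso
      rw [co_val_one _ _ (by norm_num) u hu, co_val_one _ _ (by norm_num) u hu] at hval
      norm_num at hval

theorem const02 (H : MainStatement) (f g : ℚ) (h : c2 (f : ℝ) * c2 (g : ℝ) = 1) :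
    vals {f, g} = vals {1/3, 1/3} ∨ vals {f, g} = vals {1/5, 2/5} ∨
      vals {f, g} = vals {1/12, 5/12} := by
  have h3 : c2 ((1/3 : ℚ) : ℝ) = 1 := ln_c2_thirdQ
  have hf : c2 (f : ℝ) ≠ 0 := left_ne_zero_of_mul_eq_one h
  have hg : c2 (g : ℝ) ≠ 0 := right_ne_zero_of_mul_eq_one h
  have key : ∀ (a b : ℤ) (hb : 0 < b) (h3a : ¬ b ∣ 3 * a), c2 ((a / b : ℚ) : ℝ) ≠ 1 := by
    intro a b hb h3a h4
    rw [c2_eq_one_iff'] at h4
    apply h3a
    have hb' : (b : ℝ) ≠ 0 := by exact_mod_cast hb.ne'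
    rcases h4 with ⟨n, hn⟩ | ⟨n, hn⟩
    · refine ⟨1 + 3 * n, ?_⟩
      push_cast at hn
      field_simp at hn
      have h5 : ((3 * a : ℤ) : ℝ) = ((b * (1 + 3 * n) : ℤ) : ℝ) := by
        push_cast
        linarith
      exact_mod_cast h5
    · refine ⟨-1 + 3 * n, ?_⟩
      push_cast at hn
      field_simp at hn
      have h5 : ((3 * a : ℤ) : ℝ) = ((b * (-1 + 3 * n) : ℤ) : ℝ) := by
        push_cast
        linarith
      exact_mod_cast h5
  rcases const12 H (1/3) f g (by rw [h3]; norm_num) hf hg (by rw [h3, h]) with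
    ⟨h1, h2⟩ | ⟨h1, h2⟩ | ⟨y, h1, h2⟩ | ⟨-, h2⟩ | ⟨h1, -⟩ | ⟨h1, -⟩
  · left
    rw [co_vals_pair, co_vals_pair, ← h1, h2, h3]
  · left
    rw [co_vals_pair, co_vals_pair, ← h1, h2, h3]
  · right
    right
    rw [h3] at h1
    have h4 := h1.symm
    rw [c2_eq_one_iff'] at h4
    rw [h2, co_vals_pair, co_vals_pair]
    -- `y = ± 1/6 - 1/4 + n/2`
    have h5 : ∃ m : ℤ, (m % 12 = 1 ∨ m % 12 = 11 ∨ m % 12 = 5 ∨ m % 12 = 7) ∧ (y : ℝ) = (m : ℝ) / (12 : ℕ) := by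
      rcases h4 with ⟨n, hn⟩ | ⟨n, hn⟩
      · refine ⟨-1 + 6 * n, by omega, ?_⟩
        push_cast at hn ⊢
        linarith
      · refine ⟨-5 + 6 * n, by omega, ?_⟩
        push_cast at hn ⊢
        linarith
    obtain ⟨m, hm, hy⟩ := h5
    have h6 : ((y + 1/2 : ℚ) : ℝ) = ((m + 6 : ℤ) : ℝ) / (12 : ℕ) := by
      push_cast
      rw [hy]
      push_cast
      ring
    have h7 : ((1/12 : ℚ) : ℝ) = ((1 : ℤ) : ℝ) / (12 : ℕ) := by norm_num
    have h8 : ((5/12 : ℚ) : ℝ) = ((5 : ℤ) : ℝ) / (12 : ℕ) := by norm_num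
    rw [h6, h7, h8, hy]
    have h9 : (m % 12 = 1 ∨ m % 12 = 11) ∨ (m % 12 = 5 ∨ m % 12 = 7) := by omega
    rcases h9 with h9 | h9
    · have h10 : c2 ((m : ℝ) / (12 : ℕ)) = c2 (((1 : ℤ) : ℝ) / (12 : ℕ)) :=
        gc_c2_congr 12 (by norm_num) _ _ (by push_cast; omega)
      have h11 : c2 (((m + 6 : ℤ) : ℝ) / (12 : ℕ)) = c2 (((5 : ℤ) : ℝ) / (12 : ℕ)) :=
        gc_c2_congr 12 (by norm_num) _ _ (by push_cast; omega)
      rw [h10, h11]
    · have h10 : c2 ((m : ℝ) / (12 : ℕ)) = c2 (((5 : ℤ) : ℝ) / (12 : ℕ)) :=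
        gc_c2_congr 12 (by norm_num) _ _ (by push_cast; omega)
      have h11 : c2 (((m + 6 : ℤ) : ℝ) / (12 : ℕ)) = c2 (((1 : ℤ) : ℝ) / (12 : ℕ)) :=
        gc_c2_congr 12 (by norm_num) _ _ (by push_cast; omega)
      rw [h10, h11, Multiset.pair_comm]
  · exact Or.inr (Or.inl h2)
  · exfalso
    have h4 := key 1 5 (by norm_num) (by norm_num)
    rw [h3] at h1
    apply h4
    rw [h1]
    norm_num
  · exfalso
    have h4 := key 2 5 (by norm_num) (by norm_num)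
    rw [h3] at h1
    apply h4
    rw [h1]
    norm_num

end Pool.Agent.TriCos
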