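import Pool.Agent.Lib_MP_6e4ab6_nt.Full.LinePoly
import Pool.Agent.Lib_MP_6e4ab6_nt.Full.FamRat
import Pool.Agent.Lib_MP_6e4ab6_nt.Full.Consts

/-! From lines to the list. -/

namespace Pool.Agent.TriCos

theorem ListQ.symm {A B : Multiset ℝ} (h : ListQ A B) : ListQ B A := by
  obtain ⟨X, Y, hF, h | h⟩ := h
  · exact ⟨X, Y, hF, Or.inr ⟨h.2, h.1⟩⟩
  · exact ⟨X, Y, hF, Or.inl ⟨h.2, h.1⟩⟩

theorem ListQ.mk (X Y : Multiset ℚ) (hF : FamQ X Y) : ListQ (vals X) (vals Y) :=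
  ⟨X, Y, hF, Or.inl ⟨rfl, rfl⟩⟩

theorem ListQ.of (X Y : Multiset ℚ) (hF : FamQ X Y) {A B : Multiset ℝ} (hA : A = vals X)
    (hB : B = vals Y) : ListQ A B := ⟨X, Y, hF, Or.inl ⟨hA, hB⟩⟩

theorem card_vals (X : Multiset ℚ) : (vals X).card = X.card := by simp [vals]

theorem as_c2_half_sub (x : ℚ) : c2 ((1/2 - x : ℚ) : ℝ) = c2 ((x + 1/2 : ℚ) : ℝ) := by
  have h1 : ((1/2 - x : ℚ) : ℝ) = -((x + 1/2 : ℚ) : ℝ) + (1 : ℤ) := by push_cast; ring
  rw [h1, c2_add_int, ln_c2_neg]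

theorem ListQ_cancel (x y : ℚ) :
    ListQ {c2 (x : ℝ), c2 ((x + 1/2 : ℚ) : ℝ), c2 (y : ℝ)}
      {c2 ((2 * x + 1/2 : ℚ) : ℝ), c2 (y : ℝ), c2 ((1/3 : ℚ) : ℝ)} := by
  apply ListQ.of _ _ (FamQ.cancel x y)
  · rw [fr_v3, as_c2_half_sub, fr_swap23, fr_swap12]
  · rw [fr_v3, as_c2_half_sub, fr_swap12, fr_swap23]

theorem as_add21 (a b c : ℚ) : vals {a, b} + vals {c} = {c2 (a : ℝ), c2 (b : ℝ), c2 (c : ℝ)} := rfl
theorem as_add12 (a b c : ℚ) : vals {a} + vals {b, c} = {c2 (a : ℝ), c2 (b : ℝ), c2 (c : ℝ)} := rfl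
theorem as_add30 (a b c : ℚ) : vals {a, b, c} + vals 0 = vals {a, b, c} := by
  simp [vals]

/-- a pair with prescribed product one -/
theorem as_two {V : Multiset ℚ} {b : ℚ} (h : (vals {b}).card + V.card = 3)
    (hp : (vals 0).prod = (vals V).prod) :
    ∃ f g, V = {f, g} ∧ c2 (f : ℝ) * c2 (g : ℝ) = 1 := by
  obtain ⟨f, g, rfl⟩ : ∃ f g, V = {f, g} := by
    rw [card_vals] at h
    simp only [Multiset.card_singleton] at h
    exact Multiset.card_eq_two.1 (by omega)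
  refine ⟨f, g, rfl, ?_⟩
  rw [fr_v2] at hp
  simpa [vals] using hp.symm

/-- one remaining entry, a third -/
theorem as_third {V : Multiset ℚ} {b c : ℚ} (h : (vals {b, c}).card + V.card = 3)
    (hp : (vals 0).prod = (vals V).prod) :
    ∃ f, V = {f} ∧ c2 (f : ℝ) = 1 := by
  obtain ⟨f, rfl⟩ : ∃ f, V = {f} := by
    rw [card_vals] at h
    simp only [Multiset.insert_eq_cons, Multiset.card_cons, Multiset.card_singleton] at h
    exact Multiset.card_eq_one.1 (by omega)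
  refine ⟨f, rfl, ?_⟩
  rw [fr_v1] at hp
  simpa [vals] using hp.symm

theorem as_zero {U : Multiset ℚ} {a b c : ℚ} (h : (vals {a, b, c}).card + U.card = 3) : U = 0 := by
  rw [card_vals] at h
  simp only [Multiset.insert_eq_cons, Multiset.card_cons, Multiset.card_singleton] at h
  exact Multiset.card_eq_zero.1 (by omega)

theorem as_v12 (a b c : ℚ) : vals {a} + vals {b, c} = vals {a, b, c} := rfl
theorem as_v21 (a b c : ℚ) : vals {a, b} + vals {c} = vals {a, b, c} := rfl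
theorem as_v21' (a b : ℚ) (v : ℝ) : vals {a, b} + {v} = {c2 (a : ℝ), c2 (b : ℝ), v} := rfl

theorem famV_list (H : MainStatement) (A B : Multiset ℝ) (U V : Multiset ℚ) (hF : FamV A B)
    (hA : A.card + U.card = 3) (hB : B.card + V.card = 3) (hp : (vals U).prod = (vals V).prod)
    (hU : ∀ u ∈ vals U, u ≠ 0) (hV : ∀ v ∈ vals V, v ≠ 0) : ListQ (A + vals U) (B + vals V) := by
  obtain ⟨x, y, h⟩ := hF
  rcases h with ⟨rfl, rfl⟩ | ⟨rfl, rfl⟩ | ⟨rfl, rfl⟩ | ⟨rfl, rfl⟩ | ⟨rfl, rfl⟩ | ⟨rfl, rfl⟩ |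
    ⟨rfl, rfl⟩ | ⟨rfl, rfl⟩ | ⟨rfl, rfl⟩ | ⟨rfl, rfl⟩ | ⟨rfl, rfl⟩
  · -- (2|1)
    obtain ⟨e, rfl⟩ : ∃ e, U = {e} := by
      rw [card_vals] at hA
      simp only [Multiset.insert_eq_cons, Multiset.card_cons, Multiset.card_singleton] at hA
      exact Multiset.card_eq_one.1 (by omega)
    obtain ⟨f, g, rfl⟩ : ∃ f g, V = {f, g} := by
      rw [card_vals] at hB
      simp only [Multiset.card_singleton] at hB
      exact Multiset.card_eq_two.1 (by omega)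
    have he : c2 (e : ℝ) ≠ 0 := hU _ (by simp [vals])
    have hf : c2 (f : ℝ) ≠ 0 := hV _ (by simp [vals])
    have hg : c2 (g : ℝ) ≠ 0 := hV _ (by simp [vals])
    have hpr : c2 (e : ℝ) = c2 (f : ℝ) * c2 (g : ℝ) := by
      rw [fr_v1, fr_v2] at hp
      simpa using hp
    rw [as_add21, as_add12]
    rcases const12 H e f g he hf hg hpr with ⟨h1, h2⟩ | ⟨h1, h2⟩ | ⟨z, h1, h2⟩ | ⟨h1, h2⟩ |
      ⟨h1, h2⟩ | ⟨h1, h2⟩
    · rw [← h1, h2]
      have := ListQ_cancel x e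
      rw [ln_c2_thirdQ] at this
      exact this
    · rw [← h1, h2, fr_swap23 (c2 ((2 * x + 1/2 : ℚ) : ℝ))]
      have := ListQ_cancel x e
      rw [ln_c2_thirdQ] at this
      exact this
    · have e2 : ({c2 ((2 * x + 1/2 : ℚ) : ℝ), c2 (f : ℝ), c2 (g : ℝ)} : Multiset ℝ)
          = vals {z, z + 1/2, 2 * x + 1/2} := by
        rw [← as_add12, h2, as_v12, fr_v3, fr_v3, fr_swap12, fr_swap23]
      apply ListQ.of _ _ (FamQ.double x z) _ e2
      rw [h1]; rfl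
    · have e2 : ({c2 ((2 * x + 1/2 : ℚ) : ℝ), c2 (f : ℝ), c2 (g : ℝ)} : Multiset ℝ)
          = vals {2 * x + 1/2, 1/5, 2/5} := by
        rw [← as_add12, h2, as_v12]
      apply ListQ.of _ _ (FamQ.double₁ x) _ e2
      rw [h1]; rfl
    · have e2 : ({c2 ((2 * x + 1/2 : ℚ) : ℝ), c2 (f : ℝ), c2 (g : ℝ)} : Multiset ℝ)
          = vals {2 * x + 1/2, 1/30, 11/30} := by
        rw [← as_add12, h2, as_v12]
      apply ListQ.of _ _ (FamQ.double₂ x) _ e2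
      rw [h1]; rfl
    · have e2 : ({c2 ((2 * x + 1/2 : ℚ) : ℝ), c2 (f : ℝ), c2 (g : ℝ)} : Multiset ℝ)
          = vals {2 * x + 1/2, 7/30, 13/30} := by
        rw [← as_add12, h2, as_v12]
      apply ListQ.of _ _ (FamQ.double₃ x) _ e2
      rw [h1]; rfl
  · -- (3|1)
    obtain rfl := as_zero hA
    obtain ⟨f, g, rfl, hfg⟩ := as_two hB hp
    rw [as_add30]
    rcases const02 H f g hfg with h2 | h2 | h2 <;> rw [h2, as_v12]
    · exact ListQ.mk _ _ (FamQ.triple₁ x)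
    · exact ListQ.mk _ _ (FamQ.triple₂ x)
    · exact ListQ.mk _ _ (FamQ.triple₃ x)
  · obtain rfl := as_zero hA
    obtain ⟨f, g, rfl, hfg⟩ := as_two hB hp
    rw [as_add30]
    rcases const02 H f g hfg with h2 | h2 | h2 <;> rw [h2, as_v12]
    · exact ListQ.mk _ _ (FamQ.quadruple₁ x)
    · exact ListQ.mk _ _ (FamQ.quadruple₂ x)
    · exact ListQ.mk _ _ (FamQ.quadruple₃ x)
  · obtain rfl := as_zero hA
    obtain ⟨f, rfl, hf⟩ := as_third hB hp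
    rw [as_add30, fr_v1, hf, ← ln_c2_thirdQ, ← fr_v1, as_v21]
    exact ListQ.mk _ _ (FamQ.mixed₁ x)
  · obtain rfl := as_zero hA
    obtain ⟨f, rfl, hf⟩ := as_third hB hp
    rw [as_add30, fr_v1, hf, ← ln_c2_thirdQ, ← fr_v1, as_v21]
    exact ListQ.mk _ _ (FamQ.mixed₂ x)
  · obtain rfl := as_zero hA
    obtain rfl := as_zero hB
    rw [as_add30, as_add30]
    exact ListQ.mk _ _ (FamQ.double x y)
  · obtain rfl := as_zero hA
    obtain rfl := as_zero hB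
    rw [as_add30, as_add30]
    exact ListQ.mk _ _ (FamQ.mixed₆ x)
  · obtain rfl := as_zero hA
    obtain rfl := as_zero hB
    rw [as_add30, as_add30]
    exact ListQ.mk _ _ (FamQ.mixed₇ x)
  · obtain rfl := as_zero hA
    obtain rfl := as_zero hB
    rw [as_add30, as_add30]
    exact ListQ.mk _ _ (FamQ.mixed₅ x)
  · obtain rfl := as_zero hA
    obtain rfl := as_zero hB
    rw [as_add30, as_add30]
    exact ListQ.mk _ _ (FamQ.mixed₄ x)
  · obtain rfl := as_zero hA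
    obtain rfl := as_zero hB
    rw [as_add30, as_add30]
    exact ListQ.mk _ _ (FamQ.mixed₃ x)

/-- splitting off a value of a side -/
theorem split3 (a b c : ℚ) (v : ℝ) (h : v ∈ ({c2 (a : ℝ), c2 (b : ℝ), c2 (c : ℝ)} : Multiset ℝ)) :
    ∃ p q r : ℚ, c2 (p : ℝ) = v ∧
      ({c2 (a : ℝ), c2 (b : ℝ), c2 (c : ℝ)} : Multiset ℝ) = {c2 (p : ℝ), c2 (q : ℝ), c2 (r : ℝ)} := by
  simp only [Multiset.insert_eq_cons, Multiset.mem_cons, Multiset.mem_singleton] at h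
  rcases h with h | h | h
  · exact ⟨a, b, c, h.symm, rfl⟩
  · exact ⟨b, a, c, h.symm, fr_swap12 _ _ _⟩
  · exact ⟨c, a, b, h.symm, by rw [fr_swap23, fr_swap12]⟩

theorem prod3 (x y z : ℝ) : ({x, y, z} : Multiset ℝ).prod = x * y * z := by
  simp [mul_assoc]

/-- a solution with a common value -/
theorem common_list (H : MainStatement) (p q r p' q' r' : ℚ) (hv : c2 (p : ℝ) = c2 (p' : ℝ))
    (hn : ∀ v ∈ ({c2 (p : ℝ), c2 (q : ℝ), c2 (r : ℝ)} : Multiset ℝ), v ≠ 0)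
    (hn' : ∀ v ∈ ({c2 (p' : ℝ), c2 (q' : ℝ), c2 (r' : ℝ)} : Multiset ℝ), v ≠ 0)
    (hp : ({c2 (p : ℝ), c2 (q : ℝ), c2 (r : ℝ)} : Multiset ℝ).prod =
      ({c2 (p' : ℝ), c2 (q' : ℝ), c2 (r' : ℝ)} : Multiset ℝ).prod) :
    ({c2 (p : ℝ), c2 (q : ℝ), c2 (r : ℝ)} : Multiset ℝ) =
      {c2 (p' : ℝ), c2 (q' : ℝ), c2 (r' : ℝ)} ∨
    ListQ {c2 (p : ℝ), c2 (q : ℝ), c2 (r : ℝ)} {c2 (p' : ℝ), c2 (q' : ℝ), c2 (r' : ℝ)} := by
  have h0 : c2 (p : ℝ) ≠ 0 := hn _ (by simp)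
  have hq : c2 (q : ℝ) ≠ 0 := hn _ (by simp)
  have hr : c2 (r : ℝ) ≠ 0 := hn _ (by simp)
  have hq' : c2 (q' : ℝ) ≠ 0 := hn' _ (by simp)
  have hr' : c2 (r' : ℝ) ≠ 0 := hn' _ (by simp)
  have h1 : c2 (q : ℝ) * c2 (r : ℝ) = c2 (q' : ℝ) * c2 (r' : ℝ) := by
    rw [prod3, prod3, ← hv, mul_assoc, mul_assoc] at hp
    exact mul_left_cancel₀ h0 hp
  rw [← hv]
  have e : ∀ a b : ℚ, ({c2 (p : ℝ), c2 (a : ℝ), c2 (b : ℝ)} : Multiset ℝ) = vals {p} + vals {a, b} :=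
    fun a b => rfl
  rw [e q r, e q' r']
  rcases const22 H q r q' r' hq hr hq' hr' h1 with h | ⟨x, ⟨h, h'⟩ | ⟨h, h'⟩⟩ |
    ⟨n, i, j, k, l, u, hm, hu, ⟨h, h'⟩ | ⟨h, h'⟩⟩
  · left; rw [h]
  · right; rw [h, h', as_v12, as_v12]
    exact ListQ.mk _ _ (FamQ.cancel x p)
  · right; rw [h, h', as_v12, as_v12]
    exact (ListQ.mk _ _ (FamQ.cancel x p)).symm
  · right; rw [h, h', as_v12, as_v12]
    exact ListQ.mk _ _ (FamQ.cancelSporadic n i j k l u p hm hu)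
  · right; rw [h, h', as_v12, as_v12]
    exact (ListQ.mk _ _ (FamQ.cancelSporadic n i j k l u p hm hu)).symm

theorem ni_list (H : MainStatement) (a : Fin 6 → ℚ) (hs : Sol a) (h : NI a) :
    L3 a = R3 a ∨ ListQ (L3 a) (R3 a) := by
  obtain ⟨L, R, U, V, hne, hL, hR, cL, cR, eL, eR, hp, hPP⟩ := line_poly a hs h
  have hnL : ∀ v ∈ L3 a, v ≠ 0 := ((gc_sol_iff a).1 hs).1
  have hnR : ∀ v ∈ R3 a, v ≠ 0 := ((gc_sol_iff a).1 hs).2.1
  have hU : ∀ u ∈ vals U, u ≠ 0 := fun u hu => hnL u (by rw [eL]; exact Multiset.mem_add.2 (Or.inr hu))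
  have hV : ∀ u ∈ vals V, u ≠ 0 := fun u hu => hnR u (by rw [eR]; exact Multiset.mem_add.2 (Or.inr hu))
  have vL : ∀ t ∈ prs L, ‖t.1‖ = 1 ∧ 0 < t.2 := by
    intro t ht
    obtain ⟨s, hs', rfl⟩ := Multiset.mem_map.1 ht
    exact ⟨lp_ee_norm _, (hL s hs').1⟩
  have vR : ∀ t ∈ prs R, ‖t.1‖ = 1 ∧ 0 < t.2 := by
    intro t ht
    obtain ⟨s, hs', rfl⟩ := Multiset.mem_map.1 ht
    exact ⟨lp_ee_norm _, (hR s hs').1⟩
  have kL : (prs L).card = L.card := by simp [prs]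
  have kR : (prs R).card = R.card := by simp [prs]
  have k1 : (vals (L.map Prod.fst)).card = L.card := by rw [card_vals]; simp
  have k2 : (vals (R.map Prod.fst)).card = R.card := by rw [card_vals]; simp
  have hne' : prs L ≠ 0 ∨ prs R ≠ 0 := by
    rcases hne with h | h
    · left; intro h0; apply h
      rw [← Multiset.card_eq_zero, ← kL, h0]; rfl
    · right; intro h0; apply h
      rw [← Multiset.card_eq_zero, ← kR, h0]; rfl
  rcases poly_class (prs L) (prs R) vL vR (by omega) (by omega) hne' hPP with ⟨t, ht, ht'⟩ | hF | hF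
  · obtain ⟨s, hsL, hs1⟩ := Multiset.mem_map.1 ht
    obtain ⟨s', hsR, hs2⟩ := Multiset.mem_map.1 ht'
    have hv : c2 (s.1 : ℝ) = c2 (s'.1 : ℝ) := by
      rw [← frg_ee s.1 0, ← frg_ee s'.1 0]
      have : ee s.1 = ee s'.1 := by
        have h1 := congrArg Prod.fst hs1
        have h2 := congrArg Prod.fst hs2
        simp only at h1 h2
        rw [h1, h2]
      rw [this]
    have m1 : c2 (s.1 : ℝ) ∈ L3 a := by
      rw [eL]
      refine Multiset.mem_add.2 (Or.inl ?_)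
      rw [fr_vals_eq]
      exact Multiset.mem_map.2 ⟨s.1, Multiset.mem_map.2 ⟨s, hsL, rfl⟩, rfl⟩
    have m2 : c2 (s'.1 : ℝ) ∈ R3 a := by
      rw [eR]
      refine Multiset.mem_add.2 (Or.inl ?_)
      rw [fr_vals_eq]
      exact Multiset.mem_map.2 ⟨s'.1, Multiset.mem_map.2 ⟨s', hsR, rfl⟩, rfl⟩
    obtain ⟨p, q, r, hp1, hp2⟩ := split3 _ _ _ _ m1
    obtain ⟨p', q', r', hp1', hp2'⟩ := split3 _ _ _ _ m2
    have eqL : L3 a = {c2 (p : ℝ), c2 (q : ℝ), c2 (r : ℝ)} := hp2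
    have eqR : R3 a = {c2 (p' : ℝ), c2 (q' : ℝ), c2 (r' : ℝ)} := hp2'
    have hpr : (L3 a).prod = (R3 a).prod := by
      unfold L3 R3
      rw [prod3, prod3]
      exact hs.2
    rw [eqL, eqR] at hpr ⊢
    rw [eqL] at hnL
    rw [eqR] at hnR
    exact common_list H p q r p' q' r' (by rw [hp1, hp1', hv]) hnL hnR hpr
  · right
    rw [eL, eR]
    exact famV_list H _ _ U V (fam_rat L R hF) (by omega) (by omega) hp hU hV
  · right
    rw [eL, eR]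
    exact (famV_list H _ _ V U (fam_rat R L hF) (by omega) (by omega) hp.symm hV hU).symm

end Pool.Agent.TriCos
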