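import Pool.Agent.Lib_MP_6e4ab6_nt.Full.Rt

/-!
# The table of isolated solutions and the trichotomy
-/

namespace Pool.Agent.TriCos

/-- representatives `(m, [s₁, s₂, s₃, t₁, t₂, t₃])` of the Galois orbits of isolated solutions -/
def tab : List (ℕ × List ℕ) :=
  [(9, [1, 2, 4, 3, 3, 3]), (12, [1, 4, 5, 4, 4, 4]), (15, [1, 4, 5, 3, 3, 5]),
   (15, [3, 5, 6, 5, 5, 5]), (21, [1, 7, 8, 3, 3, 9]), (21, [3, 6, 9, 7, 7, 7]),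
   (24, [1, 2, 11, 8, 8, 8]), (30, [1, 1, 10, 4, 6, 8]), (30, [1, 1, 12, 4, 8, 10]),
   (30, [1, 1, 14, 8, 10, 12]), (30, [1, 2, 10, 6, 6, 7]), (30, [1, 2, 13, 6, 6, 12]),
   (30, [1, 2, 13, 6, 10, 10]), (30, [1, 6, 7, 2, 4, 8]), (30, [1, 6, 11, 2, 8, 10]),
   (30, [1, 6, 13, 8, 10, 10]), (30, [1, 7, 10, 4, 6, 10]), (30, [1, 10, 11, 2, 8, 12]),
   (30, [1, 10, 11, 6, 6, 12]), (30, [1, 10, 11, 6, 10, 10]), (30, [1, 11, 12, 10, 10, 10]),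
   (42, [1, 1, 18, 8, 10, 16]), (42, [1, 2, 11, 6, 6, 8]), (42, [1, 2, 19, 6, 10, 18]),
   (42, [1, 4, 17, 6, 12, 14]), (42, [1, 5, 12, 4, 8, 10]), (42, [1, 5, 14, 6, 8, 12]),
   (42, [1, 5, 18, 8, 14, 14]), (42, [1, 6, 19, 10, 14, 16]), (42, [1, 12, 13, 4, 10, 14]),
   (42, [1, 13, 14, 6, 12, 14]), (42, [1, 13, 18, 14, 14, 14]), (45, [5, 10, 20, 9, 15, 18]),
   (60, [1, 2, 12, 5, 7, 9]), (60, [1, 2, 13, 3, 5, 12]), (60, [1, 2, 14, 3, 9, 11]),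
   (60, [1, 2, 21, 5, 7, 20]), (60, [1, 2, 25, 7, 9, 24]), (60, [1, 4, 23, 5, 9, 22]),
   (60, [1, 4, 25, 3, 17, 22]), (60, [1, 4, 29, 22, 22, 24]), (60, [1, 8, 29, 3, 24, 27]),
   (60, [1, 8, 29, 14, 24, 26]), (60, [1, 8, 29, 20, 24, 24]), (60, [1, 12, 14, 3, 5, 17]),
   (60, [1, 12, 21, 5, 7, 22]), (60, [1, 12, 29, 4, 26, 26]), (60, [1, 12, 29, 20, 22, 26]),
   (60, [1, 13, 20, 3, 5, 22]), (60, [1, 13, 25, 3, 4, 26]), (60, [1, 13, 25, 3, 20, 22]),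
   (60, [1, 13, 27, 5, 22, 24]), (60, [1, 14, 29, 22, 24, 24]), (60, [1, 16, 25, 7, 9, 26]),
   (60, [1, 16, 29, 12, 26, 26]), (60, [1, 19, 20, 3, 9, 24]), (60, [1, 19, 27, 9, 24, 24]),
   (60, [1, 20, 29, 22, 24, 26]), (60, [2, 2, 28, 3, 16, 27]), (60, [2, 4, 26, 5, 12, 25]),
   (60, [2, 4, 26, 9, 20, 21]), (60, [2, 12, 26, 5, 16, 25]), (60, [2, 14, 20, 8, 9, 21]),
   (60, [2, 20, 22, 5, 12, 25]), (60, [2, 20, 22, 9, 20, 21]), (60, [2, 22, 24, 5, 20, 25]),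
   (60, [3, 12, 27, 5, 20, 25]), (60, [3, 12, 27, 20, 20, 20]), (60, [3, 24, 27, 8, 20, 28]),
   (60, [5, 20, 25, 12, 20, 24]), (63, [7, 14, 28, 9, 18, 27]), (66, [1, 5, 28, 12, 18, 24]),
   (66, [1, 22, 23, 12, 18, 24]), (70, [1, 10, 29, 14, 16, 26]), (84, [1, 2, 25, 5, 7, 24]),
   (84, [1, 4, 41, 26, 34, 36]), (84, [1, 12, 25, 5, 7, 26]), (84, [1, 16, 41, 10, 36, 38]),
   (84, [1, 16, 41, 24, 36, 36]), (84, [1, 20, 41, 24, 34, 38]), (84, [1, 28, 41, 26, 36, 38]),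
   (84, [2, 8, 34, 9, 12, 33]), (84, [2, 8, 34, 15, 24, 27]), (84, [2, 10, 36, 7, 16, 35]),
   (84, [2, 26, 28, 9, 12, 33]), (84, [2, 26, 28, 15, 24, 27]), (84, [2, 26, 36, 7, 28, 35]),
   (84, [7, 28, 35, 12, 24, 36]), (90, [1, 2, 31, 10, 18, 26]), (90, [1, 4, 33, 10, 20, 28]),
   (90, [1, 4, 40, 3, 28, 36]), (90, [1, 19, 36, 16, 20, 34]), (90, [1, 21, 40, 26, 28, 34]),
   (90, [2, 28, 32, 18, 21, 33]), (90, [3, 33, 36, 10, 20, 40]), (105, [15, 30, 45, 21, 35, 42]),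
   (120, [1, 2, 59, 44, 48, 52]), (120, [1, 4, 43, 7, 11, 42]), (120, [1, 10, 49, 7, 17, 48]),
   (120, [1, 10, 59, 26, 52, 54]), (120, [1, 14, 59, 42, 50, 52]),
   (120, [1, 22, 59, 42, 48, 54]), (120, [1, 34, 59, 44, 50, 54]), (120, [2, 4, 42, 14, 25, 35]),
   (120, [2, 26, 50, 27, 33, 44]), (120, [3, 6, 57, 4, 28, 56]), (120, [3, 6, 57, 28, 40, 52]),
   (120, [4, 44, 48, 5, 10, 55]), (120, [5, 10, 55, 6, 24, 54]), (120, [5, 10, 55, 24, 40, 48]),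
   (126, [2, 40, 44, 15, 18, 51]), (126, [3, 39, 54, 14, 28, 56]),
   (140, [7, 28, 63, 20, 40, 60]), (168, [1, 2, 83, 52, 72, 76]), (168, [4, 52, 72, 7, 14, 77]),
   (168, [7, 14, 77, 24, 48, 72]), (180, [9, 36, 81, 20, 40, 80]), (210, [2, 7, 51, 22, 30, 38]),
   (210, [2, 68, 84, 30, 69, 81]), (210, [5, 25, 90, 40, 42, 84]), (210, [5, 65, 90, 7, 77, 84]),
   (210, [5, 65, 90, 42, 70, 84]), (210, [7, 77, 84, 30, 60, 90]),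
   (420, [10, 130, 180, 21, 84, 189])]

/-- the exponents of a table entry -/
def rep (r : ℕ × List ℕ) : Fin 6 → ℤ := fun i => (r.2.getD i.val 0 : ℤ)

/-- the configuration is a Galois conjugate of a table entry -/
def Tab (a : Fin 6 → ℚ) : Prop :=
  ∃ r ∈ tab, ∃ u : ℤ, IsCoprime u (2 * r.1 : ℤ) ∧ Same a (ang r.1 (fun i => u * rep r i))

/-- the conclusion of the main theorem -/
def Concl (a : Fin 6 → ℚ) : Prop := Triv a ∨ NI a ∨ Tab a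

end Pool.Agent.TriCos
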