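import Pool.Agent.Lib_MP_6e4ab6_nt.Full.Sym

/-!
# Elementary facts on `c2` and lines
-/

namespace Pool.Agent.TriCos

open Finset

theorem c2_eq_normSq (a : ℝ) :
    c2 a = Complex.normSq (1 + Complex.exp (2 * Real.pi * Complex.I * a)) := by
  have h1 : (2 * Real.pi * Complex.I * a : ℂ) = ((2 * Real.pi * a : ℝ) : ℂ) * Complex.I := by
    push_cast; ring
  rw [h1, Complex.exp_mul_I, ← Complex.ofReal_cos, ← Complex.ofReal_sin, Complex.normSq_apply]
  simp only [Complex.add_re, Complex.one_re, Complex.add_im, Complex.one_im, Complex.mul_re,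
    Complex.mul_im, Complex.ofReal_re, Complex.ofReal_im, Complex.I_re, Complex.I_im]
  have h2 : 2 * Real.pi * a = 2 * (Real.pi * a) := by ring
  rw [h2, Real.cos_two_mul, Real.sin_two_mul]
  unfold c2
  have h3 := Real.sin_sq_add_cos_sq (Real.pi * a)
  have h4 : Real.sin (Real.pi * a) ^ 2 = 1 - Real.cos (Real.pi * a) ^ 2 := by linarith
  ring_nf
  rw [h4]
  ring

theorem c2_add_int (a : ℝ) (n : ℤ) : c2 (a + n) = c2 a := by
  unfold c2
  have : Real.pi * (a + n) = Real.pi * a + n * Real.pi := by ring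
  rw [this, Real.cos_add_int_mul_pi]
  rcases Int.even_or_odd n with h | h
  · rw [h.neg_one_zpow, one_mul]
  · rw [h.neg_one_zpow]; ring

/-- equal values: the angles agree up to sign and an integer -/
theorem c2_eq_c2 (a b : ℝ) (h : c2 a = c2 b) : (∃ n : ℤ, b = a + n) ∨ (∃ n : ℤ, b = -a + n) := by
  unfold c2 at h
  have hpi := Real.pi_ne_zero
  have h1 : Real.cos (2 * (Real.pi * a)) = Real.cos (2 * (Real.pi * b)) := by
    rw [Real.cos_two_mul, Real.cos_two_mul]; linarith
  rw [Real.cos_eq_cos_iff] at h1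
  obtain ⟨k, hk | hk⟩ := h1
  · left
    refine ⟨k, ?_⟩
    have : Real.pi * (2 * b) = Real.pi * (2 * (a + k)) := by linarith
    have := mul_left_cancel₀ hpi this
    linarith
  · right
    refine ⟨k, ?_⟩
    have : Real.pi * (2 * b) = Real.pi * (2 * (-a + k)) := by linarith
    have := mul_left_cancel₀ hpi this
    linarith

theorem c2_eq_iff (m : ℕ) (hm : 0 < m) (k l : ℤ) :
    c2 ((k : ℝ) / m) = c2 ((l : ℝ) / m) ↔ ((m : ℤ) ∣ k - l ∨ (m : ℤ) ∣ k + l) := by
  have hm' : (m : ℝ) ≠ 0 := Nat.cast_ne_zero.mpr hm.ne'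
  constructor
  · intro h
    rcases c2_eq_c2 _ _ h with ⟨n, hn⟩ | ⟨n, hn⟩
    · left
      refine ⟨-n, ?_⟩
      have : (l : ℝ) = k + m * n := by field_simp at hn; linarith
      have : l = k + m * n := by exact_mod_cast this
      rw [this]; ring
    · right
      refine ⟨n, ?_⟩
      have : (l : ℝ) = -k + m * n := by field_simp at hn; linarith
      have : l = -k + m * n := by exact_mod_cast this
      rw [this]; ring
  · rintro (⟨n, hn⟩ | ⟨n, hn⟩)
    · have : (k : ℝ) / m = (l : ℝ) / m + n := by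
        have h1 : (k : ℝ) = l + m * n := by
          have : k = l + m * n := by linarith
          exact_mod_cast this
        rw [h1]; field_simp
      rw [this, c2_add_int]
    · have : (k : ℝ) / m = -((l : ℝ) / m) + n := by
        have h1 : (k : ℝ) = -l + m * n := by
          have : k = -l + m * n := by linarith
          exact_mod_cast this
        rw [h1]; field_simp
      rw [this, c2_add_int, c2_neg]

theorem c2_third : c2 (1/3) = 1 := by
  unfold c2
  have : Real.pi * (1/3) = Real.pi / 3 := by ring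
  rw [this, Real.cos_pi_div_three]; norm_num

theorem c2_zero : c2 0 = 4 := by
  unfold c2; rw [mul_zero, Real.cos_zero]; norm_num

theorem c2_eq_one_iff' (a : ℝ) : c2 a = 1 ↔ (∃ n : ℤ, a = 1/3 + n) ∨ (∃ n : ℤ, a = -(1/3) + n) := by
  constructor
  · intro h
    rw [← c2_third] at h
    rcases c2_eq_c2 _ _ h.symm with ⟨n, hn⟩ | ⟨n, hn⟩
    · exact Or.inl ⟨n, hn⟩
    · exact Or.inr ⟨n, hn⟩
  · rintro (⟨n, rfl⟩ | ⟨n, rfl⟩)
    · rw [c2_add_int, c2_third]
    · rw [c2_add_int, c2_neg, c2_third]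

theorem c2_eq_one_iff (m : ℕ) (hm : 0 < m) (k : ℤ) :
    c2 ((k : ℝ) / m) = 1 ↔ Third (2 * m) k := by
  have hm' : (m : ℝ) ≠ 0 := Nat.cast_ne_zero.mpr hm.ne'
  rw [c2_eq_one_iff']
  unfold Third
  constructor
  · intro h
    have key : ∃ n e : ℤ, (e = 1 ∨ e = -1) ∧ 3 * k = m * (3 * n + e) := by
      rcases h with ⟨n, hn⟩ | ⟨n, hn⟩
      · refine ⟨n, 1, Or.inl rfl, ?_⟩
        have : (3 : ℝ) * k = m * (3 * n + 1) := by field_simp at hn; linarith
        exact_mod_cast this
      · refine ⟨n, -1, Or.inr rfl, ?_⟩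
        have : (3 : ℝ) * k = m * (3 * n + (-1)) := by field_simp at hn; linarith
        exact_mod_cast this
    obtain ⟨n, e, he, hk⟩ := key
    constructor
    · refine ⟨3 * n + e, ?_⟩
      push_cast
      linarith
    · rintro ⟨t, ht⟩
      push_cast at ht
      have h1 : k = m * t := by linarith
      rw [h1] at hk
      have h2 : (m : ℤ) * (3 * t) = m * (3 * n + e) := by linarith
      have h3 := mul_left_cancel₀ (by exact_mod_cast hm.ne' : (m : ℤ) ≠ 0) h2
      rcases he with rfl | rfl <;> omega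
  · rintro ⟨⟨t, ht⟩, h2⟩
    push_cast at ht h2
    have h3 : 3 * k = m * t := by linarith
    have h4 : ¬ (3 : ℤ) ∣ t := by
      rintro ⟨w, rfl⟩
      apply h2
      refine ⟨w, ?_⟩
      linarith
    have h5 : t % 3 = 1 ∨ t % 3 = 2 := by omega
    have h6 : (3 : ℝ) * k = m * t := by exact_mod_cast h3
    rcases h5 with h | h
    · left
      refine ⟨t / 3, ?_⟩
      have h7 : t = 3 * (t / 3) + 1 := by omega
      have h8 : (t : ℝ) = 3 * ((t / 3 : ℤ) : ℝ) + 1 := by exact_mod_cast h7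
      rw [h8] at h6
      field_simp
      linarith
    · right
      refine ⟨t / 3 + 1, ?_⟩
      have h7 : t = 3 * (t / 3) + 2 := by omega
      have h8 : (t : ℝ) = 3 * ((t / 3 : ℤ) : ℝ) + 2 := by exact_mod_cast h7
      rw [h8] at h6
      push_cast
      field_simp
      linarith

theorem c2_ang (m : ℕ) (s : Fin 6 → ℤ) (i : Fin 6) :
    c2 ((ang m s i : ℚ) : ℝ) = c2 ((s i : ℝ) / m) := by
  unfold ang; push_cast; rfl

/-- the sixteen term sum is the difference of the products -/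
theorem sum_eq_prod (N : ℕ) (s : Fin 6 → ℤ) :
    ∑ μ, (sg μ : ℂ) * rt N (dot μ s) =
      (rt N (s 0) + rt N (-s 0)) * (rt N (s 1) + rt N (-s 1)) * (rt N (s 2) + rt N (-s 2))
      - (rt N (s 3) + rt N (-s 3)) * (rt N (s 4) + rt N (-s 4)) * (rt N (s 5) + rt N (-s 5)) := by
  have e : ∀ a b : ℤ, rt N (a - b) = rt N a * rt N (-b) := by
    intro a b; rw [sub_eq_add_neg, rt_add]
  simp only [Fin.sum_univ_succ, dot, sg, Fin.sum_univ_zero, Fin.succ_zero_eq_one, Fin.isValue]
  norm_num [Fin.succ]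
  simp only [Matrix.cons_val, e, rt_add]
  ring

theorem rel_iff (N : ℕ) (s : Fin 6 → ℤ) : Rel N s ↔
      (rt N (s 0) + rt N (-s 0)) * (rt N (s 1) + rt N (-s 1)) * (rt N (s 2) + rt N (-s 2))
      = (rt N (s 3) + rt N (-s 3)) * (rt N (s 4) + rt N (-s 4)) * (rt N (s 5) + rt N (-s 5)) := by
  unfold Rel
  rw [sum_eq_prod, sub_eq_zero]

theorem nd_iff (m : ℕ) (hm : 0 < m) (s : Fin 6 → ℤ) :
    ND (2 * m) s ↔ ∀ i, c2 ((s i : ℝ) / m) ≠ 0 := by
  unfold ND
  apply forall_congr'
  intro i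
  rw [rt_add_inv m hm, Ne, Ne, Complex.ofReal_eq_zero]
  unfold c2
  rw [sq_eq_zero_iff]

theorem sol_of_rel (m : ℕ) (hm : 0 < m) (s : Fin 6 → ℤ) (h : Rel (2 * m) s) (hnd : ND (2 * m) s) :
    Sol (ang m s) := by
  refine ⟨fun i => ?_, ?_⟩
  · rw [c2_ang]; exact (nd_iff m hm s).mp hnd i
  · rw [rel_iff] at h
    simp only [rt_add_inv m hm] at h
    have h' : (2 * Real.cos (Real.pi * ((s 0 : ℝ) / m))) * (2 * Real.cos (Real.pi * ((s 1 : ℝ) / m)))
        * (2 * Real.cos (Real.pi * ((s 2 : ℝ) / m)))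
        = (2 * Real.cos (Real.pi * ((s 3 : ℝ) / m))) * (2 * Real.cos (Real.pi * ((s 4 : ℝ) / m)))
        * (2 * Real.cos (Real.pi * ((s 5 : ℝ) / m))) := by exact_mod_cast h
    simp only [c2_ang]
    unfold c2
    calc _ = ((2 * Real.cos (Real.pi * ((s 0 : ℝ) / m))) * (2 * Real.cos (Real.pi * ((s 1 : ℝ) / m)))
        * (2 * Real.cos (Real.pi * ((s 2 : ℝ) / m)))) ^ 2 := by ring
      _ = _ := by rw [h']; ring

/-- transport of a direction between angles with equal values -/
theorem c2_line (a b : ℝ) (h : c2 a = c2 b) :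
    ∃ e : ℤ, (e = 1 ∨ e = -1) ∧ ∀ t : ℝ, c2 (b + e * t) = c2 (a + t) := by
  rcases c2_eq_c2 _ _ h with ⟨n, hn⟩ | ⟨n, hn⟩
  · refine ⟨1, Or.inl rfl, fun t => ?_⟩
    have : b + ((1 : ℤ) : ℝ) * t = (a + t) + n := by rw [hn]; push_cast; ring
    rw [this, c2_add_int]
  · refine ⟨-1, Or.inr rfl, fun t => ?_⟩
    have : b + ((-1 : ℤ) : ℝ) * t = -(a + t) + n := by rw [hn]; push_cast; ring
    rw [this, c2_add_int, c2_neg]

theorem triple_cases {x y z x' y' z' : ℝ} (h : ({x, y, z} : Multiset ℝ) = {x', y', z'}) :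
    (x = x' ∧ y = y' ∧ z = z') ∨ (x = x' ∧ y = z' ∧ z = y') ∨ (x = y' ∧ y = x' ∧ z = z') ∨
    (x = y' ∧ y = z' ∧ z = x') ∨ (x = z' ∧ y = x' ∧ z = y') ∨ (x = z' ∧ y = y' ∧ z = x') := by
  have pair : ∀ p q r t : ℝ, ({p, q} : Multiset ℝ) = {r, t} → (p = r ∧ q = t) ∨ (p = t ∧ q = r) := by
    intro p q r t hh
    have hp : p ∈ ({r, t} : Multiset ℝ) := by rw [← hh]; simp
    simp only [Multiset.insert_eq_cons, Multiset.mem_cons, Multiset.mem_singleton] at hp
    rcases hp with rfl | rfl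
    · left
      refine ⟨rfl, ?_⟩
      have := (Multiset.cons_inj_right p).mp (show p ::ₘ ({q} : Multiset ℝ) = p ::ₘ {t} from hh)
      simpa using this
    · right
      refine ⟨rfl, ?_⟩
      have h2 : p ::ₘ ({q} : Multiset ℝ) = p ::ₘ {r} := by
        have : ({r, p} : Multiset ℝ) = {p, r} := Multiset.pair_comm _ _
        rw [this] at hh
        exact hh
      have := (Multiset.cons_inj_right p).mp h2
      simpa using this
  have hx : x ∈ ({x', y', z'} : Multiset ℝ) := by rw [← h]; simp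
  simp only [Multiset.insert_eq_cons, Multiset.mem_cons, Multiset.mem_singleton] at hx
  have sw1 : ∀ x y z : ℝ, ({x, y, z} : Multiset ℝ) = {y, x, z} := fun x y z =>
    Multiset.cons_swap x y _
  have sw2 : ∀ x y z : ℝ, ({x, y, z} : Multiset ℝ) = {z, x, y} := fun x y z => by
    rw [sw1 z x y]
    show x ::ₘ ({y, z} : Multiset ℝ) = x ::ₘ {z, y}
    rw [Multiset.pair_comm]
  rcases hx with hx | hx | hx
  · rw [hx] at h
    have := pair _ _ _ _ ((Multiset.cons_inj_right x').mp h)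
    rcases this with ⟨h1, h2⟩ | ⟨h1, h2⟩
    · exact Or.inl ⟨hx, h1, h2⟩
    · exact Or.inr (Or.inl ⟨hx, h1, h2⟩)
  · rw [hx, sw1 x' y' z'] at h
    have := pair _ _ _ _ ((Multiset.cons_inj_right y').mp h)
    rcases this with ⟨h1, h2⟩ | ⟨h1, h2⟩
    · exact Or.inr (Or.inr (Or.inl ⟨hx, h1, h2⟩))
    · exact Or.inr (Or.inr (Or.inr (Or.inl ⟨hx, h1, h2⟩)))
  · rw [hx, sw2 x' y' z'] at h
    have := pair _ _ _ _ ((Multiset.cons_inj_right z').mp h)
    rcases this with ⟨h1, h2⟩ | ⟨h1, h2⟩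
    · exact Or.inr (Or.inr (Or.inr (Or.inr (Or.inl ⟨hx, h1, h2⟩))))
    · exact Or.inr (Or.inr (Or.inr (Or.inr (Or.inr ⟨hx, h1, h2⟩))))

theorem tri_transport (x y : Fin 3 → ℝ)
    (hxy : ({c2 (x 0), c2 (x 1), c2 (x 2)} : Multiset ℝ) = {c2 (y 0), c2 (y 1), c2 (y 2)})
    (v : Fin 3 → ℤ) :
    ∃ w : Fin 3 → ℤ, (w = 0 → v = 0) ∧
      ((∀ i, c2 (x i) = 1 → v i = 0) → ∀ i, c2 (y i) = 1 → w i = 0) ∧
      ∀ t : ℝ, c2 (y 0 + w 0 * t) * c2 (y 1 + w 1 * t) * c2 (y 2 + w 2 * t)
        = c2 (x 0 + v 0 * t) * c2 (x 1 + v 1 * t) * c2 (x 2 + v 2 * t) := by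
  -- a uniform statement for a bijection of the indices
  have key : ∀ (i j k : Fin 3), c2 (x i) = c2 (y 0) → c2 (x j) = c2 (y 1) → c2 (x k) = c2 (y 2) →
      (∀ f : Fin 3 → ℝ, f i * f j * f k = f 0 * f 1 * f 2) →
      (∀ l : Fin 3, l = i ∨ l = j ∨ l = k) →
      ∃ w : Fin 3 → ℤ, (w = 0 → v = 0) ∧
      ((∀ i, c2 (x i) = 1 → v i = 0) → ∀ i, c2 (y i) = 1 → w i = 0) ∧
      ∀ t : ℝ, c2 (y 0 + w 0 * t) * c2 (y 1 + w 1 * t) * c2 (y 2 + w 2 * t)
        = c2 (x 0 + v 0 * t) * c2 (x 1 + v 1 * t) * c2 (x 2 + v 2 * t) := by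
    intro i j k hi hj hk hf hl
    obtain ⟨e0, he0, l0⟩ := c2_line _ _ hi
    obtain ⟨e1, he1, l1⟩ := c2_line _ _ hj
    obtain ⟨e2, he2, l2⟩ := c2_line _ _ hk
    refine ⟨![e0 * v i, e1 * v j, e2 * v k], ?_, ?_, ?_⟩
    · intro hw
      have h0 := congrFun hw 0
      have h1 := congrFun hw 1
      have h2 := congrFun hw 2
      simp only [Matrix.cons_val_zero, Matrix.cons_val_one, Matrix.cons_val, Pi.zero_apply] at h0 h1 h2
      have g0 : v i = 0 := by rcases he0 with rfl | rfl <;> omega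
      have g1 : v j = 0 := by rcases he1 with rfl | rfl <;> omega
      have g2 : v k = 0 := by rcases he2 with rfl | rfl <;> omega
      funext l
      rcases hl l with rfl | rfl | rfl <;> simp [g0, g1, g2]
    · intro hx l hyl
      fin_cases l
      · simp only [Fin.zero_eta, Matrix.cons_val_zero]
        rw [hx i (hi.trans hyl), mul_zero]
      · simp only [Fin.mk_one, Matrix.cons_val_one]
        rw [Matrix.cons_val_zero, hx j (hj.trans hyl), mul_zero]
      · simp only [Fin.reduceFinMk, Matrix.cons_val]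
        rw [hx k (hk.trans hyl), mul_zero]
    · intro t
      have := hf (fun l => c2 (x l + v l * t))
      rw [← this, ← l0 (v i * t), ← l1 (v j * t), ← l2 (v k * t)]
      simp only [Matrix.cons_val_zero, Matrix.cons_val_one, Matrix.cons_val]
      push_cast
      simp only [mul_assoc]
  rcases triple_cases hxy with ⟨h0, h1, h2⟩ | ⟨h0, h1, h2⟩ | ⟨h0, h1, h2⟩ | ⟨h0, h1, h2⟩ |
    ⟨h0, h1, h2⟩ | ⟨h0, h1, h2⟩
  · exact key 0 1 2 h0 h1 h2 (fun f => by ring) (by decide)
  · exact key 0 2 1 h0 h2 h1 (fun f => by ring) (by decide)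
  · exact key 1 0 2 h1 h0 h2 (fun f => by ring) (by decide)
  · exact key 2 0 1 h2 h0 h1 (fun f => by ring) (by decide)
  · exact key 1 2 0 h1 h2 h0 (fun f => by ring) (by decide)
  · exact key 2 1 0 h2 h1 h0 (fun f => by ring) (by decide)

theorem same_ni (a a' : Fin 6 → ℚ) (h : Same a a') (hn : NI a) : NI a' := by
  obtain ⟨v, hv, hT, hline⟩ := hn
  have build : ∀ (w1 w2 : Fin 3 → ℤ), (w1 = 0 → w2 = 0 → v = 0) →
      (∀ i : Fin 3, c2 (![(a' 0 : ℝ), a' 1, a' 2] i) = 1 → w1 i = 0) →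
      (∀ i : Fin 3, c2 (![(a' 3 : ℝ), a' 4, a' 5] i) = 1 → w2 i = 0) →
      (∀ t : ℝ, c2 (a' 0 + w1 0 * t) * c2 (a' 1 + w1 1 * t) * c2 (a' 2 + w1 2 * t)
        = c2 (a' 3 + w2 0 * t) * c2 (a' 4 + w2 1 * t) * c2 (a' 5 + w2 2 * t)) → NI a' := by
    intro w1 w2 hw h1 h2 hl
    refine ⟨![w1 0, w1 1, w1 2, w2 0, w2 1, w2 2], ?_, ?_, ?_⟩
    · intro h0
      apply hv
      apply hw
      · funext i
        fin_cases i
        · exact congrFun h0 0
        · exact congrFun h0 1
        · exact congrFun h0 2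
      · funext i
        fin_cases i
        · exact congrFun h0 3
        · exact congrFun h0 4
        · exact congrFun h0 5
    · intro i
      fin_cases i
      · exact h1 0
      · exact h1 1
      · exact h1 2
      · exact h2 0
      · exact h2 1
      · exact h2 2
    · intro t
      exact hl t
  unfold Same L3 R3 at h
  rcases h with ⟨hL, hR⟩ | ⟨hL, hR⟩
  · obtain ⟨w1, z1, t1, l1⟩ := tri_transport ![(a 0 : ℝ), a 1, a 2] ![(a' 0 : ℝ), a' 1, a' 2]
      (by simpa using hL) ![v 0, v 1, v 2]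
    obtain ⟨w2, z2, t2, l2⟩ := tri_transport ![(a 3 : ℝ), a 4, a 5] ![(a' 3 : ℝ), a' 4, a' 5]
      (by simpa using hR) ![v 3, v 4, v 5]
    apply build w1 w2
    · intro hw1 hw2
      have g1 := z1 hw1
      have g2 := z2 hw2
      funext i
      fin_cases i
      · exact congrFun g1 0
      · exact congrFun g1 1
      · exact congrFun g1 2
      · exact congrFun g2 0
      · exact congrFun g2 1
      · exact congrFun g2 2
    · apply t1
      intro i
      fin_cases i
      · exact hT 0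
      · exact hT 1
      · exact hT 2
    · apply t2
      intro i
      fin_cases i
      · exact hT 3
      · exact hT 4
      · exact hT 5
    · intro t
      exact (l1 t).trans ((hline t).trans (l2 t).symm)
  · obtain ⟨w1, z1, t1, l1⟩ := tri_transport ![(a 3 : ℝ), a 4, a 5] ![(a' 0 : ℝ), a' 1, a' 2]
      (by simpa using hR) ![v 3, v 4, v 5]
    obtain ⟨w2, z2, t2, l2⟩ := tri_transport ![(a 0 : ℝ), a 1, a 2] ![(a' 3 : ℝ), a' 4, a' 5]
      (by simpa using hL) ![v 0, v 1, v 2]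
    apply build w1 w2
    · intro hw1 hw2
      have g1 := z1 hw1
      have g2 := z2 hw2
      funext i
      fin_cases i
      · exact congrFun g2 0
      · exact congrFun g2 1
      · exact congrFun g2 2
      · exact congrFun g1 0
      · exact congrFun g1 1
      · exact congrFun g1 2
    · apply t1
      intro i
      fin_cases i
      · exact hT 3
      · exact hT 4
      · exact hT 5
    · apply t2
      intro i
      fin_cases i
      · exact hT 0
      · exact hT 1
      · exact hT 2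
    · intro t
      exact (l1 t).trans ((hline t).symm.trans (l2 t).symm)

/-- a common entry which is not a third gives a line -/
theorem ni_of_common (a : Fin 6 → ℚ) (hs : Sol a) (i j : Fin 6) (hi : i.val < 3) (hj : 3 ≤ j.val)
    (h : c2 (a i) = c2 (a j)) (h1 : c2 (a i) ≠ 1) : NI a := by
  obtain ⟨e, he, hl⟩ := c2_line _ _ h
  have hij : i ≠ j := by rintro rfl; omega
  refine ⟨fun k => if k = i then 1 else if k = j then e else 0, ?_, ?_, ?_⟩
  · intro h0
    have := congrFun h0 i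
    simp at this
  · intro k hk
    by_cases hki : k = i
    · subst hki; exact absurd hk h1
    · by_cases hkj : k = j
      · subst hkj; exact absurd (h.trans hk) h1
      · simp [hki, hkj]
  · intro t
    have hl' := hl t
    have hne : c2 (a i) ≠ 0 := hs.1 i
    have hs2 := hs.2
    fin_cases i <;> fin_cases j <;> simp at hi hj hij h hl' hne ⊢ <;>
      rw [h] at hs2 hne <;> rw [hl'] <;> apply mul_left_cancel₀ hne
    all_goals first
      | (linear_combination (c2 (a 0 + t)) * hs2)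
      | (linear_combination (c2 (a 1 + t)) * hs2)
      | (linear_combination (c2 (a 2 + t)) * hs2)

end Pool.Agent.TriCos
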