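import Pool.Agent.Lib_MP_6e4ab6_nt.Full.GaloisA
import Pool.Agent.Lib_MP_6e4ab6_nt.Full.Conc
import Pool.Agent.Lib_MP_6e4ab6_nt.Full.NIlem

/-!
# Invariance of solutions, lines and of the conclusion under the Galois action
-/

namespace Pool.Agent.TriCos

open Finset Polynomial

/-! ### the polynomial form of the Galois action -/

theorem gc_gal_poly (N : ℕ) (hN : 0 < N) (P : ℤ[X]) (u : ℤ) (hu : IsCoprime u (N : ℤ))
    (h : aeval (rt N 1) P = 0) : aeval (rt N u) P = 0 := by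
  have hprim : IsPrimitiveRoot (rt N 1) N := rt_primitive N hN 1 isCoprime_one_left
  have hdvd : cyclotomic N ℤ ∣ P := by
    rw [cyclotomic_eq_minpoly hprim hN]
    exact minpoly.isIntegrallyClosed_dvd (hprim.isIntegral hN) h
  obtain ⟨g, hg⟩ := hdvd
  rw [hg, map_mul]
  have h2 : aeval (rt N u) (cyclotomic N ℤ) = 0 := by
    have := (rt_primitive N hN u hu).isRoot_cyclotomic hN
    rw [IsRoot.def, ← map_cyclotomic_int, eval_map] at this
    rw [aeval_def]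
    exact this
  rw [h2, zero_mul]

/-- the polynomial with value `c2 (u k / N)` at `rt N u` -/
noncomputable def gc_c2p (N : ℕ) (k : ℤ) : ℤ[X] :=
  2 + X ^ (k % (N : ℤ)).toNat + X ^ ((-k) % (N : ℤ)).toNat

theorem gc_c2_rt (m : ℕ) (hm : 0 < m) (k : ℤ) :
    ((c2 ((k : ℝ) / m) : ℝ) : ℂ) = 2 + rt m k + rt m (-k) := by
  have h1 := rt_add_inv m hm k
  unfold c2
  push_cast at h1 ⊢
  rw [← h1]
  have h2 : rt (2 * m) k ^ 2 = rt m k := by
    rw [rt_pow, ← rt_scale m 2 (by norm_num) k]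
  have h3 : rt (2 * m) (-k) ^ 2 = rt m (-k) := by
    rw [rt_pow, ← rt_scale m 2 (by norm_num) (-k)]
  have h4 : rt (2 * m) k * rt (2 * m) (-k) = 1 := by
    rw [← rt_add, add_neg_cancel, rt_zero]
  rw [← h2, ← h3]
  linear_combination 2 * h4

theorem gc_aeval_c2p (m : ℕ) (hm : 0 < m) (k u : ℤ) :
    aeval (rt m u) (gc_c2p m k) = ((c2 (((u * k : ℤ) : ℝ) / m) : ℝ) : ℂ) := by
  rw [gc_c2_rt m hm]
  unfold gc_c2p
  rw [map_add, map_add, map_pow, map_pow, aeval_X, rt_emod m hm, rt_emod m hm, mul_neg, map_ofNat]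

/-- the product identity -/
def gc_PId (m : ℕ) (s : Fin 6 → ℤ) : Prop :=
  c2 ((s 0 : ℝ) / m) * c2 ((s 1 : ℝ) / m) * c2 ((s 2 : ℝ) / m) =
    c2 ((s 3 : ℝ) / m) * c2 ((s 4 : ℝ) / m) * c2 ((s 5 : ℝ) / m)

theorem gc_pid_galois (m : ℕ) (hm : 0 < m) (s : Fin 6 → ℤ) (u : ℤ) (hu : IsCoprime u (m : ℤ))
    (h : gc_PId m s) : gc_PId m (fun i => u * s i) := by
  have h1 := gc_gal_poly m hm (gc_c2p m (s 0) * gc_c2p m (s 1) * gc_c2p m (s 2) -
    gc_c2p m (s 3) * gc_c2p m (s 4) * gc_c2p m (s 5)) u hu ?_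
  · simp only [map_sub, map_mul, gc_aeval_c2p m hm] at h1
    unfold gc_PId
    have h2 := sub_eq_zero.1 h1
    exact_mod_cast h2
  · simp only [map_sub, map_mul, gc_aeval_c2p m hm, one_mul]
    unfold gc_PId at h
    rw [sub_eq_zero]
    exact_mod_cast h

theorem gc_c2_gal (m : ℕ) (hm : 0 < m) (k : ℤ) (u : ℤ) (hu : IsCoprime u (m : ℤ)) (n : ℤ)
    (h : c2 ((k : ℝ) / m) = n) : c2 (((u * k : ℤ) : ℝ) / m) = n := by
  have h1 := gc_gal_poly m hm (gc_c2p m k - C n) u hu ?_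
  · simp only [map_sub, gc_aeval_c2p m hm, eq_intCast, map_intCast] at h1
    have h2 := sub_eq_zero.1 h1
    exact_mod_cast h2
  · simp only [map_sub, gc_aeval_c2p m hm, one_mul, eq_intCast, map_intCast]
    rw [sub_eq_zero]
    exact_mod_cast h

/-! ### elementary facts on `c2` -/

theorem gc_c2_eq_cos (x : ℝ) : c2 x = 2 + 2 * Real.cos (2 * Real.pi * x) := by
  unfold c2
  have h : 2 * Real.pi * x = 2 * (Real.pi * x) := by ring
  rw [h, Real.cos_two_mul]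
  ring

theorem gc_c2_neg (x : ℝ) : c2 (-x) = c2 x := by
  unfold c2
  rw [mul_neg, Real.cos_neg]

theorem gc_c2_add_int (x : ℝ) (n : ℤ) : c2 (x + n) = c2 x := by
  rw [gc_c2_eq_cos, gc_c2_eq_cos]
  have h : 2 * Real.pi * (x + n) = 2 * Real.pi * x + n * (2 * Real.pi) := by ring
  rw [h, Real.cos_add_int_mul_two_pi]

theorem gc_c2_sub_int (x : ℝ) (n : ℤ) : c2 (x - n) = c2 x := by
  have h := gc_c2_add_int x (-n)
  push_cast at h
  rw [← h]; congr 1

theorem gc_c2_congr (m : ℕ) (hm : 0 < m) (k l : ℤ) (h : (m : ℤ) ∣ k - l ∨ (m : ℤ) ∣ k + l) :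
    c2 ((k : ℝ) / m) = c2 ((l : ℝ) / m) := by
  have hm' : (m : ℝ) ≠ 0 := Nat.cast_ne_zero.2 hm.ne'
  rcases h with ⟨c, hc⟩ | ⟨c, hc⟩
  · have h1 : (k : ℝ) / m = (l : ℝ) / m + c := by
      have : (k : ℝ) = l + m * c := by
        have : k = l + m * c := by linarith
        exact_mod_cast this
      rw [this]; field_simp
    rw [h1, gc_c2_add_int]
  · have h1 : (k : ℝ) / m = -((l : ℝ) / m) + c := by
      have : (k : ℝ) = -l + m * c := by
        have : k = -l + m * c := by linarith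
        exact_mod_cast this
      rw [this]; field_simp
    rw [h1, gc_c2_add_int, gc_c2_neg]

theorem gc_c2_ang (m : ℕ) (s : Fin 6 → ℤ) (i : Fin 6) :
    c2 ((ang m s i : ℚ) : ℝ) = c2 ((s i : ℝ) / m) := by
  unfold ang; push_cast; rfl

theorem gc_inv_mod (m : ℕ) (u : ℤ) (hu : IsCoprime u (m : ℤ)) :
    ∃ u' : ℤ, IsCoprime u' (m : ℤ) ∧ (m : ℤ) ∣ u' * u - 1 := by
  obtain ⟨a, b, hab⟩ := hu
  exact ⟨a, ⟨u, b, by linear_combination hab⟩, ⟨-b, by linear_combination hab⟩⟩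

theorem gc_c2_gal_iff (m : ℕ) (hm : 0 < m) (k : ℤ) (u : ℤ) (hu : IsCoprime u (m : ℤ)) (n : ℤ) :
    c2 (((u * k : ℤ) : ℝ) / m) = n ↔ c2 ((k : ℝ) / m) = n := by
  refine ⟨fun h => ?_, gc_c2_gal m hm k u hu n⟩
  obtain ⟨u', hu', hd⟩ := gc_inv_mod m u hu
  rw [← gc_c2_gal m hm (u * k) u' hu' n h]
  refine gc_c2_congr m hm _ _ (Or.inl ?_)
  have : k - u' * (u * k) = -((u' * u - 1) * k) := by ring
  rw [this]
  exact (dvd_neg.2 (hd.mul_right k))

/-! ### the sixteen terms -/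

theorem gc_rel_sum (N : ℕ) (s : Fin 6 → ℤ) : ∑ μ, (sg μ : ℂ) * rt N (dot μ s) =
    (rt N (s 0) + rt N (-s 0)) * (rt N (s 1) + rt N (-s 1)) * (rt N (s 2) + rt N (-s 2)) -
    (rt N (s 3) + rt N (-s 3)) * (rt N (s 4) + rt N (-s 4)) * (rt N (s 5) + rt N (-s 5)) := by
  simp [Fin.sum_univ_succ, dot, sg]
  simp only [sub_eq_add_neg, rt_add]
  ring

theorem rel_of_sol (m : ℕ) (hm : 0 < m) (s : Fin 6 → ℤ) (h : Sol (ang m s)) :
    ND (2 * m) s ∧ (Rel (2 * m) s ∨ Rel (2 * m) (Function.update s 5 (s 5 + m))) := by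
  obtain ⟨h0, h1⟩ := h
  simp only [gc_c2_ang] at h0 h1
  have hnd : ND (2 * m) s := by
    intro i hi
    apply h0 i
    rw [rt_add_inv m hm] at hi
    unfold c2
    have : (2 * Real.cos (Real.pi * ((s i : ℝ) / m)) : ℝ) = 0 := by exact_mod_cast hi
    rw [this]; ring
  refine ⟨hnd, ?_⟩
  have key : ∀ i, (rt (2 * m) (s i) + rt (2 * m) (-s i)) ^ 2 = ((c2 ((s i : ℝ) / m) : ℝ) : ℂ) := by
    intro i
    rw [rt_add_inv m hm]
    unfold c2
    push_cast
    rfl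
  have h2 : ((rt (2 * m) (s 0) + rt (2 * m) (-s 0)) * (rt (2 * m) (s 1) + rt (2 * m) (-s 1)) *
      (rt (2 * m) (s 2) + rt (2 * m) (-s 2))) ^ 2 = ((rt (2 * m) (s 3) + rt (2 * m) (-s 3)) *
      (rt (2 * m) (s 4) + rt (2 * m) (-s 4)) * (rt (2 * m) (s 5) + rt (2 * m) (-s 5))) ^ 2 := by
    simp only [mul_pow, key]
    exact_mod_cast h1
  rcases sq_eq_sq_iff_eq_or_eq_neg.1 h2 with h3 | h3
  · left
    unfold Rel
    rw [gc_rel_sum, h3, sub_self]
  · right
    unfold Rel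
    rw [gc_rel_sum]
    have e5 : rt (2 * m) (s 5 + m) + rt (2 * m) (-(s 5 + m)) =
        -(rt (2 * m) (s 5) + rt (2 * m) (-s 5)) := by
      rw [rt_add, rt_neg, rt_add, mul_inv, rt_half m hm, rt_neg]
      norm_num
      ring
    simp only [Function.update_self, Function.update_of_ne (show (0 : Fin 6) ≠ 5 by decide),
      Function.update_of_ne (show (1 : Fin 6) ≠ 5 by decide),
      Function.update_of_ne (show (2 : Fin 6) ≠ 5 by decide),
      Function.update_of_ne (show (3 : Fin 6) ≠ 5 by decide),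
      Function.update_of_ne (show (4 : Fin 6) ≠ 5 by decide)]
    rw [h3, e5]
    ring

theorem gc_cop_m {m : ℕ} {u : ℤ} (hu : IsCoprime u (2 * m : ℤ)) : IsCoprime u (m : ℤ) :=
  hu.of_mul_right_right

theorem sol_galois (m : ℕ) (hm : 0 < m) (s : Fin 6 → ℤ) (u : ℤ) (hu : IsCoprime u (2 * m : ℤ))
    (h : Sol (ang m s)) : Sol (ang m (fun i => u * s i)) := by
  obtain ⟨h0, h1⟩ := h
  simp only [gc_c2_ang] at h0 h1
  refine ⟨fun i => ?_, ?_⟩
  · rw [gc_c2_ang]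
    intro h2
    exact h0 i (by
      have := (gc_c2_gal_iff m hm (s i) u (gc_cop_m hu) 0).1 (by rw [h2]; simp)
      simpa using this)
  · simp only [gc_c2_ang]
    exact gc_pid_galois m hm s u (gc_cop_m hu) h1

theorem ni_galois (m : ℕ) (hm : 0 < m) (s : Fin 6 → ℤ) (u : ℤ) (hu : IsCoprime u (2 * m : ℤ))
    (h : NI (ang m s)) : NI (ang m (fun i => u * s i)) := by
  obtain ⟨v, hv0, hv1, hid⟩ := h
  have hm' : (m : ℝ) ≠ 0 := Nat.cast_ne_zero.2 hm.ne'
  have hu0 : u ≠ 0 := by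
    rintro rfl
    have h1 := isCoprime_zero_left.1 hu
    have h2 := Int.isUnit_iff.1 h1
    omega
  refine ⟨v, hv0, fun i hi => ?_, fun θ => ?_⟩
  · apply hv1 i
    rw [gc_c2_ang] at hi ⊢
    have := (gc_c2_gal_iff m hm (s i) u (gc_cop_m hu) 1).1 (by rw [hi]; simp)
    simpa using this
  · -- rational points
    have hrat : ∀ (n : ℕ) (j : ℤ), gc_PId (m * (1 + u.natAbs * n))
        (fun i => u * (s i * (1 + u.natAbs * n : ℕ) + v i * j * m)) := by
      intro n j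
      have hM : 0 < 1 + u.natAbs * n := by positivity
      refine gc_pid_galois _ (Nat.mul_pos hm hM) _ u ?_ ?_
      · push_cast
        refine IsCoprime.mul_right (gc_cop_m hu) ?_
        rcases abs_choice u with h | h
        · rw [h]; exact ⟨-n, 1, by ring⟩
        · rw [h]; exact ⟨n, 1, by ring⟩
      · have h1 := hid ((j : ℝ) / (1 + u.natAbs * n : ℕ))
        have hM' : ((1 + u.natAbs * n : ℕ) : ℝ) ≠ 0 := Nat.cast_ne_zero.2 hM.ne'
        unfold gc_PId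
        have e : ∀ i : Fin 6, (((s i * (1 + u.natAbs * n : ℕ) + v i * j * m : ℤ) : ℤ) : ℝ) /
            ((m * (1 + u.natAbs * n) : ℕ) : ℝ) =
            ((ang m s i : ℚ) : ℝ) + v i * ((j : ℝ) / (1 + u.natAbs * n : ℕ)) := by
          intro i
          unfold ang
          rw [Nat.cast_mul]
          have hab : ((u.natAbs : ℕ) : ℝ) = |(u : ℝ)| := by rw [Nat.cast_natAbs]; push_cast; rfl
          push_cast at hM' ⊢
          rw [hab] at hM' ⊢
          field_simp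
        simp only [e]
        exact h1
    have hlim : Filter.Tendsto (fun n : ℕ => (u : ℝ) * (⌊θ * (1 + u.natAbs * n : ℕ) / u⌋ : ℝ) /
        (1 + u.natAbs * n : ℕ)) Filter.atTop (nhds θ) := by
      have hu0' : (u : ℝ) ≠ 0 := Int.cast_ne_zero.2 hu0
      have h1 : Filter.Tendsto (fun n : ℕ => ((1 + u.natAbs * n : ℕ) : ℝ)) Filter.atTop
          Filter.atTop := by
        refine tendsto_natCast_atTop_atTop.comp ?_
        refine Filter.tendsto_atTop_mono (f := fun n => n) (fun n => ?_) Filter.tendsto_id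
        have : 1 ≤ u.natAbs := Nat.one_le_iff_ne_zero.2 (Int.natAbs_ne_zero.2 hu0)
        nlinarith
      have h2 : Filter.Tendsto (fun n : ℕ => |(u : ℝ)| / ((1 + u.natAbs * n : ℕ) : ℝ))
          Filter.atTop (nhds 0) := h1.const_div_atTop _
      rw [tendsto_iff_norm_sub_tendsto_zero]
      refine squeeze_zero (fun _ => norm_nonneg _) (fun n => ?_) h2
      have hM : (0 : ℝ) < ((1 + u.natAbs * n : ℕ) : ℝ) := by positivity
      set M : ℝ := ((1 + u.natAbs * n : ℕ) : ℝ) with hMdef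
      have e : (u : ℝ) * (⌊θ * M / u⌋ : ℝ) / M - θ = (u : ℝ) * (⌊θ * M / u⌋ - θ * M / u) / M := by
        field_simp
      rw [e, norm_div, norm_mul, Real.norm_eq_abs, Real.norm_eq_abs, Real.norm_eq_abs,
        abs_of_pos hM]
      have h3 : |(⌊θ * M / u⌋ : ℝ) - θ * M / u| ≤ 1 := by
        rw [abs_sub_comm, abs_of_nonneg (Int.fract_nonneg _)]
        exact (Int.fract_lt_one _).le
      gcongr
      calc |(u : ℝ)| * |(⌊θ * M / u⌋ : ℝ) - θ * M / u| ≤ |(u : ℝ)| * 1 := by gcongr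
        _ = |(u : ℝ)| := mul_one _
    have hc : ∀ x : ℝ, ∀ w : ℤ, Continuous fun t : ℝ => c2 (x + w * t) := by
      intro x w
      unfold c2
      fun_prop
    set f : ℝ → ℝ := fun θ => c2 ((ang m (fun i => u * s i) 0 : ℚ) + v 0 * θ) *
      c2 ((ang m (fun i => u * s i) 1 : ℚ) + v 1 * θ) *
      c2 ((ang m (fun i => u * s i) 2 : ℚ) + v 2 * θ) with hf
    set g : ℝ → ℝ := fun θ => c2 ((ang m (fun i => u * s i) 3 : ℚ) + v 3 * θ) *
      c2 ((ang m (fun i => u * s i) 4 : ℚ) + v 4 * θ) *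
      c2 ((ang m (fun i => u * s i) 5 : ℚ) + v 5 * θ) with hg
    have hfc : Continuous f := ((hc _ _).mul (hc _ _)).mul (hc _ _)
    have hgc : Continuous g := ((hc _ _).mul (hc _ _)).mul (hc _ _)
    have h1 := (hfc.tendsto θ).comp hlim
    have h2 := (hgc.tendsto θ).comp hlim
    have h3 : (f ∘ fun n : ℕ => (u : ℝ) * (⌊θ * (1 + u.natAbs * n : ℕ) / u⌋ : ℝ) /
        (1 + u.natAbs * n : ℕ)) = (g ∘ fun n : ℕ => (u : ℝ) *
        (⌊θ * (1 + u.natAbs * n : ℕ) / u⌋ : ℝ) / (1 + u.natAbs * n : ℕ)) := by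
      funext n
      have h4 := hrat n ⌊θ * (1 + u.natAbs * n : ℕ) / u⌋
      unfold gc_PId at h4
      simp only [Function.comp, hf, hg]
      have hM : 0 < 1 + u.natAbs * n := by positivity
      have hM' : ((1 + u.natAbs * n : ℕ) : ℝ) ≠ 0 := Nat.cast_ne_zero.2 hM.ne'
      generalize ⌊θ * (1 + u.natAbs * n : ℕ) / u⌋ = j at h4 ⊢
      have e : ∀ i : Fin 6, (((u * (s i * (1 + u.natAbs * n : ℕ) + v i * j * m) : ℤ) : ℤ) : ℝ) /
          ((m * (1 + u.natAbs * n) : ℕ) : ℝ) =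
          ((ang m (fun i => u * s i) i : ℚ) : ℝ) +
            v i * ((u : ℝ) * (j : ℝ) / (1 + u.natAbs * n : ℕ)) := by
        intro i
        unfold ang
        rw [Nat.cast_mul]
        have hab : ((u.natAbs : ℕ) : ℝ) = |(u : ℝ)| := by rw [Nat.cast_natAbs]; push_cast; rfl
        push_cast at hM' ⊢
        rw [hab] at hM' ⊢
        field_simp
      simp only [e] at h4
      exact h4
    rw [h3] at h1
    exact tendsto_nhds_unique h1 h2

/-! ### the relation `Same` -/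

theorem same_refl (a : Fin 6 → ℚ) : Same a a := Or.inl ⟨rfl, rfl⟩

theorem same_symm (a a' : Fin 6 → ℚ) (h : Same a a') : Same a' a := by
  rcases h with ⟨h1, h2⟩ | ⟨h1, h2⟩
  · exact Or.inl ⟨h1.symm, h2.symm⟩
  · exact Or.inr ⟨h2.symm, h1.symm⟩

theorem same_trans (a a' a'' : Fin 6 → ℚ) (h : Same a a') (h' : Same a' a'') : Same a a'' := by
  rcases h with ⟨h1, h2⟩ | ⟨h1, h2⟩ <;> rcases h' with ⟨h3, h4⟩ | ⟨h3, h4⟩
  · exact Or.inl ⟨h1.trans h3, h2.trans h4⟩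
  · exact Or.inr ⟨h1.trans h3, h2.trans h4⟩
  · exact Or.inr ⟨h1.trans h4, h2.trans h3⟩
  · exact Or.inl ⟨h1.trans h4, h2.trans h3⟩

theorem gc_sol_iff (a : Fin 6 → ℚ) : Sol a ↔ (∀ x ∈ L3 a, x ≠ 0) ∧ (∀ x ∈ R3 a, x ≠ 0) ∧
    (L3 a).prod = (R3 a).prod := by
  unfold Sol L3 R3
  simp only [Multiset.insert_eq_cons, Multiset.mem_cons, Multiset.mem_singleton,
    Multiset.prod_cons, Multiset.prod_singleton]
  constructor
  · rintro ⟨h1, h2⟩
    refine ⟨?_, ?_, ?_⟩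
    · rintro x (rfl | rfl | rfl) <;> apply h1
    · rintro x (rfl | rfl | rfl) <;> apply h1
    · rw [← mul_assoc, ← mul_assoc]; exact h2
  · rintro ⟨h1, h2, h3⟩
    refine ⟨fun i => ?_, ?_⟩
    · fin_cases i
      · exact h1 _ (Or.inl rfl)
      · exact h1 _ (Or.inr (Or.inl rfl))
      · exact h1 _ (Or.inr (Or.inr rfl))
      · exact h2 _ (Or.inl rfl)
      · exact h2 _ (Or.inr (Or.inl rfl))
      · exact h2 _ (Or.inr (Or.inr rfl))
    · rw [← mul_assoc, ← mul_assoc] at h3; exact h3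

theorem same_sol (a a' : Fin 6 → ℚ) (h : Same a a') (hs : Sol a) : Sol a' := by
  rw [gc_sol_iff] at hs ⊢
  rcases h with ⟨h1, h2⟩ | ⟨h1, h2⟩
  · rw [← h1, ← h2]; exact hs
  · rw [← h1, ← h2]; exact ⟨hs.2.1, hs.1, hs.2.2.symm⟩

theorem gc_same_triv (a a' : Fin 6 → ℚ) (h : Same a a') (hs : Triv a) : Triv a' := by
  unfold Triv at *
  rcases h with ⟨h1, h2⟩ | ⟨h1, h2⟩
  · rw [← h1, ← h2]; exact hs
  · rw [← h1, ← h2]; exact hs.symm

theorem same_concl (a a' : Fin 6 → ℚ) (h : Same a a') (hs : Concl a) : Concl a' := by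
  rcases hs with hs | hs | ⟨r, hr, u, hu, hs⟩
  · exact Or.inl (gc_same_triv a a' h hs)
  · exact Or.inr (Or.inl (same_ni a a' h hs))
  · exact Or.inr (Or.inr ⟨r, hr, u, hu, same_trans _ _ _ (same_symm _ _ h) hs⟩)

theorem same_of_dvd (m : ℕ) (hm : 0 < m) (s s' : Fin 6 → ℤ)
    (h : ∀ i, (m : ℤ) ∣ s i - s' i ∨ (m : ℤ) ∣ s i + s' i) :
    Same (ang m s) (ang m s') := by
  left
  unfold L3 R3
  simp only [gc_c2_ang, gc_c2_congr m hm _ _ (h _), and_self]

/-- the values of `c2` at `u x` -/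
noncomputable def gc_Fu (u : ℤ) (y : ℝ) : ℝ := 2 + 2 * (Chebyshev.T ℝ u).eval ((y - 2) / 2)

theorem gc_c2_mul (u : ℤ) (x : ℝ) : c2 (u * x) = gc_Fu u (c2 x) := by
  unfold gc_Fu
  rw [gc_c2_eq_cos, gc_c2_eq_cos]
  have h : (2 + 2 * Real.cos (2 * Real.pi * x) - 2) / 2 = Real.cos (2 * Real.pi * x) := by ring
  rw [h, Chebyshev.T_real_cos]
  congr 3
  ring

theorem gc_ang_mul (m : ℕ) (s : Fin 6 → ℤ) (u : ℤ) (i : Fin 6) :
    c2 ((ang m (fun i => u * s i) i : ℚ) : ℝ) = gc_Fu u (c2 ((ang m s i : ℚ) : ℝ)) := by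
  rw [← gc_c2_mul]
  unfold ang
  push_cast
  congr 1
  ring

theorem gc_L3_mul (m : ℕ) (s : Fin 6 → ℤ) (u : ℤ) :
    L3 (ang m (fun i => u * s i)) = (L3 (ang m s)).map (gc_Fu u) := by
  unfold L3
  simp only [gc_ang_mul, Multiset.insert_eq_cons, Multiset.map_cons, Multiset.map_singleton]

theorem gc_R3_mul (m : ℕ) (s : Fin 6 → ℤ) (u : ℤ) :
    R3 (ang m (fun i => u * s i)) = (R3 (ang m s)).map (gc_Fu u) := by
  unfold R3
  simp only [gc_ang_mul, Multiset.insert_eq_cons, Multiset.map_cons, Multiset.map_singleton]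

theorem same_galois (m m' : ℕ) (hm : 0 < m) (hm' : 0 < m') (s s' : Fin 6 → ℤ) (u : ℤ)
    (h : Same (ang m s) (ang m' s')) :
    Same (ang m (fun i => u * s i)) (ang m' (fun i => u * s' i)) := by
  unfold Same at *
  rw [gc_L3_mul, gc_R3_mul, gc_L3_mul, gc_R3_mul]
  rcases h with ⟨h1, h2⟩ | ⟨h1, h2⟩
  · left; rw [h1, h2]; exact ⟨rfl, rfl⟩
  · right; rw [h1, h2]; exact ⟨rfl, rfl⟩

set_option maxRecDepth 100000 in
theorem gc_tab_pos : ∀ r ∈ tab, 0 < r.1 := by decide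

/-- lifting a unit -/
theorem gc_lift_unit (m r : ℕ) (hm : 0 < m) (hr : 0 < r) (u : ℤ) (hu : IsCoprime u (2 * m : ℤ)) :
    ∃ w : ℤ, (m : ℤ) ∣ w - u ∧ IsCoprime w (2 * r : ℤ) := by
  have hcop : IsCoprime u ((2 * m : ℕ) : ℤ) := by exact_mod_cast hu
  have hne : NeZero (2 * m * (2 * r)) := ⟨by positivity⟩
  obtain ⟨y, hy⟩ := ZMod.unitsMap_surjective (n := 2 * m) (m := 2 * m * (2 * r))
    (dvd_mul_right _ _) (ZMod.unitOfIsCoprime u hcop)
  refine ⟨((y : ZMod (2 * m * (2 * r))).val : ℤ), ?_, ?_⟩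
  · have h1 : (((y : ZMod (2 * m * (2 * r))).val : ℤ) : ZMod (2 * m)) = (u : ZMod (2 * m)) := by
      have h2 := congrArg (fun z : (ZMod (2 * m))ˣ => (z : ZMod (2 * m))) hy
      simp only [ZMod.coe_unitOfIsCoprime, ZMod.unitsMap_def, Units.coe_map,
        MonoidHom.coe_coe, ZMod.castHom_apply] at h2
      rw [← h2, Int.cast_natCast]
      exact ZMod.natCast_val _
    have h3 := (ZMod.intCast_eq_intCast_iff_dvd_sub _ _ _).1 h1.symm
    refine Dvd.dvd.trans ?_ h3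
    push_cast
    exact dvd_mul_left _ _
  · have h1 := ZMod.val_coe_unit_coprime y
    have h2 : Nat.Coprime (y : ZMod (2 * m * (2 * r))).val (2 * r) :=
      Nat.Coprime.coprime_dvd_right (dvd_mul_left _ _) h1
    exact_mod_cast Nat.isCoprime_iff_coprime.2 h2

theorem concl_galois (m : ℕ) (hm : 0 < m) (s : Fin 6 → ℤ) (u : ℤ) (hu : IsCoprime u (2 * m : ℤ))
    (h : Concl (ang m s)) : Concl (ang m (fun i => u * s i)) := by
  rcases h with h | h | ⟨r, hr, u0, hu0, h⟩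
  · left
    unfold Triv at *
    rw [gc_L3_mul, gc_R3_mul, h]
  · exact Or.inr (Or.inl (ni_galois m hm s u hu h))
  · right; right
    have hr0 : 0 < r.1 := by
      exact gc_tab_pos r hr
    obtain ⟨w, hw1, hw2⟩ := gc_lift_unit m r.1 hm hr0 u hu
    refine ⟨r, hr, w * u0, IsCoprime.mul_left hw2 hu0, ?_⟩
    have h1 : Same (ang m (fun i => u * s i)) (ang m (fun i => w * s i)) := by
      refine same_of_dvd m hm _ _ fun i => Or.inl ?_
      have : u * s i - w * s i = -((w - u) * s i) := by ring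
      rw [this]
      exact dvd_neg.2 (hw1.mul_right _)
    have h2 := same_galois m r.1 hm hr0 _ _ w h
    simp only [← mul_assoc] at h2
    exact same_trans _ _ _ h1 h2

theorem concl_galois' (m : ℕ) (hm : 0 < m) (s : Fin 6 → ℤ) (u : ℤ) (hu : IsCoprime u (2 * m : ℤ))
    (h : Concl (ang m (fun i => u * s i))) : Concl (ang m s) := by
  have hu' : IsCoprime u ((2 * m : ℕ) : ℤ) := by exact_mod_cast hu
  obtain ⟨w, hw1, hw2⟩ := gc_inv_mod (2 * m) u hu'
  have h1 := concl_galois m hm _ w (by exact_mod_cast hw1) h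
  refine same_concl _ _ (same_of_dvd m hm _ _ fun i => Or.inl ?_) h1
  have : w * (u * s i) - s i = (w * u - 1) * s i := by ring
  rw [this]
  refine Dvd.dvd.mul_right (Dvd.dvd.trans ?_ hw2) _
  push_cast
  exact dvd_mul_left _ _

end Pool.Agent.TriCos
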