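import Pool.Agent.Lib_MP_6e4ab6_nt.Full.EngBase
import Pool.Agent.Lib_MP_6e4ab6_nt.Full.Conc
import Pool.Agent.Lib_MP_6e4ab6_nt.Full.NIlem

/-! Soundness of the table check. -/

namespace Pool.Agent.TriCos.Eng

open Finset

theorem same3_sound (a b c x y z : ℕ) (h : same3 a b c x y z = true) :
    ({a, b, c} : Multiset ℕ) = {x, y, z} := by
  have s12 : ∀ p q r : ℕ, ({p, q, r} : Multiset ℕ) = {q, p, r} := fun p q r =>
    Multiset.cons_swap p q {r}
  have s23 : ∀ p q r : ℕ, ({p, q, r} : Multiset ℕ) = {p, r, q} := fun p q r =>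
    congrArg (fun t => p ::ₘ t) (Multiset.cons_swap q r 0)
  unfold same3 at h
  simp only [and'_true, or'_true, beq_true] at h
  rcases h with ⟨rfl, ⟨rfl, rfl⟩ | ⟨rfl, rfl⟩⟩ | ⟨rfl, ⟨rfl, rfl⟩ | ⟨rfl, rfl⟩⟩ |
    ⟨rfl, ⟨rfl, rfl⟩ | ⟨rfl, rfl⟩⟩
  · rfl
  · exact s23 _ _ _
  · exact s12 _ _ _
  · exact (s23 _ _ _).trans (s12 _ _ _)
  · exact (s12 _ _ _).trans (s23 _ _ _)
  · exact ((s12 _ _ _).trans (s23 _ _ _)).trans (s12 _ _ _)

/-- `fold` does not change the value of the cosine up to sign -/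
theorem c2_fold (m : ℕ) (hm : 0 < m) (x : ℕ) : c2 ((fold m x : ℝ) / m) = c2 ((x : ℝ) / m) := by
  have key := c2_eq_iff m hm (fold m x : ℤ) (x : ℤ)
  simp only [Int.cast_natCast] at key
  rw [key]
  have hlt : x % m < m := Nat.mod_lt _ hm
  have hd : (m : ℤ) ∣ (x : ℤ) - ((x % m : ℕ) : ℤ) := by
    refine ⟨((x / m : ℕ) : ℤ), ?_⟩
    have := Nat.div_add_mod x m
    have h2 : (m : ℤ) * ((x / m : ℕ) : ℤ) + ((x % m : ℕ) : ℤ) = (x : ℤ) := by exact_mod_cast this
    linarith
  have hf : fold m x = x % m ∨ fold m x = m - x % m := by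
    unfold fold
    show (Bool.rec (motive := fun _ => ℕ) (m - x % m) (x % m) (Nat.ble (2 * (x % m)) m)) = _ ∨
      (Bool.rec (motive := fun _ => ℕ) (m - x % m) (x % m) (Nat.ble (2 * (x % m)) m)) = _
    cases Nat.ble (2 * (x % m)) m
    · right; rfl
    · left; rfl
  rcases hf with h | h
  · left
    rw [h]
    obtain ⟨t, ht⟩ := hd
    exact ⟨-t, by rw [mul_neg, ← ht]; ring⟩
  · right
    rw [h, Nat.cast_sub hlt.le]
    obtain ⟨t, ht⟩ := hd
    exact ⟨1 + t, by rw [mul_add, ← ht]; ring⟩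

/-- the packed table -/
noncomputable def tbl : NL := 
  (NL.cons (nat_lit 54148955340538377) 
  (NL.cons (nat_lit 72198607076327948) (NL.cons (nat_lit 90177752494244367) (NL.cons (nat_lit 90248258811856399) (NL.cons (nat_lit 162235346935611925) 
  (NL.cons (nat_lit 126347562416866837) (NL.cons (nat_lit 144397214285300248) (NL.cons (nat_lit 144326570528735774) (NL.cons (nat_lit 180425736560312862) 
  (NL.cons (nat_lit 216525177469796894) (NL.cons (nat_lit 126312309458469406) (NL.cons (nat_lit 216384302408532510) (NL.cons (nat_lit 180496242877923870) 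
  (NL.cons (nat_lit 144256063944262174) (NL.cons (nat_lit 180425598988452382) (NL.cons (nat_lit 180496380317925918) (NL.cons (nat_lit 180355367549272606) 
  (NL.cons (nat_lit 216454396008464926) (NL.cons (nat_lit 216384302142194206) (NL.cons (nat_lit 180496242611585566) (NL.cons (nat_lit 180496517623972382) 
  (NL.cons (nat_lit 288582772044595754) (NL.cons (nat_lit 144326708102169130) (NL.cons (nat_lit 324611431759086122) (NL.cons (nat_lit 252624206197424682) 
  (NL.cons (nat_lit 180425736561361450) (NL.cons (nat_lit 216454671287714346) (NL.cons (nat_lit 252694712515035690) (NL.cons (nat_lit 288723647107433002) 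
  (NL.cons (nat_lit 252553699479519786) (NL.cons (nat_lit 252624205797130794) (NL.cons (nat_lit 252695124833993258) (NL.cons (nat_lit 324787559914277421) 
  (NL.cons (nat_lit 162376222398480956) (NL.cons (nat_lit 216348911878013500) (NL.cons (nat_lit 198475250991104572) (NL.cons (nat_lit 360534607210742332) 
  (NL.cons (nat_lit 432662707968672316) (NL.cons (nat_lit 396633773242843708) (NL.cons (nat_lit 396915111049036348) (NL.cons (nat_lit 433121136135373372) 
  (NL.cons (nat_lit 487233394738987580) (NL.cons (nat_lit 469219752143749692) (NL.cons (nat_lit 433191367441646140) (NL.cons (nat_lit 306420904562262588) 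
  (NL.cons (nat_lit 396563404232327740) (NL.cons (nat_lit 469289433694208572) (NL.cons (nat_lit 469149795717481020) (NL.cons (nat_lit 396492897915241020) 
  (NL.cons (nat_lit 468515308252168764) (NL.cons (nat_lit 397020664167662140) (NL.cons (nat_lit 433119967638192700) (NL.cons (nat_lit 433191504882172476) 
  (NL.cons (nat_lit 468691504991306300) (NL.cons (nat_lit 469289983451071036) (NL.cons (nat_lit 432662432424133180) (NL.cons (nat_lit 433190611261850172) 
  (NL.cons (nat_lit 469220301902709308) (NL.cons (nat_lit 486951919626486844) (NL.cons (nat_lit 450782522290209852) (NL.cons (nat_lit 379006678106899516) 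
  (NL.cons (nat_lit 450923259780662332) (NL.cons (nat_lit 378619580491760700) (NL.cons (nat_lit 450782521757533244) (NL.cons (nat_lit 379006677574222908) 
  (NL.cons (nat_lit 451063997003203644) (NL.cons (nat_lit 451063997403235900) (NL.cons (nat_lit 360993035647977020) (NL.cons (nat_lit 505107399093257788) 
  (NL.cons (nat_lit 433050079663753788) (NL.cons (nat_lit 487022700690673215) (NL.cons (nat_lit 432979711318295106) (NL.cons (nat_lit 432979710651662914) 
  (NL.cons (nat_lit 468938277167563334) (NL.cons (nat_lit 432592201785541204) (NL.cons (nat_lit 649716407202742868) (NL.cons (nat_lit 468620998807126612) 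
  (NL.cons (nat_lit 685814473457402452) (NL.cons (nat_lit 649786638511112788) (NL.cons (nat_lit 685745066786947668) (NL.cons (nat_lit 685815572972175956) 
  (NL.cons (nat_lit 594897986318763092) (NL.cons (nat_lit 487234220043797588) (NL.cons (nat_lit 631067383656088660) (NL.cons (nat_lit 594897985518175316) 
  (NL.cons (nat_lit 487234219243209812) (NL.cons (nat_lit 631489596125348948) (NL.cons (nat_lit 649363600610168404) (NL.cons (nat_lit 469008371300172378) 
  (NL.cons (nat_lit 505107537332273754) (NL.cons (nat_lit 649503720288027226) (NL.cons (nat_lit 613194341112611418) (NL.cons (nat_lit 613476503821484634) 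
  (NL.cons (nat_lit 595215263879660634) (NL.cons (nat_lit 721280319856313946) (NL.cons (nat_lit 757837639578033769) (NL.cons (nat_lit 938440603929674360) 
  (NL.cons (nat_lit 756992252299969144) (NL.cons (nat_lit 865289750396273272) (NL.cons (nat_lit 974608901488509560) (NL.cons (nat_lit 938510835238044280) 
  (NL.cons (nat_lit 974469263514927736) (NL.cons (nat_lit 974539769701204600) (NL.cons (nat_lit 631384524844958840) (NL.cons (nat_lit 793796480839713912) 
  (NL.cons (nat_lit 1009791761479370360) (NL.cons (nat_lit 938158029173950072) (NL.cons (nat_lit 991144111793768568) (NL.cons (nat_lit 973622364143618680) 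
  (NL.cons (nat_lit 866100159990729336) (NL.cons (nat_lit 919368679389398142) (NL.cons (nat_lit 1009792448280135294) (NL.cons (nat_lit 1082272668305067660) 
  (NL.cons (nat_lit 1371631146064413352) (NL.cons (nat_lit 1387601757153003688) (NL.cons (nat_lit 1298727202148847272) (NL.cons (nat_lit 1442560640912724660) 
  (NL.cons (nat_lit 685604193198408914) (NL.cons (nat_lit 1461596073818588370) (NL.cons (nat_lit 1514689979289438930) (NL.cons (nat_lit 1515919164580301522) 
  (NL.cons (nat_lit 1515675279157365458) (NL.cons (nat_lit 1623409001057488594) (NL.cons (nat_lit 3407678272849843620) NL.nil))))))))))))))))))))))))))))))))))))))))))))))))))))))))))))))))))))))))))))))))))))))))))))))))))))))))))))))))))))))))))))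

/-- one packed entry is found in the table -/
noncomputable def tblChk (c : ℕ) : Bool :=
  tab.any (fun r => Nat.beq (dig c 0) r.1 && (Nat.beq (dig c 1) (r.2.getD 0 0) &&
    (Nat.beq (dig c 2) (r.2.getD 1 0) && (Nat.beq (dig c 3) (r.2.getD 2 0) &&
    (Nat.beq (dig c 4) (r.2.getD 3 0) && (Nat.beq (dig c 5) (r.2.getD 4 0) &&
    Nat.beq (dig c 6) (r.2.getD 5 0)))))))

theorem tblChk_all : all tblChk tbl = true := by decide +kernel

theorem tbl_spec (c : ℕ) (h : In c tbl) :
    ∃ r ∈ tab, dig c 0 = r.1 ∧ ∀ i : Fin 6, dig c (i.val + 1) = r.2.getD i.val 0 := by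
  have h1 := (all_true tblChk tbl).1 tblChk_all c h
  unfold tblChk at h1
  rw [List.any_eq_true] at h1
  obtain ⟨r, hr, h2⟩ := h1
  simp only [Bool.and_eq_true, beq_true] at h2
  obtain ⟨e0, e1, e2, e3, e4, e5, e6⟩ := h2
  refine ⟨r, hr, e0, ?_⟩
  intro i
  fin_cases i
  · exact e1
  · exact e2
  · exact e3
  · exact e4
  · exact e5
  · exact e6

/-- the value of an entry -/
theorem tab_val (m m0 k : ℕ) (hm : 0 < m) (hk : m = m0 * k) (u d : ℕ) :
    c2 ((((((u : ℤ) * (d : ℤ) : ℤ) : ℚ) / (m0 : ℚ) : ℚ)) : ℝ)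
      = c2 ((fold m (u * d * k) : ℝ) / m) := by
  rw [c2_fold m hm]
  congr 1
  have h0 : (m0 : ℝ) ≠ 0 := by
    intro h
    have : m0 = 0 := by exact_mod_cast h
    rw [this] at hk
    omega
  have h1 : (k : ℝ) ≠ 0 := by
    intro h
    have : k = 0 := by exact_mod_cast h
    rw [this] at hk
    omega
  rw [hk]
  push_cast
  field_simp

/-- the values of a multiple of an entry -/
theorem tab_side (m m0 k : ℕ) (hm : 0 < m) (hk : m = m0 * k) (u d1 d2 d3 x0 x1 x2 : ℕ)
    (h : same3 x0 x1 x2 (fold m (u * d1 * k)) (fold m (u * d2 * k)) (fold m (u * d3 * k)) = true) :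
    ({c2 ((((x0 : ℤ) : ℚ) / (m : ℚ) : ℚ) : ℝ), c2 ((((x1 : ℤ) : ℚ) / (m : ℚ) : ℚ) : ℝ),
      c2 ((((x2 : ℤ) : ℚ) / (m : ℚ) : ℚ) : ℝ)} : Multiset ℝ)
      = {c2 ((((((u : ℤ) * (d1 : ℤ) : ℤ) : ℚ) / (m0 : ℚ) : ℚ)) : ℝ),
        c2 ((((((u : ℤ) * (d2 : ℤ) : ℤ) : ℚ) / (m0 : ℚ) : ℚ)) : ℝ),
        c2 ((((((u : ℤ) * (d3 : ℤ) : ℤ) : ℚ) / (m0 : ℚ) : ℚ)) : ℝ)} := by
  rw [tab_val m m0 k hm hk, tab_val m m0 k hm hk, tab_val m m0 k hm hk]
  have h1 := congrArg (Multiset.map (fun n : ℕ => c2 ((n : ℝ) / m))) (same3_sound _ _ _ _ _ _ h)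
  simp only [Multiset.insert_eq_cons, Multiset.map_cons, Multiset.map_singleton] at h1
  push_cast
  simpa only [Multiset.insert_eq_cons] using h1

theorem tabOK_sound (m : ℕ) (hm : 0 < m) (x0 x1 x2 y0 y1 y2 u c : ℕ)
    (h : tabOK tbl m x0 x1 x2 y0 y1 y2 u c = true) :
    Tab (ang m ![(x0 : ℤ), x1, x2, y0, y1, y2]) := by
  unfold tabOK at h
  rw [and'_true, and'_true, and'_true, or'_true, and'_true, and'_true, mem_true, beq_true,
    beq_true] at h
  obtain ⟨⟨hc, hdv, hg⟩, hs⟩ := h
  obtain ⟨r, hr, e0, e⟩ := tbl_spec c hc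
  have e1 := e 0
  have e2 := e 1
  have e3 := e 2
  have e4 := e 3
  have e5 := e 4
  have e6 := e 5
  change dig c 1 = r.2.getD 0 0 at e1
  change dig c 2 = r.2.getD 1 0 at e2
  change dig c 3 = r.2.getD 2 0 at e3
  change dig c 4 = r.2.getD 3 0 at e4
  change dig c 5 = r.2.getD 4 0 at e5
  change dig c 6 = r.2.getD 5 0 at e6
  rw [e0, e1, e2, e3, e4, e5, e6] at hs
  rw [e0] at hdv hg
  have hk : m = r.1 * (m / r.1) := by
    have h1 : r.1 ∣ m := Nat.dvd_of_mod_eq_zero hdv
    exact (Nat.mul_div_cancel' h1).symm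
  refine ⟨r, hr, (u : ℤ), ?_, ?_⟩
  · have h1 : Nat.Coprime u (2 * r.1) := hg
    have h2 := Nat.isCoprime_iff_coprime.2 h1
    push_cast at h2
    exact h2
  · rcases hs with ⟨ha, hb⟩ | ⟨ha, hb⟩
    · left
      exact ⟨tab_side m r.1 (m / r.1) hm hk u _ _ _ x0 x1 x2 ha,
        tab_side m r.1 (m / r.1) hm hk u _ _ _ y0 y1 y2 hb⟩
    · right
      exact ⟨tab_side m r.1 (m / r.1) hm hk u _ _ _ x0 x1 x2 hb,
        tab_side m r.1 (m / r.1) hm hk u _ _ _ y0 y1 y2 ha⟩

end Pool.Agent.TriCos.Eng
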