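import Pool.Agent.Lib_MP_6e4ab6_nt.Full.Rt

/-!
# Galois action and class sums for vanishing sums of roots of unity
-/

namespace Pool.Agent.TriCos

open Finset Polynomial

theorem rt_pow (N : ℕ) (a : ℤ) (n : ℕ) : rt N a ^ n = rt N (n * a) := (rt_mul N n a).symm

theorem rt_primitive (N : ℕ) (hN : 0 < N) (u : ℤ) (hu : IsCoprime u (N : ℤ)) :
    IsPrimitiveRoot (rt N u) N := by
  refine ⟨?_, ?_⟩
  · rw [rt_pow, rt_eq_one_iff N hN]
    exact Dvd.intro _ rfl
  · intro l hl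
    rw [rt_pow, rt_eq_one_iff N hN] at hl
    have := hu.symm.dvd_of_dvd_mul_right hl
    exact_mod_cast this

/-- the polynomial of a sum of roots of unity -/
noncomputable def pol {ι : Type*} (F : Finset ι) (N : ℕ) (a k : ι → ℤ) : ℤ[X] :=
  ∑ i ∈ F, C (a i) * X ^ ((k i) % (N : ℤ)).toNat

theorem rt_emod (N : ℕ) (hN : 0 < N) (u k : ℤ) :
    rt N u ^ (k % (N : ℤ)).toNat = rt N (u * k) := by
  have h0 : (0 : ℤ) < N := by exact_mod_cast hN
  rw [rt_pow, rt_eq_iff N hN, Int.toNat_of_nonneg (Int.emod_nonneg _ h0.ne')]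
  have h := Int.emod_add_mul_ediv k N
  refine ⟨-(k / N * u), ?_⟩
  linear_combination u * h

theorem cyclotomic_dvd_pol {ι : Type*} (F : Finset ι) (N : ℕ) (hN : 0 < N) (a k : ι → ℤ)
    (h : ∑ i ∈ F, (a i : ℂ) * rt N (k i) = 0) : cyclotomic N ℤ ∣ pol F N a k := by
  have hprim : IsPrimitiveRoot (rt N 1) N := rt_primitive N hN 1 isCoprime_one_left
  rw [cyclotomic_eq_minpoly hprim hN]
  refine minpoly.isIntegrallyClosed_dvd (hprim.isIntegral hN) ?_
  rw [pol, map_sum, ← h]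
  refine Finset.sum_congr rfl fun i _ => ?_
  rw [map_mul, map_pow, aeval_X, aeval_C, rt_emod N hN, one_mul]
  simp

theorem sum_eq_zero_of_primitive {ι : Type*} (F : Finset ι) (N : ℕ) (hN : 0 < N) (a k : ι → ℤ)
    {K : Type*} [CommRing K] [IsDomain K] (μ : K) (hμ : IsPrimitiveRoot μ N)
    (h : ∑ i ∈ F, (a i : ℂ) * rt N (k i) = 0) :
    ∑ i ∈ F, (a i : K) * μ ^ ((k i) % (N : ℤ)).toNat = 0 := by
  obtain ⟨g, hg⟩ := cyclotomic_dvd_pol F N hN a k h
  have h1 : aeval μ (pol F N a k) = 0 := by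
    rw [hg, map_mul]
    have h2 : aeval μ (cyclotomic N ℤ) = 0 := by
      have := hμ.isRoot_cyclotomic hN
      rw [IsRoot.def, ← map_cyclotomic_int, eval_map] at this
      rw [aeval_def]
      exact this
    rw [h2, zero_mul]
  rw [pol, map_sum] at h1
  rw [← h1]
  refine Finset.sum_congr rfl fun i _ => ?_
  rw [map_mul, map_pow, aeval_X, aeval_C]
  simp

theorem rt_galois {ι : Type*} (F : Finset ι) (N : ℕ) (hN : 0 < N) (a k : ι → ℤ) (u : ℤ)
    (hu : IsCoprime u (N : ℤ)) (h : ∑ i ∈ F, (a i : ℂ) * rt N (k i) = 0) :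
    ∑ i ∈ F, (a i : ℂ) * rt N (u * k i) = 0 := by
  have := sum_eq_zero_of_primitive F N hN a k (rt N u) (rt_primitive N hN u hu) h
  rw [← this]
  refine Finset.sum_congr rfl fun i _ => ?_
  rw [rt_emod N hN]

theorem rt_mod {ι : Type*} (F : Finset ι) (N : ℕ) (hN : 0 < N) (a k : ι → ℤ) (q : ℕ)
    [Fact q.Prime] (g : ZMod q) (hg : IsPrimitiveRoot g N)
    (h : ∑ i ∈ F, (a i : ℂ) * rt N (k i) = 0) :
    ∑ i ∈ F, (a i : ZMod q) * g ^ (k i) = 0 := by
  have := sum_eq_zero_of_primitive F N hN a k g hg h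
  rw [← this]
  refine Finset.sum_congr rfl fun i _ => ?_
  congr 1
  have h0 : (0 : ℤ) < N := by exact_mod_cast hN
  have hg0 : g ≠ 0 := hg.ne_zero hN.ne'
  have e : k i = (((k i) % (N : ℤ)).toNat : ℤ) + (N : ℤ) * (k i / N) := by
    rw [Int.toNat_of_nonneg (Int.emod_nonneg _ h0.ne')]
    exact (Int.emod_add_mul_ediv _ _).symm
  conv_lhs => rw [e]
  rw [zpow_add₀ hg0, zpow_mul, zpow_natCast, zpow_natCast, hg.pow_eq_one, one_zpow, mul_one]

/-- orthogonality -/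
theorem sum_rt (Q : ℕ) (hQ : 0 < Q) (m : ℤ) :
    ∑ t ∈ range Q, rt Q (t * m) = if (Q : ℤ) ∣ m then (Q : ℂ) else 0 := by
  split_ifs with h
  · have : ∀ t ∈ range Q, rt Q (t * m) = 1 := by
      intro t _
      rw [rt_eq_one_iff Q hQ]
      exact h.mul_left _
    rw [Finset.sum_congr rfl this]
    simp
  · have h1 : rt Q m ≠ 1 := by rwa [Ne, rt_eq_one_iff Q hQ]
    have h2 : ∑ t ∈ range Q, rt Q (t * m) = ∑ t ∈ range Q, rt Q m ^ t :=
      Finset.sum_congr rfl fun t _ => by rw [rt_pow]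
    rw [h2, geom_sum_eq h1, rt_pow, (rt_eq_one_iff Q hQ _).2 (Dvd.intro _ rfl), sub_self, zero_div]

theorem class_sum {ι : Type*} (F : Finset ι) (N Q : ℕ) (hN : 0 < N) (hQ : Q ∣ N)
    (hp : ∀ p : ℕ, p.Prime → p ∣ N → p ∣ N / Q) (a k : ι → ℤ)
    (h : ∑ i ∈ F, (a i : ℂ) * rt N (k i) = 0) (r : ℤ) :
    ∑ i ∈ F.filter (fun i => (Q : ℤ) ∣ k i - r), (a i : ℂ) * rt N (k i) = 0 := by
  obtain ⟨M, hM⟩ := hQ
  have hQ0 : 0 < Q := Nat.pos_of_ne_zero (by rintro rfl; simp at hM; omega)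
  have hM0 : 0 < M := Nat.pos_of_ne_zero (by rintro rfl; simp at hM; omega)
  have hNQ : N / Q = M := by rw [hM]; exact Nat.mul_div_cancel_left _ hQ0
  rw [hNQ] at hp
  have hcop : ∀ t : ℕ, IsCoprime (1 + (M : ℤ) * t) (N : ℤ) := by
    intro t
    rw [show (1 + (M : ℤ) * t) = ((1 + M * t : ℕ) : ℤ) by push_cast; ring, Nat.isCoprime_iff_coprime]
    refine Nat.Coprime.symm (Nat.coprime_of_dvd ?_)
    intro q hq hqN hq1
    have h1 := (hp q hq hqN).mul_right t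
    have : q ∣ 1 := (Nat.dvd_add_left h1).1 hq1
    exact hq.one_lt.ne' (Nat.dvd_one.1 this)
  have key : ∀ t : ℕ, ∑ i ∈ F, (a i : ℂ) * rt N (k i) * rt Q (t * (k i - r)) = 0 := by
    intro t
    have h1 := rt_galois F N hN a k _ (hcop t) h
    have h2 : ∑ i ∈ F, (a i : ℂ) * rt N (k i) * rt Q (t * (k i - r)) =
        rt Q (-(t * r)) * ∑ i ∈ F, (a i : ℂ) * rt N ((1 + (M : ℤ) * t) * k i) := by
      rw [Finset.mul_sum]
      refine Finset.sum_congr rfl fun i _ => ?_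
      have e1 : rt N ((1 + (M : ℤ) * t) * k i) = rt N (k i) * rt Q (t * k i) := by
        have e2 : (1 + (M : ℤ) * t) * k i = k i + M * (t * k i) := by ring
        rw [e2, rt_add, hM, mul_comm Q M, rt_scale Q M hM0]
      have e3 : rt Q (t * (k i - r)) = rt Q (t * k i) * rt Q (-(t * r)) := by
        rw [← rt_add]; congr 1; ring
      rw [e1, e3]; ring
    rw [h2, h1, mul_zero]
  have hsum : ∑ t ∈ range Q, ∑ i ∈ F, (a i : ℂ) * rt N (k i) * rt Q (t * (k i - r)) = 0 :=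
    Finset.sum_eq_zero fun t _ => key t
  rw [Finset.sum_comm] at hsum
  have h3 : ∀ i ∈ F, ∑ t ∈ range Q, (a i : ℂ) * rt N (k i) * rt Q (t * (k i - r)) =
      if (Q : ℤ) ∣ k i - r then (Q : ℂ) * ((a i : ℂ) * rt N (k i)) else 0 := by
    intro i _
    rw [← Finset.mul_sum, sum_rt Q hQ0]
    split_ifs
    · ring
    · ring
  rw [Finset.sum_congr rfl h3, ← Finset.sum_filter, ← Finset.mul_sum] at hsum
  have hQc : (Q : ℂ) ≠ 0 := Nat.cast_ne_zero.2 hQ0.ne'
  exact (mul_eq_zero.1 hsum).resolve_left hQc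

theorem rt_split (p N' : ℕ) (hp : 0 < p) (hN' : 0 < N') (hc : Nat.Coprime p N') (p' n : ℤ)
    (hp' : (N' : ℤ) ∣ p * p' - 1) (hn : (p : ℤ) ∣ n * N' - 1) (k : ℤ) :
    rt (p * N') k = rt p (n * k) * rt N' (p' * k) := by
  have h1 : rt p (n * k) = rt (p * N') (N' * (n * k)) := by
    rw [mul_comm p N', rt_scale p N' hN']
  have h2 : rt N' (p' * k) = rt (p * N') (p * (p' * k)) := by
    rw [rt_scale N' p hp]
  rw [h1, h2, ← rt_add, rt_eq_iff _ (Nat.mul_pos hp hN')]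
  have hcop : IsCoprime (p : ℤ) (N' : ℤ) := Nat.isCoprime_iff_coprime.2 hc
  push_cast
  have e : k - (N' * (n * k) + p * (p' * k)) = k * (1 - n * N' - p * p') := by ring
  rw [e]
  refine Dvd.dvd.mul_left (hcop.mul_dvd ?_ ?_) _
  · have : (1 : ℤ) - n * N' - p * p' = -(n * N' - 1) - p * p' := by ring
    rw [this]
    exact dvd_sub (dvd_neg.2 hn) (dvd_mul_right _ _)
  · have : (1 : ℤ) - n * N' - p * p' = -(p * p' - 1) - N' * n := by ring
    rw [this]
    exact dvd_sub (dvd_neg.2 hp') (dvd_mul_right _ _)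

theorem exists_inv (p N' : ℕ) (hc : Nat.Coprime p N') :
    ∃ n : ℤ, (p : ℤ) ∣ n * N' - 1 := by
  obtain ⟨u, v, huv⟩ := Nat.isCoprime_iff_coprime.2 hc
  exact ⟨v, ⟨-u, by linear_combination huv⟩⟩

theorem class_const {ι : Type*} (F : Finset ι) (p N' : ℕ) (hp : p.Prime) (hN' : 0 < N')
    (hc : ¬ p ∣ N') (p' : ℤ) (hp' : (N' : ℤ) ∣ p * p' - 1) (a k : ι → ℤ)
    (h : ∑ i ∈ F, (a i : ℂ) * rt (p * N') (k i) = 0) :
    ∃ C : ℂ, ∀ r : ℤ,
      ∑ i ∈ F.filter (fun i => (p : ℤ) ∣ k i - r), (a i : ℂ) * rt N' (p' * k i) = C := by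
  have hcop : Nat.Coprime p N' := (Nat.Prime.coprime_iff_not_dvd hp).2 hc
  obtain ⟨n, hn⟩ := exists_inv p N' hcop
  have hp0 : 0 < p := hp.pos
  have hpc : (p : ℂ) ≠ 0 := Nat.cast_ne_zero.2 hp0.ne'
  have hpp : Prime (p : ℤ) := Nat.prime_iff_prime_int.1 hp
  have hpn : ¬ (p : ℤ) ∣ n := by
    intro hd
    have h1 : (p : ℤ) ∣ 1 := by
      have h2 := dvd_sub (hd.mul_right (N' : ℤ)) hn
      simpa using h2
    exact hpp.not_isUnit (isUnit_of_dvd_one h1)
  -- vanishing of the twisted sums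
  have hf : ∀ t : ℤ, ¬ (p : ℤ) ∣ t →
      ∑ i ∈ F, (a i : ℂ) * (rt p (n * (t * k i)) * rt N' (p' * k i)) = 0 := by
    intro t ht
    have hu1 : (N' : ℤ) ∣ (1 + N' * n * (t - 1)) - 1 := ⟨n * (t - 1), by ring⟩
    have hu2 : (p : ℤ) ∣ (1 + N' * n * (t - 1)) - t := by
      have : (1 + N' * n * (t - 1)) - t = (n * N' - 1) * (t - 1) := by ring
      rw [this]
      exact hn.mul_right _
    have hcu : IsCoprime (1 + N' * n * (t - 1)) ((p * N' : ℕ) : ℤ) := by
      push_cast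
      refine IsCoprime.mul_right ?_ ?_
      · rw [isCoprime_comm]
        refine (Prime.coprime_iff_not_dvd hpp).2 ?_
        intro hd
        exact ht ((dvd_sub_right hd).1 hu2)
      · exact ⟨1, -(n * (t - 1)), by ring⟩
    have h1 := rt_galois F (p * N') (Nat.mul_pos hp0 hN') a k _ hcu h
    rw [← h1]
    refine Finset.sum_congr rfl fun i _ => ?_
    rw [rt_split p N' hp0 hN' hcop p' n hp' hn]
    congr 2
    · rw [rt_eq_iff p hp0]
      have : n * (t * k i) - n * ((1 + N' * n * (t - 1)) * k i) =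
        -((1 + N' * n * (t - 1)) - t) * (n * k i) := by ring
      rw [this]
      exact (dvd_neg.2 hu2).mul_right _
    · rw [rt_eq_iff N' hN']
      have : p' * k i - p' * ((1 + N' * n * (t - 1)) * k i) =
        N' * (-(n * (t - 1) * p' * k i)) := by ring
      rw [this]
      exact dvd_mul_right _ _
  refine ⟨(∑ i ∈ F, (a i : ℂ) * rt N' (p' * k i)) / p, fun r => ?_⟩
  rw [eq_div_iff hpc, Finset.sum_filter]
  have h3 : ∀ i ∈ F, (if (p : ℤ) ∣ k i - r then (a i : ℂ) * rt N' (p' * k i) else 0) * (p : ℂ) =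
      ∑ t ∈ range p, (a i : ℂ) * rt N' (p' * k i) * rt p (t * (n * (k i - r))) := by
    intro i _
    rw [← Finset.mul_sum, sum_rt p hp0]
    have hiff : (p : ℤ) ∣ n * (k i - r) ↔ (p : ℤ) ∣ k i - r :=
      ⟨fun hd => (hpp.dvd_or_dvd hd).resolve_left hpn, fun hd => hd.mul_left _⟩
    simp only [hiff]
    split_ifs
    · ring
    · ring
  rw [Finset.sum_mul, Finset.sum_congr rfl h3, Finset.sum_comm]
  rw [← Finset.sum_erase_add _ _ (Finset.mem_range.2 hp0)]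
  have h4 : ∑ t ∈ (range p).erase 0, ∑ i ∈ F,
      (a i : ℂ) * rt N' (p' * k i) * rt p (t * (n * (k i - r))) = 0 := by
    refine Finset.sum_eq_zero fun t ht => ?_
    rw [Finset.mem_erase, Finset.mem_range] at ht
    have ht' : ¬ (p : ℤ) ∣ (t : ℤ) := by
      intro hd
      have := Nat.le_of_dvd (Nat.pos_of_ne_zero ht.1) (by exact_mod_cast hd)
      omega
    have h5 := hf t ht'
    have h6 : ∑ i ∈ F, (a i : ℂ) * rt N' (p' * k i) * rt p (t * (n * (k i - r))) =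
        rt p (-(t * n * r)) * ∑ i ∈ F, (a i : ℂ) * (rt p (n * (t * k i)) * rt N' (p' * k i)) := by
      rw [Finset.mul_sum]
      refine Finset.sum_congr rfl fun i _ => ?_
      have e3 : rt p (t * (n * (k i - r))) = rt p (n * (t * k i)) * rt p (-(t * n * r)) := by
        rw [← rt_add]; congr 1; ring
      rw [e3]; ring
    rw [h6, h5, mul_zero]
  rw [h4, zero_add]
  refine Finset.sum_congr rfl fun i _ => ?_
  simp [rt_zero]

/-- if some class modulo `p` is empty then all class sums vanish -/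
theorem class_empty {ι : Type*} (F : Finset ι) (p N' : ℕ) (hp : p.Prime) (hN' : 0 < N')
    (hc : ¬ p ∣ N') (a k : ι → ℤ)
    (h : ∑ i ∈ F, (a i : ℂ) * rt (p * N') (k i) = 0) (r₀ : ℤ)
    (he : ∀ i ∈ F, ¬ (p : ℤ) ∣ k i - r₀) (r : ℤ) :
    ∑ i ∈ F.filter (fun i => (p : ℤ) ∣ k i - r), (a i : ℂ) * rt (p * N') (k i) = 0 := by
  have hcop : Nat.Coprime p N' := (Nat.Prime.coprime_iff_not_dvd hp).2 hc
  obtain ⟨n, hn⟩ := exists_inv p N' hcop
  obtain ⟨p', hp'⟩ := exists_inv N' p hcop.symm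
  have hp'' : (N' : ℤ) ∣ p * p' - 1 := by rw [mul_comm]; exact hp'
  obtain ⟨C, hC⟩ := class_const F p N' hp hN' hc p' hp'' a k h
  have hC0 : C = 0 := by
    rw [← hC r₀, Finset.filter_eq_empty_iff.2 (fun i hi => he i hi), Finset.sum_empty]
  have h1 : ∑ i ∈ F.filter (fun i => (p : ℤ) ∣ k i - r), (a i : ℂ) * rt (p * N') (k i) =
      rt p (n * r) * ∑ i ∈ F.filter (fun i => (p : ℤ) ∣ k i - r), (a i : ℂ) * rt N' (p' * k i) := by
    rw [Finset.mul_sum]
    refine Finset.sum_congr rfl fun i hi => ?_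
    rw [rt_split p N' hp.pos hN' hcop p' n hp'' hn]
    have : rt p (n * k i) = rt p (n * r) := by
      rw [rt_eq_iff p hp.pos, ← mul_sub]
      exact (Finset.mem_filter.1 hi).2.mul_left _
    rw [this]; ring
  rw [h1, hC r, hC0, mul_zero]

end Pool.Agent.TriCos
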