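import Pool.Agent.Lib_MP_6e4ab6_nt.Full.EngBase
import Pool.Agent.Lib_MP_6e4ab6_nt.Full.GaloisA

/-! Soundness of the kernel checkers for vanishing sums of roots of unity. -/

namespace Pool.Agent.TriCos.Eng

open Finset

/-! ### elementary facts -/

theorem rt_cast_mod (N a : ℕ) (hN : 0 < N) : rt N ((a % N : ℕ) : ℤ) = rt N (a : ℤ) := by
  rw [rt_eq_iff N hN]
  have h := Nat.mod_add_div a N
  refine ⟨-((a / N : ℕ) : ℤ), ?_⟩
  have h' : ((a % N : ℕ) : ℤ) + (N : ℤ) * ((a / N : ℕ) : ℤ) = (a : ℤ) := by exact_mod_cast h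
  rw [← h']
  ring

theorem rt_half_even (N : ℕ) (hN : 0 < N) (h2 : 2 ∣ N) : rt N ((N / 2 : ℕ) : ℤ) = -1 := by
  obtain ⟨m, rfl⟩ := h2
  rw [Nat.mul_div_cancel_left m two_pos]
  exact rt_half m (by omega)

theorem vsum_cons (N a : ℕ) (t : NL) : vsum N (NL.cons a t) = rt N (a : ℤ) + vsum N t := rfl
theorem vsum_nil (N : ℕ) : vsum N NL.nil = 0 := rfl

theorem vsum_app (N : ℕ) (l r : NL) : vsum N (app l r) = vsum N l + vsum N r := by
  induction l with
  | nil => show vsum N r = 0 + vsum N r; rw [zero_add]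
  | cons a t ih =>
    have : app (NL.cons a t) r = NL.cons a (app t r) := rfl
    rw [this, vsum_cons, vsum_cons, ih, add_assoc]

theorem bool_rec_ite {α : Type*} (b : Bool) (x y : α) :
    Bool.rec (motive := fun _ => α) x y b = if b = true then y else x := by
  cases b <;> rfl

theorem bool_rec_beq {α : Type*} (a b : ℕ) (x y : α) :
    Bool.rec (motive := fun _ => α) x y (Nat.beq a b) = if a = b then y else x := by
  rw [bool_rec_ite]
  by_cases h : a = b
  · rw [if_pos h, if_pos ((beq_true a b).mpr h)]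
  · rw [if_neg h, if_neg (fun h' => h ((beq_true a b).mp h'))]

/-! ### shifting -/

theorem shl_cons (h n a : ℕ) (t : NL) : shl h n (NL.cons a t) = NL.cons ((a + h) % n) (shl h n t) :=
  rfl

theorem vsum_shl (n : ℕ) (hn : 0 < n) (h2 : 2 ∣ n) (l : NL) :
    vsum n (shl (n / 2) n l) = - vsum n l := by
  induction l with
  | nil => show (0 : ℂ) = - 0; simp
  | cons a t ih =>
    rw [shl_cons, vsum_cons, vsum_cons, ih, rt_cast_mod _ _ hn]
    have h1 : ((a + n / 2 : ℕ) : ℤ) = (a : ℤ) + ((n / 2 : ℕ) : ℤ) := by push_cast; ring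
    rw [h1, rt_add, rt_half_even n hn h2]
    ring

theorem in_shl (h n : ℕ) (hn : 0 < n) (l : NL) : ∀ a, In a (shl h n l) → a < n := by
  induction l with
  | nil => intro a ha; exact ha.elim
  | cons b t ih =>
    intro a ha
    rcases ha with ha | ha
    · rw [ha]; exact Nat.mod_lt _ hn
    · exact ih a ha

/-! ### the classes for `p` prime to the rest -/

theorem clB_cons (p n j a : ℕ) (t : NL) : clB p n j (NL.cons a t) =
    if (a + j * n) % p = 0 then NL.cons ((a + j * n) / p % n) (clB p n j t) else clB p n j t := by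
  have h : clB p n j (NL.cons a t) = Bool.rec (motive := fun _ => NL) (clB p n j t)
    (NL.cons (Nat.mod (Nat.div (Nat.add a (Nat.mul j n)) p) n) (clB p n j t))
      (Nat.beq (Nat.mod (Nat.add a (Nat.mul j n)) p) 0) := rfl
  rw [h, bool_rec_beq]
  rfl

theorem in_clB (p n j : ℕ) (hn : 0 < n) (l : NL) : ∀ a, In a (clB p n j l) → a < n := by
  induction l with
  | nil => intro a ha; exact ha.elim
  | cons b t ih =>
    intro a ha
    rw [clB_cons] at ha
    split_ifs at ha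
    · rcases ha with ha | ha
      · rw [ha]; exact Nat.mod_lt _ hn
      · exact ih a ha
    · exact ih a ha

theorem exists_unique_j (p n : ℕ) (hp : 0 < p) (hg : Nat.gcd p n = 1) (k : ℕ) :
    ∃ j < p, (k + j * n) % p = 0 ∧ ∀ j' < p, (k + j' * n) % p = 0 → j' = j := by
  have : NeZero p := ⟨hp.ne'⟩
  have hu : IsUnit (n : ZMod p) := (ZMod.isUnit_iff_coprime n p).mpr (Nat.Coprime.symm hg)
  obtain ⟨u, hu⟩ := hu
  have hiff : ∀ j : ℕ, (k + j * n) % p = 0 ↔ (j : ZMod p) = -(k : ZMod p) * ((u⁻¹ : (ZMod p)ˣ) : ZMod p) := by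
    intro j
    rw [← Nat.dvd_iff_mod_eq_zero, ← ZMod.natCast_eq_zero_iff]
    push_cast
    rw [← hu]
    constructor
    · intro h
      have h1 : (j : ZMod p) * u = -(k : ZMod p) := by linear_combination h
      rw [← h1, mul_assoc, Units.mul_inv, mul_one]
    · intro h
      rw [h, mul_assoc, Units.inv_mul, mul_one, add_neg_cancel]
  refine ⟨(-(k : ZMod p) * ((u⁻¹ : (ZMod p)ˣ) : ZMod p)).val, ZMod.val_lt _, ?_, ?_⟩
  · rw [hiff, ZMod.natCast_zmod_val]
  · intro j' hj' h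
    rw [hiff] at h
    rw [← h, ZMod.val_natCast, Nat.mod_eq_of_lt hj']

theorem vsum_clB (p n : ℕ) (hp : 0 < p) (hn : 0 < n) (hg : Nat.gcd p n = 1) (l : NL) :
    vsum (p * n) l = ∑ j ∈ range p, rt p (-(j : ℤ)) * vsum n (clB p n j l) := by
  induction l with
  | nil =>
    show (0 : ℂ) = _
    symm
    refine Finset.sum_eq_zero fun j _ => ?_
    show _ * (0 : ℂ) = 0
    rw [mul_zero]
  | cons a t ih =>
    have h1 : ∀ j ∈ range p, rt p (-(j : ℤ)) * vsum n (clB p n j (NL.cons a t)) =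
        (if (a + j * n) % p = 0 then rt (p * n) (a : ℤ) else 0) +
          rt p (-(j : ℤ)) * vsum n (clB p n j t) := by
      intro j _
      rw [clB_cons]
      split_ifs with hj
      · rw [vsum_cons, mul_add, rt_cast_mod _ _ hn]
        congr 1
        obtain ⟨q, hq⟩ := Nat.dvd_of_mod_eq_zero hj
        rw [hq, Nat.mul_div_cancel_left _ hp]
        have h2 : (a : ℤ) = (n : ℤ) * (-(j : ℤ)) + (p : ℤ) * (q : ℤ) := by
          have : (a : ℤ) + j * n = p * q := by exact_mod_cast hq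
          linear_combination this
        rw [h2, rt_add, rt_scale n p hp, mul_comm p n, rt_scale p n hn]
      · rw [zero_add]
    rw [Finset.sum_congr rfl h1, Finset.sum_add_distrib, ← ih, vsum_cons]
    congr 1
    obtain ⟨j₀, hj₀, hj₁, hj₂⟩ := exists_unique_j p n hp hg a
    rw [Finset.sum_eq_single j₀]
    · rw [if_pos hj₁]
    · intro j hj hne
      rw [if_neg fun h => hne (hj₂ j (Finset.mem_range.mp hj) h)]
    · intro h
      exact absurd (Finset.mem_range.mpr hj₀) h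

theorem allBelow_true (f : ℕ → Bool) (n : ℕ) : allBelow f n = true → ∀ j < n, f j = true := by
  induction n with
  | zero => intro _ j hj; exact absurd hj (Nat.not_lt_zero _)
  | succ n ih =>
    intro h j hj
    have h1 : allBelow f (n + 1) = Bool.rec (motive := fun _ => Bool) false (allBelow f n) (f n) :=
      rfl
    rw [h1, rec_false] at h
    rcases Nat.lt_succ_iff_lt_or_eq.mp hj with hj | rfl
    · exact ih h.2 j hj
    · exact h.1

/-! ### peeling off classes -/

theorem clC_cons (p N a k : ℕ) (t : NL) : clC p N a (NL.cons k t) =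
    if k % p = a % p then NL.cons ((k + (N - a)) / p % (N / p)) (clC p N a t) else clC p N a t := by
  have h : clC p N a (NL.cons k t) = Bool.rec (motive := fun _ => NL) (clC p N a t)
    (NL.cons (Nat.mod (Nat.div (Nat.add k (Nat.sub N a)) p) (Nat.div N p)) (clC p N a t))
      (Nat.beq (Nat.mod k p) (Nat.mod a p)) := rfl
  rw [h, bool_rec_beq]
  rfl

theorem clR_cons (p a k : ℕ) (t : NL) : clR p a (NL.cons k t) =
    if k % p = a % p then clR p a t else NL.cons k (clR p a t) := by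
  have h : clR p a (NL.cons k t) = Bool.rec (motive := fun _ => NL) (NL.cons k (clR p a t))
    (clR p a t) (Nat.beq (Nat.mod k p) (Nat.mod a p)) := rfl
  rw [h, bool_rec_beq]
  rfl

theorem in_clC (p N a : ℕ) (hn : 0 < N / p) (l : NL) : ∀ b, In b (clC p N a l) → b < N / p := by
  induction l with
  | nil => intro a ha; exact ha.elim
  | cons k t ih =>
    intro b hb
    rw [clC_cons] at hb
    split_ifs at hb
    · rcases hb with hb | hb
      · rw [hb]; exact Nat.mod_lt _ hn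
      · exact ih b hb
    · exact ih b hb

theorem in_clR (p a : ℕ) (l : NL) : ∀ b, In b (clR p a l) → In b l := by
  induction l with
  | nil => intro a ha; exact ha.elim
  | cons k t ih =>
    intro b hb
    rw [clR_cons] at hb
    split_ifs at hb
    · exact Or.inr (ih b hb)
    · rcases hb with hb | hb
      · exact Or.inl hb
      · exact Or.inr (ih b hb)

theorem vsum_peel (p n : ℕ) (hp : 0 < p) (hn : 0 < n) (a : ℕ) (ha : a < p * n) (l : NL) :
    vsum (p * n) l = rt (p * n) (a : ℤ) * vsum n (clC p (p * n) a l) + vsum (p * n) (clR p a l) := by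
  have hdiv : p * n / p = n := Nat.mul_div_cancel_left _ hp
  induction l with
  | nil => show (0 : ℂ) = _ * 0 + 0; simp
  | cons k t ih =>
    rw [clC_cons, clR_cons, vsum_cons, ih, hdiv]
    split_ifs with hk
    · rw [vsum_cons, rt_cast_mod _ _ hn]
      have h1 : p ∣ k + (p * n - a) := by
        have h2 : (k + (p * n - a)) % p = 0 := by
          have h3 : (k + (p * n - a)) + a = k + p * n := by omega
          have h4 : ((k + (p * n - a)) + a) % p = a % p := by
            rw [h3, Nat.add_mul_mod_self_left, hk]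
          have h5 : (p : ℤ) ∣ ((k + (p * n - a) : ℕ) : ℤ) := by
            have h6 : (((k + (p * n - a)) + a : ℕ) : ℤ) ≡ (a : ℤ) [ZMOD p] := by
              rw [Int.natCast_modEq_iff]; exact h4
            have h7 := h6.dvd
            have h8 : (a : ℤ) - ((k + (p * n - a) + a : ℕ) : ℤ) = - ((k + (p * n - a) : ℕ) : ℤ) := by
              push_cast; ring
            rw [h8] at h7
            exact (Int.dvd_neg).mp h7
          exact Nat.dvd_iff_mod_eq_zero.mp (Int.natCast_dvd_natCast.mp h5)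
        exact Nat.dvd_of_mod_eq_zero h2
      obtain ⟨q, hq⟩ := h1
      rw [hq, Nat.mul_div_cancel_left _ hp]
      have h9 : rt (p * n) (k : ℤ) = rt (p * n) (a : ℤ) * rt n (q : ℤ) := by
        rw [← rt_scale n p hp (q : ℤ), ← rt_add, rt_eq_iff _ (Nat.mul_pos hp hn)]
        have h10 : (k : ℤ) + (p * n - a) = p * q := by
          have h11 : k + p * n = p * q + a := by omega
          have h12 : (k : ℤ) + p * n = p * q + a := by exact_mod_cast h11
          linear_combination h12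
        refine ⟨-1, ?_⟩
        push_cast
        linear_combination h10
      rw [h9]
      ring
    · rw [vsum_cons]
      ring

theorem peel_sound (f : NL → Bool) (p n : ℕ) (hp : 0 < p) (hn : 0 < n)
    (hf : ∀ l, (∀ a, In a l → a < n) → f l = true → vsum n l = 0) (d : ℕ) :
    ∀ l, (∀ a, In a l → a < p * n) → peel f p (p * n) d l = true → vsum (p * n) l = 0 := by
  have hdiv : p * n / p = n := Nat.mul_div_cancel_left _ hp
  induction d with
  | zero =>
    intro l _ h
    cases l with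
    | nil => rfl
    | cons a t => exact absurd h (by show ¬ (false = true); decide)
  | succ d ih =>
    intro l hl h
    cases l with
    | nil => rfl
    | cons a t =>
      have h1 : peel f p (p * n) (d + 1) (NL.cons a t) = and' (f (clC p (p * n) a (NL.cons a t)))
          (peel f p (p * n) d (clR p a (NL.cons a t))) := rfl
      rw [h1, and'_true] at h
      have ha := hl a (Or.inl rfl)
      rw [vsum_peel p n hp hn a ha (NL.cons a t), ih _ (fun b hb => hl b (in_clR p a _ b hb)) h.2,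
        hf _ (fun b hb => ?_) h.1, mul_zero, add_zero]
      have := in_clC p (p * n) a (by rw [hdiv]; exact hn) _ b hb
      rwa [hdiv] at this

/-! ### the main checker -/

theorem isNil_true (l : NL) (h : isNil l = true) : l = NL.nil := by
  cases l with
  | nil => rfl
  | cons a t => exact absurd h (by show ¬ (false = true); decide)

theorem vsum_two (l : NL) (hl : ∀ a, In a l → a < 2) :
    vsum 2 l = (len l : ℂ) - 2 * (cnt1 l : ℂ) := by
  induction l with
  | nil => show (0 : ℂ) = ((0 : ℕ) : ℂ) - 2 * ((0 : ℕ) : ℂ); simp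
  | cons a t ih =>
    have h1 : len (NL.cons a t) = len t + 1 := rfl
    have h2 : cnt1 (NL.cons a t) = cnt1 t + a % 2 := rfl
    rw [h1, h2, vsum_cons, ih fun b hb => hl b (Or.inr hb)]
    have ha := hl a (Or.inl rfl)
    have h0 : a = 0 ∨ a = 1 := by omega
    rcases h0 with rfl | rfl
    · have : rt 2 ((0 : ℕ) : ℤ) = 1 := rt_zero 2
      rw [this]
      push_cast
      ring
    · have : rt 2 ((1 : ℕ) : ℤ) = -1 := by
        have := rt_half 1 one_pos
        simpa using this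
      rw [this]
      push_cast
      ring

theorem vz_sound (steps : NL) (N : ℕ) (hN : 0 < N) (l : NL) (hl : ∀ a, In a l → a < N)
    (h : vz steps N l = true) : vsum N l = 0 := by
  induction steps generalizing N l with
  | nil =>
    have h1 : vz NL.nil N l = and' (Nat.beq N 2) (Nat.beq (len l) (Nat.mul 2 (cnt1 l))) := rfl
    rw [h1, and'_true, beq_true, beq_true] at h
    obtain ⟨rfl, h2⟩ := h
    rw [vsum_two l hl, h2]
    have : (Nat.mul 2 (cnt1 l) : ℕ) = 2 * cnt1 l := rfl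
    rw [this]
    push_cast
    ring
  | cons p rest ih =>
    have h1 : vz (NL.cons p rest) N l = or' (isNil l)
      (and' (and' (Nat.beq (Nat.mod N p) 0) (Nat.ble 2 p))
        (Bool.rec (motive := fun _ => Bool)
          (and' (and' (Nat.beq (Nat.gcd p (Nat.div N p)) 1) (Nat.beq (Nat.mod (Nat.div N p) 2) 0))
            (allBelow (fun j => vz rest (Nat.div N p) (app (clB p (Nat.div N p) (Nat.add j 1) l)
              (shl (Nat.div (Nat.div N p) 2) (Nat.div N p) (clB p (Nat.div N p) 0 l)))) (Nat.sub p 1)))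
          (peel (vz rest (Nat.div N p)) p N (len l) l)
          (or' (Nat.beq (Nat.mod (Nat.div N p) p) 0) (Nat.ble (Nat.add (len l) 1) p)))) := rfl
    rw [h1, or'_true] at h
    rcases h with h | h
    · rw [isNil_true l h]; rfl
    · rw [and'_true, and'_true, beq_true, ble_true] at h
      obtain ⟨⟨h2, h3⟩, h4⟩ := h
      have hp : 0 < p := by omega
      obtain ⟨n, rfl⟩ := Nat.dvd_of_mod_eq_zero h2
      have hn : 0 < n := Nat.pos_of_mul_pos_left hN |> fun h => by
        rcases Nat.eq_zero_or_pos n with rfl | h'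
        · simp at hN
        · exact h'
      have hdiv : Nat.div (p * n) p = n := Nat.mul_div_cancel_left _ hp
      rw [hdiv] at h4
      rw [bool_rec_ite] at h4
      split_ifs at h4 with h5
      · exact peel_sound (vz rest n) p n hp hn (fun l' hl' h' => ih n hn l' hl' h') _ l hl h4
      · rw [and'_true, and'_true, beq_true, beq_true] at h4
        obtain ⟨⟨h6, h7⟩, h8⟩ := h4
        have h9 := allBelow_true _ _ h8
        have hev : 2 ∣ n := Nat.dvd_of_mod_eq_zero h7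
        have h10 : ∀ j, j < p → vsum n (clB p n j l) = vsum n (clB p n 0 l) := by
          intro j hj
          rcases Nat.eq_zero_or_pos j with rfl | hj0
          · rfl
          · obtain ⟨i, rfl⟩ : ∃ i, j = i + 1 := ⟨j - 1, by omega⟩
            have h11 := h9 i (by show i < p - 1; omega)
            have h12 := ih n hn _ (fun a ha => ?_) h11
            · rw [vsum_app] at h12
              have h13 : vsum n (shl (Nat.div n 2) n (clB p n 0 l)) = - vsum n (clB p n 0 l) :=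
                vsum_shl n hn hev _
              rw [h13] at h12
              have h14 : vsum n (clB p n (Nat.add i 1) l) = vsum n (clB p n (i + 1) l) := rfl
              rw [h14] at h12
              linear_combination h12
            · rw [in_app] at ha
              rcases ha with ha | ha
              · exact in_clB p n _ hn l a ha
              · exact in_shl _ n hn _ a ha
        rw [vsum_clB p n hp hn h6 l, Finset.sum_congr rfl fun j hj => by
          rw [h10 j (Finset.mem_range.mp hj)], ← Finset.sum_mul]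
        have h15 : ∑ j ∈ range p, rt p (-(j : ℤ)) = 0 := by
          have h16 := sum_rt p hp (-1)
          rw [if_neg] at h16
          · rw [← h16]
            exact Finset.sum_congr rfl fun j _ => by rw [mul_neg_one]
          · intro hd
            have := Int.le_of_dvd one_pos ((Int.dvd_neg).mp hd)
            omega
        rw [h15, zero_mul]

/-! ### class sums -/

theorem sel_cons (k a : ℕ) (t : NL) : sel k (NL.cons a t) =
    if a / 65536 = k then NL.cons (a % 65536) (sel k t) else sel k t := by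
  have h : sel k (NL.cons a t) = Bool.rec (motive := fun _ => NL) (sel k t)
    (NL.cons (Nat.mod a 65536) (sel k t)) (Nat.beq (Nat.div a 65536) k) := rfl
  rw [h, bool_rec_beq]
  rfl

theorem selN_cons (k a : ℕ) (t : NL) : selN k (NL.cons a t) =
    if a / 65536 = k then selN k t else NL.cons a (selN k t) := by
  have h : selN k (NL.cons a t) = Bool.rec (motive := fun _ => NL) (NL.cons a (selN k t))
    (selN k t) (Nat.beq (Nat.div a 65536) k) := rfl
  rw [h, bool_rec_beq]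
  rfl

theorem sel_selN (k k' : ℕ) (h : k ≠ k') (l : NL) : sel k (selN k' l) = sel k l := by
  induction l with
  | nil => rfl
  | cons a t ih =>
    rw [selN_cons]
    by_cases ha : a / 65536 = k'
    · rw [if_pos ha, sel_cons, if_neg (by rw [ha]; exact h.symm), ih]
    · rw [if_neg ha, sel_cons, sel_cons, ih]

theorem in_sel (k : ℕ) (l : NL) : ∀ b, In b (sel k l) → ∃ a, In a l ∧ b = a % 65536 := by
  induction l with
  | nil => intro a ha; exact ha.elim
  | cons k' t ih =>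
    intro b hb
    rw [sel_cons] at hb
    split_ifs at hb
    · rcases hb with hb | hb
      · exact ⟨k', Or.inl rfl, hb⟩
      · obtain ⟨a, ha, h⟩ := ih b hb
        exact ⟨a, Or.inr ha, h⟩
    · obtain ⟨a, ha, h⟩ := ih b hb
      exact ⟨a, Or.inr ha, h⟩

theorem in_selN (k : ℕ) (l : NL) : ∀ b, In b (selN k l) → In b l := by
  induction l with
  | nil => intro a ha; exact ha.elim
  | cons k' t ih =>
    intro b hb
    rw [selN_cons] at hb
    split_ifs at hb
    · exact Or.inr (ih b hb)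
    · rcases hb with hb | hb
      · exact Or.inl hb
      · exact Or.inr (ih b hb)

theorem clsOK_sound (steps : NL) (N : ℕ) (hN : 0 < N) (n : ℕ) :
    ∀ l, (∀ a, In a l → a % 65536 < N) → clsOK steps N n l = true →
      ∀ k, 96 ≤ k → vsum N (sel k l) = 0 := by
  induction n with
  | zero =>
    intro l _ h k _
    rw [isNil_true l h]
    rfl
  | succ n ih =>
    intro l hl h k hk
    cases l with
    | nil => rfl
    | cons z t =>
      have h1 : clsOK steps N (n + 1) (NL.cons z t) = and' (or' (Nat.ble (Nat.div z 65536) 95)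
          (vz steps N (sel (Nat.div z 65536) (NL.cons z t))))
        (clsOK steps N n (selN (Nat.div z 65536) (NL.cons z t))) := rfl
      rw [h1, and'_true, or'_true, ble_true] at h
      obtain ⟨h2, h3⟩ := h
      by_cases hkz : k = z / 65536
      · rcases h2 with h2 | h2
        · have h4 : z / 65536 ≤ 95 := h2
          omega
        · have h4 := vz_sound steps N hN _ (fun a ha => ?_) h2
          · rw [hkz]; exact h4
          · obtain ⟨b, hb, rfl⟩ := in_sel _ _ a ha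
            exact hl b hb
      · have h4 := ih _ (fun a ha => hl a (in_selN _ _ a ha)) h3 k hk
        have h5 : sel k (selN (Nat.div z 65536) (NL.cons z t)) = sel k (NL.cons z t) :=
          sel_selN k _ hkz _
        rwa [h5] at h4

/-! ### the sixteen monomials -/

theorem sum16 (f : Fin 16 → ℂ) : ∑ μ, f μ = f 0 + (f 1 + (f 2 + (f 3 + (f 4 + (f 5 + (f 6 + (f 7 +
    (f 8 + (f 9 + (f 10 + (f 11 + (f 12 + (f 13 + (f 14 + (f 15 + 0))))))))))))))) := by
  have h := Fin.sum_univ_add (a := 8) (b := 8) f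
  rw [Fin.sum_univ_eight, Fin.sum_univ_eight] at h
  have e : (∑ μ, f μ) = f 0 + f 1 + f 2 + f 3 + f 4 + f 5 + f 6 + f 7 +
      (f 8 + f 9 + f 10 + f 11 + f 12 + f 13 + f 14 + f 15) := h
  rw [e]
  ring

theorem mon_lt (N h a b c x y z : ℕ) (hN : 0 < N) (hN' : N ≤ 65536) :
    mon N h a b c x y z % 65536 < N ∧ mon N h a b c x y z / 65536 = a + b + c ∧
      mon N h a b c x y z % 65536 = (x + y + z + h) % N := by
  have h1 : mon N h a b c x y z = 65536 * (a + (b + c)) + (x + (y + z) + h) % N := rfl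
  have h2 := Nat.mod_lt (x + (y + z) + h) hN
  have h3 : x + (y + z) + h = x + y + z + h := by ring
  rw [h3] at h1 h2
  rw [h1]
  omega

theorem vsum_sel_mon (N : ℕ) (hN : 0 < N) (hN' : N ≤ 65536) (h a b c x y z : ℕ) (σ : ℂ)
    (hσ : rt N (h : ℤ) = σ) (V S C : ℤ) (k : ℕ) (hk : C + 96 = k)
    (hV : (a : ℤ) + b + c = V + 96) (hS : (N : ℤ) ∣ (x : ℤ) + y + z - S) (t : NL) (T : ℂ)
    (hT : vsum N (sel k t) = T) :
    vsum N (sel k (NL.cons (mon N h a b c x y z) t)) = (if V = C then σ * rt N S else 0) + T := by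
  obtain ⟨h1, h2, h3⟩ := mon_lt N h a b c x y z hN hN'
  rw [sel_cons, h2, h3]
  have hiff : a + b + c = k ↔ V = C := by
    constructor
    · intro h'
      have : (a : ℤ) + b + c = k := by exact_mod_cast h'
      omega
    · intro h'
      have : (a : ℤ) + b + c = k := by omega
      exact_mod_cast this
  by_cases hVC : V = C
  · rw [if_pos (hiff.mpr hVC), if_pos hVC, vsum_cons, rt_cast_mod _ _ hN, hT]
    congr 1
    have h4 : ((x + y + z + h : ℕ) : ℤ) = ((x : ℤ) + y + z) + h := by push_cast; ring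
    rw [h4, rt_add, hσ, mul_comm]
    congr 1
    rw [rt_eq_iff N hN]
    exact hS
  · rw [if_neg (fun h' => hVC (hiff.mp h')), if_neg hVC, zero_add, hT]

theorem cast64 (a : ℕ) (h : a ≤ 64) : ((Nat.sub 64 a : ℕ) : ℤ) = 64 - a := by
  have : Nat.sub 64 a = 64 - a := rfl
  rw [this]
  omega

theorem castN (N a : ℕ) (h : a ≤ N) : ((Nat.sub N a : ℕ) : ℤ) = N - a := by
  have : Nat.sub N a = N - a := rfl
  rw [this]
  omega

/-- class sum of the class `c` -/
noncomputable def cs (N : ℕ) (s v : Fin 6 → ℤ) (c : ℤ) : ℂ :=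
  ∑ μ ∈ univ.filter (fun μ => dot μ v = c), (sg μ : ℂ) * rt N (dot μ s)

theorem vsum_mons (N : ℕ) (hN : 0 < N) (h2 : 2 ∣ N) (hN' : N ≤ 65536)
    (x0 x1 x2 x3 x4 x5 v0 v1 v2 v3 v4 v5 : ℕ)
    (hx : x0 ≤ N ∧ x1 ≤ N ∧ x2 ≤ N ∧ x3 ≤ N ∧ x4 ≤ N ∧ x5 ≤ N)
    (hv : v0 ≤ 64 ∧ v1 ≤ 64 ∧ v2 ≤ 64 ∧ v3 ≤ 64 ∧ v4 ≤ 64 ∧ v5 ≤ 64) (k : ℕ) (C : ℤ)
    (hk : C + 96 = k) :
    vsum N (sel k (mons N x0 x1 x2 x3 x4 x5 v0 v1 v2 v3 v4 v5)) =
      cs N ![(x0 : ℤ), x1, x2, x3, x4, x5]
        ![(v0 : ℤ) - 32, (v1 : ℤ) - 32, (v2 : ℤ) - 32, (v3 : ℤ) - 32, (v4 : ℤ) - 32,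
          (v5 : ℤ) - 32] C := by
  obtain ⟨hx0, hx1, hx2, hx3, hx4, hx5⟩ := hx
  obtain ⟨hv0, hv1, hv2, hv3, hv4, hv5⟩ := hv
  have hz : rt N ((0 : ℕ) : ℤ) = 1 := rt_zero N
  have hh : rt N ((Nat.div N 2 : ℕ) : ℤ) = -1 := rt_half_even N hN h2
  have hd : ∀ {e : ℤ} (q : ℤ), e = (N : ℤ) * q → (N : ℤ) ∣ e := fun q h => ⟨q, h⟩
  unfold cs
  rw [Finset.sum_filter, sum16]
  have sgl : ∀ μ : Fin 16, μ.val < 8 → ((sg μ : ℤ) : ℂ) = 1 := by
    intro μ h; simp [sg, h]
  have sgr : ∀ μ : Fin 16, ¬ μ.val < 8 → ((sg μ : ℤ) : ℂ) = -1 := by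
    intro μ h; simp [sg, h]
  rw [sgl 0 (by decide), sgl 1 (by decide), sgl 2 (by decide), sgl 3 (by decide),
    sgl 4 (by decide), sgl 5 (by decide), sgl 6 (by decide), sgl 7 (by decide),
    sgr 8 (by decide), sgr 9 (by decide), sgr 10 (by decide), sgr 11 (by decide),
    sgr 12 (by decide), sgr 13 (by decide), sgr 14 (by decide), sgr 15 (by decide)]
  unfold mons
  refine vsum_sel_mon N hN hN' 0 _ _ _ _ _ _ 1 hz _ _ C k hk ?_ (hd 0 ?_) _ _ ?_
  · simp [dot]; ring
  · simp [dot]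
  refine vsum_sel_mon N hN hN' 0 _ _ _ _ _ _ 1 hz _ _ C k hk ?_ (hd 1 ?_) _ _ ?_
  · rw [cast64 v2 hv2]; simp [dot]; ring
  · rw [castN N x2 hx2]; simp [dot]
  refine vsum_sel_mon N hN hN' 0 _ _ _ _ _ _ 1 hz _ _ C k hk ?_ (hd 1 ?_) _ _ ?_
  · rw [cast64 v1 hv1]; simp [dot]; ring
  · rw [castN N x1 hx1]; simp [dot]
  refine vsum_sel_mon N hN hN' 0 _ _ _ _ _ _ 1 hz _ _ C k hk ?_ (hd 2 ?_) _ _ ?_
  · rw [cast64 v1 hv1, cast64 v2 hv2]; simp [dot]; ring
  · rw [castN N x1 hx1, castN N x2 hx2]; simp [dot]; ring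
  refine vsum_sel_mon N hN hN' 0 _ _ _ _ _ _ 1 hz _ _ C k hk ?_ (hd 1 ?_) _ _ ?_
  · rw [cast64 v0 hv0]; simp [dot]; ring
  · rw [castN N x0 hx0]; simp [dot]
  refine vsum_sel_mon N hN hN' 0 _ _ _ _ _ _ 1 hz _ _ C k hk ?_ (hd 2 ?_) _ _ ?_
  · rw [cast64 v0 hv0, cast64 v2 hv2]; simp [dot]; ring
  · rw [castN N x0 hx0, castN N x2 hx2]; simp [dot]; ring
  refine vsum_sel_mon N hN hN' 0 _ _ _ _ _ _ 1 hz _ _ C k hk ?_ (hd 2 ?_) _ _ ?_
  · rw [cast64 v0 hv0, cast64 v1 hv1]; simp [dot]; ring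
  · rw [castN N x0 hx0, castN N x1 hx1]; simp [dot]; ring
  refine vsum_sel_mon N hN hN' 0 _ _ _ _ _ _ 1 hz _ _ C k hk ?_ (hd 3 ?_) _ _ ?_
  · rw [cast64 v0 hv0, cast64 v1 hv1, cast64 v2 hv2]; simp [dot]; ring
  · rw [castN N x0 hx0, castN N x1 hx1, castN N x2 hx2]; simp [dot]; ring
  refine vsum_sel_mon N hN hN' (Nat.div N 2) _ _ _ _ _ _ (-1) hh _ _ C k hk ?_ (hd 0 ?_) _ _ ?_
  · simp [dot]; ring
  · simp [dot]
  refine vsum_sel_mon N hN hN' (Nat.div N 2) _ _ _ _ _ _ (-1) hh _ _ C k hk ?_ (hd 1 ?_) _ _ ?_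
  · rw [cast64 v5 hv5]; simp [dot]; ring
  · rw [castN N x5 hx5]; simp [dot]
  refine vsum_sel_mon N hN hN' (Nat.div N 2) _ _ _ _ _ _ (-1) hh _ _ C k hk ?_ (hd 1 ?_) _ _ ?_
  · rw [cast64 v4 hv4]; simp [dot]; ring
  · rw [castN N x4 hx4]; simp [dot]
  refine vsum_sel_mon N hN hN' (Nat.div N 2) _ _ _ _ _ _ (-1) hh _ _ C k hk ?_ (hd 2 ?_) _ _ ?_
  · rw [cast64 v4 hv4, cast64 v5 hv5]; simp [dot]; ring
  · rw [castN N x4 hx4, castN N x5 hx5]; simp [dot]; ring
  refine vsum_sel_mon N hN hN' (Nat.div N 2) _ _ _ _ _ _ (-1) hh _ _ C k hk ?_ (hd 1 ?_) _ _ ?_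
  · rw [cast64 v3 hv3]; simp [dot]; ring
  · rw [castN N x3 hx3]; simp [dot]
  refine vsum_sel_mon N hN hN' (Nat.div N 2) _ _ _ _ _ _ (-1) hh _ _ C k hk ?_ (hd 2 ?_) _ _ ?_
  · rw [cast64 v3 hv3, cast64 v5 hv5]; simp [dot]; ring
  · rw [castN N x3 hx3, castN N x5 hx5]; simp [dot]; ring
  refine vsum_sel_mon N hN hN' (Nat.div N 2) _ _ _ _ _ _ (-1) hh _ _ C k hk ?_ (hd 2 ?_) _ _ ?_
  · rw [cast64 v3 hv3, cast64 v4 hv4]; simp [dot]; ring
  · rw [castN N x3 hx3, castN N x4 hx4]; simp [dot]; ring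
  refine vsum_sel_mon N hN hN' (Nat.div N 2) _ _ _ _ _ _ (-1) hh _ _ C k hk ?_ (hd 3 ?_) _ _ ?_
  · rw [cast64 v3 hv3, cast64 v4 hv4, cast64 v5 hv5]; simp [dot]; ring
  · rw [castN N x3 hx3, castN N x4 hx4, castN N x5 hx5]; simp [dot]; ring
  rfl

theorem in_mons (N : ℕ) (hN : 0 < N) (hN' : N ≤ 65536)
    (x0 x1 x2 x3 x4 x5 v0 v1 v2 v3 v4 v5 : ℕ) :
    ∀ a, In a (mons N x0 x1 x2 x3 x4 x5 v0 v1 v2 v3 v4 v5) → a % 65536 < N := by
  intro a ha
  unfold mons at ha
  rcases ha with rfl | rfl | rfl | rfl | rfl | rfl | rfl | rfl | rfl | rfl | rfl | rfl | rfl | rfl |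
    rfl | rfl | ha
  all_goals first
    | exact (mon_lt N _ _ _ _ _ _ _ hN hN').1
    | exact ha.elim

/-- the involution negating all exponents -/
def ng (μ : Fin 16) : Fin 16 :=
  ![7, 6, 5, 4, 3, 2, 1, 0, 15, 14, 13, 12, 11, 10, 9, 8] μ

theorem ng_ng (μ : Fin 16) : ng (ng μ) = μ := by
  revert μ; decide

theorem sg_ng (μ : Fin 16) : sg (ng μ) = sg μ := by
  revert μ; decide

theorem dot_ng (μ : Fin 16) (s : Fin 6 → ℤ) : dot (ng μ) s = - dot μ s := by
  fin_cases μ <;> simp [dot, ng] <;> ring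

theorem cs_neg (N : ℕ) (s v : Fin 6 → ℤ) (c : ℤ) :
    cs N s v (-c) = (starRingEnd ℂ) (cs N s v c) := by
  unfold cs
  rw [map_sum]
  refine Finset.sum_nbij' ng ng ?_ ?_ (fun μ _ => ng_ng μ) (fun μ _ => ng_ng μ) ?_
  · intro μ hμ
    rw [Finset.mem_filter] at hμ ⊢
    refine ⟨Finset.mem_univ _, ?_⟩
    rw [dot_ng, hμ.2, neg_neg]
  · intro μ hμ
    rw [Finset.mem_filter] at hμ ⊢
    refine ⟨Finset.mem_univ _, ?_⟩
    rw [dot_ng, hμ.2]
  · intro μ _
    rw [map_mul, conj_rt, dot_ng, neg_neg, sg_ng]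
    congr 1
    simp

theorem thOK_sound (N x v : ℕ) (h : thOK N x v = true) (h' : Third N (x : ℤ)) :
    (v : ℤ) - 32 = 0 := by
  have h1 : thOK N x v = or' (Nat.beq v 32) (or' (Nat.beq (2 * x % N) 0)
    (Bool.rec (motive := fun _ => Bool) true false (Nat.beq (6 * x % N) 0))) := rfl
  rw [h1, or'_true, or'_true, beq_true, beq_true, rec_not, beq_true] at h
  obtain ⟨h2, h3⟩ := h'
  rcases h with h | h | h
  · rw [h]; norm_num
  · exact absurd (by exact_mod_cast Nat.dvd_of_mod_eq_zero h) h3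
  · have h4 : N ∣ 6 * x := by exact_mod_cast h2
    exact absurd (Nat.dvd_iff_mod_eq_zero.mp h4) h

/-- verified lines -/
theorem niOK_sound (steps : NL) (N : ℕ) (hN : 0 < N) (h2 : 2 ∣ N) (hN' : N ≤ 65536)
    (x0 x1 x2 x3 x4 x5 v0 v1 v2 v3 v4 v5 : ℕ)
    (hx : x0 ≤ N ∧ x1 ≤ N ∧ x2 ≤ N ∧ x3 ≤ N ∧ x4 ≤ N ∧ x5 ≤ N)
    (hv : v0 ≤ 64 ∧ v1 ≤ 64 ∧ v2 ≤ 64 ∧ v3 ≤ 64 ∧ v4 ≤ 64 ∧ v5 ≤ 64)
    (h : niOK steps N x0 x1 x2 x3 x4 x5 v0 v1 v2 v3 v4 v5 = true) :
    NIc N ![(x0 : ℤ), x1, x2, x3, x4, x5] := by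
  unfold niOK at h
  simp only [and'_true, or'_true, rec_not, beq_true] at h
  obtain ⟨⟨⟨t0, t1⟩, t2, t3, t4, t5⟩, hne, hcls⟩ := h
  have hc := clsOK_sound steps N hN 16 _ (in_mons N hN hN' x0 x1 x2 x3 x4 x5 v0 v1 v2 v3 v4 v5) hcls
  have hpos : ∀ C : ℤ, 0 ≤ C → cs N ![(x0 : ℤ), x1, x2, x3, x4, x5]
        ![(v0 : ℤ) - 32, (v1 : ℤ) - 32, (v2 : ℤ) - 32, (v3 : ℤ) - 32, (v4 : ℤ) - 32,
          (v5 : ℤ) - 32] C = 0 := by
    intro C hC
    rw [← vsum_mons N hN h2 hN' x0 x1 x2 x3 x4 x5 v0 v1 v2 v3 v4 v5 hx hv (C.toNat + 96) C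
      (by push_cast; rw [Int.toNat_of_nonneg hC])]
    exact hc _ (by omega)
  refine ⟨![(v0 : ℤ) - 32, (v1 : ℤ) - 32, (v2 : ℤ) - 32, (v3 : ℤ) - 32, (v4 : ℤ) - 32,
          (v5 : ℤ) - 32], ?_, ?_, ?_⟩
  · intro h0
    have e0 : (v0 : ℤ) - 32 = 0 := congrFun h0 0
    have e1 : (v1 : ℤ) - 32 = 0 := congrFun h0 1
    have e2 : (v2 : ℤ) - 32 = 0 := congrFun h0 2
    have e3 : (v3 : ℤ) - 32 = 0 := congrFun h0 3
    have e4 : (v4 : ℤ) - 32 = 0 := congrFun h0 4
    have e5 : (v5 : ℤ) - 32 = 0 := congrFun h0 5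
    omega
  · intro i hi
    fin_cases i
    · exact thOK_sound N x0 v0 t0 hi
    · exact thOK_sound N x1 v1 t1 hi
    · exact thOK_sound N x2 v2 t2 hi
    · exact thOK_sound N x3 v3 t3 hi
    · exact thOK_sound N x4 v4 t4 hi
    · exact thOK_sound N x5 v5 t5 hi
  · intro C
    rcases le_or_gt 0 C with hC | hC
    · exact hpos C hC
    · have h1 := hpos (-C) (by omega)
      have h3 := cs_neg N ![(x0 : ℤ), x1, x2, x3, x4, x5]
        ![(v0 : ℤ) - 32, (v1 : ℤ) - 32, (v2 : ℤ) - 32, (v3 : ℤ) - 32, (v4 : ℤ) - 32,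
          (v5 : ℤ) - 32] (-C)
      rw [neg_neg, h1, map_zero] at h3
      exact h3

/-- verified relations: all sixteen monomials in one class -/
theorem relOK_sound (steps : NL) (N : ℕ) (hN : 0 < N) (h2 : 2 ∣ N) (hN' : N ≤ 65536)
    (x0 x1 x2 x3 x4 x5 : ℕ)
    (hx : x0 ≤ N ∧ x1 ≤ N ∧ x2 ≤ N ∧ x3 ≤ N ∧ x4 ≤ N ∧ x5 ≤ N)
    (h : clsOK steps N 16 (mons N x0 x1 x2 x3 x4 x5 32 32 32 32 32 32) = true) :
    Rel N ![(x0 : ℤ), x1, x2, x3, x4, x5] := by
  have hc := clsOK_sound steps N hN 16 _ (in_mons N hN hN' x0 x1 x2 x3 x4 x5 32 32 32 32 32 32) h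
  have h1 := vsum_mons N hN h2 hN' x0 x1 x2 x3 x4 x5 32 32 32 32 32 32 hx (by norm_num) 96 0
    (by norm_num)
  rw [hc 96 le_rfl] at h1
  unfold cs at h1
  unfold Rel
  rw [h1]
  refine (Finset.sum_congr ?_ fun _ _ => rfl).symm
  ext μ
  rw [Finset.mem_filter]
  refine ⟨fun h => h.1, fun h => ⟨h, ?_⟩⟩
  fin_cases μ <;> simp [dot]

end Pool.Agent.TriCos.Eng
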