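import Pool.Agent.Lib_MP_6e4ab6_nt.Full.EngCore
import Pool.Agent.Lib_MP_6e4ab6_nt.Full.VzSound
import Pool.Agent.Lib_MP_6e4ab6_nt.Full.TabSound
import Pool.Agent.Lib_MP_6e4ab6_nt.Full.GalConc

/-! From the verified enumeration to the conclusion at a fixed level. -/

namespace Pool.Agent.TriCos.Eng

open Finset

/-! ### codes -/

theorem code_dec (a b c : ℕ) (ha : a < 512) (hb : b < 512) :
    i0 (a + 512 * b + 262144 * c) = a ∧ i1 (a + 512 * b + 262144 * c) = b ∧
    i2 (a + 512 * b + 262144 * c) = c := by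
  refine ⟨?_, ?_, ?_⟩
  · show (a + 512 * b + 262144 * c) % 512 = a
    omega
  · show (a + 512 * b + 262144 * c) / 512 % 512 = b
    omega
  · show (a + 512 * b + 262144 * c) / 262144 = c
    omega

/-- the configuration of six indices -/
def cfg (m : ℕ) (a b c x y z : ℕ) : Fin 6 → ℚ := ang m ![(a : ℤ), b, c, x, y, z]

theorem L3_cfg (m a b c x y z : ℕ) : L3 (cfg m a b c x y z) =
    Multiset.map (fun k : ℕ => c2 ((k : ℝ) / m)) {a, b, c} := by
  unfold L3 cfg
  simp only [c2_ang]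
  simp

theorem R3_cfg (m a b c x y z : ℕ) : R3 (cfg m a b c x y z) =
    Multiset.map (fun k : ℕ => c2 ((k : ℝ) / m)) {x, y, z} := by
  unfold R3 cfg
  simp only [c2_ang]
  simp

theorem triv_cfg (m a b c x y z : ℕ) (h : ({a, b, c} : Multiset ℕ) = {x, y, z}) :
    Triv (cfg m a b c x y z) := by
  unfold Triv
  rw [L3_cfg, R3_cfg, h]

theorem same_cfg (m a b c x y z a' b' c' x' y' z' : ℕ)
    (h : ({a, b, c} : Multiset ℕ) = {a', b', c'}) (h' : ({x, y, z} : Multiset ℕ) = {x', y', z'}) :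
    Same (cfg m a b c x y z) (cfg m a' b' c' x' y' z') := by
  left
  rw [L3_cfg, R3_cfg, L3_cfg, R3_cfg, h, h']
  exact ⟨rfl, rfl⟩

/-- a common index which is not a third -/
theorem ni_cfg (m : ℕ) (hm : 0 < m) (s : Fin 6 → ℤ) (hs : Sol (ang m s)) (i j : Fin 6)
    (hi : i.val < 3) (hj : 3 ≤ j.val) (h : s i = s j) (h0 : 0 ≤ s i) (h1 : 2 * s i < m)
    (h3 : 3 * s i ≠ m) : Concl (ang m s) := by
  by_cases hz : s i = 0
  · -- the common entry is zero
    right; left
    apply ni_of_common (ang m s) hs i j hi hj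
    · rw [c2_ang, c2_ang, h]
    · rw [c2_ang, hz]
      simp only [Int.cast_zero, zero_div]
      rw [c2_zero]; norm_num
  · right; left
    apply ni_of_common (ang m s) hs i j hi hj
    · rw [c2_ang, c2_ang, h]
    · rw [c2_ang, Ne, c2_eq_one_iff m hm]
      rintro ⟨⟨t, ht⟩, -⟩
      push_cast at ht
      have ht' : 3 * s i = m * t := by linarith
      have hm' : (0 : ℤ) < m := by exact_mod_cast hm
      have : t = 0 ∨ t = 1 ∨ 2 ≤ t ∨ t < 0 := by omega
      rcases this with rfl | rfl | h | h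
      · apply hz; linarith
      · apply h3; linarith
      · nlinarith
      · nlinarith

theorem hit_sound (steps : NL) (m : ℕ) (hm : 0 < m) (hN : 2 * m ≤ 65536) (a b c x y z d : ℕ)
    (ha : a < 512) (hb : b < 512) (hc : c < 512) (hx : x < 512) (hy : y < 512)
    (ha' : a ≤ m) (hb' : b ≤ m) (hc' : c ≤ m) (hx' : x ≤ m) (hy' : y ≤ m) (hz' : z ≤ m)
    (h : hitOK tbl steps m ((a + 512 * b + 262144 * c) + 134217728 * (x + 512 * y + 262144 * z)) d
      = true) : Concl (cfg m a b c x y z) := by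
  obtain ⟨s0, s1, s2⟩ := code_dec a b c ha hb
  obtain ⟨t0, t1, t2⟩ := code_dec x y z hx hy
  have e1 : Nat.mod ((a + 512 * b + 262144 * c) + 134217728 * (x + 512 * y + 262144 * z)) 134217728
      = a + 512 * b + 262144 * c := by
    show ((a + 512 * b + 262144 * c) + 134217728 * (x + 512 * y + 262144 * z)) % 134217728 = _
    omega
  have e2 : Nat.div ((a + 512 * b + 262144 * c) + 134217728 * (x + 512 * y + 262144 * z)) 134217728
      = x + 512 * y + 262144 * z := by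
    show ((a + 512 * b + 262144 * c) + 134217728 * (x + 512 * y + 262144 * z)) / 134217728 = _
    omega
  unfold hitOK at h
  rw [e1, e2, s0, s1, s2, t0, t1, t2] at h
  cases hk : Nat.beq (Nat.mod d 2) 1
  · rw [hk] at h
    right; left
    have hf : Nat.mod (Nat.div d 2) 2 ≤ 1 := by
      have : (d / 2) % 2 < 2 := Nat.mod_lt _ (by norm_num)
      show (d / 2) % 2 ≤ 1
      omega
    have hv : ∀ w : ℕ, Nat.mod w 64 ≤ 64 := fun w => (Nat.mod_lt w (by norm_num)).le
    have hmf : Nat.mul m (Nat.mod (Nat.div d 2) 2) ≤ m := by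
      calc m * Nat.mod (Nat.div d 2) 2 ≤ m * 1 := Nat.mul_le_mul_left m hf
        _ = m := mul_one m
    have h1 := niOK_sound steps (Nat.mul 2 m) (by show 0 < 2 * m; omega) (Dvd.intro m rfl)
      (by show 2 * m ≤ 65536; exact hN) a b c x y _ _ _ _ _ _ _
      ⟨by show a ≤ 2 * m; omega, by show b ≤ 2 * m; omega, by show c ≤ 2 * m; omega,
        by show x ≤ 2 * m; omega, by show y ≤ 2 * m; omega,
        by show z + Nat.mul m (Nat.mod (Nat.div d 2) 2) ≤ 2 * m; omega⟩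
      ⟨hv _, hv _, hv _, hv _, hv _, hv _⟩ h
    have h2 := ni_of_nic m hm _ h1
    refine same_ni _ _ ?_ h2
    apply same_of_dvd m hm
    intro i
    left
    fin_cases i
    · simp
    · simp
    · simp
    · simp
    · simp
    · refine ⟨(Nat.mod (Nat.div d 2) 2 : ℕ), ?_⟩
      show (((z + m * (Nat.mod (Nat.div d 2) 2) : ℕ)) : ℤ) - z = m * _
      push_cast
      ring
  · rw [hk] at h
    right; right
    exact tabOK_sound m hm a b c x y z _ _ h

theorem acc_sound (steps : NL) (m : ℕ) (hm : 0 < m) (hN : 2 * m ≤ 65536) (t : HT)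
    (ht : allHT (hitOK tbl steps m) t = true) (a b c x y z : ℕ)
    (ha : a < 512) (hb : b < 512) (hc : c < 512) (hx : x < 512) (hy : y < 512)
    (ha' : 2 * a < m) (hb' : 2 * b < m) (hc' : 2 * c < m) (hx' : 2 * x < m) (hy' : 2 * y < m)
    (hz' : 2 * z < m) (hs : Sol (cfg m a b c x y z))
    (h : acc m t (a + 512 * b + 262144 * c) (x + 512 * y + 262144 * z) = true) :
    Concl (cfg m a b c x y z) := by
  obtain ⟨s0, s1, s2⟩ := code_dec a b c ha hb
  obtain ⟨t0, t1, t2⟩ := code_dec x y z hx hy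
  unfold acc at h
  rw [s0, s1, s2, t0, t1, t2, or'_true, or'_true, or'_true, or'_true] at h
  have hcom : ∀ w : ℕ, com1 m w x y z = true → (w = x ∨ w = y ∨ w = z) ∧ 3 * w ≠ m := by
    intro w hw
    unfold com1 at hw
    rw [and'_true, or'_true, or'_true, rec_not, beq_true, beq_true, beq_true, beq_true] at hw
    exact hw
  rcases h with h | h | h | h | h
  · exact Or.inl (triv_cfg m a b c x y z (same3_sound _ _ _ _ _ _ h))
  · obtain ⟨h1 | h1 | h1, h2⟩ := hcom a h
    · exact ni_cfg m hm _ hs 0 3 (by decide) (by decide) (by simp [h1]) (by simp)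
        (by simp; exact_mod_cast ha') (by simp; exact_mod_cast h2)
    · exact ni_cfg m hm _ hs 0 4 (by decide) (by decide) (by simp [h1]) (by simp)
        (by simp; exact_mod_cast ha') (by simp; exact_mod_cast h2)
    · exact ni_cfg m hm _ hs 0 5 (by decide) (by decide) (by simp [h1]) (by simp)
        (by simp; exact_mod_cast ha') (by simp; exact_mod_cast h2)
  · obtain ⟨h1 | h1 | h1, h2⟩ := hcom b h
    · exact ni_cfg m hm _ hs 1 3 (by decide) (by decide) (by simp [h1]) (by simp)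
        (by simp; exact_mod_cast hb') (by simp; exact_mod_cast h2)
    · exact ni_cfg m hm _ hs 1 4 (by decide) (by decide) (by simp [h1]) (by simp)
        (by simp; exact_mod_cast hb') (by simp; exact_mod_cast h2)
    · exact ni_cfg m hm _ hs 1 5 (by decide) (by decide) (by simp [h1]) (by simp)
        (by simp; exact_mod_cast hb') (by simp; exact_mod_cast h2)
  · obtain ⟨h1 | h1 | h1, h2⟩ := hcom c h
    · exact ni_cfg m hm _ hs 2 3 (by decide) (by decide) (by simp [h1]) (by simp)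
        (by simp; exact_mod_cast hc') (by simp; exact_mod_cast h2)
    · exact ni_cfg m hm _ hs 2 4 (by decide) (by decide) (by simp [h1]) (by simp)
        (by simp; exact_mod_cast hc') (by simp; exact_mod_cast h2)
    · exact ni_cfg m hm _ hs 2 5 (by decide) (by decide) (by simp [h1]) (by simp)
        (by simp; exact_mod_cast hc') (by simp; exact_mod_cast h2)
  · obtain ⟨d, hd⟩ := find_true _ _ h
    have h1 := allHT_true _ _ ht _ _ hd
    exact hit_sound steps m hm hN a b c x y z d ha hb hc hx hy (by omega) (by omega) (by omega)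
      (by omega) (by omega) (by omega) h1

/-! ### units -/

theorem lift_unit' (m' m : ℕ) (hm : 0 < m) (hd : m' ∣ m) (v : ℤ) (hv : IsCoprime v (m' : ℤ)) :
    ∃ w : ℤ, (m' : ℤ) ∣ w - v ∧ IsCoprime w (m : ℤ) := by
  have hne : NeZero m := ⟨hm.ne'⟩
  obtain ⟨y, hy⟩ := ZMod.unitsMap_surjective (n := m') (m := m) hd (ZMod.unitOfIsCoprime v hv)
  refine ⟨((y : ZMod m).val : ℤ), ?_, ?_⟩
  · have h1 : (((y : ZMod m).val : ℤ) : ZMod m') = (v : ZMod m') := by
      have h2 := congrArg (fun z : (ZMod m')ˣ => (z : ZMod m')) hy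
      simp only [ZMod.coe_unitOfIsCoprime, ZMod.unitsMap_def, Units.coe_map,
        MonoidHom.coe_coe, ZMod.castHom_apply] at h2
      rw [← h2, Int.cast_natCast]
      exact ZMod.natCast_val _
    exact (ZMod.intCast_eq_intCast_iff_dvd_sub _ _ _).1 h1.symm
  · exact_mod_cast Nat.isCoprime_iff_coprime.2 (ZMod.val_coe_unit_coprime y)

theorem unit_gcd (m : ℕ) (hm : 0 < m) (w : ℤ) :
    ∃ u : ℤ, IsCoprime u (m : ℤ) ∧ (m : ℤ) ∣ u * w - (Int.gcd w m : ℤ) := by
  set g := Int.gcd w m with hg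
  have hg0 : 0 < g := Int.gcd_pos_of_ne_zero_right w (by exact_mod_cast hm.ne')
  obtain ⟨w', hw'⟩ : (g : ℤ) ∣ w := Int.gcd_dvd_left w m
  obtain ⟨m', hm'⟩ : g ∣ m := by
    have : (g : ℤ) ∣ (m : ℤ) := Int.gcd_dvd_right w m
    exact_mod_cast this
  have hm0 : 0 < m' := by
    rcases Nat.eq_zero_or_pos m' with h | h
    · rw [h] at hm'; omega
    · exact h
  have hcop : IsCoprime w' (m' : ℤ) := by
    rw [Int.isCoprime_iff_gcd_eq_one]
    have h1 : Int.gcd w m = g * Int.gcd w' m' := by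
      conv_lhs => rw [hw', hm']
      push_cast
      rw [Int.gcd_mul_left]
      simp
    rw [← hg] at h1
    have : g * Int.gcd w' m' = g * 1 := by rw [← h1, mul_one]
    exact Nat.eq_of_mul_eq_mul_left hg0 this
  obtain ⟨v, r, hvr⟩ := hcop
  have hv : IsCoprime v (m' : ℤ) := ⟨w', r, by linear_combination hvr⟩
  obtain ⟨u, ⟨t, ht⟩, hu⟩ := lift_unit' m' m hm ⟨g, by rw [hm', mul_comm]⟩ v hv
  refine ⟨u, hu, ?_⟩
  refine ⟨t * w' - r, ?_⟩
  have e1 : u = v + m' * t := by linear_combination ht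
  rw [hw', hm', e1]
  push_cast
  linear_combination (g : ℤ) * hvr

/-! ### reduction modulo `q` -/

theorem rel_mod (m q : ℕ) [Fact q.Prime] (g : ZMod q) (hm : 0 < m) (hg : IsPrimitiveRoot g (2 * m))
    (s : Fin 6 → ℤ) (h : Rel (2 * m) s) :
    (g ^ (s 0) + g ^ (-s 0)) * (g ^ (s 1) + g ^ (-s 1)) * (g ^ (s 2) + g ^ (-s 2))
      = (g ^ (s 3) + g ^ (-s 3)) * (g ^ (s 4) + g ^ (-s 4)) * (g ^ (s 5) + g ^ (-s 5)) := by
  have hg0 : g ≠ 0 := hg.ne_zero (by omega)
  have h1 := rt_mod univ (2 * m) (by omega) sg (fun μ => dot μ s) q g hg h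
  have e : ∀ a b : ℤ, g ^ (a - b) = g ^ a * g ^ (-b) := by
    intro a b; rw [sub_eq_add_neg, zpow_add₀ hg0]
  rw [← sub_eq_zero, ← h1]
  simp only [Fin.sum_univ_succ, dot, sg, Fin.sum_univ_zero, Fin.succ_zero_eq_one, Fin.isValue]
  norm_num [Fin.succ]
  simp only [e, zpow_add₀ hg0, zpow_neg]
  ring

theorem half_pow (m q : ℕ) [Fact q.Prime] (g : ZMod q) (hm : 0 < m)
    (hg : IsPrimitiveRoot g (2 * m)) : g ^ m = -1 := by
  have h1 : (g ^ m) ^ 2 = 1 := by rw [← pow_mul, mul_comm, hg.pow_eq_one]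
  have h2 : (g ^ m - 1) * (g ^ m + 1) = 0 := by linear_combination h1
  rcases mul_eq_zero.mp h2 with h | h
  · exact absurd (sub_eq_zero.mp h) (hg.pow_ne_one_of_pos_of_lt hm.ne' (by omega))
  · exact eq_neg_of_add_eq_zero_left h

/-- the value attached to an exponent -/
noncomputable def dz {q : ℕ} [Fact q.Prime] (g : ZMod q) (w : ℤ) : ZMod q := (g ^ w + (g ^ w)⁻¹) ^ 2

theorem sol_mod (m q : ℕ) [Fact q.Prime] (g : ZMod q) (hm : 0 < m) (hg : IsPrimitiveRoot g (2 * m))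
    (s : Fin 6 → ℤ) (h : Sol (ang m s)) :
    dz g (s 0) * dz g (s 1) * dz g (s 2) = dz g (s 3) * dz g (s 4) * dz g (s 5) := by
  have hg0 : g ≠ 0 := hg.ne_zero (by omega)
  unfold dz
  rcases (rel_of_sol m hm s h).2 with h1 | h1
  · have h2 := rel_mod m q g hm hg s h1
    simp only [zpow_neg] at h2
    calc _ = ((g ^ (s 0) + (g ^ (s 0))⁻¹) * (g ^ (s 1) + (g ^ (s 1))⁻¹)
        * (g ^ (s 2) + (g ^ (s 2))⁻¹)) ^ 2 := by ring
      _ = _ := by rw [h2]; ring
  · have h2 := rel_mod m q g hm hg _ h1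
    simp only [zpow_neg] at h2
    have e5 : Function.update s 5 (s 5 + m) 5 = s 5 + m := by simp
    have e0 : Function.update s 5 (s 5 + m) 0 = s 0 := by simp
    have e1 : Function.update s 5 (s 5 + m) 1 = s 1 := by simp
    have e2 : Function.update s 5 (s 5 + m) 2 = s 2 := by simp
    have e3 : Function.update s 5 (s 5 + m) 3 = s 3 := by simp
    have e4 : Function.update s 5 (s 5 + m) 4 = s 4 := by simp
    rw [e0, e1, e2, e3, e4, e5, zpow_add₀ hg0, zpow_natCast, half_pow m q g hm hg] at h2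
    have e6 : (g ^ (s 5) * (-1 : ZMod q))⁻¹ = -(g ^ (s 5))⁻¹ := by
      rw [mul_inv, inv_neg, inv_one, mul_neg, mul_one]
    rw [e6] at h2
    calc _ = ((g ^ (s 0) + (g ^ (s 0))⁻¹) * (g ^ (s 1) + (g ^ (s 1))⁻¹)
        * (g ^ (s 2) + (g ^ (s 2))⁻¹)) ^ 2 := by ring
      _ = _ := by rw [h2]; ring

theorem c2_half_zero : c2 (1/2) = 0 := by
  unfold c2
  have : Real.pi * (1/2) = Real.pi / 2 := by ring
  rw [this, Real.cos_pi_div_two]; norm_num

theorem exists_index (m : ℕ) (hm : 0 < m) (w : ℤ) (h : c2 ((w : ℝ) / m) ≠ 0) :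
    ∃ x : ℕ, 2 * x < m ∧ ((m : ℤ) ∣ w - x ∨ (m : ℤ) ∣ w + x) := by
  have hm' : (0 : ℤ) < m := by exact_mod_cast hm
  have hr0 := Int.emod_nonneg w hm'.ne'
  have hr1 := Int.emod_lt_of_pos w hm'
  have hw := Int.emod_add_mul_ediv w m
  set r := w % m with hr
  have key : ∃ x : ℕ, 2 * x ≤ m ∧ ((m : ℤ) ∣ w - x ∨ (m : ℤ) ∣ w + x) := by
    by_cases h2 : 2 * r ≤ m
    · refine ⟨r.toNat, ?_, ?_⟩
      · omega
      · left
        refine ⟨w / m, ?_⟩
        have : ((r.toNat : ℕ) : ℤ) = r := Int.toNat_of_nonneg hr0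
        rw [this]; linarith
    · refine ⟨(m - r).toNat, ?_, ?_⟩
      · omega
      · right
        refine ⟨w / m + 1, ?_⟩
        have : (((m - r).toNat : ℕ) : ℤ) = m - r := Int.toNat_of_nonneg (by linarith)
        rw [this]; linarith
  obtain ⟨x, hx, hx2⟩ := key
  refine ⟨x, ?_, hx2⟩
  rcases Nat.lt_or_ge (2 * x) m with h3 | h3
  · exact h3
  · exfalso
    apply h
    have h4 : (2 * x : ℕ) = m := le_antisymm hx h3
    have h5 : c2 ((w : ℝ) / m) = c2 (((x : ℤ) : ℝ) / m) := by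
      rw [c2_eq_iff m hm]
      exact hx2
    rw [h5]
    have h6 : (((x : ℤ) : ℝ) / m) = 1/2 := by
      have : (m : ℝ) = 2 * x := by rw [← h4]; push_cast; ring
      rw [this]
      have hx0 : (x : ℝ) ≠ 0 := by
        have : 0 < x := by omega
        exact_mod_cast this.ne'
      push_cast
      field_simp
    rw [h6, c2_half_zero]

theorem c2_le (a : ℝ) : c2 a ≤ 4 := by
  unfold c2
  have := Real.cos_sq_le_one (Real.pi * a)
  nlinarith

theorem c2_nonneg (a : ℝ) : 0 ≤ c2 a := by unfold c2; positivity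

theorem c2_eq_four_of_dvd (m : ℕ) (hm : 0 < m) (w : ℤ) (h : (m : ℤ) ∣ w) : c2 ((w : ℝ) / m) = 4 := by
  have : c2 ((w : ℝ) / m) = c2 (((0 : ℤ) : ℝ) / m) := by
    rw [c2_eq_iff m hm]; left; simpa using h
  rw [this]
  simp only [Int.cast_zero, zero_div]
  exact c2_zero

theorem gcd_index (m : ℕ) (w : ℤ) (x : ℕ) (h : (m : ℤ) ∣ w - x ∨ (m : ℤ) ∣ w + x) :
    Nat.gcd x m = Int.gcd w m := by
  have key : ∀ a b : ℤ, (m : ℤ) ∣ a - b → Int.gcd a m = Int.gcd b m := by
    intro a b ⟨t, ht⟩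
    have : a = b + m * t := by linarith
    rw [this, Int.gcd_comm, Int.gcd_comm b]
    exact Int.gcd_add_mul_left_right m b t
  have hx : Nat.gcd x m = Int.gcd (x : ℤ) m := (Int.gcd_natCast_natCast x m).symm
  rw [hx]
  rcases h with h | h
  · exact (key _ _ h).symm
  · have h' : (m : ℤ) ∣ w - (-(x : ℤ)) := by simpa using h
    rw [key _ _ h', Int.neg_gcd]

/-- index search in a list -/
noncomputable def exIdx (q k : ℕ) (l : NL) : Bool :=
  NL.rec (motive := fun _ => Bool) false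
    (fun e _ ih => Bool.rec (motive := fun _ => Bool) ih true (Nat.beq (Nat.div e q) k)) l

theorem exIdx_true (q k : ℕ) (l : NL) (h : exIdx q k l = true) : ∃ e, In e l ∧ e / q = k := by
  induction l with
  | nil => exact absurd h (by simp [exIdx])
  | cons a t ih =>
    have e : exIdx q k (NL.cons a t) = Bool.rec (motive := fun _ => Bool) (exIdx q k t) true
      (Nat.beq (a / q) k) := rfl
    rw [e, rec_or, beq_true] at h
    rcases h with h | h
    · exact ⟨a, Or.inl rfl, h⟩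
    · obtain ⟨b, hb, hb2⟩ := ih h
      exact ⟨b, Or.inr hb, hb2⟩

theorem allBelow_iff (f : ℕ → Bool) (n : ℕ) : allBelow f n = true ↔ ∀ k < n, f k = true := by
  induction n with
  | zero => simp [allBelow]
  | succ n ih =>
    have e : allBelow f (n + 1) = Bool.rec (motive := fun _ => Bool) false (allBelow f n) (f n) := rfl
    rw [e, rec_false, ih]
    constructor
    · rintro ⟨h1, h2⟩ k hk
      rcases Nat.lt_succ_iff_lt_or_eq.mp hk with h | rfl
      · exact h2 k h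
      · exact h1
    · intro h
      exact ⟨h n (Nat.lt_succ_self n), fun k hk => h k (Nat.lt_succ_of_lt hk)⟩

/-- the list of divisors is complete and part of the full list -/
noncomputable def chkG (q m : ℕ) (full gs : NL) : Bool :=
  and' (all (fun e => mem e full) gs)
    (allBelow (fun k => or' (Nat.beq k 0) (or' (Nat.ble m (Nat.mul 2 k))
      (or' (Bool.rec (motive := fun _ => Bool) true false (Nat.beq (Nat.mod m k) 0))
        (exIdx q k gs)))) m)

theorem chkG_true (q m : ℕ) (full gs : NL) (h : chkG q m full gs = true) :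
    (∀ e, In e gs → In e full) ∧
    ∀ k, 0 < k → 2 * k < m → k ∣ m → ∃ e, In e gs ∧ e / q = k := by
  unfold chkG at h
  rw [and'_true, all_true, allBelow_iff] at h
  refine ⟨fun e he => (mem_true _ _).mp (h.1 e he), fun k h0 h1 h2 => ?_⟩
  have h3 := h.2 k (by omega)
  rw [or'_true, or'_true, or'_true, beq_true, ble_true, rec_not, beq_true] at h3
  rcases h3 with h3 | h3 | h3 | h3
  · omega
  · exact absurd h3 (by show ¬ m ≤ 2 * k; omega)
  · exact absurd (Nat.mod_eq_zero_of_dvd h2) h3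
  · exact exIdx_true _ _ _ h3

/-- all the verified data at a level -/
structure Checks (m q c1 : ℕ) (full gs : NL) (M M' : Tr) (K H : ℕ) (tr : Tr) (steps : NL) (t : HT) : Prop where
  hE : chkE q c1 full 0 2 c1 = true
  hlen : m ≤ 2 * len full
  hlen' : 2 * (len full - 1) < m
  hG : chkG q m full gs = true
  hT : ∀ a b c, In a full → In b full → In c full → T3 q (FT M M' K H tr (acc m t)) a b c
  hS : loopS q m (FS M M' K H tr) full gs = true
  hh : allHT (hitOK tbl steps m) t = true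

theorem val_eq (q : ℕ) [Fact q.Prime] (a b c x y z : ℕ)
    (h : (a : ZMod q) * b * c = (x : ZMod q) * y * z) :
    ((a * b) % q * c) % q = ((x * y) % q * z) % q := by
  have h1 : ((((a * b) % q * c) % q : ℕ) : ZMod q) = (((x * y) % q * z) % q : ℕ) := by
    simp only [ZMod.natCast_mod, Nat.cast_mul]
    exact h
  have h2 := (ZMod.natCast_eq_natCast_iff' _ _ _).mp h1
  rw [Nat.mod_mod, Nat.mod_mod] at h2
  exact h2

theorem bf_indices (m q c1 : ℕ) [Fact q.Prime] (g : ZMod q) (hm : 0 < m)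
    (hg : IsPrimitiveRoot g (2 * m)) (hN : m ≤ 1024)
    (hc1 : (c1 : ZMod q) = g + g⁻¹) (hc1' : c1 ≤ q)
    (full gs : NL) (M M' : Tr) (K H : ℕ) (tr : Tr) (steps : NL) (t : HT)
    (C : Checks m q c1 full gs M M' K H tr steps t)
    (x0 x1 x2 x3 x4 x5 : ℕ) (b0 : 2 * x0 < m) (b1 : 2 * x1 < m) (b2 : 2 * x2 < m)
    (b3 : 2 * x3 < m) (b4 : 2 * x4 < m) (b5 : 2 * x5 < m)
    (p0 : 0 < x0) (hd : x0 ∣ m) (g1 : x0 ≤ Nat.gcd x1 m) (g2 : x0 ≤ Nat.gcd x2 m)
    (hs : Sol (cfg m x0 x1 x2 x3 x4 x5)) : Concl (cfg m x0 x1 x2 x3 x4 x5) := by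
  have hg0 : g ≠ 0 := hg.ne_zero (by omega)
  have hq2 : 2 ≤ q := (Fact.out : q.Prime).two_le
  obtain ⟨hE, hlen, hlen', hG, hT, hS, hh⟩ := C
  obtain ⟨hE1, hE2⟩ := chkE_true q c1 g hg0 hc1 full 0 2 c1 hq2 (by norm_num) (by
    rw [hc1]; ring) hc1' hE
  obtain ⟨hG1, hG2⟩ := chkG_true q m full gs hG
  obtain ⟨e0, he0, i0'⟩ := hG2 x0 p0 b0 hd
  have he0' := hG1 e0 he0
  obtain ⟨e1, he1, i1'⟩ := hE2 x1 (by omega)
  obtain ⟨e2, he2, i2'⟩ := hE2 x2 (by omega)
  obtain ⟨e3, he3, i3'⟩ := hE2 x3 (by omega)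
  obtain ⟨e4, he4, i4'⟩ := hE2 x4 (by omega)
  obtain ⟨e5, he5, i5'⟩ := hE2 x5 (by omega)
  rw [zero_add] at i1' i2' i3' i4' i5'
  have hrel := sol_mod m q g hm hg _ hs
  have hdz : ∀ (e x : ℕ), In e full → e / q = x → dz g (x : ℤ) = (e : ZMod q) := by
    intro e x he hx
    rw [(hE1 e he).1, hx]
    unfold dz
    rw [zpow_natCast]
  have hrel' : (e0 : ZMod q) * e1 * e2 = (e3 : ZMod q) * e4 * e5 := by
    rw [← hdz e0 x0 he0' i0', ← hdz e1 x1 he1 i1', ← hdz e2 x2 he2 i2', ← hdz e3 x3 he3 i3',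
      ← hdz e4 x4 he4 i4', ← hdz e5 x5 he5 i5']
    exact hrel
  -- the combination for ordered triples
  have comb : ∀ (f1 f2 f3 f4 f5 y1 y2 y3 y4 y5 : ℕ), f1 / q = y1 → f2 / q = y2 → f3 / q = y3 →
      f4 / q = y4 → f5 / q = y5 → 2 * y1 < m → 2 * y2 < m → 2 * y3 < m → 2 * y4 < m → 2 * y5 < m →
      (e0 : ZMod q) * f1 * f2 = (f3 : ZMod q) * f4 * f5 →
      ({x0, y1, y2} : Multiset ℕ) = {x0, x1, x2} → ({y3, y4, y5} : Multiset ℕ) = {x3, x4, x5} →
      G3 q (FS M M' K H tr) e0 f1 f2 → G3 q (FT M M' K H tr (acc m t)) f3 f4 f5 →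
      Concl (cfg m x0 x1 x2 x3 x4 x5) := by
    intro f1 f2 f3 f4 f5 y1 y2 y3 y4 y5 j1 j2 j3 j4 j5 c1 c2 c3 c4 c5 hf hp hp' hFS hFT
    unfold G3 at hFS hFT
    rw [val_eq q e0 f1 f2 f3 f4 f5 hf, i0', j1, j2] at hFS
    rw [j3, j4, j5] at hFT
    have hacc := core M M' K H tr (acc m t) _ _ _ (by omega) hFS hFT
    have hsame := same_cfg m x0 y1 y2 y3 y4 y5 x0 x1 x2 x3 x4 x5 hp hp'
    have hs' := same_sol _ _ (same_symm _ _ hsame) hs
    exact same_concl _ _ hsame (acc_sound steps m hm (by omega) t hh x0 y1 y2 y3 y4 y5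
      (by omega) (by omega) (by omega) (by omega) (by omega) b0 c1 c2 c3 c4 c5 hs' hacc)
  have sw : ∀ a b c : ℕ, ({a, b, c} : Multiset ℕ) = {a, c, b} := fun a b c => by
    show a ::ₘ ({b, c} : Multiset ℕ) = a ::ₘ {c, b}
    rw [Multiset.pair_comm]
  have sw' : ∀ a b c : ℕ, ({a, b, c} : Multiset ℕ) = {b, a, c} := fun a b c =>
    Multiset.cons_swap a b _
  have hS' := loopS_true q m _ full gs hS e0 e1 e2 he0 he1 he2 (by rw [i0', i1']; exact g1)
    (by rw [i0', i2']; exact g2)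
  have hT' := hT e3 e4 e5 he3 he4 he5
  unfold T3 at hT'
  have side : ∀ (f3 f4 f5 y3 y4 y5 : ℕ), f3 / q = y3 → f4 / q = y4 → f5 / q = y5 → 2 * y3 < m →
      2 * y4 < m → 2 * y5 < m → (e0 : ZMod q) * e1 * e2 = (f3 : ZMod q) * f4 * f5 →
      ({y3, y4, y5} : Multiset ℕ) = {x3, x4, x5} →
      G3 q (FT M M' K H tr (acc m t)) f3 f4 f5 → Concl (cfg m x0 x1 x2 x3 x4 x5) := by
    intro f3 f4 f5 y3 y4 y5 j3 j4 j5 c3 c4 c5 hf hp hFT
    rcases hS' with hFS | hFS
    · exact comb e1 e2 f3 f4 f5 x1 x2 y3 y4 y5 i1' i2' j3 j4 j5 b1 b2 c3 c4 c5 hf rfl hp hFS hFT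
    · exact comb e2 e1 f3 f4 f5 x2 x1 y3 y4 y5 i2' i1' j3 j4 j5 b2 b1 c3 c4 c5
        (by rw [← hf]; ring) (sw _ _ _) hp hFS hFT
  rcases hT' with h | h | h | h | h | h
  · exact side e3 e4 e5 x3 x4 x5 i3' i4' i5' b3 b4 b5 hrel' rfl h
  · exact side e3 e5 e4 x3 x5 x4 i3' i5' i4' b3 b5 b4 (by rw [hrel']; ring) (sw _ _ _) h
  · exact side e4 e3 e5 x4 x3 x5 i4' i3' i5' b4 b3 b5 (by rw [hrel']; ring) (sw' _ _ _) h
  · exact side e4 e5 e3 x4 x5 x3 i4' i5' i3' b4 b5 b3 (by rw [hrel']; ring)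
      (by rw [sw x4 x5 x3, sw' x4 x3 x5]) h
  · exact side e5 e3 e4 x5 x3 x4 i5' i3' i4' b5 b3 b4 (by rw [hrel']; ring)
      (by rw [sw' x5 x3 x4, sw x3 x5 x4]) h
  · exact side e5 e4 e3 x5 x4 x3 i5' i4' i3' b5 b4 b3 (by rw [hrel']; ring)
      (by rw [sw x5 x4 x3, sw' x5 x3 x4, sw x3 x5 x4]) h

/-- the case where the first entry has the smallest gcd -/
theorem bf_min (m q c1 : ℕ) [Fact q.Prime] (g : ZMod q) (hm : 0 < m) (h2 : 2 ∣ m)
    (hg : IsPrimitiveRoot g (2 * m)) (hN : m ≤ 1024)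
    (hc1 : (c1 : ZMod q) = g + g⁻¹) (hc1' : c1 ≤ q)
    (full gs : NL) (M M' : Tr) (K H : ℕ) (tr : Tr) (steps : NL) (t : HT)
    (C : Checks m q c1 full gs M M' K H tr steps t)
    (s : Fin 6 → ℤ) (hs : Sol (ang m s))
    (h01 : Int.gcd (s 0) m ≤ Int.gcd (s 1) m) (h02 : Int.gcd (s 0) m ≤ Int.gcd (s 2) m) :
    Concl (ang m s) := by
  have hm' : (0 : ℤ) < m := by exact_mod_cast hm
  have hgm : ∀ w : ℤ, Int.gcd w m ∣ m := fun w => by
    have := Int.gcd_dvd_right w m
    exact_mod_cast this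
  by_cases hfull : Int.gcd (s 0) m = m
  · -- all left entries are zero modulo `m`
    left
    have hdvd : ∀ i : Fin 6, Int.gcd (s i) m = m → (m : ℤ) ∣ s i := fun i hi => by
      have := Int.gcd_dvd_left (s i) m
      rwa [hi] at this
    have hle : ∀ w : ℤ, Int.gcd w m ≤ m := fun w => Nat.le_of_dvd hm (hgm w)
    have v0 := c2_eq_four_of_dvd m hm _ (hdvd 0 hfull)
    have v1 := c2_eq_four_of_dvd m hm _ (hdvd 1 (le_antisymm (hle _) (by rw [← hfull]; simpa [hfull] using h01)))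
    have v2 := c2_eq_four_of_dvd m hm _ (hdvd 2 (le_antisymm (hle _) (by rw [← hfull]; simpa [hfull] using h02)))
    have hp := hs.2
    simp only [c2_ang] at hp
    rw [v0, v1, v2] at hp
    have l3 := c2_le ((s 3 : ℝ) / m)
    have l4 := c2_le ((s 4 : ℝ) / m)
    have l5 := c2_le ((s 5 : ℝ) / m)
    have n3 := c2_nonneg ((s 3 : ℝ) / m)
    have n4 := c2_nonneg ((s 4 : ℝ) / m)
    have n5 := c2_nonneg ((s 5 : ℝ) / m)
    have e3 : c2 ((s 3 : ℝ) / m) = 4 := by
      by_contra hne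
      have hlt : c2 ((s 3 : ℝ) / m) < 4 := lt_of_le_of_ne l3 hne
      have : c2 ((s 3 : ℝ) / m) * c2 ((s 4 : ℝ) / m) * c2 ((s 5 : ℝ) / m) < 64 := by
        calc _ ≤ c2 ((s 3 : ℝ) / m) * 4 * 4 := by gcongr
          _ < 64 := by linarith
      linarith
    have e4 : c2 ((s 4 : ℝ) / m) = 4 := by
      by_contra hne
      have hlt : c2 ((s 4 : ℝ) / m) < 4 := lt_of_le_of_ne l4 hne
      have : c2 ((s 3 : ℝ) / m) * c2 ((s 4 : ℝ) / m) * c2 ((s 5 : ℝ) / m) < 64 := by
        rw [e3]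
        calc _ ≤ 4 * c2 ((s 4 : ℝ) / m) * 4 := by gcongr
          _ < 64 := by linarith
      linarith
    have e5 : c2 ((s 5 : ℝ) / m) = 4 := by
      rw [e3, e4] at hp
      linarith
    unfold Triv L3 R3
    simp only [c2_ang]
    rw [v0, v1, v2, e3, e4, e5]
  · obtain ⟨u, hu, hud⟩ := unit_gcd m hm (s 0)
    have hu2 : IsCoprime u (2 * m : ℤ) := by
      apply IsCoprime.mul_right _ hu
      obtain ⟨k, hk⟩ := h2
      have : (2 : ℤ) ∣ m := ⟨k, by rw [hk]; push_cast; ring⟩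
      exact IsCoprime.of_isCoprime_of_dvd_right hu this
    apply concl_galois' m hm s u hu2
    have hsu := sol_galois m hm s u hu2 hs
    have hne : ∀ i, c2 (((u * s i : ℤ) : ℝ) / m) ≠ 0 := fun i => by
      have := hsu.1 i
      rwa [c2_ang] at this
    -- the gcd is unchanged
    have hgcd : ∀ w : ℤ, Int.gcd (u * w) m = Int.gcd w m := fun w => by
      have : Int.gcd u m = 1 := Int.isCoprime_iff_gcd_eq_one.mp hu
      rw [mul_comm]
      exact Int.gcd_mul_left_left_of_gcd_eq_one this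
    set g0 := Int.gcd (s 0) m with hg0
    have hg0pos : 0 < g0 := Int.gcd_pos_of_ne_zero_right _ (by exact_mod_cast hm.ne')
    obtain ⟨k, hk⟩ := hgm (s 0)
    rw [← hg0] at hk
    have hk1 : k ≠ 0 := by rintro rfl; omega
    have hk2 : k ≠ 1 := by rintro rfl; apply hfull; omega
    have hk3 : k ≠ 2 := by
      rintro rfl
      apply hne 0
      have e : c2 (((u * s 0 : ℤ) : ℝ) / m) = c2 (((g0 : ℤ) : ℝ) / m) := by
        rw [c2_eq_iff m hm]; exact Or.inl hud
      rw [e]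
      have e2 : (((g0 : ℤ) : ℝ) / m) = 1/2 := by
        have : (m : ℝ) = g0 * 2 := by rw [hk]; push_cast; ring
        rw [this]
        have : (g0 : ℝ) ≠ 0 := by exact_mod_cast hg0pos.ne'
        push_cast
        field_simp
      rw [e2, c2_half_zero]
    have hk4 : 3 ≤ k := by omega
    have hlt : 2 * g0 < m := by rw [hk]; nlinarith
    obtain ⟨x1, b1, d1⟩ := exists_index m hm _ (hne 1)
    obtain ⟨x2, b2, d2⟩ := exists_index m hm _ (hne 2)
    obtain ⟨x3, b3, d3⟩ := exists_index m hm _ (hne 3)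
    obtain ⟨x4, b4, d4⟩ := exists_index m hm _ (hne 4)
    obtain ⟨x5, b5, d5⟩ := exists_index m hm _ (hne 5)
    have hsame : Same (ang m (fun i => u * s i)) (cfg m g0 x1 x2 x3 x4 x5) := by
      apply same_of_dvd m hm
      intro i
      fin_cases i
      · left; simpa using hud
      · simpa using d1
      · simpa using d2
      · simpa using d3
      · simpa using d4
      · simpa using d5
    apply same_concl _ _ (same_symm _ _ hsame)
    apply bf_indices m q c1 g hm hg hN hc1 hc1' full gs M M' K H tr steps t C g0 x1 x2 x3 x4 x5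
      hlt b1 b2 b3 b4 b5 hg0pos (hgm _)
    · rw [gcd_index m _ x1 d1, hgcd]; exact h01
    · rw [gcd_index m _ x2 d2, hgcd]; exact h02
    · exact same_sol _ _ hsame hsu

theorem bf_of_checks (m q c1 : ℕ) [Fact q.Prime] (g : ZMod q) (hm : 0 < m) (h2 : 2 ∣ m)
    (hg : IsPrimitiveRoot g (2 * m)) (hN : m ≤ 1024)
    (hc1 : (c1 : ZMod q) = g + g⁻¹) (hc1' : c1 ≤ q)
    (full gs : NL) (M M' : Tr) (K H : ℕ) (tr : Tr) (steps : NL) (t : HT)
    (C : Checks m q c1 full gs M M' K H tr steps t)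
    (s : Fin 6 → ℤ) (hs : Sol (ang m s)) : Concl (ang m s) := by
  -- bring the entry with the smallest gcd to the front
  have main : ∀ σ : Equiv.Perm (Fin 6), SP σ →
      Int.gcd (s (σ 0)) m ≤ Int.gcd (s (σ 1)) m → Int.gcd (s (σ 0)) m ≤ Int.gcd (s (σ 2)) m →
      Concl (ang m s) := by
    intro σ hσ h01 h02
    have hsame := same_sact m σ (fun _ => 1) (Or.inl hσ) s
    have e : sact σ (fun _ => (1 : ℤˣ)) s = fun i => s (σ i) := by
      funext i; simp [sact]
    rw [e] at hsame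
    apply same_concl _ _ (same_symm _ _ hsame)
    apply bf_min m q c1 g hm h2 hg hN hc1 hc1' full gs M M' K H tr steps t C
    · exact same_sol _ _ hsame hs
    · exact h01
    · exact h02
  by_cases h1 : Int.gcd (s 0) m ≤ Int.gcd (s 1) m
  · by_cases h3 : Int.gcd (s 0) m ≤ Int.gcd (s 2) m
    · exact main 1 (by unfold SP; decide) h1 h3
    · refine main (Equiv.swap 0 2) (by unfold SP; decide) ?_ ?_
      · show Int.gcd (s 2) m ≤ Int.gcd (s 1) m
        omega
      · show Int.gcd (s 2) m ≤ Int.gcd (s 0) m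
        omega
  · by_cases h3 : Int.gcd (s 1) m ≤ Int.gcd (s 2) m
    · refine main (Equiv.swap 0 1) (by unfold SP; decide) ?_ ?_
      · show Int.gcd (s 1) m ≤ Int.gcd (s 0) m
        omega
      · show Int.gcd (s 1) m ≤ Int.gcd (s 2) m
        exact h3
    · refine main (Equiv.swap 0 2) (by unfold SP; decide) ?_ ?_
      · show Int.gcd (s 2) m ≤ Int.gcd (s 1) m
        omega
      · show Int.gcd (s 2) m ≤ Int.gcd (s 0) m
        omega

end Pool.Agent.TriCos.Eng
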