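import Mathlib

/-! Numerical certificates: primes and primitive roots. -/

namespace Pool.Agent.TriCos.Eng

theorem cast_pow_mod (q g n : ℕ) : ((g : ZMod q)) ^ n = ((g ^ n % q : ℕ) : ZMod q) := by
  rw [ZMod.natCast_mod, Nat.cast_pow]

theorem pow_eq_one_of (q g n : ℕ) (h : g ^ n % q = 1) : ((g : ℕ) : ZMod q) ^ n = 1 := by
  rw [cast_pow_mod, h, Nat.cast_one]

theorem pow_ne_one_of (q g n : ℕ) (hq : 1 < q) (h : g ^ n % q ≠ 1) :
    ((g : ℕ) : ZMod q) ^ n ≠ 1 := by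
  intro h'
  apply h
  rw [cast_pow_mod] at h'
  have h2 : ((g ^ n % q : ℕ) : ZMod q) = ((1 : ℕ) : ZMod q) := by rw [h', Nat.cast_one]
  have h3 := (ZMod.natCast_eq_natCast_iff' _ _ _).mp h2
  rw [Nat.mod_mod, Nat.mod_eq_of_lt hq] at h3
  exact h3

/-- a list of primes containing all prime divisors -/
theorem mem_of_dvd_prod (l : List ℕ) (hl : ∀ p ∈ l, p.Prime) (n k : ℕ) (h : n ∣ l.prod ^ k)
    (p : ℕ) (hp : p.Prime) (hd : p ∣ n) : p ∈ l := by
  have h1 : p ∣ l.prod := hp.dvd_of_dvd_pow (hd.trans h)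
  obtain ⟨r, hr, hpr⟩ := (Nat.Prime.prime hp).dvd_prod_iff.mp h1
  have := (Nat.prime_dvd_prime_iff_eq hp (hl r hr)).mp hpr
  rw [this]; exact hr

/-- fast modular powers for kernel evaluation -/
def pm (q k : ℕ) : ℕ → ℕ → ℕ → ℕ :=
  Nat.rec (motive := fun _ => ℕ → ℕ → ℕ → ℕ) (fun _ _ r => r)
    (fun _ ih a n r => ih (a * a % q) (n / 2) (Bool.rec (motive := fun _ => ℕ) r (r * a % q)
      (Nat.beq (n % 2) 1))) k

theorem pm_succ (q k a n r : ℕ) : pm q (k + 1) a n r =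
    pm q k (a * a % q) (n / 2) (Bool.rec (motive := fun _ => ℕ) r (r * a % q)
      (Nat.beq (n % 2) 1)) := rfl

theorem pm_spec (q k : ℕ) : ∀ a n r, n < 2 ^ k → pm q k a n r % q = r * a ^ n % q := by
  induction k with
  | zero =>
    intro a n r h
    have : n = 0 := by simpa using h
    subst this
    simp [pm]
  | succ k ih =>
    intro a n r h
    rw [pm_succ, ih _ _ _ (by rw [pow_succ] at h; omega)]
    have h2 : n = 2 * (n / 2) + n % 2 := by omega
    have e1 : (a * a % q) ^ (n / 2) ≡ a ^ (2 * (n / 2)) [MOD q] := by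
      rw [pow_mul, sq]
      exact (Nat.mod_modEq _ _).pow _
    rcases Nat.mod_two_eq_zero_or_one n with h3 | h3
    · rw [h3]
      show (r * (a * a % q) ^ (n / 2)) % q = _
      conv_rhs => rw [h2, h3, add_zero]
      exact Nat.ModEq.mul_left r e1
    · rw [h3]
      show (r * a % q * (a * a % q) ^ (n / 2)) % q = _
      conv_rhs => rw [h2, h3, pow_add, pow_one]
      have e2 : r * a % q * (a * a % q) ^ (n / 2) ≡ (r * a) * a ^ (2 * (n / 2)) [MOD q] :=
        Nat.ModEq.mul (Nat.mod_modEq _ _) e1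
      refine e2.trans ?_
      have : r * a * a ^ (2 * (n / 2)) = r * (a ^ (2 * (n / 2)) * a) := by ring
      rw [this]

theorem pm_one (q k a n : ℕ) (h : n < 2 ^ k) :
    a ^ n % q = pm q k a n 1 % q := by
  rw [pm_spec q k a n 1 h, one_mul]

theorem prime_of_pratt (q a : ℕ) (l : List ℕ) (hq : 1 < q) (hk : q < 2 ^ 48)
    (h1 : pm q 48 a (q - 1) 1 % q = 1)
    (hd : q - 1 ∣ l.prod ^ 8) (hl : ∀ p ∈ l, p.Prime)
    (h : ∀ p ∈ l, pm q 48 a ((q - 1) / p) 1 % q ≠ 1) : q.Prime := by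
  apply lucas_primality q ((a : ℕ) : ZMod q)
  · apply pow_eq_one_of q a _
    rw [pm_one q 48 a _ (by omega)]; exact h1
  · intro p hp hpd
    apply pow_ne_one_of q a _ hq
    rw [pm_one q 48 a _ (lt_of_le_of_lt (Nat.div_le_self _ _) (by omega))]
    exact h p (mem_of_dvd_prod l hl (q - 1) 8 hd p hp hpd)

theorem prim_of_check (q g n : ℕ) (l : List ℕ) (hq : 1 < q) (hn : 0 < n) (hk : n < 2 ^ 48)
    (h1 : pm q 48 g n 1 % q = 1)
    (hd : n ∣ l.prod ^ 8) (hl : ∀ p ∈ l, p.Prime)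
    (h : ∀ p ∈ l, pm q 48 g (n / p) 1 % q ≠ 1) : IsPrimitiveRoot ((g : ℕ) : ZMod q) n := by
  have h2 : orderOf ((g : ℕ) : ZMod q) = n := by
    apply orderOf_eq_of_pow_and_pow_div_prime hn
    · apply pow_eq_one_of q g _
      rw [pm_one q 48 g _ hk]; exact h1
    · intro p hp hpd
      apply pow_ne_one_of q g _ hq
      rw [pm_one q 48 g _ (lt_of_le_of_lt (Nat.div_le_self _ _) hk)]
      exact h p (mem_of_dvd_prod l hl n 8 hd p hp hpd)
  rw [← h2]
  exact IsPrimitiveRoot.orderOf _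

theorem inv_of_check (q g c : ℕ) [Fact q.Prime] (hg : g % q ≠ 0)
    (h : c * g % q = (g * g + 1) % q) :
    ((c : ℕ) : ZMod q) = ((g : ℕ) : ZMod q) + ((g : ℕ) : ZMod q)⁻¹ := by
  have hg0 : ((g : ℕ) : ZMod q) ≠ 0 := by
    intro h0
    apply hg
    have := (ZMod.natCast_eq_zero_iff g q).mp h0
    exact Nat.mod_eq_zero_of_dvd this
  have h2 : ((c * g : ℕ) : ZMod q) = ((g * g + 1 : ℕ) : ZMod q) := by
    rw [← ZMod.natCast_mod, h, ZMod.natCast_mod]
  push_cast at h2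
  field_simp
  linear_combination h2

end Pool.Agent.TriCos.Eng
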