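import Mathlib

/-!
# Triple cosine products: basic definitions

Angles are measured in half turns: `c2 a = (2 cos (π a))² = |1 + exp (2πia)|²`.
A configuration is `a : Fin 6 → ℚ`; indices `0,1,2` are the left side, `3,4,5` the right side.
-/

namespace Pool.Agent.TriCos

open Finset

/-- the root of unity `exp (2πik/N)` -/
noncomputable def rt (N : ℕ) (k : ℤ) : ℂ :=
  Complex.exp (2 * Real.pi * Complex.I * (k / N))

/-- `(2 cos (π a))²` -/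
noncomputable def c2 (a : ℝ) : ℝ := (2 * Real.cos (Real.pi * a)) ^ 2

/-- the sixteen exponents: `± s₀ ± s₁ ± s₂` and `± s₃ ± s₄ ± s₅` -/
def dot {A : Type*} [AddCommGroup A] (μ : Fin 16) (s : Fin 6 → A) : A :=
  ![s 0 + s 1 + s 2, s 0 + s 1 - s 2, s 0 - s 1 + s 2, s 0 - s 1 - s 2,
    - s 0 + s 1 + s 2, - s 0 + s 1 - s 2, - s 0 - s 1 + s 2, - s 0 - s 1 - s 2,
    s 3 + s 4 + s 5, s 3 + s 4 - s 5, s 3 - s 4 + s 5, s 3 - s 4 - s 5,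
    - s 3 + s 4 + s 5, - s 3 + s 4 - s 5, - s 3 - s 4 + s 5, - s 3 - s 4 - s 5] μ

/-- the sign of a monomial -/
def sg (μ : Fin 16) : ℤ := if μ.val < 8 then 1 else -1

/-- signed sum of `f` over the sixteen exponents -/
noncomputable def asum {A : Type*} [AddCommGroup A] (f : A → ℂ) (s : Fin 6 → A) : ℂ :=
  ∑ μ, (sg μ : ℂ) * f (dot μ s)

/-- the relation `∏ (u_i + u_i⁻¹) = ∏ (v_j + v_j⁻¹)`, `u = rt N (s i)`, written as a vanishing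
sum of sixteen roots of unity -/
def Rel (N : ℕ) (s : Fin 6 → ℤ) : Prop := ∑ μ, (sg μ : ℂ) * rt N (dot μ s) = 0

/-- all factors are nonzero -/
def ND (N : ℕ) (s : Fin 6 → ℤ) : Prop := ∀ i, rt N (s i) + rt N (-s i) ≠ 0

/-- the class sums modulo `Q` vanish -/
def Graded (N Q : ℕ) (s : Fin 6 → ℤ) : Prop :=
  ∀ r : ℤ, ∑ μ ∈ univ.filter (fun μ => (Q : ℤ) ∣ dot μ s - r), (sg μ : ℂ) * rt N (dot μ s) = 0

/-- `rt N k + rt N (-k) = ± 1`, arithmetically -/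
def Third (N : ℕ) (k : ℤ) : Prop := (N : ℤ) ∣ 6 * k ∧ ¬ (N : ℤ) ∣ 2 * k

/-- not isolated, class sum form -/
def NIc (N : ℕ) (s : Fin 6 → ℤ) : Prop :=
  ∃ v : Fin 6 → ℤ, v ≠ 0 ∧ (∀ i, Third N (s i) → v i = 0) ∧
    ∀ c : ℤ, ∑ μ ∈ univ.filter (fun μ => dot μ v = c), (sg μ : ℂ) * rt N (dot μ s) = 0

/-- signed permutation of the six entries -/
def sact {A : Type*} [AddCommGroup A] (σ : Equiv.Perm (Fin 6)) (ε : Fin 6 → ℤˣ)
    (s : Fin 6 → A) : Fin 6 → A := fun i => (ε i : ℤ) • s (σ i)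

/-- side preserving permutations -/
def SP (σ : Equiv.Perm (Fin 6)) : Prop := ∀ i : Fin 6, (i.val < 3 ↔ (σ i).val < 3)

/-- side exchanging permutations -/
def SW (σ : Equiv.Perm (Fin 6)) : Prop := ∀ i : Fin 6, (i.val < 3 ↔ ¬ (σ i).val < 3)

/-- the configuration with angles `s i / m` -/
def ang (m : ℕ) (s : Fin 6 → ℤ) : Fin 6 → ℚ := fun i => (s i : ℚ) / m

/-- a configuration satisfying the product relation -/
def Sol (a : Fin 6 → ℚ) : Prop :=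
  (∀ i, c2 (a i) ≠ 0) ∧ c2 (a 0) * c2 (a 1) * c2 (a 2) = c2 (a 3) * c2 (a 4) * c2 (a 5)

/-- not isolated: the relation persists along a line which moves no entry equal to a third -/
def NI (a : Fin 6 → ℚ) : Prop :=
  ∃ v : Fin 6 → ℤ, v ≠ 0 ∧ (∀ i, c2 (a i) = 1 → v i = 0) ∧
    ∀ θ : ℝ, c2 (a 0 + v 0 * θ) * c2 (a 1 + v 1 * θ) * c2 (a 2 + v 2 * θ)
      = c2 (a 3 + v 3 * θ) * c2 (a 4 + v 4 * θ) * c2 (a 5 + v 5 * θ)

/-- left side values -/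
noncomputable def L3 (a : Fin 6 → ℚ) : Multiset ℝ := {c2 (a 0), c2 (a 1), c2 (a 2)}

/-- right side values -/
noncomputable def R3 (a : Fin 6 → ℚ) : Multiset ℝ := {c2 (a 3), c2 (a 4), c2 (a 5)}

/-- trivial configurations -/
def Triv (a : Fin 6 → ℚ) : Prop := L3 a = R3 a

/-- the same configuration up to signs, integers, permutations and exchange of the sides -/
def Same (a a' : Fin 6 → ℚ) : Prop := (L3 a = L3 a' ∧ R3 a = R3 a') ∨ (L3 a = R3 a' ∧ R3 a = L3 a')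

/-- one side contains `a, a + 1/2`, odd; everything else is even -/
def M20 (m : ℕ) (s : Fin 6 → ℤ) : Prop :=
  (2 * m : ℤ) ∣ 2 * (s 1 - s 0) - m ∧ Odd (s 0) ∧ Odd (s 1) ∧ Even (s 2) ∧ Even (s 3) ∧
    Even (s 4) ∧ Even (s 5)

/-- both sides contain an odd pair `a, a + 1/2` -/
def M22 (m : ℕ) (s : Fin 6 → ℤ) : Prop :=
  (2 * m : ℤ) ∣ 2 * (s 1 - s 0) - m ∧ (2 * m : ℤ) ∣ 2 * (s 4 - s 3) - m ∧
    Odd (s 0) ∧ Odd (s 1) ∧ Even (s 2) ∧ Odd (s 3) ∧ Odd (s 4) ∧ Even (s 5)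

/-- the special configuration `a₀ + a₁ + a₂ = 1/2`, `b₀ + b₁ = a₂`, `b₂ = a₀ - a₁` (modulo 1, with an
even number of sign changes) -/
def Spc (m : ℕ) (s : Fin 6 → ℤ) : Prop :=
  (2 * m : ℤ) ∣ 2 * (s 0 + s 1 + s 2) - m ∧ (m : ℤ) ∣ s 3 + s 4 - s 2 ∧
    (m : ℤ) ∣ s 5 - (s 0 - s 1) ∧ (2 * m : ℤ) ∣ s 3 + s 4 - s 2 + s 5 - s 0 + s 1 ∧ Odd (s 0) ∧ Odd (s 1) ∧ Odd (s 3) ∧ Odd (s 4) ∧
    (4 : ℤ) ∣ s 2 - 2 ∧ (4 : ℤ) ∣ s 5

/-- number of odd entries on the left / right is one of (2,2), (3,1), (1,3), (3,3) -/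
def OddType (s : Fin 6 → ℤ) : Prop :=
  let l := (univ.filter (fun i : Fin 6 => i.val < 3 ∧ Odd (s i))).card
  let r := (univ.filter (fun i : Fin 6 => 3 ≤ i.val ∧ Odd (s i))).card
  (l = 2 ∧ r = 2) ∨ (l = 3 ∧ r = 1) ∨ (l = 1 ∧ r = 3) ∨ (l = 3 ∧ r = 3)

end Pool.Agent.TriCos
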