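import Pool.Agent.Lib_MP_6e4ab6_nt.Full.Conc

/-!
# Lines lift along the doubling, tripling and special maps
-/

namespace Pool.Agent.TriCos

open Finset

/-- `2 cos (π a)` -/
noncomputable def c1 (a : ℝ) : ℝ := 2 * Real.cos (Real.pi * a)

theorem ln_c2_c1 (a : ℝ) : c2 a = c1 a ^ 2 := rfl

theorem c2_double (x : ℝ) : c2 x * c2 (x + 1/2) = c2 (2 * x + 1/2) := by
  unfold c2
  have e1 : Real.pi * (x + 1/2) = Real.pi * x + Real.pi / 2 := by ring
  have e2 : Real.pi * (2 * x + 1/2) = 2 * (Real.pi * x) + Real.pi / 2 := by ring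
  rw [e1, e2, Real.cos_add_pi_div_two, Real.cos_add_pi_div_two, Real.sin_two_mul]
  ring

theorem ln_cos_pi_third : Real.cos (Real.pi / 3) = 1 / 2 := Real.cos_pi_div_three

theorem ln_c2_third : c2 (1/3) = 1 := by
  unfold c2
  have e1 : Real.pi * (1/3) = Real.pi / 3 := by ring
  rw [e1, ln_cos_pi_third]
  norm_num

theorem c2_triple (x : ℝ) : c2 x * c2 (x + 1/3) * c2 (x - 1/3) = c2 (3 * x) := by
  unfold c2
  have e1 : Real.pi * (x + 1/3) = Real.pi * x + Real.pi / 3 := by ring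
  have e2 : Real.pi * (x - 1/3) = Real.pi * x - Real.pi / 3 := by ring
  have e3 : Real.pi * (3 * x) = 3 * (Real.pi * x) := by ring
  rw [e1, e2, e3, Real.cos_add, Real.cos_sub, Real.cos_three_mul, ln_cos_pi_third]
  have hs : Real.sin (Real.pi / 3) ^ 2 = 3 / 4 := by
    have := Real.sin_sq_add_cos_sq (Real.pi / 3)
    rw [ln_cos_pi_third] at this
    linarith
  have hs2 : Real.sin (Real.pi * x) ^ 2 = 1 - Real.cos (Real.pi * x) ^ 2 := by
    have := Real.sin_sq_add_cos_sq (Real.pi * x)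
    linarith
  have key : (Real.cos (Real.pi * x) * (1 / 2) - Real.sin (Real.pi * x) * Real.sin (Real.pi / 3)) *
      (Real.cos (Real.pi * x) * (1 / 2) + Real.sin (Real.pi * x) * Real.sin (Real.pi / 3)) =
      Real.cos (Real.pi * x) ^ 2 - 3 / 4 := by
    linear_combination (-Real.sin (Real.pi * x) ^ 2) * hs - 3 / 4 * hs2
  have : (2 * Real.cos (Real.pi * x)) ^ 2 *
      (2 * (Real.cos (Real.pi * x) * (1 / 2) - Real.sin (Real.pi * x) * Real.sin (Real.pi / 3))) ^ 2 *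
      (2 * (Real.cos (Real.pi * x) * (1 / 2) + Real.sin (Real.pi * x) * Real.sin (Real.pi / 3))) ^ 2 =
      (2 * Real.cos (Real.pi * x)) ^ 2 * 16 *
      ((Real.cos (Real.pi * x) * (1 / 2) - Real.sin (Real.pi * x) * Real.sin (Real.pi / 3)) *
      (Real.cos (Real.pi * x) * (1 / 2) + Real.sin (Real.pi * x) * Real.sin (Real.pi / 3))) ^ 2 := by ring
  rw [this, key]
  ring

theorem ln_c2_neg (x : ℝ) : c2 (-x) = c2 x := by
  unfold c2
  rw [mul_neg, Real.cos_neg]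

theorem ln_c2_add_int (x : ℝ) (n : ℤ) : c2 (x + n) = c2 x := by
  unfold c2
  have e : Real.pi * (x + n) = Real.pi * x + n * Real.pi := by ring
  rw [e, Real.cos_add_int_mul_pi, mul_pow, mul_pow, mul_pow]
  have : ((-1 : ℝ) ^ n) ^ 2 = 1 := by
    rw [← zpow_natCast, ← zpow_mul, mul_comm, zpow_mul]
    norm_num
  rw [this]; ring

/-- equal values: equal up to sign and integers -/
theorem ln_c2_eq_cases {a b : ℝ} (h : c2 a = c2 b) :
    ∃ (ε n : ℤ), (ε = 1 ∨ ε = -1) ∧ a = ε * b + n := by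
  have h1 : Real.cos (2 * (Real.pi * a)) = Real.cos (2 * (Real.pi * b)) := by
    rw [Real.cos_two_mul, Real.cos_two_mul]
    unfold c2 at h
    linear_combination h / 2
  rw [Real.cos_eq_cos_iff] at h1
  obtain ⟨k, h2 | h2⟩ := h1
  · refine ⟨1, -k, Or.inl rfl, ?_⟩
    have : Real.pi * (a - (b - k)) = 0 := by linear_combination -h2 / 2
    have := (mul_eq_zero.mp this).resolve_left Real.pi_ne_zero
    push_cast
    linarith
  · refine ⟨-1, k, Or.inr rfl, ?_⟩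
    have : Real.pi * (a - (k - b)) = 0 := by linear_combination h2 / 2
    have := (mul_eq_zero.mp this).resolve_left Real.pi_ne_zero
    push_cast
    linarith

/-- equal values persist along matching lines -/
theorem ln_c2_line {a b : ℝ} (h : c2 a = c2 b) :
    ∃ ε : ℤ, ε ≠ 0 ∧ ∀ t : ℝ, c2 (a + t) = c2 (b + ε * t) := by
  obtain ⟨ε, n, hε, rfl⟩ := ln_c2_eq_cases h
  refine ⟨ε, by rcases hε with rfl | rfl <;> norm_num, ?_⟩
  intro t
  rcases hε with rfl | rfl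
  · have : ((1 : ℤ) : ℝ) * b + n + t = (b + ((1 : ℤ) : ℝ) * t) + n := by push_cast; ring
    rw [this, ln_c2_add_int]
  · have : ((-1 : ℤ) : ℝ) * b + n + t = -(b + ((-1 : ℤ) : ℝ) * t) + n := by push_cast; ring
    rw [this, ln_c2_add_int, ln_c2_neg]

theorem ln_ni_mk {a0 a1 a2 a3 a4 a5 : ℚ} (v0 v1 v2 v3 v4 v5 : ℤ)
    (hne : ¬ (v0 = 0 ∧ v1 = 0 ∧ v2 = 0 ∧ v3 = 0 ∧ v4 = 0 ∧ v5 = 0))
    (t0 : c2 a0 = 1 → v0 = 0) (t1 : c2 a1 = 1 → v1 = 0) (t2 : c2 a2 = 1 → v2 = 0)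
    (t3 : c2 a3 = 1 → v3 = 0) (t4 : c2 a4 = 1 → v4 = 0) (t5 : c2 a5 = 1 → v5 = 0)
    (h : ∀ θ : ℝ, c2 (a0 + v0 * θ) * c2 (a1 + v1 * θ) * c2 (a2 + v2 * θ) =
      c2 (a3 + v3 * θ) * c2 (a4 + v4 * θ) * c2 (a5 + v5 * θ)) : NI ![a0, a1, a2, a3, a4, a5] := by
  refine ⟨![v0, v1, v2, v3, v4, v5], ?_, ?_, ?_⟩
  · intro h0
    apply hne
    exact ⟨congrFun h0 0, congrFun h0 1, congrFun h0 2, congrFun h0 3, congrFun h0 4, congrFun h0 5⟩
  · intro i
    fin_cases i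
    · exact t0
    · exact t1
    · exact t2
    · exact t3
    · exact t4
    · exact t5
  · exact h

theorem ln_ni_elim {a0 a1 a2 a3 a4 a5 : ℚ} (h : NI ![a0, a1, a2, a3, a4, a5]) :
    ∃ v0 v1 v2 v3 v4 v5 : ℤ, ¬ (v0 = 0 ∧ v1 = 0 ∧ v2 = 0 ∧ v3 = 0 ∧ v4 = 0 ∧ v5 = 0) ∧
    (c2 a0 = 1 → v0 = 0) ∧ (c2 a1 = 1 → v1 = 0) ∧ (c2 a2 = 1 → v2 = 0) ∧
    (c2 a3 = 1 → v3 = 0) ∧ (c2 a4 = 1 → v4 = 0) ∧ (c2 a5 = 1 → v5 = 0) ∧
    (∀ θ : ℝ, c2 (a0 + v0 * θ) * c2 (a1 + v1 * θ) * c2 (a2 + v2 * θ) =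
      c2 (a3 + v3 * θ) * c2 (a4 + v4 * θ) * c2 (a5 + v5 * θ)) := by
  obtain ⟨v, h1, h2, h3⟩ := h
  refine ⟨v 0, v 1, v 2, v 3, v 4, v 5, ?_, h2 0, h2 1, h2 2, h2 3, h2 4, h2 5, h3⟩
  rintro ⟨e0, e1, e2, e3, e4, e5⟩
  apply h1
  funext i
  fin_cases i
  · exact e0
  · exact e1
  · exact e2
  · exact e3
  · exact e4
  · exact e5

theorem ln_triv_iff {a0 a1 a2 a3 a4 a5 : ℚ} (h : Triv ![a0, a1, a2, a3, a4, a5]) :
    ({c2 a0, c2 a1, c2 a2} : Multiset ℝ) = {c2 a3, c2 a4, c2 a5} := h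

theorem ln_c2_thirdQ : c2 ((1/3 : ℚ) : ℝ) = 1 := by
  have : ((1/3 : ℚ) : ℝ) = 1/3 := by push_cast; rfl
  rw [this, ln_c2_third]

/-- build a line in which one left value is matched with one right value -/
theorem ln_right_line {b : Fin 3 → ℚ} {d P : ℝ} (hd : d ≠ 0) (hdt : d ≠ 1)
    (hm : d ∈ ({c2 (b 0), c2 (b 1), c2 (b 2)} : Multiset ℝ))
    (hprod : d * P = c2 (b 0) * c2 (b 1) * c2 (b 2)) (f : ℝ → ℝ)
    (hf : ∀ e : ℝ, c2 e = d → ∃ ε : ℤ, ε ≠ 0 ∧ ∀ θ, f θ = c2 (e + ε * θ)) :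
    ∃ v3 v4 v5 : ℤ, ¬ (v3 = 0 ∧ v4 = 0 ∧ v5 = 0) ∧ (c2 (b 0) = 1 → v3 = 0) ∧
      (c2 (b 1) = 1 → v4 = 0) ∧ (c2 (b 2) = 1 → v5 = 0) ∧
      ∀ θ, f θ * P = c2 (b 0 + v3 * θ) * c2 (b 1 + v4 * θ) * c2 (b 2 + v5 * θ) := by
  simp only [Multiset.insert_eq_cons, Multiset.mem_cons, Multiset.mem_singleton] at hm
  rcases hm with h | h | h
  · obtain ⟨ε, hε, hfe⟩ := hf (b 0) h.symm
    refine ⟨ε, 0, 0, fun h0 => hε h0.1, fun h1 => absurd (h.trans h1) hdt, fun _ => rfl,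
      fun _ => rfl, ?_⟩
    intro θ
    have : P = c2 (b 1) * c2 (b 2) := by
      apply mul_left_cancel₀ hd
      rw [hprod, ← h]; ring
    rw [hfe, this]; simp [mul_assoc]
  · obtain ⟨ε, hε, hfe⟩ := hf (b 1) h.symm
    refine ⟨0, ε, 0, fun h0 => hε h0.2.1, fun _ => rfl, fun h1 => absurd (h.trans h1) hdt,
      fun _ => rfl, ?_⟩
    intro θ
    have : P = c2 (b 0) * c2 (b 2) := by
      apply mul_left_cancel₀ hd
      rw [hprod, ← h]; ring
    rw [hfe, this]; simp; ring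
  · obtain ⟨ε, hε, hfe⟩ := hf (b 2) h.symm
    refine ⟨0, 0, ε, fun h0 => hε h0.2.2, fun _ => rfl, fun _ => rfl,
      fun h1 => absurd (h.trans h1) hdt, ?_⟩
    intro θ
    have : P = c2 (b 0) * c2 (b 1) := by
      apply mul_left_cancel₀ hd
      rw [hprod, ← h]; ring
    rw [hfe, this]; simp; ring

theorem D2_ni (x y : ℚ) (b : Fin 3 → ℚ) (hx : c2 x ≠ 1) (hx' : c2 (x + 1/2) ≠ 1)
    (hs : Sol ![x, x + 1/2, y, b 0, b 1, b 2])
    (h : Triv ![2 * x + 1/2, y, 1/3, b 0, b 1, b 2] ∨ NI ![2 * x + 1/2, y, 1/3, b 0, b 1, b 2]) :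
    NI ![x, x + 1/2, y, b 0, b 1, b 2] ∨
      (c2 (2 * x + 1/2) = 1 ∧ c2 y = 1 ∧ ∀ i, c2 (b i) = 1) := by
  have hx'' : c2 ((x + 1/2 : ℚ) : ℝ) ≠ 1 := by push_cast; exact hx'
  have hdbl : ∀ t : ℝ, c2 (x + t) * c2 (((x + 1/2 : ℚ) : ℝ) + t) = c2 (2 * x + 1/2 + 2 * t) := by
    intro t
    have := c2_double (x + t)
    push_cast
    rw [show (x : ℝ) + 1/2 + t = x + t + 1/2 by ring, this]
    congr 1; ring
  have hsol : c2 x * c2 ((x + 1/2 : ℚ) : ℝ) * c2 y = c2 (b 0) * c2 (b 1) * c2 (b 2) := hs.2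
  have n0 : c2 x ≠ 0 := hs.1 0
  have n1 : c2 ((x + 1/2 : ℚ) : ℝ) ≠ 0 := hs.1 1
  have n2 : c2 y ≠ 0 := hs.1 2
  have hd0 := hdbl 0
  simp only [add_zero, mul_zero] at hd0
  have nd : c2 (2 * x + 1/2) ≠ 0 := by rw [← hd0]; exact mul_ne_zero n0 n1
  rcases h with h | h
  · have h1 := ln_triv_iff h
    rw [ln_c2_thirdQ] at h1
    have hcast : ((2 * x + 1/2 : ℚ) : ℝ) = 2 * x + 1/2 := by push_cast; ring
    rw [hcast] at h1
    by_cases hd : c2 (2 * x + 1/2) = 1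
    · by_cases hy : c2 y = 1
      · right
        refine ⟨hd, hy, ?_⟩
        rw [hd, hy] at h1
        have : ∀ z ∈ ({c2 (b 0), c2 (b 1), c2 (b 2)} : Multiset ℝ), z = 1 := by
          intro z hz
          rw [← h1] at hz
          simpa using hz
        intro i
        fin_cases i
        · exact this _ (by simp)
        · exact this _ (by simp)
        · exact this _ (by simp)
      · left
        have hmem : c2 y ∈ ({c2 (b 0), c2 (b 1), c2 (b 2)} : Multiset ℝ) := by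
          rw [← h1]; simp
        obtain ⟨v3, v4, v5, q0, q1, q2, q3, q4⟩ := ln_right_line (b := b) (d := c2 y)
          (P := c2 x * c2 ((x + 1/2 : ℚ) : ℝ)) n2 hy hmem (by rw [← hsol]; ring)
          (fun θ => c2 (y + θ)) (fun e he => ln_c2_line he.symm)
        refine ln_ni_mk 0 0 1 v3 v4 v5 (by simp) (fun _ => rfl) (fun _ => rfl)
          (fun h => absurd h hy) q1 q2 q3 ?_
        intro θ
        rw [← q4 θ]
        simp only [Int.cast_zero, zero_mul, add_zero, Int.cast_one, one_mul]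
        ring
    · left
      have hmem : c2 (2 * x + 1/2) ∈ ({c2 (b 0), c2 (b 1), c2 (b 2)} : Multiset ℝ) := by
        rw [← h1]; simp
      obtain ⟨v3, v4, v5, q0, q1, q2, q3, q4⟩ := ln_right_line (b := b) (d := c2 (2 * x + 1/2))
        (P := c2 y) nd hd hmem (by rw [← hsol, ← hd0])
        (fun θ => c2 (2 * x + 1/2 + 2 * θ)) (by
          intro e he
          obtain ⟨ε, hε, h2⟩ := ln_c2_line he.symm
          refine ⟨ε * 2, mul_ne_zero hε (by norm_num), ?_⟩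
          intro θ
          rw [h2]
          congr 1
          push_cast; ring)
      refine ln_ni_mk 1 1 0 v3 v4 v5 (by simp) (fun h => absurd h hx) (fun h => absurd h hx'')
        (fun _ => rfl) q1 q2 q3 ?_
      intro θ
      rw [← q4 θ]
      simp only [Int.cast_zero, zero_mul, add_zero, Int.cast_one, one_mul]
      rw [hdbl]
  · left
    obtain ⟨v0, v1, v2, v3, v4, v5, h0, k0, k1, k2, k3, k4, k5, h1⟩ := ln_ni_elim h
    have hv2 : v2 = 0 := k2 ln_c2_thirdQ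
    refine ln_ni_mk v0 v0 (2 * v1) (2 * v3) (2 * v4) (2 * v5) ?_ (fun h => absurd h hx)
      (fun h => absurd h hx'') (fun h => by rw [k1 h]; rfl) (fun h => by rw [k3 h]; rfl)
      (fun h => by rw [k4 h]; rfl) (fun h => by rw [k5 h]; rfl) ?_
    · rintro ⟨e0, _, e1, e3, e4, e5⟩
      exact h0 ⟨e0, by omega, hv2, by omega, by omega, by omega⟩
    · intro θ
      have h2 := h1 (2 * θ)
      rw [hv2, Int.cast_zero, zero_mul, add_zero, ln_c2_thirdQ, mul_one] at h2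
      have h3 := hdbl (v0 * θ)
      rw [h3]
      have hcast : ((2 * x + 1/2 : ℚ) : ℝ) = 2 * x + 1/2 := by push_cast; ring
      rw [hcast] at h2
      have e0 : (v0 : ℝ) * (2 * θ) = 2 * (v0 * θ) := by ring
      have e1 : (v1 : ℝ) * (2 * θ) = ((2 * v1 : ℤ) : ℝ) * θ := by push_cast; ring
      have e3 : (v3 : ℝ) * (2 * θ) = ((2 * v3 : ℤ) : ℝ) * θ := by push_cast; ring
      have e4 : (v4 : ℝ) * (2 * θ) = ((2 * v4 : ℤ) : ℝ) * θ := by push_cast; ring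
      have e5 : (v5 : ℝ) * (2 * θ) = ((2 * v5 : ℤ) : ℝ) * θ := by push_cast; ring
      rw [e0, e1, e3, e4, e5] at h2
      exact h2

theorem T3_ni (x : ℚ) (b : Fin 3 → ℚ) (hx : c2 x ≠ 1) (hx' : c2 (x + 1/3) ≠ 1)
    (hx'' : c2 (x - 1/3) ≠ 1) (hs : Sol ![x, x + 1/3, x - 1/3, b 0, b 1, b 2])
    (h : Triv ![3 * x, 1/3, 1/3, b 0, b 1, b 2] ∨ NI ![3 * x, 1/3, 1/3, b 0, b 1, b 2]) :
    NI ![x, x + 1/3, x - 1/3, b 0, b 1, b 2] ∨ (c2 (3 * x) = 1 ∧ ∀ i, c2 (b i) = 1) := by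
  have hxa : c2 ((x + 1/3 : ℚ) : ℝ) ≠ 1 := by push_cast; exact hx'
  have hxb : c2 ((x - 1/3 : ℚ) : ℝ) ≠ 1 := by push_cast; exact hx''
  have htri : ∀ t : ℝ, c2 (x + t) * c2 (((x + 1/3 : ℚ) : ℝ) + t) * c2 (((x - 1/3 : ℚ) : ℝ) + t) =
      c2 (3 * x + 3 * t) := by
    intro t
    have := c2_triple (x + t)
    push_cast
    rw [show (x : ℝ) + 1/3 + t = x + t + 1/3 by ring, show (x : ℝ) - 1/3 + t = x + t - 1/3 by ring,
      this]
    congr 1; ring
  have hsol : c2 x * c2 ((x + 1/3 : ℚ) : ℝ) * c2 ((x - 1/3 : ℚ) : ℝ) =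
    c2 (b 0) * c2 (b 1) * c2 (b 2) := hs.2
  have n0 : c2 x ≠ 0 := hs.1 0
  have n1 : c2 ((x + 1/3 : ℚ) : ℝ) ≠ 0 := hs.1 1
  have n2 : c2 ((x - 1/3 : ℚ) : ℝ) ≠ 0 := hs.1 2
  have hd0 := htri 0
  simp only [add_zero, mul_zero] at hd0
  have nd : c2 (3 * x) ≠ 0 := by rw [← hd0]; exact mul_ne_zero (mul_ne_zero n0 n1) n2
  have hcast : ((3 * x : ℚ) : ℝ) = 3 * x := by push_cast; ring
  rcases h with h | h
  · have h1 := ln_triv_iff h
    rw [ln_c2_thirdQ, hcast] at h1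
    by_cases hd : c2 (3 * x) = 1
    · right
      refine ⟨hd, ?_⟩
      rw [hd] at h1
      have : ∀ z ∈ ({c2 (b 0), c2 (b 1), c2 (b 2)} : Multiset ℝ), z = 1 := by
        intro z hz
        rw [← h1] at hz
        simpa using hz
      intro i
      fin_cases i
      · exact this _ (by simp)
      · exact this _ (by simp)
      · exact this _ (by simp)
    · left
      have hmem : c2 (3 * x) ∈ ({c2 (b 0), c2 (b 1), c2 (b 2)} : Multiset ℝ) := by
        rw [← h1]; simp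
      obtain ⟨v3, v4, v5, q0, q1, q2, q3, q4⟩ := ln_right_line (b := b) (d := c2 (3 * x))
        (P := 1) nd hd hmem (by rw [← hsol, ← hd0, mul_one])
        (fun θ => c2 (3 * x + 3 * θ)) (by
          intro e he
          obtain ⟨ε, hε, h2⟩ := ln_c2_line he.symm
          refine ⟨ε * 3, mul_ne_zero hε (by norm_num), ?_⟩
          intro θ
          rw [h2]
          congr 1
          push_cast; ring)
      refine ln_ni_mk 1 1 1 v3 v4 v5 (by simp) (fun h => absurd h hx) (fun h => absurd h hxa)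
        (fun h => absurd h hxb) q1 q2 q3 ?_
      intro θ
      rw [← q4 θ]
      simp only [Int.cast_one, one_mul, mul_one]
      rw [htri]
  · left
    obtain ⟨v0, v1, v2, v3, v4, v5, h0, k0, k1, k2, k3, k4, k5, h1⟩ := ln_ni_elim h
    have hv2 : v2 = 0 := k2 ln_c2_thirdQ
    have hv1 : v1 = 0 := k1 ln_c2_thirdQ
    refine ln_ni_mk v0 v0 v0 (3 * v3) (3 * v4) (3 * v5) ?_ (fun h => absurd h hx)
      (fun h => absurd h hxa) (fun h => absurd h hxb) (fun h => by rw [k3 h]; rfl)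
      (fun h => by rw [k4 h]; rfl) (fun h => by rw [k5 h]; rfl) ?_
    · rintro ⟨e0, _, _, e3, e4, e5⟩
      exact h0 ⟨e0, hv1, hv2, by omega, by omega, by omega⟩
    · intro θ
      have h2 := h1 (3 * θ)
      rw [hv2, hv1, Int.cast_zero, zero_mul, add_zero, ln_c2_thirdQ, mul_one, mul_one] at h2
      have h3 := htri (v0 * θ)
      rw [h3]
      rw [hcast] at h2
      have e0 : (v0 : ℝ) * (3 * θ) = 3 * (v0 * θ) := by ring
      have e3 : (v3 : ℝ) * (3 * θ) = ((3 * v3 : ℤ) : ℝ) * θ := by push_cast; ring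
      have e4 : (v4 : ℝ) * (3 * θ) = ((3 * v4 : ℤ) : ℝ) * θ := by push_cast; ring
      have e5 : (v5 : ℝ) * (3 * θ) = ((3 * v5 : ℤ) : ℝ) * θ := by push_cast; ring
      rw [e0, e3, e4, e5] at h2
      exact h2

/-! ### the special map -/

theorem ln_c1_mul (a b : ℝ) : c1 a * c1 b = c1 (a + b) + c1 (a - b) := by
  unfold c1
  have e1 : Real.pi * (a + b) = Real.pi * a + Real.pi * b := by ring
  have e2 : Real.pi * (a - b) = Real.pi * a - Real.pi * b := by ring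
  rw [e1, e2, Real.cos_add, Real.cos_sub]
  ring

theorem ln_c1_half (w : ℝ) : c1 (1/2 - w) = 2 * Real.sin (Real.pi * w) := by
  unfold c1
  have e1 : Real.pi * (1/2 - w) = Real.pi / 2 - Real.pi * w := by ring
  rw [e1, Real.cos_pi_div_two_sub]

theorem ln_c1_half_mul (w : ℝ) : c1 (1/2 - w) * c1 w = c1 (1/2 - 2 * w) := by
  rw [ln_c1_half, ln_c1_half]
  unfold c1
  have e1 : Real.pi * (2 * w) = 2 * (Real.pi * w) := by ring
  rw [e1, Real.sin_two_mul]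
  ring

/-- the algebra of the special map -/
theorem ln_sp_alg (x y w z : ℝ) (hw : w = 1/2 - x - y) :
    c1 x * c1 y * c1 w - c1 z * c1 (w - z) * c1 (x - y) =
      c1 (1/2 - 2 * w) - c1 (2 * z - w) * c1 (x - y) := by
  have h1 := ln_c1_mul x y
  have h2 := ln_c1_mul z (w - z)
  have h3 : x + y = 1/2 - w := by rw [hw]; ring
  have h4 : z + (w - z) = w := by ring
  have h5 : z - (w - z) = 2 * z - w := by ring
  rw [h3] at h1
  rw [h4, h5] at h2
  have h6 := ln_c1_half_mul w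
  linear_combination (c1 w) * h1 - (c1 (x - y)) * h2 + h6

theorem Sp_sol (x y w z : ℚ) (hw : w = 1/2 - x - y) (hsin : Real.sin (Real.pi * w) ≠ 0)
    (hn : c1 x ≠ 0 ∧ c1 y ≠ 0 ∧ c1 w ≠ 0 ∧ c1 z ≠ 0 ∧ c1 (w - z) ≠ 0 ∧ c1 (x - y) ≠ 0)
    (h : c1 x * c1 y * c1 w = c1 z * c1 (w - z) * c1 (x - y)) :
    Sol ![1/2 - 2 * w, 1/3, 1/3, 2 * z - w, x - y, 1/3] := by
  have hw' : (w : ℝ) = 1/2 - x - y := by rw [hw]; push_cast; ring
  have h1 := ln_sp_alg x y w z hw'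
  rw [h, sub_self] at h1
  have h2 : c1 (1/2 - 2 * (w : ℝ)) = c1 (2 * z - w) * c1 (x - y) := by linear_combination -h1
  have h3 : c1 (1/2 - 2 * (w : ℝ)) ≠ 0 := by
    rw [← ln_c1_half_mul, ln_c1_half]
    exact mul_ne_zero (mul_ne_zero two_ne_zero hsin) hn.2.2.1
  have h4 : c1 (2 * (z : ℝ) - w) ≠ 0 := by
    intro h0
    rw [h2, h0, zero_mul] at h3
    exact h3 rfl
  have q0 : ((1/2 - 2 * w : ℚ) : ℝ) = 1/2 - 2 * w := by push_cast; ring
  have q3 : ((2 * z - w : ℚ) : ℝ) = 2 * z - w := by push_cast; ring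
  have q4 : ((x - y : ℚ) : ℝ) = x - y := by push_cast; ring
  refine ⟨?_, ?_⟩
  · intro i
    have t1 : c2 ((1/3 : ℚ) : ℝ) ≠ 0 := by rw [ln_c2_thirdQ]; norm_num
    fin_cases i
    · change c2 ((1/2 - 2 * w : ℚ) : ℝ) ≠ 0
      rw [q0, ln_c2_c1]; exact pow_ne_zero 2 h3
    · exact t1
    · exact t1
    · change c2 ((2 * z - w : ℚ) : ℝ) ≠ 0
      rw [q3, ln_c2_c1]; exact pow_ne_zero 2 h4
    · change c2 ((x - y : ℚ) : ℝ) ≠ 0
      rw [q4, ln_c2_c1]; exact pow_ne_zero 2 hn.2.2.2.2.2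
    · exact t1
  · change c2 ((1/2 - 2 * w : ℚ) : ℝ) * c2 ((1/3 : ℚ) : ℝ) * c2 ((1/3 : ℚ) : ℝ) =
      c2 ((2 * z - w : ℚ) : ℝ) * c2 ((x - y : ℚ) : ℝ) * c2 ((1/3 : ℚ) : ℝ)
    rw [q0, q3, q4, ln_c2_thirdQ, ln_c2_c1, ln_c2_c1, ln_c2_c1, h2]
    ring

theorem ln_c1_analytic (a v : ℝ) : AnalyticOnNhd ℝ (fun t : ℝ => c1 (a + v * t)) Set.univ := by
  have h : AnalyticOnNhd ℝ (fun t : ℝ => Real.pi * (a + v * t)) Set.univ := by
    intro t _
    exact analyticAt_const.mul (analyticAt_const.add (analyticAt_const.mul analyticAt_id))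
  have h2 : AnalyticOnNhd ℝ (fun t : ℝ => Real.cos (Real.pi * (a + v * t))) Set.univ := by
    intro t ht
    exact (Real.analyticAt_cos).comp' (h t ht)
  intro t ht
  exact analyticAt_const.mul (h2 t ht)

/-- equal squares and equal nonzero values at `0`: equal -/
theorem ln_sq_analytic {f g : ℝ → ℝ} (hf : AnalyticOnNhd ℝ f Set.univ) (hg : AnalyticOnNhd ℝ g Set.univ)
    (h : ∀ t, f t ^ 2 = g t ^ 2) (h0 : f 0 = g 0) (hne : f 0 ≠ 0) : ∀ t, f t = g t := by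
  have hsub : AnalyticOnNhd ℝ (fun t => f t - g t) Set.univ := fun t ht => (hf t ht).sub (hg t ht)
  have hadd : ContinuousAt (fun t => f t + g t) 0 :=
    ((hf 0 trivial).add (hg 0 trivial)).continuousAt
  have h1 : ∀ᶠ t in nhds (0 : ℝ), f t + g t ≠ 0 := by
    apply hadd.eventually_ne
    intro h2
    apply hne
    have h2' : f 0 + g 0 = 0 := h2
    linarith
  have h2 : (fun t => f t - g t) =ᶠ[nhds (0 : ℝ)] 0 := by
    filter_upwards [h1] with t ht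
    have : (f t - g t) * (f t + g t) = 0 := by linear_combination h t
    exact (mul_eq_zero.mp this).resolve_right ht
  have h3 := hsub.eqOn_zero_of_preconnected_of_eventuallyEq_zero isPreconnected_univ trivial h2
  intro t
  exact sub_eq_zero.mp (h3 (Set.mem_univ t))

theorem ln_sp_line (x y w z : ℚ) (hw : w = 1/2 - x - y) (hsin : Real.sin (Real.pi * w) ≠ 0)
    (hn : c1 x ≠ 0 ∧ c1 y ≠ 0 ∧ c1 w ≠ 0 ∧ c1 z ≠ 0 ∧ c1 (w - z) ≠ 0 ∧ c1 (x - y) ≠ 0)
    (h : c1 x * c1 y * c1 w = c1 z * c1 (w - z) * c1 (x - y))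
    (hx : c2 x ≠ 1) (hy : c2 y ≠ 1) (hw1 : c2 w ≠ 1) (hz : c2 z ≠ 1) (hz' : c2 (w - z) ≠ 1)
    (p q r : ℤ) (hne : ¬ (p = 0 ∧ q = 0 ∧ r = 0)) (h5 : c2 (x - y) = 1 → r = 0)
    (hl : ∀ t : ℝ, c2 (1/2 - 2 * w + p * t) = c2 (2 * z - w + q * t) * c2 (x - y + r * t)) :
    NI ![x, y, w, z, w - z, x - y] := by
  have hw' : (w : ℝ) = 1/2 - x - y := by rw [hw]; push_cast; ring
  have h1 := ln_sp_alg x y w z hw'
  rw [h, sub_self] at h1
  have h2 : c1 (1/2 - 2 * (w : ℝ)) = c1 (2 * z - w) * c1 (x - y) := by linear_combination -h1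
  have h3 : c1 (1/2 - 2 * (w : ℝ)) ≠ 0 := by
    rw [← ln_c1_half_mul, ln_c1_half]
    exact mul_ne_zero (mul_ne_zero two_ne_zero hsin) hn.2.2.1
  have hc1 : ∀ t : ℝ, c1 (1/2 - 2 * w + p * t) = c1 (2 * z - w + q * t) * c1 (x - y + r * t) := by
    apply ln_sq_analytic (f := fun t => c1 (1/2 - 2 * w + p * t))
      (g := fun t => c1 (2 * z - w + q * t) * c1 (x - y + r * t))
    · exact ln_c1_analytic _ _
    · intro t ht
      exact (ln_c1_analytic _ _ t ht).mul (ln_c1_analytic _ _ t ht)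
    · intro t
      have := hl t
      rw [ln_c2_c1, ln_c2_c1, ln_c2_c1] at this
      rw [this]; ring
    · simpa using h2
    · simpa using h3
  have q4 : ((x - y : ℚ) : ℝ) = x - y := by push_cast; ring
  have q5 : ((w - z : ℚ) : ℝ) = w - z := by push_cast; ring
  refine ln_ni_mk (p + 2 * r) (p - 2 * r) (-2 * p) (2 * q - p) (-p - 2 * q) (4 * r) ?_
    (fun h => absurd h hx) (fun h => absurd h hy) (fun h => absurd h hw1) (fun h => absurd h hz)
    (fun h => absurd h (by rw [q5]; exact hz')) (fun h => by rw [h5 (by rw [← q4]; exact h)]; rfl) ?_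
  · rintro ⟨e0, e1, e2, e3, e4, e5⟩
    exact hne ⟨by omega, by omega, by omega⟩
  · intro θ
    have h6 := ln_sp_alg (x + (p + 2 * r) * θ) (y + (p - 2 * r) * θ) (w + (-2 * p) * θ)
      (z + (2 * q - p) * θ) (by rw [hw']; ring)
    have h7 := hc1 (4 * θ)
    have k0 : (1:ℝ)/2 - 2 * (w + (-2 * p) * θ) = 1/2 - 2 * w + p * (4 * θ) := by ring
    have k1 : 2 * ((z : ℝ) + (2 * q - p) * θ) - (w + (-2 * p) * θ) = 2 * z - w + q * (4 * θ) := by ring
    have k2 : (x : ℝ) + (p + 2 * r) * θ - (y + (p - 2 * r) * θ) = x - y + r * (4 * θ) := by ring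
    have k3 : (w : ℝ) + (-2 * p) * θ - (z + (2 * q - p) * θ) = w - z + (-p - 2 * q) * θ := by ring
    rw [k0, k1, k2, k3, h7, sub_self] at h6
    have h8 := sub_eq_zero.mp h6
    rw [q4, q5]
    push_cast
    have k4 : (x : ℝ) - y + 4 * r * θ = x - y + r * (4 * θ) := by ring
    rw [k4]
    simp only [ln_c2_c1]
    rw [← mul_pow, ← mul_pow, ← mul_pow, ← mul_pow, h8]

theorem Sp_ni (x y w z : ℚ) (hw : w = 1/2 - x - y) (hsin : Real.sin (Real.pi * w) ≠ 0)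
    (hn : c1 x ≠ 0 ∧ c1 y ≠ 0 ∧ c1 w ≠ 0 ∧ c1 z ≠ 0 ∧ c1 (w - z) ≠ 0 ∧ c1 (x - y) ≠ 0)
    (h : c1 x * c1 y * c1 w = c1 z * c1 (w - z) * c1 (x - y))
    (hx : c2 x ≠ 1) (hy : c2 y ≠ 1) (hw1 : c2 w ≠ 1) (hz : c2 z ≠ 1) (hz' : c2 (w - z) ≠ 1)
    (hl : Triv ![1/2 - 2 * w, 1/3, 1/3, 2 * z - w, x - y, 1/3] ∨
      NI ![1/2 - 2 * w, 1/3, 1/3, 2 * z - w, x - y, 1/3]) :
    NI ![x, y, w, z, w - z, x - y] := by
  have q0 : ((1/2 - 2 * w : ℚ) : ℝ) = 1/2 - 2 * w := by push_cast; ring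
  have q3 : ((2 * z - w : ℚ) : ℝ) = 2 * z - w := by push_cast; ring
  have q4 : ((x - y : ℚ) : ℝ) = x - y := by push_cast; ring
  rcases hl with hl | hl
  · have h1 := ln_triv_iff hl
    rw [q0, q3, q4, ln_c2_thirdQ] at h1
    -- cancel one `1`
    have h2 : ({c2 (1/2 - 2 * (w : ℝ)), 1} : Multiset ℝ) = {c2 (2 * z - w), c2 (x - y)} := by
      have e1 : ({c2 (1/2 - 2 * (w : ℝ)), 1, 1} : Multiset ℝ) =
          1 ::ₘ ({c2 (1/2 - 2 * (w : ℝ)), 1} : Multiset ℝ) := Multiset.cons_swap _ _ _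
      have e2 : ({c2 (2 * z - w), c2 (x - y), 1} : Multiset ℝ) =
          1 ::ₘ ({c2 (2 * z - w), c2 (x - y)} : Multiset ℝ) := by
        change (c2 (2 * z - w)) ::ₘ ((c2 (x - y)) ::ₘ (1 ::ₘ (0 : Multiset ℝ))) =
          1 ::ₘ ((c2 (2 * z - w)) ::ₘ ((c2 (x - y)) ::ₘ (0 : Multiset ℝ)))
        rw [Multiset.cons_swap (c2 (x - y)) 1, Multiset.cons_swap (c2 (2 * z - w)) 1]
      rw [e1, e2] at h1
      exact (Multiset.cons_inj_right 1).mp h1
    have h3 : (c2 (1/2 - 2 * (w : ℝ)) = c2 (2 * z - w) ∧ c2 (x - y) = 1) ∨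
        (c2 (1/2 - 2 * (w : ℝ)) = c2 (x - y) ∧ c2 (2 * z - w) = 1) := by
      rcases Multiset.cons_eq_cons.mp h2 with ⟨h4, h5⟩ | ⟨_, cs, h4, h5⟩
      · exact Or.inl ⟨h4, (Multiset.singleton_inj.mp h5).symm⟩
      · have h6 : cs = 0 := by
          have := congrArg Multiset.card h4
          simp at this
          exact this
        rw [h6] at h4 h5
        right
        exact ⟨(Multiset.singleton_inj.mp h5).symm, (Multiset.singleton_inj.mp h4).symm⟩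
    by_cases h4 : c2 ((x : ℝ) - y) = 1
    · have h5 : c2 (1/2 - 2 * (w : ℝ)) = c2 (2 * z - w) := by
        rcases h3 with h3 | h3
        · exact h3.1
        · rw [h3.1, h3.2, h4]
      obtain ⟨ε, hε, h6⟩ := ln_c2_line h5
      apply ln_sp_line x y w z hw hsin hn h hx hy hw1 hz hz' 1 ε 0 (by simp) (fun _ => rfl)
      intro t
      have := h6 t
      simp only [Int.cast_one, one_mul, Int.cast_zero, zero_mul, add_zero, h4, mul_one]
      exact this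
    · rcases h3 with h3 | h3
      · exact absurd h3.2 h4
      · obtain ⟨ε, hε, h6⟩ := ln_c2_line h3.1
        apply ln_sp_line x y w z hw hsin hn h hx hy hw1 hz hz' 1 0 ε (by simp) (fun h => absurd h h4)
        intro t
        have := h6 t
        simp only [Int.cast_one, one_mul, Int.cast_zero, zero_mul, add_zero, h3.2]
        exact this
  · obtain ⟨v0, v1, v2, v3, v4, v5, h0, k0, k1, k2, k3, k4, k5, h1⟩ := ln_ni_elim hl
    have hv1 : v1 = 0 := k1 ln_c2_thirdQ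
    have hv2 : v2 = 0 := k2 ln_c2_thirdQ
    have hv5 : v5 = 0 := k5 ln_c2_thirdQ
    apply ln_sp_line x y w z hw hsin hn h hx hy hw1 hz hz' v0 v3 v4
    · rintro ⟨e0, e3, e4⟩
      exact h0 ⟨e0, hv1, hv2, e3, e4, hv5⟩
    · intro h5
      exact k4 (by rw [q4]; exact h5)
    · intro t
      have h2 := h1 t
      rw [hv1, hv2, hv5, Int.cast_zero, zero_mul, add_zero, ln_c2_thirdQ, mul_one, mul_one, mul_one,
        q0, q3, q4] at h2
      exact h2

end Pool.Agent.TriCos
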