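import Pool.Agent.Lib_MP_6e4ab6_nt.Full.EngMain
import Pool.Agent.Lib_MP_6e4ab6_nt.Full.LiftNI

/-! Common tools for the closure of the table under lifts. -/

namespace Pool.Agent.TriCos

open Finset

/-- every rational configuration has a level -/
theorem exists_level (a : Fin 6 → ℚ) (n : ℕ) (hn : 0 < n) :
    ∃ (M : ℕ) (s : Fin 6 → ℤ), 0 < M ∧ n ∣ M ∧ a = ang M s := by
  have hden : ∀ i, 0 < (a i).den := fun i => (a i).den_pos
  have hP : 0 < ∏ i, (a i).den := Finset.prod_pos fun i _ => hden i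
  refine ⟨n * ∏ i, (a i).den, fun i => (a i).num * ((n * ∏ i, (a i).den) / (a i).den : ℕ),
    Nat.mul_pos hn hP, dvd_mul_right _ _, ?_⟩
  funext i
  unfold ang
  have hd : (a i).den ∣ n * ∏ i, (a i).den :=
    (Finset.dvd_prod_of_mem (fun i => (a i).den) (Finset.mem_univ i)).mul_left n
  obtain ⟨c, hc⟩ := hd
  show a i = (((a i).num * ((n * ∏ i, (a i).den) / (a i).den : ℕ) : ℤ) : ℚ) / ((n * ∏ i, (a i).den : ℕ) : ℚ)
  rw [hc, Nat.mul_div_cancel_left _ (hden i)]
  have hc0 : c ≠ 0 := by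
    rintro rfl
    rw [mul_zero] at hc
    exact (Nat.mul_pos hn hP).ne' hc
  have h1 : (a i) = (a i).num / (a i).den := (Rat.num_div_den _).symm
  have h2 : ((a i).den : ℚ) ≠ 0 := Nat.cast_ne_zero.2 (hden i).ne'
  have h3 : (c : ℚ) ≠ 0 := Nat.cast_ne_zero.2 hc0
  push_cast
  rw [mul_div_mul_right _ _ h3]
  exact h1

theorem same_of_vals (a a' : Fin 6 → ℚ) (h : ∀ i, c2 (a i : ℝ) = c2 (a' i : ℝ)) : Same a a' := by
  left
  unfold L3 R3
  simp only [h, and_self]

theorem same_mul (a a' : Fin 6 → ℚ) (w : ℤ) (h : Same a a') :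
    Same (fun i => (w : ℚ) * a i) (fun i => (w : ℚ) * a' i) := by
  have hL : ∀ b : Fin 6 → ℚ, L3 (fun i => (w : ℚ) * b i) = (L3 b).map (gc_Fu w) := by
    intro b
    unfold L3
    simp only [Rat.cast_mul, Rat.cast_intCast, gc_c2_mul, Multiset.insert_eq_cons,
      Multiset.map_cons, Multiset.map_singleton]
  have hR : ∀ b : Fin 6 → ℚ, R3 (fun i => (w : ℚ) * b i) = (R3 b).map (gc_Fu w) := by
    intro b
    unfold R3
    simp only [Rat.cast_mul, Rat.cast_intCast, gc_c2_mul, Multiset.insert_eq_cons,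
      Multiset.map_cons, Multiset.map_singleton]
  unfold Same at *
  rw [hL, hL, hR, hR]
  rcases h with ⟨h1, h2⟩ | ⟨h1, h2⟩
  · left; rw [h1, h2]; exact ⟨rfl, rfl⟩
  · right; rw [h1, h2]; exact ⟨rfl, rfl⟩

/-- reduction to the multiplier one by a Galois conjugation -/
theorem gal_reduce (a : Fin 6 → ℚ) (n : ℕ) (hn : 0 < n) (u : ℤ) (hu : IsCoprime u (2 * n : ℤ)) :
    ∃ w : ℤ, IsCoprime w 6 ∧ (n : ℤ) ∣ w * u - 1 ∧ (Concl (fun i => (w : ℚ) * a i) → Concl a) := by
  obtain ⟨M, s, hM, hd, rfl⟩ := exists_level a (3 * n) (by omega)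
  have hu' : IsCoprime u ((2 * n : ℕ) : ℤ) := by exact_mod_cast hu
  obtain ⟨v, hv1, hv2⟩ := gc_inv_mod (2 * n) u hu'
  have hd2 : 2 * n ∣ 2 * M := Nat.mul_dvd_mul_left 2 ((dvd_mul_left n 3).trans hd)
  obtain ⟨w, hw1, hw2⟩ := Eng.lift_unit' (2 * n) (2 * M) (by omega) hd2 v hv1
  have hw2' : IsCoprime w (2 * M : ℤ) := by exact_mod_cast hw2
  refine ⟨w, ?_, ?_, ?_⟩
  · obtain ⟨c, hc⟩ := (dvd_mul_right 3 n).trans hd
    have : (2 * M : ℤ) = 6 * c := by rw [hc]; push_cast; ring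
    rw [this] at hw2'
    exact hw2'.of_mul_right_left
  · have h1 : (n : ℤ) ∣ ((2 * n : ℕ) : ℤ) := by push_cast; exact dvd_mul_left _ _
    have h2 : w * u - 1 = (w - v) * u + (v * u - 1) := by ring
    rw [h2]
    exact dvd_add ((h1.trans hw1).mul_right u) (h1.trans hv2)
  · intro h
    apply concl_galois' M hM s w hw2'
    have e : ang M (fun i => w * s i) = fun i => (w : ℚ) * ang M s i := by
      funext i; unfold ang; push_cast; ring
    rw [e]; exact h

/-- a table configuration can be conjugated to the representative -/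
theorem tab_reduce (low up : Fin 6 → ℚ) (h : Tab low) :
    ∃ r ∈ tab, ∃ w : ℤ, IsCoprime w 6 ∧ Same (fun i => (w : ℚ) * low i) (ang r.1 (rep r)) ∧
      (Concl (fun i => (w : ℚ) * up i) → Concl up) := by
  obtain ⟨r, hr, u, hu, hS⟩ := h
  have hr0 : 0 < r.1 := gc_tab_pos r hr
  obtain ⟨w, hw6, hwd, hC⟩ := gal_reduce up r.1 hr0 u hu
  refine ⟨r, hr, w, hw6, ?_, hC⟩
  have h1 := same_mul _ _ w hS
  refine same_trans _ _ _ h1 ?_
  have e : (fun i => (w : ℚ) * ang r.1 (fun i => u * rep r i) i) = ang r.1 (fun i => w * (u * rep r i)) := by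
    funext i; unfold ang; push_cast; ring
  rw [e]
  apply same_of_dvd r.1 hr0
  intro i
  left
  have : w * (u * rep r i) - rep r i = (w * u - 1) * rep r i := by ring
  rw [this]
  exact hwd.mul_right _

namespace Eng

noncomputable section

/-- verified conclusion for six exponents (at most `L`) at level `L`; `d` is a certificate -/
def certOK (steps : NL) (L x0 x1 x2 x3 x4 x5 d : Nat) : Bool :=
  or' (same3 (fold L x0) (fold L x1) (fold L x2) (fold L x3) (fold L x4) (fold L x5))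
    (Bool.rec (motive := fun _ => Bool)
      (niOK steps (Nat.mul 2 L) x0 x1 x2 x3 x4 (Nat.add x5 (Nat.mul L (Nat.mod (Nat.div d 2) 2)))
        (Nat.mod (Nat.div d 4) 64) (Nat.mod (Nat.div d 256) 64) (Nat.mod (Nat.div d 16384) 64)
        (Nat.mod (Nat.div d 1048576) 64) (Nat.mod (Nat.div d 67108864) 64)
        (Nat.mod (Nat.div d 4294967296) 64))
      (tabOK tbl L (fold L x0) (fold L x1) (fold L x2) (fold L x3) (fold L x4) (fold L x5)
        (Nat.mod (Nat.div d 2) 1024) (Nat.div d 2048))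
      (Nat.beq (Nat.mod d 2) 1))

end

theorem same_fold (L : ℕ) (hL : 0 < L) (x0 x1 x2 x3 x4 x5 : ℕ) :
    Same (cfg L (fold L x0) (fold L x1) (fold L x2) (fold L x3) (fold L x4) (fold L x5))
      (cfg L x0 x1 x2 x3 x4 x5) := by
  left
  rw [L3_cfg, R3_cfg, L3_cfg, R3_cfg]
  simp only [Multiset.insert_eq_cons, Multiset.map_cons, Multiset.map_singleton, c2_fold L hL,
    and_self]

theorem certOK_sound (steps : NL) (L : ℕ) (hL : 0 < L) (hN : 2 * L ≤ 65536)
    (x0 x1 x2 x3 x4 x5 d : ℕ)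
    (hx : x0 ≤ L ∧ x1 ≤ L ∧ x2 ≤ L ∧ x3 ≤ L ∧ x4 ≤ L ∧ x5 ≤ L)
    (h : certOK steps L x0 x1 x2 x3 x4 x5 d = true) : Concl (cfg L x0 x1 x2 x3 x4 x5) := by
  unfold certOK at h
  rw [or'_true] at h
  obtain ⟨h0, h1, h2, h3, h4, h5⟩ := hx
  rcases h with h | h
  · apply same_concl _ _ (same_fold L hL x0 x1 x2 x3 x4 x5)
    exact Or.inl (triv_cfg L _ _ _ _ _ _ (same3_sound _ _ _ _ _ _ h))
  · cases hk : Nat.beq (Nat.mod d 2) 1
    · rw [hk] at h
      right; left
      have hf : Nat.mod (Nat.div d 2) 2 ≤ 1 := by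
        have : (d / 2) % 2 < 2 := Nat.mod_lt _ (by norm_num)
        show (d / 2) % 2 ≤ 1
        omega
      have hv : ∀ w : ℕ, Nat.mod w 64 ≤ 64 := fun w => (Nat.mod_lt w (by norm_num)).le
      have hmf : Nat.mul L (Nat.mod (Nat.div d 2) 2) ≤ L := by
        calc L * Nat.mod (Nat.div d 2) 2 ≤ L * 1 := Nat.mul_le_mul_left L hf
          _ = L := mul_one L
      have h1 := niOK_sound steps (Nat.mul 2 L) (by show 0 < 2 * L; omega) (Dvd.intro L rfl)
        (by show 2 * L ≤ 65536; exact hN) x0 x1 x2 x3 x4 _ _ _ _ _ _ _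
        ⟨by show x0 ≤ 2 * L; omega, by show x1 ≤ 2 * L; omega, by show x2 ≤ 2 * L; omega,
          by show x3 ≤ 2 * L; omega, by show x4 ≤ 2 * L; omega,
          by show x5 + Nat.mul L (Nat.mod (Nat.div d 2) 2) ≤ 2 * L; omega⟩
        ⟨hv _, hv _, hv _, hv _, hv _, hv _⟩ h
      have h2 := ni_of_nic L hL _ h1
      refine same_ni _ _ ?_ h2
      apply same_of_dvd L hL
      intro i
      left
      fin_cases i
      · simp
      · simp
      · simp
      · simp
      · simp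
      · refine ⟨(Nat.mod (Nat.div d 2) 2 : ℕ), ?_⟩
        show (((x5 + L * (Nat.mod (Nat.div d 2) 2) : ℕ)) : ℤ) - x5 = L * _
        push_cast
        ring
    · rw [hk] at h
      apply same_concl _ _ (same_fold L hL x0 x1 x2 x3 x4 x5)
      right; right
      exact tabOK_sound L hL _ _ _ _ _ _ _ _ h

end Eng

end Pool.Agent.TriCos
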