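import Pool.Agent.Lib_MP_6e4ab6_nt.Full.ClosThm

/-! Closure of the table under doubling and tripling lifts. -/

namespace Pool.Agent.TriCos

open Eng

theorem dt_c2_of {a b : ℝ} (n : ℤ) (h : a = b + n ∨ a = -b + n) : c2 a = c2 b := by
  rcases h with rfl | rfl
  · exact c2_add_int _ _
  · rw [c2_add_int, c2_neg]

theorem dt_half {X G : ℝ} (h : c2 (2 * X + 1/2) = c2 G) :
    (c2 X = c2 (G/2 + 3/4) ∧ c2 (X + 1/2) = c2 (G/2 + 1/4)) ∨
    (c2 X = c2 (G/2 + 1/4) ∧ c2 (X + 1/2) = c2 (G/2 + 3/4)) := by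
  obtain ⟨ε, n, hε, hn⟩ := ln_c2_eq_cases h
  rcases Int.even_or_odd' n with ⟨k, rfl | rfl⟩ <;> rcases hε with rfl | rfl <;> push_cast at hn
  · left
    exact ⟨dt_c2_of (k - 1) (Or.inl (by push_cast; linarith)), dt_c2_of k (Or.inl (by linarith))⟩
  · right
    exact ⟨dt_c2_of k (Or.inr (by linarith)), dt_c2_of (k + 1) (Or.inr (by push_cast; linarith))⟩
  · right
    exact ⟨dt_c2_of k (Or.inl (by linarith)), dt_c2_of k (Or.inl (by linarith))⟩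
  · left
    exact ⟨dt_c2_of (k + 1) (Or.inr (by push_cast; linarith)),
      dt_c2_of (k + 1) (Or.inr (by push_cast; linarith))⟩

theorem dt_p132 (x y z : ℝ) : ({x, y, z} : Multiset ℝ) = {x, z, y} := by
  simp only [Multiset.insert_eq_cons, ← Multiset.singleton_add]
  abel

theorem dt_p213 (x y z : ℝ) : ({x, y, z} : Multiset ℝ) = {y, x, z} := by
  simp only [Multiset.insert_eq_cons, ← Multiset.singleton_add]
  abel

theorem dt_p231 (x y z : ℝ) : ({x, y, z} : Multiset ℝ) = {y, z, x} := by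
  simp only [Multiset.insert_eq_cons, ← Multiset.singleton_add]
  abel

theorem dt_p312 (x y z : ℝ) : ({x, y, z} : Multiset ℝ) = {z, x, y} := by
  simp only [Multiset.insert_eq_cons, ← Multiset.singleton_add]
  abel

theorem dt_p321 (x y z : ℝ) : ({x, y, z} : Multiset ℝ) = {z, y, x} := by
  simp only [Multiset.insert_eq_cons, ← Multiset.singleton_add]
  abel

theorem dt_third {X G : ℝ} (h : c2 (3 * X) = c2 G) :
    ({c2 X, c2 (X + 1/3), c2 (X - 1/3)} : Multiset ℝ) = {c2 (G/3), c2 (G/3 + 1/3), c2 (G/3 + 2/3)} := by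
  obtain ⟨ε, n, hε, hn⟩ := ln_c2_eq_cases h
  have hm : n = 3 * (n / 3) ∨ n = 3 * (n / 3) + 1 ∨ n = 3 * (n / 3) + 2 := by omega
  generalize n / 3 = k at hm
  rcases hm with rfl | rfl | rfl <;> rcases hε with rfl | rfl <;> push_cast at hn
  · rw [dt_c2_of (a := X) (b := G/3) k (Or.inl (by linarith)),
      dt_c2_of (a := X + 1/3) (b := G/3 + 1/3) k (Or.inl (by linarith)),
      dt_c2_of (a := X - 1/3) (b := G/3 + 2/3) (k - 1) (Or.inl (by push_cast; linarith))]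
  · rw [dt_c2_of (a := X) (b := G/3) k (Or.inr (by linarith)),
      dt_c2_of (a := X + 1/3) (b := G/3 + 2/3) (k + 1) (Or.inr (by push_cast; linarith)),
      dt_c2_of (a := X - 1/3) (b := G/3 + 1/3) k (Or.inr (by linarith))]
    exact dt_p132 _ _ _
  · rw [dt_c2_of (a := X) (b := G/3 + 1/3) k (Or.inl (by linarith)),
      dt_c2_of (a := X + 1/3) (b := G/3 + 2/3) k (Or.inl (by linarith)),
      dt_c2_of (a := X - 1/3) (b := G/3) k (Or.inl (by linarith))]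
    exact dt_p312 _ _ _
  · rw [dt_c2_of (a := X) (b := G/3 + 2/3) (k + 1) (Or.inr (by push_cast; linarith)),
      dt_c2_of (a := X + 1/3) (b := G/3 + 1/3) (k + 1) (Or.inr (by push_cast; linarith)),
      dt_c2_of (a := X - 1/3) (b := G/3) k (Or.inr (by linarith))]
    exact dt_p321 _ _ _
  · rw [dt_c2_of (a := X) (b := G/3 + 2/3) k (Or.inl (by linarith)),
      dt_c2_of (a := X + 1/3) (b := G/3) (k + 1) (Or.inl (by push_cast; linarith)),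
      dt_c2_of (a := X - 1/3) (b := G/3 + 1/3) k (Or.inl (by linarith))]
    exact dt_p231 _ _ _
  · rw [dt_c2_of (a := X) (b := G/3 + 1/3) (k + 1) (Or.inr (by push_cast; linarith)),
      dt_c2_of (a := X + 1/3) (b := G/3) (k + 1) (Or.inr (by push_cast; linarith)),
      dt_c2_of (a := X - 1/3) (b := G/3 + 2/3) (k + 1) (Or.inr (by push_cast; linarith))]
    exact dt_p213 _ _ _

theorem dt_w6 {w : ℤ} (h : IsCoprime w 6) : w % 6 = 1 ∨ w % 6 = 5 := by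
  have h2 : ¬ (2 : ℤ) ∣ w := by
    intro h2
    have h3 : IsCoprime w 2 := h.of_isCoprime_of_dvd_right ⟨3, by norm_num⟩
    have h4 := (Int.isCoprime_iff_gcd_eq_one.1 h3)
    have h5 : (2 : ℤ) ∣ (Int.gcd w 2 : ℤ) := Int.dvd_coe_gcd h2 (dvd_refl 2)
    rw [h4] at h5
    norm_num at h5
  have h3 : ¬ (3 : ℤ) ∣ w := by
    intro h3
    have h4 : IsCoprime w 3 := h.of_isCoprime_of_dvd_right ⟨2, by norm_num⟩
    have h5 := (Int.isCoprime_iff_gcd_eq_one.1 h4)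
    have h6 : (3 : ℤ) ∣ (Int.gcd w 3 : ℤ) := Int.dvd_coe_gcd h3 (dvd_refl 3)
    rw [h5] at h6
    norm_num at h6
  omega

theorem dt_wthird {w : ℤ} (h : IsCoprime w 6) : c2 ((w : ℝ) * (1/3)) = 1 := by
  refine Eq.trans ?_ c2_third
  rcases dt_w6 h with h1 | h1
  · have : w = 6 * (w / 6) + 1 := by omega
    have h2 : (w : ℝ) = 6 * ((w / 6 : ℤ) : ℝ) + 1 := by exact_mod_cast this
    refine dt_c2_of (2 * (w / 6)) (Or.inl ?_)
    push_cast
    rw [h2]; ring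
  · have : w = 6 * (w / 6) + 5 := by omega
    have h2 : (w : ℝ) = 6 * ((w / 6 : ℤ) : ℝ) + 5 := by exact_mod_cast this
    refine dt_c2_of (2 * (w / 6) + 2) (Or.inr ?_)
    push_cast
    rw [h2]; ring

/-- an entry with value one is a third of the level -/
theorem dt_entry {m g : ℕ} (hm : 0 < m) (hg : 2 * g < m) (h : c2 ((g : ℝ) / m) = 1) : 3 * g = m := by
  have hm' : (0 : ℝ) < m := by exact_mod_cast hm
  have hg' : 2 * (g : ℝ) < m := by exact_mod_cast hg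
  have hg0 : (0 : ℝ) ≤ g := by positivity
  rcases (c2_eq_one_iff' _).1 h with ⟨n, hn⟩ | ⟨n, hn⟩
  · have h1 : (3 : ℝ) * g = m * (3 * n + 1) := by field_simp at hn; linarith
    have h2 : (3 : ℤ) * g = m * (3 * n + 1) := by exact_mod_cast h1
    have h3 : n = 0 := by
      by_contra hne
      rcases lt_or_gt_of_ne hne with h4 | h4
      · have : (m : ℤ) * (3 * n + 1) < 0 := mul_neg_of_pos_of_neg (by exact_mod_cast hm) (by omega)
        omega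
      · have : (m : ℤ) * 4 ≤ m * (3 * n + 1) := mul_le_mul_of_nonneg_left (by omega) (by positivity)
        omega
    rw [h3] at h2
    omega
  · exfalso
    have h1 : (3 : ℝ) * g = m * (3 * n - 1) := by field_simp at hn; linarith
    have h2 : (3 : ℤ) * g = m * (3 * n - 1) := by exact_mod_cast h1
    rcases le_or_gt n 0 with h4 | h4
    · have : (m : ℤ) * (3 * n - 1) < 0 := mul_neg_of_pos_of_neg (by exact_mod_cast hm) (by omega)
      omega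
    · have : (m : ℤ) * 2 ≤ m * (3 * n - 1) := mul_le_mul_of_nonneg_left (by omega) (by positivity)
      omega

theorem dt_arr : ∀ p ∈ arr, p.getD 1 0 ∈ [0, 1, 2, 3, 4, 5] ∧ p.getD 2 0 ∈ [0, 1, 2, 3, 4, 5] := by
  decide

theorem dt_scale (k m g : ℕ) (hk : 0 < k) : c2 (((k * g : ℕ) : ℝ) / ((k * m : ℕ) : ℝ)) = c2 ((g : ℝ) / m) := by
  have hk' : (k : ℝ) ≠ 0 := by exact_mod_cast hk.ne'
  push_cast
  rw [mul_div_mul_left _ _ hk']

theorem D2_tab (x y : ℚ) (b : Fin 3 → ℚ) (h : Tab ![2 * x + 1/2, y, 1/3, b 0, b 1, b 2]) :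
    Concl ![x, x + 1/2, y, b 0, b 1, b 2] := by
  obtain ⟨r, hr, w, hw, hS, hC⟩ := tab_reduce _ ![x, x + 1/2, y, b 0, b 1, b 2] h
  apply hC
  obtain ⟨p, hp, e0, e1, e2, e3⟩ := arr_same _ r hS
  obtain ⟨hr0, hlt⟩ := tab_lt r hr
  have f0 : c2 ((w : ℝ) * (2 * x + 1/2)) = c2 ((ga r p 0 : ℝ) / r.1) := by
    rw [← e0]; simp
  have f1 : c2 ((w : ℝ) * y) = c2 ((ga r p 1 : ℝ) / r.1) := by
    rw [← e1]; simp
  have f2 : c2 ((w : ℝ) * (1/3)) = c2 ((ga r p 2 : ℝ) / r.1) := by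
    rw [← e2]; simp
  rw [dt_wthird hw] at f2
  have g2 : 3 * ga r p 2 = r.1 := dt_entry hr0 (hlt _ (dt_arr p hp).2) f2.symm
  obtain ⟨-, hc⟩ := closD _ _ _ _ _ _ (covD r hr p hp g2)
  refine same_concl _ _ ?_ hc
  obtain ⟨j, hj⟩ : ∃ j : ℤ, w = 2 * j + 1 := by
    rcases dt_w6 hw with h1 | h1
    · exact ⟨w / 2, by omega⟩
    · exact ⟨w / 2, by omega⟩
  have hj' : (w : ℝ) = 2 * j + 1 := by rw [hj]; push_cast; ring
  have k0 : c2 (2 * ((w : ℝ) * x) + 1/2) = c2 ((ga r p 0 : ℝ) / r.1) := by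
    rw [← f0]
    refine dt_c2_of (-j) (Or.inl ?_)
    push_cast
    linear_combination (-(1 : ℝ) / 2) * hj'
  have k1 : c2 ((w : ℝ) * (x + 1/2)) = c2 ((w : ℝ) * x + 1/2) := by
    refine dt_c2_of j (Or.inl ?_)
    linear_combination ((1 : ℝ) / 2) * hj'
  have hrr : (r.1 : ℝ) ≠ 0 := by exact_mod_cast hr0.ne'
  left
  constructor
  · rw [L3_cfg]
    unfold L3
    simp only [Multiset.insert_eq_cons, Multiset.map_cons, Multiset.map_singleton]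
    rw [dt_scale 4 r.1 (ga r p 1) (by norm_num), ← f1]
    have t1 : (((2 * ga r p 0 + 3 * r.1 : ℕ) : ℝ) / ((4 * r.1 : ℕ) : ℝ)) = (ga r p 0 : ℝ) / r.1 / 2 + 3/4 := by
      push_cast; field_simp; ring
    have t2 : (((2 * ga r p 0 + r.1 : ℕ) : ℝ) / ((4 * r.1 : ℕ) : ℝ)) = (ga r p 0 : ℝ) / r.1 / 2 + 1/4 := by
      push_cast; field_simp; ring
    rw [t1, t2]
    have s0 : c2 (((w : ℚ) * (![x, x + 1/2, y, b 0, b 1, b 2] : Fin 6 → ℚ) 0 : ℚ) : ℝ) = c2 ((w : ℝ) * x) := by simp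
    have s1 : c2 (((w : ℚ) * (![x, x + 1/2, y, b 0, b 1, b 2] : Fin 6 → ℚ) 1 : ℚ) : ℝ) = c2 ((w : ℝ) * x + 1/2) := by
      rw [← k1]; simp
    have s2 : c2 (((w : ℚ) * (![x, x + 1/2, y, b 0, b 1, b 2] : Fin 6 → ℚ) 2 : ℚ) : ℝ) = c2 ((w : ℝ) * y) := by simp
    rw [s0, s1, s2]
    rcases dt_half k0 with ⟨a1, a2⟩ | ⟨a1, a2⟩
    · rw [a1, a2]
    · rw [a1, a2]; exact Multiset.cons_swap _ _ _
  · rw [R3_cfg]
    simp only [Multiset.insert_eq_cons, Multiset.map_cons, Multiset.map_singleton]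
    rw [dt_scale 4 r.1 _ (by norm_num), dt_scale 4 r.1 _ (by norm_num), dt_scale 4 r.1 _ (by norm_num)]
    exact e3.symm

theorem T3_tab (x : ℚ) (b : Fin 3 → ℚ) (h : Tab ![3 * x, 1/3, 1/3, b 0, b 1, b 2]) :
    Concl ![x, x + 1/3, x - 1/3, b 0, b 1, b 2] := by
  obtain ⟨r, hr, w, hw, hS, hC⟩ := tab_reduce _ ![x, x + 1/3, x - 1/3, b 0, b 1, b 2] h
  apply hC
  obtain ⟨p, hp, e0, e1, e2, e3⟩ := arr_same _ r hS
  obtain ⟨hr0, hlt⟩ := tab_lt r hr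
  have f0 : c2 ((w : ℝ) * (3 * x)) = c2 ((ga r p 0 : ℝ) / r.1) := by
    rw [← e0]; simp
  have f1 : c2 ((w : ℝ) * (1/3)) = c2 ((ga r p 1 : ℝ) / r.1) := by
    rw [← e1]; simp
  have f2 : c2 ((w : ℝ) * (1/3)) = c2 ((ga r p 2 : ℝ) / r.1) := by
    rw [← e2]; simp
  rw [dt_wthird hw] at f1 f2
  have g1 : 3 * ga r p 1 = r.1 := dt_entry hr0 (hlt _ (dt_arr p hp).1) f1.symm
  have g2 : 3 * ga r p 2 = r.1 := dt_entry hr0 (hlt _ (dt_arr p hp).2) f2.symm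
  obtain ⟨-, hc⟩ := closT _ _ _ _ _ (covT r hr p hp g2 g1)
  refine same_concl _ _ ?_ hc
  have k0 : c2 (3 * ((w : ℝ) * x)) = c2 ((ga r p 0 : ℝ) / r.1) := by
    rw [← f0]
    congr 1; ring
  have hrr : (r.1 : ℝ) ≠ 0 := by exact_mod_cast hr0.ne'
  left
  constructor
  · rw [L3_cfg]
    unfold L3
    simp only [Multiset.insert_eq_cons, Multiset.map_cons, Multiset.map_singleton]
    have t0 : (((ga r p 0 : ℕ) : ℝ) / ((3 * r.1 : ℕ) : ℝ)) = (ga r p 0 : ℝ) / r.1 / 3 := by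
      push_cast; field_simp
    have t1 : (((ga r p 0 + r.1 : ℕ) : ℝ) / ((3 * r.1 : ℕ) : ℝ)) = (ga r p 0 : ℝ) / r.1 / 3 + 1/3 := by
      push_cast; field_simp
    have t2 : (((ga r p 0 + 2 * r.1 : ℕ) : ℝ) / ((3 * r.1 : ℕ) : ℝ)) = (ga r p 0 : ℝ) / r.1 / 3 + 2/3 := by
      push_cast; field_simp
    rw [t0, t1, t2]
    have s0 : c2 (((w : ℚ) * (![x, x + 1/3, x - 1/3, b 0, b 1, b 2] : Fin 6 → ℚ) 0 : ℚ) : ℝ) = c2 ((w : ℝ) * x) := by simp
    have key : ({c2 (((w : ℚ) * (![x, x + 1/3, x - 1/3, b 0, b 1, b 2] : Fin 6 → ℚ) 1 : ℚ) : ℝ),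
        c2 (((w : ℚ) * (![x, x + 1/3, x - 1/3, b 0, b 1, b 2] : Fin 6 → ℚ) 2 : ℚ) : ℝ)} : Multiset ℝ) =
        {c2 ((w : ℝ) * x + 1/3), c2 ((w : ℝ) * x - 1/3)} := by
      have q1 : c2 (((w : ℚ) * (![x, x + 1/3, x - 1/3, b 0, b 1, b 2] : Fin 6 → ℚ) 1 : ℚ) : ℝ) =
          c2 ((w : ℝ) * (x + 1/3)) := by simp
      have q2 : c2 (((w : ℚ) * (![x, x + 1/3, x - 1/3, b 0, b 1, b 2] : Fin 6 → ℚ) 2 : ℚ) : ℝ) =
          c2 ((w : ℝ) * (x - 1/3)) := by simp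
      rw [q1, q2]
      rcases dt_w6 hw with h1 | h1
      · have : w = 6 * (w / 6) + 1 := by omega
        have h2 : (w : ℝ) = 6 * ((w / 6 : ℤ) : ℝ) + 1 := by exact_mod_cast this
        rw [dt_c2_of (a := (w : ℝ) * (x + 1/3)) (b := (w : ℝ) * x + 1/3) (2 * (w / 6))
            (Or.inl (by push_cast; linear_combination ((1 : ℝ) / 3) * h2)),
          dt_c2_of (a := (w : ℝ) * (x - 1/3)) (b := (w : ℝ) * x - 1/3) (-(2 * (w / 6)))
            (Or.inl (by push_cast; linear_combination (-(1 : ℝ) / 3) * h2))]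
      · have : w = 6 * (w / 6) + 5 := by omega
        have h2 : (w : ℝ) = 6 * ((w / 6 : ℤ) : ℝ) + 5 := by exact_mod_cast this
        rw [dt_c2_of (a := (w : ℝ) * (x + 1/3)) (b := (w : ℝ) * x - 1/3) (2 * (w / 6) + 2)
            (Or.inl (by push_cast; linear_combination ((1 : ℝ) / 3) * h2)),
          dt_c2_of (a := (w : ℝ) * (x - 1/3)) (b := (w : ℝ) * x + 1/3) (-(2 * (w / 6)) - 2)
            (Or.inl (by push_cast; linear_combination (-(1 : ℝ) / 3) * h2))]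
        exact Multiset.pair_comm _ _
    rw [s0]
    have := dt_third k0
    rw [Multiset.insert_eq_cons, ← key] at this
    simp only [Multiset.insert_eq_cons] at this
    exact this.symm
  · rw [R3_cfg]
    simp only [Multiset.insert_eq_cons, Multiset.map_cons, Multiset.map_singleton]
    rw [dt_scale 3 r.1 _ (by norm_num), dt_scale 3 r.1 _ (by norm_num), dt_scale 3 r.1 _ (by norm_num)]
    exact e3.symm

/-- the thirds case of `D2_ni` -/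
theorem D2_thirds (x y : ℚ) (b : Fin 3 → ℚ)
    (h : c2 ((2 * x + 1/2 : ℚ) : ℝ) = 1 ∧ c2 (y : ℝ) = 1 ∧ ∀ i, c2 (b i : ℝ) = 1) :
    Concl ![x, x + 1/2, y, b 0, b 1, b 2] := by
  obtain ⟨h1, h2, h3⟩ := h
  right; right
  refine ⟨(12, [1, 4, 5, 4, 4, 4]), by unfold tab; simp, 1, isCoprime_one_left, ?_⟩
  have h1' : c2 (2 * (x : ℝ) + 1/2) = c2 (1/3) := by
    refine Eq.trans ?_ (h1.trans c2_third.symm)
    push_cast; rfl
  have hh := dt_half h1'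
  have r1 : c2 ((1/3 : ℝ)/2 + 3/4) = c2 (1/12) := dt_c2_of 1 (Or.inr (by norm_num))
  have r2 : c2 ((1/3 : ℝ)/2 + 1/4) = c2 (5/12) := by norm_num
  have r3 : c2 (4/12 : ℝ) = 1 := by
    refine Eq.trans ?_ c2_third
    norm_num
  rw [r1, r2] at hh
  left
  unfold L3 R3
  simp only [c2_ang, rep]
  constructor
  · have s0 : c2 (((![x, x + 1/2, y, b 0, b 1, b 2] : Fin 6 → ℚ) 0 : ℚ) : ℝ) = c2 (x : ℝ) := by simp
    have s1 : c2 (((![x, x + 1/2, y, b 0, b 1, b 2] : Fin 6 → ℚ) 1 : ℚ) : ℝ) = c2 ((x : ℝ) + 1/2) := by simp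
    have s2 : c2 (((![x, x + 1/2, y, b 0, b 1, b 2] : Fin 6 → ℚ) 2 : ℚ) : ℝ) = 1 := by simpa using h2
    rw [s0, s1, s2]
    have t : ({c2 (1/12 : ℝ), c2 (4/12 : ℝ), c2 (5/12 : ℝ)} : Multiset ℝ) = {c2 (1/12 : ℝ), c2 (5/12 : ℝ), 1} := by
      rw [r3]; exact dt_p132 _ _ _
    have t' : ({c2 (x : ℝ), c2 ((x : ℝ) + 1/2), 1} : Multiset ℝ) = {c2 (1/12 : ℝ), c2 (5/12 : ℝ), 1} := by
      rcases hh with ⟨a1, a2⟩ | ⟨a1, a2⟩
      · rw [a1, a2]
      · rw [a1, a2]; exact dt_p213 _ _ _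
    rw [t', ← t]
    norm_num
  · have s0 : c2 (((![x, x + 1/2, y, b 0, b 1, b 2] : Fin 6 → ℚ) 3 : ℚ) : ℝ) = 1 := by simpa using h3 0
    have s1 : c2 (((![x, x + 1/2, y, b 0, b 1, b 2] : Fin 6 → ℚ) 4 : ℚ) : ℝ) = 1 := by simpa using h3 1
    have s2 : c2 (((![x, x + 1/2, y, b 0, b 1, b 2] : Fin 6 → ℚ) 5 : ℚ) : ℝ) = 1 := by simpa using h3 2
    rw [s0, s1, s2]
    have t : ({1, 1, 1} : Multiset ℝ) = {c2 (4/12 : ℝ), c2 (4/12 : ℝ), c2 (4/12 : ℝ)} := by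
      rw [r3]
    rw [t]
    norm_num

/-- the thirds case of `T3_ni` -/
theorem T3_thirds (x : ℚ) (b : Fin 3 → ℚ) (h : c2 ((3 * x : ℚ) : ℝ) = 1 ∧ ∀ i, c2 (b i : ℝ) = 1) :
    Concl ![x, x + 1/3, x - 1/3, b 0, b 1, b 2] := by
  obtain ⟨h1, h3⟩ := h
  right; right
  refine ⟨(9, [1, 2, 4, 3, 3, 3]), by unfold tab; simp, 1, isCoprime_one_left, ?_⟩
  have h1' : c2 (3 * (x : ℝ)) = c2 (1/3) := by
    refine Eq.trans ?_ (h1.trans c2_third.symm)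
    push_cast; rfl
  have hh := dt_third h1'
  have r1 : c2 ((1/3 : ℝ)/3 + 2/3) = c2 (2/9) := dt_c2_of 1 (Or.inr (by norm_num))
  have r2 : c2 ((1/3 : ℝ)/3 + 1/3) = c2 (4/9) := by norm_num
  have r0 : c2 ((1/3 : ℝ)/3) = c2 (1/9) := by norm_num
  have r3 : c2 (3/9 : ℝ) = 1 := by
    refine Eq.trans ?_ c2_third
    norm_num
  rw [r1, r2, r0] at hh
  left
  unfold L3 R3
  simp only [c2_ang, rep]
  constructor
  · have s0 : c2 (((![x, x + 1/3, x - 1/3, b 0, b 1, b 2] : Fin 6 → ℚ) 0 : ℚ) : ℝ) = c2 (x : ℝ) := by simp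
    have s1 : c2 (((![x, x + 1/3, x - 1/3, b 0, b 1, b 2] : Fin 6 → ℚ) 1 : ℚ) : ℝ) = c2 ((x : ℝ) + 1/3) := by simp
    have s2 : c2 (((![x, x + 1/3, x - 1/3, b 0, b 1, b 2] : Fin 6 → ℚ) 2 : ℚ) : ℝ) = c2 ((x : ℝ) - 1/3) := by simp
    rw [s0, s1, s2, hh, dt_p132]
    norm_num
  · have s0 : c2 (((![x, x + 1/3, x - 1/3, b 0, b 1, b 2] : Fin 6 → ℚ) 3 : ℚ) : ℝ) = 1 := by simpa using h3 0
    have s1 : c2 (((![x, x + 1/3, x - 1/3, b 0, b 1, b 2] : Fin 6 → ℚ) 4 : ℚ) : ℝ) = 1 := by simpa using h3 1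
    have s2 : c2 (((![x, x + 1/3, x - 1/3, b 0, b 1, b 2] : Fin 6 → ℚ) 5 : ℚ) : ℝ) = 1 := by simpa using h3 2
    rw [s0, s1, s2]
    have t : ({1, 1, 1} : Multiset ℝ) = {c2 (3/9 : ℝ), c2 (3/9 : ℝ), c2 (3/9 : ℝ)} := by
      rw [r3]
    rw [t]
    norm_num

end Pool.Agent.TriCos
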