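import Pool.Agent.Lib_MP_6e4ab6_nt.Full.Clos

/-! Certificates for the closure of the table under lifts. -/

set_option maxRecDepth 100000

namespace Pool.Agent.TriCos

/-- the entries of a row -/
def gg (r : ℕ × List ℕ) (i : ℕ) : ℕ := r.2.getD i 0

/-- arrangements of the six entries: any order of one side, then the other side -/
def arr : List (List ℕ) :=
  [[0,1,2,3,4,5], [1,0,2,3,4,5], [0,2,1,3,4,5], [2,0,1,3,4,5], [1,2,0,3,4,5], [2,1,0,3,4,5],
   [3,4,5,0,1,2], [4,3,5,0,1,2], [3,5,4,0,1,2], [5,3,4,0,1,2], [4,5,3,0,1,2], [5,4,3,0,1,2]]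

/-- the entries of a row in an arrangement -/
def ga (r : ℕ × List ℕ) (p : List ℕ) (i : ℕ) : ℕ := gg r (p.getD i 0)

namespace Eng

noncomputable section

/-- items for the doubling lift: `(m0, w0, w1, b0, b1, b2)`, certificate, steps -/
def itemsD : List ((ℕ × ℕ × ℕ × ℕ × ℕ × ℕ) × ℕ × NL) :=
  [((9, 3, 3, 1, 2, 4), 148078338958, (NL.cons (nat_lit 3) (NL.cons (nat_lit 3) (NL.cons (nat_lit 2) (NL.cons (nat_lit 2) NL.nil))))),
   ((12, 1, 5, 4, 4, 4), 295725494856294907915, NL.nil),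
   ((12, 5, 1, 4, 4, 4), 295725494856294907907, NL.nil),
   ((12, 4, 4, 1, 4, 5), 0, NL.nil),
   ((15, 1, 4, 3, 3, 5), 887175920520491294747, NL.nil),
   ((15, 4, 1, 3, 3, 5), 887175920520491294735, NL.nil),
   ((15, 3, 3, 1, 4, 5), 1034459953342991949839, NL.nil),
   ((15, 3, 6, 5, 5, 5), 739313737007056936975, NL.nil),
   ((15, 6, 3, 5, 5, 5), 739313737007056936963, NL.nil),
   ((15, 5, 5, 3, 5, 6), 886886563151367757827, NL.nil),
   ((21, 1, 8, 3, 3, 9), 1330763035670758989863, NL.nil),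
   ((21, 8, 1, 3, 3, 9), 1330763035670758989835, NL.nil),
   ((21, 7, 7, 3, 6, 9), 1329896654049624891395, NL.nil),
   ((24, 8, 8, 1, 2, 11), 139553415302, (NL.cons (nat_lit 3) (NL.cons (nat_lit 2) (NL.cons (nat_lit 2) (NL.cons (nat_lit 2) (NL.cons (nat_lit 2) (NL.cons (nat_lit 2) NL.nil))))))),
   ((30, 1, 1, 4, 6, 8), 143915491714, (NL.cons (nat_lit 5) (NL.cons (nat_lit 3) (NL.cons (nat_lit 2) (NL.cons (nat_lit 2) (NL.cons (nat_lit 2) NL.nil)))))),
   ((30, 4, 8, 1, 1, 12), 887032086805244665879, NL.nil),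
   ((30, 8, 4, 1, 1, 12), 961105886107793481743, NL.nil),
   ((30, 8, 12, 1, 1, 14), 961104760205739155471, NL.nil),
   ((30, 12, 8, 1, 1, 14), 997277531395045056515, NL.nil),
   ((30, 1, 2, 6, 6, 7), 135325556870, (NL.cons (nat_lit 5) (NL.cons (nat_lit 3) (NL.cons (nat_lit 2) (NL.cons (nat_lit 2) (NL.cons (nat_lit 2) NL.nil)))))),
   ((30, 2, 1, 6, 6, 7), 887176201998689230875, NL.nil),
   ((30, 6, 10, 1, 2, 13), 776205676762930208771, NL.nil),
   ((30, 10, 6, 1, 2, 13), 923202605650349776899, NL.nil),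
   ((30, 2, 8, 1, 6, 11), 960962052390399369243, NL.nil),
   ((30, 8, 2, 1, 6, 11), 960962052390399369231, NL.nil),
   ((30, 8, 10, 1, 6, 13), 960963178296748662799, NL.nil),
   ((30, 10, 8, 1, 6, 13), 923490836030796455939, NL.nil),
   ((30, 1, 7, 4, 6, 10), 443443563458144038927, NL.nil),
   ((30, 7, 1, 4, 6, 10), 139619475590, (NL.cons (nat_lit 5) (NL.cons (nat_lit 3) (NL.cons (nat_lit 2) (NL.cons (nat_lit 2) (NL.cons (nat_lit 2) NL.nil)))))),
   ((30, 4, 6, 1, 7, 10), 960818781629401128983, NL.nil),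
   ((30, 6, 4, 1, 7, 10), 775412900847125913603, NL.nil),
   ((30, 1, 11, 2, 8, 12), 139687633282, (NL.cons (nat_lit 5) (NL.cons (nat_lit 3) (NL.cons (nat_lit 2) (NL.cons (nat_lit 2) (NL.cons (nat_lit 2) NL.nil)))))),
   ((30, 11, 1, 2, 8, 12), 139619475590, (NL.cons (nat_lit 5) (NL.cons (nat_lit 3) (NL.cons (nat_lit 2) (NL.cons (nat_lit 2) (NL.cons (nat_lit 2) NL.nil)))))),
   ((30, 1, 11, 6, 6, 12), 443155051332674580503, NL.nil),
   ((30, 11, 1, 6, 6, 12), 443155051332674580483, NL.nil),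
   ((30, 1, 11, 6, 10, 10), 369656305413988085783, NL.nil),
   ((30, 11, 1, 6, 10, 10), 369656305413988085763, NL.nil),
   ((30, 6, 10, 1, 10, 11), 776205675672008515587, NL.nil),
   ((30, 10, 6, 1, 10, 11), 923202604559428083715, NL.nil),
   ((30, 10, 10, 1, 11, 12), 923779065862561062915, NL.nil),
   ((42, 6, 12, 1, 4, 17), 997855682649697460227, NL.nil),
   ((42, 12, 6, 1, 4, 17), 1218351075980826812419, NL.nil),
   ((42, 1, 5, 6, 8, 12), 664804212242608377867, NL.nil),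
   ((42, 5, 1, 6, 8, 12), 139553415302, (NL.cons (nat_lit 7) (NL.cons (nat_lit 3) (NL.cons (nat_lit 2) (NL.cons (nat_lit 2) (NL.cons (nat_lit 2) NL.nil)))))),
   ((42, 8, 14, 1, 5, 18), 1404550293447016357915, NL.nil),
   ((42, 14, 8, 1, 5, 18), 1292426001727669575683, NL.nil),
   ((42, 10, 16, 1, 6, 19), 1404405896779668824087, NL.nil),
   ((42, 16, 10, 1, 6, 19), 1330619201951217393675, NL.nil),
   ((42, 4, 10, 1, 12, 13), 1404548041640760221731, NL.nil),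
   ((42, 10, 4, 1, 12, 13), 1404548041640760221719, NL.nil),
   ((42, 1, 13, 6, 12, 14), 517374374292325748763, NL.nil),
   ((42, 13, 1, 6, 12, 14), 517374374292325748739, NL.nil),
   ((42, 6, 12, 1, 13, 14), 997855681010093694979, NL.nil),
   ((42, 12, 6, 1, 13, 14), 1218351074341223047171, NL.nil),
   ((42, 14, 14, 1, 13, 18), 1293290692864714645507, NL.nil),
   ((45, 9, 18, 5, 10, 20), 2954364192589260103695, NL.nil),
   ((45, 18, 9, 5, 10, 20), 2954364192589260103683, NL.nil),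
   ((60, 5, 7, 1, 2, 21), 1293075506882475704323, NL.nil),
   ((60, 7, 5, 1, 2, 21), 1995999030248467578927, NL.nil),
   ((60, 24, 24, 1, 8, 29), 997853992425446563843, NL.nil),
   ((60, 22, 26, 1, 12, 29), 961104760205739155459, NL.nil),
   ((60, 26, 22, 1, 12, 29), 143914443394, (NL.cons (nat_lit 5) (NL.cons (nat_lit 3) (NL.cons (nat_lit 2) (NL.cons (nat_lit 2) (NL.cons (nat_lit 2) (NL.cons (nat_lit 2) NL.nil))))))),
   ((60, 1, 13, 3, 5, 22), 1995857448348067020859, NL.nil),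
   ((60, 13, 1, 3, 5, 22), 1922070190567514685475, NL.nil),
   ((60, 3, 22, 1, 13, 25), 1625695192759734091779, NL.nil),
   ((60, 22, 3, 1, 13, 25), 959519351300441628675, NL.nil),
   ((60, 1, 19, 3, 9, 24), 1995713051678572003387, NL.nil),
   ((60, 19, 1, 3, 9, 24), 1995713051678572003351, NL.nil),
   ((60, 1, 29, 22, 24, 26), 1921926356847973089339, NL.nil),
   ((60, 29, 1, 22, 24, 26), 1921926356847973089283, NL.nil),
   ((60, 9, 21, 2, 4, 26), 2068053527509750497307, NL.nil),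
   ((60, 21, 9, 2, 4, 26), 2068053527509750497315, NL.nil),
   ((60, 2, 14, 8, 9, 21), 997277531395045056527, NL.nil),
   ((60, 14, 2, 8, 9, 21), 139619475590, (NL.cons (nat_lit 5) (NL.cons (nat_lit 3) (NL.cons (nat_lit 2) (NL.cons (nat_lit 2) (NL.cons (nat_lit 2) (NL.cons (nat_lit 2) NL.nil))))))),
   ((60, 2, 22, 5, 12, 25), 923202605650349776919, NL.nil),
   ((60, 22, 2, 5, 12, 25), 923202605650349776899, NL.nil),
   ((60, 2, 22, 9, 20, 21), 776205676762930208791, NL.nil),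
   ((60, 22, 2, 9, 20, 21), 776205676762930208771, NL.nil),
   ((60, 9, 21, 2, 20, 22), 1921347643748249747471, NL.nil),
   ((60, 21, 9, 2, 20, 22), 1921347643748249747491, NL.nil),
   ((60, 5, 25, 2, 22, 24), 2029863140953638027303, NL.nil),
   ((60, 25, 5, 2, 22, 24), 2029863140953638027267, NL.nil),
   ((60, 5, 25, 3, 12, 27), 1993978601766131056679, NL.nil),
   ((60, 25, 5, 3, 12, 27), 1993978601766131056643, NL.nil),
   ((60, 20, 20, 3, 12, 27), 923779066681827123203, NL.nil),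
   ((60, 8, 28, 3, 24, 27), 997853992425446563863, NL.nil),
   ((60, 28, 8, 3, 24, 27), 997853992425446563843, NL.nil),
   ((60, 5, 25, 12, 20, 24), 1773773127661013680143, NL.nil),
   ((60, 25, 5, 12, 20, 24), 1773773127661013680131, NL.nil),
   ((60, 12, 24, 5, 20, 25), 923779066681827123215, NL.nil),
   ((60, 24, 12, 5, 20, 25), 923779066681827123203, NL.nil),
   ((66, 1, 23, 12, 18, 24), 886742448779868377135, NL.nil),
   ((66, 23, 1, 12, 18, 24), 886742448779868377091, NL.nil),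
   ((84, 1, 41, 26, 36, 38), 2809100587139918544979, NL.nil),
   ((84, 41, 1, 26, 36, 38), 2809100587139918544899, NL.nil),
   ((84, 2, 26, 9, 12, 33), 1218351075980826812443, NL.nil),
   ((84, 26, 2, 9, 12, 33), 1218351075980826812419, NL.nil),
   ((84, 2, 26, 15, 24, 27), 997855682649697460251, NL.nil),
   ((84, 26, 2, 15, 24, 27), 997855682649697460227, NL.nil),
   ((84, 7, 35, 2, 26, 36), 2841808398649351553083, NL.nil),
   ((84, 35, 7, 2, 26, 36), 2841808398649351553027, NL.nil),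
   ((84, 7, 35, 12, 24, 36), 2659793310000839213067, NL.nil),
   ((84, 35, 7, 12, 24, 36), 2659793310000839213059, NL.nil),
   ((105, 21, 42, 15, 30, 45), 2216494424688778567687, NL.nil),
   ((105, 42, 21, 15, 30, 45), 2216494424688778567683, NL.nil),
   ((120, 28, 52, 3, 6, 57), 2068053527509750497319, NL.nil),
   ((120, 52, 28, 3, 6, 57), 2068053527509750497283, NL.nil),
   ((120, 24, 48, 5, 10, 55), 1993978601766131056667, NL.nil),
   ((120, 48, 24, 5, 10, 55), 1993978601766131056643, NL.nil),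
   ((210, 42, 84, 5, 65, 90), 6978925102796479733787, NL.nil),
   ((210, 84, 42, 5, 65, 90), 6978925102796479733763, NL.nil)]

/-- items for the tripling lift: `(m0, w0, b0, b1, b2)`, certificate, steps -/
def itemsT : List ((ℕ × ℕ × ℕ × ℕ × ℕ) × ℕ × NL) :=
  [((9, 3, 1, 2, 4), 0, NL.nil),
   ((12, 4, 1, 4, 5), 152502313610, (NL.cons (nat_lit 3) (NL.cons (nat_lit 3) (NL.cons (nat_lit 2) (NL.cons (nat_lit 2) NL.nil))))),
   ((15, 5, 3, 5, 6), 665164922704440158211, NL.nil),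
   ((21, 7, 3, 6, 9), 997422491014498744323, NL.nil),
   ((24, 8, 1, 2, 11), 152099693714, (NL.cons (nat_lit 3) (NL.cons (nat_lit 3) (NL.cons (nat_lit 2) (NL.cons (nat_lit 2) (NL.cons (nat_lit 2) NL.nil)))))),
   ((30, 6, 1, 2, 13), 139687633030, (NL.cons (nat_lit 5) (NL.cons (nat_lit 3) (NL.cons (nat_lit 3) (NL.cons (nat_lit 2) NL.nil))))),
   ((30, 8, 1, 6, 13), 1219000860425544978455, NL.nil),
   ((30, 6, 1, 10, 11), 443298603025336168451, NL.nil),
   ((30, 10, 1, 11, 12), 1477182095065730961411, NL.nil),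
   ((42, 8, 1, 5, 18), 1882867055389487394851, NL.nil),
   ((42, 14, 1, 13, 18), 2068054934077717082115, NL.nil),
   ((60, 20, 3, 12, 27), 2954364192589260103683, NL.nil)]

/-- items for the special lift: `(m0, A, B, C, n, n1, n2)`, exponents at level `8 m0`, certificate -/
def itemsS : List ((ℕ × ℕ × ℕ × ℕ × ℕ × ℕ × ℕ) × (ℕ × ℕ × ℕ × ℕ × ℕ × ℕ) × ℕ) :=
  [((12, 4, 1, 5, 0, 0, 0), (40, 0, 8, 8, 0, 40), 0),
   ((12, 4, 1, 5, 0, 1, 1), (88, 48, 8, 56, 48, 40), 0),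
   ((12, 4, 1, 5, 1, 0, 1), (16, 72, 56, 80, 72, 40), 0),
   ((12, 4, 1, 5, 1, 1, 0), (64, 24, 56, 32, 24, 40), 0),
   ((12, 4, 5, 1, 0, 0, 0), (24, 16, 8, 24, 80, 8), 0),
   ((12, 4, 5, 1, 0, 1, 1), (72, 64, 8, 72, 32, 8), 0),
   ((12, 4, 5, 1, 1, 0, 1), (0, 88, 56, 0, 56, 8), 0),
   ((12, 4, 5, 1, 1, 1, 0), (48, 40, 56, 48, 8, 8), 0),
   ((15, 5, 3, 6, 0, 0, 0), (49, 1, 10, 17, 113, 48), 1772113408811567661059),
   ((15, 5, 3, 6, 0, 1, 1), (109, 61, 10, 77, 53, 48), 1772113408811567661079),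
   ((15, 5, 3, 6, 1, 0, 1), (19, 91, 70, 107, 83, 48), 1772113408811567661095),
   ((15, 5, 3, 6, 1, 1, 0), (79, 31, 70, 47, 23, 48), 1772113408811567661119),
   ((15, 5, 6, 3, 0, 0, 0), (37, 13, 10, 29, 101, 24), 1772113408811567661083),
   ((15, 5, 6, 3, 0, 1, 1), (97, 73, 10, 89, 41, 24), 1772113408811567661103),
   ((15, 5, 6, 3, 1, 0, 1), (7, 103, 70, 119, 71, 24), 1772113408811567661071),
   ((15, 5, 6, 3, 1, 1, 0), (67, 43, 70, 59, 11, 24), 1772113408811567661143),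
   ((30, 6, 1, 11, 0, 0, 0), (86, 238, 36, 22, 14, 88), 1550320132710336806935),
   ((30, 6, 1, 11, 0, 1, 1), (206, 118, 36, 142, 134, 88), 1550320132710336807011),
   ((30, 6, 1, 11, 1, 0, 1), (26, 178, 156, 202, 194, 88), 1550320132710336806951),
   ((30, 6, 1, 11, 1, 1, 0), (146, 58, 156, 82, 74, 88), 1550320132710336806995),
   ((30, 6, 11, 1, 0, 0, 0), (46, 38, 36, 62, 214, 8), 1550320132710336806975),
   ((30, 6, 11, 1, 0, 1, 1), (166, 158, 36, 182, 94, 8), 1550320132710336806971),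
   ((30, 6, 11, 1, 1, 0, 1), (226, 218, 156, 2, 154, 8), 1550320132710336806915),
   ((30, 6, 11, 1, 1, 1, 0), (106, 98, 156, 122, 34, 8), 1550320132710336807031)]

/-- check of an item -/
def okD (t : (ℕ × ℕ × ℕ × ℕ × ℕ × ℕ) × ℕ × NL) : Bool :=
  let (m0, w0, w1, b0, b1, b2) := t.1
  (Nat.ble 1 m0 && Nat.ble (8 * m0) 65536) &&
  (Nat.ble (2 * w0 + 3 * m0) (4 * m0) && Nat.ble (2 * w0 + m0) (4 * m0) && Nat.ble (4 * w1) (4 * m0) &&
    Nat.ble (4 * b0) (4 * m0) && Nat.ble (4 * b1) (4 * m0) && Nat.ble (4 * b2) (4 * m0)) &&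
  certOK t.2.2 (4 * m0) (2 * w0 + 3 * m0) (2 * w0 + m0) (4 * w1) (4 * b0) (4 * b1) (4 * b2) t.2.1

/-- check of an item -/
def okT (t : (ℕ × ℕ × ℕ × ℕ × ℕ) × ℕ × NL) : Bool :=
  let (m0, w0, b0, b1, b2) := t.1
  (Nat.ble 1 m0 && Nat.ble (6 * m0) 65536) &&
  (Nat.ble w0 (3 * m0) && Nat.ble (w0 + m0) (3 * m0) && Nat.ble (w0 + 2 * m0) (3 * m0) &&
    Nat.ble (3 * b0) (3 * m0) && Nat.ble (3 * b1) (3 * m0) && Nat.ble (3 * b2) (3 * m0)) &&
  certOK t.2.2 (3 * m0) w0 (w0 + m0) (w0 + 2 * m0) (3 * b0) (3 * b1) (3 * b2) t.2.1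

/-- check of an item: the six exponents are right and either one cosine vanishes or the certificate
is valid -/
def okS (t : (ℕ × ℕ × ℕ × ℕ × ℕ × ℕ × ℕ) × (ℕ × ℕ × ℕ × ℕ × ℕ × ℕ) × ℕ) : Bool :=
  let (m0, A, B, C, n, n1, n2) := t.1
  let (x, y, w, z, v, d) := t.2.1
  (Nat.ble 1 m0 && Nat.ble (16 * m0) 65536) &&
  (Nat.ble x (8 * m0) && Nat.ble y (8 * m0) && Nat.ble w (8 * m0) && Nat.ble z (8 * m0) &&
    Nat.ble v (8 * m0) && Nat.ble d (8 * m0)) &&
  (Nat.beq ((w + 4 * A + 4 * n * m0) % (8 * m0)) ((2 * m0) % (8 * m0)) &&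
    Nat.beq ((z + 2 * A + 2 * n * m0) % (8 * m0)) ((m0 + 4 * B + 4 * n1 * m0) % (8 * m0)) &&
    Nat.beq (x % (8 * m0)) ((m0 + 2 * A + 2 * n * m0 + 4 * C + 4 * n2 * m0) % (8 * m0)) &&
    Nat.beq ((y + 4 * C + 4 * n2 * m0) % (8 * m0)) ((m0 + 2 * A + 2 * n * m0) % (8 * m0)) &&
    Nat.beq ((v + z) % (8 * m0)) (w % (8 * m0)) && Nat.beq ((d + y) % (8 * m0)) (x % (8 * m0))) &&
  ((Nat.beq ((2 * x) % (16 * m0)) (8 * m0) || Nat.beq ((2 * y) % (16 * m0)) (8 * m0) ||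
    Nat.beq ((2 * w) % (16 * m0)) (8 * m0) || Nat.beq ((2 * z) % (16 * m0)) (8 * m0) ||
    Nat.beq ((2 * v) % (16 * m0)) (8 * m0) || Nat.beq ((2 * d) % (16 * m0)) (8 * m0)) ||
   certOK NL.nil (8 * m0) x y w z v d t.2.2)

end

theorem okD_all : itemsD.all okD = true := by decide +kernel

theorem okT_all : itemsT.all okT = true := by decide +kernel

theorem okS_all : itemsS.all okS = true := by decide +kernel

theorem covD : ∀ r ∈ tab, ∀ p ∈ arr, 3 * ga r p 2 = r.1 →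
    (r.1, ga r p 0, ga r p 1, ga r p 3, ga r p 4, ga r p 5) ∈ itemsD.map Prod.fst := by
  decide +kernel

theorem covT : ∀ r ∈ tab, ∀ p ∈ arr, 3 * ga r p 2 = r.1 → 3 * ga r p 1 = r.1 →
    (r.1, ga r p 0, ga r p 3, ga r p 4, ga r p 5) ∈ itemsT.map Prod.fst := by
  decide +kernel

/-- `σ` runs over the orders of the second side -/
theorem covS : ∀ r ∈ tab, ∀ p ∈ arr, ∀ σ ∈ [(3, 4, 5), (4, 3, 5), (3, 5, 4), (5, 3, 4), (4, 5, 3),
    (5, 4, 3)], 3 * ga r p 2 = r.1 → 3 * ga r p 1 = r.1 → 3 * ga r p σ.2.2 = r.1 →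
    ∀ n ∈ [0, 1], ∀ n1 ∈ [0, 1], ∀ n2 ∈ [0, 1], (n + n1 + n2) % 2 = 0 →
    (r.1, ga r p 0, ga r p σ.1, ga r p σ.2.1, n, n1, n2) ∈ itemsS.map Prod.fst := by
  decide +kernel

end Eng

end Pool.Agent.TriCos
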