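import Pool.Agent.Lib_MP_6e4ab6_nt.Full.ClosThm

/-! Closure of the table under the special lift. -/

namespace Pool.Agent.TriCos

open Eng

theorem sp_c1_add_int (a : ℝ) (n : ℤ) : c1 (a + n) = (-1) ^ n * c1 a := by
  unfold c1
  have : Real.pi * (a + n) = Real.pi * a + n * Real.pi := by ring
  rw [this, Real.cos_add_int_mul_pi]
  ring

theorem sp_c1_pos (A m : ℕ) (hm : 0 < m) (hA : 2 * A < m) : 0 < c1 ((A : ℝ) / m) := by
  unfold c1
  have hm' : (0 : ℝ) < m := Nat.cast_pos.2 hm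
  have h1 : (2 : ℝ) * A < m := by exact_mod_cast hA
  have h2 : (A : ℝ) / m < 1 / 2 := by rw [div_lt_div_iff₀ hm' two_pos]; linarith
  have h3 : (0 : ℝ) ≤ (A : ℝ) / m := by positivity
  have hpi := Real.pi_pos
  apply mul_pos two_pos
  apply Real.cos_pos_of_mem_Ioo
  constructor
  · have : 0 ≤ Real.pi * ((A : ℝ) / m) := by positivity
    linarith
  · nlinarith

theorem sp_parity (a b c : ℝ) (ha : 0 < a) (hb : 0 < b) (hc : 0 < c) (n n1 n2 : ℤ)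
    (h : (-1 : ℝ) ^ n * a = ((-1) ^ n1 * b) * ((-1) ^ n2 * c)) : (n + n1 + n2) % 2 = 0 := by
  have hbc := mul_pos hb hc
  rcases Int.even_or_odd n with e | e <;> rcases Int.even_or_odd n1 with e1 | e1 <;>
    rcases Int.even_or_odd n2 with e2 | e2 <;>
    rw [e.neg_one_zpow, e1.neg_one_zpow, e2.neg_one_zpow] at h <;>
    first
      | (obtain ⟨k, rfl⟩ := e
         obtain ⟨k1, rfl⟩ := e1
         obtain ⟨k2, rfl⟩ := e2
         omega)
      | (exfalso; nlinarith)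

theorem sp_zero (t m : ℕ) (hm : 0 < m) (h : (2 * t) % (2 * m) = m) : c1 ((t : ℝ) / m) = 0 := by
  have h1 : ∃ q : ℕ, 2 * t = 2 * m * q + m := ⟨(2 * t) / (2 * m), by
    have := Nat.div_add_mod (2 * t) (2 * m)
    rw [h] at this
    exact this.symm⟩
  obtain ⟨q, hq⟩ := h1
  have hm' : (m : ℝ) ≠ 0 := Nat.cast_ne_zero.2 hm.ne'
  have h2 : (2 : ℝ) * t = 2 * m * q + m := by exact_mod_cast hq
  have h3 : (t : ℝ) / m = 1 / 2 + (q : ℤ) := by
    push_cast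
    field_simp
    linarith
  rw [h3, sp_c1_add_int]
  unfold c1
  have : Real.pi * (1 / 2) = Real.pi / 2 := by ring
  rw [this, Real.cos_pi_div_two]
  ring

/-- equality of the values from a congruence -/
theorem sp_val (a : ℚ) (L t : ℕ) (hL : 0 < L) (X : ℤ) (ha : a * L = X) (h : (L : ℤ) ∣ X - t) :
    c2 (a : ℝ) = c2 ((t : ℝ) / L) := by
  obtain ⟨q, hq⟩ := h
  have hL' : (L : ℝ) ≠ 0 := Nat.cast_ne_zero.2 hL.ne'
  have h1 : (a : ℝ) * L = X := by exact_mod_cast ha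
  have h2 : (X : ℝ) = L * q + t := by
    have : X = L * q + t := by linarith
    exact_mod_cast this
  have h3 : (a : ℝ) = (t : ℝ) / L + q := by
    field_simp
    linarith
  rw [h3, c2_add_int]

theorem sp_core (m0 A0 B0 C0 : ℕ) (hm : 0 < m0) (hA : 2 * A0 < m0) (hB : 2 * B0 < m0)
    (hC : 2 * C0 < m0) (x y w z : ℚ) (hw : w = 1/2 - x - y)
    (hn : c1 x ≠ 0 ∧ c1 y ≠ 0 ∧ c1 w ≠ 0 ∧ c1 z ≠ 0 ∧ c1 (w - z) ≠ 0 ∧ c1 (x - y) ≠ 0)
    (h : c1 x * c1 y * c1 w = c1 z * c1 (w - z) * c1 (x - y))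
    (n n1 n2 : ℤ) (eA : 1/2 - 2 * w = A0 / m0 + n) (eB : 2 * z - w = B0 / m0 + n1)
    (eC : x - y = C0 / m0 + n2)
    (hcov : ∀ a ∈ [0, 1], ∀ b ∈ [0, 1], ∀ c ∈ [0, 1], (a + b + c) % 2 = 0 →
      (m0, A0, B0, C0, a, b, c) ∈ itemsS.map Prod.fst) :
    Concl ![x, y, w, z, w - z, x - y] := by
  have hw' : (w : ℝ) = 1/2 - x - y := by rw [hw]; push_cast; ring
  -- the parity
  have h1 := ln_sp_alg x y w z hw'
  rw [h, sub_self] at h1
  have h2 : c1 (1/2 - 2 * (w : ℝ)) = c1 (2 * z - w) * c1 (x - y) := by linear_combination -h1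
  have rA : (1/2 - 2 * (w : ℝ)) = (A0 : ℝ) / m0 + n := by
    have := congrArg (fun q : ℚ => (q : ℝ)) eA
    push_cast at this
    exact this
  have rB : (2 * (z : ℝ) - w) = (B0 : ℝ) / m0 + n1 := by
    have := congrArg (fun q : ℚ => (q : ℝ)) eB
    push_cast at this
    exact this
  have rC : ((x : ℝ) - y) = (C0 : ℝ) / m0 + n2 := by
    have := congrArg (fun q : ℚ => (q : ℝ)) eC
    push_cast at this
    exact this
  rw [rA, rB, rC, sp_c1_add_int, sp_c1_add_int, sp_c1_add_int] at h2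
  have hpar := sp_parity _ _ _ (sp_c1_pos A0 m0 hm hA) (sp_c1_pos B0 m0 hm hB)
    (sp_c1_pos C0 m0 hm hC) n n1 n2 h2
  -- the residues
  set k : ℤ := n / 2 with hk
  obtain ⟨a, ha, ha'⟩ : ∃ a ∈ ([0, 1] : List ℕ), (a : ℤ) = n % 2 := by
    rcases Int.emod_two_eq n with h0 | h0
    · exact ⟨0, by simp, by simp [h0]⟩
    · exact ⟨1, by simp, by simp [h0]⟩
  obtain ⟨b, hb, hb'⟩ : ∃ b ∈ ([0, 1] : List ℕ), (b : ℤ) = (n1 - k) % 2 := by
    rcases Int.emod_two_eq (n1 - k) with h0 | h0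
    · exact ⟨0, by simp, by simp [h0]⟩
    · exact ⟨1, by simp, by simp [h0]⟩
  obtain ⟨c, hc, hc'⟩ : ∃ c ∈ ([0, 1] : List ℕ), (c : ℤ) = (n2 + k) % 2 := by
    rcases Int.emod_two_eq (n2 + k) with h0 | h0
    · exact ⟨0, by simp, by simp [h0]⟩
    · exact ⟨1, by simp, by simp [h0]⟩
  have hnk : n = 2 * k + a := by omega
  obtain ⟨k1, hk1⟩ : ∃ k1 : ℤ, n1 = k + 2 * k1 + b := ⟨(n1 - k) / 2, by omega⟩
  obtain ⟨k2, hk2⟩ : ∃ k2 : ℤ, n2 = -k + 2 * k2 + c := ⟨(n2 + k) / 2, by omega⟩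
  have habc : (a + b + c) % 2 = 0 := by omega
  have hmem := hcov a ha b hb c hc habc
  obtain ⟨-, xs, ys, ws, zs, vs, ds, g1, g2, g3, g4, g5, g6, g7⟩ := closS m0 A0 B0 C0 a b c hmem
  have hL : 0 < 8 * m0 := by omega
  have hmQ : (m0 : ℚ) ≠ 0 := Nat.cast_ne_zero.2 hm.ne'
  -- integer congruences
  have i1 : ((8 * m0 : ℕ) : ℤ) ∣ (2 * m0 : ℤ) - (ws + 4 * A0 + 4 * a * m0) := by
    have := (Nat.modEq_iff_dvd (n := 8 * m0)).1 g1
    push_cast at this ⊢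
    exact this
  have i2 : ((8 * m0 : ℕ) : ℤ) ∣ (m0 + 4 * B0 + 4 * b * m0 : ℤ) - (zs + 2 * A0 + 2 * a * m0) := by
    have := (Nat.modEq_iff_dvd (n := 8 * m0)).1 g2
    push_cast at this ⊢
    exact this
  have i3 : ((8 * m0 : ℕ) : ℤ) ∣ (m0 + 2 * A0 + 2 * a * m0 + 4 * C0 + 4 * c * m0 : ℤ) - xs := by
    have := (Nat.modEq_iff_dvd (n := 8 * m0)).1 g3
    push_cast at this ⊢
    exact this
  have i4 : ((8 * m0 : ℕ) : ℤ) ∣ (m0 + 2 * A0 + 2 * a * m0 : ℤ) - (ys + 4 * C0 + 4 * c * m0) := by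
    have := (Nat.modEq_iff_dvd (n := 8 * m0)).1 g4
    push_cast at this ⊢
    exact this
  have i5 : ((8 * m0 : ℕ) : ℤ) ∣ (ws : ℤ) - (vs + zs) := by
    have := (Nat.modEq_iff_dvd (n := 8 * m0)).1 g5
    push_cast at this ⊢
    exact this
  have i6 : ((8 * m0 : ℕ) : ℤ) ∣ (xs : ℤ) - (ds + ys) := by
    have := (Nat.modEq_iff_dvd (n := 8 * m0)).1 g6
    push_cast at this ⊢
    exact this
  -- the exponents of the given angles
  have W : w * (8 * m0 : ℕ) = ((2 * m0 - 4 * A0 - 4 * n * m0 : ℤ) : ℚ) := by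
    have : 1/2 - 2 * w - n = A0 / m0 := by linarith
    have h3 := (eq_div_iff hmQ).1 this
    push_cast
    linear_combination (-4) * h3
  have Z : z * (8 * m0 : ℕ) = ((m0 - 2 * A0 - 2 * n * m0 + 4 * B0 + 4 * n1 * m0 : ℤ) : ℚ) := by
    have : 2 * z - w - n1 = B0 / m0 := by linarith
    have h3 := (eq_div_iff hmQ).1 this
    push_cast at W ⊢
    linear_combination 4 * h3 + (1/2) * W
  have X : x * (8 * m0 : ℕ) = ((m0 + 2 * A0 + 2 * n * m0 + 4 * C0 + 4 * n2 * m0 : ℤ) : ℚ) := by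
    have : x - y - n2 = C0 / m0 := by linarith
    have h3 := (eq_div_iff hmQ).1 this
    push_cast at W ⊢
    linear_combination 4 * h3 - (1/2) * W + 4 * m0 * hw
  have Y : y * (8 * m0 : ℕ) = ((m0 + 2 * A0 + 2 * n * m0 - 4 * C0 - 4 * n2 * m0 : ℤ) : ℚ) := by
    push_cast at W X ⊢
    linear_combination (-1) * W - X + 8 * m0 * hw
  have V : (w - z) * (8 * m0 : ℕ) = (((2 * m0 - 4 * A0 - 4 * n * m0) -
      (m0 - 2 * A0 - 2 * n * m0 + 4 * B0 + 4 * n1 * m0) : ℤ) : ℚ) := by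
    rw [sub_mul, W, Z]; push_cast; ring
  have D : (x - y) * (8 * m0 : ℕ) = (((m0 + 2 * A0 + 2 * n * m0 + 4 * C0 + 4 * n2 * m0) -
      (m0 + 2 * A0 + 2 * n * m0 - 4 * C0 - 4 * n2 * m0) : ℤ) : ℚ) := by
    rw [sub_mul, X, Y]; push_cast; ring
  have dW : ((8 * m0 : ℕ) : ℤ) ∣ (2 * m0 - 4 * A0 - 4 * n * m0 : ℤ) - ws := by
    have : (2 * m0 - 4 * A0 - 4 * n * m0 : ℤ) - ws =
        ((2 * m0 : ℤ) - (ws + 4 * A0 + 4 * a * m0)) + ((8 * m0 : ℕ) : ℤ) * (-k) := by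
      rw [hnk]; push_cast; ring
    rw [this]
    exact dvd_add i1 (dvd_mul_right _ _)
  have dZ : ((8 * m0 : ℕ) : ℤ) ∣ (m0 - 2 * A0 - 2 * n * m0 + 4 * B0 + 4 * n1 * m0 : ℤ) - zs := by
    have : (m0 - 2 * A0 - 2 * n * m0 + 4 * B0 + 4 * n1 * m0 : ℤ) - zs =
        ((m0 + 4 * B0 + 4 * b * m0 : ℤ) - (zs + 2 * A0 + 2 * a * m0)) +
          ((8 * m0 : ℕ) : ℤ) * k1 := by
      rw [hnk, hk1]; push_cast; ring
    rw [this]
    exact dvd_add i2 (dvd_mul_right _ _)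
  have dX : ((8 * m0 : ℕ) : ℤ) ∣ (m0 + 2 * A0 + 2 * n * m0 + 4 * C0 + 4 * n2 * m0 : ℤ) - xs := by
    have : (m0 + 2 * A0 + 2 * n * m0 + 4 * C0 + 4 * n2 * m0 : ℤ) - xs =
        ((m0 + 2 * A0 + 2 * a * m0 + 4 * C0 + 4 * c * m0 : ℤ) - xs) +
          ((8 * m0 : ℕ) : ℤ) * k2 := by
      rw [hnk, hk2]; push_cast; ring
    rw [this]
    exact dvd_add i3 (dvd_mul_right _ _)
  have dY : ((8 * m0 : ℕ) : ℤ) ∣ (m0 + 2 * A0 + 2 * n * m0 - 4 * C0 - 4 * n2 * m0 : ℤ) - ys := by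
    have : (m0 + 2 * A0 + 2 * n * m0 - 4 * C0 - 4 * n2 * m0 : ℤ) - ys =
        ((m0 + 2 * A0 + 2 * a * m0 : ℤ) - (ys + 4 * C0 + 4 * c * m0)) +
          ((8 * m0 : ℕ) : ℤ) * (k - k2) := by
      rw [hnk, hk2]; push_cast; ring
    rw [this]
    exact dvd_add i4 (dvd_mul_right _ _)
  have dV : ((8 * m0 : ℕ) : ℤ) ∣ ((2 * m0 - 4 * A0 - 4 * n * m0) -
      (m0 - 2 * A0 - 2 * n * m0 + 4 * B0 + 4 * n1 * m0) : ℤ) - vs := by
    have e : ((2 * m0 - 4 * A0 - 4 * n * m0) -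
      (m0 - 2 * A0 - 2 * n * m0 + 4 * B0 + 4 * n1 * m0) : ℤ) - vs =
        ((2 * m0 - 4 * A0 - 4 * n * m0 : ℤ) - ws -
          ((m0 - 2 * A0 - 2 * n * m0 + 4 * B0 + 4 * n1 * m0 : ℤ) - zs)) +
          ((ws : ℤ) - (vs + zs)) := by ring
    rw [e]
    exact dvd_add (dvd_sub dW dZ) i5
  have dD : ((8 * m0 : ℕ) : ℤ) ∣ ((m0 + 2 * A0 + 2 * n * m0 + 4 * C0 + 4 * n2 * m0) -
      (m0 + 2 * A0 + 2 * n * m0 - 4 * C0 - 4 * n2 * m0) : ℤ) - ds := by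
    have e : ((m0 + 2 * A0 + 2 * n * m0 + 4 * C0 + 4 * n2 * m0) -
      (m0 + 2 * A0 + 2 * n * m0 - 4 * C0 - 4 * n2 * m0) : ℤ) - ds =
        ((m0 + 2 * A0 + 2 * n * m0 + 4 * C0 + 4 * n2 * m0 : ℤ) - xs -
          ((m0 + 2 * A0 + 2 * n * m0 - 4 * C0 - 4 * n2 * m0 : ℤ) - ys)) +
          ((xs : ℤ) - (ds + ys)) := by ring
    rw [e]
    exact dvd_add (dvd_sub dX dY) i6
  have vX := sp_val x _ _ hL _ X dX
  have vY := sp_val y _ _ hL _ Y dY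
  have vW := sp_val w _ _ hL _ W dW
  have vZ := sp_val z _ _ hL _ Z dZ
  have vV := sp_val (w - z) _ _ hL _ V dV
  have vD := sp_val (x - y) _ _ hL _ D dD
  obtain ⟨nx, ny, nw, nz, nv, nd⟩ := hn
  have cc : ∀ (q : ℝ) (t : ℕ), c2 q = c2 ((t : ℝ) / (8 * m0 : ℕ)) → c1 q ≠ 0 →
      (2 * t) % (16 * m0) = 8 * m0 → False := by
    intro q t hq hne ht
    have h3 : 2 * (8 * m0) = 16 * m0 := by ring
    have h4 := sp_zero t (8 * m0) hL (by rw [h3]; exact ht)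
    rw [ln_c2_c1, ln_c2_c1, h4] at hq
    apply hne
    have : c1 q ^ 2 = 0 := by rw [hq]; ring
    exact pow_eq_zero_iff (two_ne_zero) |>.1 this
  rcases g7 with ⟨t, ht, ht2⟩ | g7
  · exfalso
    simp only [List.mem_cons, List.not_mem_nil, or_false] at ht
    rcases ht with rfl | rfl | rfl | rfl | rfl | rfl
    · exact cc _ _ vX nx ht2
    · exact cc _ _ vY ny ht2
    · exact cc _ _ vW nw ht2
    · exact cc _ _ vZ nz ht2
    · exact cc _ _ vV (by push_cast; exact nv) ht2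
    · exact cc _ _ vD (by push_cast; exact nd) ht2
  · refine same_concl _ _ (same_of_vals _ _ ?_) g7
    intro i
    symm
    unfold cfg
    rw [c2_ang]
    fin_cases i
    · exact vX
    · exact vY
    · exact vW
    · exact vZ
    · exact vV
    · exact vD

/-- the hypotheses of the special lift -/
def SpH (x y w z : ℚ) : Prop := w = 1/2 - x - y ∧
  (c1 x ≠ 0 ∧ c1 y ≠ 0 ∧ c1 w ≠ 0 ∧ c1 z ≠ 0 ∧ c1 (w - z) ≠ 0 ∧ c1 (x - y) ≠ 0) ∧
  c1 x * c1 y * c1 w = c1 z * c1 (w - z) * c1 (x - y)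

theorem sp_c1_neg (a : ℝ) : c1 (-a) = c1 a := by
  unfold c1
  rw [mul_neg, Real.cos_neg]

theorem sp_c1_one_sub (a : ℝ) : c1 (1 - a) = - c1 a := by
  have h : (1 - a : ℝ) = -a + ((1 : ℤ) : ℝ) := by push_cast; ring
  rw [h, sp_c1_add_int, sp_c1_neg, zpow_one]
  ring

theorem sp_flipB {x y w z : ℚ} (h : SpH x y w z) : SpH x y w (w - z) := by
  obtain ⟨hw, ⟨n0, n1, n2, n3, n4, n5⟩, h⟩ := h
  have e : (w : ℝ) - ((w - z : ℚ) : ℝ) = z := by push_cast; ring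
  have e' : ((w - z : ℚ) : ℝ) = w - z := by push_cast; ring
  refine ⟨hw, ⟨n0, n1, n2, ?_, ?_, n5⟩, ?_⟩
  · rw [e']; exact n4
  · rw [e]; exact n3
  · rw [e, e', h]; ring

theorem sp_flipC {x y w z : ℚ} (h : SpH x y w z) : SpH y x w z := by
  obtain ⟨hw, ⟨n0, n1, n2, n3, n4, n5⟩, h⟩ := h
  have e : c1 ((y : ℝ) - x) = c1 (x - y) := by
    rw [← sp_c1_neg]
    congr 1
    ring
  refine ⟨by rw [hw]; ring, ⟨n1, n0, n2, n3, n4, ?_⟩, ?_⟩
  · rw [e]; exact n5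
  · rw [e, ← h]; ring

theorem sp_flipA {x y w z : ℚ} (h : SpH x y w z) : SpH (-x) (-y) (1 - w) (-z) := by
  obtain ⟨hw, ⟨n0, n1, n2, n3, n4, n5⟩, h⟩ := h
  have e0 : c1 ((-x : ℚ) : ℝ) = c1 x := by push_cast; exact sp_c1_neg _
  have e1 : c1 ((-y : ℚ) : ℝ) = c1 y := by push_cast; exact sp_c1_neg _
  have e2 : c1 ((1 - w : ℚ) : ℝ) = - c1 w := by push_cast; exact sp_c1_one_sub _
  have e3 : c1 ((-z : ℚ) : ℝ) = c1 z := by push_cast; exact sp_c1_neg _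
  have e4 : c1 (((1 - w : ℚ) : ℝ) - ((-z : ℚ) : ℝ)) = - c1 (w - z) := by
    rw [← sp_c1_one_sub]
    congr 1
    push_cast
    ring
  have e5 : c1 (((-x : ℚ) : ℝ) - ((-y : ℚ) : ℝ)) = c1 (x - y) := by
    rw [← sp_c1_neg]
    congr 1
    push_cast
    ring
  refine ⟨by rw [hw]; ring, ⟨?_, ?_, ?_, ?_, ?_, ?_⟩, ?_⟩
  · rw [e0]; exact n0
  · rw [e1]; exact n1
  · rw [e2]; exact neg_ne_zero.2 n2
  · rw [e3]; exact n3
  · rw [e4]; exact neg_ne_zero.2 n4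
  · rw [e5]; exact n5
  · rw [e0, e1, e2, e3, e4, e5]
    linear_combination -h

theorem sp_conclB {x y w z : ℚ} (h : Concl ![x, y, w, w - z, w - (w - z), x - y]) :
    Concl ![x, y, w, z, w - z, x - y] := by
  refine same_concl ![x, y, w, w - z, w - (w - z), x - y] _ (Or.inl ⟨rfl, ?_⟩) h
  have e : w - (w - z) = z := by ring
  rw [e]
  unfold R3
  exact Multiset.cons_swap _ _ _

theorem sp_conclC {x y w z : ℚ} (h : Concl ![y, x, w, z, w - z, y - x]) :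
    Concl ![x, y, w, z, w - z, x - y] := by
  refine same_concl ![y, x, w, z, w - z, y - x] _ (Or.inl ⟨?_, ?_⟩) h
  · unfold L3
    exact Multiset.cons_swap _ _ _
  · unfold R3
    have e : c2 ((y - x : ℚ) : ℝ) = c2 ((x - y : ℚ) : ℝ) := by
      rw [← c2_neg]
      congr 1
      push_cast
      ring
    show ({c2 (z : ℝ), c2 ((w - z : ℚ) : ℝ), c2 ((y - x : ℚ) : ℝ)} : Multiset ℝ) =
      {c2 (z : ℝ), c2 ((w - z : ℚ) : ℝ), c2 ((x - y : ℚ) : ℝ)}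
    rw [e]

theorem sp_conclA {x y w z : ℚ}
    (h : Concl ![-x, -y, 1 - w, -z, (1 - w) - (-z), (-x) - (-y)]) :
    Concl ![x, y, w, z, w - z, x - y] := by
  refine same_concl _ _ (same_of_vals _ _ ?_) h
  intro i
  fin_cases i
  · show c2 ((-x : ℚ) : ℝ) = c2 (x : ℝ)
    rw [← c2_neg]; congr 1; push_cast; ring
  · show c2 ((-y : ℚ) : ℝ) = c2 (y : ℝ)
    rw [← c2_neg]; congr 1; push_cast; ring
  · show c2 ((1 - w : ℚ) : ℝ) = c2 (w : ℝ)
    have e : ((1 - w : ℚ) : ℝ) = -(w : ℝ) + ((1 : ℤ) : ℝ) := by push_cast; ring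
    rw [e, c2_add_int, c2_neg]
  · show c2 ((-z : ℚ) : ℝ) = c2 (z : ℝ)
    rw [← c2_neg]; congr 1; push_cast; ring
  · show c2 (((1 - w) - (-z) : ℚ) : ℝ) = c2 ((w - z : ℚ) : ℝ)
    have e : (((1 - w) - (-z) : ℚ) : ℝ) = -((w - z : ℚ) : ℝ) + ((1 : ℤ) : ℝ) := by
      push_cast; ring
    rw [e, c2_add_int, c2_neg]
  · show c2 (((-x) - (-y) : ℚ) : ℝ) = c2 ((x - y : ℚ) : ℝ)
    rw [← c2_neg]; congr 1; push_cast; ring

/-- an angle with a given value -/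
def SpAng (q : ℚ) (A m : ℕ) : Prop := (∃ n : ℤ, q = A / m + n) ∨ (∃ n : ℤ, q = -(A / m) + n)

theorem sp_ang_of (q : ℚ) (A m : ℕ) (h : c2 (q : ℝ) = c2 ((A : ℝ) / m)) : SpAng q A m := by
  rcases c2_eq_c2 _ _ h.symm with ⟨n, hn⟩ | ⟨n, hn⟩
  · left
    exact ⟨n, Rat.cast_injective (α := ℝ) (by push_cast; exact hn)⟩
  · right
    exact ⟨n, Rat.cast_injective (α := ℝ) (by push_cast; exact hn)⟩

theorem sp_ang_neg {q : ℚ} {A m : ℕ} (h : SpAng q A m) (k : ℤ) : SpAng (-q + k) A m := by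
  rcases h with ⟨n, hn⟩ | ⟨n, hn⟩
  · right
    exact ⟨-n + k, by rw [hn]; push_cast; ring⟩
  · left
    exact ⟨-n + k, by rw [hn]; push_cast; ring⟩

section

variable (m0 A0 B0 C0 : ℕ) (hm : 0 < m0) (hA : 2 * A0 < m0) (hB : 2 * B0 < m0)
    (hC : 2 * C0 < m0)
    (hcov : ∀ a ∈ [0, 1], ∀ b ∈ [0, 1], ∀ c ∈ [0, 1], (a + b + c) % 2 = 0 →
      (m0, A0, B0, C0, a, b, c) ∈ itemsS.map Prod.fst)

include hm hA hB hC hcov

theorem sp_stage1 (x y w z : ℚ) (h : SpH x y w z) (n n1 : ℤ) (eA : 1/2 - 2 * w = A0 / m0 + n)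
    (eB : 2 * z - w = B0 / m0 + n1) (eC : SpAng (x - y) C0 m0) :
    Concl ![x, y, w, z, w - z, x - y] := by
  rcases eC with ⟨n2, eC⟩ | ⟨n2, eC⟩
  · exact sp_core m0 A0 B0 C0 hm hA hB hC x y w z h.1 h.2.1 h.2.2 n n1 n2 eA eB eC hcov
  · apply sp_conclC
    have h' := sp_flipC h
    exact sp_core m0 A0 B0 C0 hm hA hB hC y x w z h'.1 h'.2.1 h'.2.2 n n1 (-n2) eA eB
      (by push_cast; linarith) hcov

theorem sp_stage2 (x y w z : ℚ) (h : SpH x y w z) (n : ℤ) (eA : 1/2 - 2 * w = A0 / m0 + n)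
    (eB : SpAng (2 * z - w) B0 m0) (eC : SpAng (x - y) C0 m0) :
    Concl ![x, y, w, z, w - z, x - y] := by
  rcases eB with ⟨n1, eB⟩ | ⟨n1, eB⟩
  · exact sp_stage1 m0 A0 B0 C0 hm hA hB hC hcov x y w z h n n1 eA eB eC
  · apply sp_conclB
    exact sp_stage1 m0 A0 B0 C0 hm hA hB hC hcov x y w (w - z) (sp_flipB h) n (-n1) eA
      (by push_cast; linarith) eC

theorem sp_stage3 (x y w z : ℚ) (h : SpH x y w z) (eA : SpAng (1/2 - 2 * w) A0 m0)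
    (eB : SpAng (2 * z - w) B0 m0) (eC : SpAng (x - y) C0 m0) :
    Concl ![x, y, w, z, w - z, x - y] := by
  rcases eA with ⟨n, eA⟩ | ⟨n, eA⟩
  · exact sp_stage2 m0 A0 B0 C0 hm hA hB hC hcov x y w z h n eA eB eC
  · apply sp_conclA
    refine sp_stage2 m0 A0 B0 C0 hm hA hB hC hcov (-x) (-y) (1 - w) (-z) (sp_flipA h) (-n - 1)
      (by push_cast; linarith) ?_ ?_
    · have := sp_ang_neg eB (-1)
      have e : 2 * (-z) - (1 - w) = -(2 * z - w) + ((-1 : ℤ) : ℚ) := by push_cast; ring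
      rw [e]
      exact this
    · have := sp_ang_neg eC 0
      have e : (-x) - (-y) = -(x - y) + ((0 : ℤ) : ℚ) := by push_cast; ring
      rw [e]
      exact this

end

/-- reduction to the multiplier one by a Galois conjugation, with the level -/
theorem sp_gal_reduce (a : Fin 6 → ℚ) (n : ℕ) (hn : 0 < n) (u : ℤ)
    (hu : IsCoprime u (2 * n : ℤ)) :
    ∃ (M : ℕ) (s : Fin 6 → ℤ) (w : ℤ), 0 < M ∧ a = ang M s ∧ IsCoprime w (2 * M : ℤ) ∧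
      IsCoprime w 6 ∧ (n : ℤ) ∣ w * u - 1 ∧ (Concl (fun i => (w : ℚ) * a i) → Concl a) := by
  obtain ⟨M, s, hM, hd, rfl⟩ := exists_level a (3 * n) (by omega)
  have hu' : IsCoprime u ((2 * n : ℕ) : ℤ) := by exact_mod_cast hu
  obtain ⟨v, hv1, hv2⟩ := gc_inv_mod (2 * n) u hu'
  have hd2 : 2 * n ∣ 2 * M := Nat.mul_dvd_mul_left 2 ((dvd_mul_left n 3).trans hd)
  obtain ⟨w, hw1, hw2⟩ := Eng.lift_unit' (2 * n) (2 * M) (by omega) hd2 v hv1
  have hw2' : IsCoprime w (2 * M : ℤ) := by exact_mod_cast hw2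
  refine ⟨M, s, w, hM, rfl, hw2', ?_, ?_, ?_⟩
  · obtain ⟨c, hc⟩ := (dvd_mul_right 3 n).trans hd
    have : (2 * M : ℤ) = 6 * c := by rw [hc]; push_cast; ring
    rw [this] at hw2'
    exact hw2'.of_mul_right_left
  · have h1 : (n : ℤ) ∣ ((2 * n : ℕ) : ℤ) := by push_cast; exact dvd_mul_left _ _
    have h2 : w * u - 1 = (w - v) * u + (v * u - 1) := by ring
    rw [h2]
    exact dvd_add ((h1.trans hw1).mul_right u) (h1.trans hv2)
  · intro h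
    apply concl_galois' M hM s w hw2'
    have e : ang M (fun i => w * s i) = fun i => (w : ℚ) * ang M s i := by
      funext i; unfold ang; push_cast; ring
    rw [e]; exact h

theorem sp_dot_mul (e : ℤ) (s : Fin 6 → ℤ) (μ : Fin 16) :
    dot μ (fun i => e * s i) = e * dot μ s := by
  fin_cases μ <;> simp [dot] <;> ring

theorem sp_rel_galois (M : ℕ) (hM : 0 < M) (s : Fin 6 → ℤ) (e : ℤ) (he : IsCoprime e (2 * M : ℤ))
    (h : Rel (2 * M) s) : Rel (2 * M) (fun i => e * s i) := by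
  unfold Rel at *
  have h2 := rt_galois Finset.univ (2 * M) (by omega) sg (fun μ => dot μ s) e
    (by exact_mod_cast he) h
  simp only [sp_dot_mul]
  exact h2

theorem sp_rt_c1 (M : ℕ) (hM : 0 < M) (s : Fin 6 → ℤ) (i : Fin 6) :
    rt (2 * M) (s i) + rt (2 * M) (-s i) = ((c1 ((ang M s i : ℚ) : ℝ) : ℝ) : ℂ) := by
  rw [rt_add_inv M hM]
  unfold c1 ang
  push_cast
  rfl

theorem sp_rel_c1 (M : ℕ) (hM : 0 < M) (s : Fin 6 → ℤ) : Rel (2 * M) s ↔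
    c1 ((ang M s 0 : ℚ) : ℝ) * c1 ((ang M s 1 : ℚ) : ℝ) * c1 ((ang M s 2 : ℚ) : ℝ) =
    c1 ((ang M s 3 : ℚ) : ℝ) * c1 ((ang M s 4 : ℚ) : ℝ) * c1 ((ang M s 5 : ℚ) : ℝ) := by
  rw [rel_iff]
  simp only [sp_rt_c1 M hM]
  norm_cast

theorem sp_nd_c1 (M : ℕ) (hM : 0 < M) (s : Fin 6 → ℤ) : ND (2 * M) s ↔
    ∀ i, c1 ((ang M s i : ℚ) : ℝ) ≠ 0 := by
  unfold ND
  apply forall_congr'
  intro i
  rw [sp_rt_c1 M hM, Ne, Ne, Complex.ofReal_eq_zero]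

/-- a value one comes from a third -/
theorem sp_third (g m : ℕ) (hm : 0 < m) (hg : 2 * g < m) (h : c2 ((g : ℝ) / m) = 1) :
    3 * g = m := by
  have h1 := (c2_eq_one_iff m hm (g : ℤ)).1 (by push_cast; exact h)
  obtain ⟨⟨t, ht⟩, h2⟩ := h1
  have h3 : 3 * (g : ℤ) = m * t := by push_cast at ht; linarith
  have hm' : (0 : ℤ) < m := by exact_mod_cast hm
  have hg' : (2 : ℤ) * g < m := by exact_mod_cast hg
  have hg0 : (0 : ℤ) < g := by
    rcases Nat.eq_zero_or_pos g with h0 | h0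
    · exfalso
      apply h2
      rw [h0]
      simp
    · exact_mod_cast h0
  have t1 : 0 < t := by
    by_contra hc
    push Not at hc
    nlinarith
  have t2 : t < 2 := by
    by_contra hc
    push Not at hc
    nlinarith
  have t3 : t = 1 := by omega
  rw [t3, mul_one] at h3
  exact_mod_cast h3

theorem sp_arr_idx : ∀ p ∈ arr, ∀ i ∈ [0, 1, 2, 3, 4, 5], p.getD i 0 ∈ [0, 1, 2, 3, 4, 5] := by
  decide

theorem sp_ga_lt (r : ℕ × List ℕ) (hr : r ∈ tab) (p : List ℕ) (hp : p ∈ arr) (i : ℕ)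
    (hi : i ∈ [0, 1, 2, 3, 4, 5]) : 2 * ga r p i < r.1 :=
  (tab_lt r hr).2 _ (sp_arr_idx p hp i hi)

theorem sp_c2_mul_third (e : ℤ) (he : IsCoprime e 6) : c2 ((e : ℝ) * (1/3)) = 1 := by
  have h3 : IsCoprime e 3 := by
    have h : (6 : ℤ) = 3 * 2 := by norm_num
    rw [h] at he
    exact he.of_mul_right_left
  have h1 : ¬ (3 : ℤ) ∣ e := by
    intro hd
    have := Int.isUnit_iff.1 (h3.isUnit_of_dvd' hd dvd_rfl)
    omega
  have h2 : (3 : ℤ) ∣ e - 1 ∨ (3 : ℤ) ∣ e + 1 := by omega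
  have h4 := (c2_eq_iff 3 (by norm_num) e 1).2 (by exact_mod_cast h2)
  have h5 : (e : ℝ) * (1/3) = (e : ℝ) / ((3 : ℕ) : ℝ) := by push_cast; ring
  rw [h5, h4]
  have h6 : (((1 : ℤ) : ℝ) / ((3 : ℕ) : ℝ)) = 1/3 := by norm_num
  rw [h6, c2_third]

theorem Sp_tab (x y w z : ℚ) (hw : w = 1/2 - x - y) (hsin : Real.sin (Real.pi * w) ≠ 0)
    (hn : c1 x ≠ 0 ∧ c1 y ≠ 0 ∧ c1 w ≠ 0 ∧ c1 z ≠ 0 ∧ c1 (w - z) ≠ 0 ∧ c1 (x - y) ≠ 0)
    (h : c1 x * c1 y * c1 w = c1 z * c1 (w - z) * c1 (x - y))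
    (ht : Tab ![1/2 - 2 * w, 1/3, 1/3, 2 * z - w, x - y, 1/3]) :
    Concl ![x, y, w, z, w - z, x - y] := by
  obtain ⟨r, hr, u, hu, hS⟩ := ht
  have hr0 : 0 < r.1 := gc_tab_pos r hr
  obtain ⟨M, s, e, hM, hs, hcop, he6, hdvd, hC⟩ :=
    sp_gal_reduce ![x, y, w, z, w - z, x - y] r.1 hr0 u hu
  apply hC
  -- the conjugated relation
  have s0 : ang M s 0 = x := (congrFun hs 0).symm
  have s1 : ang M s 1 = y := (congrFun hs 1).symm
  have s2 : ang M s 2 = w := (congrFun hs 2).symm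
  have s3 : ang M s 3 = z := (congrFun hs 3).symm
  have s4 : ang M s 4 = w - z := (congrFun hs 4).symm
  have s5 : ang M s 5 = x - y := (congrFun hs 5).symm
  have c4 : (((w - z : ℚ)) : ℝ) = w - z := by push_cast; ring
  have c5 : (((x - y : ℚ)) : ℝ) = x - y := by push_cast; ring
  have hRel : Rel (2 * M) s := by
    rw [sp_rel_c1 M hM, s0, s1, s2, s3, s4, s5, c4, c5]
    exact h
  have hND : ND (2 * M) s := by
    rw [sp_nd_c1 M hM]
    obtain ⟨n0, n1, n2, n3, n4, n5⟩ := hn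
    intro i
    fin_cases i
    · show c1 ((ang M s 0 : ℚ) : ℝ) ≠ 0
      rw [s0]; exact n0
    · show c1 ((ang M s 1 : ℚ) : ℝ) ≠ 0
      rw [s1]; exact n1
    · show c1 ((ang M s 2 : ℚ) : ℝ) ≠ 0
      rw [s2]; exact n2
    · show c1 ((ang M s 3 : ℚ) : ℝ) ≠ 0
      rw [s3]; exact n3
    · show c1 ((ang M s 4 : ℚ) : ℝ) ≠ 0
      rw [s4, c4]; exact n4
    · show c1 ((ang M s 5 : ℚ) : ℝ) ≠ 0
      rw [s5, c5]; exact n5
  have hRel' := sp_rel_galois M hM s e hcop hRel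
  have hSol' := sol_galois M hM s e hcop (sol_of_rel M hM s hRel hND)
  have es : ∀ i, ang M (fun i => e * s i) i = (e : ℚ) * ang M s i := by
    intro i; unfold ang; push_cast; ring
  have hnz : ∀ i, c1 (((e : ℚ) * ang M s i : ℚ) : ℝ) ≠ 0 := by
    intro i hi
    apply hSol'.1 i
    rw [es, ln_c2_c1, hi]
    ring
  rw [sp_rel_c1 M hM] at hRel'
  simp only [es, s0, s1, s2, s3, s4, s5] at hRel'
  have z0 := hnz 0
  have z1 := hnz 1
  have z2 := hnz 2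
  have z3 := hnz 3
  have z4 := hnz 4
  have z5 := hnz 5
  rw [s0] at z0
  rw [s1] at z1
  rw [s2] at z2
  rw [s3] at z3
  rw [s4] at z4
  rw [s5] at z5
  -- the new angles
  obtain ⟨k, hk⟩ : ∃ k : ℤ, e = 2 * k + 1 := by
    have h2 : IsCoprime e 2 := by
      have h : (6 : ℤ) = 2 * 3 := by norm_num
      rw [h] at he6
      exact he6.of_mul_right_left
    have h1 : ¬ (2 : ℤ) ∣ e := by
      intro hd
      have := Int.isUnit_iff.1 (h2.isUnit_of_dvd' hd dvd_rfl)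
      omega
    exact ⟨e / 2, by omega⟩
  have hkQ : (e : ℚ) = 2 * k + 1 := by exact_mod_cast hk
  set w' : ℚ := 1/2 - e * x - e * y with hw'
  have ew : (e : ℚ) * w = w' + k := by rw [hw', hw, hkQ]; ring
  have ewz : (e : ℚ) * (w - z) = (w' - e * z) + k := by rw [mul_sub, ew]; ring
  have exy : (e : ℚ) * (x - y) = e * x - e * y := by ring
  have eA : (e : ℚ) * (1/2 - 2 * w) = (1/2 - 2 * w') + ((-k : ℤ) : ℚ) := by
    have : (e : ℚ) * (1/2 - 2 * w) = e * (1/2) - 2 * (e * w) := by ring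
    rw [this, ew, hkQ]; push_cast; ring
  have eB : (e : ℚ) * (2 * z - w) = (2 * (e * z) - w') + ((-k : ℤ) : ℚ) := by
    have : (e : ℚ) * (2 * z - w) = 2 * (e * z) - e * w := by ring
    rw [this, ew]; push_cast; ring
  have cw : c1 (((e : ℚ) * w : ℚ) : ℝ) = (-1) ^ k * c1 (w' : ℝ) := by
    rw [ew, ← sp_c1_add_int]; push_cast; rfl
  have cwz : c1 (((e : ℚ) * (w - z) : ℚ) : ℝ) =
      (-1) ^ k * c1 ((w' : ℝ) - ((e * z : ℚ) : ℝ)) := by
    rw [ewz, ← sp_c1_add_int]; push_cast; rfl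
  have cxy : c1 (((e : ℚ) * (x - y) : ℚ) : ℝ) = c1 (((e * x : ℚ) : ℝ) - ((e * y : ℚ) : ℝ)) := by
    rw [exy]; push_cast; rfl
  have hpm : ((-1 : ℝ) ^ k) ≠ 0 := zpow_ne_zero _ (by norm_num)
  have hH : SpH (e * x) (e * y) w' (e * z) := by
    refine ⟨rfl, ⟨z0, z1, ?_, z3, ?_, ?_⟩, ?_⟩
    · intro h0; rw [cw, h0, mul_zero] at z2; exact z2 rfl
    · intro h0; rw [cwz, h0, mul_zero] at z4; exact z4 rfl
    · rw [← cxy]; exact z5
    · rw [cw, cwz, cxy] at hRel'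
      apply mul_left_cancel₀ hpm
      linear_combination hRel'
  have hfin : Concl ![(e : ℚ) * x, e * y, w', e * z, w' - e * z, e * x - e * y] := by
    -- the arrangement
    have hS1 : Same (fun i => (e : ℚ) * ![1/2 - 2 * w, 1/3, 1/3, 2 * z - w, x - y, 1/3] i)
        (ang r.1 (rep r)) := by
      have h1 := same_mul _ _ e hS
      refine same_trans _ _ _ h1 ?_
      have e1 : (fun i => (e : ℚ) * ang r.1 (fun i => u * rep r i) i) =
          ang r.1 (fun i => e * (u * rep r i)) := by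
        funext i; unfold ang; push_cast; ring
      rw [e1]
      apply same_of_dvd r.1 hr0
      intro i
      left
      have : e * (u * rep r i) - rep r i = (e * u - 1) * rep r i := by ring
      rw [this]
      exact hdvd.mul_right _
    obtain ⟨p, hp, a0, a1, a2, a3⟩ := arr_same _ r hS1
    have t1 : c2 (((e : ℚ) * (1/3) : ℚ) : ℝ) = 1 := by
      have := sp_c2_mul_third e he6
      push_cast
      exact this
    have a0' : c2 (((1/2 - 2 * w' : ℚ)) : ℝ) = c2 ((ga r p 0 : ℝ) / r.1) := by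
      rw [← a0]
      show _ = c2 (((e : ℚ) * (1/2 - 2 * w) : ℚ) : ℝ)
      rw [eA, Rat.cast_add, Rat.cast_intCast, c2_add_int]
    have a1' : (1 : ℝ) = c2 ((ga r p 1 : ℝ) / r.1) := by
      rw [← a1]
      exact t1.symm
    have a2' : (1 : ℝ) = c2 ((ga r p 2 : ℝ) / r.1) := by
      rw [← a2]
      exact t1.symm
    have vB : c2 (((e : ℚ) * (2 * z - w) : ℚ) : ℝ) = c2 ((2 * (e * z) - w' : ℚ) : ℝ) := by
      rw [eB, Rat.cast_add, Rat.cast_intCast, c2_add_int]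
    have a3' : ({c2 ((2 * (e * z) - w' : ℚ) : ℝ), c2 ((e * x - e * y : ℚ) : ℝ), 1} :
        Multiset ℝ) = {c2 ((ga r p 3 : ℝ) / r.1), c2 ((ga r p 4 : ℝ) / r.1),
          c2 ((ga r p 5 : ℝ) / r.1)} := by
      rw [← a3]
      unfold R3
      show _ = ({c2 (((e : ℚ) * (2 * z - w) : ℚ) : ℝ), c2 (((e : ℚ) * (x - y) : ℚ) : ℝ),
        c2 (((e : ℚ) * (1/3) : ℚ) : ℝ)} : Multiset ℝ)
      rw [vB, t1, exy]
    have g1 := sp_third _ _ hr0 (sp_ga_lt r hr p hp 1 (by simp)) a1'.symm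
    have g2 := sp_third _ _ hr0 (sp_ga_lt r hr p hp 2 (by simp)) a2'.symm
    have fin : ∀ σ ∈ [(3, 4, 5), (4, 3, 5), (3, 5, 4), (5, 3, 4), (4, 5, 3), (5, 4, 3)],
        σ.1 ∈ [0, 1, 2, 3, 4, 5] → σ.2.1 ∈ [0, 1, 2, 3, 4, 5] → σ.2.2 ∈ [0, 1, 2, 3, 4, 5] →
        c2 ((2 * (e * z) - w' : ℚ) : ℝ) = c2 ((ga r p σ.1 : ℝ) / r.1) →
        c2 ((e * x - e * y : ℚ) : ℝ) = c2 ((ga r p σ.2.1 : ℝ) / r.1) →
        (1 : ℝ) = c2 ((ga r p σ.2.2 : ℝ) / r.1) →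
        Concl ![(e : ℚ) * x, e * y, w', e * z, w' - e * z, e * x - e * y] := by
      intro σ hσ i1 i2 i3 hb hc hd
      have g3 := sp_third _ _ hr0 (sp_ga_lt r hr p hp _ i3) hd.symm
      exact sp_stage3 r.1 (ga r p 0) (ga r p σ.1) (ga r p σ.2.1) hr0
        (sp_ga_lt r hr p hp 0 (by simp)) (sp_ga_lt r hr p hp _ i1) (sp_ga_lt r hr p hp _ i2)
        (covS r hr p hp σ hσ g2 g1 g3) _ _ _ _ hH (sp_ang_of _ _ _ a0') (sp_ang_of _ _ _ hb)
        (sp_ang_of _ _ _ hc)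
    rcases triple_cases a3' with ⟨q0, q1, q2⟩ | ⟨q0, q1, q2⟩ | ⟨q0, q1, q2⟩ | ⟨q0, q1, q2⟩ |
      ⟨q0, q1, q2⟩ | ⟨q0, q1, q2⟩
    · exact fin (3, 4, 5) (by simp) (by simp) (by simp) (by simp) q0 q1 q2
    · exact fin (3, 5, 4) (by simp) (by simp) (by simp) (by simp) q0 q1 q2
    · exact fin (4, 3, 5) (by simp) (by simp) (by simp) (by simp) q0 q1 q2
    · exact fin (4, 5, 3) (by simp) (by simp) (by simp) (by simp) q0 q1 q2
    · exact fin (5, 3, 4) (by simp) (by simp) (by simp) (by simp) q0 q1 q2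
    · exact fin (5, 4, 3) (by simp) (by simp) (by simp) (by simp) q0 q1 q2
  refine same_concl _ _ (same_of_vals _ _ ?_) hfin
  intro i
  fin_cases i
  · rfl
  · rfl
  · show c2 (w' : ℝ) = c2 (((e : ℚ) * w : ℚ) : ℝ)
    rw [ew, Rat.cast_add, Rat.cast_intCast, c2_add_int]
  · rfl
  · show c2 ((w' - e * z : ℚ) : ℝ) = c2 (((e : ℚ) * (w - z) : ℚ) : ℝ)
    rw [ewz, Rat.cast_add _ (k : ℚ), Rat.cast_intCast, c2_add_int]
  · show c2 ((e * x - e * y : ℚ) : ℝ) = c2 (((e : ℚ) * (x - y) : ℚ) : ℝ)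
    rw [exy]

end Pool.Agent.TriCos
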