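import Pool.Agent.Lib_MP_6e4ab6_nt.Full.ClosData

/-! The verified closure statements. -/

namespace Pool.Agent.TriCos

open Eng

theorem closD (m0 w0 w1 b0 b1 b2 : ℕ)
    (h : (m0, w0, w1, b0, b1, b2) ∈ itemsD.map Prod.fst) :
    0 < m0 ∧ Concl (cfg (4 * m0) (2 * w0 + 3 * m0) (2 * w0 + m0) (4 * w1) (4 * b0) (4 * b1)
      (4 * b2)) := by
  obtain ⟨t, ht, he⟩ := List.mem_map.1 h
  obtain ⟨k, d, st⟩ := t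
  simp only at he
  subst he
  have h1 := List.all_eq_true.1 okD_all _ ht
  unfold okD at h1
  simp only [Bool.and_eq_true, Nat.ble_eq] at h1
  obtain ⟨⟨⟨g0, g1⟩, ⟨⟨⟨⟨g2, g3⟩, g4⟩, g5⟩, g6⟩, g7⟩, g8⟩ := h1
  exact ⟨g0, certOK_sound st (4 * m0) (by omega) (by omega) _ _ _ _ _ _ _
    ⟨g2, g3, g4, g5, g6, g7⟩ g8⟩

theorem closT (m0 w0 b0 b1 b2 : ℕ)
    (h : (m0, w0, b0, b1, b2) ∈ itemsT.map Prod.fst) :
    0 < m0 ∧ Concl (cfg (3 * m0) w0 (w0 + m0) (w0 + 2 * m0) (3 * b0) (3 * b1) (3 * b2)) := by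
  obtain ⟨t, ht, he⟩ := List.mem_map.1 h
  obtain ⟨k, d, st⟩ := t
  simp only at he
  subst he
  have h1 := List.all_eq_true.1 okT_all _ ht
  unfold okT at h1
  simp only [Bool.and_eq_true, Nat.ble_eq] at h1
  obtain ⟨⟨⟨g0, g1⟩, ⟨⟨⟨⟨g2, g3⟩, g4⟩, g5⟩, g6⟩, g7⟩, g8⟩ := h1
  exact ⟨g0, certOK_sound st (3 * m0) (by omega) (by omega) _ _ _ _ _ _ _
    ⟨g2, g3, g4, g5, g6, g7⟩ g8⟩

theorem closS (m0 A B C n n1 n2 : ℕ)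
    (h : (m0, A, B, C, n, n1, n2) ∈ itemsS.map Prod.fst) :
    0 < m0 ∧ ∃ x y w z v d : ℕ,
      (w + 4 * A + 4 * n * m0) % (8 * m0) = (2 * m0) % (8 * m0) ∧
      (z + 2 * A + 2 * n * m0) % (8 * m0) = (m0 + 4 * B + 4 * n1 * m0) % (8 * m0) ∧
      x % (8 * m0) = (m0 + 2 * A + 2 * n * m0 + 4 * C + 4 * n2 * m0) % (8 * m0) ∧
      (y + 4 * C + 4 * n2 * m0) % (8 * m0) = (m0 + 2 * A + 2 * n * m0) % (8 * m0) ∧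
      (v + z) % (8 * m0) = w % (8 * m0) ∧ (d + y) % (8 * m0) = x % (8 * m0) ∧
      ((∃ t ∈ [x, y, w, z, v, d], (2 * t) % (16 * m0) = 8 * m0) ∨
        Concl (cfg (8 * m0) x y w z v d)) := by
  obtain ⟨t, ht, he⟩ := List.mem_map.1 h
  obtain ⟨k, ⟨x, y, w, z, v, d⟩, c⟩ := t
  simp only at he
  subst he
  have h1 := List.all_eq_true.1 okS_all _ ht
  unfold okS at h1
  simp only [Bool.and_eq_true, Bool.or_eq_true, Nat.ble_eq, Nat.beq_eq] at h1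
  obtain ⟨⟨⟨⟨g0, g1⟩, ⟨⟨⟨⟨g2, g3⟩, g4⟩, g5⟩, g6⟩, g7⟩, ⟨⟨⟨⟨c1, c2⟩, c3⟩, c4⟩, c5⟩, c6⟩, g8⟩ := h1
  refine ⟨g0, x, y, w, z, v, d, c1, c2, c3, c4, c5, c6, ?_⟩
  rcases g8 with (((((g8 | g8) | g8) | g8) | g8) | g8) | g8
  · exact Or.inl ⟨x, by simp, g8⟩
  · exact Or.inl ⟨y, by simp, g8⟩
  · exact Or.inl ⟨w, by simp, g8⟩
  · exact Or.inl ⟨z, by simp, g8⟩
  · exact Or.inl ⟨v, by simp, g8⟩
  · exact Or.inl ⟨d, by simp, g8⟩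
  · exact Or.inr (certOK_sound NL.nil (8 * m0) (by omega) (by omega) _ _ _ _ _ _ _
      ⟨g2, g3, g4, g5, g6, g7⟩ g8)

/-- arrangement of a configuration which is the same as a row -/
theorem arr_same (a : Fin 6 → ℚ) (r : ℕ × List ℕ) (h : Same a (ang r.1 (rep r))) :
    ∃ p ∈ arr, c2 (a 0 : ℝ) = c2 ((ga r p 0 : ℝ) / r.1) ∧ c2 (a 1 : ℝ) = c2 ((ga r p 1 : ℝ) / r.1) ∧
      c2 (a 2 : ℝ) = c2 ((ga r p 2 : ℝ) / r.1) ∧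
      R3 a = {c2 ((ga r p 3 : ℝ) / r.1), c2 ((ga r p 4 : ℝ) / r.1), c2 ((ga r p 5 : ℝ) / r.1)} := by
  have e : ∀ i : Fin 6, c2 ((ang r.1 (rep r) i : ℚ) : ℝ) = c2 ((gg r i.val : ℝ) / r.1) := by
    intro i
    rw [c2_ang]
    unfold rep gg
    push_cast
    rfl
  unfold Same L3 R3 at h
  simp only [e] at h
  unfold R3
  rcases h with ⟨h1, h2⟩ | ⟨h1, h2⟩
  · rw [h2]
    rcases triple_cases h1 with ⟨g0, g1, g2⟩ | ⟨g0, g1, g2⟩ | ⟨g0, g1, g2⟩ | ⟨g0, g1, g2⟩ |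
      ⟨g0, g1, g2⟩ | ⟨g0, g1, g2⟩
    · exact ⟨[0,1,2,3,4,5], by decide, g0, g1, g2, rfl⟩
    · exact ⟨[0,2,1,3,4,5], by decide, g0, g1, g2, rfl⟩
    · exact ⟨[1,0,2,3,4,5], by decide, g0, g1, g2, rfl⟩
    · exact ⟨[1,2,0,3,4,5], by decide, g0, g1, g2, rfl⟩
    · exact ⟨[2,0,1,3,4,5], by decide, g0, g1, g2, rfl⟩
    · exact ⟨[2,1,0,3,4,5], by decide, g0, g1, g2, rfl⟩
  · rw [h2]
    rcases triple_cases h1 with ⟨g0, g1, g2⟩ | ⟨g0, g1, g2⟩ | ⟨g0, g1, g2⟩ | ⟨g0, g1, g2⟩ |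
      ⟨g0, g1, g2⟩ | ⟨g0, g1, g2⟩
    · exact ⟨[3,4,5,0,1,2], by decide, g0, g1, g2, rfl⟩
    · exact ⟨[3,5,4,0,1,2], by decide, g0, g1, g2, rfl⟩
    · exact ⟨[4,3,5,0,1,2], by decide, g0, g1, g2, rfl⟩
    · exact ⟨[4,5,3,0,1,2], by decide, g0, g1, g2, rfl⟩
    · exact ⟨[5,3,4,0,1,2], by decide, g0, g1, g2, rfl⟩
    · exact ⟨[5,4,3,0,1,2], by decide, g0, g1, g2, rfl⟩

/-- the entries of the table are positive and less than half the level -/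
theorem tab_lt : ∀ r ∈ tab, 0 < r.1 ∧ ∀ i ∈ [0, 1, 2, 3, 4, 5], 2 * gg r i < r.1 := by
  decide +kernel

end Pool.Agent.TriCos
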