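import Pool.Agent.Lib_MP_6e4ab6_nt.Full.Basic

/-!
# Basic facts on the roots of unity `rt N k`
-/

namespace Pool.Agent.TriCos

open Finset

theorem rt_zero (N : ℕ) : rt N 0 = 1 := by simp [rt]

theorem rt_add (N : ℕ) (a b : ℤ) : rt N (a + b) = rt N a * rt N b := by
  unfold rt
  rw [← Complex.exp_add]
  congr 1
  push_cast
  ring

theorem rt_ne_zero (N : ℕ) (a : ℤ) : rt N a ≠ 0 := Complex.exp_ne_zero _

theorem rt_neg (N : ℕ) (a : ℤ) : rt N (-a) = (rt N a)⁻¹ := by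
  have h : rt N (-a) * rt N a = 1 := by rw [← rt_add, neg_add_cancel, rt_zero]
  exact eq_inv_of_mul_eq_one_left h

theorem rt_sub (N : ℕ) (a b : ℤ) : rt N (a - b) = rt N a / rt N b := by
  rw [sub_eq_add_neg, rt_add, rt_neg, div_eq_mul_inv]

theorem rt_mul (N : ℕ) (n : ℕ) (a : ℤ) : rt N (n * a) = rt N a ^ n := by
  unfold rt
  rw [← Complex.exp_nat_mul]
  congr 1
  push_cast
  ring

theorem rt_zmul (N : ℕ) (n a : ℤ) : rt N (n * a) = rt N a ^ n := by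
  unfold rt
  rw [← Complex.exp_int_mul]
  congr 1
  push_cast
  ring

theorem norm_rt (N : ℕ) (a : ℤ) : ‖rt N a‖ = 1 := by
  have h : (2 * Real.pi * Complex.I * (a / N) : ℂ) = ((2 * Real.pi * (a / N) : ℝ) : ℂ) * Complex.I := by
    push_cast; ring
  unfold rt
  rw [h, Complex.norm_exp_ofReal_mul_I]

theorem rt_scale (N c : ℕ) (hc : 0 < c) (k : ℤ) : rt (c * N) (c * k) = rt N k := by
  have hc' : (c : ℂ) ≠ 0 := Nat.cast_ne_zero.mpr hc.ne'
  unfold rt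
  congr 1
  push_cast
  rcases Nat.eq_zero_or_pos N with rfl | hN
  · simp
  · have hN' : (N : ℂ) ≠ 0 := Nat.cast_ne_zero.mpr hN.ne'
    field_simp

theorem rt_eq_one_iff (N : ℕ) (hN : 0 < N) (k : ℤ) : rt N k = 1 ↔ (N : ℤ) ∣ k := by
  have hN' : (N : ℂ) ≠ 0 := Nat.cast_ne_zero.mpr hN.ne'
  have hpi : (2 * Real.pi * Complex.I : ℂ) ≠ 0 := Complex.two_pi_I_ne_zero
  unfold rt
  rw [Complex.exp_eq_one_iff]
  constructor
  · rintro ⟨n, hn⟩
    refine ⟨n, ?_⟩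
    have h1 : (k / N : ℂ) = n := by
      apply mul_left_cancel₀ hpi
      rw [hn]; ring
    have h2 : (k : ℂ) = N * n := by
      field_simp at h1
      rw [h1]
      try ring
    exact_mod_cast h2
  · rintro ⟨n, rfl⟩
    refine ⟨n, ?_⟩
    push_cast
    field_simp

theorem rt_eq_iff (N : ℕ) (hN : 0 < N) (k l : ℤ) : rt N k = rt N l ↔ (N : ℤ) ∣ k - l := by
  rw [← rt_eq_one_iff N hN, rt_sub, div_eq_one_iff_eq (rt_ne_zero _ _)]

theorem rt_half (m : ℕ) (hm : 0 < m) : rt (2 * m) m = -1 := by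
  have hm' : (m : ℂ) ≠ 0 := Nat.cast_ne_zero.mpr hm.ne'
  unfold rt
  have : (2 * Real.pi * Complex.I * (((m : ℤ) : ℂ) / ((2 * m : ℕ) : ℂ)) : ℂ) = Real.pi * Complex.I := by
    push_cast
    field_simp
  rw [this, Complex.exp_pi_mul_I]

theorem conj_rt (N : ℕ) (k : ℤ) : (starRingEnd ℂ) (rt N k) = rt N (-k) := by
  rw [rt_neg, Complex.inv_def, Complex.normSq_eq_norm_sq, norm_rt]
  simp

/-- `rt (2m) s + rt (2m) (-s) = 2 cos (π s / m)` -/
theorem rt_add_inv (m : ℕ) (hm : 0 < m) (s : ℤ) :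
    rt (2 * m) s + rt (2 * m) (-s) = ((2 * Real.cos (Real.pi * ((s : ℝ) / m)) : ℝ) : ℂ) := by
  have hm' : (m : ℂ) ≠ 0 := Nat.cast_ne_zero.mpr hm.ne'
  unfold rt
  have h1 : (2 * Real.pi * Complex.I * ((s : ℂ) / ((2 * m : ℕ) : ℂ)) : ℂ)
      = (Real.pi * ((s : ℂ) / m)) * Complex.I := by
    push_cast
    field_simp
  have h2 : (2 * Real.pi * Complex.I * (((-s : ℤ) : ℂ) / ((2 * m : ℕ) : ℂ)) : ℂ)
      = -(Real.pi * ((s : ℂ) / m)) * Complex.I := by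
    push_cast
    field_simp
  rw [h1, h2]
  push_cast
  rw [Complex.cos]
  ring

end Pool.Agent.TriCos
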