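import Pool.Agent.Lib_MP_6e4ab6_nt.Full.EngDefs
import Pool.Agent.Lib_MP_6e4ab6_nt.Full.Rt

/-! Basic facts on the lists of the enumeration engine. -/

namespace Pool.Agent.TriCos.Eng

/-- membership -/
def In (z : ℕ) : NL → Prop
  | NL.nil => False
  | NL.cons a t => z = a ∨ In z t

/-- the sum of the roots of unity in the list -/
noncomputable def vsum (N : ℕ) : NL → ℂ
  | NL.nil => 0
  | NL.cons a t => rt N (a : ℤ) + vsum N t

theorem and'_eq (a b : Bool) : and' a b = (a && b) := by cases a <;> rfl
theorem or'_eq (a b : Bool) : or' a b = (a || b) := by cases a <;> rfl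
theorem and'_true (a b : Bool) : and' a b = true ↔ a = true ∧ b = true := by
  cases a <;> cases b <;> decide
theorem or'_true (a b : Bool) : or' a b = true ↔ a = true ∨ b = true := by
  cases a <;> cases b <;> decide
theorem beq_true (a b : ℕ) : Nat.beq a b = true ↔ a = b := by rw [Nat.beq_eq]
theorem ble_true (a b : ℕ) : Nat.ble a b = true ↔ a ≤ b := by rw [Nat.ble_eq]

/-- nested conjunction written with the recursor -/
theorem rec_false (a b : Bool) :
    (Bool.rec (motive := fun _ => Bool) false b a = true) ↔ (a = true ∧ b = true) := by
  cases a <;> cases b <;> decide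
/-- nested implication written with the recursor -/
theorem rec_imp (a b : Bool) :
    (Bool.rec (motive := fun _ => Bool) true b a = true) ↔ (a = true → b = true) := by
  cases a <;> cases b <;> decide
theorem rec_or (a b : Bool) :
    (Bool.rec (motive := fun _ => Bool) b true a = true) ↔ (a = true ∨ b = true) := by
  cases a <;> cases b <;> decide
theorem rec_not (a : Bool) :
    (Bool.rec (motive := fun _ => Bool) true false a = true) ↔ ¬ (a = true) := by
  cases a <;> decide

theorem all_true (f : ℕ → Bool) (l : NL) : all f l = true ↔ ∀ a, In a l → f a = true := by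
  induction l with
  | nil => simp [all, In]
  | cons a t ih =>
    have : all f (NL.cons a t) = Bool.rec (motive := fun _ => Bool) false (all f t) (f a) := rfl
    rw [this, rec_false, ih]
    constructor
    · rintro ⟨h1, h2⟩ b (rfl | hb)
      · exact h1
      · exact h2 b hb
    · intro h
      exact ⟨h a (Or.inl rfl), fun b hb => h b (Or.inr hb)⟩

theorem mem_true (z : ℕ) (l : NL) : mem z l = true ↔ In z l := by
  induction l with
  | nil => simp [mem, In]
  | cons a t ih =>
    have : mem z (NL.cons a t) = Bool.rec (motive := fun _ => Bool) (mem z t) true (Nat.beq a z) := rfl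
    rw [this, rec_or, ih, beq_true]
    show a = z ∨ In z t ↔ z = a ∨ In z t
    constructor
    · rintro (h | h)
      · exact Or.inl h.symm
      · exact Or.inr h
    · rintro (h | h)
      · exact Or.inl h.symm
      · exact Or.inr h

theorem in_app (z : ℕ) (l r : NL) : In z (app l r) ↔ In z l ∨ In z r := by
  induction l with
  | nil => show In z r ↔ False ∨ In z r; simp
  | cons a t ih =>
    have : app (NL.cons a t) r = NL.cons a (app t r) := rfl
    rw [this]
    show z = a ∨ In z (app t r) ↔ (z = a ∨ In z t) ∨ In z r
    rw [ih, or_assoc]

end Pool.Agent.TriCos.Eng
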