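import Pool.Agent.Lib_MP_6e4ab6_nt.Full.EngBase

/-! Soundness of the loops of the enumeration engine. -/

namespace Pool.Agent.TriCos.Eng

theorem inner_true (q : ℕ) (F : ℕ → ℕ → Bool) (P cd : ℕ) (l : NL) :
    inner q F P cd l = true ↔ ∀ e, In e l → F ((P * e) % q) (cd + 262144 * (e / q)) = true := by
  induction l with
  | nil => simp [inner, In]
  | cons a t ih =>
    have : inner q F P cd (NL.cons a t) = Bool.rec (motive := fun _ => Bool) false
      (inner q F P cd t) (F ((P * a) % q) (cd + 262144 * (a / q))) := rfl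
    rw [this, rec_false, ih]
    constructor
    · rintro ⟨h1, h2⟩ b (rfl | hb)
      · exact h1
      · exact h2 b hb
    · intro h
      exact ⟨h a (Or.inl rfl), fun b hb => h b (Or.inr hb)⟩

/-- the test for an ordered pair -/
def G2 (q : ℕ) (F : ℕ → ℕ → Bool) (P cd b c : ℕ) : Prop :=
  F (((P * b) % q * c) % q) (cd + 512 * (b / q) + 262144 * (c / q)) = true

theorem pair_true (q : ℕ) (F : ℕ → ℕ → Bool) (P cd : ℕ) (l : NL) (h : pair q F P cd l = true) :
    ∀ b c, In b l → In c l → G2 q F P cd b c ∨ G2 q F P cd c b := by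
  induction l with
  | nil => intro b c hb; exact absurd hb (by simp [In])
  | cons a t ih =>
    have e : pair q F P cd (NL.cons a t) = Bool.rec (motive := fun _ => Bool) false
      (pair q F P cd t) (inner q F ((P * a) % q) (cd + 512 * (a / q)) (NL.cons a t)) := rfl
    rw [e, rec_false, inner_true] at h
    obtain ⟨h1, h2⟩ := h
    intro b c hb hc
    rcases hb with rfl | hb
    · left
      exact h1 c hc
    · rcases hc with rfl | hc
      · right
        exact h1 b (Or.inr hb)
      · exact ih h2 b c hb hc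

/-- the test for an ordered triple -/
def G3 (q : ℕ) (F : ℕ → ℕ → Bool) (a b c : ℕ) : Prop :=
  F (((a * b) % q * c) % q) (a / q + 512 * (b / q) + 262144 * (c / q)) = true

/-- the test holds for some order -/
def T3 (q : ℕ) (F : ℕ → ℕ → Bool) (a b c : ℕ) : Prop :=
  G3 q F a b c ∨ G3 q F a c b ∨ G3 q F b a c ∨ G3 q F b c a ∨ G3 q F c a b ∨ G3 q F c b a

theorem trip_true (q : ℕ) (F : ℕ → ℕ → Bool) (r l : NL) (h : trip q F r l = true)
    (hr : ∀ a b c, In a r → In b r → In c r → T3 q F a b c) :
    ∀ a b c, In a (app l r) → In b (app l r) → In c (app l r) → T3 q F a b c := by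
  induction l with
  | nil => exact hr
  | cons x t ih =>
    have e : trip q F r (NL.cons x t) = Bool.rec (motive := fun _ => Bool) false
      (trip q F r t) (pair q F x (x / q) (app (NL.cons x t) r)) := rfl
    rw [e, rec_false] at h
    obtain ⟨h1, h2⟩ := h
    have h3 := pair_true _ _ _ _ _ h1
    have h4 := ih h2
    have key : ∀ b c, In b (app (NL.cons x t) r) → In c (app (NL.cons x t) r) →
        G3 q F x b c ∨ G3 q F x c b := fun b c hb hc => h3 b c hb hc
    intro a b c ha hb hc
    have ha' : a = x ∨ In a (app t r) := ha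
    have hb' : b = x ∨ In b (app t r) := hb
    have hc' : c = x ∨ In c (app t r) := hc
    unfold T3
    rcases ha' with rfl | ha'
    · rcases key b c hb hc with h | h
      · exact Or.inl h
      · exact Or.inr (Or.inl h)
    · rcases hb' with rfl | hb'
      · rcases key a c ha hc with h | h
        · exact Or.inr (Or.inr (Or.inl h))
        · exact Or.inr (Or.inr (Or.inr (Or.inl h)))
      · rcases hc' with rfl | hc'
        · rcases key a b ha hb with h | h
          · exact Or.inr (Or.inr (Or.inr (Or.inr (Or.inl h))))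
          · exact Or.inr (Or.inr (Or.inr (Or.inr (Or.inr h))))
        · exact h4 a b c ha' hb' hc'

theorem in_filt (q m g z : ℕ) (l : NL) : In z (filt q m g l) ↔ In z l ∧ g ≤ Nat.gcd (z / q) m := by
  induction l with
  | nil => simp [filt, In]
  | cons a t ih =>
    have e : filt q m g (NL.cons a t) = Bool.rec (motive := fun _ => NL) (filt q m g t)
      (NL.cons a (filt q m g t)) (Nat.ble g (Nat.gcd (a / q) m)) := rfl
    rw [e]
    by_cases h : Nat.ble g (Nat.gcd (a / q) m) = true
    · rw [h]
      have h' := (ble_true _ _).mp h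
      show z = a ∨ In z (filt q m g t) ↔ (z = a ∨ In z t) ∧ _
      rw [ih]
      constructor
      · rintro (rfl | ⟨h1, h2⟩)
        · exact ⟨Or.inl rfl, h'⟩
        · exact ⟨Or.inr h1, h2⟩
      · rintro ⟨rfl | h1, h2⟩
        · exact Or.inl rfl
        · exact Or.inr ⟨h1, h2⟩
    · have h0 : Nat.ble g (Nat.gcd (a / q) m) = false := Bool.eq_false_iff.mpr h
      rw [h0]
      have h' : ¬ g ≤ Nat.gcd (a / q) m := fun h'' => h ((ble_true _ _).mpr h'')
      show In z (filt q m g t) ↔ (z = a ∨ In z t) ∧ _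
      rw [ih]
      constructor
      · rintro ⟨h1, h2⟩; exact ⟨Or.inr h1, h2⟩
      · rintro ⟨rfl | h1, h2⟩
        · exact absurd h2 h'
        · exact ⟨h1, h2⟩

theorem loopS_true (q m : ℕ) (F : ℕ → ℕ → Bool) (full gs : NL) (h : loopS q m F full gs = true) :
    ∀ g b c, In g gs → In b full → In c full → g / q ≤ Nat.gcd (b / q) m →
      g / q ≤ Nat.gcd (c / q) m → G3 q F g b c ∨ G3 q F g c b := by
  induction gs with
  | nil => intro g b c hg; exact absurd hg (by simp [In])
  | cons x t ih =>
    have e : loopS q m F full (NL.cons x t) = Bool.rec (motive := fun _ => Bool) false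
      (loopS q m F full t) (pair q F x (x / q) (filt q m (x / q) full)) := rfl
    rw [e, rec_false] at h
    obtain ⟨h1, h2⟩ := h
    intro g b c hg hb hc hgb hgc
    rcases hg with rfl | hg
    · exact pair_true _ _ _ _ _ h1 b c ((in_filt _ _ _ _ _).mpr ⟨hb, hgb⟩)
        ((in_filt _ _ _ _ _).mpr ⟨hc, hgc⟩)
    · exact ih h2 g b c hg hb hc hgb hgc

theorem core (M M' : Tr) (K H : ℕ) (tr : Tr) (ac : ℕ → ℕ → Bool) (r s t : ℕ) (hs : s < 134217728)
    (h1 : FS M M' K H tr r s = true) (h2 : FT M M' K H tr ac r t = true) : ac s t = true := by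
  unfold FS at h1
  unfold FT at h2
  rw [rec_false, rec_false, mem_true] at h1
  rw [rec_imp, rec_imp, all_true] at h2
  obtain ⟨h3, h4, h5⟩ := h1
  have h6 := h2 h3 h4 _ h5
  rw [rec_imp, beq_true] at h6
  have e1 : Nat.div (Nat.add (Nat.mul (Nat.div r H) 134217728) s) 134217728 = Nat.div r H := by
    show (r / H * 134217728 + s) / 134217728 = r / H
    omega
  have e2 : Nat.mod (Nat.add (Nat.mul (Nat.div r H) 134217728) s) 134217728 = s := by
    show (r / H * 134217728 + s) % 134217728 = s
    omega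
  rw [e1, e2] at h6
  exact h6 rfl

/-! ### search trees -/

/-- node membership -/
def InH (k d : ℕ) : HT → Prop
  | HT.nil => False
  | HT.node k' d' l r => (k = k' ∧ d = d') ∨ InH k d l ∨ InH k d r

theorem find_true (x : ℕ) (t : HT) (h : find x t = true) : ∃ d, InH x d t := by
  induction t with
  | nil => exact absurd h (by simp [find])
  | node k d l r ihl ihr =>
    have e : find x (HT.node k d l r) = Bool.rec (motive := fun _ => Bool)
      (Bool.rec (motive := fun _ => Bool) (find x l) (find x r) (Nat.ble k x)) true (Nat.beq k x) := rfl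
    rw [e, rec_or, beq_true] at h
    rcases h with h | h
    · exact ⟨d, Or.inl ⟨h.symm, rfl⟩⟩
    · cases hb : Nat.ble k x
      · rw [hb] at h
        obtain ⟨d', hd⟩ := ihl h
        exact ⟨d', Or.inr (Or.inl hd)⟩
      · rw [hb] at h
        obtain ⟨d', hd⟩ := ihr h
        exact ⟨d', Or.inr (Or.inr hd)⟩

theorem allHT_true (P : ℕ → ℕ → Bool) (t : HT) (h : allHT P t = true) :
    ∀ k d, InH k d t → P k d = true := by
  induction t with
  | nil => intro k d hk; exact absurd hk (by simp [InH])
  | node k' d' l r ihl ihr =>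
    have e : allHT P (HT.node k' d' l r) = Bool.rec (motive := fun _ => Bool) false
      (Bool.rec (motive := fun _ => Bool) false (allHT P r) (allHT P l)) (P k' d') := rfl
    rw [e, rec_false, rec_false] at h
    obtain ⟨h1, h2, h3⟩ := h
    rintro k d (⟨rfl, rfl⟩ | hk | hk)
    · exact h1
    · exact ihl h2 k d hk
    · exact ihr h3 k d hk

/-! ### the table of values -/

theorem chkE_true (q c1 : ℕ) [Fact q.Prime] (g : ZMod q) (hg : g ≠ 0)
    (hc : (c1 : ZMod q) = g + g⁻¹) (l : NL) :
    ∀ k x y : ℕ, x ≤ q → (x : ZMod q) = g ^ k + (g ^ k)⁻¹ →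
      (y : ZMod q) = g ^ (k + 1) + (g ^ (k + 1))⁻¹ → y ≤ q → chkE q c1 l k x y = true →
      (∀ e, In e l → (e : ZMod q) = (g ^ (e / q) + (g ^ (e / q))⁻¹) ^ 2 ∧ k ≤ e / q ∧
        e / q < k + len l) ∧
      ∀ i, i < len l → ∃ e, In e l ∧ e / q = k + i := by
  have hq : 0 < q := (Fact.out : q.Prime).pos
  induction l with
  | nil => intro k x y _ _ _ _ _; exact ⟨fun e he => absurd he (by simp [In]), fun i hi => absurd hi (by simp [len])⟩
  | cons a t ih =>
    intro k x y hx hxk hyk hy h
    have e : chkE q c1 (NL.cons a t) k x y = Bool.rec (motive := fun _ => Bool) false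
      (chkE q c1 t (k + 1) y ((c1 * y + (q - x)) % q)) (Nat.beq a ((x * x) % q + q * k)) := rfl
    rw [e, rec_false, beq_true] at h
    obtain ⟨h1, h2⟩ := h
    have el : len (NL.cons a t) = len t + 1 := rfl
    have hdiv : a / q = k := by
      rw [h1, Nat.add_mul_div_left _ _ hq, Nat.div_eq_of_lt (Nat.mod_lt _ hq), zero_add]
    have hval : (a : ZMod q) = (g ^ k + (g ^ k)⁻¹) ^ 2 := by
      rw [h1]
      push_cast
      rw [ZMod.natCast_mod]
      push_cast
      rw [CharP.cast_eq_zero (ZMod q) q, hxk]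
      ring
    have hnext : (((c1 * y + (q - x)) % q : ℕ) : ZMod q)
        = g ^ (k + 1 + 1) + (g ^ (k + 1 + 1))⁻¹ := by
      rw [ZMod.natCast_mod]
      push_cast [Nat.cast_sub hx]
      rw [CharP.cast_eq_zero (ZMod q) q, hc, hxk, hyk]
      have hgk : g ^ k ≠ 0 := pow_ne_zero _ hg
      field_simp
      ring
    obtain ⟨h3, h4⟩ := ih (k + 1) y _ hy hyk hnext (Nat.mod_lt _ hq).le h2
    refine ⟨?_, ?_⟩
    · rintro b (rfl | hb)
      · refine ⟨?_, ?_, ?_⟩
        · rw [hdiv]; exact hval
        · omega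
        · omega
      · obtain ⟨h5, h6, h7⟩ := h3 b hb
        refine ⟨h5, by omega, by omega⟩
    · intro i hi
      rcases Nat.eq_zero_or_pos i with rfl | hi0
      · exact ⟨a, Or.inl rfl, by omega⟩
      · obtain ⟨b, hb, hb2⟩ := h4 (i - 1) (by omega)
        exact ⟨b, Or.inr hb, by omega⟩

end Pool.Agent.TriCos.Eng
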