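import Mathlib

/-!
# The enumeration engine: definitions

Everything is written with recursors and raw `Nat` operations, so that the kernel evaluates it fast.
-/

namespace Pool.Agent.TriCos.Eng

/-- lists of numbers -/
inductive NL
  | nil
  | cons (a : Nat) (t : NL)

/-- binary trees of packed buckets -/
inductive Tr
  | leaf (n z : Nat)
  | node (k : Nat) (l r : Tr)

/-- binary search trees with keys and data -/
inductive HT
  | nil
  | node (k d : Nat) (l r : HT)

noncomputable section

/-- conjunction, lazy in the second argument -/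
def and' (a b : Bool) : Bool := Bool.rec (motive := fun _ => Bool) false b a

/-- disjunction, lazy in the second argument -/
def or' (a b : Bool) : Bool := Bool.rec (motive := fun _ => Bool) b true a

/-- all entries satisfy `f` -/
def all (f : Nat → Bool) (l : NL) : Bool :=
  NL.rec (motive := fun _ => Bool) true
    (fun a _ ih => Bool.rec (motive := fun _ => Bool) false ih (f a)) l

/-- membership -/
def mem (z : Nat) (l : NL) : Bool :=
  NL.rec (motive := fun _ => Bool) false
    (fun a _ ih => Bool.rec (motive := fun _ => Bool) ih true (Nat.beq a z)) l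

/-- concatenation -/
def app (l r : NL) : NL := NL.rec (motive := fun _ => NL) r (fun a _ ih => NL.cons a ih) l

/-- unpack `n` numbers of 60 bits -/
def unpack (n : Nat) : Nat → NL :=
  Nat.rec (motive := fun _ => Nat → NL) (fun _ => NL.nil)
    (fun _ ih z => NL.cons (Nat.mod z 1152921504606846976) (ih (Nat.div z 1152921504606846976))) n

/-- the bucket of `x` -/
def look (t : Tr) : Nat → NL :=
  Tr.rec (motive := fun _ => Nat → NL) (fun n z _ => unpack n z)
    (fun k _ _ ihl ihr x => Bool.rec (motive := fun _ => NL) (ihl x) (ihr x)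
      (Nat.beq (Nat.land (Nat.shiftRight x k) 1) 1)) t

/-- test a bit of a mask, which is a tree over the low three bits with leaves of `n` bits -/
def mb (M : Tr) : Nat → Bool :=
  Tr.rec (motive := fun _ => Nat → Bool)
    (fun n z x => Nat.beq (Nat.land (Nat.shiftRight z (Nat.mod (Nat.shiftRight x 3) n)) 1) 1)
    (fun k _ _ ihl ihr x => Bool.rec (motive := fun _ => Bool) (ihl x) (ihr x)
      (Nat.beq (Nat.land (Nat.shiftRight x k) 1) 1)) M

/-- innermost loop: `F (P * e % q) (code)` for all entries `e` of the list -/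
def inner (q : Nat) (F : Nat → Nat → Bool) (P cd : Nat) (cs : NL) : Bool :=
  NL.rec (motive := fun _ => Bool) true (fun e _ ih =>
    Bool.rec (motive := fun _ => Bool) false ih
      (F (Nat.mod (Nat.mul P e) q) (Nat.add cd (Nat.mul 262144 (Nat.div e q))))) cs

/-- loop over pairs `b, c` of entries of the list, `c` not before `b` -/
def pair (q : Nat) (F : Nat → Nat → Bool) (P cd : Nat) (l : NL) : Bool :=
  NL.rec (motive := fun _ => Bool) true (fun e t ih =>
    Bool.rec (motive := fun _ => Bool) false ih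
      (inner q F (Nat.mod (Nat.mul P e) q) (Nat.add cd (Nat.mul 512 (Nat.div e q))) (NL.cons e t))) l

/-- loop over triples of `l ++ r`, the first one in `l` -/
def trip (q : Nat) (F : Nat → Nat → Bool) (r l : NL) : Bool :=
  NL.rec (motive := fun _ => Bool) true (fun e t ih =>
    Bool.rec (motive := fun _ => Bool) false ih
      (pair q F e (Nat.div e q) (app (NL.cons e t) r))) l

/-- entries `e` of `l` whose index has a gcd with `m` which is at least `g` -/
def filt (q m g : Nat) (l : NL) : NL :=
  NL.rec (motive := fun _ => NL) NL.nil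
    (fun e _ ih => Bool.rec (motive := fun _ => NL) ih (NL.cons e ih)
      (Nat.ble g (Nat.gcd (Nat.div e q) m))) l

/-- test for the first triple: its product is in both masks and in the table -/
def FS (M M' : Tr) (K H : Nat) (tr : Tr) (r code : Nat) : Bool :=
  Bool.rec (motive := fun _ => Bool) false
    (Bool.rec (motive := fun _ => Bool) false
      (mem (Nat.add (Nat.mul (Nat.div r H) 134217728) code) (look tr r)) (mb M' (Nat.div r K)))
    (mb M r)

/-- test for the second triple -/
def FT (M M' : Tr) (K H : Nat) (tr : Tr) (acc : Nat → Nat → Bool) (r code : Nat) : Bool :=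
  Bool.rec (motive := fun _ => Bool) true
    (Bool.rec (motive := fun _ => Bool) true
      (all (fun z => Bool.rec (motive := fun _ => Bool) true (acc (Nat.mod z 134217728) code)
        (Nat.beq (Nat.div z 134217728) (Nat.div r H))) (look tr r)) (mb M' (Nat.div r K)))
    (mb M r)

/-- find a key -/
def find (x : Nat) (t : HT) : Bool :=
  HT.rec (motive := fun _ => Bool) false
    (fun k _ _ _ ihl ihr => Bool.rec (motive := fun _ => Bool)
      (Bool.rec (motive := fun _ => Bool) ihl ihr (Nat.ble k x)) true (Nat.beq k x)) t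

/-- all nodes satisfy `P` -/
def allHT (P : Nat → Nat → Bool) (t : HT) : Bool :=
  HT.rec (motive := fun _ => Bool) true
    (fun k d _ _ ihl ihr => Bool.rec (motive := fun _ => Bool) false
      (Bool.rec (motive := fun _ => Bool) false ihr ihl) (P k d)) t

/-- the three indices in a code -/
def i0 (c : Nat) : Nat := Nat.mod c 512
def i1 (c : Nat) : Nat := Nat.mod (Nat.div c 512) 512
def i2 (c : Nat) : Nat := Nat.div c 262144

/-- equal as multisets -/
def same3 (a b c x y z : Nat) : Bool :=
  or' (and' (Nat.beq a x) (or' (and' (Nat.beq b y) (Nat.beq c z)) (and' (Nat.beq b z) (Nat.beq c y))))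
  (or' (and' (Nat.beq a y) (or' (and' (Nat.beq b x) (Nat.beq c z)) (and' (Nat.beq b z) (Nat.beq c x))))
    (and' (Nat.beq a z) (or' (and' (Nat.beq b x) (Nat.beq c y)) (and' (Nat.beq b y) (Nat.beq c x)))))

/-- `a` is one of `x, y, z` and not a third -/
def com1 (m a x y z : Nat) : Bool :=
  and' (or' (Nat.beq a x) (or' (Nat.beq a y) (Nat.beq a z)))
    (Bool.rec (motive := fun _ => Bool) true false (Nat.beq (Nat.mul 3 a) m))

/-- acceptable pairs -/
def acc (m : Nat) (h : HT) (s t : Nat) : Bool :=
  or' (same3 (i0 s) (i1 s) (i2 s) (i0 t) (i1 t) (i2 t))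
    (or' (com1 m (i0 s) (i0 t) (i1 t) (i2 t))
      (or' (com1 m (i1 s) (i0 t) (i1 t) (i2 t))
        (or' (com1 m (i2 s) (i0 t) (i1 t) (i2 t))
          (find (Nat.add s (Nat.mul 134217728 t)) h))))

/-- the empty list -/
def isNil (l : NL) : Bool := NL.rec (motive := fun _ => Bool) true (fun _ _ _ => false) l

/-- the length -/
def len (l : NL) : Nat := NL.rec (motive := fun _ => Nat) 0 (fun _ _ ih => Nat.add ih 1) l

/-- number of odd entries -/
def cnt1 (l : NL) : Nat := NL.rec (motive := fun _ => Nat) 0 (fun a _ ih => Nat.add ih (Nat.mod a 2)) l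

/-- `f k` for all `k < n` -/
def allBelow (f : Nat → Bool) (n : Nat) : Bool :=
  Nat.rec (motive := fun _ => Bool) true
    (fun k ih => Bool.rec (motive := fun _ => Bool) false ih (f k)) n

/-- entries congruent to `a` modulo `p`, minus `a`, divided by `p` (modulo `N`) -/
def clC (p N a : Nat) (l : NL) : NL :=
  NL.rec (motive := fun _ => NL) NL.nil
    (fun k _ ih => Bool.rec (motive := fun _ => NL) ih
      (NL.cons (Nat.mod (Nat.div (Nat.add k (Nat.sub N a)) p) (Nat.div N p)) ih)
      (Nat.beq (Nat.mod k p) (Nat.mod a p))) l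

/-- entries not congruent to `a` modulo `p` -/
def clR (p a : Nat) (l : NL) : NL :=
  NL.rec (motive := fun _ => NL) NL.nil
    (fun k _ ih => Bool.rec (motive := fun _ => NL) (NL.cons k ih) ih
      (Nat.beq (Nat.mod k p) (Nat.mod a p))) l

/-- entries `a` with `p` dividing `a + j n`, replaced by the quotient -/
def clB (p n j : Nat) (l : NL) : NL :=
  NL.rec (motive := fun _ => NL) NL.nil
    (fun a _ ih => Bool.rec (motive := fun _ => NL) ih
      (NL.cons (Nat.mod (Nat.div (Nat.add a (Nat.mul j n)) p) n) ih)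
      (Nat.beq (Nat.mod (Nat.add a (Nat.mul j n)) p) 0)) l

/-- add `h` to all entries, modulo `n` -/
def shl (h n : Nat) (l : NL) : NL :=
  NL.rec (motive := fun _ => NL) NL.nil (fun a _ ih => NL.cons (Nat.mod (Nat.add a h) n) ih) l

/-- peel off the classes modulo `p`, testing each with `f` -/
def peel (f : NL → Bool) (p N n : Nat) : NL → Bool :=
  Nat.rec (motive := fun _ => NL → Bool) (fun l => isNil l)
    (fun _ ih l => NL.rec (motive := fun _ => Bool) true
      (fun a _ _ => and' (f (clC p N a l)) (ih (clR p a l))) l) n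

/-- checker for vanishing sums of `N`-th roots of unity (`N` even, `steps` the primes to remove) -/
def vz (steps : NL) : Nat → NL → Bool :=
  NL.rec (motive := fun _ => Nat → NL → Bool)
    (fun N l => and' (Nat.beq N 2) (Nat.beq (len l) (Nat.mul 2 (cnt1 l))))
    (fun p _ ih N l => or' (isNil l)
      (and' (and' (Nat.beq (Nat.mod N p) 0) (Nat.ble 2 p))
        (Bool.rec (motive := fun _ => Bool)
          (and' (and' (Nat.beq (Nat.gcd p (Nat.div N p)) 1) (Nat.beq (Nat.mod (Nat.div N p) 2) 0))
            (allBelow (fun j => ih (Nat.div N p) (app (clB p (Nat.div N p) (Nat.add j 1) l)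
              (shl (Nat.div (Nat.div N p) 2) (Nat.div N p) (clB p (Nat.div N p) 0 l)))) (Nat.sub p 1)))
          (peel (ih (Nat.div N p)) p N (len l) l)
          (or' (Nat.beq (Nat.mod (Nat.div N p) p) 0) (Nat.ble (Nat.add (len l) 1) p))))) steps

/-- one monomial: class of the direction and exponent -/
def mon (N h a b c x y z : Nat) : Nat :=
  Nat.add (Nat.mul 65536 (Nat.add a (Nat.add b c))) (Nat.mod (Nat.add (Nat.add x (Nat.add y z)) h) N)

/-- the sixteen monomials; `x` exponents, `v` directions shifted by 32 -/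
def mons (N x0 x1 x2 x3 x4 x5 v0 v1 v2 v3 v4 v5 : Nat) : NL :=
  NL.cons (mon N 0 v0 v1 v2 x0 x1 x2)
  (NL.cons (mon N 0 v0 v1 (Nat.sub 64 v2) x0 x1 (Nat.sub N x2))
  (NL.cons (mon N 0 v0 (Nat.sub 64 v1) v2 x0 (Nat.sub N x1) x2)
  (NL.cons (mon N 0 v0 (Nat.sub 64 v1) (Nat.sub 64 v2) x0 (Nat.sub N x1) (Nat.sub N x2))
  (NL.cons (mon N 0 (Nat.sub 64 v0) v1 v2 (Nat.sub N x0) x1 x2)
  (NL.cons (mon N 0 (Nat.sub 64 v0) v1 (Nat.sub 64 v2) (Nat.sub N x0) x1 (Nat.sub N x2))
  (NL.cons (mon N 0 (Nat.sub 64 v0) (Nat.sub 64 v1) v2 (Nat.sub N x0) (Nat.sub N x1) x2)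
  (NL.cons (mon N 0 (Nat.sub 64 v0) (Nat.sub 64 v1) (Nat.sub 64 v2) (Nat.sub N x0) (Nat.sub N x1) (Nat.sub N x2))
  (NL.cons (mon N (Nat.div N 2) v3 v4 v5 x3 x4 x5)
  (NL.cons (mon N (Nat.div N 2) v3 v4 (Nat.sub 64 v5) x3 x4 (Nat.sub N x5))
  (NL.cons (mon N (Nat.div N 2) v3 (Nat.sub 64 v4) v5 x3 (Nat.sub N x4) x5)
  (NL.cons (mon N (Nat.div N 2) v3 (Nat.sub 64 v4) (Nat.sub 64 v5) x3 (Nat.sub N x4) (Nat.sub N x5))
  (NL.cons (mon N (Nat.div N 2) (Nat.sub 64 v3) v4 v5 (Nat.sub N x3) x4 x5)
  (NL.cons (mon N (Nat.div N 2) (Nat.sub 64 v3) v4 (Nat.sub 64 v5) (Nat.sub N x3) x4 (Nat.sub N x5))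
  (NL.cons (mon N (Nat.div N 2) (Nat.sub 64 v3) (Nat.sub 64 v4) v5 (Nat.sub N x3) (Nat.sub N x4) x5)
  (NL.cons (mon N (Nat.div N 2) (Nat.sub 64 v3) (Nat.sub 64 v4) (Nat.sub 64 v5) (Nat.sub N x3) (Nat.sub N x4) (Nat.sub N x5))
  NL.nil)))))))))))))))

/-- exponents of the monomials in the class `k` -/
def sel (k : Nat) (l : NL) : NL :=
  NL.rec (motive := fun _ => NL) NL.nil
    (fun a _ ih => Bool.rec (motive := fun _ => NL) ih (NL.cons (Nat.mod a 65536) ih)
      (Nat.beq (Nat.div a 65536) k)) l

/-- the entries outside the class `k` -/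
def selN (k : Nat) (l : NL) : NL :=
  NL.rec (motive := fun _ => NL) NL.nil
    (fun a _ ih => Bool.rec (motive := fun _ => NL) (NL.cons a ih) ih
      (Nat.beq (Nat.div a 65536) k)) l

/-- all class sums of nonnegative classes vanish -/
def clsOK (steps : NL) (N n : Nat) : NL → Bool :=
  Nat.rec (motive := fun _ => NL → Bool) (fun l => isNil l)
    (fun _ ih l => NL.rec (motive := fun _ => Bool) true
      (fun z _ _ => and' (or' (Nat.ble (Nat.div z 65536) 95) (vz steps N (sel (Nat.div z 65536) l)))
        (ih (selN (Nat.div z 65536) l))) l) n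

/-- a third is not moved: `x` exponent modulo `N`, `v` shifted by 32 -/
def thOK (N x v : Nat) : Bool :=
  or' (Nat.beq v 32) (or' (Nat.beq (Nat.mod (Nat.mul 2 x) N) 0)
    (Bool.rec (motive := fun _ => Bool) true false (Nat.beq (Nat.mod (Nat.mul 6 x) N) 0)))

/-- the six exponents `x` (at most `N`) lie on the line with direction `v` -/
def niOK (steps : NL) (N x0 x1 x2 x3 x4 x5 v0 v1 v2 v3 v4 v5 : Nat) : Bool :=
  and' (and' (and' (thOK N x0 v0) (thOK N x1 v1)) (and' (thOK N x2 v2) (and' (thOK N x3 v3)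
    (and' (thOK N x4 v4) (thOK N x5 v5)))))
  (and' (or' (Bool.rec (motive := fun _ => Bool) true false (Nat.beq v0 32))
      (or' (Bool.rec (motive := fun _ => Bool) true false (Nat.beq v1 32))
      (or' (Bool.rec (motive := fun _ => Bool) true false (Nat.beq v2 32))
      (or' (Bool.rec (motive := fun _ => Bool) true false (Nat.beq v3 32))
      (or' (Bool.rec (motive := fun _ => Bool) true false (Nat.beq v4 32))
        (Bool.rec (motive := fun _ => Bool) true false (Nat.beq v5 32)))))))
    (clsOK steps N 16 (mons N x0 x1 x2 x3 x4 x5 v0 v1 v2 v3 v4 v5)))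

/-- distance of `x` to the multiples of `m` -/
def fold (m x : Nat) : Nat :=
  Bool.rec (motive := fun _ => Nat) (Nat.sub m (Nat.mod x m)) (Nat.mod x m)
    (Nat.ble (Nat.mul 2 (Nat.mod x m)) m)

/-- digit number `i` of a packed table entry -/
def dig (c i : Nat) : Nat := Nat.mod (Nat.div c (Nat.pow 512 i)) 512

/-- the pair of triples `(x0, x1, x2 | y0, y1, y2)` at level `m` is the multiple by `u` of the table
entry `c`, up to order and exchange of the sides -/
def tabOK (tb : NL) (m x0 x1 x2 y0 y1 y2 u c : Nat) : Bool :=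
  and' (and' (mem c tb) (and' (Nat.beq (Nat.mod m (dig c 0)) 0) (Nat.beq (Nat.gcd u (Nat.mul 2 (dig c 0))) 1)))
    (or'
      (and' (same3 x0 x1 x2 (fold m (Nat.mul (Nat.mul u (dig c 1)) (Nat.div m (dig c 0))))
          (fold m (Nat.mul (Nat.mul u (dig c 2)) (Nat.div m (dig c 0))))
          (fold m (Nat.mul (Nat.mul u (dig c 3)) (Nat.div m (dig c 0)))))
        (same3 y0 y1 y2 (fold m (Nat.mul (Nat.mul u (dig c 4)) (Nat.div m (dig c 0))))
          (fold m (Nat.mul (Nat.mul u (dig c 5)) (Nat.div m (dig c 0))))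
          (fold m (Nat.mul (Nat.mul u (dig c 6)) (Nat.div m (dig c 0))))))
      (and' (same3 y0 y1 y2 (fold m (Nat.mul (Nat.mul u (dig c 1)) (Nat.div m (dig c 0))))
          (fold m (Nat.mul (Nat.mul u (dig c 2)) (Nat.div m (dig c 0))))
          (fold m (Nat.mul (Nat.mul u (dig c 3)) (Nat.div m (dig c 0)))))
        (same3 x0 x1 x2 (fold m (Nat.mul (Nat.mul u (dig c 4)) (Nat.div m (dig c 0))))
          (fold m (Nat.mul (Nat.mul u (dig c 5)) (Nat.div m (dig c 0))))
          (fold m (Nat.mul (Nat.mul u (dig c 6)) (Nat.div m (dig c 0)))))))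

/-- verification of one hit: `k` is the pair of codes, `d` the certificate -/
def hitOK (tb steps : NL) (m k d : Nat) : Bool :=
  Bool.rec (motive := fun _ => Bool)
    (niOK steps (Nat.mul 2 m) (i0 (Nat.mod k 134217728)) (i1 (Nat.mod k 134217728))
      (i2 (Nat.mod k 134217728)) (i0 (Nat.div k 134217728)) (i1 (Nat.div k 134217728))
      (Nat.add (i2 (Nat.div k 134217728)) (Nat.mul m (Nat.mod (Nat.div d 2) 2)))
      (Nat.mod (Nat.div d 4) 64) (Nat.mod (Nat.div d 256) 64) (Nat.mod (Nat.div d 16384) 64)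
      (Nat.mod (Nat.div d 1048576) 64) (Nat.mod (Nat.div d 67108864) 64)
      (Nat.mod (Nat.div d 4294967296) 64))
    (tabOK tb m (i0 (Nat.mod k 134217728)) (i1 (Nat.mod k 134217728))
      (i2 (Nat.mod k 134217728)) (i0 (Nat.div k 134217728)) (i1 (Nat.div k 134217728))
      (i2 (Nat.div k 134217728)) (Nat.mod (Nat.div d 2) 1024) (Nat.div d 2048))
    (Nat.beq (Nat.mod d 2) 1)

/-- the table of the numbers `(g^k + g^(-k))² mod q + q k`; `x = g^k + g^(-k)`, `y` the next one -/
def chkE (q c1 : Nat) (l : NL) : Nat → Nat → Nat → Bool :=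
  NL.rec (motive := fun _ => Nat → Nat → Nat → Bool) (fun _ _ _ => true)
    (fun e _ ih k x y => Bool.rec (motive := fun _ => Bool) false
      (ih (Nat.add k 1) y (Nat.mod (Nat.add (Nat.mul c1 y) (Nat.sub q x)) q))
      (Nat.beq e (Nat.add (Nat.mod (Nat.mul x x) q) (Nat.mul q k)))) l

/-- the loop over the first triples: `g` runs over the list of divisors (as table entries) -/
def loopS (q m : Nat) (F : Nat → Nat → Bool) (full gs : NL) : Bool :=
  NL.rec (motive := fun _ => Bool) true (fun e _ ih =>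
    Bool.rec (motive := fun _ => Bool) false ih
      (pair q F e (Nat.div e q) (filt q m (Nat.div e q) full))) gs

end

end Pool.Agent.TriCos.Eng
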