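import Pool.Agent.Lib_MP_6e4ab6_nt.Full.ListDefs
import Pool.Agent.Lib_MP_6e4ab6_nt.Full.LiftNI

/-! The families are solutions (piece RV-A). -/

set_option linter.unusedTactic false
set_option linter.unreachableTactic false
set_option linter.unusedVariables false

namespace Pool.Agent.TriCos

theorem ra_triple' (x : ℝ) : c2 (x + 1/2) * c2 (x + 1/6) * c2 (x - 1/6) = c2 (3 * x + 1/2) := by
  have h := c2_triple (x + 1/2)
  have e1 : x + 1/2 + 1/3 = (x - 1/6) + ((1 : ℤ) : ℝ) := by push_cast; ring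
  have e2 : x + 1/2 - 1/3 = x + 1/6 := by ring
  have e3 : 3 * (x + 1/2) = (3 * x + 1/2) + ((1 : ℤ) : ℝ) := by push_cast; ring
  rw [e1, e2, e3, ln_c2_add_int, ln_c2_add_int] at h
  rw [← h]
  ring

theorem ra_five : c2 (1/5) * c2 (2/5) = 1 := by
  unfold c2
  have e1 : Real.pi * (1/5) = Real.pi / 5 := by ring
  have e2 : Real.pi * (2/5) = 2 * (Real.pi / 5) := by ring
  rw [e1, e2, Real.cos_two_mul, Real.cos_pi_div_five]
  have h5 : Real.sqrt 5 ^ 2 = 5 := Real.sq_sqrt (by norm_num)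
  have h6 : (2 * ((1 + Real.sqrt 5) / 4)) ^ 2 * (2 * (2 * ((1 + Real.sqrt 5) / 4) ^ 2 - 1)) ^ 2
      = ((1 + Real.sqrt 5) * (Real.sqrt 5 ^ 2 + 2 * Real.sqrt 5 - 7 + (5 - Real.sqrt 5 ^ 2) * 0) / 8) ^ 2 := by
    ring
  rw [h6, h5]
  have h7 : (1 + Real.sqrt 5) * (5 + 2 * Real.sqrt 5 - 7 + (5 - 5) * 0) = 2 * (Real.sqrt 5 ^ 2) - 2 := by
    ring
  rw [h7, h5]
  norm_num

theorem ra_twelve : c2 (1/12) * c2 (5/12) = 1 := by
  have h := c2_double (1/12)
  have e1 : (1:ℝ)/12 + 1/2 = -(5/12) + ((1 : ℤ) : ℝ) := by push_cast; norm_num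
  have e2 : (2:ℝ) * (1/12) + 1/2 = -(1/3) + ((1 : ℤ) : ℝ) := by push_cast; norm_num
  rw [e1, e2, ln_c2_add_int, ln_c2_add_int, ln_c2_neg, ln_c2_neg, ln_c2_third] at h
  exact h

theorem ra_pos {x : ℝ} (h0 : 0 ≤ x) (h1 : x < 1/2) : c2 x ≠ 0 := by
  have h : 0 < Real.cos (Real.pi * x) := by
    apply Real.cos_pos_of_mem_Ioo
    constructor
    · nlinarith [Real.pi_pos]
    · nlinarith [Real.pi_pos]
  unfold c2
  positivity

theorem ra_thirty₁ : c2 (1/30) * c2 (11/30) = c2 (1/5) := by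
  have h1 := c2_triple (1/30)
  have h2 := c2_double (1/5)
  have e1 : (1:ℝ)/30 + 1/3 = 11/30 := by norm_num
  have e2 : (1:ℝ)/30 - 1/3 = -(3/10) := by norm_num
  have e3 : (3:ℝ) * (1/30) = 1/10 := by norm_num
  have e4 : (1:ℝ)/5 + 1/2 = -(3/10) + ((1 : ℤ) : ℝ) := by push_cast; norm_num
  have e5 : (2:ℝ) * (1/5) + 1/2 = -(1/10) + ((1 : ℤ) : ℝ) := by push_cast; norm_num
  rw [e1, e2, e3, ln_c2_neg] at h1
  rw [e4, e5, ln_c2_add_int, ln_c2_add_int, ln_c2_neg, ln_c2_neg] at h2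
  exact mul_right_cancel₀ (ra_pos (by norm_num) (by norm_num)) (h1.trans h2.symm)

theorem ra_thirty₂ : c2 (7/30) * c2 (13/30) = c2 (2/5) := by
  have h1 := c2_triple (7/30)
  have h2 := c2_double (2/5)
  have e1 : (7:ℝ)/30 + 1/3 = -(13/30) + ((1 : ℤ) : ℝ) := by push_cast; norm_num
  have e2 : (7:ℝ)/30 - 1/3 = -(1/10) := by norm_num
  have e3 : (3:ℝ) * (7/30) = -(3/10) + ((1 : ℤ) : ℝ) := by push_cast; norm_num
  have e4 : (2:ℝ)/5 + 1/2 = -(1/10) + ((1 : ℤ) : ℝ) := by push_cast; norm_num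
  have e5 : (2:ℝ) * (2/5) + 1/2 = (3/10) + ((1 : ℤ) : ℝ) := by push_cast; norm_num
  rw [e1, e2, e3, ln_c2_add_int, ln_c2_add_int, ln_c2_neg, ln_c2_neg, ln_c2_neg] at h1
  rw [e4, e5, ln_c2_add_int, ln_c2_add_int, ln_c2_neg] at h2
  exact mul_right_cancel₀ (ra_pos (by norm_num) (by norm_num)) (h1.trans h2.symm)

theorem ra_mixed₁ (x : ℝ) :
    c2 (x + 1/6) * c2 (x - 1/6) * c2 (2 * x + 1/2) = c2 x * c2 (3 * x + 1/2) := by
  rw [← ra_triple', ← c2_double]; ring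

theorem ra_mixed₂ (x : ℝ) : c2 (2 * x + 1/2) * c2 (2 * x + 1/6) * c2 (2 * x - 1/6) =
    c2 (3 * x) * c2 (3 * x + 1/2) := by
  rw [ra_triple', c2_double]
  congr 1; ring

theorem ra_mixed₃ (x : ℝ) : c2 (x + 1/6) * c2 (x - 1/6) * c2 (3 * x) =
    c2 x * c2 (2 * x + 1/6) * c2 (2 * x - 1/6) := by
  have h1 := c2_double (x + 1/3)
  have h2 := c2_double (x - 1/3)
  have e1 : x + 1/3 + 1/2 = (x - 1/6) + ((1 : ℤ) : ℝ) := by push_cast; ring
  have e2 : 2 * (x + 1/3) + 1/2 = (2 * x + 1/6) + ((1 : ℤ) : ℝ) := by push_cast; ring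
  have e3 : x - 1/3 + 1/2 = x + 1/6 := by ring
  have e4 : 2 * (x - 1/3) + 1/2 = 2 * x - 1/6 := by ring
  rw [e1, e2, ln_c2_add_int, ln_c2_add_int] at h1
  rw [e3, e4] at h2
  rw [← h1, ← h2, ← c2_triple]
  ring

theorem ra_mixed₄ (x : ℝ) : c2 (x + 1/6) * c2 (x - 1/6) * c2 (4 * x + 1/2) =
    c2 x * c2 (2 * x) * c2 (3 * x + 1/2) := by
  have h1 := c2_double (2 * x)
  have e1 : 2 * (2 * x) + 1/2 = 4 * x + 1/2 := by ring
  rw [e1] at h1
  rw [← h1, ← ra_triple', ← c2_double]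
  ring

theorem ra_mixed₅ (x : ℝ) : c2 (2 * x + 1/6) * c2 (2 * x - 1/6) * c2 (4 * x + 1/2) =
    c2 (2 * x) * c2 (3 * x) * c2 (3 * x + 1/2) := by
  have h1 := c2_double (2 * x)
  have e1 : 2 * (2 * x) + 1/2 = 4 * x + 1/2 := by ring
  rw [e1] at h1
  rw [mul_assoc (c2 (2 * x)), ← ra_mixed₂, ← h1]
  ring

theorem ra_mixed₆ (x : ℝ) : c2 x * c2 (x + 1/2) * c2 (6 * x) =
    c2 (2 * x + 1/3) * c2 (2 * x - 1/3) * c2 (4 * x + 1/2) := by
  have h1 := c2_double (2 * x)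
  have e1 : 2 * (2 * x) + 1/2 = 4 * x + 1/2 := by ring
  rw [e1] at h1
  have h2 := c2_triple (2 * x)
  have e2 : 3 * (2 * x) = 6 * x := by ring
  rw [e2] at h2
  rw [c2_double, ← h1, ← h2]
  ring

theorem ra_mixed₇ (x : ℝ) : c2 (3 * x) * c2 (3 * x + 1/2) * c2 (6 * x) =
    c2 (4 * x + 1/2) * c2 (4 * x + 1/6) * c2 (4 * x - 1/6) := by
  rw [ra_triple', c2_double]
  have h1 := c2_double (6 * x)
  have e1 : 2 * (3 * x) + 1/2 = 6 * x + 1/2 := by ring
  have e2 : 2 * (6 * x) + 1/2 = 3 * (4 * x) + 1/2 := by ring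
  rw [e1, mul_comm, h1, e2]

theorem ra_quad (x : ℝ) : c2 (2 * x) * c2 (2 * x + 1/2) = c2 (4 * x + 1/2) := by
  rw [c2_double]
  congr 1; ring

/-- `|2 cos (π k / M)|²` products agree; all cases of `Family` except `cancelSporadic`, `sporadic` -/
theorem family_sol_gen (M : ℤ) (x y : List ℤ) (h : Family M x y) (hM : 0 < M)
    (hpairs : ∀ (n a b c d : ℕ) (u q r : ℤ), (n, [a, b, c, d]) ∈ pairTable → IsCoprime u (2 * n : ℤ) →
      0 < (n : ℤ) * q → c2 ((u * a * q : ℤ) / ((n * q : ℤ) : ℝ)) * c2 ((u * b * q : ℤ) / ((n * q : ℤ) : ℝ))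
        = c2 ((u * c * q : ℤ) / ((n * q : ℤ) : ℝ)) * c2 ((u * d * q : ℤ) / ((n * q : ℤ) : ℝ)))
    (hspor : ∀ (n a b c d e f : ℕ) (u q : ℤ), (n, [a, b, c, d, e, f]) ∈ tripleTable →
      IsCoprime u (2 * n : ℤ) → 0 < (n : ℤ) * q →
      c2 ((u * a * q : ℤ) / ((n * q : ℤ) : ℝ)) * c2 ((u * b * q : ℤ) / ((n * q : ℤ) : ℝ)) *
        c2 ((u * c * q : ℤ) / ((n * q : ℤ) : ℝ))
        = c2 ((u * d * q : ℤ) / ((n * q : ℤ) : ℝ)) * c2 ((u * e * q : ℤ) / ((n * q : ℤ) : ℝ)) *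
        c2 ((u * f * q : ℤ) / ((n * q : ℤ) : ℝ))) :
    (x.map (fun k : ℤ => c2 ((k : ℝ) / (M : ℝ)))).prod = (y.map (fun k : ℤ => c2 ((k : ℝ) / (M : ℝ)))).prod := by
  cases h with
  | cancel q p r =>
    have hq : (q : ℝ) ≠ 0 := by
      have : q ≠ 0 := by rintro rfl; simp at hM
      exact_mod_cast this
    simp only [List.map_cons, List.map_nil, List.prod_cons, List.prod_nil, mul_one]
    have h1 := c2_double (-(p / (6 * q) : ℝ))
    have e1 : ((3 * q - p : ℤ) : ℝ) / ((6 * q : ℤ) : ℝ) = -(p / (6 * q) : ℝ) + 1/2 := by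
      push_cast; field_simp; ring
    have e2 : ((2 * q : ℤ) : ℝ) / ((6 * q : ℤ) : ℝ) = 1/3 := by push_cast; field_simp; norm_num
    have e3 : ((3 * q - 2 * p : ℤ) : ℝ) / ((6 * q : ℤ) : ℝ) = 2 * (-(p / (6 * q) : ℝ)) + 1/2 := by
      push_cast; field_simp; ring
    have e4 : ((p : ℤ) : ℝ) / ((6 * q : ℤ) : ℝ) = (p / (6 * q) : ℝ) := by push_cast; rfl
    rw [e1, e2, e3, e4, ← h1, ln_c2_third, ln_c2_neg]
    ring
  | cancelSporadic n a b c d u q r h hu =>
    have h1 := hpairs n a b c d u q r h hu hM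
    simp only [List.map_cons, List.map_nil, List.prod_cons, List.prod_nil, mul_one]
    rw [h1]
  | double q p r =>
    have hq : (q : ℝ) ≠ 0 := by
      have : q ≠ 0 := by rintro rfl; simp at hM
      exact_mod_cast this
    simp only [List.map_cons, List.map_nil, List.prod_cons, List.prod_nil, mul_one]
    set X : ℝ := (p : ℝ) / (2 * q) with hX
    set Y : ℝ := (r : ℝ) / (2 * q) with hY
    have e1 : ((p : ℤ) : ℝ) / ((2 * q : ℤ) : ℝ) = X := by push_cast; rfl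
    have e2 : ((p + q : ℤ) : ℝ) / ((2 * q : ℤ) : ℝ) = X + 1/2 := by
      rw [hX]; push_cast; field_simp
    have e3 : ((2 * r + q : ℤ) : ℝ) / ((2 * q : ℤ) : ℝ) = 2 * Y + 1/2 := by
      rw [hY]; push_cast; field_simp
    have e4 : ((r : ℤ) : ℝ) / ((2 * q : ℤ) : ℝ) = Y := by push_cast; rfl
    have e5 : ((r + q : ℤ) : ℝ) / ((2 * q : ℤ) : ℝ) = Y + 1/2 := by
      rw [hY]; push_cast; field_simp
    have e6 : ((2 * p + q : ℤ) : ℝ) / ((2 * q : ℤ) : ℝ) = 2 * X + 1/2 := by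
      rw [hX]; push_cast; field_simp
    rw [e1, e2, e3, e4, e5, e6, ← c2_double X, ← c2_double Y]
    ring
  | double₁ q p =>
    have hq : (q : ℝ) ≠ 0 := by
      have : q ≠ 0 := by rintro rfl; simp at hM
      exact_mod_cast this
    simp only [List.map_cons, List.map_nil, List.prod_cons, List.prod_nil, mul_one]
    set X : ℝ := (p : ℝ) / (30 * q) with hX
    have e1 : ((p : ℤ) : ℝ) / ((30 * q : ℤ) : ℝ) = X := by
      rw [hX]; push_cast; field_simp <;> norm_num <;> ring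
    have e2 : ((p + 15 * q : ℤ) : ℝ) / ((30 * q : ℤ) : ℝ) = X + 1/2 := by
      rw [hX]; push_cast; field_simp <;> norm_num <;> ring
    have e3 : ((10 * q : ℤ) : ℝ) / ((30 * q : ℤ) : ℝ) = 1/3 := by
      push_cast; field_simp <;> norm_num
    have e4 : ((2 * p + 15 * q : ℤ) : ℝ) / ((30 * q : ℤ) : ℝ) = 2 * X + 1/2 := by
      rw [hX]; push_cast; field_simp <;> norm_num <;> ring
    have e5 : ((6 * q : ℤ) : ℝ) / ((30 * q : ℤ) : ℝ) = 1/5 := by
      push_cast; field_simp <;> norm_num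
    have e6 : ((12 * q : ℤ) : ℝ) / ((30 * q : ℤ) : ℝ) = 2/5 := by
      push_cast; field_simp <;> norm_num
    rw [e1, e2, e3, e4, e5, e6]
    rw [ln_c2_third, mul_one, c2_double, ra_five, mul_one]
  | double₂ q p =>
    have hq : (q : ℝ) ≠ 0 := by
      have : q ≠ 0 := by rintro rfl; simp at hM
      exact_mod_cast this
    simp only [List.map_cons, List.map_nil, List.prod_cons, List.prod_nil, mul_one]
    set X : ℝ := (p : ℝ) / (30 * q) with hX
    have e1 : ((p : ℤ) : ℝ) / ((30 * q : ℤ) : ℝ) = X := by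
      rw [hX]; push_cast; field_simp <;> norm_num <;> ring
    have e2 : ((p + 15 * q : ℤ) : ℝ) / ((30 * q : ℤ) : ℝ) = X + 1/2 := by
      rw [hX]; push_cast; field_simp <;> norm_num <;> ring
    have e3 : ((6 * q : ℤ) : ℝ) / ((30 * q : ℤ) : ℝ) = 1/5 := by
      push_cast; field_simp <;> norm_num
    have e4 : ((2 * p + 15 * q : ℤ) : ℝ) / ((30 * q : ℤ) : ℝ) = 2 * X + 1/2 := by
      rw [hX]; push_cast; field_simp <;> norm_num <;> ring
    have e5 : ((q : ℤ) : ℝ) / ((30 * q : ℤ) : ℝ) = 1/30 := by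
      push_cast; field_simp <;> norm_num
    have e6 : ((11 * q : ℤ) : ℝ) / ((30 * q : ℤ) : ℝ) = 11/30 := by
      push_cast; field_simp <;> norm_num
    rw [e1, e2, e3, e4, e5, e6]
    rw [← mul_assoc, c2_double, ra_thirty₁]
  | double₃ q p =>
    have hq : (q : ℝ) ≠ 0 := by
      have : q ≠ 0 := by rintro rfl; simp at hM
      exact_mod_cast this
    simp only [List.map_cons, List.map_nil, List.prod_cons, List.prod_nil, mul_one]
    set X : ℝ := (p : ℝ) / (30 * q) with hX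
    have e1 : ((p : ℤ) : ℝ) / ((30 * q : ℤ) : ℝ) = X := by
      rw [hX]; push_cast; field_simp <;> norm_num <;> ring
    have e2 : ((p + 15 * q : ℤ) : ℝ) / ((30 * q : ℤ) : ℝ) = X + 1/2 := by
      rw [hX]; push_cast; field_simp <;> norm_num <;> ring
    have e3 : ((12 * q : ℤ) : ℝ) / ((30 * q : ℤ) : ℝ) = 2/5 := by
      push_cast; field_simp <;> norm_num
    have e4 : ((2 * p + 15 * q : ℤ) : ℝ) / ((30 * q : ℤ) : ℝ) = 2 * X + 1/2 := by
      rw [hX]; push_cast; field_simp <;> norm_num <;> ring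
    have e5 : ((7 * q : ℤ) : ℝ) / ((30 * q : ℤ) : ℝ) = 7/30 := by
      push_cast; field_simp <;> norm_num
    have e6 : ((13 * q : ℤ) : ℝ) / ((30 * q : ℤ) : ℝ) = 13/30 := by
      push_cast; field_simp <;> norm_num
    rw [e1, e2, e3, e4, e5, e6]
    rw [← mul_assoc, c2_double, ra_thirty₂]
  | triple₁ q p =>
    have hq : (q : ℝ) ≠ 0 := by
      have : q ≠ 0 := by rintro rfl; simp at hM
      exact_mod_cast this
    simp only [List.map_cons, List.map_nil, List.prod_cons, List.prod_nil, mul_one]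
    set X : ℝ := (p : ℝ) / (3 * q) with hX
    have e1 : ((p : ℤ) : ℝ) / ((3 * q : ℤ) : ℝ) = X := by
      rw [hX]; push_cast; field_simp <;> norm_num <;> ring
    have e2 : ((p + q : ℤ) : ℝ) / ((3 * q : ℤ) : ℝ) = X + 1/3 := by
      rw [hX]; push_cast; field_simp <;> norm_num <;> ring
    have e3 : ((p - q : ℤ) : ℝ) / ((3 * q : ℤ) : ℝ) = X - 1/3 := by
      rw [hX]; push_cast; field_simp <;> norm_num <;> ring
    have e4 : ((3 * p : ℤ) : ℝ) / ((3 * q : ℤ) : ℝ) = 3 * X := by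
      rw [hX]; push_cast; field_simp <;> norm_num <;> ring
    have e5 : ((q : ℤ) : ℝ) / ((3 * q : ℤ) : ℝ) = 1/3 := by
      push_cast; field_simp <;> norm_num
    rw [e1, e2, e3, e4, e5]
    rw [← mul_assoc, c2_triple, ln_c2_third, mul_one, mul_one]
  | triple₂ q p =>
    have hq : (q : ℝ) ≠ 0 := by
      have : q ≠ 0 := by rintro rfl; simp at hM
      exact_mod_cast this
    simp only [List.map_cons, List.map_nil, List.prod_cons, List.prod_nil, mul_one]
    set X : ℝ := (p : ℝ) / (15 * q) with hX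
    have e1 : ((p : ℤ) : ℝ) / ((15 * q : ℤ) : ℝ) = X := by
      rw [hX]; push_cast; field_simp <;> norm_num <;> ring
    have e2 : ((p + 5 * q : ℤ) : ℝ) / ((15 * q : ℤ) : ℝ) = X + 1/3 := by
      rw [hX]; push_cast; field_simp <;> norm_num <;> ring
    have e3 : ((p - 5 * q : ℤ) : ℝ) / ((15 * q : ℤ) : ℝ) = X - 1/3 := by
      rw [hX]; push_cast; field_simp <;> norm_num <;> ring
    have e4 : ((3 * p : ℤ) : ℝ) / ((15 * q : ℤ) : ℝ) = 3 * X := by
      rw [hX]; push_cast; field_simp <;> norm_num <;> ring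
    have e5 : ((3 * q : ℤ) : ℝ) / ((15 * q : ℤ) : ℝ) = 1/5 := by
      push_cast; field_simp <;> norm_num
    have e6 : ((6 * q : ℤ) : ℝ) / ((15 * q : ℤ) : ℝ) = 2/5 := by
      push_cast; field_simp <;> norm_num
    rw [e1, e2, e3, e4, e5, e6]
    rw [← mul_assoc, c2_triple, ra_five, mul_one]
  | triple₃ q p =>
    have hq : (q : ℝ) ≠ 0 := by
      have : q ≠ 0 := by rintro rfl; simp at hM
      exact_mod_cast this
    simp only [List.map_cons, List.map_nil, List.prod_cons, List.prod_nil, mul_one]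
    set X : ℝ := (p : ℝ) / (12 * q) with hX
    have e1 : ((p : ℤ) : ℝ) / ((12 * q : ℤ) : ℝ) = X := by
      rw [hX]; push_cast; field_simp <;> norm_num <;> ring
    have e2 : ((p + 4 * q : ℤ) : ℝ) / ((12 * q : ℤ) : ℝ) = X + 1/3 := by
      rw [hX]; push_cast; field_simp <;> norm_num <;> ring
    have e3 : ((p - 4 * q : ℤ) : ℝ) / ((12 * q : ℤ) : ℝ) = X - 1/3 := by
      rw [hX]; push_cast; field_simp <;> norm_num <;> ring
    have e4 : ((3 * p : ℤ) : ℝ) / ((12 * q : ℤ) : ℝ) = 3 * X := by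
      rw [hX]; push_cast; field_simp <;> norm_num <;> ring
    have e5 : ((q : ℤ) : ℝ) / ((12 * q : ℤ) : ℝ) = 1/12 := by
      push_cast; field_simp <;> norm_num
    have e6 : ((5 * q : ℤ) : ℝ) / ((12 * q : ℤ) : ℝ) = 5/12 := by
      push_cast; field_simp <;> norm_num
    rw [e1, e2, e3, e4, e5, e6]
    rw [← mul_assoc, c2_triple, ra_twelve, mul_one]
  | quadruple₁ q p =>
    have hq : (q : ℝ) ≠ 0 := by
      have : q ≠ 0 := by rintro rfl; simp at hM
      exact_mod_cast this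
    simp only [List.map_cons, List.map_nil, List.prod_cons, List.prod_nil, mul_one]
    set X : ℝ := (p : ℝ) / (6 * q) with hX
    have e1 : ((p : ℤ) : ℝ) / ((6 * q : ℤ) : ℝ) = X := by
      rw [hX]; push_cast; field_simp <;> norm_num <;> ring
    have e2 : ((p + 3 * q : ℤ) : ℝ) / ((6 * q : ℤ) : ℝ) = X + 1/2 := by
      rw [hX]; push_cast; field_simp <;> norm_num <;> ring
    have e3 : ((2 * p : ℤ) : ℝ) / ((6 * q : ℤ) : ℝ) = 2 * X := by
      rw [hX]; push_cast; field_simp <;> norm_num <;> ring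
    have e4 : ((4 * p + 3 * q : ℤ) : ℝ) / ((6 * q : ℤ) : ℝ) = 4 * X + 1/2 := by
      rw [hX]; push_cast; field_simp <;> norm_num <;> ring
    have e5 : ((2 * q : ℤ) : ℝ) / ((6 * q : ℤ) : ℝ) = 1/3 := by
      push_cast; field_simp <;> norm_num
    rw [e1, e2, e3, e4, e5]
    rw [← mul_assoc, c2_double, ln_c2_third, mul_one, mul_one, ← ra_quad]; ring
  | quadruple₂ q p =>
    have hq : (q : ℝ) ≠ 0 := by
      have : q ≠ 0 := by rintro rfl; simp at hM
      exact_mod_cast this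
    simp only [List.map_cons, List.map_nil, List.prod_cons, List.prod_nil, mul_one]
    set X : ℝ := (p : ℝ) / (10 * q) with hX
    have e1 : ((p : ℤ) : ℝ) / ((10 * q : ℤ) : ℝ) = X := by
      rw [hX]; push_cast; field_simp <;> norm_num <;> ring
    have e2 : ((p + 5 * q : ℤ) : ℝ) / ((10 * q : ℤ) : ℝ) = X + 1/2 := by
      rw [hX]; push_cast; field_simp <;> norm_num <;> ring
    have e3 : ((2 * p : ℤ) : ℝ) / ((10 * q : ℤ) : ℝ) = 2 * X := by
      rw [hX]; push_cast; field_simp <;> norm_num <;> ring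
    have e4 : ((4 * p + 5 * q : ℤ) : ℝ) / ((10 * q : ℤ) : ℝ) = 4 * X + 1/2 := by
      rw [hX]; push_cast; field_simp <;> norm_num <;> ring
    have e5 : ((2 * q : ℤ) : ℝ) / ((10 * q : ℤ) : ℝ) = 1/5 := by
      push_cast; field_simp <;> norm_num
    have e6 : ((4 * q : ℤ) : ℝ) / ((10 * q : ℤ) : ℝ) = 2/5 := by
      push_cast; field_simp <;> norm_num
    rw [e1, e2, e3, e4, e5, e6]
    rw [← mul_assoc, c2_double, ra_five, mul_one, ← ra_quad]; ring
  | quadruple₃ q p =>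
    have hq : (q : ℝ) ≠ 0 := by
      have : q ≠ 0 := by rintro rfl; simp at hM
      exact_mod_cast this
    simp only [List.map_cons, List.map_nil, List.prod_cons, List.prod_nil, mul_one]
    set X : ℝ := (p : ℝ) / (12 * q) with hX
    have e1 : ((p : ℤ) : ℝ) / ((12 * q : ℤ) : ℝ) = X := by
      rw [hX]; push_cast; field_simp <;> norm_num <;> ring
    have e2 : ((p + 6 * q : ℤ) : ℝ) / ((12 * q : ℤ) : ℝ) = X + 1/2 := by
      rw [hX]; push_cast; field_simp <;> norm_num <;> ring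
    have e3 : ((2 * p : ℤ) : ℝ) / ((12 * q : ℤ) : ℝ) = 2 * X := by
      rw [hX]; push_cast; field_simp <;> norm_num <;> ring
    have e4 : ((4 * p + 6 * q : ℤ) : ℝ) / ((12 * q : ℤ) : ℝ) = 4 * X + 1/2 := by
      rw [hX]; push_cast; field_simp <;> norm_num <;> ring
    have e5 : ((q : ℤ) : ℝ) / ((12 * q : ℤ) : ℝ) = 1/12 := by
      push_cast; field_simp <;> norm_num
    have e6 : ((5 * q : ℤ) : ℝ) / ((12 * q : ℤ) : ℝ) = 5/12 := by
      push_cast; field_simp <;> norm_num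
    rw [e1, e2, e3, e4, e5, e6]
    rw [← mul_assoc, c2_double, ra_twelve, mul_one, ← ra_quad]; ring
  | mixed₁ q p =>
    have hq : (q : ℝ) ≠ 0 := by
      have : q ≠ 0 := by rintro rfl; simp at hM
      exact_mod_cast this
    simp only [List.map_cons, List.map_nil, List.prod_cons, List.prod_nil, mul_one]
    set X : ℝ := (p : ℝ) / (6 * q) with hX
    have e1 : ((p + q : ℤ) : ℝ) / ((6 * q : ℤ) : ℝ) = X + 1/6 := by
      rw [hX]; push_cast; field_simp <;> norm_num <;> ring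
    have e2 : ((p - q : ℤ) : ℝ) / ((6 * q : ℤ) : ℝ) = X - 1/6 := by
      rw [hX]; push_cast; field_simp <;> norm_num <;> ring
    have e3 : ((2 * p + 3 * q : ℤ) : ℝ) / ((6 * q : ℤ) : ℝ) = 2 * X + 1/2 := by
      rw [hX]; push_cast; field_simp <;> norm_num <;> ring
    have e4 : ((p : ℤ) : ℝ) / ((6 * q : ℤ) : ℝ) = X := by
      rw [hX]; push_cast; field_simp <;> norm_num <;> ring
    have e5 : ((3 * p + 3 * q : ℤ) : ℝ) / ((6 * q : ℤ) : ℝ) = 3 * X + 1/2 := by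
      rw [hX]; push_cast; field_simp <;> norm_num <;> ring
    have e6 : ((2 * q : ℤ) : ℝ) / ((6 * q : ℤ) : ℝ) = 1/3 := by
      push_cast; field_simp <;> norm_num
    rw [e1, e2, e3, e4, e5, e6]
    rw [← mul_assoc, ra_mixed₁, ln_c2_third, mul_one]
  | mixed₂ q p =>
    have hq : (q : ℝ) ≠ 0 := by
      have : q ≠ 0 := by rintro rfl; simp at hM
      exact_mod_cast this
    simp only [List.map_cons, List.map_nil, List.prod_cons, List.prod_nil, mul_one]
    set X : ℝ := (p : ℝ) / (6 * q) with hX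
    have e1 : ((2 * p + 3 * q : ℤ) : ℝ) / ((6 * q : ℤ) : ℝ) = 2 * X + 1/2 := by
      rw [hX]; push_cast; field_simp <;> norm_num <;> ring
    have e2 : ((2 * p + q : ℤ) : ℝ) / ((6 * q : ℤ) : ℝ) = 2 * X + 1/6 := by
      rw [hX]; push_cast; field_simp <;> norm_num <;> ring
    have e3 : ((2 * p - q : ℤ) : ℝ) / ((6 * q : ℤ) : ℝ) = 2 * X - 1/6 := by
      rw [hX]; push_cast; field_simp <;> norm_num <;> ring
    have e4 : ((3 * p : ℤ) : ℝ) / ((6 * q : ℤ) : ℝ) = 3 * X := by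
      rw [hX]; push_cast; field_simp <;> norm_num <;> ring
    have e5 : ((3 * p + 3 * q : ℤ) : ℝ) / ((6 * q : ℤ) : ℝ) = 3 * X + 1/2 := by
      rw [hX]; push_cast; field_simp <;> norm_num <;> ring
    have e6 : ((2 * q : ℤ) : ℝ) / ((6 * q : ℤ) : ℝ) = 1/3 := by
      push_cast; field_simp <;> norm_num
    rw [e1, e2, e3, e4, e5, e6]
    rw [← mul_assoc, ra_mixed₂, ln_c2_third, mul_one]
  | mixed₃ q p =>
    have hq : (q : ℝ) ≠ 0 := by
      have : q ≠ 0 := by rintro rfl; simp at hM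
      exact_mod_cast this
    simp only [List.map_cons, List.map_nil, List.prod_cons, List.prod_nil, mul_one]
    set X : ℝ := (p : ℝ) / (6 * q) with hX
    have e1 : ((p + q : ℤ) : ℝ) / ((6 * q : ℤ) : ℝ) = X + 1/6 := by
      rw [hX]; push_cast; field_simp <;> norm_num <;> ring
    have e2 : ((p - q : ℤ) : ℝ) / ((6 * q : ℤ) : ℝ) = X - 1/6 := by
      rw [hX]; push_cast; field_simp <;> norm_num <;> ring
    have e3 : ((3 * p : ℤ) : ℝ) / ((6 * q : ℤ) : ℝ) = 3 * X := by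
      rw [hX]; push_cast; field_simp <;> norm_num <;> ring
    have e4 : ((p : ℤ) : ℝ) / ((6 * q : ℤ) : ℝ) = X := by
      rw [hX]; push_cast; field_simp <;> norm_num <;> ring
    have e5 : ((2 * p + q : ℤ) : ℝ) / ((6 * q : ℤ) : ℝ) = 2 * X + 1/6 := by
      rw [hX]; push_cast; field_simp <;> norm_num <;> ring
    have e6 : ((2 * p - q : ℤ) : ℝ) / ((6 * q : ℤ) : ℝ) = 2 * X - 1/6 := by
      rw [hX]; push_cast; field_simp <;> norm_num <;> ring
    rw [e1, e2, e3, e4, e5, e6]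
    rw [← mul_assoc, ra_mixed₃, mul_assoc]
  | mixed₄ q p =>
    have hq : (q : ℝ) ≠ 0 := by
      have : q ≠ 0 := by rintro rfl; simp at hM
      exact_mod_cast this
    simp only [List.map_cons, List.map_nil, List.prod_cons, List.prod_nil, mul_one]
    set X : ℝ := (p : ℝ) / (6 * q) with hX
    have e1 : ((p + q : ℤ) : ℝ) / ((6 * q : ℤ) : ℝ) = X + 1/6 := by
      rw [hX]; push_cast; field_simp <;> norm_num <;> ring
    have e2 : ((p - q : ℤ) : ℝ) / ((6 * q : ℤ) : ℝ) = X - 1/6 := by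
      rw [hX]; push_cast; field_simp <;> norm_num <;> ring
    have e3 : ((4 * p + 3 * q : ℤ) : ℝ) / ((6 * q : ℤ) : ℝ) = 4 * X + 1/2 := by
      rw [hX]; push_cast; field_simp <;> norm_num <;> ring
    have e4 : ((p : ℤ) : ℝ) / ((6 * q : ℤ) : ℝ) = X := by
      rw [hX]; push_cast; field_simp <;> norm_num <;> ring
    have e5 : ((2 * p : ℤ) : ℝ) / ((6 * q : ℤ) : ℝ) = 2 * X := by
      rw [hX]; push_cast; field_simp <;> norm_num <;> ring
    have e6 : ((3 * p + 3 * q : ℤ) : ℝ) / ((6 * q : ℤ) : ℝ) = 3 * X + 1/2 := by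
      rw [hX]; push_cast; field_simp <;> norm_num <;> ring
    rw [e1, e2, e3, e4, e5, e6]
    rw [← mul_assoc, ra_mixed₄, mul_assoc]
  | mixed₅ q p =>
    have hq : (q : ℝ) ≠ 0 := by
      have : q ≠ 0 := by rintro rfl; simp at hM
      exact_mod_cast this
    simp only [List.map_cons, List.map_nil, List.prod_cons, List.prod_nil, mul_one]
    set X : ℝ := (p : ℝ) / (6 * q) with hX
    have e1 : ((2 * p + q : ℤ) : ℝ) / ((6 * q : ℤ) : ℝ) = 2 * X + 1/6 := by
      rw [hX]; push_cast; field_simp <;> norm_num <;> ring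
    have e2 : ((2 * p - q : ℤ) : ℝ) / ((6 * q : ℤ) : ℝ) = 2 * X - 1/6 := by
      rw [hX]; push_cast; field_simp <;> norm_num <;> ring
    have e3 : ((4 * p + 3 * q : ℤ) : ℝ) / ((6 * q : ℤ) : ℝ) = 4 * X + 1/2 := by
      rw [hX]; push_cast; field_simp <;> norm_num <;> ring
    have e4 : ((2 * p : ℤ) : ℝ) / ((6 * q : ℤ) : ℝ) = 2 * X := by
      rw [hX]; push_cast; field_simp <;> norm_num <;> ring
    have e5 : ((3 * p : ℤ) : ℝ) / ((6 * q : ℤ) : ℝ) = 3 * X := by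
      rw [hX]; push_cast; field_simp <;> norm_num <;> ring
    have e6 : ((3 * p + 3 * q : ℤ) : ℝ) / ((6 * q : ℤ) : ℝ) = 3 * X + 1/2 := by
      rw [hX]; push_cast; field_simp <;> norm_num <;> ring
    rw [e1, e2, e3, e4, e5, e6]
    rw [← mul_assoc, ra_mixed₅, mul_assoc]
  | mixed₆ q p =>
    have hq : (q : ℝ) ≠ 0 := by
      have : q ≠ 0 := by rintro rfl; simp at hM
      exact_mod_cast this
    simp only [List.map_cons, List.map_nil, List.prod_cons, List.prod_nil, mul_one]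
    set X : ℝ := (p : ℝ) / (6 * q) with hX
    have e1 : ((p : ℤ) : ℝ) / ((6 * q : ℤ) : ℝ) = X := by
      rw [hX]; push_cast; field_simp <;> norm_num <;> ring
    have e2 : ((p + 3 * q : ℤ) : ℝ) / ((6 * q : ℤ) : ℝ) = X + 1/2 := by
      rw [hX]; push_cast; field_simp <;> norm_num <;> ring
    have e3 : ((6 * p : ℤ) : ℝ) / ((6 * q : ℤ) : ℝ) = 6 * X := by
      rw [hX]; push_cast; field_simp <;> norm_num <;> ring
    have e4 : ((2 * p + 2 * q : ℤ) : ℝ) / ((6 * q : ℤ) : ℝ) = 2 * X + 1/3 := by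
      rw [hX]; push_cast; field_simp <;> norm_num <;> ring
    have e5 : ((2 * p - 2 * q : ℤ) : ℝ) / ((6 * q : ℤ) : ℝ) = 2 * X - 1/3 := by
      rw [hX]; push_cast; field_simp <;> norm_num <;> ring
    have e6 : ((4 * p + 3 * q : ℤ) : ℝ) / ((6 * q : ℤ) : ℝ) = 4 * X + 1/2 := by
      rw [hX]; push_cast; field_simp <;> norm_num <;> ring
    rw [e1, e2, e3, e4, e5, e6]
    rw [← mul_assoc, ra_mixed₆, mul_assoc]
  | mixed₇ q p =>
    have hq : (q : ℝ) ≠ 0 := by
      have : q ≠ 0 := by rintro rfl; simp at hM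
      exact_mod_cast this
    simp only [List.map_cons, List.map_nil, List.prod_cons, List.prod_nil, mul_one]
    set X : ℝ := (p : ℝ) / (6 * q) with hX
    have e1 : ((3 * p : ℤ) : ℝ) / ((6 * q : ℤ) : ℝ) = 3 * X := by
      rw [hX]; push_cast; field_simp <;> norm_num <;> ring
    have e2 : ((3 * p + 3 * q : ℤ) : ℝ) / ((6 * q : ℤ) : ℝ) = 3 * X + 1/2 := by
      rw [hX]; push_cast; field_simp <;> norm_num <;> ring
    have e3 : ((6 * p : ℤ) : ℝ) / ((6 * q : ℤ) : ℝ) = 6 * X := by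
      rw [hX]; push_cast; field_simp <;> norm_num <;> ring
    have e4 : ((4 * p + 3 * q : ℤ) : ℝ) / ((6 * q : ℤ) : ℝ) = 4 * X + 1/2 := by
      rw [hX]; push_cast; field_simp <;> norm_num <;> ring
    have e5 : ((4 * p + q : ℤ) : ℝ) / ((6 * q : ℤ) : ℝ) = 4 * X + 1/6 := by
      rw [hX]; push_cast; field_simp <;> norm_num <;> ring
    have e6 : ((4 * p - q : ℤ) : ℝ) / ((6 * q : ℤ) : ℝ) = 4 * X - 1/6 := by
      rw [hX]; push_cast; field_simp <;> norm_num <;> ring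
    rw [e1, e2, e3, e4, e5, e6]
    rw [← mul_assoc, ra_mixed₇, mul_assoc]
  | sporadic n a b c d e f u q h hu =>
    have h1 := hspor n a b c d e f u q h hu hM
    simp only [List.map_cons, List.map_nil, List.prod_cons, List.prod_nil, mul_one]
    rw [← mul_assoc, ← mul_assoc]
    exact h1

end Pool.Agent.TriCos
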