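import Pool.Agent.Lib_MP_6e4ab6_nt.Full.NIdefs
import Pool.Agent.Lib_MP_6e4ab6_nt.Full.VzSound

/-! The sporadic relations hold: verified relations and Galois conjugation. -/

namespace Pool.Agent.TriCos

open Finset

namespace RevB

open Eng

/-- the primes to remove from `2 n`, except the last `2` -/
noncomputable def stp (n : ℕ) : NL :=
  bif Nat.beq n 15 then NL.cons 5 (NL.cons 3 NL.nil) else
  bif Nat.beq n 21 then NL.cons 7 (NL.cons 3 NL.nil) else
  bif Nat.beq n 30 then NL.cons 5 (NL.cons 3 (NL.cons 2 NL.nil)) else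
  bif Nat.beq n 42 then NL.cons 7 (NL.cons 3 (NL.cons 2 NL.nil)) else
  bif Nat.beq n 60 then NL.cons 5 (NL.cons 3 (NL.cons 2 (NL.cons 2 NL.nil))) else
  bif Nat.beq n 63 then NL.cons 7 (NL.cons 3 (NL.cons 3 NL.nil)) else
  bif Nat.beq n 66 then NL.cons 11 (NL.cons 3 (NL.cons 2 NL.nil)) else
  bif Nat.beq n 70 then NL.cons 7 (NL.cons 5 (NL.cons 2 NL.nil)) else
  bif Nat.beq n 84 then NL.cons 7 (NL.cons 3 (NL.cons 2 (NL.cons 2 NL.nil))) else
  bif Nat.beq n 90 then NL.cons 5 (NL.cons 3 (NL.cons 3 (NL.cons 2 NL.nil))) else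
  bif Nat.beq n 105 then NL.cons 7 (NL.cons 5 (NL.cons 3 NL.nil)) else
  bif Nat.beq n 120 then NL.cons 5 (NL.cons 3 (NL.cons 2 (NL.cons 2 (NL.cons 2 NL.nil)))) else
  bif Nat.beq n 126 then NL.cons 7 (NL.cons 3 (NL.cons 3 (NL.cons 2 NL.nil))) else
  bif Nat.beq n 140 then NL.cons 7 (NL.cons 5 (NL.cons 2 (NL.cons 2 NL.nil))) else
  bif Nat.beq n 168 then NL.cons 7 (NL.cons 3 (NL.cons 2 (NL.cons 2 (NL.cons 2 NL.nil)))) else
  bif Nat.beq n 180 then NL.cons 5 (NL.cons 3 (NL.cons 3 (NL.cons 2 (NL.cons 2 NL.nil)))) else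
  bif Nat.beq n 210 then NL.cons 7 (NL.cons 5 (NL.cons 3 (NL.cons 2 NL.nil))) else
  NL.cons 7 (NL.cons 5 (NL.cons 3 (NL.cons 2 (NL.cons 2 NL.nil))))

/-- the six exponents give a verified nondegenerate relation -/
noncomputable def chk (n a b c d e f : ℕ) : Bool :=
  (Nat.ble 1 n && Nat.ble (2 * n) 65536) &&
  ((Nat.ble (2 * a + 1) n && (Nat.ble (2 * b + 1) n && Nat.ble (2 * c + 1) n)) &&
  (Nat.ble (2 * d + 1) n && (Nat.ble (2 * e + 1) n && Nat.ble (2 * f + 1) n))) &&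
  clsOK (stp n) (2 * n) 16 (mons (2 * n) a b c d e f 32 32 32 32 32 32)

/-- check of a row with six entries -/
noncomputable def chk6 (r : ℕ × List ℕ) : Bool :=
  chk r.1 (r.2.getD 0 0) (r.2.getD 1 0) (r.2.getD 2 0) (r.2.getD 3 0) (r.2.getD 4 0) (r.2.getD 5 0)

/-- check of a row with four entries; a third is added on both sides -/
noncomputable def chk4 (r : ℕ × List ℕ) : Bool :=
  chk r.1 (r.2.getD 0 0) (r.2.getD 1 0) (r.1 / 3) (r.2.getD 2 0) (r.2.getD 3 0) (r.1 / 3)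

theorem sporadic_chk : tripleTable.all chk6 = true := by
  decide +kernel

theorem pairs_chk : pairTable.all chk4 = true := by
  decide +kernel

theorem c2_ne_zero_of_lt (n w : ℕ) (h : 2 * w + 1 ≤ n) : c2 ((w : ℝ) / n) ≠ 0 := by
  unfold c2
  have hn : (0 : ℝ) < n := by
    have : 0 < n := by omega
    exact_mod_cast this
  have h1 : (w : ℝ) / n < 1 / 2 := by
    rw [div_lt_iff₀ hn]
    have : (2 * w + 1 : ℝ) ≤ n := by exact_mod_cast h
    linarith
  have h0 : (0 : ℝ) ≤ (w : ℝ) / n := by positivity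
  have hc : 0 < Real.cos (Real.pi * ((w : ℝ) / n)) := by
    apply Real.cos_pos_of_mem_Ioo
    constructor
    · have := Real.pi_pos
      nlinarith [mul_nonneg this.le h0]
    · have := Real.pi_pos
      nlinarith
  positivity

theorem chk_sol (n a b c d e f : ℕ) (h : chk n a b c d e f = true) (u : ℤ)
    (hu : IsCoprime u (2 * n : ℤ)) :
    Sol (ang n (fun i => u * (![(a : ℤ), b, c, d, e, f]) i)) := by
  unfold chk at h
  simp only [Bool.and_eq_true, ble_true] at h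
  obtain ⟨⟨⟨hn, hn2⟩, ⟨ha, hb, hc⟩, hd, he, hf⟩, hcls⟩ := h
  have hrel : Rel (2 * n) ![(a : ℤ), b, c, d, e, f] :=
    relOK_sound (stp n) (2 * n) (by omega) (dvd_mul_right _ _) hn2 a b c d e f
      ⟨by omega, by omega, by omega, by omega, by omega, by omega⟩ hcls
  have hnd : ND (2 * n) ![(a : ℤ), b, c, d, e, f] := by
    rw [nd_iff n (by omega)]
    intro i
    fin_cases i
    · simpa using c2_ne_zero_of_lt n a ha
    · simpa using c2_ne_zero_of_lt n b hb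
    · simpa using c2_ne_zero_of_lt n c hc
    · simpa using c2_ne_zero_of_lt n d hd
    · simpa using c2_ne_zero_of_lt n e he
    · simpa using c2_ne_zero_of_lt n f hf
  exact sol_galois n (by omega) _ u hu (sol_of_rel n (by omega) _ hrel hnd)

theorem arg_eq (n a : ℕ) (u q : ℤ) (hq : 0 < (n : ℤ) * q) :
    (((u * a * q : ℤ) : ℝ) / ((n * q : ℤ) : ℝ)) = (((u * (a : ℤ) : ℤ) : ℝ) / (n : ℝ)) := by
  have hq0 : (q : ℝ) ≠ 0 := by
    rintro h0
    have : q = 0 := by exact_mod_cast h0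
    rw [this, mul_zero] at hq
    exact lt_irrefl _ hq
  push_cast
  rw [mul_div_mul_right _ _ hq0]

end RevB

open RevB in
theorem pairs_sol (n a b c d : ℕ) (u q : ℤ) (h : (n, [a, b, c, d]) ∈ pairTable)
    (hu : IsCoprime u (2 * n : ℤ)) (hq : 0 < (n : ℤ) * q) :
    c2 ((u * a * q : ℤ) / ((n * q : ℤ) : ℝ)) * c2 ((u * b * q : ℤ) / ((n * q : ℤ) : ℝ))
        = c2 ((u * c * q : ℤ) / ((n * q : ℤ) : ℝ)) * c2 ((u * d * q : ℤ) / ((n * q : ℤ) : ℝ)) := by
  have h1 : chk n a b (n / 3) c d (n / 3) = true := List.all_eq_true.mp pairs_chk _ h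
  obtain ⟨h0, h2⟩ := chk_sol n a b (n / 3) c d (n / 3) h1 u hu
  simp only [c2_ang] at h0 h2
  rw [arg_eq n a u q hq, arg_eq n b u q hq, arg_eq n c u q hq, arg_eq n d u q hq]
  exact mul_right_cancel₀ (h0 2) h2

open RevB in
theorem sporadic_sol (n a b c d e f : ℕ) (u q : ℤ) (h : (n, [a, b, c, d, e, f]) ∈ tripleTable)
    (hu : IsCoprime u (2 * n : ℤ)) (hq : 0 < (n : ℤ) * q) :
      c2 ((u * a * q : ℤ) / ((n * q : ℤ) : ℝ)) * c2 ((u * b * q : ℤ) / ((n * q : ℤ) : ℝ)) *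
        c2 ((u * c * q : ℤ) / ((n * q : ℤ) : ℝ))
        = c2 ((u * d * q : ℤ) / ((n * q : ℤ) : ℝ)) * c2 ((u * e * q : ℤ) / ((n * q : ℤ) : ℝ)) *
        c2 ((u * f * q : ℤ) / ((n * q : ℤ) : ℝ)) := by
  have h1 : chk n a b c d e f = true := List.all_eq_true.mp sporadic_chk _ h
  obtain ⟨h0, h2⟩ := chk_sol n a b c d e f h1 u hu
  simp only [c2_ang] at h0 h2
  rw [arg_eq n a u q hq, arg_eq n b u q hq, arg_eq n c u q hq, arg_eq n d u q hq,
    arg_eq n e u q hq, arg_eq n f u q hq]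
  exact h2

end Pool.Agent.TriCos
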