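import Pool.Agent.Lib_MP_6e4ab6_nt.Full.ListDefs
import Pool.Agent.Lib_MP_6e4ab6_nt.Full.NIlem

/-!
# Piece TT: table entries are in the list
-/

namespace Pool.Agent.TriCos

open Finset

/-! ### `dist` -/

theorem dist_congr (n : ℕ) (k l : ℤ) (h : (n : ℤ) ∣ k - l) : dist n k = dist n l := by
  unfold dist
  have : k % (n : ℤ) = l % (n : ℤ) := Int.emod_eq_emod_iff_emod_sub_eq_zero.mpr
    (Int.emod_eq_zero_of_dvd h)
  rw [this]

theorem dist_scale (n q : ℕ) (hq : 0 < q) (k : ℤ) :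
    dist (n * q) (k * q) = dist n k * q := by
  unfold dist
  have h1 : (k * (q : ℤ)) % ((n * q : ℕ) : ℤ) = (q : ℤ) * (k % (n : ℤ)) := by
    push_cast
    rw [mul_comm k, mul_comm (n : ℤ), Int.mul_emod_mul_of_pos _ _ (by exact_mod_cast hq)]
  have h2 : ((q : ℤ) * (k % (n : ℤ))).toNat = (k % (n : ℤ)).toNat * q := by
    rw [mul_comm]
    by_cases hk : 0 ≤ k % (n : ℤ)
    · rw [Int.toNat_mul hk (by positivity), Int.toNat_natCast]
    · push Not at hk
      rw [Int.toNat_of_nonpos hk.le, zero_mul, Int.toNat_of_nonpos]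
      exact mul_nonpos_of_nonpos_of_nonneg hk.le (by positivity)
  rw [h1, h2, ← Nat.sub_mul, ← Nat.mul_min_mul_right]

theorem dist_of_small (m s : ℕ) (hs : 2 * s < m) (t : ℤ) :
    dist m ((s : ℤ) + m * t) = s ∧ dist m (-(s : ℤ) + m * t) = s := by
  have hm : (0 : ℤ) < m := by omega
  constructor
  · unfold dist
    rw [Int.add_mul_emod_self_left, Int.emod_eq_of_lt (by positivity) (by omega)]
    simp only [Int.toNat_natCast]
    omega
  · unfold dist
    rw [Int.add_mul_emod_self_left]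
    rcases Nat.eq_zero_or_pos s with rfl | hs0
    · simp
    · have : (-(s : ℤ)) % (m : ℤ) = m - s := by
        rw [← Int.add_mul_emod_self_left (-(s : ℤ)) (m : ℤ) 1, mul_one,
          Int.emod_eq_of_lt (by omega) (by omega)]
        ring
      rw [this]
      omega

/-- matching a small angle `s / m` with `w / n` -/
theorem match_angle (m n s : ℕ) (hm : 0 < m) (hn : 0 < n) (hs : 2 * s < m) (w : ℤ)
    (h : c2 ((s : ℝ) / m) = c2 ((w : ℝ) / n)) :
    (n : ℤ) ∣ w * m ∧ ∀ q : ℕ, m = n * q → s = dist m (w * q) := by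
  have hm' : (m : ℝ) ≠ 0 := Nat.cast_ne_zero.mpr hm.ne'
  have hn' : (n : ℝ) ≠ 0 := Nat.cast_ne_zero.mpr hn.ne'
  rcases c2_eq_c2 _ _ h with ⟨t, ht⟩ | ⟨t, ht⟩
  · have h1 : (w : ℝ) * m = n * (s + m * t) := by
      field_simp at ht
      linarith
    have h2 : w * m = n * (s + m * t) := by exact_mod_cast h1
    refine ⟨⟨_, h2⟩, fun q hq => ?_⟩
    have h3 : w * q = s + m * t := by
      have hn2 : (n : ℤ) ≠ 0 := by exact_mod_cast hn.ne'
      apply mul_left_cancel₀ hn2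
      rw [← h2, hq]; push_cast; ring
    rw [h3, (dist_of_small m s hs t).1]
  · have h1 : (w : ℝ) * m = n * (-s + m * t) := by
      field_simp at ht
      linarith
    have h2 : w * m = n * (-s + m * t) := by exact_mod_cast h1
    refine ⟨⟨_, h2⟩, fun q hq => ?_⟩
    have h3 : w * q = -s + m * t := by
      have hn2 : (n : ℤ) ≠ 0 := by exact_mod_cast hn.ne'
      apply mul_left_cancel₀ hn2
      rw [← h2, hq]; push_cast; ring
    rw [h3, (dist_of_small m s hs t).2]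

theorem side_match (m n s₁ s₂ s₃ : ℕ) (hm : 0 < m) (hn : 0 < n)
    (h₁ : 2 * s₁ < m) (h₂ : 2 * s₂ < m) (h₃ : 2 * s₃ < m) (w₁ w₂ w₃ : ℤ)
    (h : ({c2 ((s₁ : ℝ) / m), c2 ((s₂ : ℝ) / m), c2 ((s₃ : ℝ) / m)} : Multiset ℝ) =
      {c2 ((w₁ : ℝ) / n), c2 ((w₂ : ℝ) / n), c2 ((w₃ : ℝ) / n)}) :
    (n : ℤ) ∣ w₁ * m ∧ (n : ℤ) ∣ w₂ * m ∧ (n : ℤ) ∣ w₃ * m ∧ ∀ q : ℕ, m = n * q →
      ({s₁, s₂, s₃} : Multiset ℕ) = {dist m (w₁ * q), dist m (w₂ * q), dist m (w₃ * q)} := by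
  have key := fun (s : ℕ) (hs : 2 * s < m) (w : ℤ) => match_angle m n s hm hn hs w
  have s12 : ∀ p q r : ℕ, ({p, q, r} : Multiset ℕ) = {q, p, r} := fun p q r =>
    Multiset.cons_swap p q {r}
  have s23 : ∀ p q r : ℕ, ({p, q, r} : Multiset ℕ) = {p, r, q} := fun p q r =>
    congrArg (fun t => p ::ₘ t) (Multiset.cons_swap q r 0)
  rcases triple_cases h with ⟨e₁, e₂, e₃⟩ | ⟨e₁, e₂, e₃⟩ | ⟨e₁, e₂, e₃⟩ | ⟨e₁, e₂, e₃⟩ |
    ⟨e₁, e₂, e₃⟩ | ⟨e₁, e₂, e₃⟩
  · have k₁ := key _ h₁ _ e₁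
    have k₂ := key _ h₂ _ e₂
    have k₃ := key _ h₃ _ e₃
    refine ⟨k₁.1, k₂.1, k₃.1, fun q hq => ?_⟩
    rw [← k₁.2 q hq, ← k₂.2 q hq, ← k₃.2 q hq]
  · have k₁ := key _ h₁ _ e₁
    have k₂ := key _ h₂ _ e₂
    have k₃ := key _ h₃ _ e₃
    refine ⟨k₁.1, k₃.1, k₂.1, fun q hq => ?_⟩
    rw [← k₁.2 q hq, ← k₂.2 q hq, ← k₃.2 q hq]
    exact s23 _ _ _
  · have k₁ := key _ h₁ _ e₁
    have k₂ := key _ h₂ _ e₂
    have k₃ := key _ h₃ _ e₃
    refine ⟨k₂.1, k₁.1, k₃.1, fun q hq => ?_⟩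
    rw [← k₁.2 q hq, ← k₂.2 q hq, ← k₃.2 q hq]
    exact s12 _ _ _
  · have k₁ := key _ h₁ _ e₁
    have k₂ := key _ h₂ _ e₂
    have k₃ := key _ h₃ _ e₃
    refine ⟨k₃.1, k₁.1, k₂.1, fun q hq => ?_⟩
    rw [← k₁.2 q hq, ← k₂.2 q hq, ← k₃.2 q hq]
    exact (s23 _ _ _).trans (s12 _ _ _)
  · have k₁ := key _ h₁ _ e₁
    have k₂ := key _ h₂ _ e₂
    have k₃ := key _ h₃ _ e₃
    refine ⟨k₂.1, k₃.1, k₁.1, fun q hq => ?_⟩
    rw [← k₁.2 q hq, ← k₂.2 q hq, ← k₃.2 q hq]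
    exact (s12 _ _ _).trans (s23 _ _ _)
  · have k₁ := key _ h₁ _ e₁
    have k₂ := key _ h₂ _ e₂
    have k₃ := key _ h₃ _ e₃
    refine ⟨k₃.1, k₂.1, k₁.1, fun q hq => ?_⟩
    rw [← k₁.2 q hq, ← k₂.2 q hq, ← k₃.2 q hq]
    exact ((s12 _ _ _).trans (s23 _ _ _)).trans (s12 _ _ _)

/-! ### Scaling the list -/

theorem family_scale (M : ℤ) (x y : List ℤ) (h : Family M x y) (k : ℤ) :
    Family (M * k) (x.map (· * k)) (y.map (· * k)) := by
  have tr : ∀ {M M' a a' b b' c c' d d' e e' f f' : ℤ}, Family M' [a', b', c'] [d', e', f'] →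
      M' = M → a' = a → b' = b → c' = c → d' = d → e' = e → f' = f →
      Family M [a, b, c] [d, e, f] := by
    rintro M M' a a' b b' c c' d d' e e' f f' h rfl rfl rfl rfl rfl rfl rfl; exact h
  cases h
  all_goals simp only [List.map_cons, List.map_nil]
  case cancel q p r =>
    refine tr (Family.cancel (q * k) (p * k) (r * k)) ?_ ?_ ?_ ?_ ?_ ?_ ?_ <;> ring
  case cancelSporadic n a b c d u q r h hu =>
    refine tr (Family.cancelSporadic n a b c d u (q * k) (r * k) h hu) ?_ ?_ ?_ ?_ ?_ ?_ ?_ <;> ring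
  case double q p r =>
    refine tr (Family.double (q * k) (p * k) (r * k)) ?_ ?_ ?_ ?_ ?_ ?_ ?_ <;> ring
  case double₁ q p =>
    refine tr (Family.double₁ (q * k) (p * k)) ?_ ?_ ?_ ?_ ?_ ?_ ?_ <;> ring
  case double₂ q p =>
    refine tr (Family.double₂ (q * k) (p * k)) ?_ ?_ ?_ ?_ ?_ ?_ ?_ <;> ring
  case double₃ q p =>
    refine tr (Family.double₃ (q * k) (p * k)) ?_ ?_ ?_ ?_ ?_ ?_ ?_ <;> ring
  case triple₁ q p =>
    refine tr (Family.triple₁ (q * k) (p * k)) ?_ ?_ ?_ ?_ ?_ ?_ ?_ <;> ring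
  case triple₂ q p =>
    refine tr (Family.triple₂ (q * k) (p * k)) ?_ ?_ ?_ ?_ ?_ ?_ ?_ <;> ring
  case triple₃ q p =>
    refine tr (Family.triple₃ (q * k) (p * k)) ?_ ?_ ?_ ?_ ?_ ?_ ?_ <;> ring
  case quadruple₁ q p =>
    refine tr (Family.quadruple₁ (q * k) (p * k)) ?_ ?_ ?_ ?_ ?_ ?_ ?_ <;> ring
  case quadruple₂ q p =>
    refine tr (Family.quadruple₂ (q * k) (p * k)) ?_ ?_ ?_ ?_ ?_ ?_ ?_ <;> ring
  case quadruple₃ q p =>
    refine tr (Family.quadruple₃ (q * k) (p * k)) ?_ ?_ ?_ ?_ ?_ ?_ ?_ <;> ring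
  case mixed₁ q p =>
    refine tr (Family.mixed₁ (q * k) (p * k)) ?_ ?_ ?_ ?_ ?_ ?_ ?_ <;> ring
  case mixed₂ q p =>
    refine tr (Family.mixed₂ (q * k) (p * k)) ?_ ?_ ?_ ?_ ?_ ?_ ?_ <;> ring
  case mixed₃ q p =>
    refine tr (Family.mixed₃ (q * k) (p * k)) ?_ ?_ ?_ ?_ ?_ ?_ ?_ <;> ring
  case mixed₄ q p =>
    refine tr (Family.mixed₄ (q * k) (p * k)) ?_ ?_ ?_ ?_ ?_ ?_ ?_ <;> ring
  case mixed₅ q p =>
    refine tr (Family.mixed₅ (q * k) (p * k)) ?_ ?_ ?_ ?_ ?_ ?_ ?_ <;> ring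
  case mixed₆ q p =>
    refine tr (Family.mixed₆ (q * k) (p * k)) ?_ ?_ ?_ ?_ ?_ ?_ ?_ <;> ring
  case mixed₇ q p =>
    refine tr (Family.mixed₇ (q * k) (p * k)) ?_ ?_ ?_ ?_ ?_ ?_ ?_ <;> ring
  case sporadic n a b c d e f u q h hu =>
    refine tr (Family.sporadic n a b c d e f u (q * k) h hu) ?_ ?_ ?_ ?_ ?_ ?_ ?_ <;> ring

theorem listed_scale (n q : ℕ) (hq : 0 < q) (S T : Multiset ℕ) (h : Listed n S T) :
    Listed (n * q) (S.map (· * q)) (T.map (· * q)) := by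
  obtain ⟨x, y, hf, hh⟩ := h
  have hx : ∀ x : List ℤ, (((x.map (· * (q : ℤ))).map (dist (n * q)) : List ℕ) : Multiset ℕ) =
      ((x.map (dist n) : List ℕ) : Multiset ℕ).map (· * q) := by
    intro x
    rw [Multiset.map_coe, List.map_map, List.map_map]
    congr 1
    apply List.map_congr_left
    intro k _
    exact dist_scale n q hq k
  refine ⟨x.map (· * (q : ℤ)), y.map (· * (q : ℤ)), ?_, ?_⟩
  · have := family_scale n x y hf q
    push_cast
    exact this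
  · rw [hx x, hx y]
    rcases hh with ⟨h1, h2⟩ | ⟨h1, h2⟩
    · exact Or.inl ⟨by rw [h1], by rw [h2]⟩
    · exact Or.inr ⟨by rw [h1], by rw [h2]⟩

/-! ### The rows of the table -/

/-- a linear multiset identity of distances for all units follows from a finite check -/
theorem lin_case (n : ℕ) (hn : 0 < n) (c : ℕ → Bool) (A B : List (ℤ × ℤ))
    (h : ∀ v : Fin n, Nat.gcd v.val n = 1 → c v.val = true →
      ((A.map (fun t => dist n (t.1 * (v.val : ℤ) + t.2)) : List ℕ) : Multiset ℕ) =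
        ((B.map (fun t => dist n (t.1 * (v.val : ℤ) + t.2)) : List ℕ) : Multiset ℕ))
    (u : ℤ) (hu : IsCoprime u (2 * n : ℤ)) (huc : c (u % (n : ℤ)).toNat = true) :
    ((A.map (fun t => dist n (t.1 * u + t.2)) : List ℕ) : Multiset ℕ) =
        ((B.map (fun t => dist n (t.1 * u + t.2)) : List ℕ) : Multiset ℕ) := by
  have hn' : (0 : ℤ) < n := by exact_mod_cast hn
  have h0 : 0 ≤ u % (n : ℤ) := Int.emod_nonneg _ hn'.ne'
  have h1 : u % (n : ℤ) < n := Int.emod_lt_of_pos _ hn'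
  obtain ⟨v, hv⟩ := Int.eq_ofNat_of_zero_le h0
  have hvn : v < n := by omega
  have hd : (n : ℤ) ∣ u - (v : ℤ) := by
    rw [← hv]; exact Int.dvd_self_sub_emod
  have hcop : Nat.gcd v n = 1 := by
    have h2 : IsCoprime u (n : ℤ) := IsCoprime.of_mul_right_right hu
    have h3 : IsCoprime (v : ℤ) (n : ℤ) := by
      obtain ⟨t, ht⟩ := hd
      have : (v : ℤ) = u + n * (-t) := by linarith
      rw [this]
      exact IsCoprime.add_mul_left_left h2 _
    exact Nat.isCoprime_iff_coprime.mp h3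
  have hc : ∀ C : List (ℤ × ℤ), C.map (fun t => dist n (t.1 * u + t.2)) =
      C.map (fun t => dist n (t.1 * (v : ℤ) + t.2)) := by
    intro C
    apply List.map_congr_left
    intro t _
    apply dist_congr
    obtain ⟨z, hz⟩ := hd
    exact ⟨t.1 * z, by linear_combination t.1 * hz⟩
  rw [hc A, hc B]
  refine h ⟨v, hvn⟩ hcop ?_
  rw [hv, Int.toNat_natCast] at huc
  exact huc

/-- the rows of `tab` which belong to the infinite families -/
def others : List (ℕ × List ℕ) :=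
  [(9, [1, 2, 4, 3, 3, 3]), (12, [1, 4, 5, 4, 4, 4]), (15, [1, 4, 5, 3, 3, 5]),
   (15, [3, 5, 6, 5, 5, 5]), (24, [1, 2, 11, 8, 8, 8]), (30, [1, 7, 10, 4, 6, 10]),
   (30, [1, 10, 11, 6, 10, 10]), (42, [1, 13, 14, 6, 12, 14]), (45, [5, 10, 20, 9, 15, 18]),
   (60, [2, 20, 22, 5, 12, 25]), (60, [2, 20, 22, 9, 20, 21]), (60, [5, 20, 25, 12, 20, 24]),
   (120, [5, 10, 55, 24, 40, 48])]

theorem tab_split : ∀ r ∈ tab, r ∈ tripleTable ∨ r ∈ others := by decide +kernel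

theorem tab_gcd : ∀ r ∈ tab, 0 < r.1 ∧ r.2.length = 6 ∧ Nat.gcd r.1 (r.2.foldr Nat.gcd 0) = 1 := by
  decide +kernel

theorem len_six (l : List ℕ) (h : l.length = 6) : ∃ a b c d e f, l = [a, b, c, d, e, f] := by
  match l, h with
  | [a, b, c, d, e, f], _ => exact ⟨a, b, c, d, e, f, rfl⟩

/-- listing from a family at level `n` with explicit entries -/
theorem listed_of (n : ℕ) (S T : Multiset ℕ) (M : ℤ) (x₁ x₂ x₃ y₁ y₂ y₃ : ℤ)
    (hf : Family M [x₁, x₂, x₃] [y₁, y₂, y₃]) (hM : M = n)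
    (hS : S = {dist n x₁, dist n x₂, dist n x₃}) (hT : T = {dist n y₁, dist n y₂, dist n y₃}) :
    Listed n S T := by
  subst hM
  exact ⟨_, _, hf, Or.inl ⟨hS, hT⟩⟩

theorem listed_symm (n : ℕ) (S T : Multiset ℕ) (h : Listed n S T) : Listed n T S := by
  obtain ⟨x, y, hf, h⟩ := h
  exact ⟨x, y, hf, h.symm.imp (fun h => ⟨h.2, h.1⟩) (fun h => ⟨h.2, h.1⟩)⟩

/-- three entries version of `lin_case`, with a condition on the residue -/
theorem lin3c (n : ℕ) (hn : 0 < n) (a b d : ℕ) (c : ℕ → Bool) (p₁ r₁ p₂ r₂ p₃ r₃ : ℤ)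
    (h : ∀ v : Fin n, Nat.gcd v.val n = 1 → c v.val = true →
      (([((a : ℤ), (0 : ℤ)), (b, 0), (d, 0)].map
          (fun t => dist n (t.1 * (v.val : ℤ) + t.2)) : List ℕ) : Multiset ℕ) =
        (([(p₁, r₁), (p₂, r₂), (p₃, r₃)].map
          (fun t => dist n (t.1 * (v.val : ℤ) + t.2)) : List ℕ) : Multiset ℕ))
    (u : ℤ) (hu : IsCoprime u (2 * n : ℤ)) (huc : c (u % (n : ℤ)).toNat = true)
    (x₁ x₂ x₃ : ℤ) (e₁ : x₁ = p₁ * u + r₁)
    (e₂ : x₂ = p₂ * u + r₂) (e₃ : x₃ = p₃ * u + r₃) :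
    ({dist n (u * a), dist n (u * b), dist n (u * d)} : Multiset ℕ) =
      {dist n x₁, dist n x₂, dist n x₃} := by
  have := lin_case n hn c _ _ h u hu huc
  simp only [List.map_cons, List.map_nil] at this
  rw [← e₁, ← e₂, ← e₃] at this
  have e : ∀ a : ℕ, (a : ℤ) * u + 0 = u * a := by intro a; ring
  rw [e, e, e] at this
  exact this

/-- three entries version of `lin_case` -/
theorem lin3 (n : ℕ) (hn : 0 < n) (a b c : ℕ) (p₁ r₁ p₂ r₂ p₃ r₃ : ℤ)
    (h : ∀ v : Fin n, Nat.gcd v.val n = 1 → true = true →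
      (([((a : ℤ), (0 : ℤ)), (b, 0), (c, 0)].map
          (fun t => dist n (t.1 * (v.val : ℤ) + t.2)) : List ℕ) : Multiset ℕ) =
        (([(p₁, r₁), (p₂, r₂), (p₃, r₃)].map
          (fun t => dist n (t.1 * (v.val : ℤ) + t.2)) : List ℕ) : Multiset ℕ))
    (u : ℤ) (hu : IsCoprime u (2 * n : ℤ)) (x₁ x₂ x₃ : ℤ) (e₁ : x₁ = p₁ * u + r₁)
    (e₂ : x₂ = p₂ * u + r₂) (e₃ : x₃ = p₃ * u + r₃) :
    ({dist n (u * a), dist n (u * b), dist n (u * c)} : Multiset ℕ) =
      {dist n x₁, dist n x₂, dist n x₃} :=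
  lin3c n hn a b c (fun _ => true) p₁ r₁ p₂ r₂ p₃ r₃ h u hu rfl x₁ x₂ x₃ e₁ e₂ e₃

theorem row_listed (n a b c d e f : ℕ) (h : (n, [a, b, c, d, e, f]) ∈ tab) (u : ℤ)
    (hu : IsCoprime u (2 * n : ℤ)) :
    Listed n {dist n (u * a), dist n (u * b), dist n (u * c)}
      {dist n (u * d), dist n (u * e), dist n (u * f)} := by
  rcases tab_split _ h with h | h
  · exact listed_of n _ _ _ _ _ _ _ _ _ (Family.sporadic n a b c d e f u 1 h hu) (by simp)
      (by simp) (by simp)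
  · simp only [others, List.mem_cons, Prod.mk.injEq, List.cons.injEq, and_true, List.not_mem_nil,
      or_false] at h
    rcases h with h | h | h | h | h | h | h | h | h | h | h | h | h
    · -- 9
      obtain ⟨rfl, rfl, rfl, rfl, rfl, rfl, rfl⟩ := h
      exact listed_of 9 _ _ _ _ _ _ _ _ _ (Family.triple₁ 3 u) (by norm_num)
        (lin3 9 (by norm_num) 1 2 4 1 0 1 3 1 (-3) (by decide +kernel) u hu _ _ _
          (by ring) (by ring) (by ring))
        (lin3 9 (by norm_num) 3 3 3 3 0 0 3 0 3 (by decide +kernel) u hu _ _ _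
          (by ring) (by ring) (by ring))
    · -- 12
      obtain ⟨rfl, rfl, rfl, rfl, rfl, rfl, rfl⟩ := h
      exact listed_of 12 _ _ _ _ _ _ _ _ _ (Family.cancel 2 u 4) (by norm_num)
        (lin3 12 (by norm_num) 1 4 5 0 4 1 0 (-1) 6 (by decide +kernel) u hu _ _ _
          (by ring) (by ring) (by ring))
        (lin3 12 (by norm_num) 4 4 4 0 4 0 4 (-2) 6 (by decide +kernel) u hu _ _ _
          (by ring) (by ring) (by ring))
    · -- 15
      obtain ⟨rfl, rfl, rfl, rfl, rfl, rfl, rfl⟩ := h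
      exact listed_of 15 _ _ _ _ _ _ _ _ _
        (Family.cancelSporadic 15 1 4 3 3 u 1 (5 * u) (by decide) hu) (by norm_num)
        (lin3 15 (by norm_num) 1 4 5 5 0 1 0 4 0 (by decide +kernel) u hu _ _ _
          (by ring) (by push_cast; ring) (by push_cast; ring))
        (lin3 15 (by norm_num) 3 3 5 5 0 3 0 3 0 (by decide +kernel) u hu _ _ _
          (by ring) (by push_cast; ring) (by push_cast; ring))
    · -- 15
      obtain ⟨rfl, rfl, rfl, rfl, rfl, rfl, rfl⟩ := h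
      exact listed_of 15 _ _ _ _ _ _ _ _ _
        (Family.cancelSporadic 15 3 6 5 5 u 1 (5 * u) (by decide) hu) (by norm_num)
        (lin3 15 (by norm_num) 3 5 6 5 0 3 0 6 0 (by decide +kernel) u hu _ _ _
          (by ring) (by push_cast; ring) (by push_cast; ring))
        (lin3 15 (by norm_num) 5 5 5 5 0 5 0 5 0 (by decide +kernel) u hu _ _ _
          (by ring) (by push_cast; ring) (by push_cast; ring))
    · -- 24
      obtain ⟨rfl, rfl, rfl, rfl, rfl, rfl, rfl⟩ := h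
      exact listed_of 24 _ _ _ _ _ _ _ _ _ (Family.quadruple₁ 4 u) (by norm_num)
        (lin3 24 (by norm_num) 1 2 11 1 0 1 12 2 0 (by decide +kernel) u hu _ _ _
          (by ring) (by ring) (by ring))
        (lin3 24 (by norm_num) 8 8 8 4 12 0 8 0 8 (by decide +kernel) u hu _ _ _
          (by ring) (by ring) (by ring))
    · -- 30
      obtain ⟨rfl, rfl, rfl, rfl, rfl, rfl, rfl⟩ := h
      exact listed_of 30 _ _ _ _ _ _ _ _ _
        (Family.cancelSporadic 30 1 7 4 6 u 1 (10 * u) (by decide) hu) (by norm_num)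
        (lin3 30 (by norm_num) 1 7 10 10 0 1 0 7 0 (by decide +kernel) u hu _ _ _
          (by ring) (by push_cast; ring) (by push_cast; ring))
        (lin3 30 (by norm_num) 4 6 10 10 0 4 0 6 0 (by decide +kernel) u hu _ _ _
          (by ring) (by push_cast; ring) (by push_cast; ring))
    · -- 30
      obtain ⟨rfl, rfl, rfl, rfl, rfl, rfl, rfl⟩ := h
      exact listed_of 30 _ _ _ _ _ _ _ _ _
        (Family.cancelSporadic 30 1 11 6 10 u 1 (10 * u) (by decide) hu) (by norm_num)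
        (lin3 30 (by norm_num) 1 10 11 10 0 1 0 11 0 (by decide +kernel) u hu _ _ _
          (by ring) (by push_cast; ring) (by push_cast; ring))
        (lin3 30 (by norm_num) 6 10 10 10 0 6 0 10 0 (by decide +kernel) u hu _ _ _
          (by ring) (by push_cast; ring) (by push_cast; ring))
    · -- 42
      obtain ⟨rfl, rfl, rfl, rfl, rfl, rfl, rfl⟩ := h
      exact listed_of 42 _ _ _ _ _ _ _ _ _
        (Family.cancelSporadic 42 1 13 6 12 u 1 (14 * u) (by decide) hu) (by norm_num)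
        (lin3 42 (by norm_num) 1 13 14 14 0 1 0 13 0 (by decide +kernel) u hu _ _ _
          (by ring) (by push_cast; ring) (by push_cast; ring))
        (lin3 42 (by norm_num) 6 12 14 14 0 6 0 12 0 (by decide +kernel) u hu _ _ _
          (by ring) (by push_cast; ring) (by push_cast; ring))
    · -- 45
      obtain ⟨rfl, rfl, rfl, rfl, rfl, rfl, rfl⟩ := h
      exact listed_of 45 _ _ _ _ _ _ _ _ _ (Family.triple₂ 3 (5 * u)) (by norm_num)
        (lin3 45 (by norm_num) 5 10 20 5 0 5 15 5 (-15) (by decide +kernel) u hu _ _ _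
          (by ring) (by ring) (by ring))
        (lin3 45 (by norm_num) 9 15 18 15 0 0 9 0 18 (by decide +kernel) u hu _ _ _
          (by ring) (by ring) (by ring))
    · -- 60
      obtain ⟨rfl, rfl, rfl, rfl, rfl, rfl, rfl⟩ := h
      rcases Bool.eq_false_or_eq_true
        (((u % ((60 : ℕ) : ℤ)).toNat % 5 == 1) || ((u % ((60 : ℕ) : ℤ)).toNat % 5 == 4))
        with hc | hc
      · exact listed_symm _ _ _ (listed_of 60 _ _ _ _ _ _ _ _ _
          (Family.double₂ 2 (5 * u)) (by norm_num)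
          (lin3c 60 (by norm_num) 5 12 25 (fun v => (v % 5 == 1) || (v % 5 == 4)) 5 0 5 30 0 12
            (by decide +kernel) u hu hc _ _ _ (by ring) (by ring) (by ring))
          (lin3c 60 (by norm_num) 2 20 22 (fun v => (v % 5 == 1) || (v % 5 == 4)) 10 30 0 2 0 22
            (by decide +kernel) u hu hc _ _ _ (by ring) (by ring) (by ring)))
      · have hc' : (!(((u % ((60 : ℕ) : ℤ)).toNat % 5 == 1) ||
            ((u % ((60 : ℕ) : ℤ)).toNat % 5 == 4))) = true := by rw [hc]; rfl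
        exact listed_symm _ _ _ (listed_of 60 _ _ _ _ _ _ _ _ _
          (Family.double₃ 2 (5 * u)) (by norm_num)
          (lin3c 60 (by norm_num) 5 12 25 (fun v => !((v % 5 == 1) || (v % 5 == 4)))
            5 0 5 30 0 24
            (by decide +kernel) u hu hc' _ _ _ (by ring) (by ring) (by ring))
          (lin3c 60 (by norm_num) 2 20 22 (fun v => !((v % 5 == 1) || (v % 5 == 4)))
            10 30 0 14 0 26
            (by decide +kernel) u hu hc' _ _ _ (by ring) (by ring) (by ring)))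
    · -- 60
      obtain ⟨rfl, rfl, rfl, rfl, rfl, rfl, rfl⟩ := h
      exact listed_of 60 _ _ _ _ _ _ _ _ _
        (Family.cancelSporadic 60 2 22 9 21 u 1 (20 * u) (by decide) hu) (by norm_num)
        (lin3 60 (by norm_num) 2 20 22 20 0 2 0 22 0 (by decide +kernel) u hu _ _ _
          (by ring) (by push_cast; ring) (by push_cast; ring))
        (lin3 60 (by norm_num) 9 20 21 20 0 9 0 21 0 (by decide +kernel) u hu _ _ _
          (by ring) (by push_cast; ring) (by push_cast; ring))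
    · -- 60
      obtain ⟨rfl, rfl, rfl, rfl, rfl, rfl, rfl⟩ := h
      exact listed_of 60 _ _ _ _ _ _ _ _ _ (Family.double₁ 2 (5 * u)) (by norm_num)
        (lin3 60 (by norm_num) 5 20 25 5 0 5 30 0 20 (by decide +kernel) u hu _ _ _
          (by ring) (by ring) (by ring))
        (lin3 60 (by norm_num) 12 20 24 10 30 0 12 0 24 (by decide +kernel) u hu _ _ _
          (by ring) (by ring) (by ring))
    · -- 120
      obtain ⟨rfl, rfl, rfl, rfl, rfl, rfl, rfl⟩ := h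
      exact listed_of 120 _ _ _ _ _ _ _ _ _ (Family.quadruple₂ 12 (5 * u)) (by norm_num)
        (lin3 120 (by norm_num) 5 10 55 5 0 5 60 10 0 (by decide +kernel) u hu _ _ _
          (by ring) (by ring) (by ring))
        (lin3 120 (by norm_num) 24 40 48 20 60 0 24 0 48 (by decide +kernel) u hu _ _ _
          (by ring) (by ring) (by ring))

/-! ### The main statement -/

theorem dvd_foldr (n m : ℕ) (l : List ℕ) (h : ∀ a ∈ l, n ∣ a * m) :
    n ∣ l.foldr Nat.gcd 0 * m := by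
  induction l with
  | nil => simp
  | cons a l ih =>
    rw [List.foldr_cons, ← Nat.gcd_mul_right]
    exact Nat.dvd_gcd (h a (by simp)) (ih (fun b hb => h b (by simp [hb])))

theorem listed_of_tab (m s₁ s₂ s₃ t₁ t₂ t₃ : ℕ) (hm : 0 < m)
    (hs : 2 * s₁ < m ∧ 2 * s₂ < m ∧ 2 * s₃ < m ∧ 2 * t₁ < m ∧ 2 * t₂ < m ∧ 2 * t₃ < m)
    (h : Tab (ang m ![(s₁ : ℤ), s₂, s₃, t₁, t₂, t₃])) :
    Listed m {s₁, s₂, s₃} {t₁, t₂, t₃} := by
  obtain ⟨⟨n, l⟩, hr, u, hu, hsame⟩ := h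
  obtain ⟨hn, hlen, hg⟩ := tab_gcd _ hr
  obtain ⟨a, b, c, d, e, f, rfl⟩ := len_six _ hlen
  simp only at hn hg hu
  obtain ⟨h₁, h₂, h₃, k₁, k₂, k₃⟩ := hs
  have hL : L3 (ang m ![(s₁ : ℤ), s₂, s₃, t₁, t₂, t₃]) =
      {c2 ((s₁ : ℝ) / m), c2 ((s₂ : ℝ) / m), c2 ((s₃ : ℝ) / m)} := by
    unfold L3; simp only [c2_ang]; simp
  have hR : R3 (ang m ![(s₁ : ℤ), s₂, s₃, t₁, t₂, t₃]) =
      {c2 ((t₁ : ℝ) / m), c2 ((t₂ : ℝ) / m), c2 ((t₃ : ℝ) / m)} := by
    unfold R3; simp only [c2_ang]; simp [Matrix.cons_val]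
  have hL' : L3 (ang n (fun i => u * rep (n, [a, b, c, d, e, f]) i)) =
      {c2 (((u * a : ℤ) : ℝ) / n), c2 (((u * b : ℤ) : ℝ) / n), c2 (((u * c : ℤ) : ℝ) / n)} := by
    unfold L3; simp only [c2_ang]; simp [rep]
  have hR' : R3 (ang n (fun i => u * rep (n, [a, b, c, d, e, f]) i)) =
      {c2 (((u * d : ℤ) : ℝ) / n), c2 (((u * e : ℤ) : ℝ) / n), c2 (((u * f : ℤ) : ℝ) / n)} := by
    unfold R3; simp only [c2_ang]; simp [rep]
  unfold Same at hsame
  rw [hL, hR, hL', hR'] at hsame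
  have hun : IsCoprime (n : ℤ) u := (IsCoprime.of_mul_right_right hu).symm
  -- `n` divides `m`
  have fin : ∀ w : ℕ, (n : ℤ) ∣ (u * w) * m → n ∣ w * m := by
    intro w hw
    have h1 : (n : ℤ) ∣ u * (w * m) := by rw [← mul_assoc]; exact hw
    have h2 : (n : ℤ) ∣ w * m := hun.dvd_of_dvd_mul_left h1
    exact_mod_cast h2
  have hnm : ∀ (_ : n ∣ a * m) (_ : n ∣ b * m) (_ : n ∣ c * m) (_ : n ∣ d * m) (_ : n ∣ e * m)
      (_ : n ∣ f * m), n ∣ m := by
    intro ha hb hc hd he hf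
    have h3 := dvd_foldr n m [a, b, c, d, e, f] (by
      intro x hx
      simp only [List.mem_cons, List.not_mem_nil, or_false] at hx
      rcases hx with rfl | rfl | rfl | rfl | rfl | rfl <;> assumption)
    exact Nat.Coprime.dvd_of_dvd_mul_left hg h3
  have scale : ∀ q : ℕ, 0 < q → Listed (n * q)
      {dist (n * q) (u * a * q), dist (n * q) (u * b * q), dist (n * q) (u * c * q)}
      {dist (n * q) (u * d * q), dist (n * q) (u * e * q), dist (n * q) (u * f * q)} := by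
    intro q hq
    have := listed_scale n q hq _ _ (row_listed n a b c d e f hr u hu)
    simp only [Multiset.insert_eq_cons, Multiset.map_cons, Multiset.map_singleton,
      ← dist_scale n q hq] at this
    exact this
  rcases hsame with ⟨hl, hrr⟩ | ⟨hl, hrr⟩
  · obtain ⟨a1, a2, a3, a4⟩ := side_match m n s₁ s₂ s₃ hm hn h₁ h₂ h₃ _ _ _ hl
    obtain ⟨b1, b2, b3, b4⟩ := side_match m n t₁ t₂ t₃ hm hn k₁ k₂ k₃ _ _ _ hrr
    obtain ⟨q, hq⟩ := hnm (fin _ a1) (fin _ a2) (fin _ a3) (fin _ b1) (fin _ b2) (fin _ b3)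
    have hq0 : 0 < q := by
      rcases Nat.eq_zero_or_pos q with rfl | h
      · omega
      · exact h
    rw [a4 q hq, b4 q hq, hq]
    exact scale q hq0
  · obtain ⟨a1, a2, a3, a4⟩ := side_match m n s₁ s₂ s₃ hm hn h₁ h₂ h₃ _ _ _ hl
    obtain ⟨b1, b2, b3, b4⟩ := side_match m n t₁ t₂ t₃ hm hn k₁ k₂ k₃ _ _ _ hrr
    obtain ⟨q, hq⟩ := hnm (fin _ b1) (fin _ b2) (fin _ b3) (fin _ a1) (fin _ a2) (fin _ a3)
    have hq0 : 0 < q := by
      rcases Nat.eq_zero_or_pos q with rfl | h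
      · omega
      · exact h
    rw [a4 q hq, b4 q hq, hq]
    exact listed_symm _ _ _ (scale q hq0)

end Pool.Agent.TriCos
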