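import Pool.Agent.Lib_MP_6e4ab6_nt.Full.NIdefs

/-! From rational angles to integers: `listed_of_listQ`. -/

namespace Pool.Agent.TriCos

/-- the definition of `vals` unfolds to a monadic cast; this is the plain form -/
theorem vals_eq_map (X : Multiset ℚ) : vals X = X.map (fun x : ℚ => c2 (x : ℝ)) := by
  unfold vals
  show (X.bind (fun a : ℚ => ({(a : ℝ)} : Multiset ℝ))).map (fun x => c2 x) = _
  simp only [Multiset.bind_singleton, Multiset.map_map, Function.comp_def]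

/-- the distance function for a rational angle -/
def distQ (m : ℕ) (x : ℚ) : ℕ := dist m ⌊x * m⌋

theorem dist_add_mul (m : ℕ) (k n : ℤ) : dist m (k + m * n) = dist m k := by
  unfold dist
  rw [Int.add_mul_emod_self_left]

theorem dist_small (m s : ℕ) (h : 2 * s < m) : dist m (s : ℤ) = s := by
  unfold dist
  have h1 : ((s : ℤ) % m).toNat = s := by
    rw [Int.emod_eq_of_lt (by positivity) (by exact_mod_cast (by omega : s < m))]
    simp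
  rw [h1]
  omega

theorem dist_neg_small (m s : ℕ) (h : 2 * s < m) : dist m (-(s : ℤ)) = s := by
  unfold dist
  rcases Nat.eq_zero_or_pos s with h0 | h0
  · subst h0; simp
  · have h1 : (-(s : ℤ)) % m = (m : ℤ) - s := by
      have : (-(s : ℤ)) % m = ((m : ℤ) - s) % m := by
        rw [show ((m : ℤ) - s) = -s + m * 1 by ring, Int.add_mul_emod_self_left]
      rw [this]
      apply Int.emod_eq_of_lt
      · omega
      · omega
    rw [h1]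
    have h2 : ((m : ℤ) - s).toNat = m - s := by omega
    rw [h2]
    omega

theorem c2_rat (m s : ℕ) (hm : 0 < m) (h : 2 * s < m) (x : ℚ)
    (hx : c2 ((s : ℝ) / m) = c2 (x : ℝ)) : (∃ k : ℤ, (k : ℚ) = x * m) ∧ distQ m x = s := by
  have hm' : (m : ℝ) ≠ 0 := Nat.cast_ne_zero.mpr hm.ne'
  have key : ∀ k : ℤ, (k : ℚ) = x * m → dist m k = s →
      (∃ k : ℤ, (k : ℚ) = x * m) ∧ distQ m x = s := by
    intro k hk hd
    refine ⟨⟨k, hk⟩, ?_⟩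
    unfold distQ
    rw [← hk, Int.floor_intCast]
    exact hd
  rcases c2_eq_c2 _ _ hx with ⟨n, hn⟩ | ⟨n, hn⟩
  · apply key (s + m * n)
    · have h1 : ((x * m : ℚ) : ℝ) = ((s + m * n : ℤ) : ℝ) := by
        push_cast; rw [hn]; field_simp
      have h2 : (x * m : ℚ) = (((s + m * n : ℤ)) : ℚ) := by exact_mod_cast h1
      exact h2.symm
    · rw [dist_add_mul, dist_small m s h]
  · apply key (-s + m * n)
    · have h1 : ((x * m : ℚ) : ℝ) = ((-s + m * n : ℤ) : ℝ) := by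
        push_cast; rw [hn]; field_simp
      have h2 : (x * m : ℚ) = (((-s + m * n : ℤ)) : ℚ) := by exact_mod_cast h1
      exact h2.symm
    · rw [dist_add_mul, dist_neg_small m s h]

theorem rel_conc (m : ℕ) (hm : 0 < m) (S : Multiset ℕ) (X : Multiset ℚ)
    (h : Multiset.Rel (fun (s : ℕ) (x : ℚ) => 2 * s < m ∧ c2 ((s : ℝ) / m) = c2 (x : ℝ)) S X) :
    S = X.map (distQ m) ∧ ∀ x ∈ X, ∃ k : ℤ, (k : ℚ) = x * m := by
  induction h with
  | zero => simp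
  | cons hab hr ih =>
    obtain ⟨h1, h2⟩ := c2_rat m _ hm hab.1 _ hab.2
    refine ⟨?_, ?_⟩
    · rw [Multiset.map_cons, ← ih.1, h2]
    · intro x hx
      rw [Multiset.mem_cons] at hx
      rcases hx with rfl | hx
      · exact h1
      · exact ih.2 x hx

theorem vals_conc (m : ℕ) (hm : 0 < m) (S : Multiset ℕ) (X : Multiset ℚ)
    (hS : ∀ s ∈ S, 2 * s < m)
    (h : S.map (fun s : ℕ => c2 ((s : ℝ) / m)) = vals X) :
    S = X.map (distQ m) ∧ ∀ x ∈ X, ∃ k : ℤ, (k : ℚ) = x * m := by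
  apply rel_conc m hm
  have h1 : Multiset.Rel (fun (s : ℕ) (x : ℚ) => c2 ((s : ℝ) / m) = c2 (x : ℝ)) S X := by
    have h2 : Multiset.Rel (fun a b : ℝ => a = b) (S.map (fun s : ℕ => c2 ((s : ℝ) / m)))
        (X.map (fun x : ℚ => c2 (x : ℝ))) := by
      rw [Multiset.rel_eq, h, vals_eq_map]
    exact Multiset.rel_map.mp h2
  exact h1.mono (fun s hs x _ hsx => ⟨hS s hs, hsx⟩)

theorem distQ_int (m : ℕ) (x : ℚ) (k : ℤ) (h : (k : ℚ) = x * m) : distQ m x = dist m k := by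
  unfold distQ
  rw [← h, Int.floor_intCast]

theorem pairs_gcd : ∀ p ∈ pairTable, 0 < p.1 ∧
    Nat.gcd p.1 (Nat.gcd (p.2.getD 0 0) (Nat.gcd (p.2.getD 1 0) (Nat.gcd (p.2.getD 2 0) (p.2.getD 3 0)))) = 1 := by
  decide

theorem dvd_of_entry (n a m : ℕ) (u k : ℤ) (hn : 0 < n) (hu : IsCoprime u (2 * n : ℤ))
    (hk : (k : ℚ) = (u * a / n : ℚ) * m) : n ∣ m * a := by
  have hn' : (n : ℚ) ≠ 0 := Nat.cast_ne_zero.mpr hn.ne'
  have h1 : (k * n : ℚ) = u * (m * a) := by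
    rw [hk]; field_simp
  have h2 : (k * n : ℤ) = u * (m * a) := by exact_mod_cast h1
  have h3 : (n : ℤ) ∣ u * (m * a) := ⟨k, by rw [← h2]; ring⟩
  have h4 : IsCoprime (n : ℤ) u := (hu.of_isCoprime_of_dvd_right ⟨2, by ring⟩).symm
  have h5 : (n : ℤ) ∣ (m * a : ℤ) := h4.dvd_of_dvd_mul_left h3
  exact_mod_cast h5

theorem famQ_family (m : ℕ) (X Y : Multiset ℚ) (h : FamQ X Y)
    (hX : ∀ x ∈ X, ∃ k : ℤ, (k : ℚ) = x * m) (hY : ∀ x ∈ Y, ∃ k : ℤ, (k : ℚ) = x * m) :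
    ∃ x y : List ℤ, Family m x y ∧ X.map (distQ m) = ↑(x.map (dist m)) ∧
      Y.map (distQ m) = ↑(y.map (dist m)) := by
  have fin : ∀ (M : ℤ) (a b c a' b' c' : ℚ) (i j k i' j' k' : ℤ),
      Family M [i, j, k] [i', j', k'] → (m : ℤ) = M →
      (i : ℚ) = a * m → (j : ℚ) = b * m → (k : ℚ) = c * m →
      (i' : ℚ) = a' * m → (j' : ℚ) = b' * m → (k' : ℚ) = c' * m →
      ∃ x y : List ℤ, Family m x y ∧ ({a, b, c} : Multiset ℚ).map (distQ m) = ↑(x.map (dist m)) ∧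
      ({a', b', c'} : Multiset ℚ).map (distQ m) = ↑(y.map (dist m)) := by
    intro M a b c a' b' c' i j k i' j' k' hF hM h1 h2 h3 h4 h5 h6
    subst hM
    refine ⟨[i, j, k], [i', j', k'], hF, ?_, ?_⟩
    · simp only [Multiset.insert_eq_cons, Multiset.map_cons, Multiset.map_singleton,
        List.map_cons, List.map_nil]
      rw [distQ_int m a i h1, distQ_int m b j h2, distQ_int m c k h3]
      rfl
    · simp only [Multiset.insert_eq_cons, Multiset.map_cons, Multiset.map_singleton,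
        List.map_cons, List.map_nil]
      rw [distQ_int m a' i' h4, distQ_int m b' j' h5, distQ_int m c' k' h6]
      rfl
  cases h with
  | cancel x y =>
    obtain ⟨k1, h1⟩ := hX y (by simp)
    obtain ⟨k2, h2⟩ := hX x (by simp)
    obtain ⟨k3, h3⟩ := hX (1/2 - x) (by simp)
    obtain ⟨l2, g2⟩ := hY (1/3) (by simp)
    have hM : (m : ℚ) = 6 * (k2 + k3 - l2) := by rw [h2, h3, g2]; ring
    refine fin _ _ _ _ _ _ _ _ _ _ _ _ _ (Family.cancel (k2 + k3 - l2) k2 k1)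
      (by exact_mod_cast hM) h1 h2 ?_ h1 ?_ ?_ <;> push_cast <;> linarith
  | cancelSporadic n a b c d u y h hu =>
    obtain ⟨k1, h1⟩ := hX y (by simp)
    obtain ⟨k2, h2⟩ := hX (u * a / n : ℚ) (by simp)
    obtain ⟨k3, h3⟩ := hX (u * b / n : ℚ) (by simp)
    obtain ⟨l2, g2⟩ := hY (u * c / n : ℚ) (by simp)
    obtain ⟨l3, g3⟩ := hY (u * d / n : ℚ) (by simp)
    obtain ⟨hn, hg⟩ := pairs_gcd _ h
    simp only [List.getD_cons_zero, List.getD_cons_succ] at hg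
    have hnm : n ∣ m := by
      have e1 := dvd_of_entry n a m u k2 hn hu h2
      have e2 := dvd_of_entry n b m u k3 hn hu h3
      have e3 := dvd_of_entry n c m u l2 hn hu g2
      have e4 := dvd_of_entry n d m u l3 hn hu g3
      have e5 : n ∣ m * n := ⟨m, by ring⟩
      have e6 : n ∣ m * Nat.gcd n (Nat.gcd a (Nat.gcd b (Nat.gcd c d))) := by
        rw [← Nat.gcd_mul_left, ← Nat.gcd_mul_left, ← Nat.gcd_mul_left, ← Nat.gcd_mul_left]
        exact Nat.dvd_gcd e5 (Nat.dvd_gcd e1 (Nat.dvd_gcd e2 (Nat.dvd_gcd e3 e4)))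
      rw [hg, mul_one] at e6
      exact e6
    obtain ⟨q, hq⟩ := hnm
    have hn' : (n : ℚ) ≠ 0 := Nat.cast_ne_zero.mpr hn.ne'
    have hq' : (m : ℚ) = n * q := by exact_mod_cast hq
    refine fin _ _ _ _ _ _ _ _ _ _ _ _ _ (Family.cancelSporadic n a b c d u q k1 h hu)
      (by exact_mod_cast hq) h1 ?_ ?_ h1 ?_ ?_ <;> rw [hq'] <;> push_cast <;> field_simp
  | double x y =>
    obtain ⟨k1, h1⟩ := hX x (by simp)
    obtain ⟨k2, h2⟩ := hX (x + 1/2) (by simp)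
    obtain ⟨l1, g1⟩ := hY y (by simp)
    have hM : (m : ℚ) = 2 * (k2 - k1) := by rw [h1, h2]; ring
    refine fin _ _ _ _ _ _ _ _ _ _ _ _ _ (Family.double (k2 - k1) k1 l1)
      (by exact_mod_cast hM) h1 ?_ ?_ g1 ?_ ?_ <;> push_cast <;> linarith
  | double₁ x =>
    obtain ⟨k1, h1⟩ := hX x (by simp)
    obtain ⟨k2, h2⟩ := hX (x + 1/2) (by simp)
    obtain ⟨k3, h3⟩ := hX (1/3) (by simp)
    obtain ⟨l2, g2⟩ := hY (1/5) (by simp)
    have hM : (m : ℚ) = 30 * (k2 - k1 - 2 * k3 + l2) := by rw [h1, h2, h3, g2]; ring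
    refine fin _ _ _ _ _ _ _ _ _ _ _ _ _ (Family.double₁ (k2 - k1 - 2 * k3 + l2) k1)
      (by exact_mod_cast hM) h1 ?_ ?_ ?_ ?_ ?_ <;> push_cast <;> linarith
  | double₂ x =>
    obtain ⟨k1, h1⟩ := hX x (by simp)
    obtain ⟨l2, g2⟩ := hY (1/30) (by simp)
    have hM : (m : ℚ) = 30 * l2 := by rw [g2]; ring
    refine fin _ _ _ _ _ _ _ _ _ _ _ _ _ (Family.double₂ l2 k1)
      (by exact_mod_cast hM) h1 ?_ ?_ ?_ ?_ ?_ <;> push_cast <;> linarith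
  | double₃ x =>
    obtain ⟨k1, h1⟩ := hX x (by simp)
    obtain ⟨l2, g2⟩ := hY (7/30) (by simp)
    obtain ⟨l3, g3⟩ := hY (13/30) (by simp)
    have hM : (m : ℚ) = 30 * (2 * l2 - l3) := by rw [g2, g3]; ring
    refine fin _ _ _ _ _ _ _ _ _ _ _ _ _ (Family.double₃ (2 * l2 - l3) k1)
      (by exact_mod_cast hM) h1 ?_ ?_ ?_ ?_ ?_ <;> push_cast <;> linarith
  | triple₁ x =>
    obtain ⟨k1, h1⟩ := hX x (by simp)
    obtain ⟨l2, g2⟩ := hY (1/3) (by simp)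
    have hM : (m : ℚ) = 3 * l2 := by rw [g2]; ring
    refine fin _ _ _ _ _ _ _ _ _ _ _ _ _ (Family.triple₁ l2 k1)
      (by exact_mod_cast hM) h1 ?_ ?_ ?_ ?_ ?_ <;> push_cast <;> linarith
  | triple₂ x =>
    obtain ⟨k1, h1⟩ := hX x (by simp)
    obtain ⟨k2, h2⟩ := hX (x + 1/3) (by simp)
    obtain ⟨l2, g2⟩ := hY (1/5) (by simp)
    have hM : (m : ℚ) = 15 * (2 * l2 - (k2 - k1)) := by rw [h1, h2, g2]; ring
    refine fin _ _ _ _ _ _ _ _ _ _ _ _ _ (Family.triple₂ (2 * l2 - (k2 - k1)) k1)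
      (by exact_mod_cast hM) h1 ?_ ?_ ?_ ?_ ?_ <;> push_cast <;> linarith
  | triple₃ x =>
    obtain ⟨k1, h1⟩ := hX x (by simp)
    obtain ⟨l2, g2⟩ := hY (1/12) (by simp)
    have hM : (m : ℚ) = 12 * l2 := by rw [g2]; ring
    refine fin _ _ _ _ _ _ _ _ _ _ _ _ _ (Family.triple₃ l2 k1)
      (by exact_mod_cast hM) h1 ?_ ?_ ?_ ?_ ?_ <;> push_cast <;> linarith
  | quadruple₁ x =>
    obtain ⟨k1, h1⟩ := hX x (by simp)
    obtain ⟨k2, h2⟩ := hX (x + 1/2) (by simp)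
    obtain ⟨l2, g2⟩ := hY (1/3) (by simp)
    have hM : (m : ℚ) = 6 * (k2 - k1 - l2) := by rw [h1, h2, g2]; ring
    refine fin _ _ _ _ _ _ _ _ _ _ _ _ _ (Family.quadruple₁ (k2 - k1 - l2) k1)
      (by exact_mod_cast hM) h1 ?_ ?_ ?_ ?_ ?_ <;> push_cast <;> linarith
  | quadruple₂ x =>
    obtain ⟨k1, h1⟩ := hX x (by simp)
    obtain ⟨k2, h2⟩ := hX (x + 1/2) (by simp)
    obtain ⟨l2, g2⟩ := hY (1/5) (by simp)
    have hM : (m : ℚ) = 10 * (k2 - k1 - 2 * l2) := by rw [h1, h2, g2]; ring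
    refine fin _ _ _ _ _ _ _ _ _ _ _ _ _ (Family.quadruple₂ (k2 - k1 - 2 * l2) k1)
      (by exact_mod_cast hM) h1 ?_ ?_ ?_ ?_ ?_ <;> push_cast <;> linarith
  | quadruple₃ x =>
    obtain ⟨k1, h1⟩ := hX x (by simp)
    obtain ⟨l2, g2⟩ := hY (1/12) (by simp)
    have hM : (m : ℚ) = 12 * l2 := by rw [g2]; ring
    refine fin _ _ _ _ _ _ _ _ _ _ _ _ _ (Family.quadruple₃ l2 k1)
      (by exact_mod_cast hM) h1 ?_ ?_ ?_ ?_ ?_ <;> push_cast <;> linarith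
  | mixed₁ x =>
    obtain ⟨k1, h1⟩ := hX (x + 1/6) (by simp)
    obtain ⟨l1, g1⟩ := hY x (by simp)
    have hM : (m : ℚ) = 6 * (k1 - l1) := by rw [h1, g1]; ring
    refine fin _ _ _ _ _ _ _ _ _ _ _ _ _ (Family.mixed₁ (k1 - l1) l1)
      (by exact_mod_cast hM) ?_ ?_ ?_ g1 ?_ ?_ <;> push_cast <;> linarith
  | mixed₂ x =>
    obtain ⟨k1, h1⟩ := hX (2 * x + 1/2) (by simp)
    obtain ⟨l1, g1⟩ := hY (3 * x) (by simp)
    obtain ⟨l2, g2⟩ := hY (3 * x + 1/2) (by simp)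
    obtain ⟨l3, g3⟩ := hY (1/3) (by simp)
    have hM : (m : ℚ) = 6 * (l2 - l1 - l3) := by rw [g1, g2, g3]; ring
    refine fin _ _ _ _ _ _ _ _ _ _ _ _ _ (Family.mixed₂ (l2 - l1 - l3) (l2 - k1))
      (by exact_mod_cast hM) ?_ ?_ ?_ ?_ ?_ ?_ <;> push_cast <;> linarith
  | mixed₃ x =>
    obtain ⟨k1, h1⟩ := hX (x + 1/6) (by simp)
    obtain ⟨l1, g1⟩ := hY x (by simp)
    have hM : (m : ℚ) = 6 * (k1 - l1) := by rw [h1, g1]; ring
    refine fin _ _ _ _ _ _ _ _ _ _ _ _ _ (Family.mixed₃ (k1 - l1) l1)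
      (by exact_mod_cast hM) ?_ ?_ ?_ g1 ?_ ?_ <;> push_cast <;> linarith
  | mixed₄ x =>
    obtain ⟨k1, h1⟩ := hX (x + 1/6) (by simp)
    obtain ⟨l1, g1⟩ := hY x (by simp)
    have hM : (m : ℚ) = 6 * (k1 - l1) := by rw [h1, g1]; ring
    refine fin _ _ _ _ _ _ _ _ _ _ _ _ _ (Family.mixed₄ (k1 - l1) l1)
      (by exact_mod_cast hM) ?_ ?_ ?_ g1 ?_ ?_ <;> push_cast <;> linarith
  | mixed₅ x =>
    obtain ⟨k1, h1⟩ := hX (2 * x + 1/6) (by simp)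
    obtain ⟨l1, g1⟩ := hY (2 * x) (by simp)
    obtain ⟨l2, g2⟩ := hY (3 * x) (by simp)
    have hM : (m : ℚ) = 6 * (k1 - l1) := by rw [h1, g1]; ring
    refine fin _ _ _ _ _ _ _ _ _ _ _ _ _ (Family.mixed₅ (k1 - l1) (l2 - l1))
      (by exact_mod_cast hM) ?_ ?_ ?_ ?_ ?_ ?_ <;> push_cast <;> linarith
  | mixed₆ x =>
    obtain ⟨k1, h1⟩ := hX x (by simp)
    obtain ⟨k2, h2⟩ := hX (x + 1/2) (by simp)
    obtain ⟨l1, g1⟩ := hY (2 * x + 1/3) (by simp)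
    have hM : (m : ℚ) = 6 * ((k2 - k1) - (l1 - 2 * k1)) := by rw [h1, h2, g1]; ring
    refine fin _ _ _ _ _ _ _ _ _ _ _ _ _ (Family.mixed₆ ((k2 - k1) - (l1 - 2 * k1)) k1)
      (by exact_mod_cast hM) h1 ?_ ?_ ?_ ?_ ?_ <;> push_cast <;> linarith
  | mixed₇ x =>
    obtain ⟨k1, h1⟩ := hX (3 * x) (by simp)
    obtain ⟨k2, h2⟩ := hX (3 * x + 1/2) (by simp)
    obtain ⟨l1, g1⟩ := hY (4 * x + 1/2) (by simp)
    obtain ⟨l2, g2⟩ := hY (4 * x + 1/6) (by simp)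
    have hM : (m : ℚ) = 6 * (l2 - (l1 - (k2 - k1))) := by rw [h1, h2, g1, g2]; ring
    refine fin _ _ _ _ _ _ _ _ _ _ _ _ _ (Family.mixed₇ (l2 - (l1 - (k2 - k1))) (l1 - k2))
      (by exact_mod_cast hM) ?_ ?_ ?_ ?_ ?_ ?_ <;> push_cast <;> linarith

theorem listed_of_listQ (m s₁ s₂ s₃ t₁ t₂ t₃ : ℕ) (hm : 0 < m)
    (hs : 2 * s₁ < m ∧ 2 * s₂ < m ∧ 2 * s₃ < m ∧ 2 * t₁ < m ∧ 2 * t₂ < m ∧ 2 * t₃ < m)
    (h : ListQ {c2 ((s₁ : ℝ) / m), c2 ((s₂ : ℝ) / m), c2 ((s₃ : ℝ) / m)}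
      {c2 ((t₁ : ℝ) / m), c2 ((t₂ : ℝ) / m), c2 ((t₃ : ℝ) / m)}) :
    Listed m {s₁, s₂, s₃} {t₁, t₂, t₃} := by
  obtain ⟨h1, h2, h3, h4, h5, h6⟩ := hs
  obtain ⟨X, Y, hF, hXY⟩ := h
  have hS : ∀ s ∈ ({s₁, s₂, s₃} : Multiset ℕ), 2 * s < m := by
    intro s hs
    simp only [Multiset.insert_eq_cons, Multiset.mem_cons, Multiset.mem_singleton] at hs
    rcases hs with rfl | rfl | rfl <;> assumption
  have hT : ∀ s ∈ ({t₁, t₂, t₃} : Multiset ℕ), 2 * s < m := by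
    intro s hs
    simp only [Multiset.insert_eq_cons, Multiset.mem_cons, Multiset.mem_singleton] at hs
    rcases hs with rfl | rfl | rfl <;> assumption
  have mS : ({s₁, s₂, s₃} : Multiset ℕ).map (fun s : ℕ => c2 ((s : ℝ) / m))
      = {c2 ((s₁ : ℝ) / m), c2 ((s₂ : ℝ) / m), c2 ((s₃ : ℝ) / m)} := by
    simp [Multiset.insert_eq_cons]
  have mT : ({t₁, t₂, t₃} : Multiset ℕ).map (fun s : ℕ => c2 ((s : ℝ) / m))
      = {c2 ((t₁ : ℝ) / m), c2 ((t₂ : ℝ) / m), c2 ((t₃ : ℝ) / m)} := by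
    simp [Multiset.insert_eq_cons]
  rcases hXY with ⟨hA, hB⟩ | ⟨hA, hB⟩
  · obtain ⟨a1, a2⟩ := vals_conc m hm _ X hS (mS.trans hA)
    obtain ⟨b1, b2⟩ := vals_conc m hm _ Y hT (mT.trans hB)
    obtain ⟨x, y, hxy, e1, e2⟩ := famQ_family m X Y hF a2 b2
    exact ⟨x, y, hxy, Or.inl ⟨a1.trans e1, b1.trans e2⟩⟩
  · obtain ⟨a1, a2⟩ := vals_conc m hm _ Y hS (mS.trans hA)
    obtain ⟨b1, b2⟩ := vals_conc m hm _ X hT (mT.trans hB)
    obtain ⟨x, y, hxy, e1, e2⟩ := famQ_family m X Y hF b2 a2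
    exact ⟨x, y, hxy, Or.inr ⟨a1.trans e2, b1.trans e1⟩⟩

end Pool.Agent.TriCos
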