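import Pool.Agent.Lib_MP_6e4ab6_nt.Full.Main
import Pool.Agent.Lib_MP_6e4ab6_nt.Full.Assemble
import Pool.Agent.Lib_MP_6e4ab6_nt.Full.Trans
import Pool.Agent.Lib_MP_6e4ab6_nt.Full.TabList
import Pool.Agent.Lib_MP_6e4ab6_nt.Full.RevA
import Pool.Agent.Lib_MP_6e4ab6_nt.Full.RevB

/-! The triple cosine product equation for natural numbers less than `m/2`. -/

namespace Pool.Agent.TriCos

/-- the squared product -/
theorem sq_iff (m s₁ s₂ s₃ t₁ t₂ t₃ : ℕ)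
    (hs : 2 * s₁ < m ∧ 2 * s₂ < m ∧ 2 * s₃ < m ∧ 2 * t₁ < m ∧ 2 * t₂ < m ∧ 2 * t₃ < m) :
    Real.cos (s₁ * Real.pi / m) * Real.cos (s₂ * Real.pi / m) * Real.cos (s₃ * Real.pi / m) =
      Real.cos (t₁ * Real.pi / m) * Real.cos (t₂ * Real.pi / m) * Real.cos (t₃ * Real.pi / m) ↔
    c2 ((s₁ : ℝ) / m) * c2 ((s₂ : ℝ) / m) * c2 ((s₃ : ℝ) / m) =
      c2 ((t₁ : ℝ) / m) * c2 ((t₂ : ℝ) / m) * c2 ((t₃ : ℝ) / m) := by
  obtain ⟨h1, h2, h3, h4, h5, h6⟩ := hs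
  have hm : (0 : ℝ) < m := by
    have : 0 < m := by omega
    exact_mod_cast this
  have pos : ∀ s : ℕ, 2 * s < m → 0 < Real.cos (s * Real.pi / m) := by
    intro s hs
    apply Real.cos_pos_of_mem_Ioo
    have hpi := Real.pi_pos
    have h0 : 0 ≤ (s : ℝ) * Real.pi / m := by positivity
    constructor
    · linarith
    · rw [div_lt_iff₀ hm]
      have : (2 : ℝ) * s < m := by exact_mod_cast hs
      nlinarith
  have ec : ∀ s : ℕ, c2 ((s : ℝ) / m) = 4 * Real.cos (s * Real.pi / m) ^ 2 := by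
    intro s
    unfold c2
    have : Real.pi * ((s : ℝ) / m) = s * Real.pi / m := by ring
    rw [this]; ring
  simp only [ec]
  have p1 := pos _ h1
  have p2 := pos _ h2
  have p3 := pos _ h3
  have p4 := pos _ h4
  have p5 := pos _ h5
  have p6 := pos _ h6
  constructor
  · intro h
    have : (Real.cos (s₁ * Real.pi / m) * Real.cos (s₂ * Real.pi / m) * Real.cos (s₃ * Real.pi / m)) ^ 2 =
      (Real.cos (t₁ * Real.pi / m) * Real.cos (t₂ * Real.pi / m) * Real.cos (t₃ * Real.pi / m)) ^ 2 := by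
      rw [h]
    linear_combination 64 * this
  · intro h
    have h' : (Real.cos (s₁ * Real.pi / m) * Real.cos (s₂ * Real.pi / m) * Real.cos (s₃ * Real.pi / m)) ^ 2 =
      (Real.cos (t₁ * Real.pi / m) * Real.cos (t₂ * Real.pi / m) * Real.cos (t₃ * Real.pi / m)) ^ 2 := by
      linear_combination h / 64
    exact (pow_left_inj₀ (by positivity) (by positivity) (by norm_num)).1 h'

theorem c2_inj (m s t : ℕ) (hs : 2 * s < m) (ht : 2 * t < m)
    (h : c2 ((s : ℝ) / m) = c2 ((t : ℝ) / m)) : s = t := by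
  have hm : 0 < m := by omega
  have h' := (c2_eq_iff m hm (s : ℤ) (t : ℤ)).1 (by push_cast; exact h)
  rcases h' with ⟨c, hc⟩ | ⟨c, hc⟩
  · have : c = 0 := by
      rcases lt_trichotomy c 0 with h0 | h0 | h0
      · exfalso
        have : (m : ℤ) * c ≤ m * (-1) := mul_le_mul_of_nonneg_left (by omega) (by positivity)
        omega
      · exact h0
      · exfalso
        have : (m : ℤ) * 1 ≤ m * c := mul_le_mul_of_nonneg_left (by omega) (by positivity)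
        omega
    subst this
    omega
  · have : c = 0 := by
      rcases lt_trichotomy c 0 with h0 | h0 | h0
      · exfalso
        have : (m : ℤ) * c ≤ m * (-1) := mul_le_mul_of_nonneg_left (by omega) (by positivity)
        omega
      · exact h0
      · exfalso
        have : (m : ℤ) * 1 ≤ m * c := mul_le_mul_of_nonneg_left (by omega) (by positivity)
        omega
    subst this
    omega

theorem mset_of_vals (m s₁ s₂ s₃ t₁ t₂ t₃ : ℕ)
    (hs : 2 * s₁ < m ∧ 2 * s₂ < m ∧ 2 * s₃ < m ∧ 2 * t₁ < m ∧ 2 * t₂ < m ∧ 2 * t₃ < m)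
    (h : ({c2 ((s₁ : ℝ) / m), c2 ((s₂ : ℝ) / m), c2 ((s₃ : ℝ) / m)} : Multiset ℝ) =
      {c2 ((t₁ : ℝ) / m), c2 ((t₂ : ℝ) / m), c2 ((t₃ : ℝ) / m)}) :
    ({s₁, s₂, s₃} : Multiset ℕ) = {t₁, t₂, t₃} := by
  obtain ⟨h1, h2, h3, h4, h5, h6⟩ := hs
  rcases triple_cases h with ⟨g0, g1, g2⟩ | ⟨g0, g1, g2⟩ | ⟨g0, g1, g2⟩ | ⟨g0, g1, g2⟩ |
    ⟨g0, g1, g2⟩ | ⟨g0, g1, g2⟩
  · rw [c2_inj m _ _ h1 h4 g0, c2_inj m _ _ h2 h5 g1, c2_inj m _ _ h3 h6 g2]
  · rw [c2_inj m _ _ h1 h4 g0, c2_inj m _ _ h2 h6 g1, c2_inj m _ _ h3 h5 g2, fr_swap23]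
  · rw [c2_inj m _ _ h1 h5 g0, c2_inj m _ _ h2 h4 g1, c2_inj m _ _ h3 h6 g2, fr_swap12]
  · rw [c2_inj m _ _ h1 h5 g0, c2_inj m _ _ h2 h6 g1, c2_inj m _ _ h3 h4 g2, fr_swap23, fr_swap12]
  · rw [c2_inj m _ _ h1 h6 g0, c2_inj m _ _ h2 h4 g1, c2_inj m _ _ h3 h5 g2, fr_swap12, fr_swap23]
  · rw [c2_inj m _ _ h1 h6 g0, c2_inj m _ _ h2 h5 g1, c2_inj m _ _ h3 h4 g2, fr_swap12, fr_swap23,
      fr_swap12]

theorem c2_dist (m : ℕ) (hm : 0 < m) (k : ℤ) : c2 ((dist m k : ℝ) / m) = c2 ((k : ℝ) / m) := by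
  have h0 : 0 ≤ k % (m : ℤ) := Int.emod_nonneg _ (by omega)
  have h1 : k % (m : ℤ) < m := Int.emod_lt_of_pos _ (by omega)
  have hk : (m : ℤ) ∣ k - k % (m : ℤ) := Int.dvd_self_sub_emod
  have hr : ((k % (m : ℤ)).toNat : ℤ) = k % (m : ℤ) := Int.toNat_of_nonneg h0
  have hd : (m : ℤ) ∣ (dist m k : ℤ) - k ∨ (m : ℤ) ∣ (dist m k : ℤ) + k := by
    unfold dist
    rcases min_choice (k % (m : ℤ)).toNat (m - (k % (m : ℤ)).toNat) with h | h
    · left
      rw [h, hr]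
      obtain ⟨c, hc⟩ := hk
      exact ⟨-c, by linarith⟩
    · right
      rw [h, Nat.cast_sub (by omega), hr]
      obtain ⟨c, hc⟩ := hk
      exact ⟨c + 1, by linarith⟩
  have := gc_c2_congr m hm (dist m k : ℤ) k hd
  push_cast at this
  exact this

theorem prod_dist (m : ℕ) (hm : 0 < m) (x : List ℤ) :
    (Multiset.map (fun s : ℕ => c2 ((s : ℝ) / m)) (↑(x.map (dist m)) : Multiset ℕ)).prod =
      (x.map (fun k : ℤ => c2 ((k : ℝ) / m))).prod := by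
  rw [Multiset.map_coe, Multiset.prod_coe, List.map_map]
  congr 1
  apply List.map_congr_left
  intro k _
  exact c2_dist m hm k

theorem cos_iff (m s₁ s₂ s₃ t₁ t₂ t₃ : ℕ)
    (hs : 2 * s₁ < m ∧ 2 * s₂ < m ∧ 2 * s₃ < m ∧ 2 * t₁ < m ∧ 2 * t₂ < m ∧ 2 * t₃ < m) :
    Real.cos (s₁ * Real.pi / m) * Real.cos (s₂ * Real.pi / m) * Real.cos (s₃ * Real.pi / m) =
      Real.cos (t₁ * Real.pi / m) * Real.cos (t₂ * Real.pi / m) * Real.cos (t₃ * Real.pi / m) ↔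
    ({s₁, s₂, s₃} : Multiset ℕ) = {t₁, t₂, t₃} ∨ Listed m {s₁, s₂, s₃} {t₁, t₂, t₃} := by
  have hm : 0 < m := by omega
  rw [sq_iff m _ _ _ _ _ _ hs]
  constructor
  · intro h
    have hsol : Sol (ang m ![(s₁ : ℤ), s₂, s₃, t₁, t₂, t₃]) := by
      have nz : ∀ s : ℕ, 2 * s < m → c2 ((s : ℝ) / m) ≠ 0 := fun s h =>
        RevB.c2_ne_zero_of_lt m s (by omega)
      obtain ⟨h1, h2, h3, h4, h5, h6⟩ := hs
      refine ⟨fun i => ?_, ?_⟩
      · rw [c2_ang]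
        fin_cases i
        · exact nz s₁ h1
        · exact nz s₂ h2
        · exact nz s₃ h3
        · exact nz t₁ h4
        · exact nz t₂ h5
        · exact nz t₃ h6
      · simp only [c2_ang]
        exact h
    have eL : L3 (ang m ![(s₁ : ℤ), s₂, s₃, t₁, t₂, t₃]) =
        {c2 ((s₁ : ℝ) / m), c2 ((s₂ : ℝ) / m), c2 ((s₃ : ℝ) / m)} := by
      unfold L3
      simp only [c2_ang]
      rfl
    have eR : R3 (ang m ![(s₁ : ℤ), s₂, s₃, t₁, t₂, t₃]) =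
        {c2 ((t₁ : ℝ) / m), c2 ((t₂ : ℝ) / m), c2 ((t₃ : ℝ) / m)} := by
      unfold R3
      simp only [c2_ang]
      rfl
    rcases main _ hsol with hT | hN | hTab
    · left
      unfold Triv at hT
      rw [eL, eR] at hT
      exact mset_of_vals m _ _ _ _ _ _ hs hT
    · rcases ni_list main _ hsol hN with hT | hL
      · left
        rw [eL, eR] at hT
        exact mset_of_vals m _ _ _ _ _ _ hs hT
      · right
        rw [eL, eR] at hL
        exact listed_of_listQ m _ _ _ _ _ _ hm hs hL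
    · right
      exact listed_of_tab m _ _ _ _ _ _ hm hs hTab
  · have e3 : ∀ a b c : ℕ, c2 ((a : ℝ) / m) * c2 ((b : ℝ) / m) * c2 ((c : ℝ) / m) =
        (Multiset.map (fun s : ℕ => c2 ((s : ℝ) / m)) ({a, b, c} : Multiset ℕ)).prod := by
      intro a b c
      simp [mul_assoc]
    rw [e3, e3]
    rintro (h | ⟨x, y, hF, ⟨h1, h2⟩ | ⟨h1, h2⟩⟩)
    · rw [h]
    · rw [h1, h2, prod_dist m hm, prod_dist m hm]
      exact_mod_cast family_sol_gen m x y hF (by exact_mod_cast hm)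
        (fun n a b c d u q r hp hu hq => pairs_sol n a b c d u q hp hu hq)
        (fun n a b c d e f u q hp hu hq => sporadic_sol n a b c d e f u q hp hu hq)
    · rw [h1, h2, prod_dist m hm, prod_dist m hm]
      exact_mod_cast (family_sol_gen m x y hF (by exact_mod_cast hm)
        (fun n a b c d u q r hp hu hq => pairs_sol n a b c d u q hp hu hq)
        (fun n a b c d e f u q hp hu hq => sporadic_sol n a b c d e f u q hp hu hq)).symm

/-- for even `m` the sum of the six entries is even -/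
theorem parity_even (m s₁ s₂ s₃ t₁ t₂ t₃ : ℕ) (hm2 : Even m)
    (hs : 2 * s₁ < m ∧ 2 * s₂ < m ∧ 2 * s₃ < m ∧ 2 * t₁ < m ∧ 2 * t₂ < m ∧ 2 * t₃ < m)
    (h : Real.cos (s₁ * Real.pi / m) * Real.cos (s₂ * Real.pi / m) * Real.cos (s₃ * Real.pi / m) =
      Real.cos (t₁ * Real.pi / m) * Real.cos (t₂ * Real.pi / m) * Real.cos (t₃ * Real.pi / m)) :
    Even (s₁ + s₂ + s₃ + t₁ + t₂ + t₃) := by
  by_contra hodd
  have hm : 0 < m := by omega
  have e1 : ∀ k : ℕ, rt (2 * m) (k : ℤ) + rt (2 * m) (-(k : ℤ)) =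
      ((2 * Real.cos (k * Real.pi / m) : ℝ) : ℂ) := by
    intro k
    rw [rt_add_inv m hm]
    have : Real.pi * (((k : ℤ) : ℝ) / m) = k * Real.pi / m := by push_cast; ring
    rw [this]
  have hrel : Rel (2 * m) ![(s₁ : ℤ), s₂, s₃, t₁, t₂, t₃] := by
    rw [rel_iff]
    show (rt (2 * m) (s₁ : ℤ) + rt (2 * m) (-(s₁ : ℤ))) * (rt (2 * m) (s₂ : ℤ) + rt (2 * m) (-(s₂ : ℤ))) *
      (rt (2 * m) (s₃ : ℤ) + rt (2 * m) (-(s₃ : ℤ))) = (rt (2 * m) (t₁ : ℤ) + rt (2 * m) (-(t₁ : ℤ))) *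
      (rt (2 * m) (t₂ : ℤ) + rt (2 * m) (-(t₂ : ℤ))) * (rt (2 * m) (t₃ : ℤ) + rt (2 * m) (-(t₃ : ℤ)))
    rw [e1, e1, e1, e1, e1, e1]
    have : (2 * Real.cos (s₁ * Real.pi / m)) * (2 * Real.cos (s₂ * Real.pi / m)) *
        (2 * Real.cos (s₃ * Real.pi / m)) = (2 * Real.cos (t₁ * Real.pi / m)) *
        (2 * Real.cos (t₂ * Real.pi / m)) * (2 * Real.cos (t₃ * Real.pi / m)) := by
      linear_combination 8 * h
    exact_mod_cast this
  have hG : Graded (2 * m) 2 ![(s₁ : ℤ), s₂, s₃, t₁, t₂, t₃] := by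
    refine graded_mk (2 * m) 2 m rfl (by norm_num) hm ?_ _ hrel
    intro r hr h2
    rw [(Nat.prime_dvd_prime_iff_eq hr Nat.prime_two).1 h2]
    exact even_iff_two_dvd.1 hm2
  have hG1 := hG ((s₁ : ℤ) + s₂ + s₃)
  have hpar : ((s₁ : ℤ) + s₂ + s₃ + t₁ + t₂ + t₃) % 2 = 1 := by
    have : ¬ (s₁ + s₂ + s₃ + t₁ + t₂ + t₃) % 2 = 0 := fun h0 => hodd (Nat.even_iff.2 h0)
    omega
  have hfil : (Finset.univ.filter (fun μ : Fin 16 => ((2 : ℕ) : ℤ) ∣
      dot μ ![(s₁ : ℤ), s₂, s₃, t₁, t₂, t₃] - ((s₁ : ℤ) + s₂ + s₃))) =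
      Finset.univ.filter (fun μ : Fin 16 => μ.val < 8) := by
    apply Finset.filter_congr
    intro μ _
    fin_cases μ <;> simp [dot] <;> omega
  rw [hfil] at hG1
  have hprod : (rt (2 * m) (s₁ : ℤ) + rt (2 * m) (-(s₁ : ℤ))) * (rt (2 * m) (s₂ : ℤ) + rt (2 * m) (-(s₂ : ℤ))) *
      (rt (2 * m) (s₃ : ℤ) + rt (2 * m) (-(s₃ : ℤ))) = 0 := by
    rw [← hG1]
    have e : ∀ a b : ℤ, rt (2 * m) (a - b) = rt (2 * m) a * rt (2 * m) (-b) := by
      intro a b; rw [sub_eq_add_neg, rt_add]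
    simp only [Finset.sum_filter, Fin.sum_univ_succ, dot, sg, Fin.sum_univ_zero,
      Fin.succ_zero_eq_one, Fin.isValue]
    norm_num [Fin.succ]
    simp only [Matrix.cons_val, e, rt_add]
    ring
  rw [e1, e1, e1] at hprod
  have hmR : (0 : ℝ) < m := by exact_mod_cast hm
  have pos : ∀ s : ℕ, 2 * s < m → 0 < Real.cos (s * Real.pi / m) := by
    intro s hs
    apply Real.cos_pos_of_mem_Ioo
    have hpi := Real.pi_pos
    have h0 : 0 ≤ (s : ℝ) * Real.pi / m := by positivity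
    constructor
    · linarith
    · rw [div_lt_iff₀ hmR]
      have : (2 : ℝ) * s < m := by exact_mod_cast hs
      nlinarith
  have p1 := pos _ hs.1
  have p2 := pos _ hs.2.1
  have p3 := pos _ hs.2.2.1
  have hprod' : (2 * Real.cos (s₁ * Real.pi / m)) * (2 * Real.cos (s₂ * Real.pi / m)) *
      (2 * Real.cos (s₃ * Real.pi / m)) = 0 := by exact_mod_cast hprod
  have : 0 < (2 * Real.cos (s₁ * Real.pi / m)) * (2 * Real.cos (s₂ * Real.pi / m)) *
      (2 * Real.cos (s₃ * Real.pi / m)) := by positivity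
  linarith

end Pool.Agent.TriCos
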