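import Pool.Agent.Lib_MP_6e4ab6_nt.Full.Rt

/-!
# Piece S: signed permutation symmetry of the sixteen term sum
-/

namespace Pool.Agent.TriCos

open Finset

/-- the symmetric eight term sum -/
def T8 {A : Type*} [AddCommGroup A] (f : A → ℂ) (x y z : A) : ℂ :=
  f (x + y + z) + f (x + y - z) + f (x - y + z) + f (x - y - z)
    + f (-x + y + z) + f (-x + y - z) + f (-x - y + z) + f (-x - y - z)

theorem asum_eq {A : Type*} [AddCommGroup A] (f : A → ℂ) (s : Fin 6 → A) :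
    asum f s = T8 f (s 0) (s 1) (s 2) - T8 f (s 3) (s 4) (s 5) := by
  unfold asum T8
  simp only [Fin.sum_univ_succ, Fin.sum_univ_zero]
  simp [sg, dot, Fin.succ]
  ring

theorem T8_neg1 {A : Type*} [AddCommGroup A] (f : A → ℂ) (x y z : A) :
    T8 f (-x) y z = T8 f x y z := by
  unfold T8
  simp only [neg_neg]
  ring

theorem T8_neg2 {A : Type*} [AddCommGroup A] (f : A → ℂ) (x y z : A) :
    T8 f x (-y) z = T8 f x y z := by
  unfold T8
  simp only [sub_neg_eq_add, ← sub_eq_add_neg]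
  ring

theorem T8_neg3 {A : Type*} [AddCommGroup A] (f : A → ℂ) (x y z : A) :
    T8 f x y (-z) = T8 f x y z := by
  unfold T8
  simp only [sub_neg_eq_add, ← sub_eq_add_neg]
  ring

theorem T8_swap12 {A : Type*} [AddCommGroup A] (f : A → ℂ) (x y z : A) :
    T8 f y x z = T8 f x y z := by
  unfold T8
  rw [add_comm y x, show y - x = -x + y by abel, show -y + x = x - y by abel,
    show -y - x = -x - y by abel]
  ring

theorem T8_swap23 {A : Type*} [AddCommGroup A] (f : A → ℂ) (x y z : A) :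
    T8 f x z y = T8 f x y z := by
  unfold T8
  rw [show x + z + y = x + y + z by abel, show x + z - y = x - y + z by abel,
    show x - z + y = x + y - z by abel, show x - z - y = x - y - z by abel,
    show -x + z + y = -x + y + z by abel, show -x + z - y = -x - y + z by abel,
    show -x - z + y = -x + y - z by abel, show -x - z - y = -x - y - z by abel]
  ring

theorem T8_unit {A : Type*} [AddCommGroup A] (f : A → ℂ) (e1 e2 e3 : ℤˣ) (x y z : A) :
    T8 f ((e1 : ℤ) • x) ((e2 : ℤ) • y) ((e3 : ℤ) • z) = T8 f x y z := by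
  rcases Int.units_eq_one_or e1 with rfl | rfl <;> rcases Int.units_eq_one_or e2 with rfl | rfl <;>
    rcases Int.units_eq_one_or e3 with rfl | rfl <;>
    simp [T8_neg1, T8_neg2, T8_neg3]

theorem left_cases (i j k : Fin 6)
    (hi : i.val < 3) (hj : j.val < 3) (hk : k.val < 3) (hij : i ≠ j) (hik : i ≠ k) (hjk : j ≠ k) :
    (i = 0 ∧ j = 1 ∧ k = 2) ∨ (i = 0 ∧ j = 2 ∧ k = 1) ∨ (i = 1 ∧ j = 0 ∧ k = 2) ∨
      (i = 1 ∧ j = 2 ∧ k = 0) ∨ (i = 2 ∧ j = 0 ∧ k = 1) ∨ (i = 2 ∧ j = 1 ∧ k = 0) := by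
  have e0 : ((0 : Fin 6) : ℕ) = 0 := rfl
  have e1 : ((1 : Fin 6) : ℕ) = 1 := rfl
  have e2 : ((2 : Fin 6) : ℕ) = 2 := rfl
  simp only [ne_eq, Fin.ext_iff, e0, e1, e2] at *
  omega

theorem right_cases (i j k : Fin 6)
    (hi : ¬ i.val < 3) (hj : ¬ j.val < 3) (hk : ¬ k.val < 3) (hij : i ≠ j) (hik : i ≠ k)
    (hjk : j ≠ k) :
    (i = 3 ∧ j = 4 ∧ k = 5) ∨ (i = 3 ∧ j = 5 ∧ k = 4) ∨ (i = 4 ∧ j = 3 ∧ k = 5) ∨
      (i = 4 ∧ j = 5 ∧ k = 3) ∨ (i = 5 ∧ j = 3 ∧ k = 4) ∨ (i = 5 ∧ j = 4 ∧ k = 3) := by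
  have e3 : ((3 : Fin 6) : ℕ) = 3 := rfl
  have e4 : ((4 : Fin 6) : ℕ) = 4 := rfl
  have e5 : ((5 : Fin 6) : ℕ) = 5 := rfl
  have := i.isLt
  have := j.isLt
  have := k.isLt
  simp only [ne_eq, Fin.ext_iff, e3, e4, e5] at *
  omega

theorem T8_left {A : Type*} [AddCommGroup A] (f : A → ℂ) (s : Fin 6 → A) (i j k : Fin 6)
    (hi : i.val < 3) (hj : j.val < 3) (hk : k.val < 3) (hij : i ≠ j) (hik : i ≠ k) (hjk : j ≠ k) :
    T8 f (s i) (s j) (s k) = T8 f (s 0) (s 1) (s 2) := by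
  have h := left_cases i j k hi hj hk hij hik hjk
  rcases h with ⟨rfl, rfl, rfl⟩ | ⟨rfl, rfl, rfl⟩ | ⟨rfl, rfl, rfl⟩ | ⟨rfl, rfl, rfl⟩ |
    ⟨rfl, rfl, rfl⟩ | ⟨rfl, rfl, rfl⟩
  · rfl
  · exact T8_swap23 f _ _ _
  · exact T8_swap12 f _ _ _
  · rw [T8_swap23, T8_swap12]
  · rw [T8_swap12, T8_swap23]
  · rw [T8_swap12, T8_swap23, T8_swap12]

theorem T8_right {A : Type*} [AddCommGroup A] (f : A → ℂ) (s : Fin 6 → A) (i j k : Fin 6)
    (hi : ¬ i.val < 3) (hj : ¬ j.val < 3) (hk : ¬ k.val < 3) (hij : i ≠ j) (hik : i ≠ k)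
    (hjk : j ≠ k) :
    T8 f (s i) (s j) (s k) = T8 f (s 3) (s 4) (s 5) := by
  have h := right_cases i j k hi hj hk hij hik hjk
  rcases h with ⟨rfl, rfl, rfl⟩ | ⟨rfl, rfl, rfl⟩ | ⟨rfl, rfl, rfl⟩ | ⟨rfl, rfl, rfl⟩ |
    ⟨rfl, rfl, rfl⟩ | ⟨rfl, rfl, rfl⟩
  · rfl
  · exact T8_swap23 f _ _ _
  · exact T8_swap12 f _ _ _
  · rw [T8_swap23, T8_swap12]
  · rw [T8_swap12, T8_swap23]
  · rw [T8_swap12, T8_swap23, T8_swap12]

theorem asum_sact {A : Type*} [AddCommGroup A] (f : A → ℂ) (σ : Equiv.Perm (Fin 6))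
    (ε : Fin 6 → ℤˣ) (hσ : SP σ) (s : Fin 6 → A) : asum f (sact σ ε s) = asum f s := by
  rw [asum_eq, asum_eq]
  simp only [sact, T8_unit]
  have hne : ∀ i j : Fin 6, i ≠ j → σ i ≠ σ j := fun i j h h' => h (σ.injective h')
  rw [T8_left f s (σ 0) (σ 1) (σ 2) ((hσ 0).mp (by decide)) ((hσ 1).mp (by decide))
    ((hσ 2).mp (by decide)) (hne _ _ (by decide)) (hne _ _ (by decide)) (hne _ _ (by decide)),
    T8_right f s (σ 3) (σ 4) (σ 5) (fun h => absurd ((hσ 3).mpr h) (by decide))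
    (fun h => absurd ((hσ 4).mpr h) (by decide)) (fun h => absurd ((hσ 5).mpr h) (by decide))
    (hne _ _ (by decide)) (hne _ _ (by decide)) (hne _ _ (by decide))]

theorem asum_sact_swap {A : Type*} [AddCommGroup A] (f : A → ℂ) (σ : Equiv.Perm (Fin 6))
    (ε : Fin 6 → ℤˣ) (hσ : SW σ) (s : Fin 6 → A) : asum f (sact σ ε s) = - asum f s := by
  rw [asum_eq, asum_eq]
  simp only [sact, T8_unit]
  have hne : ∀ i j : Fin 6, i ≠ j → σ i ≠ σ j := fun i j h h' => h (σ.injective h')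
  rw [T8_right f s (σ 0) (σ 1) (σ 2) ((hσ 0).mp (by decide)) ((hσ 1).mp (by decide))
    ((hσ 2).mp (by decide)) (hne _ _ (by decide)) (hne _ _ (by decide)) (hne _ _ (by decide)),
    T8_left f s (σ 3) (σ 4) (σ 5) (by by_contra h; exact absurd ((hσ 3).mpr h) (by decide))
    (by by_contra h; exact absurd ((hσ 4).mpr h) (by decide))
    (by by_contra h; exact absurd ((hσ 5).mpr h) (by decide))
    (hne _ _ (by decide)) (hne _ _ (by decide)) (hne _ _ (by decide))]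
  ring

theorem asum_zero_iff {A : Type*} [AddCommGroup A] (f : A → ℂ) (σ : Equiv.Perm (Fin 6))
    (ε : Fin 6 → ℤˣ) (hσ : SP σ ∨ SW σ) (s : Fin 6 → A) :
    asum f (sact σ ε s) = 0 ↔ asum f s = 0 := by
  rcases hσ with h | h
  · rw [asum_sact f σ ε h]
  · rw [asum_sact_swap f σ ε h, neg_eq_zero]

theorem rel_sact (N : ℕ) (σ : Equiv.Perm (Fin 6)) (ε : Fin 6 → ℤˣ) (hσ : SP σ ∨ SW σ)
    (s : Fin 6 → ℤ) : Rel N (sact σ ε s) ↔ Rel N s :=
  asum_zero_iff (rt N) σ ε hσ s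

theorem nd_sact (N : ℕ) (σ : Equiv.Perm (Fin 6)) (ε : Fin 6 → ℤˣ)
    (s : Fin 6 → ℤ) : ND N (sact σ ε s) ↔ ND N s := by
  have key : ∀ (e : ℤˣ) (k : ℤ), rt N ((e : ℤ) • k) + rt N (-((e : ℤ) • k)) = rt N k + rt N (-k) := by
    intro e k
    rcases Int.units_eq_one_or e with rfl | rfl
    · simp
    · simp [add_comm]
  constructor
  · intro h i
    have := h (σ.symm i)
    simp only [sact] at this
    rw [key] at this
    simpa using this
  · intro h i
    simp only [sact]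
    rw [key]
    exact h (σ i)

theorem graded_iff (N Q : ℕ) (s : Fin 6 → ℤ) :
    Graded N Q s ↔ ∀ r : ℤ, asum (fun k : ℤ => if (Q : ℤ) ∣ k - r then rt N k else 0) s = 0 := by
  unfold Graded asum
  refine forall_congr' fun r => ?_
  rw [Finset.sum_filter]
  simp only [mul_ite, mul_zero]

theorem graded_sact (N Q : ℕ) (σ : Equiv.Perm (Fin 6)) (ε : Fin 6 → ℤˣ) (hσ : SP σ ∨ SW σ)
    (s : Fin 6 → ℤ) : Graded N Q (sact σ ε s) ↔ Graded N Q s := by
  rw [graded_iff, graded_iff]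
  exact forall_congr' fun r => asum_zero_iff _ σ ε hσ s

theorem dot_prod (μ : Fin 16) (s v : Fin 6 → ℤ) :
    dot μ (fun i => ((s i, v i) : ℤ × ℤ)) = (dot μ s, dot μ v) := by
  fin_cases μ <;> simp [dot]

theorem fib_iff (N : ℕ) (s v : Fin 6 → ℤ) (c : ℤ) :
    (∑ μ ∈ univ.filter (fun μ => dot μ v = c), (sg μ : ℂ) * rt N (dot μ s) = 0) ↔
      asum (fun k : ℤ × ℤ => if k.2 = c then rt N k.1 else 0) (fun i => (s i, v i)) = 0 := by
  unfold asum
  rw [Finset.sum_filter]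
  simp only [mul_ite, mul_zero, dot_prod]

theorem sact_pair (σ : Equiv.Perm (Fin 6)) (ε : Fin 6 → ℤˣ) (s v : Fin 6 → ℤ) :
    (fun i => ((sact σ ε s i, sact σ ε v i) : ℤ × ℤ)) = sact σ ε (fun i => ((s i, v i) : ℤ × ℤ)) := by
  funext i
  simp [sact]

theorem third_unit (N : ℕ) (e : ℤˣ) (k : ℤ) : Third N ((e : ℤ) • k) ↔ Third N k := by
  rcases Int.units_eq_one_or e with rfl | rfl
  · simp
  · simp [Third]

theorem perm_inv (σ : Equiv.Perm (Fin 6)) (i : Fin 6) : σ (σ⁻¹ i) = i := by simp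

theorem sact_inv (σ : Equiv.Perm (Fin 6)) (ε : Fin 6 → ℤˣ) {A : Type*} [AddCommGroup A]
    (s : Fin 6 → A) : sact σ⁻¹ (fun i => ε (σ⁻¹ i)) (sact σ ε s) = s := by
  funext i
  simp only [sact, perm_inv, smul_smul]
  rw [← Units.val_mul, Int.units_mul_self]
  simp

theorem sp_inv (σ : Equiv.Perm (Fin 6)) (h : SP σ ∨ SW σ) : SP σ⁻¹ ∨ SW σ⁻¹ := by
  rcases h with h | h
  · left
    intro i
    have := h (σ⁻¹ i)
    rw [perm_inv] at this
    exact this.symm
  · right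
    intro i
    have := h (σ⁻¹ i)
    rw [perm_inv] at this
    tauto

theorem nic_sact_mp (N : ℕ) (σ : Equiv.Perm (Fin 6)) (ε : Fin 6 → ℤˣ) (hσ : SP σ ∨ SW σ)
    (s : Fin 6 → ℤ) (h : NIc N s) : NIc N (sact σ ε s) := by
  obtain ⟨v, hv, hT, hc⟩ := h
  refine ⟨sact σ ε v, ?_, ?_, ?_⟩
  · intro h0
    apply hv
    rw [← sact_inv σ ε v, h0]
    funext i
    simp [sact]
  · intro i hi
    simp only [sact] at hi ⊢
    rw [third_unit] at hi
    rw [hT _ hi, smul_zero]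
  · intro c
    rw [fib_iff, sact_pair, asum_zero_iff _ σ ε hσ, ← fib_iff]
    exact hc c

theorem nic_sact (N : ℕ) (σ : Equiv.Perm (Fin 6)) (ε : Fin 6 → ℤˣ) (hσ : SP σ ∨ SW σ)
    (s : Fin 6 → ℤ) : NIc N (sact σ ε s) ↔ NIc N s := by
  refine ⟨fun h => ?_, nic_sact_mp N σ ε hσ s⟩
  have := nic_sact_mp N σ⁻¹ (fun i => ε (σ⁻¹ i)) (sp_inv σ hσ) _ h
  rwa [sact_inv] at this

theorem c2_neg (x : ℝ) : c2 (-x) = c2 x := by
  unfold c2
  rw [mul_neg, Real.cos_neg]

theorem c2_ang_sact (m : ℕ) (σ : Equiv.Perm (Fin 6)) (ε : Fin 6 → ℤˣ) (s : Fin 6 → ℤ) (i : Fin 6) :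
    c2 (ang m (sact σ ε s) i) = c2 (ang m s (σ i)) := by
  unfold ang sact
  rcases Int.units_eq_one_or (ε i) with h | h
  · rw [h]; simp
  · rw [h]
    have : (((((-1 : ℤˣ) : ℤ) • s (σ i) : ℤ) : ℚ) / (m : ℚ) : ℚ) = -((s (σ i) : ℚ) / m) := by
      simp [neg_div]
    rw [this]
    push_cast
    exact c2_neg _

theorem ms_left {B : Type*} (g : Fin 6 → B) (i j k : Fin 6)
    (hi : i.val < 3) (hj : j.val < 3) (hk : k.val < 3) (hij : i ≠ j) (hik : i ≠ k) (hjk : j ≠ k) :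
    ({g i, g j, g k} : Multiset B) = {g 0, g 1, g 2} := by
  have h := left_cases i j k hi hj hk hij hik hjk
  have sw1 : ∀ x y z : B, ({x, y, z} : Multiset B) = {y, x, z} := fun x y z =>
    Multiset.cons_swap x y _
  have sw2 : ∀ x y z : B, ({x, y, z} : Multiset B) = {x, z, y} := fun x y z => by
    show x ::ₘ ({y, z} : Multiset B) = x ::ₘ {z, y}
    rw [Multiset.pair_comm]
  rcases h with ⟨rfl, rfl, rfl⟩ | ⟨rfl, rfl, rfl⟩ | ⟨rfl, rfl, rfl⟩ | ⟨rfl, rfl, rfl⟩ |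
    ⟨rfl, rfl, rfl⟩ | ⟨rfl, rfl, rfl⟩
  · rfl
  · exact sw2 _ _ _
  · exact sw1 _ _ _
  · rw [sw2, sw1]
  · rw [sw1, sw2]
  · rw [sw1, sw2, sw1]

theorem ms_right {B : Type*} (g : Fin 6 → B) (i j k : Fin 6)
    (hi : ¬ i.val < 3) (hj : ¬ j.val < 3) (hk : ¬ k.val < 3) (hij : i ≠ j) (hik : i ≠ k)
    (hjk : j ≠ k) :
    ({g i, g j, g k} : Multiset B) = {g 3, g 4, g 5} := by
  have h := right_cases i j k hi hj hk hij hik hjk
  have sw1 : ∀ x y z : B, ({x, y, z} : Multiset B) = {y, x, z} := fun x y z =>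
    Multiset.cons_swap x y _
  have sw2 : ∀ x y z : B, ({x, y, z} : Multiset B) = {x, z, y} := fun x y z => by
    show x ::ₘ ({y, z} : Multiset B) = x ::ₘ {z, y}
    rw [Multiset.pair_comm]
  rcases h with ⟨rfl, rfl, rfl⟩ | ⟨rfl, rfl, rfl⟩ | ⟨rfl, rfl, rfl⟩ | ⟨rfl, rfl, rfl⟩ |
    ⟨rfl, rfl, rfl⟩ | ⟨rfl, rfl, rfl⟩
  · rfl
  · exact sw2 _ _ _
  · exact sw1 _ _ _
  · rw [sw2, sw1]
  · rw [sw1, sw2]
  · rw [sw1, sw2, sw1]

theorem same_sact (m : ℕ) (σ : Equiv.Perm (Fin 6)) (ε : Fin 6 → ℤˣ) (hσ : SP σ ∨ SW σ)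
    (s : Fin 6 → ℤ) : Same (ang m s) (ang m (sact σ ε s)) := by
  unfold Same L3 R3
  simp only [c2_ang_sact]
  rcases hσ with hσ | hσ
  · left
    constructor
    · symm
      apply ms_left (fun i => c2 (ang m s i))
      any_goals (intro h; exact absurd (σ.injective h) (by decide))
      · exact (hσ 0).mp (by decide)
      · exact (hσ 1).mp (by decide)
      · exact (hσ 2).mp (by decide)
    · symm
      apply ms_right (fun i => c2 (ang m s i))
      any_goals (intro h; exact absurd (σ.injective h) (by decide))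
      · exact fun h => absurd ((hσ 3).mpr h) (by decide)
      · exact fun h => absurd ((hσ 4).mpr h) (by decide)
      · exact fun h => absurd ((hσ 5).mpr h) (by decide)
  · right
    constructor
    · symm
      apply ms_left (fun i => c2 (ang m s i))
      any_goals (intro h; exact absurd (σ.injective h) (by decide))
      · by_contra h; exact absurd ((hσ 3).mpr h) (by decide)
      · by_contra h; exact absurd ((hσ 4).mpr h) (by decide)
      · by_contra h; exact absurd ((hσ 5).mpr h) (by decide)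
    · symm
      apply ms_right (fun i => c2 (ang m s i))
      any_goals (intro h; exact absurd (σ.injective h) (by decide))
      · exact (hσ 0).mp (by decide)
      · exact (hσ 1).mp (by decide)
      · exact (hσ 2).mp (by decide)

theorem exists_sort3 (x y z : ℤ) : ∃ τ : Equiv.Perm (Fin 3),
    ![x, y, z] (τ 0) ≤ ![x, y, z] (τ 1) ∧ ![x, y, z] (τ 1) ≤ ![x, y, z] (τ 2) := by
  refine ⟨Tuple.sort ![x, y, z], ?_, ?_⟩
  · exact Tuple.monotone_sort ![x, y, z] (by decide)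
  · exact Tuple.monotone_sort ![x, y, z] (by decide)

theorem exists_sort_left (w : Fin 6 → ℤ) : ∃ σ : Equiv.Perm (Fin 6), SP σ ∧
    σ 3 = 3 ∧ σ 4 = 4 ∧ σ 5 = 5 ∧ w (σ 0) ≤ w (σ 1) ∧ w (σ 1) ≤ w (σ 2) := by
  rcases le_total (w 0) (w 1) with h1 | h1 <;> rcases le_total (w 1) (w 2) with h2 | h2 <;>
    rcases le_total (w 0) (w 2) with h3 | h3
  · exact ⟨1, by unfold SP; decide, rfl, rfl, rfl, h1, h2⟩
  · exact ⟨1, by unfold SP; decide, rfl, rfl, rfl, h1, h2⟩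
  · refine ⟨Equiv.swap 1 2, by unfold SP; decide, by decide, by decide, by decide, ?_, ?_⟩
    · rw [show (Equiv.swap 1 2 : Equiv.Perm (Fin 6)) 0 = 0 by decide,
        show (Equiv.swap 1 2 : Equiv.Perm (Fin 6)) 1 = 2 by decide]; exact h3
    · rw [show (Equiv.swap 1 2 : Equiv.Perm (Fin 6)) 2 = 1 by decide,
        show (Equiv.swap 1 2 : Equiv.Perm (Fin 6)) 1 = 2 by decide]; exact h2
  · -- w2 ≤ w0 ≤ w1 : σ 0 = 2, σ 1 = 0, σ 2 = 1
    refine ⟨Equiv.swap 0 1 * Equiv.swap 0 2, by unfold SP; decide, by decide, by decide, by decide, ?_, ?_⟩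
    · rw [show (Equiv.swap 0 1 * Equiv.swap 0 2 : Equiv.Perm (Fin 6)) 0 = 2 by decide,
        show (Equiv.swap 0 1 * Equiv.swap 0 2 : Equiv.Perm (Fin 6)) 1 = 0 by decide]; exact h3
    · rw [show (Equiv.swap 0 1 * Equiv.swap 0 2 : Equiv.Perm (Fin 6)) 1 = 0 by decide,
        show (Equiv.swap 0 1 * Equiv.swap 0 2 : Equiv.Perm (Fin 6)) 2 = 1 by decide]; exact h1
  · -- w1 ≤ w0 ≤ w2
    refine ⟨Equiv.swap 0 1, by unfold SP; decide, by decide, by decide, by decide, ?_, ?_⟩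
    · rw [show (Equiv.swap 0 1 : Equiv.Perm (Fin 6)) 0 = 1 by decide,
        show (Equiv.swap 0 1 : Equiv.Perm (Fin 6)) 1 = 0 by decide]; exact h1
    · rw [show (Equiv.swap 0 1 : Equiv.Perm (Fin 6)) 1 = 0 by decide,
        show (Equiv.swap 0 1 : Equiv.Perm (Fin 6)) 2 = 2 by decide]; exact h3
  · -- w1 ≤ w2 ≤ w0 : σ 0 = 1, σ 1 = 2, σ 2 = 0
    refine ⟨Equiv.swap 0 1 * Equiv.swap 1 2, by unfold SP; decide, by decide, by decide, by decide, ?_, ?_⟩
    · rw [show (Equiv.swap 0 1 * Equiv.swap 1 2 : Equiv.Perm (Fin 6)) 0 = 1 by decide,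
        show (Equiv.swap 0 1 * Equiv.swap 1 2 : Equiv.Perm (Fin 6)) 1 = 2 by decide]; exact h2
    · rw [show (Equiv.swap 0 1 * Equiv.swap 1 2 : Equiv.Perm (Fin 6)) 1 = 2 by decide,
        show (Equiv.swap 0 1 * Equiv.swap 1 2 : Equiv.Perm (Fin 6)) 2 = 0 by decide]; exact h3
  · -- w2 ≤ w1 ≤ w0 : swap 0 2
    refine ⟨Equiv.swap 0 2, by unfold SP; decide, by decide, by decide, by decide, ?_, ?_⟩
    · rw [show (Equiv.swap 0 2 : Equiv.Perm (Fin 6)) 0 = 2 by decide,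
        show (Equiv.swap 0 2 : Equiv.Perm (Fin 6)) 1 = 1 by decide]; exact h2
    · rw [show (Equiv.swap 0 2 : Equiv.Perm (Fin 6)) 1 = 1 by decide,
        show (Equiv.swap 0 2 : Equiv.Perm (Fin 6)) 2 = 0 by decide]; exact h1
  · refine ⟨Equiv.swap 0 2, by unfold SP; decide, by decide, by decide, by decide, ?_, ?_⟩
    · rw [show (Equiv.swap 0 2 : Equiv.Perm (Fin 6)) 0 = 2 by decide,
        show (Equiv.swap 0 2 : Equiv.Perm (Fin 6)) 1 = 1 by decide]; exact h2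
    · rw [show (Equiv.swap 0 2 : Equiv.Perm (Fin 6)) 1 = 1 by decide,
        show (Equiv.swap 0 2 : Equiv.Perm (Fin 6)) 2 = 0 by decide]; exact h1

theorem exists_sort_right (w : Fin 6 → ℤ) : ∃ σ : Equiv.Perm (Fin 6), SP σ ∧
    σ 0 = 0 ∧ σ 1 = 1 ∧ σ 2 = 2 ∧ w (σ 3) ≤ w (σ 4) ∧ w (σ 4) ≤ w (σ 5) := by
  rcases le_total (w 3) (w 4) with h1 | h1 <;> rcases le_total (w 4) (w 5) with h2 | h2 <;>
    rcases le_total (w 3) (w 5) with h3 | h3
  · exact ⟨1, by unfold SP; decide, rfl, rfl, rfl, h1, h2⟩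
  · exact ⟨1, by unfold SP; decide, rfl, rfl, rfl, h1, h2⟩
  · refine ⟨Equiv.swap 4 5, by unfold SP; decide, by decide, by decide, by decide, ?_, ?_⟩
    · rw [show (Equiv.swap 4 5 : Equiv.Perm (Fin 6)) 3 = 3 by decide,
        show (Equiv.swap 4 5 : Equiv.Perm (Fin 6)) 4 = 5 by decide]; exact h3
    · rw [show (Equiv.swap 4 5 : Equiv.Perm (Fin 6)) 5 = 4 by decide,
        show (Equiv.swap 4 5 : Equiv.Perm (Fin 6)) 4 = 5 by decide]; exact h2
  · refine ⟨Equiv.swap 3 4 * Equiv.swap 3 5, by unfold SP; decide, by decide, by decide, by decide, ?_, ?_⟩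
    · rw [show (Equiv.swap 3 4 * Equiv.swap 3 5 : Equiv.Perm (Fin 6)) 3 = 5 by decide,
        show (Equiv.swap 3 4 * Equiv.swap 3 5 : Equiv.Perm (Fin 6)) 4 = 3 by decide]; exact h3
    · rw [show (Equiv.swap 3 4 * Equiv.swap 3 5 : Equiv.Perm (Fin 6)) 4 = 3 by decide,
        show (Equiv.swap 3 4 * Equiv.swap 3 5 : Equiv.Perm (Fin 6)) 5 = 4 by decide]; exact h1
  · refine ⟨Equiv.swap 3 4, by unfold SP; decide, by decide, by decide, by decide, ?_, ?_⟩
    · rw [show (Equiv.swap 3 4 : Equiv.Perm (Fin 6)) 3 = 4 by decide,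
        show (Equiv.swap 3 4 : Equiv.Perm (Fin 6)) 4 = 3 by decide]; exact h1
    · rw [show (Equiv.swap 3 4 : Equiv.Perm (Fin 6)) 4 = 3 by decide,
        show (Equiv.swap 3 4 : Equiv.Perm (Fin 6)) 5 = 5 by decide]; exact h3
  · refine ⟨Equiv.swap 3 4 * Equiv.swap 4 5, by unfold SP; decide, by decide, by decide, by decide, ?_, ?_⟩
    · rw [show (Equiv.swap 3 4 * Equiv.swap 4 5 : Equiv.Perm (Fin 6)) 3 = 4 by decide,
        show (Equiv.swap 3 4 * Equiv.swap 4 5 : Equiv.Perm (Fin 6)) 4 = 5 by decide]; exact h2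
    · rw [show (Equiv.swap 3 4 * Equiv.swap 4 5 : Equiv.Perm (Fin 6)) 4 = 5 by decide,
        show (Equiv.swap 3 4 * Equiv.swap 4 5 : Equiv.Perm (Fin 6)) 5 = 3 by decide]; exact h3
  · refine ⟨Equiv.swap 3 5, by unfold SP; decide, by decide, by decide, by decide, ?_, ?_⟩
    · rw [show (Equiv.swap 3 5 : Equiv.Perm (Fin 6)) 3 = 5 by decide,
        show (Equiv.swap 3 5 : Equiv.Perm (Fin 6)) 4 = 4 by decide]; exact h2
    · rw [show (Equiv.swap 3 5 : Equiv.Perm (Fin 6)) 4 = 4 by decide,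
        show (Equiv.swap 3 5 : Equiv.Perm (Fin 6)) 5 = 3 by decide]; exact h1
  · refine ⟨Equiv.swap 3 5, by unfold SP; decide, by decide, by decide, by decide, ?_, ?_⟩
    · rw [show (Equiv.swap 3 5 : Equiv.Perm (Fin 6)) 3 = 5 by decide,
        show (Equiv.swap 3 5 : Equiv.Perm (Fin 6)) 4 = 4 by decide]; exact h2
    · rw [show (Equiv.swap 3 5 : Equiv.Perm (Fin 6)) 4 = 4 by decide,
        show (Equiv.swap 3 5 : Equiv.Perm (Fin 6)) 5 = 3 by decide]; exact h1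

theorem exists_norm (p : ℕ) (hp : 0 < p) (s : Fin 6 → ℤ) :
    ∃ (σ : Equiv.Perm (Fin 6)) (ε : Fin 6 → ℤˣ), SP σ ∧
      (∀ i, 2 * (sact σ ε s i % p) ≤ p) ∧
      sact σ ε s 0 % p ≤ sact σ ε s 1 % p ∧ sact σ ε s 1 % p ≤ sact σ ε s 2 % p ∧
      sact σ ε s 3 % p ≤ sact σ ε s 4 % p ∧ sact σ ε s 4 % p ≤ sact σ ε s 5 % p := by
  have hp' : (0 : ℤ) < p := by exact_mod_cast hp
  have hδ : ∀ j, ∃ δ : ℤˣ, 2 * (((δ : ℤ) • s j) % p) ≤ p := by
    intro j
    by_cases h : 2 * (s j % p) ≤ p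
    · exact ⟨1, by simpa using h⟩
    · refine ⟨-1, ?_⟩
      have h1 := Int.emod_nonneg (s j) hp'.ne'
      have h2 := Int.emod_lt_of_pos (s j) hp'
      have h3 : (-(s j)) % (p : ℤ) = p - s j % p := by
        rw [Int.emod_eq_iff hp'.ne']
        refine ⟨by omega, ?_, ?_⟩
        · omega
        · refine ⟨s j / p + 1, ?_⟩
          have := Int.emod_add_mul_ediv (s j) p
          linear_combination -this
      have : (((-1 : ℤˣ) : ℤ) • s j) = - s j := by simp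
      rw [this, h3]
      omega
  choose δ hδ using hδ
  obtain ⟨σ1, hσ1, a3, a4, a5, b1, b2⟩ := exists_sort_left (fun j => ((δ j : ℤ) • s j) % p)
  obtain ⟨σ2, hσ2, c0, c1, c2, d1, d2⟩ := exists_sort_right (fun j => ((δ j : ℤ) • s j) % p)
  have hsp : SP (σ2 * σ1) := by
    intro i
    rw [Equiv.Perm.mul_apply]
    exact (hσ1 i).trans (hσ2 _)
  have hfix : ∀ j : Fin 6, j.val < 3 → σ2 j = j := by
    intro j hj
    have : j = 0 ∨ j = 1 ∨ j = 2 := by revert j; decide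
    rcases this with rfl | rfl | rfl <;> assumption
  refine ⟨σ2 * σ1, fun i => δ ((σ2 * σ1) i), hsp, ?_, ?_, ?_, ?_, ?_⟩
  · intro i
    exact hδ _
  · simp only [sact, Equiv.Perm.mul_apply]
    rw [hfix (σ1 0) ((hσ1 0).mp (by decide)), hfix (σ1 1) ((hσ1 1).mp (by decide))]
    exact b1
  · simp only [sact, Equiv.Perm.mul_apply]
    rw [hfix (σ1 1) ((hσ1 1).mp (by decide)), hfix (σ1 2) ((hσ1 2).mp (by decide))]
    exact b2
  · simp only [sact, Equiv.Perm.mul_apply]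
    rw [a3, a4]
    exact d1
  · simp only [sact, Equiv.Perm.mul_apply]
    rw [a4, a5]
    exact d2

theorem nic_of_graded (N Q : ℕ) (s v : Fin 6 → ℤ) (hv : v ≠ 0)
    (hT : ∀ i, Third N (s i) → v i = 0)
    (hG : Graded N Q s) (hc : ∀ μ μ' : Fin 16, (Q : ℤ) ∣ dot μ s - dot μ' s → dot μ v = dot μ' v) :
    NIc N s := by
  classical
  refine ⟨v, hv, hT, fun c => ?_⟩
  rw [← Finset.sum_fiberwise_of_maps_to (s := univ.filter (fun μ => dot μ v = c))
    (t := (univ.filter (fun μ => dot μ v = c)).image (fun μ => dot μ s % (Q : ℤ)))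
    (g := fun μ => dot μ s % (Q : ℤ)) (fun μ hμ => Finset.mem_image_of_mem _ hμ)]
  apply Finset.sum_eq_zero
  intro r hr
  obtain ⟨μ0, hμ0, rfl⟩ := Finset.mem_image.mp hr
  rw [Finset.mem_filter] at hμ0
  have hset : (univ.filter (fun μ : Fin 16 => dot μ v = c)).filter
        (fun μ => dot μ s % (Q : ℤ) = dot μ0 s % (Q : ℤ)) =
      univ.filter (fun μ => (Q : ℤ) ∣ dot μ s - dot μ0 s) := by
    ext μ
    simp only [Finset.mem_filter, Finset.mem_univ, true_and]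
    rw [← Int.emod_emod_of_dvd (dot μ s) (dvd_refl (Q : ℤ))]
    constructor
    · rintro ⟨_, h2⟩
      rw [Int.emod_emod_of_dvd (dot μ s) (dvd_refl (Q : ℤ))] at h2
      exact Int.ModEq.dvd (show dot μ0 s ≡ dot μ s [ZMOD Q] from h2.symm)
    · intro h
      refine ⟨(hc μ μ0 h).trans hμ0.2, ?_⟩
      rw [Int.emod_emod_of_dvd (dot μ s) (dvd_refl (Q : ℤ))]
      exact (Int.modEq_iff_dvd.mpr h).symm
  rw [hset]
  exact hG _

theorem third_of_c2_one (m : ℕ) (hm : 0 < m) (k : ℤ) (h : c2 ((k : ℝ) / m) = 1) :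
    Third (2 * m) k := by
  have h2m : 0 < 2 * m := by omega
  have hz := rt_add_inv m hm k
  have hc : (((2 * Real.cos (Real.pi * ((k : ℝ) / m)) : ℝ) : ℂ)) ^ 2 = 1 := by
    rw [← Complex.ofReal_pow]
    have : (2 * Real.cos (Real.pi * ((k : ℝ) / m))) ^ 2 = 1 := h
    rw [this]; simp
  rw [← hz, rt_neg] at hc
  have hne := rt_ne_zero (2 * m) k
  set z := rt (2 * m) k with hzdef
  have h4 : z ^ 4 + z ^ 2 + 1 = 0 := by
    field_simp at hc
    linear_combination hc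
  have h6 : z ^ 6 = 1 := by linear_combination (z ^ 2 - 1) * h4
  constructor
  · rw [← rt_eq_one_iff (2 * m) h2m, show (6 * k : ℤ) = ((6 : ℕ) : ℤ) * k by norm_num, rt_mul]
    exact h6
  · rw [← rt_eq_one_iff (2 * m) h2m, show (2 * k : ℤ) = ((2 : ℕ) : ℤ) * k by norm_num, rt_mul]
    intro h2
    rw [← hzdef] at h2
    have : z ^ 4 = 1 := by
      calc z ^ 4 = (z ^ 2) ^ 2 := by ring
        _ = 1 := by rw [h2]; ring
    rw [this, h2] at h4
    norm_num at h4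

/-- the class sums determine the relation along the line -/
theorem ni_of_nic (m : ℕ) (hm : 0 < m) (s : Fin 6 → ℤ) (h : NIc (2 * m) s) : NI (ang m s) := by
  classical
  obtain ⟨v, hv, hT, hc⟩ := h
  refine ⟨v, hv, ?_, ?_⟩
  · intro i hi
    apply hT
    apply third_of_c2_one m hm
    have : ((ang m s i : ℚ) : ℝ) = (s i : ℝ) / m := by simp [ang]
    rw [← this]
    exact hi
  · intro θ
    -- phases
    set E : ℤ × ℤ → ℂ := fun k => rt (2 * m) k.1 * Complex.exp (Complex.I * (Real.pi * θ * k.2)) with hE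
    have hEadd : ∀ a b : ℤ × ℤ, E (a + b) = E a * E b := by
      intro a b
      simp only [hE, Prod.fst_add, Prod.snd_add, rt_add]
      have : Complex.exp (Complex.I * (Real.pi * θ * ((a.2 + b.2 : ℤ) : ℂ)))
          = Complex.exp (Complex.I * (Real.pi * θ * (a.2 : ℂ))) *
            Complex.exp (Complex.I * (Real.pi * θ * (b.2 : ℂ))) := by
        rw [← Complex.exp_add]
        congr 1
        push_cast
        ring
      rw [this]
      ring
    have hE0 : E 0 = 1 := by simp [hE, rt_zero]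
    have hEne : ∀ a, E a ≠ 0 := fun a => mul_ne_zero (rt_ne_zero _ _) (Complex.exp_ne_zero _)
    have hEneg : ∀ a, E (-a) = (E a)⁻¹ := by
      intro a
      apply eq_inv_of_mul_eq_one_left
      rw [← hEadd, neg_add_cancel, hE0]
    have hEsub : ∀ a b, E (a - b) = E a * (E b)⁻¹ := by
      intro a b
      rw [sub_eq_add_neg, hEadd, hEneg]
    -- the whole sum
    have hsum : asum E (fun i => (s i, v i)) = 0 := by
      have h1 : asum E (fun i => (s i, v i)) = ∑ μ : Fin 16, ((sg μ : ℂ) * rt (2 * m) (dot μ s)) *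
          Complex.exp (Complex.I * (Real.pi * θ * ((dot μ v : ℤ) : ℂ))) := by
        unfold asum
        apply Finset.sum_congr rfl
        intro μ _
        rw [dot_prod]
        simp only [hE]
        ring
      rw [h1, ← Finset.sum_fiberwise_of_maps_to (s := (univ : Finset (Fin 16)))
        (t := (univ : Finset (Fin 16)).image (fun μ => dot μ v))
        (g := fun μ => dot μ v) (fun μ hμ => Finset.mem_image_of_mem _ hμ)]
      apply Finset.sum_eq_zero
      intro c _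
      have h2 : ∑ μ ∈ univ.filter (fun μ : Fin 16 => dot μ v = c), ((sg μ : ℂ) * rt (2 * m) (dot μ s)) *
          Complex.exp (Complex.I * (Real.pi * θ * ((dot μ v : ℤ) : ℂ)))
          = (∑ μ ∈ univ.filter (fun μ : Fin 16 => dot μ v = c), (sg μ : ℂ) * rt (2 * m) (dot μ s)) *
          Complex.exp (Complex.I * (Real.pi * θ * (c : ℂ))) := by
        rw [Finset.sum_mul]
        apply Finset.sum_congr rfl
        intro μ hμ
        rw [(Finset.mem_filter.mp hμ).2]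
      rw [h2, hc c, zero_mul]
    rw [asum_eq] at hsum
    have hT8 : ∀ a b c : ℤ × ℤ, T8 E a b c
        = (E a + (E a)⁻¹) * (E b + (E b)⁻¹) * (E c + (E c)⁻¹) := by
      intro a b c
      unfold T8
      simp only [hEadd, hEsub, hEneg]
      ring
    rw [hT8, hT8] at hsum
    have hcos : ∀ i, E (s i, v i) + (E (s i, v i))⁻¹
        = ((2 * Real.cos (Real.pi * ((ang m s i : ℚ) + v i * θ)) : ℝ) : ℂ) := by
      intro i
      rw [← hEneg]
      have hm' : (m : ℂ) ≠ 0 := Nat.cast_ne_zero.mpr hm.ne'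
      have e1 : E (s i, v i) = Complex.exp ((Real.pi * ((s i : ℂ) / m + v i * θ)) * Complex.I) := by
        simp only [hE, rt]
        rw [← Complex.exp_add]
        congr 1
        push_cast
        field_simp
        try ring
      have e2 : E (-(s i, v i)) = Complex.exp (-(Real.pi * ((s i : ℂ) / m + v i * θ)) * Complex.I) := by
        rw [hEneg, e1, ← Complex.exp_neg]
        congr 1
        ring
      rw [e1, e2]
      push_cast
      rw [Complex.cos]
      simp only [ang]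
      push_cast
      ring
    have hreal : (2 * Real.cos (Real.pi * ((ang m s 0 : ℚ) + v 0 * θ))) *
        (2 * Real.cos (Real.pi * ((ang m s 1 : ℚ) + v 1 * θ))) *
        (2 * Real.cos (Real.pi * ((ang m s 2 : ℚ) + v 2 * θ)))
        = (2 * Real.cos (Real.pi * ((ang m s 3 : ℚ) + v 3 * θ))) *
        (2 * Real.cos (Real.pi * ((ang m s 4 : ℚ) + v 4 * θ))) *
        (2 * Real.cos (Real.pi * ((ang m s 5 : ℚ) + v 5 * θ))) := by
      have h3 := sub_eq_zero.mp hsum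
      rw [hcos 0, hcos 1, hcos 2, hcos 3, hcos 4, hcos 5] at h3
      exact_mod_cast h3
    unfold c2
    rw [← mul_pow, ← mul_pow, ← mul_pow, ← mul_pow, hreal]

end Pool.Agent.TriCos
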