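import Pool.Agent.Lib_MP_6e4ab6_nt.Full.Rt
import Pool.Agent.Lib_MP_6e4ab6_nt.Full.Sym

/-!
# Piece G3: graded relations modulo 3 and 9
-/

namespace Pool.Agent.TriCos

open Finset

namespace G3

/-- the sixteen pairs of exponents -/
def pl (w v : Fin 6 → ℤ) : List (ℤ × ℤ) :=
  [(w 0 + w 1 + w 2, v 0 + v 1 + v 2), (w 0 + w 1 - w 2, v 0 + v 1 - v 2),
   (w 0 - w 1 + w 2, v 0 - v 1 + v 2), (w 0 - w 1 - w 2, v 0 - v 1 - v 2),
   (- w 0 + w 1 + w 2, - v 0 + v 1 + v 2), (- w 0 + w 1 - w 2, - v 0 + v 1 - v 2),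
   (- w 0 - w 1 + w 2, - v 0 - v 1 + v 2), (- w 0 - w 1 - w 2, - v 0 - v 1 - v 2),
   (w 3 + w 4 + w 5, v 3 + v 4 + v 5), (w 3 + w 4 - w 5, v 3 + v 4 - v 5),
   (w 3 - w 4 + w 5, v 3 - v 4 + v 5), (w 3 - w 4 - w 5, v 3 - v 4 - v 5),
   (- w 3 + w 4 + w 5, - v 3 + v 4 + v 5), (- w 3 + w 4 - w 5, - v 3 + v 4 - v 5),
   (- w 3 - w 4 + w 5, - v 3 - v 4 + v 5), (- w 3 - w 4 - w 5, - v 3 - v 4 - v 5)]

theorem mem_pl (w v : Fin 6 → ℤ) (μ : Fin 16) : (dot μ w, dot μ v) ∈ pl w v := by
  fin_cases μ <;> simp [pl, dot]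

def code (Q : ℤ) (x : ℤ × ℤ) : ℕ × ℕ := ((x.1 % Q).toNat, (x.2 + 64).toNat)

def pairs (l : List (ℕ × ℕ)) : Bool :=
  l.all (fun x => l.all (fun y => !(Nat.beq x.1 y.1) || Nat.beq x.2 y.2))

/-- the check of one direction -/
def chk (Q : ℤ) (w v : Fin 6 → ℤ) : Bool :=
  (!(v 0 == 0 && v 1 == 0 && v 2 == 0 && v 3 == 0 && v 4 == 0 && v 5 == 0)) &&
  (!(w 0 == 0) || v 0 == 0) && (!(w 1 == 0) || v 1 == 0) && (!(w 2 == 0) || v 2 == 0) &&
  (!(w 3 == 0) || v 3 == 0) && (!(w 4 == 0) || v 4 == 0) && (!(w 5 == 0) || v 5 == 0) &&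
  pairs ((pl w v).map (code Q))

/-- the direction read off from a table -/
def rd (T : ℕ) (k : ℕ) : Fin 6 → ℤ :=
  ![(((T >>> (24 * k)) &&& 15 : ℕ) : ℤ) - 8, (((T >>> (24 * k + 4)) &&& 15 : ℕ) : ℤ) - 8,
    (((T >>> (24 * k + 8)) &&& 15 : ℕ) : ℤ) - 8, (((T >>> (24 * k + 12)) &&& 15 : ℕ) : ℤ) - 8,
    (((T >>> (24 * k + 16)) &&& 15 : ℕ) : ℤ) - 8, (((T >>> (24 * k + 20)) &&& 15 : ℕ) : ℤ) - 8]

/-- rank of a sorted triple -/
def rk (a b c : ℕ) : ℕ := (c + 2) * (c + 1) * c / 6 + (b + 1) * b / 2 + a

/-- the table for `Q = 3` -/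
def T3 : ℕ := 0x888888888888888888888888888888998998a88778888998888888998688988988888988888888998888988888888888

/-- the table for `Q = 9` -/
def T9 : ℕ := 0x99999999b99988b999888999888999899888a59aaa989888888999a99aaa8998888b8777966999968999988999888888889777889999bb8666899888b7c666898777b66999898999b88999999777994aaa998aaaa99ccc8b899988899999999988899988899988899999999b8898898898898889968888898aa99a98799898999889888788899a89888789888796699b89888798888988899888a99888a778888998899778897778898887899998988889888998999aa588988788899acaa77e88899898888988899888899688888988888988899a8898898898899969948889969889978a69969b699489888788899689888789888798899989888788888988899a88977988999788899ab77667897776898887988889888998988889999aa988a998888889888998988889888998aaa77c888998988889888889999888aa877a994996996996998996a55aa48978889b69969b8996a99aa48978888c89968aa996898888988888888996bb4996bb6996998888e99aa48a69968a89968999968c8996988888ccc77a998888998888caa77a8a8996c8877aaaa77aaa877aa8877a88899688899888899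89987789969989989988997788978888978888a8998a99aa888a9988889988889988889988889988889989989989988888889988997788889988a89988999988889988889988889989988888889988889988a8998888998aaa778888998a8877888899888889988999988a899aa4a559988778998998976998a6a77988988a99a55899877888a99899877888899888899888899889788889988888899899a88989899898788988799898988888899888a99889799888899a99cbb888a77888a99888a77998899888a77888899aaaa59998987998798888897888897899798897897897897888897a99a598978978889878997988a889788897888898788a9879988978889878997898977898a8987899987888978888987888987994a598889788889788a8978888897aaa75c8888978888978888978889899989899949b69969b68888978997698978978978978a89a78888978b79a78a8897899897888989888897888989998998998897888989899787897787888897899989888998888989aaacb99988798888978889988a897a888998aaa75a8889988888978888978888988889788898789969b888899898898888899889799889889888899888989888897888897888889888889888889888978888998888889898889888897888899888899888897888889888897888899888889888897888899888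8978888998888978888998888898aaaa9988aa99aa8677aa4a99aa8a99a55a99a59a998978888c8a99a99a999898888988888998888a8677a88a99888a99bbacaabbc6779988888aa677989888b78677e774668a8a99988888999888994a99998a99a99caa8c8a99988888ccc677998888c88677888a998888998898788898788888978888978998778978978979a7888897888989889889888987988788888899888899888899889797889979888899988889989787888989988988888978888899888987889887888899888978888998888897888998888897888897888889888978889878889878888998888898888998888978989978888998888898889788898898988988888978888898888978888998888998888978899798897798888898888978888998888978999a9888897888889888899888897888899888897888899888889888889899996699b96688a877888a998888998998778976aa897899888a99888899988788988988899899898799888899888a77889777889999998899988788ba9c99888899988788898999888a77aaac99889799888899a99c99888a77888a99888a7799887788889988889999996888987888899888889888889888897898799888899888889888897888987888899889979889889888897888899888897888897888899888899889777888897889999888897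8888998888998889898888978888978888998888898888998888898888898888898999988889988888988888988888988899888897688888988888988a99a88889988888988899888898788988988888988889788889988888988888988989888898788988788898988888988888988889788998a88a99c8888898888898888898888898888898888898888888899888899a888996888998888899888987888989888898888a99888899888978888a7788899888898888888888888988888988888888889988889788889888889988889888888888888888899a888998888a99888978888988888888888998888988888888888999887889999889779996bb48889969888878a677a897996898997caabba98777888899898899989888998888788888988988988988788888998899789788689888989988a89888788888988899888a77888899aa99bba89888988899899988788899898888788888999988988a778889779996bb6888998988889897998897998898997a995548a79978988898aa99a89888798888988888988988788988988888998899789788a89888798899989888988888999988788999988899acaa55a888998988887888998888996888998888889aaa55899888899899888899888899888899889799889799888899888899888a7788a89988999988a899888899888888888899888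8998888888899888897888888998899888888998888888aaabb89987788889988889988a8778888998aaa558888998888998888888888899889977aa9599aa4e99998877899688987877989877898988888a9988998889879998878888889988889988889988a87788a899888899899899897899888a99899877888a77888899999599889788888899888a77898988888a77999baa998877888a99888899aaa5949988799989988889988888978999899878799898798889988889899897878a89a7c99ba98a897a88898988889799899888a8978888978998978978978889898998798a8897888897aaaba9998778888989a99ba9888897888998888897888998888897888897888978888978888998888998888998899978897998888998888998a99598889788888898888978888978888978888898889898889878888898888998888978898898988988888978888898888898889988888978888978888998888898888998888898888998888898999b66889977889988888a999988998aaa77987899989899888a99caa299988988888899988788898799888a7788889988a89988a877888899899877897877988988899899888a77888899888899aa9b99998877888a77898999888899999b99888899888a9988889988897888998888899888899888889889997888897888899888899888897888989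8888998899798888978888978888898889878889898888898888998989978888978888978898898888898888998888978888978a99b98888898888998888898888998888898888898999b88889988889988888988888988888988987888989888888988888988889988898788988788898788888988888888888988888988888888899888897888888988899888888988888888999588889788888988888988898988888988999b88888988888988888888999777aa5999aa9999996444888999988777987888cb9aaa898777888999987888a98999c99aaa8b8999888999888888889999889777bb8aaab77777ba9aaa888999899888898777b8877799999988b999888999a99aaa8b8777988999999777998aaa888999888999aaa994889887889999888998888998988779a59994897778888998a999948898878988898aa77a89888998888788899a88999788977988899a9888878a6776898997b99aa989888798888788899a889889888996888996898887888889999aa9888889888998888889aaa998998778888998888998888998899888897778888998888998a9999888a9988889988998888a8778a889988889989989989987788889988889988979988a87788997788a8998888998888998998778998998a99aa8888998888998888998888998888998888998ccca9999246699888899646699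8888cbba998a66778976778a8677caaa998b76778a8677c99a998c8677c88a99888a99bbaa99bb6466998888899677ba9a998c86778aa677b98a99988888aaaa99aa8677aa8a99a99a99898888a88a99999888998a99988888888a99888978888978889988888998888998888998897778897778888998888998889898888978888978888978888898888978888998888998888978899978888978888998899798888898888978888978889878888898888898898898888898999a98888898888998888898888988889988889988996488888988988788888988897688898788888988889788898788988988888988888988888988889988889788888988988788897688888988888988898788888988999988888988888988a99a88888988988988888988998a888889888889889999999988889946669966669986669889999b46669b6666898777a994448a77778b87778bb6668b8777888999888888889777889999bb8666baa999897888898777b99999888999b88999999777aa9999888999888999a989998889999999998889999889998889998889989989989988889966688889988999988889988977788a877888899888a7788a87788997788889988889988889989988889987788889988997788977788889988889988a8778888998aaa998888998888998a99998888998a88998888998998998888998888998888988888988889988996688998688988988897888897888898788a99488889788888988888988888988888988888988889788889988888988988788888988898788988988888988888988888988889988888988888988898788888988999988888988988988888988999888889888889888996888998888899888897888897888898888a99888889888898888899888898888988888888888889888889888888888899888897888898888899888898888888888999888889888998888a99888898888988888999888998888988888888888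

/-- sorted triples below `n` -/
def tr (n : ℕ) : List (ℕ × ℕ × ℕ) :=
  (List.range n).flatMap fun c => (List.range (c + 1)).flatMap fun b =>
    (List.range (b + 1)).map fun a => (a, b, c)

def wv (l r : ℕ × ℕ × ℕ) : Fin 6 → ℤ := ![(l.1 : ℤ), (l.2.1 : ℤ), (l.2.2 : ℤ), (r.1 : ℤ), (r.2.1 : ℤ), (r.2.2 : ℤ)]

def d3 (n : ℕ) : Bool := n % 3 == 0

def n3 (l : ℕ × ℕ × ℕ) : Bool := !(d3 l.1) && !(d3 l.2.1) && !(d3 l.2.2)
def z3 (l : ℕ × ℕ × ℕ) : Bool := (d3 l.1) && (d3 l.2.1) && (d3 l.2.2)

def one3 (l r : ℕ × ℕ × ℕ) : Bool :=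
  (z3 l && z3 r) || n3 l || n3 r || chk 3 (wv l r) (rd T3 (4 * rk l.1 l.2.1 l.2.2 + rk r.1 r.2.1 r.2.2))

def one9 (l r : ℕ × ℕ × ℕ) : Bool :=
  (z3 l && z3 r) || (n3 l && z3 r) || (z3 l && n3 r) ||
    chk 9 (wv l r) (rd T9 (35 * rk l.1 l.2.1 l.2.2 + rk r.1 r.2.1 r.2.2))

theorem all3 : ((tr 2).all fun l => (tr 2).all fun r => one3 l r) = true := by decide +kernel

set_option maxRecDepth 100000 in
theorem all9 : ((tr 5).all fun l => (tr 5).all fun r => one9 l r) = true := by decide +kernel

theorem rd_bd (T k : ℕ) (i : Fin 6) : -8 ≤ rd T k i ∧ rd T k i ≤ 7 := by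
  have h : ∀ x : ℕ, x &&& 15 ≤ 15 := fun x => Nat.and_le_right
  have key : ∀ x : ℕ, -8 ≤ ((x &&& 15 : ℕ) : ℤ) - 8 ∧ ((x &&& 15 : ℕ) : ℤ) - 8 ≤ 7 := by
    intro x
    have := h x
    constructor <;> omega
  fin_cases i <;> exact key _

theorem dot_bd (v : Fin 6 → ℤ) (h : ∀ i, -8 ≤ v i ∧ v i ≤ 7) (μ : Fin 16) : -64 ≤ dot μ v := by
  have h0 := h 0
  have h1 := h 1
  have h2 := h 2
  have h3 := h 3
  have h4 := h 4
  have h5 := h 5
  fin_cases μ <;> simp [dot] <;> omega

theorem dot_lin (Q : ℤ) (s w q : Fin 6 → ℤ) (h : ∀ i, s i = w i + Q * q i) (μ : Fin 16) :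
    dot μ s = dot μ w + Q * dot μ q := by
  fin_cases μ <;> simp [dot, h] <;> ring

theorem nic_table (N Q : ℕ) (hQ : 0 < Q) (s w v : Fin 6 → ℤ) (hw : ∀ i, s i % Q = w i)
    (hG : Graded N Q s) (hth : ∀ i, Third N (s i) → (Q : ℤ) ∣ s i)
    (hv : ∀ i, -8 ≤ v i ∧ v i ≤ 7) (hc : chk Q w v = true) : NIc N s := by
  simp only [chk, Bool.and_eq_true, Bool.or_eq_true, Bool.not_eq_true', beq_iff_eq,
    Bool.and_eq_false_iff, beq_eq_false_iff_ne] at hc
  obtain ⟨⟨⟨⟨⟨⟨⟨hne, c0⟩, c1⟩, c2⟩, c3⟩, c4⟩, c5⟩, hp⟩ := hc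
  have hcz : ∀ i, w i = 0 → v i = 0 := by
    intro i hi
    fin_cases i
    · exact c0.resolve_left (fun h => h hi)
    · exact c1.resolve_left (fun h => h hi)
    · exact c2.resolve_left (fun h => h hi)
    · exact c3.resolve_left (fun h => h hi)
    · exact c4.resolve_left (fun h => h hi)
    · exact c5.resolve_left (fun h => h hi)
  have hQ' : (0 : ℤ) < Q := by exact_mod_cast hQ
  have hq : ∀ i, s i = w i + (Q : ℤ) * (s i / Q) := by
    intro i
    rw [← hw i]
    exact (Int.emod_add_mul_ediv (s i) Q).symm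
  refine nic_of_graded N Q s v ?_ ?_ hG ?_
  · rintro rfl
    simp at hne
  · intro i hT
    apply hcz
    rw [← hw i]
    exact Int.emod_eq_zero_of_dvd (hth i hT)
  · intro μ μ' hd
    rw [dot_lin Q s w _ hq μ, dot_lin Q s w _ hq μ'] at hd
    have hd' : (Q : ℤ) ∣ dot μ w - dot μ' w := by
      have : dot μ w - dot μ' w = (dot μ w + (Q : ℤ) * dot μ (fun i => s i / Q) -
        (dot μ' w + (Q : ℤ) * dot μ' (fun i => s i / Q))) +
        (Q : ℤ) * (dot μ' (fun i => s i / Q) - dot μ (fun i => s i / Q)) := by ring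
      rw [this]
      exact dvd_add hd (dvd_mul_right _ _)
    have hmod : dot μ w % Q = dot μ' w % Q :=
      Int.emod_eq_emod_iff_emod_sub_eq_zero.mpr (Int.emod_eq_zero_of_dvd hd')
    unfold pairs at hp
    rw [List.all_eq_true] at hp
    have h1 := hp (code Q (dot μ w, dot μ v)) (List.mem_map_of_mem (mem_pl w v μ))
    rw [List.all_eq_true] at h1
    have h2 := h1 (code Q (dot μ' w, dot μ' v)) (List.mem_map_of_mem (mem_pl w v μ'))
    rw [Bool.or_eq_true, Bool.not_eq_true'] at h2
    have h3 : Nat.beq (code Q (dot μ w, dot μ v)).1 (code Q (dot μ' w, dot μ' v)).1 = true := by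
      rw [Nat.beq_eq]
      simp only [code]
      rw [hmod]
    rw [h3] at h2
    rcases h2 with h2 | h2
    · cases h2
    · rw [Nat.beq_eq] at h2
      simp only [code] at h2
      have b1 := dot_bd v hv μ
      have b2 := dot_bd v hv μ'
      omega

theorem mem_tr (n a b c : ℕ) (hc : c < n) (hb : b ≤ c) (ha : a ≤ b) : (a, b, c) ∈ tr n := by
  unfold tr
  simp only [List.mem_flatMap, List.mem_range, List.mem_map]
  exact ⟨c, hc, b, by omega, a, by omega, rfl⟩

theorem dvd_sact (σ : Equiv.Perm (Fin 6)) (ε : Fin 6 → ℤˣ) (s : Fin 6 → ℤ) (i : Fin 6) :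
    (3 : ℤ) ∣ sact σ ε s (σ.symm i) ↔ (3 : ℤ) ∣ s i := by
  unfold sact
  rw [Equiv.apply_symm_apply]
  rcases Int.units_eq_one_or (ε (σ.symm i)) with h | h
  · rw [h]; simp
  · rw [h]; simp

theorem side_left (σ : Equiv.Perm (Fin 6)) (hσ : SP σ) (ε : Fin 6 → ℤˣ) (s : Fin 6 → ℤ)
    (P : Prop → Prop) (h : P ((3 : ℤ) ∣ sact σ ε s 0) ∧ P ((3 : ℤ) ∣ sact σ ε s 1) ∧
      P ((3 : ℤ) ∣ sact σ ε s 2)) : P ((3 : ℤ) ∣ s 0) ∧ P ((3 : ℤ) ∣ s 1) ∧ P ((3 : ℤ) ∣ s 2) := by
  have key : ∀ i : Fin 6, i.val < 3 → P ((3 : ℤ) ∣ s i) := by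
    intro i hi
    have hj : (σ.symm i).val < 3 := by
      rw [hσ (σ.symm i), Equiv.apply_symm_apply]
      exact hi
    rw [← dvd_sact σ ε s i]
    obtain ⟨h0, h1, h2⟩ := h
    generalize σ.symm i = j at hj
    fin_cases j
    · exact h0
    · exact h1
    · exact h2
    all_goals simp at hj
  exact ⟨key 0 (by decide), key 1 (by decide), key 2 (by decide)⟩

theorem side_right (σ : Equiv.Perm (Fin 6)) (hσ : SP σ) (ε : Fin 6 → ℤˣ) (s : Fin 6 → ℤ)
    (P : Prop → Prop) (h : P ((3 : ℤ) ∣ sact σ ε s 3) ∧ P ((3 : ℤ) ∣ sact σ ε s 4) ∧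
      P ((3 : ℤ) ∣ sact σ ε s 5)) : P ((3 : ℤ) ∣ s 3) ∧ P ((3 : ℤ) ∣ s 4) ∧ P ((3 : ℤ) ∣ s 5) := by
  have key : ∀ i : Fin 6, ¬ i.val < 3 → P ((3 : ℤ) ∣ s i) := by
    intro i hi
    have hj : ¬ (σ.symm i).val < 3 := by
      rw [hσ (σ.symm i), Equiv.apply_symm_apply]
      exact hi
    rw [← dvd_sact σ ε s i]
    obtain ⟨h0, h1, h2⟩ := h
    generalize σ.symm i = j at hj
    fin_cases j
    · simp at hj
    · simp at hj
    · simp at hj
    · exact h0
    · exact h1
    · exact h2
  exact ⟨key 3 (by decide), key 4 (by decide), key 5 (by decide)⟩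

theorem d3_iff (x : ℤ) (Q : ℕ) (hQ : 3 ∣ Q) (hQ0 : 0 < Q) :
    d3 (x % Q).toNat = true ↔ (3 : ℤ) ∣ x := by
  have h0 : 0 ≤ x % Q := Int.emod_nonneg _ (by exact_mod_cast hQ0.ne')
  have h3 : (3 : ℤ) ∣ Q := by exact_mod_cast hQ
  have h1 : x % Q % 3 = x % 3 := Int.emod_emod_of_dvd x h3
  unfold d3
  rw [beq_iff_eq]
  generalize x % Q = y at *
  constructor
  · intro h; omega
  · intro h; omega

end G3

open G3

theorem grad3 (N : ℕ) (hN : 0 < N) (h9 : 9 ∣ N) (s : Fin 6 → ℤ) (hG : Graded N 3 s)
    (hs : ∃ i, ¬ (3 : ℤ) ∣ s i) : NIc N s ∨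
      (¬ (3 : ℤ) ∣ s 0 ∧ ¬ (3 : ℤ) ∣ s 1 ∧ ¬ (3 : ℤ) ∣ s 2) ∨
      (¬ (3 : ℤ) ∣ s 3 ∧ ¬ (3 : ℤ) ∣ s 4 ∧ ¬ (3 : ℤ) ∣ s 5) := by
  obtain ⟨σ, ε, hσ, hhalf, l1, l2, r1, r2⟩ := exists_norm 3 (by norm_num) s
  have hG' : Graded N 3 (sact σ ε s) := (graded_sact N 3 σ ε (Or.inl hσ) s).mpr hG
  have hnic := nic_sact N σ ε (Or.inl hσ) s
  have hsl := side_left σ hσ ε s
  have hsr := side_right σ hσ ε s
  have hs' : ¬ ((((3 : ℤ) ∣ sact σ ε s 0) ∧ ((3 : ℤ) ∣ sact σ ε s 1) ∧ ((3 : ℤ) ∣ sact σ ε s 2)) ∧
      (((3 : ℤ) ∣ sact σ ε s 3) ∧ ((3 : ℤ) ∣ sact σ ε s 4) ∧ ((3 : ℤ) ∣ sact σ ε s 5))) := by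
    rintro ⟨hl, hr⟩
    obtain ⟨i, hi⟩ := hs
    obtain ⟨a0, a1, a2⟩ := hsl (fun p => p) hl
    obtain ⟨a3, a4, a5⟩ := hsr (fun p => p) hr
    apply hi
    fin_cases i <;> assumption
  have hsl' := hsl Not
  have hsr' := hsr Not
  rw [← hnic]
  generalize sact σ ε s = s' at *
  have hnn : ∀ i, 0 ≤ s' i % (3 : ℕ) := fun i => Int.emod_nonneg _ (by norm_num)
  have hw : ∀ i, ((s' i % (3 : ℕ)).toNat : ℤ) = s' i % (3 : ℕ) := fun i => Int.toNat_of_nonneg (hnn i)
  have hall := all3
  rw [List.all_eq_true] at hall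
  have hmL : ((s' 0 % (3 : ℕ)).toNat, (s' 1 % (3 : ℕ)).toNat, (s' 2 % (3 : ℕ)).toNat) ∈ tr 2 := by
    have := hhalf 2
    apply mem_tr <;> omega
  have hmR : ((s' 3 % (3 : ℕ)).toNat, (s' 4 % (3 : ℕ)).toNat, (s' 5 % (3 : ℕ)).toNat) ∈ tr 2 := by
    have := hhalf 5
    apply mem_tr <;> omega
  have h1 := hall _ hmL
  rw [List.all_eq_true] at h1
  have h2 := h1 _ hmR
  have hd : ∀ i, d3 (s' i % (3 : ℕ)).toNat = true ↔ (3 : ℤ) ∣ s' i :=
    fun i => d3_iff (s' i) 3 (dvd_refl _) (by norm_num)
  have hd' : ∀ i, d3 (s' i % (3 : ℕ)).toNat = false ↔ ¬ (3 : ℤ) ∣ s' i := by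
    intro i
    rw [← hd i, Bool.not_eq_true]
  simp only [one3, z3, n3, Bool.or_eq_true, Bool.and_eq_true, Bool.not_eq_true', hd, hd'] at h2
  rcases h2 with ((⟨a, b⟩ | a) | a) | a
  · exact absurd ⟨⟨a.1.1, a.1.2, a.2⟩, ⟨b.1.1, b.1.2, b.2⟩⟩ hs'
  · exact Or.inr (Or.inl (hsl' ⟨a.1.1, a.1.2, a.2⟩))
  · exact Or.inr (Or.inr (hsr' ⟨a.1.1, a.1.2, a.2⟩))
  · left
    refine nic_table N 3 (by norm_num) s' _ _ ?_ hG' ?_ (rd_bd _ _) a
    · intro i
      fin_cases i
      · exact (hw 0).symm
      · exact (hw 1).symm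
      · exact (hw 2).symm
      · exact (hw 3).symm
      · exact (hw 4).symm
      · exact (hw 5).symm
    · rintro i ⟨hT, -⟩
      have h9' : (9 : ℤ) ∣ N := by exact_mod_cast h9
      have := h9'.trans hT
      push_cast
      omega

theorem grad9 (N : ℕ) (hN : 0 < N) (h27 : 27 ∣ N) (s : Fin 6 → ℤ) (hG : Graded N 9 s)
    (hs : ∃ i, ¬ (3 : ℤ) ∣ s i) : NIc N s ∨
      ((¬ (3 : ℤ) ∣ s 0 ∧ ¬ (3 : ℤ) ∣ s 1 ∧ ¬ (3 : ℤ) ∣ s 2) ∧
        (3 : ℤ) ∣ s 3 ∧ (3 : ℤ) ∣ s 4 ∧ (3 : ℤ) ∣ s 5) ∨
      ((¬ (3 : ℤ) ∣ s 3 ∧ ¬ (3 : ℤ) ∣ s 4 ∧ ¬ (3 : ℤ) ∣ s 5) ∧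
        (3 : ℤ) ∣ s 0 ∧ (3 : ℤ) ∣ s 1 ∧ (3 : ℤ) ∣ s 2) := by
  obtain ⟨σ, ε, hσ, hhalf, l1, l2, r1, r2⟩ := exists_norm 9 (by norm_num) s
  have hG' : Graded N 9 (sact σ ε s) := (graded_sact N 9 σ ε (Or.inl hσ) s).mpr hG
  have hnic := nic_sact N σ ε (Or.inl hσ) s
  have hsl := side_left σ hσ ε s
  have hsr := side_right σ hσ ε s
  have hs' : ¬ ((((3 : ℤ) ∣ sact σ ε s 0) ∧ ((3 : ℤ) ∣ sact σ ε s 1) ∧ ((3 : ℤ) ∣ sact σ ε s 2)) ∧
      (((3 : ℤ) ∣ sact σ ε s 3) ∧ ((3 : ℤ) ∣ sact σ ε s 4) ∧ ((3 : ℤ) ∣ sact σ ε s 5))) := by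
    rintro ⟨hl, hr⟩
    obtain ⟨i, hi⟩ := hs
    obtain ⟨a0, a1, a2⟩ := hsl (fun p => p) hl
    obtain ⟨a3, a4, a5⟩ := hsr (fun p => p) hr
    apply hi
    fin_cases i <;> assumption
  have hsl' := hsl Not
  have hsr' := hsr Not
  have hslp := hsl (fun p => p)
  have hsrp := hsr (fun p => p)
  rw [← hnic]
  generalize sact σ ε s = s' at *
  have hnn : ∀ i, 0 ≤ s' i % (9 : ℕ) := fun i => Int.emod_nonneg _ (by norm_num)
  have hw : ∀ i, ((s' i % (9 : ℕ)).toNat : ℤ) = s' i % (9 : ℕ) := fun i => Int.toNat_of_nonneg (hnn i)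
  have hall := all9
  rw [List.all_eq_true] at hall
  have hmL : ((s' 0 % (9 : ℕ)).toNat, (s' 1 % (9 : ℕ)).toNat, (s' 2 % (9 : ℕ)).toNat) ∈ tr 5 := by
    have := hhalf 2
    apply mem_tr <;> omega
  have hmR : ((s' 3 % (9 : ℕ)).toNat, (s' 4 % (9 : ℕ)).toNat, (s' 5 % (9 : ℕ)).toNat) ∈ tr 5 := by
    have := hhalf 5
    apply mem_tr <;> omega
  have h1 := hall _ hmL
  rw [List.all_eq_true] at h1
  have h2 := h1 _ hmR
  have hd : ∀ i, d3 (s' i % (9 : ℕ)).toNat = true ↔ (3 : ℤ) ∣ s' i :=
    fun i => d3_iff (s' i) 9 (by norm_num) (by norm_num)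
  have hd' : ∀ i, d3 (s' i % (9 : ℕ)).toNat = false ↔ ¬ (3 : ℤ) ∣ s' i := by
    intro i
    rw [← hd i, Bool.not_eq_true]
  simp only [one9, z3, n3, Bool.or_eq_true, Bool.and_eq_true, Bool.not_eq_true', hd, hd'] at h2
  rcases h2 with ((⟨a, b⟩ | ⟨a, b⟩) | ⟨a, b⟩) | a
  · exact absurd ⟨⟨a.1.1, a.1.2, a.2⟩, ⟨b.1.1, b.1.2, b.2⟩⟩ hs'
  · exact Or.inr (Or.inl ⟨hsl' ⟨a.1.1, a.1.2, a.2⟩, hsrp ⟨b.1.1, b.1.2, b.2⟩⟩)
  · exact Or.inr (Or.inr ⟨hsr' ⟨b.1.1, b.1.2, b.2⟩, hslp ⟨a.1.1, a.1.2, a.2⟩⟩)
  · left
    refine nic_table N 9 (by norm_num) s' _ _ ?_ hG' ?_ (rd_bd _ _) a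
    · intro i
      fin_cases i
      · exact (hw 0).symm
      · exact (hw 1).symm
      · exact (hw 2).symm
      · exact (hw 3).symm
      · exact (hw 4).symm
      · exact (hw 5).symm
    · rintro i ⟨hT, -⟩
      have h9' : (27 : ℤ) ∣ N := by exact_mod_cast h27
      have := h9'.trans hT
      push_cast
      omega

end Pool.Agent.TriCos
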