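import Pool.Agent.Lib_MP_6e4ab6_nt.Full.GaloisA

/-!
Piece F: short vanishing sums of unit complex numbers and roots of unity.
-/

namespace Pool.Agent.TriCos

open Finset



theorem conj_of_norm_one {a : ℂ} (ha : ‖a‖ = 1) : (starRingEnd ℂ) a = a⁻¹ := by
  rw [Complex.inv_def, Complex.normSq_eq_norm_sq, ha]
  simp

theorem three_unit (a b c : ℂ) (ha : ‖a‖ = 1) (hb : ‖b‖ = 1) (hc : ‖c‖ = 1) (h : a + b + c = 0) :
    ∃ ω : ℂ, ω ^ 2 + ω + 1 = 0 ∧ b = ω * a ∧ c = ω ^ 2 * a := by
  have ha0 : a ≠ 0 := fun h => by simp [h] at ha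
  have hb0 : b ≠ 0 := fun h => by simp [h] at hb
  have hc0 : c ≠ 0 := fun h => by simp [h] at hc
  have h1 := congrArg (starRingEnd ℂ) h
  simp only [map_add, map_zero, conj_of_norm_one ha, conj_of_norm_one hb,
    conj_of_norm_one hc] at h1
  have h2 : b * c + a * c + a * b = 0 := by
    field_simp at h1
    linear_combination h1
  have hω : (b / a) ^ 2 + b / a + 1 = 0 := by
    field_simp
    linear_combination (a + b) * h - h2
  refine ⟨b / a, hω, by field_simp, ?_⟩
  have h3 : (b / a) ^ 2 = - (b / a) - 1 := by linear_combination hω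
  rw [h3]
  field_simp
  linear_combination h

theorem four_unit (a b c d : ℂ) (ha : ‖a‖ = 1) (hb : ‖b‖ = 1) (hc : ‖c‖ = 1) (hd : ‖d‖ = 1)
    (h : a + b + c + d = 0) :
    (a + b = 0 ∧ c + d = 0) ∨ (a + c = 0 ∧ b + d = 0) ∨ (a + d = 0 ∧ b + c = 0) := by
  have ha0 : a ≠ 0 := fun h => by simp [h] at ha
  have hb0 : b ≠ 0 := fun h => by simp [h] at hb
  have hc0 : c ≠ 0 := fun h => by simp [h] at hc
  have hd0 : d ≠ 0 := fun h => by simp [h] at hd
  have h1 := congrArg (starRingEnd ℂ) h
  simp only [map_add, map_zero, conj_of_norm_one ha, conj_of_norm_one hb,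
    conj_of_norm_one hc, conj_of_norm_one hd] at h1
  have h2 : b * c * d + a * c * d + a * b * d + a * b * c = 0 := by
    field_simp at h1
    linear_combination h1
  have h3 : (a + b) * (a + c) * (a + d) = 0 := by
    linear_combination a ^ 2 * h + h2
  rcases mul_eq_zero.1 h3 with h4 | h4
  · rcases mul_eq_zero.1 h4 with h5 | h5
    · exact Or.inl ⟨h5, by linear_combination h - h5⟩
    · exact Or.inr (Or.inl ⟨h5, by linear_combination h - h5⟩)
  · exact Or.inr (Or.inr ⟨h4, by linear_combination h - h4⟩)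

/-! ### sixth roots of unity -/

/-- coefficients of `rt 6 j` on the basis `1, ζ` -/
def al6 (j : Fin 6) : ℤ := ![1, 0, -1, -1, 0, 1] j

/-- coefficients of `rt 6 j` on the basis `1, ζ` -/
def be6 (j : Fin 6) : ℤ := ![0, 1, 1, 0, -1, -1] j

theorem six_check : ∀ a b c d e : Fin 6,
    al6 a + al6 b + al6 c + al6 d + al6 e = 0 → be6 a + be6 b + be6 c + be6 d + be6 e = 0 →
      (a = b + 3 ∨ a = c + 3 ∨ a = d + 3 ∨ a = e + 3 ∨ b = c + 3 ∨ b = d + 3 ∨ b = e + 3 ∨
        c = d + 3 ∨ c = e + 3 ∨ d = e + 3) := by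
  decide +kernel

theorem rt6_3 : rt 6 3 = -1 := by
  have := rt_half 3 (by norm_num)
  simpa using this

theorem rt6_1_ne : rt 6 1 ≠ -1 := by
  rw [← rt6_3, Ne, rt_eq_iff 6 (by norm_num)]
  decide

theorem rt6_sq : rt 6 1 ^ 2 = rt 6 1 - 1 := by
  have h1 : rt 6 1 ^ 3 = -1 := by
    rw [← rt_mul]
    simpa using rt6_3
  have h2 : (rt 6 1 + 1) * (rt 6 1 ^ 2 - rt 6 1 + 1) = 0 := by linear_combination h1
  rcases mul_eq_zero.1 h2 with h3 | h3
  · exact absurd (eq_neg_of_add_eq_zero_left h3) rt6_1_ne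
  · linear_combination h3

theorem rt6_coeff (j : Fin 6) : rt 6 (j.val : ℤ) = (al6 j : ℂ) + (be6 j : ℂ) * rt 6 1 := by
  have h0 := rt_zero 6
  have h2 : rt 6 2 = rt 6 1 - 1 := by
    rw [← rt6_sq, ← rt_mul]; norm_num
  have h3 := rt6_3
  have h4 : rt 6 4 = - rt 6 1 := by
    rw [show (4 : ℤ) = 3 + 1 by norm_num, rt_add, h3]; ring
  have h5 : rt 6 5 = - (rt 6 1 - 1) := by
    rw [show (5 : ℤ) = 3 + 2 by norm_num, rt_add, h3, h2]; ring
  fin_cases j
  · simp [al6, be6, h0]
  · simp [al6, be6]
  · simp [al6, be6]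
    rw [h2]; ring
  · simp [al6, be6, h3]
  · simp [al6, be6]
    rw [h4]
  · simp [al6, be6]
    rw [h5]; ring

theorem rt6_indep (x y : ℤ) (h : (x : ℂ) + (y : ℂ) * rt 6 1 = 0) : x = 0 ∧ y = 0 := by
  have hy : y = 0 := by
    by_contra hy
    have hy' : (y : ℂ) ≠ 0 := by exact_mod_cast hy
    have h1 : rt 6 1 = ((-(x : ℝ) / y : ℝ) : ℂ) := by
      push_cast
      field_simp
      linear_combination h
    -- a real number of modulus one is `1` or `-1`
    have h2 := rt6_sq
    rw [h1] at h2
    have h3 : (-(x : ℝ) / y) ^ 2 = (-(x : ℝ) / y) - 1 := by exact_mod_cast h2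
    nlinarith [sq_nonneg ((-(x : ℝ) / y) - 1 / 2)]
  subst hy
  simp at h
  exact ⟨by exact_mod_cast h, rfl⟩

theorem six_term (K : Fin 5 → ℤ) (h : ∑ i, rt 6 (K i) = 0) :
    ∃ i j, i ≠ j ∧ rt 6 (K i) + rt 6 (K j) = 0 := by
  have hc : ∀ i, ∃ c : Fin 6, (6 : ℤ) ∣ K i - c.val ∧ rt 6 (K i) = rt 6 (c.val : ℤ) := by
    intro i
    have h1 : 0 ≤ K i % 6 := Int.emod_nonneg _ (by norm_num)
    have h2 : K i % 6 < 6 := Int.emod_lt_of_pos _ (by norm_num)
    have h3 : (6 : ℤ) ∣ K i - (K i % 6) := Int.dvd_self_sub_emod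
    refine ⟨⟨(K i % 6).toNat, by omega⟩, ?_, ?_⟩
    · simpa [Int.toNat_of_nonneg h1] using h3
    · rw [rt_eq_iff 6 (by norm_num)]
      simpa [Int.toNat_of_nonneg h1] using h3
  choose c hc1 hc2 using hc
  have h1 : (∑ i, al6 (c i) : ℤ) = 0 ∧ (∑ i, be6 (c i) : ℤ) = 0 := by
    apply rt6_indep
    push_cast
    rw [Finset.sum_mul, ← Finset.sum_add_distrib, ← h]
    refine Finset.sum_congr rfl fun i _ => ?_
    rw [hc2, rt6_coeff]
  have hpair : ∀ i j, c i = c j + 3 → rt 6 (K i) + rt 6 (K j) = 0 := by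
    intro i j hij
    have h2 : rt 6 (K i) = rt 6 (K j + 3) := by
      rw [rt_eq_iff 6 (by norm_num)]
      have h3 := hc1 i
      have h4 := hc1 j
      have h5 : ((c j + 3 : Fin 6).val : ℤ) % 6 = ((c j).val + 3) % 6 := by
        generalize c j = e
        revert e
        decide
      rw [hij] at h3
      omega
    rw [h2, rt_add, rt6_3]
    ring
  have h2 := six_check (c 0) (c 1) (c 2) (c 3) (c 4)
    (by rw [← h1.1, Fin.sum_univ_five]) (by rw [← h1.2, Fin.sum_univ_five])
  rcases h2 with h | h | h | h | h | h | h | h | h | h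
  · exact ⟨0, 1, by decide, hpair _ _ h⟩
  · exact ⟨0, 2, by decide, hpair _ _ h⟩
  · exact ⟨0, 3, by decide, hpair _ _ h⟩
  · exact ⟨0, 4, by decide, hpair _ _ h⟩
  · exact ⟨1, 2, by decide, hpair _ _ h⟩
  · exact ⟨1, 3, by decide, hpair _ _ h⟩
  · exact ⟨1, 4, by decide, hpair _ _ h⟩
  · exact ⟨2, 3, by decide, hpair _ _ h⟩
  · exact ⟨2, 4, by decide, hpair _ _ h⟩
  · exact ⟨3, 4, by decide, hpair _ _ h⟩

/-! ### five terms -/

/-- vanishing class sums with two nonempty classes give an antipodal pair -/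
theorem five_classes (N p : ℕ) (k : Fin 5 → ℤ)
    (hcl : ∀ r : ℤ, ∑ i ∈ univ.filter (fun i => (p : ℤ) ∣ k i - r), rt N (k i) = 0)
    (hk : ∃ i, ¬ (p : ℤ) ∣ k i - k 0) : ∃ i j, i ≠ j ∧ rt N (k i) + rt N (k j) = 0 := by
  classical
  obtain ⟨i₁, hi₁⟩ := hk
  have key : ∀ r : ℤ, (univ.filter (fun i => (p : ℤ) ∣ k i - r)).card = 2 →
      ∃ i j, i ≠ j ∧ rt N (k i) + rt N (k j) = 0 := by
    intro r hr
    obtain ⟨i, j, hij, hF⟩ := Finset.card_eq_two.1 hr
    have h1 := hcl r
    rw [hF, Finset.sum_pair hij] at h1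
    exact ⟨i, j, hij, h1⟩
  have hge : ∀ r : ℤ, (univ.filter (fun i => (p : ℤ) ∣ k i - r)).Nonempty →
      2 ≤ (univ.filter (fun i => (p : ℤ) ∣ k i - r)).card := by
    intro r hr
    by_contra hcon
    have h1 : (univ.filter (fun i => (p : ℤ) ∣ k i - r)).card = 1 := by
      have := hr.card_pos
      omega
    obtain ⟨i, hi⟩ := Finset.card_eq_one.1 h1
    have h2 := hcl r
    rw [hi, Finset.sum_singleton] at h2
    exact rt_ne_zero _ _ h2
  have n0 := hge (k 0) ⟨0, by simp⟩
  have n1 := hge (k i₁) ⟨i₁, by simp⟩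
  have hdis : Disjoint (univ.filter (fun i => (p : ℤ) ∣ k i - k 0))
      (univ.filter (fun i => (p : ℤ) ∣ k i - k i₁)) := by
    rw [Finset.disjoint_left]
    intro i h0 h1
    rw [Finset.mem_filter] at h0 h1
    apply hi₁
    have := dvd_sub h0.2 h1.2
    rwa [show k i - k 0 - (k i - k i₁) = k i₁ - k 0 by ring] at this
  have hcard : (univ.filter (fun i => (p : ℤ) ∣ k i - k 0)).card +
      (univ.filter (fun i => (p : ℤ) ∣ k i - k i₁)).card ≤ 5 := by
    rw [← Finset.card_union_of_disjoint hdis]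
    exact (Finset.card_le_univ _).trans (by simp)
  rcases Nat.lt_or_ge (univ.filter (fun i => (p : ℤ) ∣ k i - k 0)).card 3 with h | h
  · exact key (k 0) (by omega)
  · exact key (k i₁) (by omega)

/-- the conclusion of `five_term` -/
def Five (z : Fin 5 → ℂ) : Prop :=
  (∃ i j, i ≠ j ∧ z i + z j = 0) ∨
    ((∀ i j, z i ^ 5 = z j ^ 5) ∧ (∀ i j, i ≠ j → z i ≠ z j) ∧ ∏ i, z i = z 0 ^ 5)

theorem Five.smul {z : Fin 5 → ℂ} (h : Five z) {c : ℂ} (hc : c ≠ 0) :
    Five (fun i => c * z i) := by
  rcases h with ⟨i, j, hij, h⟩ | ⟨h1, h2, h3⟩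
  · exact Or.inl ⟨i, j, hij, by simp only; rw [← mul_add, h, mul_zero]⟩
  · refine Or.inr ⟨fun i j => ?_, fun i j hij => ?_, ?_⟩
    · simp only; rw [mul_pow, mul_pow, h1 i j]
    · exact fun h => h2 i j hij (mul_left_cancel₀ hc h)
    · simp only
      rw [Finset.prod_mul_distrib, h3, mul_pow]
      simp

theorem sum_zmod5 : ∑ i : ZMod 5, i = 0 := by decide

theorem five_core (N : ℕ) (hN : 0 < N) (k : Fin 5 → ℤ) (h : ∑ i, rt N (k i) = 0)
    (hk : ∀ p : ℕ, p.Prime → p ∣ N → ∃ i, ¬ (p : ℤ) ∣ k i - k 0) : Five fun i => rt N (k i) := by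
  classical
  have h' : ∑ i, (((fun _ => 1 : Fin 5 → ℤ) i : ℤ) : ℂ) * rt N (k i) = 0 := by
    simpa using h
  by_cases hsq : ∃ p : ℕ, p.Prime ∧ p * p ∣ N
  · -- a square of a prime
    obtain ⟨p, hp, hpp⟩ := hsq
    have hpN : p ∣ N := (dvd_mul_right p p).trans hpp
    left
    refine five_classes N p k (fun r => ?_) (hk p hp hpN)
    have h1 := class_sum univ N p hN hpN (by
      intro q hq hqN
      by_cases hqp : q = p
      · subst hqp
        obtain ⟨c, hc⟩ := hpp
        rw [hc, mul_assoc, Nat.mul_div_cancel_left _ hp.pos]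
        exact dvd_mul_right _ _
      · obtain ⟨c, hc⟩ := hpN
        rw [hc, Nat.mul_div_cancel_left _ hp.pos]
        rw [hc] at hqN
        rcases (hq.dvd_mul).1 hqN with h2 | h2
        · exact absurd ((Nat.prime_dvd_prime_iff_eq hq hp).1 h2) hqp
        · exact h2) (fun _ => 1) k h' r
    simpa using h1
  · push Not at hsq
    have hempty : ∀ p : ℕ, p.Prime → p ∣ N → (∃ r₀ : ℤ, ∀ i, ¬ (p : ℤ) ∣ k i - r₀) →
        ∃ i j, i ≠ j ∧ rt N (k i) + rt N (k j) = 0 := by
      intro p hp hpN ⟨r₀, hr₀⟩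
      refine five_classes N p k (fun r => ?_) (hk p hp hpN)
      obtain ⟨N', hN'⟩ := hpN
      have hN'0 : 0 < N' := Nat.pos_of_ne_zero fun h0 => by
        rw [h0, mul_zero] at hN'; omega
      have hc : ¬ p ∣ N' := by
        rintro ⟨c, hc⟩
        apply hsq p hp
        rw [hN', hc]
        exact ⟨c, by ring⟩
      rw [hN'] at h' ⊢
      have h1 := class_empty univ p N' hp hN'0 hc (fun _ => 1) k h' r₀ (fun i _ => hr₀ i) r
      simpa using h1
    by_cases hbig : ∃ p : ℕ, p.Prime ∧ p ∣ N ∧ 5 ≤ p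
    · obtain ⟨p, hp, hpN, h5⟩ := hbig
      have : Fact p.Prime := ⟨hp⟩
      by_cases hsurj : Function.Surjective (fun i : Fin 5 => ((k i : ℤ) : ZMod p))
      · -- the five cycle
        have hcard := Fintype.card_le_of_surjective _ hsurj
        rw [ZMod.card, Fintype.card_fin] at hcard
        obtain rfl : p = 5 := le_antisymm hcard h5
        right
        have hbij : Function.Bijective (fun i : Fin 5 => ((k i : ℤ) : ZMod 5)) := by
          rw [Fintype.bijective_iff_surjective_and_card]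
          exact ⟨hsurj, by simp [ZMod.card]⟩
        obtain ⟨N', hN'⟩ := hpN
        have hN'0 : 0 < N' := Nat.pos_of_ne_zero fun h0 => by
          rw [h0, mul_zero] at hN'; omega
        have hc : ¬ 5 ∣ N' := by
          rintro ⟨c, hc⟩
          apply hsq 5 hp
          rw [hN', hc]
          exact ⟨c, by ring⟩
        have hcop : IsCoprime (5 : ℤ) (N' : ℤ) := by
          have h1 : Nat.Coprime 5 N' := (Nat.Prime.coprime_iff_not_dvd (by norm_num)).2 hc
          exact_mod_cast Nat.isCoprime_iff_coprime.2 h1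
        obtain ⟨u, v, huv⟩ := hcop
        rw [hN'] at h'
        obtain ⟨C, hC⟩ := class_const univ 5 N' hp hN'0 hc u
          ⟨-v, by push_cast; linear_combination huv⟩ (fun _ => 1) k h'
        have hsingle : ∀ i, rt N' (u * k i) = C := by
          intro i
          have h1 := hC (k i)
          have h2 : univ.filter (fun j => ((5 : ℕ) : ℤ) ∣ k j - k i) = {i} := by
            ext j
            rw [Finset.mem_filter, Finset.mem_singleton]
            constructor
            · rintro ⟨-, hj⟩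
              apply hbij.1
              have h3 := (ZMod.intCast_zmod_eq_zero_iff_dvd (k j - k i) 5).2 hj
              rw [Int.cast_sub, sub_eq_zero] at h3
              exact h3
            · rintro rfl
              simp
          rw [h2, Finset.sum_singleton] at h1
          simpa using h1
        have hdv : ∀ i j, (N' : ℤ) ∣ k i - k j := by
          intro i j
          have h1 : rt N' (u * k i) = rt N' (u * k j) := by rw [hsingle, hsingle]
          rw [rt_eq_iff N' hN'0] at h1
          have h2 : (N' : ℤ) ∣ 5 * (u * k i - u * k j) + v * N' * (k i - k j) :=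
            dvd_add (h1.mul_left 5) ⟨v * (k i - k j), by ring⟩
          rwa [show 5 * (u * k i - u * k j) + v * N' * (k i - k j) =
            (u * 5 + v * N') * (k i - k j) by ring, huv, one_mul] at h2
        refine ⟨fun i j => ?_, fun i j hij heq => ?_, ?_⟩
        · simp only
          rw [← rt_mul, ← rt_mul, rt_eq_iff N hN, hN']
          push_cast
          rw [← mul_sub]
          exact mul_dvd_mul_left _ (hdv i j)
        · simp only at heq
          rw [rt_eq_iff N hN, hN'] at heq
          apply hij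
          apply hbij.1
          have h1 : ((5 : ℕ) : ℤ) ∣ k i - k j := by
            refine dvd_trans ?_ heq
            push_cast
            exact dvd_mul_right _ _
          have h3 := (ZMod.intCast_zmod_eq_zero_iff_dvd (k i - k j) 5).2 h1
          rw [Int.cast_sub, sub_eq_zero] at h3
          exact h3
        · have hprod : ∏ i, rt N (k i) = rt N (∑ i, k i) := by
            rw [Fin.prod_univ_five, Fin.sum_univ_five]
            simp only [rt_add]
          simp only
          rw [hprod, ← rt_mul, rt_eq_iff N hN, hN']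
          have hd5 : (5 : ℤ) ∣ ∑ i, k i - ((5 : ℕ) : ℤ) * k 0 := by
            have h1 : ((∑ i, k i : ℤ) : ZMod 5) = 0 := by
              push_cast
              rw [hbij.sum_comp (fun x : ZMod 5 => x)]
              convert sum_zmod5
            have h2 := (ZMod.intCast_zmod_eq_zero_iff_dvd _ 5).1 h1
            push_cast at h2 ⊢
            exact dvd_sub h2 (dvd_mul_right _ _)
          have hdN : (N' : ℤ) ∣ ∑ i, k i - ((5 : ℕ) : ℤ) * k 0 := by
            have h1 : ∑ i, k i - ((5 : ℕ) : ℤ) * k 0 = ∑ i, (k i - k 0) := by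
              rw [Finset.sum_sub_distrib]
              simp
            rw [h1]
            exact Finset.dvd_sum fun i _ => hdv i 0
          push_cast
          push_cast at hd5 hdN
          exact IsCoprime.mul_dvd ⟨u, v, huv⟩ hd5 hdN
      · left
        refine hempty p hp hpN ?_
        unfold Function.Surjective at hsurj
        push Not at hsurj
        obtain ⟨c, hc⟩ := hsurj
        refine ⟨(c.val : ℤ), fun i hi => hc i ?_⟩
        have h3 := (ZMod.intCast_zmod_eq_zero_iff_dvd (k i - (c.val : ℤ)) p).2 hi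
        rw [Int.cast_sub, sub_eq_zero] at h3
        rw [h3]
        simp
    · -- sixth roots of unity
      push Not at hbig
      left
      have hN6 : N ∣ 6 := by
        have hsf : Squarefree N := by
          rw [Nat.squarefree_iff_prime_squarefree]
          intro p hp
          exact hsq p hp
        rw [← Nat.prod_primeFactors_of_squarefree hsf]
        have hsub : N.primeFactors ⊆ {2, 3} := by
          intro p hp
          have hp' := Nat.prime_of_mem_primeFactors hp
          have h1 := hbig p hp' (Nat.dvd_of_mem_primeFactors hp)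
          have h2 := hp'.two_le
          have h3 : p ≠ 4 := by rintro rfl; exact absurd hp' (by norm_num)
          simp only [Finset.mem_insert, Finset.mem_singleton]
          omega
        have := Finset.prod_dvd_prod_of_subset _ _ (fun p : ℕ => p) hsub
        simpa using this
      obtain ⟨c, hc⟩ := hN6
      have hc0 : 0 < c := Nat.pos_of_ne_zero fun h0 => by rw [h0] at hc; simp at hc
      have hrt : ∀ i, rt N (k i) = rt 6 (c * k i) := by
        intro i
        rw [hc, mul_comm N c, rt_scale N c hc0]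
      simp only [hrt] at h ⊢
      exact six_term (fun i => c * k i) h

theorem five_aux : ∀ (N : ℕ), 0 < N → ∀ k : Fin 5 → ℤ, ∑ i, rt N (k i) = 0 →
    Five fun i => rt N (k i) := by
  intro N
  induction N using Nat.strong_induction_on with
  | _ N ih =>
    intro hN k h
    by_cases hk : ∀ p : ℕ, p.Prime → p ∣ N → ∃ i, ¬ (p : ℤ) ∣ k i - k 0
    · exact five_core N hN k h hk
    · push Not at hk
      obtain ⟨p, hp, ⟨N', hN'⟩, hdv⟩ := hk
      have hN'0 : 0 < N' := Nat.pos_of_ne_zero fun h0 => by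
        rw [h0, mul_zero] at hN'; omega
      have hlt : N' < N := by
        rw [hN']
        exact lt_mul_of_one_lt_left hN'0 hp.one_lt
      choose l hl using hdv
      have hrt : ∀ i, rt N (k i) = rt N (k 0) * rt N' (l i) := by
        intro i
        have h1 : k i = k 0 + p * l i := by linear_combination hl i
        rw [h1, rt_add]
        congr 1
        rw [hN', rt_scale N' p hp.pos]
      have h2 : ∑ i, rt N' (l i) = 0 := by
        have h3 : rt N (k 0) * ∑ i, rt N' (l i) = 0 := by
          rw [Finset.mul_sum, ← h]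
          exact Finset.sum_congr rfl fun i _ => (hrt i).symm
        exact (mul_eq_zero.1 h3).resolve_left (rt_ne_zero _ _)
      have h4 := (ih N' hlt hN'0 l h2).smul (rt_ne_zero N (k 0))
      have h5 : (fun i => rt N (k i)) = fun i => rt N (k 0) * rt N' (l i) := funext hrt
      rw [h5]
      exact h4

theorem five_term (N : ℕ) (hN : 0 < N) (k : Fin 5 → ℤ) (h : ∑ i, rt N (k i) = 0) :
    (∃ i j, i ≠ j ∧ rt N (k i) + rt N (k j) = 0) ∨
    ((∀ i j, rt N (k i) ^ 5 = rt N (k j) ^ 5) ∧ (∀ i j, i ≠ j → rt N (k i) ≠ rt N (k j)) ∧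
      ∏ i, rt N (k i) = rt N (k 0) ^ 5) := five_aux N hN k h

end Pool.Agent.TriCos
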