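import Pool.Agent.Lib_MP_6e4ab6_nt.Full.Sym
import Pool.Agent.Lib_MP_6e4ab6_nt.Full.Short

/-!
# Grading modulo 5 lifts to a line (piece G5)

Table of lifting directions for the residues modulo 5, and explicit algebra for the four
exceptional patterns.
-/

namespace Pool.Agent.TriCos

open Finset

namespace G5

theorem dvd_dot (q : ℤ) (s w : Fin 6 → ℤ) (h : ∀ i, q ∣ s i - w i) (μ : Fin 16) :
    q ∣ dot μ s - dot μ w := by
  obtain ⟨k0, h0⟩ := h 0
  obtain ⟨k1, h1⟩ := h 1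
  obtain ⟨k2, h2⟩ := h 2
  obtain ⟨k3, h3⟩ := h 3
  obtain ⟨k4, h4⟩ := h 4
  obtain ⟨k5, h5⟩ := h 5
  refine ⟨dot μ ![k0, k1, k2, k3, k4, k5], ?_⟩
  fin_cases μ <;> simp [dot] <;> linarith

theorem dot_smul (u : ℤ) (w : Fin 6 → ℤ) (μ : Fin 16) : dot μ (fun i => u * w i) = u * dot μ w := by
  fin_cases μ <;> simp [dot] <;> ring

/-- the opposite monomial -/
def opp : Fin 16 → Fin 16 := ![7, 6, 5, 4, 3, 2, 1, 0, 15, 14, 13, 12, 11, 10, 9, 8]

theorem opp_opp : ∀ μ, opp (opp μ) = μ := by decide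

theorem sg_opp : ∀ μ, sg (opp μ) = sg μ := by decide

theorem dot_opp (s : Fin 6 → ℤ) (μ : Fin 16) : dot (opp μ) s = - dot μ s := by
  fin_cases μ <;> simp [dot, opp] <;> ring

theorem mirror (N : ℕ) (s v : Fin 6 → ℤ) (c : ℤ) :
    ∑ μ ∈ univ.filter (fun μ => dot μ v = c), (sg μ : ℂ) * rt N (dot μ s)
      = (starRingEnd ℂ) (∑ μ ∈ univ.filter (fun μ => dot μ v = -c), (sg μ : ℂ) * rt N (dot μ s)) := by
  rw [map_sum]
  refine Finset.sum_nbij' opp opp ?_ ?_ ?_ ?_ ?_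
  · intro μ hμ
    simp only [mem_filter, mem_univ, true_and] at hμ ⊢
    rw [dot_opp, hμ]
  · intro μ hμ
    simp only [mem_filter, mem_univ, true_and] at hμ ⊢
    rw [dot_opp, hμ, neg_neg]
  · intro μ _
    exact opp_opp μ
  · intro μ _
    exact opp_opp μ
  · intro μ _
    rw [map_mul, conj_rt, dot_opp, neg_neg, sg_opp]
    congr 1
    simp

theorem nic_intro (N : ℕ) (s v : Fin 6 → ℤ) (P : List (Finset (Fin 16))) (hv : v ≠ 0)
    (hz : ∀ i, Third N (s i) → v i = 0)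
    (hP : ∀ μ0 : Fin 16, (univ.filter (fun μ => dot μ v = dot μ0 v)) ∈ P ∨
      (univ.filter (fun μ => dot μ v = - dot μ0 v)) ∈ P)
    (hS : ∀ S ∈ P, ∑ μ ∈ S, (sg μ : ℂ) * rt N (dot μ s) = 0) : NIc N s := by
  refine ⟨v, hv, hz, fun c => ?_⟩
  by_cases hc : ∃ μ0, dot μ0 v = c
  · obtain ⟨μ0, rfl⟩ := hc
    rcases hP μ0 with h | h
    · exact hS _ h
    · rw [mirror, hS _ h, map_zero]
  · have : (univ.filter (fun μ => dot μ v = c)) = ∅ := by
      apply Finset.filter_eq_empty_iff.mpr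
      intro μ _ h
      exact hc ⟨μ, h⟩
    rw [this, Finset.sum_empty]

theorem class_w (N : ℕ) (s w : Fin 6 → ℤ) (u : ℤ) (hu : ¬ (5 : ℤ) ∣ u)
    (h : ∀ i, (5 : ℤ) ∣ s i - u * w i) (hG : Graded N 5 s) (μ0 : Fin 16) :
    ∑ μ ∈ univ.filter (fun μ => (5 : ℤ) ∣ dot μ w - dot μ0 w), (sg μ : ℂ) * rt N (dot μ s) = 0 := by
  have h1 := hG (dot μ0 s)
  have h2 : (univ.filter (fun μ : Fin 16 => ((5 : ℕ) : ℤ) ∣ dot μ s - dot μ0 s))
      = univ.filter (fun μ => (5 : ℤ) ∣ dot μ w - dot μ0 w) := by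
    apply Finset.filter_congr
    intro μ _
    have ha := dvd_dot 5 s (fun i => u * w i) h μ
    have hb := dvd_dot 5 s (fun i => u * w i) h μ0
    rw [dot_smul] at ha hb
    have hp : Prime (5 : ℤ) := by norm_num
    push_cast
    constructor
    · intro hd
      have : (5 : ℤ) ∣ u * (dot μ w - dot μ0 w) := by
        have : u * (dot μ w - dot μ0 w) = (dot μ s - dot μ0 s) - (dot μ s - u * dot μ w)
          + (dot μ0 s - u * dot μ0 w) := by ring
        rw [this]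
        exact dvd_add (dvd_sub hd ha) hb
      rcases hp.dvd_or_dvd this with h' | h'
      · exact absurd h' hu
      · exact h'
    · intro hd
      have : dot μ s - dot μ0 s = u * (dot μ w - dot μ0 w) + (dot μ s - u * dot μ w)
          - (dot μ0 s - u * dot μ0 w) := by ring
      rw [this]
      exact dvd_sub (dvd_add (hd.mul_left u) ha) hb
  rw [h2] at h1
  exact h1

theorem third_dvd (N : ℕ) (h5 : 5 ∣ N) (k : ℤ) (h : Third N k) : (5 : ℤ) ∣ k := by
  have h1 : (5 : ℤ) ∣ N := by exact_mod_cast h5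
  have h2 := h1.trans h.1
  omega

/-- inverse monomials -/
theorem t_inv (N : ℕ) (s : Fin 6 → ℤ) (μ : Fin 16) :
    rt N (dot (opp μ) s) = (rt N (dot μ s))⁻¹ := by
  rw [dot_opp, rt_neg]

theorem prod_left (N : ℕ) (s : Fin 6 → ℤ) :
    rt N (dot 0 s) = rt N (dot 1 s) * rt N (dot 2 s) * rt N (dot 4 s) := by
  rw [← rt_add, ← rt_add]
  congr 1
  simp [dot]
  ring

theorem prod_right (N : ℕ) (s : Fin 6 → ℤ) :
    rt N (dot 8 s) = rt N (dot 9 s) * rt N (dot 10 s) * rt N (dot 12 s) := by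
  rw [← rt_add, ← rt_add]
  congr 1
  simp [dot]
  ring

theorem pat1 (N : ℕ) (h5 : 5 ∣ N) (s : Fin 6 → ℤ) (u : ℤ) (hu : ¬ (5 : ℤ) ∣ u)
    (h : ∀ i, (5 : ℤ) ∣ s i - u * ![1, 1, 1, 1, 1, 2] i) (hG : Graded N 5 s) : NIc N s := by
  have c1 := class_w N s _ u hu h hG 9
  have c2 := class_w N s _ u hu h hG 1
  have c3 := class_w N s _ u hu h hG 7
  rw [show (univ.filter (fun μ => (5 : ℤ) ∣ dot μ ![1, 1, 1, 1, 1, 2] - dot 9 ![1, 1, 1, 1, 1, 2]))
    = {9, 14} by decide] at c1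
  rw [show (univ.filter (fun μ => (5 : ℤ) ∣ dot μ ![1, 1, 1, 1, 1, 2] - dot 1 ![1, 1, 1, 1, 1, 2]))
    = {1, 2, 4, 15} by decide] at c2
  rw [show (univ.filter (fun μ => (5 : ℤ) ∣ dot μ ![1, 1, 1, 1, 1, 2] - dot 7 ![1, 1, 1, 1, 1, 2]))
    = {7, 10, 12} by decide] at c3
  have hz : ∀ i, ¬ Third N (s i) := by
    intro i hi
    have h1 := third_dvd N h5 _ hi
    have h2 := h i
    fin_cases i <;> simp at h1 h2 <;> omega
  have c2' : rt N (dot 1 s) + rt N (dot 2 s) + rt N (dot 4 s) + (-rt N (dot 15 s)) = 0 := by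
    rw [← c2]
    simp [Finset.sum_insert, sg]
    ring
  rcases four_unit _ _ _ _ (norm_rt _ _) (norm_rt _ _) (norm_rt _ _)
      (by rw [norm_neg, norm_rt]) c2' with ⟨p, q⟩ | ⟨p, q⟩ | ⟨p, q⟩
  · refine nic_intro N s ![2, -3, -3, 2, 2, 4] [{4, 15}, {1, 2}, {7, 10, 12}, {9, 14}]
      (by decide) (fun i hi => absurd hi (hz i)) (by decide) ?_
    simp only [List.mem_cons, List.not_mem_nil, or_false, forall_eq_or_imp, forall_eq]
    refine ⟨?_, ?_, c3, c1⟩
    · simp [Finset.sum_insert, sg]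
      linear_combination q
    · simp [Finset.sum_insert, sg]
      linear_combination p
  · refine nic_intro N s ![-3, 2, -3, 2, 2, 4] [{2, 15}, {1, 4}, {7, 10, 12}, {9, 14}]
      (by decide) (fun i hi => absurd hi (hz i)) (by decide) ?_
    simp only [List.mem_cons, List.not_mem_nil, or_false, forall_eq_or_imp, forall_eq]
    refine ⟨?_, ?_, c3, c1⟩
    · simp [Finset.sum_insert, sg]
      linear_combination q
    · simp [Finset.sum_insert, sg]
      linear_combination p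
  · refine nic_intro N s ![-3, -3, 2, 2, 2, 4] [{1, 15}, {2, 4}, {7, 10, 12}, {9, 14}]
      (by decide) (fun i hi => absurd hi (hz i)) (by decide) ?_
    simp only [List.mem_cons, List.not_mem_nil, or_false, forall_eq_or_imp, forall_eq]
    refine ⟨?_, ?_, c3, c1⟩
    · simp [Finset.sum_insert, sg]
      linear_combination p
    · simp [Finset.sum_insert, sg]
      linear_combination q

theorem pat2 (N : ℕ) (h5 : 5 ∣ N) (s : Fin 6 → ℤ) (u : ℤ) (hu : ¬ (5 : ℤ) ∣ u)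
    (h : ∀ i, (5 : ℤ) ∣ s i - u * ![1, 1, 1, 2, 2, 2] i) (hG : Graded N 5 s) : NIc N s := by
  have c1 := class_w N s _ u hu h hG 1
  have c2 := class_w N s _ u hu h hG 7
  rw [show (univ.filter (fun μ => (5 : ℤ) ∣ dot μ ![1, 1, 1, 2, 2, 2] - dot 1 ![1, 1, 1, 2, 2, 2]))
    = {1, 2, 4, 8} by decide] at c1
  rw [show (univ.filter (fun μ => (5 : ℤ) ∣ dot μ ![1, 1, 1, 2, 2, 2] - dot 7 ![1, 1, 1, 2, 2, 2]))
    = {7, 9, 10, 12} by decide] at c2
  have hz : ∀ i, ¬ Third N (s i) := by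
    intro i hi
    have h1 := third_dvd N h5 _ hi
    have h2 := h i
    fin_cases i <;> simp at h1 h2 <;> omega
  have c1' : rt N (dot 1 s) + rt N (dot 2 s) + rt N (dot 4 s) + (-rt N (dot 8 s)) = 0 := by
    rw [← c1]
    simp [Finset.sum_insert, sg]
    ring
  have c2' : rt N (dot 9 s) + rt N (dot 10 s) + rt N (dot 12 s) + (-rt N (dot 7 s)) = 0 := by
    rw [← neg_eq_zero, ← c2]
    simp [Finset.sum_insert, sg]
    ring
  rcases four_unit _ _ _ _ (norm_rt _ _) (norm_rt _ _) (norm_rt _ _)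
      (by rw [norm_neg, norm_rt]) c1' with ⟨p, q⟩ | ⟨p, q⟩ | ⟨p, q⟩ <;>
  rcases four_unit _ _ _ _ (norm_rt _ _) (norm_rt _ _) (norm_rt _ _)
      (by rw [norm_neg, norm_rt]) c2' with ⟨p', q'⟩ | ⟨p', q'⟩ | ⟨p', q'⟩
  · have e1 : rt N (dot 0 s) = rt N (dot 11 s) := by
      have a1 := t_inv N s 7
      have a2 := t_inv N s 12
      have a3 : rt N (dot 7 s) = rt N (dot 12 s) := by linear_combination -q'
      rw [show opp 7 = 0 from rfl] at a1
      rw [show opp 12 = 11 from rfl] at a2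
      rw [a1, a2, a3]
    have e2 : rt N (dot 6 s) + rt N (dot 5 s) = 0 := by
      have a1 := t_inv N s 1
      have a2 := t_inv N s 2
      have a3 : rt N (dot 1 s) = - rt N (dot 2 s) := by linear_combination p
      rw [show opp 1 = 6 from rfl] at a1
      rw [show opp 2 = 5 from rfl] at a2
      rw [a1, a2, a3, inv_neg, neg_add_cancel]
    refine nic_intro N s ![0, 1, 1, 2, 0, 0] [{0, 4, 8, 9, 10, 11}, {1, 2, 5, 6}]
      (by decide) (fun i hi => absurd hi (hz i)) (by decide) ?_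
    simp only [List.mem_cons, List.not_mem_nil, or_false, forall_eq_or_imp, forall_eq]
    refine ⟨?_, ?_⟩
    · simp [Finset.sum_insert, sg]
      linear_combination q - p' + e1
    · simp [Finset.sum_insert, sg]
      linear_combination p + e2
  · have e1 : rt N (dot 0 s) = rt N (dot 13 s) := by
      have a1 := t_inv N s 7
      have a2 := t_inv N s 10
      have a3 : rt N (dot 7 s) = rt N (dot 10 s) := by linear_combination -q'
      rw [show opp 7 = 0 from rfl] at a1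
      rw [show opp 10 = 13 from rfl] at a2
      rw [a1, a2, a3]
    have e2 : rt N (dot 6 s) + rt N (dot 5 s) = 0 := by
      have a1 := t_inv N s 1
      have a2 := t_inv N s 2
      have a3 : rt N (dot 1 s) = - rt N (dot 2 s) := by linear_combination p
      rw [show opp 1 = 6 from rfl] at a1
      rw [show opp 2 = 5 from rfl] at a2
      rw [a1, a2, a3, inv_neg, neg_add_cancel]
    refine nic_intro N s ![0, 1, 1, 0, 2, 0] [{0, 4, 8, 9, 12, 13}, {1, 2, 5, 6}]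
      (by decide) (fun i hi => absurd hi (hz i)) (by decide) ?_
    simp only [List.mem_cons, List.not_mem_nil, or_false, forall_eq_or_imp, forall_eq]
    refine ⟨?_, ?_⟩
    · simp [Finset.sum_insert, sg]
      linear_combination q - p' + e1
    · simp [Finset.sum_insert, sg]
      linear_combination p + e2
  · have e1 : rt N (dot 0 s) = rt N (dot 14 s) := by
      have a1 := t_inv N s 7
      have a2 := t_inv N s 9
      have a3 : rt N (dot 7 s) = rt N (dot 9 s) := by linear_combination -p'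
      rw [show opp 7 = 0 from rfl] at a1
      rw [show opp 9 = 14 from rfl] at a2
      rw [a1, a2, a3]
    have e2 : rt N (dot 6 s) + rt N (dot 5 s) = 0 := by
      have a1 := t_inv N s 1
      have a2 := t_inv N s 2
      have a3 : rt N (dot 1 s) = - rt N (dot 2 s) := by linear_combination p
      rw [show opp 1 = 6 from rfl] at a1
      rw [show opp 2 = 5 from rfl] at a2
      rw [a1, a2, a3, inv_neg, neg_add_cancel]
    refine nic_intro N s ![0, 1, 1, 0, 0, 2] [{0, 4, 8, 10, 12, 14}, {1, 2, 5, 6}]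
      (by decide) (fun i hi => absurd hi (hz i)) (by decide) ?_
    simp only [List.mem_cons, List.not_mem_nil, or_false, forall_eq_or_imp, forall_eq]
    refine ⟨?_, ?_⟩
    · simp [Finset.sum_insert, sg]
      linear_combination q - q' + e1
    · simp [Finset.sum_insert, sg]
      linear_combination p + e2
  · have e1 : rt N (dot 0 s) = rt N (dot 11 s) := by
      have a1 := t_inv N s 7
      have a2 := t_inv N s 12
      have a3 : rt N (dot 7 s) = rt N (dot 12 s) := by linear_combination -q'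
      rw [show opp 7 = 0 from rfl] at a1
      rw [show opp 12 = 11 from rfl] at a2
      rw [a1, a2, a3]
    have e2 : rt N (dot 6 s) + rt N (dot 3 s) = 0 := by
      have a1 := t_inv N s 1
      have a2 := t_inv N s 4
      have a3 : rt N (dot 1 s) = - rt N (dot 4 s) := by linear_combination p
      rw [show opp 1 = 6 from rfl] at a1
      rw [show opp 4 = 3 from rfl] at a2
      rw [a1, a2, a3, inv_neg, neg_add_cancel]
    refine nic_intro N s ![1, 0, 1, 2, 0, 0] [{0, 2, 8, 9, 10, 11}, {1, 3, 4, 6}]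
      (by decide) (fun i hi => absurd hi (hz i)) (by decide) ?_
    simp only [List.mem_cons, List.not_mem_nil, or_false, forall_eq_or_imp, forall_eq]
    refine ⟨?_, ?_⟩
    · simp [Finset.sum_insert, sg]
      linear_combination q - p' + e1
    · simp [Finset.sum_insert, sg]
      linear_combination p + e2
  · have e1 : rt N (dot 0 s) = rt N (dot 13 s) := by
      have a1 := t_inv N s 7
      have a2 := t_inv N s 10
      have a3 : rt N (dot 7 s) = rt N (dot 10 s) := by linear_combination -q'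
      rw [show opp 7 = 0 from rfl] at a1
      rw [show opp 10 = 13 from rfl] at a2
      rw [a1, a2, a3]
    have e2 : rt N (dot 6 s) + rt N (dot 3 s) = 0 := by
      have a1 := t_inv N s 1
      have a2 := t_inv N s 4
      have a3 : rt N (dot 1 s) = - rt N (dot 4 s) := by linear_combination p
      rw [show opp 1 = 6 from rfl] at a1
      rw [show opp 4 = 3 from rfl] at a2
      rw [a1, a2, a3, inv_neg, neg_add_cancel]
    refine nic_intro N s ![1, 0, 1, 0, 2, 0] [{0, 2, 8, 9, 12, 13}, {1, 3, 4, 6}]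
      (by decide) (fun i hi => absurd hi (hz i)) (by decide) ?_
    simp only [List.mem_cons, List.not_mem_nil, or_false, forall_eq_or_imp, forall_eq]
    refine ⟨?_, ?_⟩
    · simp [Finset.sum_insert, sg]
      linear_combination q - p' + e1
    · simp [Finset.sum_insert, sg]
      linear_combination p + e2
  · have e1 : rt N (dot 0 s) = rt N (dot 14 s) := by
      have a1 := t_inv N s 7
      have a2 := t_inv N s 9
      have a3 : rt N (dot 7 s) = rt N (dot 9 s) := by linear_combination -p'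
      rw [show opp 7 = 0 from rfl] at a1
      rw [show opp 9 = 14 from rfl] at a2
      rw [a1, a2, a3]
    have e2 : rt N (dot 6 s) + rt N (dot 3 s) = 0 := by
      have a1 := t_inv N s 1
      have a2 := t_inv N s 4
      have a3 : rt N (dot 1 s) = - rt N (dot 4 s) := by linear_combination p
      rw [show opp 1 = 6 from rfl] at a1
      rw [show opp 4 = 3 from rfl] at a2
      rw [a1, a2, a3, inv_neg, neg_add_cancel]
    refine nic_intro N s ![1, 0, 1, 0, 0, 2] [{0, 2, 8, 10, 12, 14}, {1, 3, 4, 6}]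
      (by decide) (fun i hi => absurd hi (hz i)) (by decide) ?_
    simp only [List.mem_cons, List.not_mem_nil, or_false, forall_eq_or_imp, forall_eq]
    refine ⟨?_, ?_⟩
    · simp [Finset.sum_insert, sg]
      linear_combination q - q' + e1
    · simp [Finset.sum_insert, sg]
      linear_combination p + e2
  · have e1 : rt N (dot 0 s) = rt N (dot 11 s) := by
      have a1 := t_inv N s 7
      have a2 := t_inv N s 12
      have a3 : rt N (dot 7 s) = rt N (dot 12 s) := by linear_combination -q'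
      rw [show opp 7 = 0 from rfl] at a1
      rw [show opp 12 = 11 from rfl] at a2
      rw [a1, a2, a3]
    have e2 : rt N (dot 5 s) + rt N (dot 3 s) = 0 := by
      have a1 := t_inv N s 2
      have a2 := t_inv N s 4
      have a3 : rt N (dot 2 s) = - rt N (dot 4 s) := by linear_combination q
      rw [show opp 2 = 5 from rfl] at a1
      rw [show opp 4 = 3 from rfl] at a2
      rw [a1, a2, a3, inv_neg, neg_add_cancel]
    refine nic_intro N s ![1, 1, 0, 2, 0, 0] [{0, 1, 8, 9, 10, 11}, {2, 3, 4, 5}]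
      (by decide) (fun i hi => absurd hi (hz i)) (by decide) ?_
    simp only [List.mem_cons, List.not_mem_nil, or_false, forall_eq_or_imp, forall_eq]
    refine ⟨?_, ?_⟩
    · simp [Finset.sum_insert, sg]
      linear_combination p - p' + e1
    · simp [Finset.sum_insert, sg]
      linear_combination q + e2
  · have e1 : rt N (dot 0 s) = rt N (dot 13 s) := by
      have a1 := t_inv N s 7
      have a2 := t_inv N s 10
      have a3 : rt N (dot 7 s) = rt N (dot 10 s) := by linear_combination -q'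
      rw [show opp 7 = 0 from rfl] at a1
      rw [show opp 10 = 13 from rfl] at a2
      rw [a1, a2, a3]
    have e2 : rt N (dot 5 s) + rt N (dot 3 s) = 0 := by
      have a1 := t_inv N s 2
      have a2 := t_inv N s 4
      have a3 : rt N (dot 2 s) = - rt N (dot 4 s) := by linear_combination q
      rw [show opp 2 = 5 from rfl] at a1
      rw [show opp 4 = 3 from rfl] at a2
      rw [a1, a2, a3, inv_neg, neg_add_cancel]
    refine nic_intro N s ![1, 1, 0, 0, 2, 0] [{0, 1, 8, 9, 12, 13}, {2, 3, 4, 5}]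
      (by decide) (fun i hi => absurd hi (hz i)) (by decide) ?_
    simp only [List.mem_cons, List.not_mem_nil, or_false, forall_eq_or_imp, forall_eq]
    refine ⟨?_, ?_⟩
    · simp [Finset.sum_insert, sg]
      linear_combination p - p' + e1
    · simp [Finset.sum_insert, sg]
      linear_combination q + e2
  · have e1 : rt N (dot 0 s) = rt N (dot 14 s) := by
      have a1 := t_inv N s 7
      have a2 := t_inv N s 9
      have a3 : rt N (dot 7 s) = rt N (dot 9 s) := by linear_combination -p'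
      rw [show opp 7 = 0 from rfl] at a1
      rw [show opp 9 = 14 from rfl] at a2
      rw [a1, a2, a3]
    have e2 : rt N (dot 5 s) + rt N (dot 3 s) = 0 := by
      have a1 := t_inv N s 2
      have a2 := t_inv N s 4
      have a3 : rt N (dot 2 s) = - rt N (dot 4 s) := by linear_combination q
      rw [show opp 2 = 5 from rfl] at a1
      rw [show opp 4 = 3 from rfl] at a2
      rw [a1, a2, a3, inv_neg, neg_add_cancel]
    refine nic_intro N s ![1, 1, 0, 0, 0, 2] [{0, 1, 8, 10, 12, 14}, {2, 3, 4, 5}]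
      (by decide) (fun i hi => absurd hi (hz i)) (by decide) ?_
    simp only [List.mem_cons, List.not_mem_nil, or_false, forall_eq_or_imp, forall_eq]
    refine ⟨?_, ?_⟩
    · simp [Finset.sum_insert, sg]
      linear_combination p - q' + e1
    · simp [Finset.sum_insert, sg]
      linear_combination q + e2

theorem pat3 (N : ℕ) (h5 : 5 ∣ N) (s : Fin 6 → ℤ) (u : ℤ) (hu : ¬ (5 : ℤ) ∣ u)
    (h : ∀ i, (5 : ℤ) ∣ s i - u * ![1, 1, 2, 1, 2, 2] i) (hG : Graded N 5 s) : NIc N s := by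
  have c1 := class_w N s _ u hu h hG 1
  have c2 := class_w N s _ u hu h hG 0
  have c3 := class_w N s _ u hu h hG 2
  rw [show (univ.filter (fun μ => (5 : ℤ) ∣ dot μ ![1, 1, 2, 1, 2, 2] - dot 1 ![1, 1, 2, 1, 2, 2]))
    = {1, 6, 8, 15} by decide] at c1
  rw [show (univ.filter (fun μ => (5 : ℤ) ∣ dot μ ![1, 1, 2, 1, 2, 2] - dot 0 ![1, 1, 2, 1, 2, 2]))
    = {0, 13, 14} by decide] at c2
  rw [show (univ.filter (fun μ => (5 : ℤ) ∣ dot μ ![1, 1, 2, 1, 2, 2] - dot 2 ![1, 1, 2, 1, 2, 2]))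
    = {2, 4, 11} by decide] at c3
  have hz : ∀ i, ¬ Third N (s i) := by
    intro i hi
    have h1 := third_dvd N h5 _ hi
    have h2 := h i
    fin_cases i <;> simp at h1 h2 <;> omega
  have c1' : rt N (dot 1 s) + rt N (dot 6 s) - rt N (dot 8 s) - rt N (dot 15 s) = 0 := by
    rw [← c1]
    simp [Finset.sum_insert, sg]
    ring
  have a1 : rt N (dot 6 s) * rt N (dot 1 s) = 1 := by
    have := t_inv N s 1
    rw [show opp 1 = 6 from rfl] at this
    rw [this, inv_mul_cancel₀ (rt_ne_zero _ _)]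
  have a2 : rt N (dot 15 s) * rt N (dot 8 s) = 1 := by
    have := t_inv N s 8
    rw [show opp 8 = 15 from rfl] at this
    rw [this, inv_mul_cancel₀ (rt_ne_zero _ _)]
  have a3 : (rt N (dot 1 s) - rt N (dot 8 s)) * (rt N (dot 1 s) - rt N (dot 15 s)) = 0 := by
    linear_combination rt N (dot 1 s) * c1' - a1 + a2
  rcases mul_eq_zero.mp a3 with p | p
  · refine nic_intro N s ![1, 1, -3, 1, 2, 2] [{1, 8}, {0, 13, 14}, {2, 4, 11}]
      (by decide) (fun i hi => absurd hi (hz i)) (by decide) ?_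
    simp only [List.mem_cons, List.not_mem_nil, or_false, forall_eq_or_imp, forall_eq]
    refine ⟨?_, c2, c3⟩
    simp [Finset.sum_insert, sg]
    linear_combination p
  · refine nic_intro N s ![-2, -2, 1, 3, 1, 1] [{1, 15}, {0, 13, 14}, {2, 4, 11}]
      (by decide) (fun i hi => absurd hi (hz i)) (by decide) ?_
    simp only [List.mem_cons, List.not_mem_nil, or_false, forall_eq_or_imp, forall_eq]
    refine ⟨?_, c2, c3⟩
    simp [Finset.sum_insert, sg]
    linear_combination p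

theorem pat4 (N : ℕ) (hN : 0 < N) (h5 : 5 ∣ N) (s : Fin 6 → ℤ) (u : ℤ) (hu : ¬ (5 : ℤ) ∣ u)
    (h : ∀ i, (5 : ℤ) ∣ s i - u * ![1, 1, 1, 1, 2, 2] i) (hG : Graded N 5 s) : NIc N s := by
  have c1 := class_w N s _ u hu h hG 8
  have c2 := class_w N s _ u hu h hG 0
  have c3 := class_w N s _ u hu h hG 1
  rw [show (univ.filter (fun μ => (5 : ℤ) ∣ dot μ ![1, 1, 1, 1, 2, 2] - dot 8 ![1, 1, 1, 1, 2, 2]))
    = {8, 15} by decide] at c1
  rw [show (univ.filter (fun μ => (5 : ℤ) ∣ dot μ ![1, 1, 1, 1, 2, 2] - dot 0 ![1, 1, 1, 1, 2, 2]))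
    = {0, 12} by decide] at c2
  rw [show (univ.filter (fun μ => (5 : ℤ) ∣ dot μ ![1, 1, 1, 1, 2, 2] - dot 1 ![1, 1, 1, 1, 2, 2]))
    = {1, 2, 4, 9, 10} by decide] at c3
  have hz : ∀ i, ¬ Third N (s i) := by
    intro i hi
    have h1 := third_dvd N h5 _ hi
    have h2 := h i
    fin_cases i <;> simp at h1 h2 <;> omega
  have c3' : rt N (dot 1 s) + rt N (dot 2 s) + rt N (dot 4 s) - rt N (dot 9 s)
      - rt N (dot 10 s) = 0 := by
    rw [← c3]
    simp [Finset.sum_insert, sg]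
    ring
  have c2' : rt N (dot 0 s) = rt N (dot 12 s) := by
    have : rt N (dot 0 s) - rt N (dot 12 s) = 0 := by
      rw [← c2]
      simp [Finset.sum_insert, sg]
      ring
    exact sub_eq_zero.mp this
  have c1' : rt N (dot 8 s) + rt N (dot 15 s) = 0 := by
    rw [← neg_eq_zero, ← c1]
    simp [Finset.sum_insert, sg]
    ring
  have r2 : ∀ a : ℤ, rt (2 * N) (2 * a) = rt N a := fun a => by
    have := rt_scale N 2 (by norm_num) a
    exact_mod_cast this
  have r3 : ∀ a : ℤ, rt (2 * N) (2 * a + N) = - rt N a := fun a => by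
    rw [rt_add, r2, rt_half N hN, mul_neg, mul_one]
  have x0 : rt (2 * N) ((![2 * dot 1 s, 2 * dot 2 s, 2 * dot 4 s, 2 * dot 9 s + N,
      2 * dot 10 s + N] : Fin 5 → ℤ) 0) = rt N (dot 1 s) := r2 _
  have x1 : rt (2 * N) ((![2 * dot 1 s, 2 * dot 2 s, 2 * dot 4 s, 2 * dot 9 s + N,
      2 * dot 10 s + N] : Fin 5 → ℤ) 1) = rt N (dot 2 s) := r2 _
  have x2 : rt (2 * N) ((![2 * dot 1 s, 2 * dot 2 s, 2 * dot 4 s, 2 * dot 9 s + N,
      2 * dot 10 s + N] : Fin 5 → ℤ) 2) = rt N (dot 4 s) := r2 _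
  have x3 : rt (2 * N) ((![2 * dot 1 s, 2 * dot 2 s, 2 * dot 4 s, 2 * dot 9 s + N,
      2 * dot 10 s + N] : Fin 5 → ℤ) 3) = - rt N (dot 9 s) := r3 _
  have x4 : rt (2 * N) ((![2 * dot 1 s, 2 * dot 2 s, 2 * dot 4 s, 2 * dot 9 s + N,
      2 * dot 10 s + N] : Fin 5 → ℤ) 4) = - rt N (dot 10 s) := r3 _
  rcases five_term (2 * N) (by omega) ![2 * dot 1 s, 2 * dot 2 s, 2 * dot 4 s, 2 * dot 9 s + N,
    2 * dot 10 s + N] (by
      rw [Fin.sum_univ_five, x0, x1, x2, x3, x4]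
      linear_combination c3') with ⟨i, j, hij, hs⟩ | ⟨hp, hd, hpr⟩
  · have key : ∃ i j : Fin 5, i < j ∧ rt (2 * N) ((![2 * dot 1 s, 2 * dot 2 s, 2 * dot 4 s,
        2 * dot 9 s + N, 2 * dot 10 s + N] : Fin 5 → ℤ) i) + rt (2 * N) ((![2 * dot 1 s,
        2 * dot 2 s, 2 * dot 4 s, 2 * dot 9 s + N, 2 * dot 10 s + N] : Fin 5 → ℤ) j) = 0 := by
      rcases lt_or_gt_of_ne hij with hl | hl
      · exact ⟨i, j, hl, hs⟩
      · exact ⟨j, i, hl, by rw [add_comm]; exact hs⟩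
    clear hij hs
    clear i j
    obtain ⟨i, j, hij, hs⟩ := key
    have hcase : (i = 0 ∧ j = 1) ∨ (i = 0 ∧ j = 2) ∨ (i = 0 ∧ j = 3) ∨ (i = 0 ∧ j = 4) ∨
        (i = 1 ∧ j = 2) ∨ (i = 1 ∧ j = 3) ∨ (i = 1 ∧ j = 4) ∨
        (i = 2 ∧ j = 3) ∨ (i = 2 ∧ j = 4) ∨ (i = 3 ∧ j = 4) := by
      have hdec : ∀ i j : Fin 5, i < j → (i = 0 ∧ j = 1) ∨ (i = 0 ∧ j = 2) ∨ (i = 0 ∧ j = 3) ∨
          (i = 0 ∧ j = 4) ∨ (i = 1 ∧ j = 2) ∨ (i = 1 ∧ j = 3) ∨ (i = 1 ∧ j = 4) ∨
          (i = 2 ∧ j = 3) ∨ (i = 2 ∧ j = 4) ∨ (i = 3 ∧ j = 4) := by decide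
      exact hdec i j hij
    rcases hcase with ⟨rfl, rfl⟩ | ⟨rfl, rfl⟩ | ⟨rfl, rfl⟩ | ⟨rfl, rfl⟩ | ⟨rfl, rfl⟩ | ⟨rfl, rfl⟩ |
      ⟨rfl, rfl⟩ | ⟨rfl, rfl⟩ | ⟨rfl, rfl⟩ | ⟨rfl, rfl⟩
    · rw [x0, x1] at hs
      refine nic_intro N s ![6, 1, 1, -4, 2, 2] [{1, 2}, {4, 9, 10}, {0, 12}, {8, 15}]
        (by decide) (fun i hi => absurd hi (hz i)) (by decide) ?_
      simp only [List.mem_cons, List.not_mem_nil, or_false, forall_eq_or_imp, forall_eq]
      refine ⟨?_, ?_, c2, c1⟩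
      · simp [Finset.sum_insert, sg]
        linear_combination hs
      · simp [Finset.sum_insert, sg]
        linear_combination c3' - hs
    · rw [x0, x2] at hs
      refine nic_intro N s ![1, 6, 1, -4, 2, 2] [{1, 4}, {2, 9, 10}, {0, 12}, {8, 15}]
        (by decide) (fun i hi => absurd hi (hz i)) (by decide) ?_
      simp only [List.mem_cons, List.not_mem_nil, or_false, forall_eq_or_imp, forall_eq]
      refine ⟨?_, ?_, c2, c1⟩
      · simp [Finset.sum_insert, sg]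
        linear_combination hs
      · simp [Finset.sum_insert, sg]
        linear_combination c3' - hs
    · rw [x0, x3] at hs
      refine nic_intro N s ![1, 1, -4, 1, 2, -3] [{1, 9}, {2, 4, 10}, {0, 12}, {8, 15}]
        (by decide) (fun i hi => absurd hi (hz i)) (by decide) ?_
      simp only [List.mem_cons, List.not_mem_nil, or_false, forall_eq_or_imp, forall_eq]
      refine ⟨?_, ?_, c2, c1⟩
      · simp [Finset.sum_insert, sg]
        linear_combination hs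
      · simp [Finset.sum_insert, sg]
        linear_combination c3' - hs
    · rw [x0, x4] at hs
      refine nic_intro N s ![1, 1, -4, 1, -3, 2] [{1, 10}, {2, 4, 9}, {0, 12}, {8, 15}]
        (by decide) (fun i hi => absurd hi (hz i)) (by decide) ?_
      simp only [List.mem_cons, List.not_mem_nil, or_false, forall_eq_or_imp, forall_eq]
      refine ⟨?_, ?_, c2, c1⟩
      · simp [Finset.sum_insert, sg]
        linear_combination hs
      · simp [Finset.sum_insert, sg]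
        linear_combination c3' - hs
    · rw [x1, x2] at hs
      refine nic_intro N s ![1, 1, 6, -4, 2, 2] [{2, 4}, {1, 9, 10}, {0, 12}, {8, 15}]
        (by decide) (fun i hi => absurd hi (hz i)) (by decide) ?_
      simp only [List.mem_cons, List.not_mem_nil, or_false, forall_eq_or_imp, forall_eq]
      refine ⟨?_, ?_, c2, c1⟩
      · simp [Finset.sum_insert, sg]
        linear_combination hs
      · simp [Finset.sum_insert, sg]
        linear_combination c3' - hs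
    · rw [x1, x3] at hs
      refine nic_intro N s ![1, -4, 1, 1, 2, -3] [{2, 9}, {1, 4, 10}, {0, 12}, {8, 15}]
        (by decide) (fun i hi => absurd hi (hz i)) (by decide) ?_
      simp only [List.mem_cons, List.not_mem_nil, or_false, forall_eq_or_imp, forall_eq]
      refine ⟨?_, ?_, c2, c1⟩
      · simp [Finset.sum_insert, sg]
        linear_combination hs
      · simp [Finset.sum_insert, sg]
        linear_combination c3' - hs
    · rw [x1, x4] at hs
      refine nic_intro N s ![1, -4, 1, 1, -3, 2] [{2, 10}, {1, 4, 9}, {0, 12}, {8, 15}]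
        (by decide) (fun i hi => absurd hi (hz i)) (by decide) ?_
      simp only [List.mem_cons, List.not_mem_nil, or_false, forall_eq_or_imp, forall_eq]
      refine ⟨?_, ?_, c2, c1⟩
      · simp [Finset.sum_insert, sg]
        linear_combination hs
      · simp [Finset.sum_insert, sg]
        linear_combination c3' - hs
    · rw [x2, x3] at hs
      refine nic_intro N s ![-4, 1, 1, 1, 2, -3] [{4, 9}, {1, 2, 10}, {0, 12}, {8, 15}]
        (by decide) (fun i hi => absurd hi (hz i)) (by decide) ?_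
      simp only [List.mem_cons, List.not_mem_nil, or_false, forall_eq_or_imp, forall_eq]
      refine ⟨?_, ?_, c2, c1⟩
      · simp [Finset.sum_insert, sg]
        linear_combination hs
      · simp [Finset.sum_insert, sg]
        linear_combination c3' - hs
    · rw [x2, x4] at hs
      refine nic_intro N s ![-4, 1, 1, 1, -3, 2] [{4, 10}, {1, 2, 9}, {0, 12}, {8, 15}]
        (by decide) (fun i hi => absurd hi (hz i)) (by decide) ?_
      simp only [List.mem_cons, List.not_mem_nil, or_false, forall_eq_or_imp, forall_eq]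
      refine ⟨?_, ?_, c2, c1⟩
      · simp [Finset.sum_insert, sg]
        linear_combination hs
      · simp [Finset.sum_insert, sg]
        linear_combination c3' - hs
    · rw [x3, x4] at hs
      refine nic_intro N s ![4, 4, 4, -6, 3, 3] [{9, 10}, {1, 2, 4}, {0, 12}, {8, 15}]
        (by decide) (fun i hi => absurd hi (hz i)) (by decide) ?_
      simp only [List.mem_cons, List.not_mem_nil, or_false, forall_eq_or_imp, forall_eq]
      refine ⟨?_, ?_, c2, c1⟩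
      · simp [Finset.sum_insert, sg]
        linear_combination hs
      · simp [Finset.sum_insert, sg]
        linear_combination c3' - hs
  · exfalso
    rw [Fin.prod_univ_five, x0, x1, x2, x3, x4] at hpr
    have hp01 := hp 0 1
    rw [x0, x1] at hp01
    have hd01 := hd 0 1 (by decide)
    rw [x0, x1] at hd01
    have e0 := prod_left N s
    have e8 := prod_right N s
    have a2 : rt N (dot 15 s) * rt N (dot 8 s) = 1 := by
      have := t_inv N s 8
      rw [show opp 8 = 15 from rfl] at this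
      rw [this, inv_mul_cancel₀ (rt_ne_zero _ _)]
    have f1 : rt N (dot 1 s) ^ 5 = rt N (dot 8 s) := by
      rw [← hpr, e8]
      linear_combination -rt N (dot 9 s) * rt N (dot 10 s) * e0
        + rt N (dot 9 s) * rt N (dot 10 s) * c2'
    have f2 : rt N (dot 8 s) ^ 2 = -1 := by
      linear_combination rt N (dot 8 s) * c1' - a2
    have f3 : rt N (dot 1 s) ^ 20 = 1 := by
      calc rt N (dot 1 s) ^ 20 = ((rt N (dot 1 s) ^ 5) ^ 2) ^ 2 := by ring
        _ = 1 := by rw [f1, f2]; norm_num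
    have g1 : (N : ℤ) ∣ 20 * dot 1 s := by
      rw [← rt_eq_one_iff N hN]
      have := rt_mul N 20 (dot 1 s)
      rw [← this] at f3
      exact_mod_cast f3
    have g2 : (N : ℤ) ∣ 5 * (dot 1 s - dot 2 s) := by
      rw [← rt_eq_one_iff N hN]
      have h1 := rt_mul N 5 (dot 1 s - dot 2 s)
      rw [rt_sub, div_pow, hp01, div_self (pow_ne_zero _ (rt_ne_zero _ _))] at h1
      exact_mod_cast h1
    have g3 : ¬ (N : ℤ) ∣ (dot 1 s - dot 2 s) := by
      rw [← rt_eq_iff N hN]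
      exact hd01
    have h0 := h 0
    have h1 := h 1
    have h2 := h 2
    simp at h0 h1 h2
    have g4 : (5 : ℤ) ∣ dot 1 s - dot 2 s := by
      have : dot 1 s - dot 2 s = 2 * (s 1 - s 2) := by simp [dot]; ring
      rw [this]
      omega
    have g5 : ¬ (5 : ℤ) ∣ dot 1 s := by
      have : dot 1 s = s 0 + s 1 - s 2 := by simp [dot]
      rw [this]
      omega
    obtain ⟨n, rfl⟩ := h5
    push_cast at g1 g2 g3
    have g6 : ¬ (5 : ℤ) ∣ n := by
      rintro ⟨k, hk⟩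
      obtain ⟨l, hl⟩ := g1
      rw [hk] at hl
      have h4 : (5 : ℤ) ∣ 4 * dot 1 s := ⟨k * l, by linarith⟩
      apply g5
      omega
    have g7 : (n : ℤ) ∣ dot 1 s - dot 2 s :=
      (mul_dvd_mul_iff_left (by norm_num : (5 : ℤ) ≠ 0)).mp g2
    apply g3
    apply IsCoprime.mul_dvd _ g4 g7
    have hp5 : Prime (5 : ℤ) := by norm_num
    exact (Prime.coprime_iff_not_dvd hp5).mpr g6

/-- table of lifting directions -/
def tab : List ((Fin 6 → ℤ) × (Fin 6 → ℤ)) :=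
  [(![0, 0, 0, 0, 0, 1], ![0, 0, 0, 0, 0, 1]),
   (![0, 0, 0, 0, 0, 2], ![0, 0, 0, 0, 0, 1]),
   (![0, 0, 0, 0, 1, 1], ![0, 0, 0, 0, 1, 1]),
   (![0, 0, 0, 0, 1, 2], ![0, 0, 0, 0, 0, 1]),
   (![0, 0, 0, 0, 2, 2], ![0, 0, 0, 0, 1, 1]),
   (![0, 0, 0, 1, 1, 1], ![0, 0, 0, 1, 1, 1]),
   (![0, 0, 0, 1, 1, 2], ![0, 0, 0, 1, 1, 2]),
   (![0, 0, 0, 1, 2, 2], ![0, 0, 0, -2, 1, 1]),
   (![0, 0, 0, 2, 2, 2], ![0, 0, 0, 1, 1, 1]),
   (![0, 0, 1, 0, 0, 0], ![0, 0, 1, 0, 0, 0]),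
   (![0, 0, 1, 0, 0, 1], ![0, 0, 1, 0, 0, 1]),
   (![0, 0, 1, 0, 0, 2], ![0, 0, 0, 0, 0, 1]),
   (![0, 0, 1, 0, 1, 1], ![0, 0, 1, 0, 0, 0]),
   (![0, 0, 1, 0, 1, 2], ![0, 0, 1, 0, 0, 1]),
   (![0, 0, 1, 0, 2, 2], ![0, 0, -2, 0, 1, 1]),
   (![0, 0, 1, 1, 1, 1], ![0, 0, 1, 1, 1, 1]),
   (![0, 0, 1, 1, 1, 2], ![0, 0, -4, 1, 1, 2]),
   (![0, 0, 1, 1, 2, 2], ![0, 0, -2, -2, 1, 1]),
   (![0, 0, 1, 2, 2, 2], ![0, 0, 3, 1, 1, 1]),
   (![0, 0, 2, 0, 0, 0], ![0, 0, 1, 0, 0, 0]),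
   (![0, 0, 2, 0, 0, 1], ![0, 0, 0, 0, 0, 1]),
   (![0, 0, 2, 0, 0, 2], ![0, 0, 1, 0, 0, 1]),
   (![0, 0, 2, 0, 1, 1], ![0, 0, 2, 0, 1, 1]),
   (![0, 0, 2, 0, 1, 2], ![0, 0, 0, 0, 1, -1]),
   (![0, 0, 2, 0, 2, 2], ![0, 0, 1, 0, 0, 0]),
   (![0, 0, 2, 1, 1, 1], ![0, 0, -3, 1, 1, 1]),
   (![0, 0, 2, 1, 1, 2], ![0, 0, 2, 1, 1, 2]),
   (![0, 0, 2, 1, 2, 2], ![0, 0, -4, -2, 1, 1]),
   (![0, 0, 2, 2, 2, 2], ![0, 0, 1, 1, 1, 1]),
   (![0, 1, 1, 0, 0, 0], ![0, 1, 1, 0, 0, 0]),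
   (![0, 1, 1, 0, 0, 1], ![0, 0, 0, 0, 0, 1]),
   (![0, 1, 1, 0, 0, 2], ![0, 1, 1, 0, 0, 2]),
   (![0, 1, 1, 0, 1, 1], ![0, 1, 1, 0, 1, 1]),
   (![0, 1, 1, 0, 1, 2], ![0, 0, 0, 0, 1, -1]),
   (![0, 1, 1, 0, 2, 2], ![0, 1, 1, 0, 0, 0]),
   (![0, 1, 1, 1, 1, 1], ![0, -3, -3, 2, 2, 2]),
   (![0, 1, 1, 1, 1, 2], ![0, 1, 1, 1, 1, 2]),
   (![0, 1, 1, 1, 2, 2], ![0, -2, -2, -2, 1, 1]),
   (![0, 1, 1, 2, 2, 2], ![0, 1, 1, 2, 2, 2]),
   (![0, 1, 2, 0, 0, 0], ![0, 1, 0, 0, 0, 0]),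
   (![0, 1, 2, 0, 0, 1], ![0, 1, 1, 0, 0, 0]),
   (![0, 1, 2, 0, 0, 2], ![0, 1, 0, 0, 0, -1]),
   (![0, 1, 2, 0, 1, 1], ![0, -1, 1, 0, 0, 0]),
   (![0, 1, 2, 0, 1, 2], ![0, 0, 1, 0, 0, 1]),
   (![0, 1, 2, 0, 2, 2], ![0, 1, 1, 0, 0, 0]),
   (![0, 1, 2, 1, 1, 1], ![0, 1, 2, 1, 1, 1]),
   (![0, 1, 2, 1, 1, 2], ![0, 1, -3, 1, 1, 2]),
   (![0, 1, 2, 1, 2, 2], ![0, 3, 1, -2, 1, 1]),
   (![0, 1, 2, 2, 2, 2], ![0, -2, 1, 1, 1, 1]),
   (![0, 2, 2, 0, 0, 0], ![0, 1, 1, 0, 0, 0]),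
   (![0, 2, 2, 0, 0, 1], ![0, 1, 1, 0, 0, -2]),
   (![0, 2, 2, 0, 0, 2], ![0, 0, 0, 0, 0, 1]),
   (![0, 2, 2, 0, 1, 1], ![0, 1, 1, 0, 0, 0]),
   (![0, 2, 2, 0, 1, 2], ![0, 0, 0, 0, 1, 1]),
   (![0, 2, 2, 0, 2, 2], ![0, 1, 1, 0, 1, 1]),
   (![0, 2, 2, 1, 1, 1], ![0, -1, -1, 2, 2, 2]),
   (![0, 2, 2, 1, 1, 2], ![0, 2, 2, 1, 1, 2]),
   (![0, 2, 2, 1, 2, 2], ![0, 1, 1, -2, 1, 1]),
   (![0, 2, 2, 2, 2, 2], ![0, -3, -3, 2, 2, 2]),
   (![1, 1, 1, 0, 0, 0], ![1, 1, 1, 0, 0, 0]),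
   (![1, 1, 1, 0, 0, 1], ![1, 1, 1, 0, 0, 1]),
   (![1, 1, 1, 0, 0, 2], ![-1, -1, -1, 0, 0, 3]),
   (![1, 1, 1, 0, 1, 1], ![-2, -2, -2, 0, 3, 3]),
   (![1, 1, 1, 0, 1, 2], ![1, 1, 1, 0, 1, 2]),
   (![1, 1, 1, 0, 2, 2], ![-2, -2, -2, 0, 1, 1]),
   (![1, 1, 1, 1, 1, 1], ![1, 1, 1, 1, 1, 1]),
   (![1, 1, 2, 0, 0, 0], ![1, 1, 2, 0, 0, 0]),
   (![1, 1, 2, 0, 0, 1], ![-1, -1, -2, 0, 0, 4]),
   (![1, 1, 2, 0, 0, 2], ![1, 1, 2, 0, 0, 2]),
   (![1, 1, 2, 0, 1, 1], ![1, 1, 2, 0, 1, 1]),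
   (![1, 1, 2, 0, 1, 2], ![-1, -1, -2, 0, -1, 3]),
   (![1, 1, 2, 0, 2, 2], ![1, 1, 2, 0, 2, 2]),
   (![1, 1, 2, 1, 1, 2], ![1, 1, 2, 1, 1, 2]),
   (![1, 2, 2, 0, 0, 0], ![-2, 1, 1, 0, 0, 0]),
   (![1, 2, 2, 0, 0, 1], ![2, -1, -1, 0, 0, 2]),
   (![1, 2, 2, 0, 0, 2], ![2, -1, -1, 0, 0, 4]),
   (![1, 2, 2, 0, 1, 1], ![2, -1, -1, 0, 2, 2]),
   (![1, 2, 2, 0, 1, 2], ![-2, 1, 1, 0, 3, 1]),
   (![1, 2, 2, 0, 2, 2], ![-2, 1, 1, 0, 1, 1]),
   (![1, 2, 2, 1, 2, 2], ![-2, 1, 1, -2, 1, 1]),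
   (![2, 2, 2, 0, 0, 0], ![1, 1, 1, 0, 0, 0]),
   (![2, 2, 2, 0, 0, 1], ![1, 1, 1, 0, 0, 3]),
   (![2, 2, 2, 0, 0, 2], ![1, 1, 1, 0, 0, 1]),
   (![2, 2, 2, 0, 1, 1], ![2, 2, 2, 0, 1, 1]),
   (![2, 2, 2, 0, 1, 2], ![1, 1, 1, 0, -2, 1]),
   (![2, 2, 2, 0, 2, 2], ![-2, -2, -2, 0, 3, 3]),
   (![2, 2, 2, 2, 2, 2], ![1, 1, 1, 1, 1, 1])]

def okb (Q : ℤ) (w v : Fin 6 → ℤ) : Bool :=
  decide (v ≠ 0) && decide (∀ i, w i = 0 → v i = 0) &&
    decide (∀ μ μ' : Fin 16, Q ∣ dot μ w - dot μ' w → dot μ v = dot μ' v)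

theorem okb_spec (Q : ℤ) (w v : Fin 6 → ℤ) (h : okb Q w v = true) :
    v ≠ 0 ∧ (∀ i, w i = 0 → v i = 0) ∧
      ∀ μ μ' : Fin 16, Q ∣ dot μ w - dot μ' w → dot μ v = dot μ' v := by
  unfold okb at h
  rw [Bool.and_eq_true, Bool.and_eq_true] at h
  exact ⟨of_decide_eq_true h.1.1, of_decide_eq_true h.1.2, of_decide_eq_true h.2⟩

def chk (w : Fin 6 → ℤ) : Bool := tab.any (fun e => decide (e.1 = w) && okb 5 w e.2)

/-- the exceptional residues -/
def exl : List (Fin 6 → ℤ) :=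
  [![1, 1, 1, 1, 1, 2], ![1, 1, 1, 1, 2, 2], ![1, 1, 1, 2, 2, 2], ![1, 1, 2, 1, 1, 1],
   ![1, 1, 2, 1, 2, 2], ![1, 1, 2, 2, 2, 2], ![1, 2, 2, 1, 1, 1], ![1, 2, 2, 1, 1, 2],
   ![1, 2, 2, 2, 2, 2], ![2, 2, 2, 1, 1, 1], ![2, 2, 2, 1, 1, 2], ![2, 2, 2, 1, 2, 2]]

set_option maxRecDepth 100000 in
theorem enum : ∀ a b c d e f : Fin 3, a ≤ b → b ≤ c → d ≤ e → e ≤ f →
    (c = 0 ∧ f = 0) ∨ ![(a.val : ℤ), b.val, c.val, d.val, e.val, f.val] ∈ exl ∨
      chk ![(a.val : ℤ), b.val, c.val, d.val, e.val, f.val] = true := by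
  decide +kernel


def sgA : Equiv.Perm (Fin 6) where
  toFun := ![3, 4, 5, 0, 1, 2]
  invFun := ![3, 4, 5, 0, 1, 2]
  left_inv := by decide
  right_inv := by decide

def sgB : Equiv.Perm (Fin 6) where
  toFun := ![3, 4, 5, 2, 1, 0]
  invFun := ![5, 4, 3, 0, 1, 2]
  left_inv := by decide
  right_inv := by decide

def sgC : Equiv.Perm (Fin 6) where
  toFun := ![0, 1, 2, 5, 4, 3]
  invFun := ![0, 1, 2, 5, 4, 3]
  left_inv := by decide
  right_inv := by decide


theorem exc (N : ℕ) (hN : 0 < N) (h5 : 5 ∣ N) (s w : Fin 6 → ℤ) (hw : ∀ i, (5 : ℤ) ∣ s i - w i)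
    (he : w ∈ exl) (hG : Graded N 5 s) : NIc N s := by
  have hw0 := hw 0
  have hw1 := hw 1
  have hw2 := hw 2
  have hw3 := hw 3
  have hw4 := hw 4
  have hw5 := hw 5
  simp only [exl, List.mem_cons, List.not_mem_nil, or_false] at he
  rcases he with rfl | rfl | rfl | rfl | rfl | rfl | rfl | rfl | rfl | rfl | rfl | rfl
  · exact pat1 N h5 s 1 (by norm_num) (fun i => by
      fin_cases i <;> simp at hw0 hw1 hw2 hw3 hw4 hw5 ⊢ <;> omega) hG
  · exact pat4 N hN h5 s 1 (by norm_num) (fun i => by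
      fin_cases i <;> simp at hw0 hw1 hw2 hw3 hw4 hw5 ⊢ <;> omega) hG
  · exact pat2 N h5 s 1 (by norm_num) (fun i => by
      fin_cases i <;> simp at hw0 hw1 hw2 hw3 hw4 hw5 ⊢ <;> omega) hG
  · rw [← nic_sact N sgA ![1, 1, 1, 1, 1, 1] (Or.inr (by unfold SW; decide))]
    exact pat1 N h5 _ 1 (by norm_num) (fun i => by
      fin_cases i <;> simp [sact, sgA] at hw0 hw1 hw2 hw3 hw4 hw5 ⊢ <;> omega)
      ((graded_sact N 5 sgA ![1, 1, 1, 1, 1, 1] (Or.inr (by unfold SW; decide)) s).mpr hG)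
  · exact pat3 N h5 s 1 (by norm_num) (fun i => by
      fin_cases i <;> simp at hw0 hw1 hw2 hw3 hw4 hw5 ⊢ <;> omega) hG
  · rw [← nic_sact N sgB ![1, 1, 1, 1, -1, -1] (Or.inr (by unfold SW; decide))]
    exact pat4 N hN h5 _ 2 (by norm_num) (fun i => by
      fin_cases i <;> simp [sact, sgB] at hw0 hw1 hw2 hw3 hw4 hw5 ⊢ <;> omega)
      ((graded_sact N 5 sgB ![1, 1, 1, 1, -1, -1] (Or.inr (by unfold SW; decide)) s).mpr hG)
  · rw [← nic_sact N sgA ![1, 1, 1, 1, 1, 1] (Or.inr (by unfold SW; decide))]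
    exact pat4 N hN h5 _ 1 (by norm_num) (fun i => by
      fin_cases i <;> simp [sact, sgA] at hw0 hw1 hw2 hw3 hw4 hw5 ⊢ <;> omega)
      ((graded_sact N 5 sgA ![1, 1, 1, 1, 1, 1] (Or.inr (by unfold SW; decide)) s).mpr hG)
  · rw [← nic_sact N sgA ![1, 1, 1, 1, 1, 1] (Or.inr (by unfold SW; decide))]
    exact pat3 N h5 _ 1 (by norm_num) (fun i => by
      fin_cases i <;> simp [sact, sgA] at hw0 hw1 hw2 hw3 hw4 hw5 ⊢ <;> omega)
      ((graded_sact N 5 sgA ![1, 1, 1, 1, 1, 1] (Or.inr (by unfold SW; decide)) s).mpr hG)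
  · rw [← nic_sact N sgB ![1, 1, 1, 1, 1, -1] (Or.inr (by unfold SW; decide))]
    exact pat1 N h5 _ 2 (by norm_num) (fun i => by
      fin_cases i <;> simp [sact, sgB] at hw0 hw1 hw2 hw3 hw4 hw5 ⊢ <;> omega)
      ((graded_sact N 5 sgB ![1, 1, 1, 1, 1, -1] (Or.inr (by unfold SW; decide)) s).mpr hG)
  · rw [← nic_sact N sgA ![1, 1, 1, 1, 1, 1] (Or.inr (by unfold SW; decide))]
    exact pat2 N h5 _ 1 (by norm_num) (fun i => by
      fin_cases i <;> simp [sact, sgA] at hw0 hw1 hw2 hw3 hw4 hw5 ⊢ <;> omega)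
      ((graded_sact N 5 sgA ![1, 1, 1, 1, 1, 1] (Or.inr (by unfold SW; decide)) s).mpr hG)
  · rw [← nic_sact N sgC ![1, 1, 1, 1, -1, -1] (Or.inl (by unfold SP; decide))]
    exact pat4 N hN h5 _ 2 (by norm_num) (fun i => by
      fin_cases i <;> simp [sact, sgC] at hw0 hw1 hw2 hw3 hw4 hw5 ⊢ <;> omega)
      ((graded_sact N 5 sgC ![1, 1, 1, 1, -1, -1] (Or.inl (by unfold SP; decide)) s).mpr hG)
  · rw [← nic_sact N sgC ![1, 1, 1, 1, 1, -1] (Or.inl (by unfold SP; decide))]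
    exact pat1 N h5 _ 2 (by norm_num) (fun i => by
      fin_cases i <;> simp [sact, sgC] at hw0 hw1 hw2 hw3 hw4 hw5 ⊢ <;> omega)
      ((graded_sact N 5 sgC ![1, 1, 1, 1, 1, -1] (Or.inl (by unfold SP; decide)) s).mpr hG)

theorem main_norm (N : ℕ) (hN : 0 < N) (h5 : 5 ∣ N) (s : Fin 6 → ℤ) (hG : Graded N 5 s)
    (hs : ∃ i, ¬ (5 : ℤ) ∣ s i) (hr : ∀ i, 2 * (s i % 5) ≤ 5)
    (h01 : s 0 % 5 ≤ s 1 % 5) (h12 : s 1 % 5 ≤ s 2 % 5) (h34 : s 3 % 5 ≤ s 4 % 5)
    (h45 : s 4 % 5 ≤ s 5 % 5) : NIc N s := by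
  have hb : ∀ i, ∃ a : Fin 3, (a.val : ℤ) = s i % 5 := by
    intro i
    have h1 := hr i
    have h2 : 0 ≤ s i % 5 := Int.emod_nonneg _ (by norm_num)
    refine ⟨⟨(s i % 5).toNat, by omega⟩, ?_⟩
    simp only
    omega
  choose a ha using hb
  have hw : ∀ i, (5 : ℤ) ∣ s i - ![((a 0).val : ℤ), (a 1).val, (a 2).val, (a 3).val, (a 4).val,
      (a 5).val] i := by
    intro i
    have h0 := ha 0
    have h1 := ha 1
    have h2 := ha 2
    have h3 := ha 3
    have h4 := ha 4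
    have h5 := ha 5
    fin_cases i <;> simp <;> omega
  have hle : ∀ i j, s i % 5 ≤ s j % 5 → a i ≤ a j := by
    intro i j hij
    rw [← ha i, ← ha j] at hij
    rw [Fin.le_def]
    exact_mod_cast hij
  rcases enum (a 0) (a 1) (a 2) (a 3) (a 4) (a 5) (hle _ _ h01) (hle _ _ h12) (hle _ _ h34)
    (hle _ _ h45) with hc | hc | hc
  · exfalso
    obtain ⟨i, hi⟩ := hs
    apply hi
    have h2 := ha 2
    have h5 := ha 5
    rw [hc.1] at h2
    rw [hc.2] at h5
    have hn : ∀ i, 0 ≤ s i % 5 := fun i => Int.emod_nonneg _ (by norm_num)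
    have n0 := hn 0
    have n1 := hn 1
    have n3 := hn 3
    have n4 := hn 4
    simp at h2 h5
    fin_cases i <;> simp <;> omega
  · exact exc N hN h5 s _ hw hc hG
  · unfold chk at hc
    rw [List.any_eq_true] at hc
    obtain ⟨e, _, he⟩ := hc
    rw [Bool.and_eq_true] at he
    obtain ⟨hv, h0, hd⟩ := okb_spec _ _ _ he.2
    refine nic_of_graded N 5 s e.2 hv ?_ hG ?_
    · intro i hi
      apply h0
      have h1 := third_dvd N h5 _ hi
      have h2 := hw i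
      have h3 : (5 : ℤ) ∣ ![((a 0).val : ℤ), (a 1).val, (a 2).val, (a 3).val, (a 4).val,
        (a 5).val] i := by omega
      have h4 : ∀ i : Fin 6, 0 ≤ ![((a 0).val : ℤ), (a 1).val, (a 2).val, (a 3).val, (a 4).val,
        (a 5).val] i ∧ ![((a 0).val : ℤ), (a 1).val, (a 2).val, (a 3).val, (a 4).val,
        (a 5).val] i < 3 := by
        intro i
        have := fun j => (a j).isLt
        have t0 := this 0
        have t1 := this 1
        have t2 := this 2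
        have t3 := this 3
        have t4 := this 4
        have t5 := this 5
        fin_cases i <;> simp
      have h5' := h4 i
      omega
    · intro μ μ' hd'
      apply hd
      have h1 := dvd_dot 5 s _ hw μ
      have h2 := dvd_dot 5 s _ hw μ'
      push_cast at hd'
      omega

end G5

/-- **Piece G5.** -/
theorem grad5 (N : ℕ) (hN : 0 < N) (h5 : 5 ∣ N) (s : Fin 6 → ℤ) (hG : Graded N 5 s)
    (hs : ∃ i, ¬ (5 : ℤ) ∣ s i) : NIc N s := by
  obtain ⟨σ, ε, hσ, hr, h01, h12, h34, h45⟩ := exists_norm 5 (by norm_num) s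
  rw [← nic_sact N σ ε (Or.inl hσ)]
  refine G5.main_norm N hN h5 _ ((graded_sact N 5 σ ε (Or.inl hσ) s).mpr hG) ?_ hr h01 h12 h34 h45
  obtain ⟨i, hi⟩ := hs
  refine ⟨σ.symm i, fun hd => hi ?_⟩
  unfold sact at hd
  rw [Equiv.apply_symm_apply] at hd
  rcases Int.units_eq_one_or (ε (σ.symm i)) with he | he
  · rw [he] at hd
    simpa using hd
  · rw [he] at hd
    simpa using hd

end Pool.Agent.TriCos
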