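import Pool.Agent.Lib_MP_6e4ab6_nt.Full.Tab7
import Pool.Agent.Lib_MP_6e4ab6_nt.Full.Short

/-!
# Graded relations modulo 7
-/

namespace Pool.Agent.TriCos

open Finset

/-- class sums for a scaled pattern -/
theorem graded_pattern (N p : ℕ) (hp : p.Prime) (s w : Fin 6 → ℤ) (c : ℤ) (hc : ¬ (p : ℤ) ∣ c)
    (h : ∀ i, (p : ℤ) ∣ s i - c * w i) (hG : Graded N p s) (r : ℤ) :
    ∑ μ, (if (p : ℤ) ∣ dot μ w - r then (sg μ : ℂ) * rt N (dot μ s) else 0) = 0 := by
  rw [← Finset.sum_filter, ← hG (c * r)]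
  refine Finset.sum_congr (Finset.filter_congr fun μ _ => ?_) fun _ _ => rfl
  have h1 := dot_cong p s (fun i => c * w i) h μ
  rw [dot_smul] at h1
  have h2 : dot μ s - c * r = (dot μ s - c * dot μ w) + c * (dot μ w - r) := by ring
  rw [h2, dvd_add_right h1]
  constructor
  · exact fun h3 => Dvd.dvd.mul_left h3 c
  · intro h3
    exact ((Nat.prime_iff_prime_int.1 hp).dvd_or_dvd h3).resolve_left hc

theorem grad7_third (N : ℕ) (h7 : 7 ∣ N) (k : ℤ) (h : Third N k) : (7 : ℤ) ∣ k := by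
  have h1 : (7 : ℤ) ∣ 6 * k := dvd_trans (by exact_mod_cast h7) h.1
  omega

/-- the exceptional pattern -/
theorem grad7_exc (N : ℕ) (h7 : 7 ∣ N) (s : Fin 6 → ℤ) (hG : Graded N 7 s)
    (c : ℤ) (hc : ¬ (7 : ℤ) ∣ c) (h : ∀ i, (7 : ℤ) ∣ s i - c * ![1, 1, 2, 3, 3, 3] i) :
    NIc N s := by
  have hcl := graded_pattern N 7 (by norm_num) s ![1, 1, 2, 3, 3, 3] c hc h hG
  have hT : ∀ i, ¬ Third N (s i) := by
    intro i hi
    have h1 := grad7_third N h7 _ hi
    have h2 := h i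
    have h3 : (7 : ℤ) ∣ c * ![1, 1, 2, 3, 3, 3] i := by
      have := dvd_sub h1 h2
      simpa using this
    rcases (Int.prime_iff_natAbs_prime.2 (by norm_num) : Prime (7 : ℤ)).dvd_or_dvd h3 with h4 | h4
    · exact hc h4
    · fin_cases i <;> revert h4 <;> decide
  have c0 := hcl 0
  have c2 := hcl 2
  have c3 := hcl 3
  have c4 := hcl 4
  have c5 := hcl 5
  simp [Fin.sum_univ_succ, dot, sg] at c0 c2 c3 c4 c5
  have hu := four_unit (rt N (s 3 + s 4 - s 5)) (rt N (s 3 - s 4 + s 5)) (rt N (-s 3 + s 4 + s 5))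
    (-rt N (-s 0 - s 1 - s 2)) (norm_rt _ _) (norm_rt _ _) (norm_rt _ _)
    (by rw [norm_neg, norm_rt]) (by linear_combination -c3)
  have hinv : ∀ x y : ℤ, rt N x + rt N y = 0 → rt N (-x) + rt N (-y) = 0 := by
    intro x y hxy
    rw [rt_neg, rt_neg, eq_neg_of_add_eq_zero_left hxy, inv_neg, neg_add_cancel]
  have hinv2 : ∀ x y : ℤ, rt N x + -rt N y = 0 → rt N (-x) + -rt N (-y) = 0 := by
    intro x y hxy
    rw [rt_neg, rt_neg, eq_of_add_neg_eq_zero hxy, add_neg_cancel]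
  rcases hu with ⟨u1, u2⟩ | ⟨u1, u2⟩ | ⟨u2, u1⟩
  · have w1 : rt N (-s 3 - s 4 + s 5) + rt N (-s 3 + s 4 - s 5) = 0 := by
      convert hinv _ _ u1 using 3 <;> ring
    have w2 : rt N (s 3 - s 4 - s 5) + -rt N (s 0 + s 1 + s 2) = 0 := by
      convert hinv2 _ _ u2 using 3
      · ring
      · congr 1
        ring
    refine ⟨![2, 2, 4, 6, -1, -1], fun h0 => by simpa using congrFun h0 0,
      fun i hi => absurd hi (hT i), fun r => ?_⟩
    rw [Finset.sum_filter]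
    have hr : r = 8 ∨ r = 0 ∨ r = 4 ∨ r = -4 ∨ r = -8 ∨ r = 6 ∨ r = -6 ∨
        (8 ≠ r ∧ 0 ≠ r ∧ 4 ≠ r ∧ -4 ≠ r ∧ -8 ≠ r ∧ 6 ≠ r ∧ -6 ≠ r) := by omega
    rcases hr with rfl | rfl | rfl | rfl | rfl | rfl | rfl | ⟨g1, g2, g3, g4, g5, g6, g7⟩
    · simp [Fin.sum_univ_succ, dot, sg]
      linear_combination -w2
    · simp [Fin.sum_univ_succ, dot, sg]
      linear_combination c0
    · simp [Fin.sum_univ_succ, dot, sg]
      linear_combination c2
    · simp [Fin.sum_univ_succ, dot, sg]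
      linear_combination c5
    · simp [Fin.sum_univ_succ, dot, sg]
      linear_combination -u2
    · simp [Fin.sum_univ_succ, dot, sg]
      linear_combination -u1
    · simp [Fin.sum_univ_succ, dot, sg]
      linear_combination -w1
    · simp [Fin.sum_univ_succ, dot, sg, g1, g2, g3, g4, g5, g6, g7]
  · have w1 : rt N (-s 3 - s 4 + s 5) + rt N (s 3 - s 4 - s 5) = 0 := by
      convert hinv _ _ u1 using 3 <;> ring
    have w2 : rt N (-s 3 + s 4 - s 5) + -rt N (s 0 + s 1 + s 2) = 0 := by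
      convert hinv2 _ _ u2 using 3
      · ring
      · congr 1
        ring
    refine ⟨![2, 2, 4, -1, 6, -1], fun h0 => by simpa using congrFun h0 0,
      fun i hi => absurd hi (hT i), fun r => ?_⟩
    rw [Finset.sum_filter]
    have hr : r = 8 ∨ r = 0 ∨ r = 4 ∨ r = -4 ∨ r = -8 ∨ r = 6 ∨ r = -6 ∨
        (8 ≠ r ∧ 0 ≠ r ∧ 4 ≠ r ∧ -4 ≠ r ∧ -8 ≠ r ∧ 6 ≠ r ∧ -6 ≠ r) := by omega
    rcases hr with rfl | rfl | rfl | rfl | rfl | rfl | rfl | ⟨g1, g2, g3, g4, g5, g6, g7⟩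
    · simp [Fin.sum_univ_succ, dot, sg]
      linear_combination -w2
    · simp [Fin.sum_univ_succ, dot, sg]
      linear_combination c0
    · simp [Fin.sum_univ_succ, dot, sg]
      linear_combination c2
    · simp [Fin.sum_univ_succ, dot, sg]
      linear_combination c5
    · simp [Fin.sum_univ_succ, dot, sg]
      linear_combination -u2
    · simp [Fin.sum_univ_succ, dot, sg]
      linear_combination -u1
    · simp [Fin.sum_univ_succ, dot, sg]
      linear_combination -w1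
    · simp [Fin.sum_univ_succ, dot, sg, g1, g2, g3, g4, g5, g6, g7]
  · have w1 : rt N (-s 3 + s 4 - s 5) + rt N (s 3 - s 4 - s 5) = 0 := by
      convert hinv _ _ u1 using 3 <;> ring
    have w2 : rt N (-s 3 - s 4 + s 5) + -rt N (s 0 + s 1 + s 2) = 0 := by
      convert hinv2 _ _ u2 using 3
      · ring
      · congr 1
        ring
    refine ⟨![2, 2, 4, -1, -1, 6], fun h0 => by simpa using congrFun h0 0,
      fun i hi => absurd hi (hT i), fun r => ?_⟩
    rw [Finset.sum_filter]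
    have hr : r = 8 ∨ r = 0 ∨ r = 4 ∨ r = -4 ∨ r = -8 ∨ r = 6 ∨ r = -6 ∨
        (8 ≠ r ∧ 0 ≠ r ∧ 4 ≠ r ∧ -4 ≠ r ∧ -8 ≠ r ∧ 6 ≠ r ∧ -6 ≠ r) := by omega
    rcases hr with rfl | rfl | rfl | rfl | rfl | rfl | rfl | ⟨g1, g2, g3, g4, g5, g6, g7⟩
    · simp [Fin.sum_univ_succ, dot, sg]
      linear_combination -w2
    · simp [Fin.sum_univ_succ, dot, sg]
      linear_combination c0
    · simp [Fin.sum_univ_succ, dot, sg]
      linear_combination c2
    · simp [Fin.sum_univ_succ, dot, sg]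
      linear_combination c5
    · simp [Fin.sum_univ_succ, dot, sg]
      linear_combination -u2
    · simp [Fin.sum_univ_succ, dot, sg]
      linear_combination -u1
    · simp [Fin.sum_univ_succ, dot, sg]
      linear_combination -w1
    · simp [Fin.sum_univ_succ, dot, sg, g1, g2, g3, g4, g5, g6, g7]

/-- the exceptional pattern up to signed permutation -/
theorem grad7_exc' (N : ℕ) (h7 : 7 ∣ N) (s : Fin 6 → ℤ) (hG : Graded N 7 s)
    (σ : Equiv.Perm (Fin 6)) (ε : Fin 6 → ℤˣ) (hσ : SP σ ∨ SW σ)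
    (c : ℤ) (hc : ¬ (7 : ℤ) ∣ c) (h : ∀ i, (7 : ℤ) ∣ sact σ ε s i - c * ![1, 1, 2, 3, 3, 3] i) :
    NIc N s := by
  rw [← nic_sact N σ ε hσ]
  exact grad7_exc N h7 _ ((graded_sact N 7 σ ε hσ s).2 hG) c hc h

theorem grad7 (N : ℕ) (hN : 0 < N) (h7 : 7 ∣ N) (s : Fin 6 → ℤ) (hG : Graded N 7 s)
    (hs : ∃ i, ¬ (7 : ℤ) ∣ s i) : NIc N s := by
  refine grad_of_table 7 (by norm_num) N (grad7_third N h7) tab7 exc7 all7 s hG ?_ hs
  intro w hw hwp s' hG' hs' hc
  have b0 := hwp 0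
  have b1 := hwp 1
  have b2 := hwp 2
  have b3 := hwp 3
  have b4 := hwp 4
  have b5 := hwp 5
  have d0 := hc 0
  have d1 := hc 1
  have d2 := hc 2
  have d3 := hc 3
  have d4 := hc 4
  have d5 := hc 5
  simp only [exc7, List.mem_cons, List.not_mem_nil, or_false, keyt] at hw
  rcases hw with hw | hw | hw | hw | hw | hw | hw
  · exfalso
    obtain ⟨i, hi⟩ := hs'
    apply hi
    fin_cases i <;> simp <;> omega
  · -- (1,1,1 | 2,2,3)
    refine grad7_exc' N h7 s' hG' ⟨![3, 4, 5, 0, 1, 2], ![3, 4, 5, 0, 1, 2], by decide, by decide⟩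
      ![1, 1, -1, -1, -1, -1] (Or.inr (by unfold SW; decide)) 2 (by decide) fun i => ?_
    fin_cases i <;> simp [sact] <;> omega
  · -- (1,1,2 | 3,3,3)
    refine grad7_exc' N h7 s' hG' 1 1 (Or.inl fun _ => Iff.rfl) 1 (by decide) fun i => ?_
    fin_cases i <;> simp [sact] <;> omega
  · -- (1,3,3 | 2,2,2)
    refine grad7_exc' N h7 s' hG' ⟨![1, 2, 0, 3, 4, 5], ![2, 0, 1, 3, 4, 5], by decide, by decide⟩
      ![1, 1, -1, 1, 1, 1] (Or.inl (by unfold SP; decide)) 3 (by decide) fun i => ?_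
    fin_cases i <;> simp [sact] <;> omega
  · -- (2,2,2 | 1,3,3)
    refine grad7_exc' N h7 s' hG' ⟨![4, 5, 3, 0, 1, 2], ![3, 4, 5, 2, 0, 1], by decide, by decide⟩
      ![1, 1, -1, 1, 1, 1] (Or.inr (by unfold SW; decide)) 3 (by decide) fun i => ?_
    fin_cases i <;> simp [sact] <;> omega
  · -- (2,2,3 | 1,1,1)
    refine grad7_exc' N h7 s' hG' 1
      ![1, 1, -1, -1, -1, -1] (Or.inl fun _ => Iff.rfl) 2 (by decide) fun i => ?_
    fin_cases i <;> simp [sact] <;> omega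
  · -- (3,3,3 | 1,1,2)
    refine grad7_exc' N h7 s' hG' ⟨![3, 4, 5, 0, 1, 2], ![3, 4, 5, 0, 1, 2], by decide, by decide⟩
      1 (Or.inr (by unfold SW; decide)) 1 (by decide) fun i => ?_
    fin_cases i <;> simp [sact] <;> omega

end Pool.Agent.TriCos
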