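import Pool.Agent.Lib_MP_6e4ab6_nt.Full.Rt
import Pool.Agent.Lib_MP_6e4ab6_nt.Full.Sym

/-!
# Tables of directions modulo a small prime: generic part
-/

namespace Pool.Agent.TriCos

open Finset

/-- the sixteen pairs of values -/
def dz (a b c d e f a' b' c' d' e' f' : ℤ) : List (ℤ × ℤ) :=
  [(a + b + c, a' + b' + c'), (a + b - c, a' + b' - c'), (a - b + c, a' - b' + c'),
    (a - b - c, a' - b' - c'), (- a + b + c, - a' + b' + c'), (- a + b - c, - a' + b' - c'),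
    (- a - b + c, - a' - b' + c'), (- a - b - c, - a' - b' - c'),
    (d + e + f, d' + e' + f'), (d + e - f, d' + e' - f'), (d - e + f, d' - e' + f'),
    (d - e - f, d' - e' - f'), (- d + e + f, - d' + e' + f'), (- d + e - f, - d' + e' - f'),
    (- d - e + f, - d' - e' + f'), (- d - e - f, - d' - e' - f')]

/-- equal residues have equal values -/
def chkP (Q : ℤ) (l : List (ℤ × ℤ)) : Bool :=
  l.all fun p => l.all fun q => ((p.1 - q.1) % Q != 0) || (p.2 == q.2)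

/-- the test of a direction -/
def okv (Q a b c d e f a' b' c' d' e' f' : ℤ) : Bool :=
  chkP Q (dz a b c d e f a' b' c' d' e' f') &&
  (a' != 0 || b' != 0 || c' != 0 || d' != 0 || e' != 0 || f' != 0) &&
  (a != 0 || a' == 0) && (b != 0 || b' == 0) && (c != 0 || c' == 0) &&
  (d != 0 || d' == 0) && (e != 0 || e' == 0) && (f != 0 || f' == 0)

/-- the code of six small numbers -/
def keyt (a b c d e f : ℕ) : ℕ := a + 8 * b + 64 * c + 512 * d + 4096 * e + 32768 * f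

/-- the test of one vector of residues, with the table `T` and the exceptions `E` -/
def testT (Q : ℤ) (T : List (ℕ × ℤ × ℤ × ℤ × ℤ × ℤ × ℤ)) (E : List ℕ) (a b c d e f : ℕ) : Bool :=
  !(a.ble b && b.ble c && d.ble e && e.ble f) || E.any (fun k => k == keyt a b c d e f) ||
    T.any (fun t => t.1 == keyt a b c d e f &&
      okv Q a b c d e f t.2.1 t.2.2.1 t.2.2.2.1 t.2.2.2.2.1 t.2.2.2.2.2.1 t.2.2.2.2.2.2)

theorem mem_dz (w v : Fin 6 → ℤ) (μ : Fin 16) : (dot μ w, dot μ v) ∈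
    dz (w 0) (w 1) (w 2) (w 3) (w 4) (w 5) (v 0) (v 1) (v 2) (v 3) (v 4) (v 5) := by
  fin_cases μ <;> simp [dot, dz]

theorem of_okv (Q : ℤ) (w v : Fin 6 → ℤ)
    (h : okv Q (w 0) (w 1) (w 2) (w 3) (w 4) (w 5) (v 0) (v 1) (v 2) (v 3) (v 4) (v 5) = true) :
    v ≠ 0 ∧ (∀ i, w i = 0 → v i = 0) ∧
      ∀ μ μ' : Fin 16, Q ∣ dot μ w - dot μ' w → dot μ v = dot μ' v := by
  unfold okv at h
  simp only [Bool.and_eq_true, Bool.or_eq_true, bne_iff_ne, beq_iff_eq] at h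
  obtain ⟨⟨⟨⟨⟨⟨⟨h1, h2⟩, h3⟩, h4⟩, h5⟩, h6⟩, h7⟩, h8⟩ := h
  refine ⟨?_, ?_, ?_⟩
  · rintro rfl
    simp at h2
  · intro i
    fin_cases i
    · intro h0; exact h3.resolve_left (not_not.2 h0)
    · intro h0; exact h4.resolve_left (not_not.2 h0)
    · intro h0; exact h5.resolve_left (not_not.2 h0)
    · intro h0; exact h6.resolve_left (not_not.2 h0)
    · intro h0; exact h7.resolve_left (not_not.2 h0)
    · intro h0; exact h8.resolve_left (not_not.2 h0)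
  · intro μ μ' hd
    unfold chkP at h1
    rw [List.all_eq_true] at h1
    have h9 := h1 _ (mem_dz w v μ)
    rw [List.all_eq_true] at h9
    have h10 := h9 _ (mem_dz w v μ')
    simp only [Bool.or_eq_true, bne_iff_ne, beq_iff_eq] at h10
    exact h10.resolve_left (not_not.2 (Int.emod_eq_zero_of_dvd hd))

theorem of_testT (Q : ℤ) (T : List (ℕ × ℤ × ℤ × ℤ × ℤ × ℤ × ℤ)) (E : List ℕ) (w : Fin 6 → ℕ)
    (h : testT Q T E (w 0) (w 1) (w 2) (w 3) (w 4) (w 5) = true)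
    (h01 : w 0 ≤ w 1) (h12 : w 1 ≤ w 2) (h34 : w 3 ≤ w 4) (h45 : w 4 ≤ w 5)
    (hE : keyt (w 0) (w 1) (w 2) (w 3) (w 4) (w 5) ∉ E) :
    ∃ v : Fin 6 → ℤ, v ≠ 0 ∧ (∀ i, (w i : ℤ) = 0 → v i = 0) ∧
      ∀ μ μ' : Fin 16, Q ∣ dot μ (fun i => (w i : ℤ)) - dot μ' (fun i => (w i : ℤ)) →
        dot μ v = dot μ' v := by
  unfold testT at h
  simp only [Nat.ble_eq_true_of_le h01, Nat.ble_eq_true_of_le h12, Nat.ble_eq_true_of_le h34,
    Nat.ble_eq_true_of_le h45, Bool.and_self, Bool.not_true, Bool.false_or, Bool.or_eq_true,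
    List.any_eq_true, Bool.and_eq_true, beq_iff_eq] at h
  rcases h with ⟨k, hk, hk2⟩ | ⟨t, ht, ht2, ht3⟩
  · exact absurd (hk2 ▸ hk) hE
  · refine ⟨![t.2.1, t.2.2.1, t.2.2.2.1, t.2.2.2.2.1, t.2.2.2.2.2.1, t.2.2.2.2.2.2], ?_⟩
    exact of_okv Q (fun i => (w i : ℤ)) _ ht3

/-- `dot` is compatible with congruences -/
theorem dot_cong (Q : ℤ) (s w : Fin 6 → ℤ) (h : ∀ i, Q ∣ s i - w i) (μ : Fin 16) :
    Q ∣ dot μ s - dot μ w := by
  have e : ∀ i, ∃ c, s i = w i + Q * c := fun i => by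
    obtain ⟨c, hc⟩ := h i
    exact ⟨c, by linarith⟩
  choose c hc using e
  have : dot μ s - dot μ w = Q * dot μ c := by
    fin_cases μ <;> simp [dot, hc] <;> ring
  rw [this]
  exact Dvd.intro _ rfl

theorem dot_smul (μ : Fin 16) (c : ℤ) (w : Fin 6 → ℤ) : dot μ (fun i => c * w i) = c * dot μ w := by
  fin_cases μ <;> simp [dot] <;> ring

/-- the generic step: a table for the prime `p` -/
theorem grad_of_table (p : ℕ) (hp : 0 < p) (N : ℕ) (hN6 : ∀ k : ℤ, Third N k → (p : ℤ) ∣ k)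
    (T : List (ℕ × ℤ × ℤ × ℤ × ℤ × ℤ × ℤ)) (E : List ℕ)
    (hall : ∀ a b c d e f : Fin (p / 2 + 1), testT p T E a b c d e f = true)
    (s : Fin 6 → ℤ) (hG : Graded N p s)
    (hex : ∀ w : Fin 6 → ℕ, keyt (w 0) (w 1) (w 2) (w 3) (w 4) (w 5) ∈ E →
      (∀ i, w i ≤ p / 2) → ∀ s' : Fin 6 → ℤ, Graded N p s' → (∃ i, ¬ (p : ℤ) ∣ s' i) →
      (∀ i, (p : ℤ) ∣ s' i - w i) → NIc N s')
    (hs : ∃ i, ¬ (p : ℤ) ∣ s i) : NIc N s := by
  obtain ⟨σ, ε, hσ, h1, h2, h3, h4, h5⟩ := exists_norm p hp s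
  rw [← nic_sact N σ ε (Or.inl hσ)]
  have hG' := (graded_sact N p σ ε (Or.inl hσ) s).2 hG
  have hs' : ∃ i, ¬ (p : ℤ) ∣ sact σ ε s i := by
    obtain ⟨i, hi⟩ := hs
    refine ⟨σ.symm i, ?_⟩
    have e1 : sact σ ε s (σ.symm i) = (ε (σ.symm i) : ℤ) * s i := by
      simp [sact]
    rw [e1]
    rcases Int.units_eq_one_or (ε (σ.symm i)) with h | h <;> simp [h, hi]
  set s' := sact σ ε s with hs'def
  have hp' : (0 : ℤ) < p := by exact_mod_cast hp
  have hr : ∀ i, ∃ w : ℕ, (w : ℤ) = s' i % p ∧ w ≤ p / 2 := by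
    intro i
    have e0 := Int.emod_nonneg (s' i) hp'.ne'
    refine ⟨(s' i % p).toNat, Int.toNat_of_nonneg e0, ?_⟩
    have := h1 i
    omega
  choose w hw hwp using hr
  have hcong : ∀ i, (p : ℤ) ∣ s' i - w i := fun i => by
    rw [hw]
    exact Int.dvd_self_sub_emod
  by_cases hE : keyt (w 0) (w 1) (w 2) (w 3) (w 4) (w 5) ∈ E
  · exact hex w hE hwp s' hG' hs' hcong
  · have ht := hall ⟨w 0, Nat.lt_succ_of_le (hwp 0)⟩ ⟨w 1, Nat.lt_succ_of_le (hwp 1)⟩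
      ⟨w 2, Nat.lt_succ_of_le (hwp 2)⟩ ⟨w 3, Nat.lt_succ_of_le (hwp 3)⟩
      ⟨w 4, Nat.lt_succ_of_le (hwp 4)⟩ ⟨w 5, Nat.lt_succ_of_le (hwp 5)⟩
    obtain ⟨v, hv, hv0, hvd⟩ := of_testT p T E w ht
      (by rw [← hw 0, ← hw 1] at h2; exact_mod_cast h2)
      (by rw [← hw 1, ← hw 2] at h3; exact_mod_cast h3)
      (by rw [← hw 3, ← hw 4] at h4; exact_mod_cast h4)
      (by rw [← hw 4, ← hw 5] at h5; exact_mod_cast h5) hE
    refine nic_of_graded N p s' v hv (fun i hi => hv0 i ?_) hG' ?_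
    · rw [hw]
      exact Int.emod_eq_zero_of_dvd (hN6 _ hi)
    · intro μ μ' hd
      refine hvd μ μ' ?_
      have a1 := dot_cong p s' (fun i => (w i : ℤ)) hcong μ
      have a2 := dot_cong p s' (fun i => (w i : ℤ)) hcong μ'
      have a3 : dot μ (fun i => (w i : ℤ)) - dot μ' (fun i => (w i : ℤ)) =
        (dot μ s' - dot μ' s') - (dot μ s' - dot μ (fun i => (w i : ℤ))) +
          (dot μ' s' - dot μ' (fun i => (w i : ℤ))) := by ring
      rw [a3]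
      exact dvd_add (dvd_sub hd a1) a2

end Pool.Agent.TriCos
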