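import Pool.Agent.Lib_MP_6e4ab6_nt.Full.Rt

/-!
# Piece L: the lifting lemma for primes `p ≥ 11`
-/

namespace Pool.Agent.TriCos

open Finset

namespace Lift

variable {p : ℕ}

/-- odd indicator of the class `{c, -c}` -/
def chi (c x : ZMod p) : ℤ := (if x = c then 1 else 0) - (if x = -c then 1 else 0)

theorem chi_neg (c x : ZMod p) : chi c (-x) = - chi c x := by
  unfold chi
  have h1 : (-x = c) ↔ (x = -c) := neg_eq_iff_eq_neg
  have h2 : (-x = -c) ↔ (x = c) := neg_inj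
  simp only [h1, h2]
  ring

/-- the linear form attached to one side -/
def form (ρ : ZMod p → ℤ) (a b c : ZMod p) : ℤ :=
  ρ (a + b + c) - ρ (-a + b + c) - ρ (a - b + c) - ρ (a + b - c)

theorem build (s : Fin 6 → ℤ) (ρ : ZMod p → ℤ) (hodd : ∀ x, ρ (-x) = -ρ x)
    (hl : form ρ (s 0) (s 1) (s 2) = 0) (hr : form ρ (s 3) (s 4) (s 5) = 0)
    (hne : ∃ μ : Fin 16, ρ ((dot μ s : ℤ) : ZMod p) ≠ 0) :
    ∃ v : Fin 6 → ℤ, v ≠ 0 ∧ (∀ i, (p : ℤ) ∣ s i → v i = 0) ∧
      ∀ μ μ' : Fin 16, (p : ℤ) ∣ dot μ s - dot μ' s → dot μ v = dot μ' v := by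
  unfold form at hl hr
  set v : Fin 6 → ℤ :=
    ![ρ (s 0 + s 1 + s 2) - ρ (-s 0 + s 1 + s 2),
      ρ (s 0 + s 1 + s 2) - ρ (s 0 - s 1 + s 2),
      ρ (s 0 + s 1 + s 2) - ρ (s 0 + s 1 - s 2),
      ρ (s 3 + s 4 + s 5) - ρ (-s 3 + s 4 + s 5),
      ρ (s 3 + s 4 + s 5) - ρ (s 3 - s 4 + s 5),
      ρ (s 3 + s 4 + s 5) - ρ (s 3 + s 4 - s 5)] with hv
  have o1 : ρ (-s 0 - s 1 - s 2) = -ρ (s 0 + s 1 + s 2) := by rw [← hodd]; congr 1; ring
  have o2 : ρ (s 0 - s 1 - s 2) = -ρ (-s 0 + s 1 + s 2) := by rw [← hodd]; congr 1; ring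
  have o3 : ρ (-s 0 + s 1 - s 2) = -ρ (s 0 - s 1 + s 2) := by rw [← hodd]; congr 1; ring
  have o4 : ρ (-s 0 - s 1 + s 2) = -ρ (s 0 + s 1 - s 2) := by rw [← hodd]; congr 1; ring
  have q1 : ρ (-s 3 - s 4 - s 5) = -ρ (s 3 + s 4 + s 5) := by rw [← hodd]; congr 1; ring
  have q2 : ρ (s 3 - s 4 - s 5) = -ρ (-s 3 + s 4 + s 5) := by rw [← hodd]; congr 1; ring
  have q3 : ρ (-s 3 + s 4 - s 5) = -ρ (s 3 - s 4 + s 5) := by rw [← hodd]; congr 1; ring
  have q4 : ρ (-s 3 - s 4 + s 5) = -ρ (s 3 + s 4 - s 5) := by rw [← hodd]; congr 1; ring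
  have key : ∀ μ : Fin 16, dot μ v = 2 * ρ ((dot μ s : ℤ) : ZMod p) := by
    intro μ
    fin_cases μ <;> simp [dot, hv, Fin.isValue] <;> linarith
  refine ⟨v, ?_, ?_, ?_⟩
  · rintro h0
    obtain ⟨μ, hμ⟩ := hne
    have := key μ
    rw [h0] at this
    have h00 : dot μ (0 : Fin 6 → ℤ) = 0 := by
      fin_cases μ <;> simp [dot]
    rw [h00] at this
    omega
  · intro i hi
    have hz : ((s i : ℤ) : ZMod p) = 0 := (ZMod.intCast_zmod_eq_zero_iff_dvd _ _).mpr hi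
    fin_cases i <;> simp at hz <;> simp [hv, hz]
  · intro μ μ' h
    rw [key, key]
    congr 2
    exact ((ZMod.intCast_eq_intCast_iff_dvd_sub _ _ _).mpr (by simpa using (dvd_neg.mpr h)))

theorem chi_self (hp : p.Prime) (h2 : 2 < p) {c : ZMod p} (hc : c ≠ 0) : chi c c = 1 := by
  have := Fact.mk hp
  unfold chi
  have h : c ≠ -c := by
    intro h
    have h3 : (2 : ZMod p) * c = 0 := by linear_combination h
    rcases mul_eq_zero.mp h3 with h4 | h4
    · have h5 : ((2 : ℕ) : ZMod p) = 0 := by exact_mod_cast h4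
      rw [ZMod.natCast_eq_zero_iff] at h5
      have := Nat.le_of_dvd (by norm_num) h5
      omega
    · exact hc h4
  simp [h]

theorem chi_other {c x : ZMod p} (h1 : x ≠ c) (h2 : x ≠ -c) : chi c x = 0 := by
  unfold chi
  simp [h1, h2]

/-- the eight values -/
def vals (s : Fin 6 → ℤ) : Fin 8 → ZMod p :=
  ![s 0 + s 1 + s 2, -s 0 + s 1 + s 2, s 0 - s 1 + s 2, s 0 + s 1 - s 2,
    s 3 + s 4 + s 5, -s 3 + s 4 + s 5, s 3 - s 4 + s 5, s 3 + s 4 - s 5]

theorem vals_dot (s : Fin 6 → ℤ) (i : Fin 8) :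
    ∃ μ : Fin 16, ((dot μ s : ℤ) : ZMod p) = vals s i := by
  fin_cases i
  · exact ⟨0, by simp [dot, vals]⟩
  · exact ⟨4, by simp [dot, vals]⟩
  · exact ⟨2, by simp [dot, vals]⟩
  · exact ⟨1, by simp [dot, vals]⟩
  · exact ⟨8, by simp [dot, vals]⟩
  · exact ⟨12, by simp [dot, vals]⟩
  · exact ⟨10, by simp [dot, vals]⟩
  · exact ⟨9, by simp [dot, vals]⟩

theorem build' (s : Fin 6 → ℤ) (ρ : ZMod p → ℤ) (hodd : ∀ x, ρ (-x) = -ρ x)
    (hl : form ρ (s 0) (s 1) (s 2) = 0) (hr : form ρ (s 3) (s 4) (s 5) = 0)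
    (i : Fin 8) (hne : ρ (vals s i) ≠ 0) :
    ∃ v : Fin 6 → ℤ, v ≠ 0 ∧ (∀ i, (p : ℤ) ∣ s i → v i = 0) ∧
      ∀ μ μ' : Fin 16, (p : ℤ) ∣ dot μ s - dot μ' s → dot μ v = dot μ' v := by
  obtain ⟨μ, hμ⟩ := vals_dot (p := p) s i
  exact build s ρ hodd hl hr ⟨μ, by rw [hμ]; exact hne⟩

/-- three classes -/
theorem case3 (hp : p.Prime) (h2 : 2 < p) (s : Fin 6 → ℤ) (e : Fin 3 → Fin 8)
    (h0 : ∀ i, vals (p := p) s (e i) ≠ 0)
    (hd : ∀ i j, i ≠ j → vals (p := p) s (e i) ≠ vals s (e j) ∧ vals (p := p) s (e i) ≠ - vals s (e j)) :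
    ∃ v : Fin 6 → ℤ, v ≠ 0 ∧ (∀ i, (p : ℤ) ∣ s i → v i = 0) ∧
      ∀ μ μ' : Fin 16, (p : ℤ) ∣ dot μ s - dot μ' s → dot μ v = dot μ' v := by
  set M : Matrix (Fin 2) (Fin 3) ℤ := Matrix.of fun a j =>
    if a = 0 then form (p := p) (chi (vals s (e j))) (s 0) (s 1) (s 2)
    else form (p := p) (chi (vals (p := p) s (e j))) (s 3) (s 4) (s 5) with hM
  obtain ⟨t, ht0, htM, -⟩ := Int.Matrix.exists_ne_zero_int_vec_norm_le M (by simp) (by simp)
  have ⟨j, hj⟩ : ∃ j, t j ≠ 0 := by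
    by_contra hcon
    push Not at hcon
    exact ht0 (funext hcon)
  have e0 := congrFun htM 0
  have e1 := congrFun htM 1
  simp [Matrix.mulVec, dotProduct, Fin.sum_univ_three, hM] at e0 e1
  refine build' s (fun x => ∑ i, t i * chi (vals s (e i)) x) ?_ ?_ ?_ (e j) ?_
  · intro x
    simp only [chi_neg, Fin.sum_univ_three]
    ring
  · rw [← e0]
    simp only [form, Fin.sum_univ_three]
    ring
  · rw [← e1]
    simp only [form, Fin.sum_univ_three]
    ring
  · rw [Finset.sum_eq_single j]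
    · rw [chi_self hp h2 (h0 j), mul_one]
      exact hj
    · intro i _ hij
      rw [chi_other (hd j i hij.symm).1 (hd j i hij.symm).2, mul_zero]
    · simp

theorem chi_zero {c : ZMod p} (hc : c ≠ 0) : chi c 0 = 0 :=
  chi_other (Ne.symm hc) (by
    intro h
    apply hc
    rw [← neg_eq_zero, ← h])

/-- two classes, both met -/
theorem case2 (hp : p.Prime) (h11 : 11 ≤ p) (s : Fin 6 → ℤ) (i₁ i₂ : Fin 8)
    (h1 : vals (p := p) s i₁ ≠ 0) (h2 : vals (p := p) s i₂ ≠ 0)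
    (hd : vals (p := p) s i₁ ≠ vals s i₂ ∧ vals (p := p) s i₁ ≠ - vals s i₂)
    (hall : ∀ i, vals (p := p) s i = 0 ∨ vals (p := p) s i = vals s i₁ ∨
      vals (p := p) s i = - vals s i₁ ∨ vals (p := p) s i = vals s i₂ ∨
      vals (p := p) s i = - vals s i₂) :
    ∃ v : Fin 6 → ℤ, v ≠ 0 ∧ (∀ i, (p : ℤ) ∣ s i → v i = 0) ∧
      ∀ μ μ' : Fin 16, (p : ℤ) ∣ dot μ s - dot μ' s → dot μ v = dot μ' v := by
  have := Fact.mk hp
  set c := vals (p := p) s i₁ with hc
  set d := vals (p := p) s i₂ with hdd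
  have hd1 : d ≠ c := Ne.symm hd.1
  have hd2 : d ≠ -c := by
    intro h
    apply hd.2
    rw [h, neg_neg]
  have key : ∀ x : ZMod p, (x = 0 ∨ x = c ∨ x = -c ∨ x = d ∨ x = -d) →
      x = (chi c x : ℤ) * c + (chi d x : ℤ) * d ∧ |chi c x| + |chi d x| ≤ 1 := by
    intro x hx
    rcases hx with rfl | rfl | rfl | rfl | rfl
    · rw [chi_zero h1, chi_zero h2]; simp
    · rw [chi_self hp (by omega) h1, chi_other hd.1 hd.2]; simp
    · rw [chi_neg, chi_neg, chi_self hp (by omega) h1, chi_other hd.1 hd.2]; simp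
    · rw [chi_self hp (by omega) h2, chi_other hd1 hd2]; simp
    · rw [chi_neg, chi_neg, chi_self hp (by omega) h2, chi_other hd1 hd2]; simp
  have side : ∀ a b e : ZMod p,
      (a + b + e = 0 ∨ a + b + e = c ∨ a + b + e = -c ∨ a + b + e = d ∨ a + b + e = -d) →
      (-a + b + e = 0 ∨ -a + b + e = c ∨ -a + b + e = -c ∨ -a + b + e = d ∨ -a + b + e = -d) →
      (a - b + e = 0 ∨ a - b + e = c ∨ a - b + e = -c ∨ a - b + e = d ∨ a - b + e = -d) →
      (a + b - e = 0 ∨ a + b - e = c ∨ a + b - e = -c ∨ a + b - e = d ∨ a + b - e = -d) →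
      ((form (chi c) a b e : ℤ) : ZMod p) * c + ((form (chi d) a b e : ℤ) : ZMod p) * d = 0 ∧
      |form (chi c) a b e| + |form (chi d) a b e| ≤ 4 := by
    intro a b e g1 g2 g3 g4
    obtain ⟨k1, b1⟩ := key _ g1
    obtain ⟨k2, b2⟩ := key _ g2
    obtain ⟨k3, b3⟩ := key _ g3
    obtain ⟨k4, b4⟩ := key _ g4
    constructor
    · unfold form
      push_cast
      linear_combination (-1 : ZMod p) * k1 + k2 + k3 + k4
    · unfold form
      have tri : ∀ x y z w : ℤ, |x - y - z - w| ≤ |x| + |y| + |z| + |w| := by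
        intro x y z w
        have t1 := abs_sub (x - y - z) w
        have t2 := abs_sub (x - y) z
        have t3 := abs_sub x y
        linarith
      have t1 := tri (chi c (a + b + e)) (chi c (-a + b + e)) (chi c (a - b + e)) (chi c (a + b - e))
      have t2 := tri (chi d (a + b + e)) (chi d (-a + b + e)) (chi d (a - b + e)) (chi d (a + b - e))
      linarith
  obtain ⟨eA, bA⟩ := side (s 0) (s 1) (s 2) (hall 0) (hall 1) (hall 2) (hall 3)
  obtain ⟨eB, bB⟩ := side (s 3) (s 4) (s 5) (hall 4) (hall 5) (hall 6) (hall 7)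
  set a1 := form (chi c) (s 0) (s 1) (s 2) with ha1
  set a2 := form (chi d) (s 0) (s 1) (s 2) with ha2
  set b1 := form (chi c) (s 3) (s 4) (s 5) with hb1
  set b2 := form (chi d) (s 3) (s 4) (s 5) with hb2
  have hdet : (p : ℤ) ∣ a1 * b2 - a2 * b1 := by
    rw [← ZMod.intCast_zmod_eq_zero_iff_dvd]
    have h : ((a1 * b2 - a2 * b1 : ℤ) : ZMod p) * c = 0 := by
      push_cast
      linear_combination (b2 : ZMod p) * eA - (a2 : ZMod p) * eB
    rcases mul_eq_zero.mp h with h | h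
    · exact h
    · exact absurd h h1
  have hfin : ∀ a1 ∈ Finset.Icc (-4 : ℤ) 4, ∀ a2 ∈ Finset.Icc (-4 : ℤ) 4, |a1| + |a2| ≤ 4 →
      ∀ b1 ∈ Finset.Icc (-4 : ℤ) 4, ∀ b2 ∈ Finset.Icc (-4 : ℤ) 4, |b1| + |b2| ≤ 4 →
      |a1 * b2 - a2 * b1| ≤ 16 ∧ |a1 * b2 - a2 * b1| ≠ 11 ∧ |a1 * b2 - a2 * b1| ≠ 13 := by
    decide +kernel
  have mem : ∀ x y : ℤ, |x| + |y| ≤ 4 → x ∈ Finset.Icc (-4 : ℤ) 4 ∧ y ∈ Finset.Icc (-4 : ℤ) 4 := by
    intro x y h
    have hx := abs_nonneg x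
    have hy := abs_nonneg y
    have hx' := abs_le.mp (show |x| ≤ 4 by linarith)
    have hy' := abs_le.mp (show |y| ≤ 4 by linarith)
    exact ⟨Finset.mem_Icc.mpr hx', Finset.mem_Icc.mpr hy'⟩
  obtain ⟨m1, m2⟩ := mem _ _ bA
  obtain ⟨m3, m4⟩ := mem _ _ bB
  obtain ⟨f1, f2, f3⟩ := hfin a1 m1 a2 m2 bA b1 m3 b2 m4 bB
  have hdet0 : a1 * b2 - a2 * b1 = 0 := by
    by_contra hne
    have hle : (p : ℤ) ≤ |a1 * b2 - a2 * b1| :=
      Int.le_of_dvd (abs_pos.mpr hne) ((dvd_abs _ _).mpr hdet)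
    have hp16 : p ≤ 16 := by
      have : (p : ℤ) ≤ 16 := le_trans hle f1
      exact_mod_cast this
    obtain ⟨q, hq⟩ := (dvd_abs _ _).mpr hdet
    have hq1 : q = 1 := by
      have hpos : (0 : ℤ) < |a1 * b2 - a2 * b1| := abs_pos.mpr hne
      have hp11 : (11 : ℤ) ≤ p := by exact_mod_cast h11
      nlinarith
    rw [hq1, mul_one] at hq
    rw [hq] at f2 f3
    have hp' : p ≠ 11 ∧ p ≠ 13 := ⟨by exact_mod_cast f2, by exact_mod_cast f3⟩
    have hfin2 : ∀ q : ℕ, 11 ≤ q → q ≤ 16 → q.Prime → q = 11 ∨ q = 13 := by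
      intro q h1 h2 hq
      interval_cases q
      · left; rfl
      · exact absurd hq (by norm_num)
      · right; rfl
      · exact absurd hq (by norm_num)
      · exact absurd hq (by norm_num)
      · exact absurd hq (by norm_num)
    rcases hfin2 p h11 hp16 hp with h | h
    · exact hp'.1 h
    · exact hp'.2 h
  -- a nonzero solution
  obtain ⟨t1, t2, ht, hA, hB⟩ : ∃ t1 t2 : ℤ, (t1 ≠ 0 ∨ t2 ≠ 0) ∧ t1 * a1 + t2 * a2 = 0 ∧
      t1 * b1 + t2 * b2 = 0 := by
    by_cases hza : a1 = 0 ∧ a2 = 0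
    · by_cases hzb : b1 = 0 ∧ b2 = 0
      · exact ⟨1, 0, Or.inl one_ne_zero, by rw [hza.1, hza.2]; ring, by rw [hzb.1, hzb.2]; ring⟩
      · refine ⟨b2, -b1, ?_, by rw [hza.1, hza.2]; ring, by ring⟩
        by_contra hcon
        push Not at hcon
        exact hzb ⟨by simpa using hcon.2, hcon.1⟩
    · refine ⟨a2, -a1, ?_, by ring, by linarith⟩
      by_contra hcon
      push Not at hcon
      exact hza ⟨by simpa using hcon.2, hcon.1⟩
  have hodd : ∀ x : ZMod p, (fun x => t1 * chi c x + t2 * chi d x) (-x) =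
      -(fun x => t1 * chi c x + t2 * chi d x) x := by
    intro x
    simp only [chi_neg]
    ring
  have hl : form (fun x => t1 * chi c x + t2 * chi d x) (s 0) (s 1) (s 2) = 0 := by
    rw [← hA, ha1, ha2]
    simp only [form]
    ring
  have hr : form (fun x => t1 * chi c x + t2 * chi d x) (s 3) (s 4) (s 5) = 0 := by
    rw [← hB, hb1, hb2]
    simp only [form]
    ring
  rcases ht with ht | ht
  · refine build' s _ hodd hl hr i₁ ?_
    rw [← hc]
    show t1 * chi c c + t2 * chi d c ≠ 0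
    rw [chi_self hp (by omega) h1, chi_other hd.1 hd.2]
    simpa using ht
  · refine build' s _ hodd hl hr i₂ ?_
    rw [← hdd]
    show t1 * chi c d + t2 * chi d d ≠ 0
    rw [chi_self hp (by omega) h2, chi_other hd1 hd2]
    simpa using ht

/-- one class -/
theorem case1 (hp : p.Prime) (h11 : 11 ≤ p) (s : Fin 6 → ℤ) (i₁ : Fin 8)
    (h1 : vals (p := p) s i₁ ≠ 0)
    (hall : ∀ i, vals (p := p) s i = 0 ∨ vals (p := p) s i = vals s i₁ ∨
      vals (p := p) s i = - vals s i₁) :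
    ∃ v : Fin 6 → ℤ, v ≠ 0 ∧ (∀ i, (p : ℤ) ∣ s i → v i = 0) ∧
      ∀ μ μ' : Fin 16, (p : ℤ) ∣ dot μ s - dot μ' s → dot μ v = dot μ' v := by
  have := Fact.mk hp
  set c := vals (p := p) s i₁ with hc
  have key : ∀ x : ZMod p, (x = 0 ∨ x = c ∨ x = -c) →
      x = (chi c x : ℤ) * c ∧ |chi c x| ≤ 1 := by
    intro x hx
    rcases hx with rfl | rfl | rfl
    · rw [chi_zero h1]; simp
    · rw [chi_self hp (by omega) h1]; simp
    · rw [chi_neg, chi_self hp (by omega) h1]; simp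
  have side : ∀ a b e : ZMod p,
      (a + b + e = 0 ∨ a + b + e = c ∨ a + b + e = -c) →
      (-a + b + e = 0 ∨ -a + b + e = c ∨ -a + b + e = -c) →
      (a - b + e = 0 ∨ a - b + e = c ∨ a - b + e = -c) →
      (a + b - e = 0 ∨ a + b - e = c ∨ a + b - e = -c) →
      form (chi c) a b e = 0 := by
    intro a b e g1 g2 g3 g4
    obtain ⟨k1, b1⟩ := key _ g1
    obtain ⟨k2, b2⟩ := key _ g2
    obtain ⟨k3, b3⟩ := key _ g3
    obtain ⟨k4, b4⟩ := key _ g4
    have h : ((form (chi c) a b e : ℤ) : ZMod p) * c = 0 := by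
      unfold form
      push_cast
      linear_combination (-1 : ZMod p) * k1 + k2 + k3 + k4
    have h' : ((form (chi c) a b e : ℤ) : ZMod p) = 0 := by
      rcases mul_eq_zero.mp h with h | h
      · exact h
      · exact absurd h h1
    rw [ZMod.intCast_zmod_eq_zero_iff_dvd] at h'
    refine Int.eq_zero_of_abs_lt_dvd h' ?_
    have t1 := abs_sub (chi c (a + b + e) - chi c (-a + b + e) - chi c (a - b + e)) (chi c (a + b - e))
    have t2 := abs_sub (chi c (a + b + e) - chi c (-a + b + e)) (chi c (a - b + e))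
    have t3 := abs_sub (chi c (a + b + e)) (chi c (-a + b + e))
    have hp11 : (11 : ℤ) ≤ p := by exact_mod_cast h11
    unfold form
    linarith
  have hl := side (s 0) (s 1) (s 2) (hall 0) (hall 1) (hall 2) (hall 3)
  have hr := side (s 3) (s 4) (s 5) (hall 4) (hall 5) (hall 6) (hall 7)
  refine build' s (chi c) (chi_neg c) hl hr i₁ ?_
  rw [← hc, chi_self hp (by omega) h1]
  norm_num

end Lift

theorem lift_lemma (p : ℕ) (hp : p.Prime) (h11 : 11 ≤ p) (s : Fin 6 → ℤ)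
    (hs : ∃ i, ¬ (p : ℤ) ∣ s i) :
    ∃ v : Fin 6 → ℤ, v ≠ 0 ∧ (∀ i, (p : ℤ) ∣ s i → v i = 0) ∧
      ∀ μ μ' : Fin 16, (p : ℤ) ∣ dot μ s - dot μ' s → dot μ v = dot μ' v := by
  classical
  have := Fact.mk hp
  by_cases h0 : ∀ i, Lift.vals (p := p) s i = 0
  · exfalso
    obtain ⟨i, hi⟩ := hs
    apply hi
    have h2 : (2 : ZMod p) ≠ 0 := by
      intro h
      have h5 : ((2 : ℕ) : ZMod p) = 0 := by exact_mod_cast h
      rw [ZMod.natCast_eq_zero_iff] at h5
      have := Nat.le_of_dvd (by norm_num) h5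
      omega
    have e0 : (s 0 + s 1 + s 2 : ZMod p) = 0 := h0 0
    have e1 : (-s 0 + s 1 + s 2 : ZMod p) = 0 := h0 1
    have e2 : (s 0 - s 1 + s 2 : ZMod p) = 0 := h0 2
    have e3 : (s 0 + s 1 - s 2 : ZMod p) = 0 := h0 3
    have e4 : (s 3 + s 4 + s 5 : ZMod p) = 0 := h0 4
    have e5 : (-s 3 + s 4 + s 5 : ZMod p) = 0 := h0 5
    have e6 : (s 3 - s 4 + s 5 : ZMod p) = 0 := h0 6
    have e7 : (s 3 + s 4 - s 5 : ZMod p) = 0 := h0 7
    rw [← ZMod.intCast_zmod_eq_zero_iff_dvd]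
    have hh : (2 : ZMod p) * (s i : ZMod p) = 0 := by
      fin_cases i
      · show (2 : ZMod p) * (s 0 : ZMod p) = 0
        linear_combination e0 - e1
      · show (2 : ZMod p) * (s 1 : ZMod p) = 0
        linear_combination e0 - e2
      · show (2 : ZMod p) * (s 2 : ZMod p) = 0
        linear_combination e0 - e3
      · show (2 : ZMod p) * (s 3 : ZMod p) = 0
        linear_combination e4 - e5
      · show (2 : ZMod p) * (s 4 : ZMod p) = 0
        linear_combination e4 - e6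
      · show (2 : ZMod p) * (s 5 : ZMod p) = 0
        linear_combination e4 - e7
    exact (mul_eq_zero.mp hh).resolve_left h2
  · push Not at h0
    obtain ⟨i₁, h1⟩ := h0
    by_cases c1 : ∀ i, Lift.vals (p := p) s i = 0 ∨ Lift.vals (p := p) s i = Lift.vals s i₁ ∨
      Lift.vals (p := p) s i = - Lift.vals s i₁
    · exact Lift.case1 hp h11 s i₁ h1 c1
    · push Not at c1
      obtain ⟨i₂, h2, h21, h21'⟩ := c1
      have h12' : Lift.vals (p := p) s i₁ ≠ - Lift.vals s i₂ := by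
        intro h
        apply h21'
        rw [h, neg_neg]
      by_cases c2 : ∀ i, Lift.vals (p := p) s i = 0 ∨ Lift.vals (p := p) s i = Lift.vals s i₁ ∨
        Lift.vals (p := p) s i = - Lift.vals s i₁ ∨ Lift.vals (p := p) s i = Lift.vals s i₂ ∨
        Lift.vals (p := p) s i = - Lift.vals s i₂
      · exact Lift.case2 hp h11 s i₁ i₂ h1 h2 ⟨h21.symm, h12'⟩ c2
      · push Not at c2
        obtain ⟨i₃, h3, h31, h31', h32, h32'⟩ := c2
        have h13' : Lift.vals (p := p) s i₁ ≠ - Lift.vals s i₃ := by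
          intro h
          apply h31'
          rw [h, neg_neg]
        have h23' : Lift.vals (p := p) s i₂ ≠ - Lift.vals s i₃ := by
          intro h
          apply h32'
          rw [h, neg_neg]
        refine Lift.case3 hp (by omega) s ![i₁, i₂, i₃] ?_ ?_
        · intro i
          fin_cases i
          · exact h1
          · exact h2
          · exact h3
        · intro i j hij
          fin_cases i <;> fin_cases j
          · exact absurd rfl hij
          · exact ⟨h21.symm, h12'⟩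
          · exact ⟨h31.symm, h13'⟩
          · exact ⟨h21, h21'⟩
          · exact absurd rfl hij
          · exact ⟨h32.symm, h23'⟩
          · exact ⟨h31, h31'⟩
          · exact ⟨h32, h32'⟩
          · exact absurd rfl hij

end Pool.Agent.TriCos
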