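import Pool.Agent.Lib_MP_6e4ab6_nt.Full.T4a

/-!
# Piece T4: the 2-adic analysis
-/

namespace Pool.Agent.TriCos

namespace T4

open Finset

theorem five_cases (m : ℕ) (hm : 0 < m) (a b c d e : ℤ)
    (h : rt m a + rt m b + rt m c + rt m d + rt m e = 0) :
    (rt m a + rt m b = 0 ∨ rt m a + rt m c = 0 ∨ rt m b + rt m c = 0) ∨
    (rt m a + rt m d = 0 ∨ rt m b + rt m d = 0 ∨ rt m c + rt m d = 0) ∨
    (rt m a + rt m e = 0 ∨ rt m b + rt m e = 0 ∨ rt m c + rt m e = 0) ∨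
    rt m d + rt m e = 0 ∨
    (rt m b ^ 5 = rt m a ^ 5 ∧ rt m c ^ 5 = rt m a ^ 5 ∧
      rt m a * rt m b * rt m c * rt m d * rt m e = rt m a ^ 5) := by
  have h5 := five_term m hm ![a, b, c, d, e] (by
    rw [Fin.sum_univ_five]
    exact h)
  rcases h5 with ⟨i, j, hij, h5⟩ | ⟨h5, _, h6⟩
  · fin_cases i <;> fin_cases j <;> first
      | exact absurd rfl hij
      | (simp at h5; tauto)
      | (simp at h5; rw [add_comm] at h5; tauto)
  · right; right; right; right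
    refine ⟨h5 1 0, h5 2 0, ?_⟩
    rw [Fin.prod_univ_five] at h6
    exact h6

theorem H7a (m : ℕ) (hm : 0 < m) (h8 : 8 ∣ m) (s : Fin 6 → ℤ) (hrel : Rel (2 * m) s)
    (w0 : s 0 % 4 = 1) (w1 : s 1 % 4 = 1) (w2 : s 2 % 4 = 1)
    (w3 : s 3 % 4 = 1) (w4 : s 4 % 4 = 2) (w5 : s 5 % 4 = 2)
    (hd : (s 0 + s 1 + s 2 - s 3 - s 4 - s 5) % 8 = 2) : Goal m s := by
  obtain ⟨c, hc⟩ := id h8
  have hG := graded_pow m 8 c hm (by norm_num) (by omega) s hrel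
  have h4 : 4 ∣ m := Dvd.dvd.trans (by norm_num) h8
  have T0 := not_third_odd m h4 (s 0) (by omega)
  have T1 := not_third_odd m h4 (s 1) (by omega)
  have T2 := not_third_odd m h4 (s 2) (by omega)
  have T3 := not_third_odd m h4 (s 3) (by omega)
  have T4' := not_third_two m h8 (s 4) (by omega)
  have T5 := not_third_two m h8 (s 5) (by omega)
  have na := rt_ne_zero (2 * m) (-s 0 - s 1 - s 2)
  have nb := rt_ne_zero (2 * m) (-s 3 - s 4 - s 5)
  have r3 := rt_ne_zero m (s 3)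
  have r4 := rt_ne_zero m (s 4)
  have r5 := rt_ne_zero m (s 5)
  have e0 := expand m 8 s hG (-s 0 - s 1 - s 2)
  have e1 := expand m 8 s hG (-s 0 - s 1 - s 2 + 2)
  have e2 := expand m 8 s hG (-s 0 - s 1 - s 2 + 4)
  have e3 := expand m 8 s hG (-s 0 - s 1 - s 2 + 6)
  simp (disch := (push_cast; omega)) only [if_pos, if_neg] at e0 e1 e2 e3
  have g0 : rt (2 * m) (-s 0 - s 1 - s 2) = rt (2 * m) (-s 3 - s 4 - s 5) *
      (rt m (s 3) * (rt m (s 4) + rt m (s 5))) := by linear_combination e0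
  have g1 : rt (2 * m) (-s 0 - s 1 - s 2) * (rt m (s 0) + rt m (s 1) + rt m (s 2)) =
      rt (2 * m) (-s 3 - s 4 - s 5) * (1 + rt m (s 4) * rt m (s 5)) := by
    linear_combination e1
  have g2 : rt (2 * m) (-s 0 - s 1 - s 2) *
      (rt m (s 0) * rt m (s 1) + rt m (s 0) * rt m (s 2) + rt m (s 1) * rt m (s 2)) =
      rt (2 * m) (-s 3 - s 4 - s 5) * rt m (s 3) * (1 + rt m (s 4) * rt m (s 5)) := by
    linear_combination e2
  have g3 : rt (2 * m) (-s 0 - s 1 - s 2) * (rt m (s 0) * rt m (s 1) * rt m (s 2)) =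
      rt (2 * m) (-s 3 - s 4 - s 5) * (rt m (s 4) + rt m (s 5)) := by linear_combination e3
  have he : rt m (s 0) * rt m (s 1) * rt m (s 2) * rt m (s 3) = 1 := by
    apply mul_left_cancel₀ na
    linear_combination rt m (s 3) * g3 - g0
  have hnorm : ‖rt m (s 4) + rt m (s 5)‖ = 1 := by
    have := congrArg norm g0
    rw [norm_mul, norm_mul, norm_rt, norm_rt, norm_rt, one_mul, one_mul] at this
    exact this.symm
  obtain ⟨ω, hω, o1, o2⟩ := three_unit (rt m (s 4)) (rt m (s 5)) (-(rt m (s 4) + rt m (s 5)))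
    (norm_rt _ _) (norm_rt _ _) (by rw [norm_neg, hnorm]) (by ring)
  have hω3 := cube_one ω hω
  -- the two further terms
  set P := rt m (s 5 - s 3 - 2 * s 4) with hP
  set Q := rt m (2 * s 5 - s 4 - s 3) with hQ
  have hPe : P * (rt m (s 3) * rt m (s 4)) = ω := by
    apply mul_left_cancel₀ r4
    have : P * (rt m (s 3) * rt m (s 4) * rt m (s 4)) = rt m (s 5) := by
      rw [hP, ← rt_add, ← rt_add, ← rt_add]; congr 1; ring
    linear_combination this + o1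
  have hQe : Q * rt m (s 3) = ω ^ 2 * rt m (s 4) := by
    apply mul_left_cancel₀ r4
    have : Q * (rt m (s 3) * rt m (s 4)) = rt m (s 5) * rt m (s 5) := by
      rw [hQ, ← rt_add, ← rt_add, ← rt_add]; congr 1; ring
    linear_combination this + (rt m (s 5) + ω * rt m (s 4)) * o1
  have g1' : rt m (s 3) * (rt m (s 4) + rt m (s 5)) * (rt m (s 0) + rt m (s 1) + rt m (s 2)) =
      1 + rt m (s 4) * rt m (s 5) := by
    apply mul_left_cancel₀ nb
    rw [g0] at g1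
    linear_combination g1
  have g1'' : rt m (s 3) * rt m (s 4) * (rt m (s 0) + rt m (s 1) + rt m (s 2)) =
      -ω - ω ^ 2 * rt m (s 4) ^ 2 := by
    linear_combination (-ω) * g1' - rt m (s 3) * rt m (s 4) *
      (rt m (s 0) + rt m (s 1) + rt m (s 2)) * hω3 - ω * rt m (s 3) *
      (rt m (s 0) + rt m (s 1) + rt m (s 2)) * o2 - ω * rt m (s 4) * o1
  have hsum : rt m (s 0) + rt m (s 1) + rt m (s 2) + P + Q = 0 := by
    apply mul_left_cancel₀ (mul_ne_zero r3 r4)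
    linear_combination g1'' + hPe + rt m (s 4) * hQe
  have hTall : ∀ i, ¬ Third (2 * m) (s i) := by
    intro i
    fin_cases i
    · exact T0
    · exact T1
    · exact T2
    · exact T3
    · exact T4'
    · exact T5
  have hPQ : P * Q * rt m (s 3) ^ 2 = 1 := by
    apply mul_left_cancel₀ r4
    linear_combination Q * rt m (s 3) * hPe + ω * hQe + rt m (s 4) * hω3
  have hQP : Q = P * (rt m (s 4) * rt m (s 5)) := by
    rw [hP, hQ, ← rt_add, ← rt_add]; congr 1; ring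
  have noX : ∀ k : ℤ, rt m k + P + Q = 0 → False := by
    intro k hk
    obtain ⟨ρ, hρ, r1, _⟩ := three_unit P Q (rt m k) (norm_rt _ _) (norm_rt _ _) (norm_rt _ _)
      (by linear_combination hk)
    have hρ3 := cube_one ρ hρ
    have p0 : P ≠ 0 := rt_ne_zero _ _
    have h1 : rt m (s 4) * rt m (s 5) = ρ := by
      apply mul_left_cancel₀ p0
      rw [← hQP, r1]; ring
    have h2 : rt m (6 * s 4) = 1 := by
      have : rt m (6 * s 4) = rt m (s 4) ^ 6 := rt_mul m 6 (s 4)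
      rw [this]
      rw [o1] at h1
      have h3 : (rt m (s 4) * (ω * rt m (s 4))) ^ 3 = 1 := by rw [h1, hρ3]
      linear_combination h3 - rt m (s 4) ^ 6 * hω3
    rw [rt_eq_one_iff m hm] at h2
    have h3 : (8 : ℤ) ∣ 6 * s 4 := Dvd.dvd.trans ⟨c, by rw [hc]; push_cast; ring⟩ h2
    omega
  have fin3 : ∀ (v v' : Fin 6 → ℤ), v ≠ 0 → v' ≠ 0 →
      ((∀ z : ℂ, ‖z‖ = 1 →
      ‖(1 + rt m (s 0) * z ^ v 0) * (1 + rt m (s 1) * z ^ v 1) * (1 + rt m (s 2) * z ^ v 2)‖ =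
      ‖(1 + rt m (s 3) * z ^ v 3) * (1 + rt m (s 4) * z ^ v 4) * (1 + rt m (s 5) * z ^ v 5)‖) ∨
      (∀ z : ℂ, ‖z‖ = 1 →
      ‖(1 + rt m (s 0) * z ^ v' 0) * (1 + rt m (s 1) * z ^ v' 1) *
        (1 + rt m (s 2) * z ^ v' 2)‖ =
      ‖(1 + rt m (s 3) * z ^ v' 3) * (1 + rt m (s 4) * z ^ v' 4) *
        (1 + rt m (s 5) * z ^ v' 5)‖)) → NI (ang m s) := by
    rintro v v' hv hv' (h | h)
    · exact ni_of m hm s v hv (fun i => Or.inr (hTall i)) h
    · exact ni_of m hm s v' hv' (fun i => Or.inr (hTall i)) h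
  have np : ‖P‖ = 1 := norm_rt _ _
  have nq : ‖Q‖ = 1 := norm_rt _ _
  have F2 : rt m (s 2) + Q = 0 ∨ rt m (s 2) + P = 0 → NI (ang m s) := by
    intro h
    have := fam3 (rt m (s 0)) (rt m (s 1)) (rt m (s 2)) (rt m (s 3)) (rt m (s 4)) (rt m (s 5)) P Q
      ω (norm_rt _ _) (norm_rt _ _) (norm_rt _ _) (norm_rt _ _) np nq hω o1 hPe hQe hsum he h
    exact fin3 ![1, 1, -3, 1, -2, -2] ![1, 1, -3, 1, 2, 2]
      (fun h => by have := congrFun h 0; simp at this)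
      (fun h => by have := congrFun h 0; simp at this) this
  have F1 : rt m (s 1) + Q = 0 ∨ rt m (s 1) + P = 0 → NI (ang m s) := by
    intro h
    have := fam3 (rt m (s 0)) (rt m (s 2)) (rt m (s 1)) (rt m (s 3)) (rt m (s 4)) (rt m (s 5)) P Q
      ω (norm_rt _ _) (norm_rt _ _) (norm_rt _ _) (norm_rt _ _) np nq hω o1 hPe hQe
      (by linear_combination hsum) (by linear_combination he) h
    refine fin3 ![1, -3, 1, 1, -2, -2] ![1, -3, 1, 1, 2, 2]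
      (fun h => by have := congrFun h 0; simp at this)
      (fun h => by have := congrFun h 0; simp at this) ?_
    refine this.imp (fun h z hz => ?_) (fun h z hz => ?_)
    · have := h z hz
      rw [mul_right_comm] at this
      exact this
    · have := h z hz
      rw [mul_right_comm] at this
      exact this
  have F0 : rt m (s 0) + Q = 0 ∨ rt m (s 0) + P = 0 → NI (ang m s) := by
    intro h
    have := fam3 (rt m (s 1)) (rt m (s 2)) (rt m (s 0)) (rt m (s 3)) (rt m (s 4)) (rt m (s 5)) P Q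
      ω (norm_rt _ _) (norm_rt _ _) (norm_rt _ _) (norm_rt _ _) np nq hω o1 hPe hQe
      (by linear_combination hsum) (by linear_combination he) h
    refine fin3 ![-3, 1, 1, 1, -2, -2] ![-3, 1, 1, 1, 2, 2]
      (fun h => by have := congrFun h 0; simp at this)
      (fun h => by have := congrFun h 0; simp at this) ?_
    refine this.imp (fun h z hz => ?_) (fun h z hz => ?_)
    · have := h z hz
      rw [mul_comm, ← mul_assoc] at this
      exact this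
    · have := h z hz
      rw [mul_comm, ← mul_assoc] at this
      exact this
  right; left
  rcases five_cases m hm (s 0) (s 1) (s 2) (s 5 - s 3 - 2 * s 4) (2 * s 5 - s 4 - s 3) hsum with
    h | h | h | h | ⟨k1, k2, k3⟩
  · exfalso
    rcases h with h | h | h
    · exact noX (s 2) (by linear_combination hsum - h)
    · exact noX (s 1) (by linear_combination hsum - h)
    · exact noX (s 0) (by linear_combination hsum - h)
  · rcases h with h | h | h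
    · exact F0 (Or.inr h)
    · exact F1 (Or.inr h)
    · exact F2 (Or.inr h)
  · rcases h with h | h | h
    · exact F0 (Or.inl h)
    · exact F1 (Or.inl h)
    · exact F2 (Or.inl h)
  · have hP' : P + Q = 0 := h
    have q1 : 1 + rt m (s 4) * rt m (s 5) = 0 := by
      have h1 : ω + ω ^ 2 * rt m (s 4) ^ 2 = 0 := by
        linear_combination -hPe - rt m (s 4) * hQe + rt m (s 3) * rt m (s 4) * hP'
      linear_combination ω ^ 2 * h1 + rt m (s 4) * o1 - (1 + ω * rt m (s 4) ^ 2) * hω3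
    have f1 : rt m (s 0) + rt m (s 1) + rt m (s 2) = 0 := by linear_combination hsum - hP'
    have f2 : rt m (s 0) * rt m (s 1) + rt m (s 0) * rt m (s 2) + rt m (s 1) * rt m (s 2) = 0 := by
      apply mul_left_cancel₀ na
      linear_combination g2 + rt (2 * m) (-s 3 - s 4 - s 5) * rt m (s 3) * q1
    refine ni_of m hm s ![1, 1, 1, -3, 0, 0] ?_ (fun i => Or.inr (hTall i)) ?_
    · intro h; have := congrFun h 0; simp at this
    · intro z hz
      have := tri_line _ _ _ _ z f1 f2 he (norm_rt _ _) hz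
      show ‖(1 + rt m (s 0) * z ^ (1 : ℤ)) * (1 + rt m (s 1) * z ^ (1 : ℤ)) *
        (1 + rt m (s 2) * z ^ (1 : ℤ))‖ = ‖(1 + rt m (s 3) * z ^ (-3 : ℤ)) *
        (1 + rt m (s 4) * z ^ (0 : ℤ)) * (1 + rt m (s 5) * z ^ (0 : ℤ))‖
      rw [this, zpow_zero, mul_one, mul_one, mul_assoc, norm_mul _ ((1 + rt m (s 4)) * _)]
      rw [show (1 + rt m (s 4)) * (1 + rt m (s 5)) = rt m (s 4) + rt m (s 5) by
        linear_combination q1, hnorm, mul_one]
  · exfalso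
    have k3' : rt m (s 0) * rt m (s 1) * rt m (s 2) * P * Q = rt m (s 0) ^ 5 := k3
    have hE : P * Q = (rt m (s 0) * rt m (s 1) * rt m (s 2)) ^ 2 := by
      apply mul_left_cancel₀ (pow_ne_zero 2 r3)
      linear_combination hPQ - (rt m (s 0) * rt m (s 1) * rt m (s 2) * rt m (s 3) + 1) * he
    have k4 : (rt m (s 0) * rt m (s 1) * rt m (s 2)) ^ 3 = rt m (s 0) ^ 5 := by
      linear_combination k3' - rt m (s 0) * rt m (s 1) * rt m (s 2) * hE
    have k5 : (rt m (s 0) * rt m (s 1) * rt m (s 2)) ^ 5 = rt m (s 0) ^ 15 := by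
      rw [mul_pow, mul_pow, k1, k2]; ring
    have k6 : rt m (s 0) ^ 25 = rt m (s 0) ^ 45 := by
      calc rt m (s 0) ^ 25 = ((rt m (s 0) * rt m (s 1) * rt m (s 2)) ^ 3) ^ 5 := by
            rw [k4]; ring
        _ = ((rt m (s 0) * rt m (s 1) * rt m (s 2)) ^ 5) ^ 3 := by ring
        _ = rt m (s 0) ^ 45 := by rw [k5]; ring
    have k7 : rt m (20 * s 0) = 1 := by
      have : rt m (20 * s 0) = rt m (s 0) ^ 20 := rt_mul m 20 (s 0)
      rw [this]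
      apply mul_left_cancel₀ (pow_ne_zero 25 (rt_ne_zero m (s 0)))
      linear_combination -k6
    rw [rt_eq_one_iff m hm] at k7
    have h3 : (8 : ℤ) ∣ 20 * s 0 := Dvd.dvd.trans ⟨c, by rw [hc]; push_cast; ring⟩ k7
    omega

theorem H7 (m : ℕ) (hm : 0 < m) (h8 : 8 ∣ m) (s : Fin 6 → ℤ) (hrel : Rel (2 * m) s)
    (w0 : s 0 % 4 = 1) (w1 : s 1 % 4 = 1) (w2 : s 2 % 4 = 1)
    (w3 : s 3 % 4 = 1) (w4 : s 4 % 4 = 2) (w5 : s 5 % 4 = 2)
    (hd : (s 0 + s 1 + s 2 - s 3 - s 4 - s 5) % 8 = 2 ∨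
      (s 0 + s 1 + s 2 - s 3 - s 4 - s 5) % 8 = 6) : Goal m s := by
  rcases hd with hd | hd
  · exact H7a m hm h8 s hrel w0 w1 w2 w3 w4 w5 hd
  · have E : ∀ i, sact 1 ![1, 1, 1, 1, 1, -1] s i =
        ((![1, 1, 1, 1, 1, -1] : Fin 6 → ℤˣ) i : ℤ) * s i := fun i => by simp [sact]
    have E0 : sact 1 ![1, 1, 1, 1, 1, -1] s 0 = s 0 := by rw [E]; simp
    have E1 : sact 1 ![1, 1, 1, 1, 1, -1] s 1 = s 1 := by rw [E]; simp
    have E2 : sact 1 ![1, 1, 1, 1, 1, -1] s 2 = s 2 := by rw [E]; simp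
    have E3 : sact 1 ![1, 1, 1, 1, 1, -1] s 3 = s 3 := by rw [E]; simp
    have E4 : sact 1 ![1, 1, 1, 1, 1, -1] s 4 = s 4 := by rw [E]; simp
    have E5 : sact 1 ![1, 1, 1, 1, 1, -1] s 5 = -s 5 := by rw [E]; simp
    refine goal_of_same m s _ (same_sact m 1 ![1, 1, 1, 1, 1, -1] (Or.inl one_SP) s) ?_
    exact H7a m hm h8 _ ((rel_sact _ _ _ (Or.inl one_SP) s).2 hrel)
      (by omega) (by omega) (by omega) (by omega) (by omega) (by omega) (by omega)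

theorem tri1 (a b c : ℤ) (ha : a % 4 = 0 ∨ a % 4 = 1 ∨ a % 4 = 2)
    (hb : b % 4 = 0 ∨ b % 4 = 1 ∨ b % 4 = 2) (hc : c % 4 = 0 ∨ c % 4 = 1 ∨ c % 4 = 2)
    (h1 : a % 4 ≤ b % 4) (h2 : b % 4 ≤ c % 4) (h : a % 2 + b % 2 + c % 2 = 1) :
    (a % 4 = 0 ∧ b % 4 = 0 ∧ c % 4 = 1) ∨ (a % 4 = 0 ∧ b % 4 = 1 ∧ c % 4 = 2) ∨
      (a % 4 = 1 ∧ b % 4 = 2 ∧ c % 4 = 2) := by
  rcases ha with ha | ha | ha <;> rcases hb with hb | hb | hb <;>
    rcases hc with hc | hc | hc <;> omega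

theorem tri2 (a b c : ℤ) (ha : a % 4 = 0 ∨ a % 4 = 1 ∨ a % 4 = 2)
    (hb : b % 4 = 0 ∨ b % 4 = 1 ∨ b % 4 = 2) (hc : c % 4 = 0 ∨ c % 4 = 1 ∨ c % 4 = 2)
    (h1 : a % 4 ≤ b % 4) (h2 : b % 4 ≤ c % 4) (h : a % 2 + b % 2 + c % 2 = 2) :
    (a % 4 = 0 ∧ b % 4 = 1 ∧ c % 4 = 1) ∨ (a % 4 = 1 ∧ b % 4 = 1 ∧ c % 4 = 2) := by
  rcases ha with ha | ha | ha <;> rcases hb with hb | hb | hb <;>
    rcases hc with hc | hc | hc <;> omega

theorem tri3 (a b c : ℤ) (ha : a % 4 = 0 ∨ a % 4 = 1 ∨ a % 4 = 2)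
    (hb : b % 4 = 0 ∨ b % 4 = 1 ∨ b % 4 = 2) (hc : c % 4 = 0 ∨ c % 4 = 1 ∨ c % 4 = 2)
    (h : a % 2 + b % 2 + c % 2 = 3) : a % 4 = 1 ∧ b % 4 = 1 ∧ c % 4 = 1 := by
  rcases ha with ha | ha | ha <;> rcases hb with hb | hb | hb <;>
    rcases hc with hc | hc | hc <;> omega

/-- the case of a left side with at least as many odd entries -/
theorem high_norm (m : ℕ) (hm : 0 < m) (h8 : 8 ∣ m) (t : Fin 6 → ℤ) (hrel : Rel (2 * m) t)
    (hnd : ND (2 * m) t) (hlo : ∀ i, t i % 4 = 0 ∨ t i % 4 = 1 ∨ t i % 4 = 2)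
    (h01 : t 0 % 4 ≤ t 1 % 4) (h12 : t 1 % 4 ≤ t 2 % 4)
    (h34 : t 3 % 4 ≤ t 4 % 4) (h45 : t 4 % 4 ≤ t 5 % 4)
    (ho : ((t 0 % 2) + (t 1 % 2) + (t 2 % 2) = 2 ∧ (t 3 % 2) + (t 4 % 2) + (t 5 % 2) = 2 ∧
        t 3 % 4 ≤ t 0 % 4) ∨
      ((t 0 % 2) + (t 1 % 2) + (t 2 % 2) = 3 ∧ (t 3 % 2) + (t 4 % 2) + (t 5 % 2) = 1) ∨
      ((t 0 % 2) + (t 1 % 2) + (t 2 % 2) = 3 ∧ (t 3 % 2) + (t 4 % 2) + (t 5 % 2) = 3)) :
    Goal m t := by
  have l0 := hlo 0
  have l1 := hlo 1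
  have l2 := hlo 2
  have l3 := hlo 3
  have l4 := hlo 4
  have l5 := hlo 5
  rcases ho with ⟨a, b, hle⟩ | ⟨a, b⟩ | ⟨a, b⟩
  · -- (2|2)
    rcases tri2 _ _ _ l0 l1 l2 h01 h12 a with ⟨c0, c1, c2⟩ | ⟨c0, c1, c2⟩ <;>
    rcases tri2 _ _ _ l3 l4 l5 h34 h45 b with ⟨c3, c4, c5⟩ | ⟨c3, c4, c5⟩
    · exact H1 m hm h8 t hrel hnd c0 c1 c2 c3 c4 c5
        (by clear l0 l1 l2 l3 l4 l5 h01 h12 h34 h45 hlo a b; omega)
    · rw [c0, c3] at hle
      norm_num at hle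
    · exact H3 m hm h8 t hrel hnd c0 c1 c2 c3 c4 c5
        (by clear l0 l1 l2 l3 l4 l5 h01 h12 h34 h45 hlo a b; omega)
    · exact H2 m hm h8 t hrel hnd c0 c1 c2 c3 c4 c5
        (by clear l0 l1 l2 l3 l4 l5 h01 h12 h34 h45 hlo a b; omega)
  · -- (3|1)
    obtain ⟨c0, c1, c2⟩ := tri3 _ _ _ l0 l1 l2 a
    rcases tri1 _ _ _ l3 l4 l5 h34 h45 b with ⟨c3, c4, c5⟩ | ⟨c3, c4, c5⟩ | ⟨c3, c4, c5⟩
    · exact H5 m hm h8 t hrel c0 c1 c2 c3 c4 c5
        (by clear l0 l1 l2 l3 l4 l5 h01 h12 h34 h45 hlo a b; omega)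
    · exact H6 m hm h8 t hrel hnd c0 c1 c2 c3 c4 c5
        (by clear l0 l1 l2 l3 l4 l5 h01 h12 h34 h45 hlo a b; omega)
    · exact H7 m hm h8 t hrel c0 c1 c2 c3 c4 c5
        (by clear l0 l1 l2 l3 l4 l5 h01 h12 h34 h45 hlo a b; omega)
  · obtain ⟨c0, c1, c2⟩ := tri3 _ _ _ l0 l1 l2 a
    obtain ⟨c3, c4, c5⟩ := tri3 _ _ _ l3 l4 l5 b
    exact H4 m hm h8 t hrel hnd c0 c1 c2 c3 c4 c5
      (by clear l0 l1 l2 l3 l4 l5 h01 h12 h34 h45 hlo a b; omega)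

end T4

theorem t4_low (m : ℕ) (hm : 0 < m) (h4 : 4 ∣ m) (s : Fin 6 → ℤ)
    (hrel : Rel (2 * m) s) (hnd : ND (2 * m) s) (ho : ∃ i, Odd (s i)) :
    NI (ang m s) ∨ (∃ s', Same (ang m s) (ang m s') ∧ M20 m s') ∨ OddType s := by
  obtain ⟨σ, ε, hσ, _, h01, h12, h34, h45⟩ := exists_norm 2 (by norm_num) s
  set t := sact σ ε s with ht
  have hrel' : Rel (2 * m) t := (rel_sact _ σ ε (Or.inl hσ) s).2 hrel
  have hnd' : ND (2 * m) t := (nd_sact _ σ ε s).2 hnd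
  have hsame : Same (ang m s) (ang m t) := same_sact m σ ε (Or.inl hσ) s
  have ho' : ∃ i, t i % 2 = 1 := by
    obtain ⟨i, hi⟩ := ho
    refine ⟨σ.symm i, ?_⟩
    rw [ht]
    unfold sact
    rw [Equiv.apply_symm_apply]
    rw [Int.odd_iff] at hi
    rcases Int.units_eq_one_or (ε (σ.symm i)) with h | h
    · simp [h, hi]
    · simp [h]; omega
  have hpar := T4.parity m hm h4 t hrel' hnd'
  suffices h : NI (ang m t) ∨ (∃ s', Same (ang m t) (ang m s') ∧ M20 m s') ∨ OddType t by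
    rcases h with h | ⟨s', h1, h2⟩ | h
    · exact Or.inl (same_ni _ _ (T4.Same.symm' hsame) h)
    · exact Or.inr (Or.inl ⟨s', T4.Same.trans' hsame h1, h2⟩)
    · exact Or.inr (Or.inr (T4.oddType_sact σ ε hσ s h))
  have hos : (t 0 % 2 = 1 ∨ t 1 % 2 = 1 ∨ t 2 % 2 = 1 ∨ t 3 % 2 = 1 ∨ t 4 % 2 = 1 ∨
      t 5 % 2 = 1) := by
    obtain ⟨i, hi⟩ := ho'
    fin_cases i <;> simp at hi <;> tauto
  push_cast at h01 h12 h34 h45
  by_cases hOT : OddType t
  · exact Or.inr (Or.inr hOT)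
  rw [T4.oddType_iff] at hOT
  simp only at hOT
  -- the possible patterns
  by_cases hA : t 2 % 2 = 1 ∧ t 5 % 2 = 1
  · left
    exact T4.low11 m hm h4 t hrel' hnd' (by omega) (by omega) hA.1 (by omega) (by omega) hA.2
  by_cases hB : t 2 % 2 = 1
  · right; left
    exact T4.low20 m hm h4 t hrel' hnd' (by omega) (by omega) hB (by omega) (by omega) (by omega)
  · right; left
    have hrel2 : Rel (2 * m) (sact T4.exch 1 t) :=
      (rel_sact _ T4.exch 1 (Or.inr T4.exch_SW) t).2 hrel'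
    have hnd2 : ND (2 * m) (sact T4.exch 1 t) := (nd_sact _ T4.exch 1 t).2 hnd'
    have e : ∀ i, sact T4.exch 1 t i = t (T4.exch i) := fun i => by simp [sact]
    have e0 : sact T4.exch 1 t 0 = t 3 := e 0
    have e1 : sact T4.exch 1 t 1 = t 4 := e 1
    have e2 : sact T4.exch 1 t 2 = t 5 := e 2
    have e3 : sact T4.exch 1 t 3 = t 0 := e 3
    have e4 : sact T4.exch 1 t 4 = t 1 := e 4
    have e5 : sact T4.exch 1 t 5 = t 2 := e 5
    obtain ⟨s', h1, h2⟩ := T4.low20 m hm h4 _ hrel2 hnd2 (by omega) (by omega) (by omega)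
      (by omega) (by omega) (by omega)
    exact ⟨s', T4.Same.trans' (same_sact m T4.exch 1 (Or.inr T4.exch_SW) t) h1, h2⟩

theorem t4_high (m : ℕ) (hm : 0 < m) (h8 : 8 ∣ m) (s : Fin 6 → ℤ)
    (hrel : Rel (2 * m) s) (hnd : ND (2 * m) s) (ho : OddType s) :
    Triv (ang m s) ∨ NI (ang m s) ∨
      ∃ s', Same (ang m s) (ang m s') ∧ (M22 m s' ∨ (Rel (2 * m) s' ∧ Spc m s')) := by
  obtain ⟨σ, ε, hσ, hres, h01, h12, h34, h45⟩ := exists_norm 4 (by norm_num) s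
  set t := sact σ ε s with ht
  have hrel' : Rel (2 * m) t := (rel_sact _ σ ε (Or.inl hσ) s).2 hrel
  have hnd' : ND (2 * m) t := (nd_sact _ σ ε s).2 hnd
  have hsame : Same (ang m s) (ang m t) := same_sact m σ ε (Or.inl hσ) s
  refine T4.goal_of_same m s t hsame ?_
  have ho' : OddType t := T4.oddType_sact' σ ε hσ s ho
  rw [T4.oddType_iff] at ho'
  simp only at ho'
  push_cast at hres h01 h12 h34 h45
  have hlo : ∀ i, t i % 4 = 0 ∨ t i % 4 = 1 ∨ t i % 4 = 2 := by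
    intro i
    have := hres i
    clear ho' h01 h12 h34 h45 hres
    omega
  clear hres
  have hsw : (((t 3 % 2) + (t 4 % 2) + (t 5 % 2) = 2 ∧ (t 0 % 2) + (t 1 % 2) + (t 2 % 2) = 2 ∧
        t 0 % 4 ≤ t 3 % 4) ∨
      ((t 3 % 2) + (t 4 % 2) + (t 5 % 2) = 3 ∧ (t 0 % 2) + (t 1 % 2) + (t 2 % 2) = 1) ∨
      ((t 3 % 2) + (t 4 % 2) + (t 5 % 2) = 3 ∧ (t 0 % 2) + (t 1 % 2) + (t 2 % 2) = 3)) →
      T4.Goal m t := by
    intro hsw
    have hrel2 : Rel (2 * m) (sact T4.exch 1 t) :=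
      (rel_sact _ T4.exch 1 (Or.inr T4.exch_SW) t).2 hrel'
    have hnd2 : ND (2 * m) (sact T4.exch 1 t) := (nd_sact _ T4.exch 1 t).2 hnd'
    have e : ∀ i, sact T4.exch 1 t i = t (T4.exch i) := fun i => by simp [sact]
    have e0 : sact T4.exch 1 t 0 = t 3 := e 0
    have e1 : sact T4.exch 1 t 1 = t 4 := e 1
    have e2 : sact T4.exch 1 t 2 = t 5 := e 2
    have e3 : sact T4.exch 1 t 3 = t 0 := e 3
    have e4 : sact T4.exch 1 t 4 = t 1 := e 4
    have e5 : sact T4.exch 1 t 5 = t 2 := e 5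
    refine T4.goal_of_same m t _ (same_sact m T4.exch 1 (Or.inr T4.exch_SW) t) ?_
    refine T4.high_norm m hm h8 _ hrel2 hnd2 (fun i => by rw [e]; exact hlo _) ?_ ?_ ?_ ?_ ?_
    · rw [e0, e1]; exact h34
    · rw [e1, e2]; exact h45
    · rw [e3, e4]; exact h01
    · rw [e4, e5]; exact h12
    · rw [e0, e1, e2, e3, e4, e5]; exact hsw
  rcases ho' with ⟨a, b⟩ | ⟨a, b⟩ | ⟨a, b⟩ | ⟨a, b⟩
  · by_cases hle : t 3 % 4 ≤ t 0 % 4
    · exact T4.high_norm m hm h8 t hrel' hnd' hlo h01 h12 h34 h45 (Or.inl ⟨a, b, hle⟩)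
    · exact hsw (Or.inl ⟨b, a, (not_le.1 hle).le⟩)
  · exact T4.high_norm m hm h8 t hrel' hnd' hlo h01 h12 h34 h45 (Or.inr (Or.inl ⟨a, b⟩))
  · exact hsw (Or.inr (Or.inl ⟨b, a⟩))
  · exact T4.high_norm m hm h8 t hrel' hnd' hlo h01 h12 h34 h45 (Or.inr (Or.inr ⟨a, b⟩))

end Pool.Agent.TriCos
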