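import Pool.Agent.Lib_MP_6e4ab6_nt.Full.ClosDT
import Pool.Agent.Lib_MP_6e4ab6_nt.Full.ClosSp
import Pool.Agent.Lib_MP_6e4ab6_nt.Full.T4

/-! Lifting the conclusion from lower levels. -/

namespace Pool.Agent.TriCos

open Finset

theorem sol_iff (a0 a1 a2 a3 a4 a5 : ℚ) : Sol ![a0, a1, a2, a3, a4, a5] ↔
    (c2 (a0 : ℝ) ≠ 0 ∧ c2 (a1 : ℝ) ≠ 0 ∧ c2 (a2 : ℝ) ≠ 0 ∧ c2 (a3 : ℝ) ≠ 0 ∧ c2 (a4 : ℝ) ≠ 0 ∧
      c2 (a5 : ℝ) ≠ 0) ∧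
    c2 (a0 : ℝ) * c2 (a1 : ℝ) * c2 (a2 : ℝ) = c2 (a3 : ℝ) * c2 (a4 : ℝ) * c2 (a5 : ℝ) := by
  unfold Sol
  constructor
  · rintro ⟨h1, h2⟩
    exact ⟨⟨h1 0, h1 1, h1 2, h1 3, h1 4, h1 5⟩, h2⟩
  · rintro ⟨⟨h0, h1, h2, h3, h4, h5⟩, h⟩
    refine ⟨fun i => ?_, h⟩
    fin_cases i
    · exact h0
    · exact h1
    · exact h2
    · exact h3
    · exact h4
    · exact h5

theorem c2_thirdQ : c2 ((1/3 : ℚ) : ℝ) = 1 := by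
  have h := c2_third
  have e : ((1/3 : ℚ) : ℝ) = 1/3 := by push_cast; ring
  rw [e]; exact h

theorem D2_sol (x y : ℚ) (b0 b1 b2 : ℚ) (hs : Sol ![x, x + 1/2, y, b0, b1, b2]) :
    Sol ![2 * x + 1/2, y, 1/3, b0, b1, b2] := by
  rw [sol_iff] at hs ⊢
  obtain ⟨⟨h0, h1, h2, h3, h4, h5⟩, h⟩ := hs
  have e : c2 ((2 * x + 1/2 : ℚ) : ℝ) = c2 (x : ℝ) * c2 ((x + 1/2 : ℚ) : ℝ) := by
    have := c2_double (x : ℝ)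
    push_cast
    rw [this]
  refine ⟨⟨?_, h2, ?_, h3, h4, h5⟩, ?_⟩
  · rw [e]; exact mul_ne_zero h0 h1
  · rw [c2_thirdQ]; norm_num
  · rw [e, c2_thirdQ, mul_one]; exact h

theorem D2_concl (x y : ℚ) (b0 b1 b2 : ℚ) (hx : c2 (x : ℝ) ≠ 1) (hx' : c2 ((x + 1/2 : ℚ) : ℝ) ≠ 1)
    (hs : Sol ![x, x + 1/2, y, b0, b1, b2]) (h : Concl ![2 * x + 1/2, y, 1/3, b0, b1, b2]) :
    Concl ![x, x + 1/2, y, b0, b1, b2] := by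
  have hx2 : c2 ((x : ℝ) + 1/2) ≠ 1 := by
    have e : ((x + 1/2 : ℚ) : ℝ) = (x : ℝ) + 1/2 := by push_cast; ring
    rw [← e]; exact hx'
  have key : (Triv ![2 * x + 1/2, y, 1/3, b0, b1, b2] ∨ NI ![2 * x + 1/2, y, 1/3, b0, b1, b2]) →
      Concl ![x, x + 1/2, y, b0, b1, b2] := by
    intro h'
    rcases D2_ni x y ![b0, b1, b2] hx hx2 hs h' with h1 | ⟨h1, h2, h3⟩
    · exact Or.inr (Or.inl h1)
    · have h4 := D2_thirds x y ![b0, b1, b2] ⟨by push_cast; exact h1, h2, h3⟩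
      exact h4
  rcases h with h | h | h
  · exact key (Or.inl h)
  · exact key (Or.inr h)
  · exact D2_tab x y ![b0, b1, b2] h

theorem T3_sol (x : ℚ) (b0 b1 b2 : ℚ) (hs : Sol ![x, x + 1/3, x - 1/3, b0, b1, b2]) :
    Sol ![3 * x, 1/3, 1/3, b0, b1, b2] := by
  rw [sol_iff] at hs ⊢
  obtain ⟨⟨h0, h1, h2, h3, h4, h5⟩, h⟩ := hs
  have e : c2 ((3 * x : ℚ) : ℝ) = c2 (x : ℝ) * c2 ((x + 1/3 : ℚ) : ℝ) * c2 ((x - 1/3 : ℚ) : ℝ) := by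
    have := c2_triple (x : ℝ)
    push_cast
    rw [this]
  refine ⟨⟨?_, ?_, ?_, h3, h4, h5⟩, ?_⟩
  · rw [e]; exact mul_ne_zero (mul_ne_zero h0 h1) h2
  · rw [c2_thirdQ]; norm_num
  · rw [c2_thirdQ]; norm_num
  · rw [e, c2_thirdQ, mul_one, mul_one]; exact h

theorem T3_concl (x : ℚ) (b0 b1 b2 : ℚ) (hx : c2 (x : ℝ) ≠ 1) (hx' : c2 ((x + 1/3 : ℚ) : ℝ) ≠ 1)
    (hx'' : c2 ((x - 1/3 : ℚ) : ℝ) ≠ 1)
    (hs : Sol ![x, x + 1/3, x - 1/3, b0, b1, b2]) (h : Concl ![3 * x, 1/3, 1/3, b0, b1, b2]) :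
    Concl ![x, x + 1/3, x - 1/3, b0, b1, b2] := by
  have hx2 : c2 ((x : ℝ) + 1/3) ≠ 1 := by
    have e : ((x + 1/3 : ℚ) : ℝ) = (x : ℝ) + 1/3 := by push_cast; ring
    rw [← e]; exact hx'
  have hx3 : c2 ((x : ℝ) - 1/3) ≠ 1 := by
    have e : ((x - 1/3 : ℚ) : ℝ) = (x : ℝ) - 1/3 := by push_cast; ring
    rw [← e]; exact hx''
  have key : (Triv ![3 * x, 1/3, 1/3, b0, b1, b2] ∨ NI ![3 * x, 1/3, 1/3, b0, b1, b2]) →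
      Concl ![x, x + 1/3, x - 1/3, b0, b1, b2] := by
    intro h'
    rcases T3_ni x ![b0, b1, b2] hx hx2 hx3 hs h' with h1 | ⟨h1, h2⟩
    · exact Or.inr (Or.inl h1)
    · have h4 := T3_thirds x ![b0, b1, b2] ⟨by push_cast; exact h1, h2⟩
      exact h4
  rcases h with h | h | h
  · exact key (Or.inl h)
  · exact key (Or.inr h)
  · exact T3_tab x ![b0, b1, b2] h

end Pool.Agent.TriCos
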