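import Pool.Agent.Lib_MP_6e4ab6_nt.Full.NIdefs

/-!
# A line of solutions gives a polynomial identity
-/

namespace Pool.Agent.TriCos

open Finset Polynomial

/-! ### the identity `|P|² ξ X^W = P²` on the unit circle -/

theorem lp_factor (y : ℂ) (hy : ‖y‖ = 1) : ((Complex.normSq (1 + y) : ℝ) : ℂ) * y = (1 + y) ^ 2 := by
  have h1 : (starRingEnd ℂ) y * y = 1 := by
    rw [mul_comm, Complex.mul_conj, Complex.normSq_eq_norm_sq, hy]
    norm_num
  rw [← Complex.mul_conj, map_add, map_one]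
  linear_combination (1 + y) * h1

theorem lp_eval (M : Multiset (ℂ × ℕ)) (z : ℂ) :
    (PP M).eval z = (M.map (fun t => 1 + t.1 * z ^ t.2)).prod := by
  unfold PP
  rw [Polynomial.eval_multiset_prod, Multiset.map_map]
  congr 1
  apply Multiset.map_congr rfl
  intro t _
  simp

theorem lp_conj (M : Multiset (ℂ × ℕ)) (hM : ∀ t ∈ M, ‖t.1‖ = 1) (z : ℂ) (hz : ‖z‖ = 1) :
    ((Complex.normSq ((PP M).eval z) : ℝ) : ℂ) *
      ((M.map Prod.fst).prod * z ^ (M.map Prod.snd).sum) = ((PP M).eval z) ^ 2 := by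
  induction M using Multiset.induction_on with
  | empty => simp [PP]
  | cons t M ih =>
    have h1 := ih (fun s hs => hM s (Multiset.mem_cons_of_mem hs))
    have ht := hM t (Multiset.mem_cons_self t M)
    rw [lp_eval] at h1 ⊢
    simp only [Multiset.map_cons, Multiset.prod_cons, Multiset.sum_cons, map_mul,
      Complex.ofReal_mul]
    have h2 := lp_factor (t.1 * z ^ t.2) (by rw [norm_mul, norm_pow, ht, hz]; simp)
    rw [pow_add, mul_pow, ← h1, ← h2]
    ring

theorem lp_zero (M : Multiset (ℂ × ℕ)) (hM : ∀ t ∈ M, 0 < t.2) : (PP M).coeff 0 = 1 := by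
  rw [Polynomial.coeff_zero_eq_eval_zero, lp_eval]
  apply Multiset.prod_eq_one
  intro x hx
  obtain ⟨t, ht, rfl⟩ := Multiset.mem_map.1 hx
  rw [zero_pow (hM t ht).ne', mul_zero, add_zero]

theorem lp_prod_norm (M : Multiset (ℂ × ℕ)) (hM : ∀ t ∈ M, ‖t.1‖ = 1) :
    ‖(M.map Prod.fst).prod‖ = 1 := by
  induction M using Multiset.induction_on with
  | empty => simp
  | cons t M ih =>
    have h1 := ih (fun s hs => hM s (Multiset.mem_cons_of_mem hs))
    have ht := hM t (Multiset.mem_cons_self t M)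
    rw [Multiset.map_cons, Multiset.prod_cons, norm_mul, ht, h1, mul_one]

/-- points of the circle -/
noncomputable def lp_pt (θ : ℝ) : ℂ := Complex.exp (2 * Real.pi * Complex.I * θ)

theorem lp_pt_norm (θ : ℝ) : ‖lp_pt θ‖ = 1 := by
  unfold lp_pt
  have : (2 * Real.pi * Complex.I * θ : ℂ) = ((2 * Real.pi * θ : ℝ) : ℂ) * Complex.I := by
    push_cast; ring
  rw [this]
  exact Complex.norm_exp_ofReal_mul_I _

theorem lp_pt_inj (n m : ℕ) (h : lp_pt (1 / (n + 2 : ℝ)) = lp_pt (1 / (m + 2 : ℝ))) : n = m := by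
  unfold lp_pt at h
  rw [Complex.exp_eq_exp_iff_exists_int] at h
  obtain ⟨k, hk⟩ := h
  have h2 : (2 * Real.pi * Complex.I : ℂ) ≠ 0 := Complex.two_pi_I_ne_zero
  have h3 : ((1 / (n + 2 : ℝ) : ℝ) : ℂ) = ((1 / (m + 2 : ℝ) : ℝ) : ℂ) + k := by
    apply mul_left_cancel₀ h2
    rw [hk]
    ring
  have h4 : (1 / (n + 2 : ℝ)) = (1 / (m + 2 : ℝ)) + k := by exact_mod_cast h3
  have hn : (0 : ℝ) < 1 / (n + 2 : ℝ) := by positivity
  have hm : (0 : ℝ) < 1 / (m + 2 : ℝ) := by positivity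
  have hn1 : 1 / (n + 2 : ℝ) < 1 := by
    rw [div_lt_one (by positivity)]
    have : (0 : ℝ) ≤ n := Nat.cast_nonneg n
    linarith
  have hm1 : 1 / (m + 2 : ℝ) < 1 := by
    rw [div_lt_one (by positivity)]
    have : (0 : ℝ) ≤ m := Nat.cast_nonneg m
    linarith
  have hk1 : (k : ℝ) < 1 := by linarith
  have hk2 : (-1 : ℝ) < k := by linarith
  have hk3 : k < 1 := by exact_mod_cast hk1
  have hk4 : -1 < k := by exact_mod_cast hk2
  have hk0 : k = 0 := by omega
  rw [hk0] at h4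
  have hn0 : (n + 2 : ℝ) ≠ 0 := by positivity
  have hm0 : (m + 2 : ℝ) ≠ 0 := by positivity
  have h5 : (n + 2 : ℝ) = m + 2 := by
    field_simp at h4
    push_cast at h4
    linarith
  have h6 : (n : ℝ) = m := by linarith
  exact_mod_cast h6

/-- the main comparison -/
theorem lp_main (M N : Multiset (ℂ × ℕ)) (hM : ∀ t ∈ M, ‖t.1‖ = 1 ∧ 0 < t.2)
    (hN : ∀ t ∈ N, ‖t.1‖ = 1 ∧ 0 < t.2) (K K' : ℝ) (hK : 0 < K) (hK' : 0 < K')
    (h : ∀ θ : ℝ, K * Complex.normSq ((PP M).eval (lp_pt θ)) =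
      K' * Complex.normSq ((PP N).eval (lp_pt θ))) : K = K' ∧ PP M = PP N := by
  set A : ℂ := (M.map Prod.fst).prod with hA
  set B : ℂ := (N.map Prod.fst).prod with hB
  set W : ℕ := (M.map Prod.snd).sum with hW
  set W' : ℕ := (N.map Prod.snd).sum with hW'
  have hAn : ‖A‖ = 1 := lp_prod_norm M (fun t ht => (hM t ht).1)
  have hBn : ‖B‖ = 1 := lp_prod_norm N (fun t ht => (hN t ht).1)
  have hA0 : A ≠ 0 := by rw [← norm_ne_zero_iff, hAn]; norm_num
  have hB0 : B ≠ 0 := by rw [← norm_ne_zero_iff, hBn]; norm_num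
  have hP0 := lp_zero M (fun t ht => (hM t ht).2)
  have hQ0 := lp_zero N (fun t ht => (hN t ht).2)
  have key : X ^ W' * (C ((K : ℂ) * B) * PP M ^ 2) = X ^ W * (C ((K' : ℂ) * A) * PP N ^ 2) := by
    apply Polynomial.eq_of_infinite_eval_eq
    apply Set.infinite_of_injective_forall_mem (f := fun n : ℕ => lp_pt (1 / (n + 2 : ℝ)))
    · intro n m hnm
      exact lp_pt_inj n m hnm
    · intro n
      set z := lp_pt (1 / (n + 2 : ℝ)) with hz
      have hzn : ‖z‖ = 1 := lp_pt_norm _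
      have h1 := lp_conj M (fun t ht => (hM t ht).1) z hzn
      have h2 := lp_conj N (fun t ht => (hN t ht).1) z hzn
      have h3 := congrArg (fun x : ℝ => (x : ℂ)) (h (1 / (n + 2 : ℝ)))
      simp only [Complex.ofReal_mul] at h3
      rw [← hz] at h3
      show Polynomial.eval z _ = Polynomial.eval z _
      simp only [Polynomial.eval_mul, Polynomial.eval_pow, Polynomial.eval_X, Polynomial.eval_C]
      rw [← h1, ← h2]
      linear_combination (z ^ W' * B * A * z ^ W) * h3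
  have c0 : ∀ (α : ℂ) (P : ℂ[X]), P.coeff 0 = 1 → (C α * P ^ 2).coeff 0 = α := by
    intro α P hP
    rw [Polynomial.coeff_C_mul, Polynomial.coeff_zero_eq_eval_zero, Polynomial.eval_pow,
      ← Polynomial.coeff_zero_eq_eval_zero, hP]
    ring
  have hKB : (K : ℂ) * B ≠ 0 := mul_ne_zero (by exact_mod_cast hK.ne') hB0
  have hKA : (K' : ℂ) * A ≠ 0 := mul_ne_zero (by exact_mod_cast hK'.ne') hA0
  have hWW : W = W' := by
    rcases lt_trichotomy W W' with hlt | heq | hgt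
    · exfalso
      have := congrArg (fun p : ℂ[X] => p.coeff W) key
      simp only [Polynomial.coeff_X_pow_mul'] at this
      rw [if_neg (by omega), if_pos le_rfl, Nat.sub_self, c0 _ _ hQ0] at this
      exact hKA this.symm
    · exact heq
    · exfalso
      have := congrArg (fun p : ℂ[X] => p.coeff W') key
      simp only [Polynomial.coeff_X_pow_mul'] at this
      rw [if_pos le_rfl, if_neg (by omega), Nat.sub_self, c0 _ _ hP0] at this
      exact hKB this
  rw [hWW] at key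
  have key2 : C ((K : ℂ) * B) * PP M ^ 2 = C ((K' : ℂ) * A) * PP N ^ 2 :=
    mul_left_cancel₀ (pow_ne_zero _ Polynomial.X_ne_zero) key
  have hαβ : (K : ℂ) * B = (K' : ℂ) * A := by
    have := congrArg (fun p : ℂ[X] => p.coeff 0) key2
    simpa only [c0 _ _ hP0, c0 _ _ hQ0] using this
  have hKK : K = K' := by
    have := congrArg norm hαβ
    rw [norm_mul, norm_mul, hAn, hBn, mul_one, mul_one, Complex.norm_real, Complex.norm_real,
      Real.norm_of_nonneg hK.le, Real.norm_of_nonneg hK'.le] at this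
    exact this
  refine ⟨hKK, ?_⟩
  rw [hαβ] at key2
  have key3 : PP M ^ 2 = PP N ^ 2 := mul_left_cancel₀ (Polynomial.C_ne_zero.2 hKA) key2
  rcases sq_eq_sq_iff_eq_or_eq_neg.1 key3 with h1 | h1
  · exact h1
  · exfalso
    have := congrArg (fun p : ℂ[X] => p.coeff 0) h1
    simp only [Polynomial.coeff_neg, hP0, hQ0] at this
    norm_num at this

/-! ### entries -/

/-- the entry with nonnegative speed -/
def lp_ent (a : ℚ) (v : ℤ) : ℚ × ℕ := (if v < 0 then -a else a, v.natAbs)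

theorem lp_c2_ent (a : ℚ) (v : ℤ) (θ : ℝ) :
    c2 (((lp_ent a v).1 : ℝ) + ((lp_ent a v).2 : ℝ) * θ) = c2 ((a : ℝ) + (v : ℝ) * θ) := by
  unfold lp_ent
  by_cases h : v < 0
  · have h1 : ((v.natAbs : ℕ) : ℝ) = -(v : ℝ) := by
      have : ((v.natAbs : ℕ) : ℤ) = -v := Int.ofNat_natAbs_of_nonpos h.le
      have h2 : (((v.natAbs : ℕ) : ℤ) : ℝ) = ((-v : ℤ) : ℝ) := by rw [this]
      push_cast at h2
      simpa using h2
    simp only [if_pos h]
    rw [h1]
    have h3 : (((-a : ℚ) : ℝ) + -(v : ℝ) * θ) = -((a : ℝ) + (v : ℝ) * θ) := by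
      push_cast; ring
    rw [h3, c2_neg]
  · have h1 : ((v.natAbs : ℕ) : ℝ) = (v : ℝ) := by
      have : ((v.natAbs : ℕ) : ℤ) = v := Int.natAbs_of_nonneg (by omega)
      have h2 : (((v.natAbs : ℕ) : ℤ) : ℝ) = ((v : ℤ) : ℝ) := by rw [this]
      simpa using h2
    simp only [if_neg h]
    rw [h1]

theorem lp_c2_ent0 (a : ℚ) (v : ℤ) : c2 ((lp_ent a v).1 : ℝ) = c2 (a : ℝ) := by
  have := lp_c2_ent a v 0
  simpa using this

theorem lp_normSq (b : ℚ) (w : ℕ) (θ : ℝ) :
    c2 ((b : ℝ) + (w : ℝ) * θ) = Complex.normSq (1 + ee b * lp_pt θ ^ w) := by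
  rw [c2_eq_normSq]
  congr 2
  unfold ee lp_pt
  rw [← Complex.exp_nat_mul, ← Complex.exp_add]
  congr 1
  push_cast
  ring

theorem lp_ee_norm (b : ℚ) : ‖ee b‖ = 1 := by
  have := lp_pt_norm (b : ℝ)
  unfold lp_pt at this
  unfold ee
  simpa using this

theorem lp_prod_eval (L : Multiset (ℚ × ℕ)) (θ : ℝ) :
    (L.map (fun t => c2 ((t.1 : ℝ) + (t.2 : ℝ) * θ))).prod =
      Complex.normSq ((PP (prs L)).eval (lp_pt θ)) := by
  rw [lp_eval]
  unfold prs
  rw [Multiset.map_map]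
  induction L using Multiset.induction_on with
  | empty => simp
  | cons t L ih =>
    simp only [Multiset.map_cons, Multiset.prod_cons, map_mul, Function.comp_apply]
    rw [ih, lp_normSq]
    rfl

theorem lp_vals_eq (X : Multiset ℚ) :
    vals X = Multiset.map (fun x : ℚ => c2 ((x : ℚ) : ℝ)) X := by
  unfold vals
  simp only [Multiset.bind_def, Multiset.pure_def, Multiset.bind_singleton, Multiset.map_map]
  rfl

/-- the moved entries -/
def lp_mv (E : Multiset (ℚ × ℕ)) : Multiset (ℚ × ℕ) := E.filter (fun t => 0 < t.2)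

/-- the fixed entries -/
def lp_fx (E : Multiset (ℚ × ℕ)) : Multiset (ℚ × ℕ) := E.filter (fun t => ¬ 0 < t.2)

theorem lp_split (E : Multiset (ℚ × ℕ)) : lp_mv E + lp_fx E = E := Multiset.filter_add_not _ _

theorem lp_prod_split (E : Multiset (ℚ × ℕ)) (θ : ℝ) :
    (E.map (fun t => c2 ((t.1 : ℝ) + (t.2 : ℝ) * θ))).prod =
      (vals ((lp_fx E).map Prod.fst)).prod *
        Complex.normSq ((PP (prs (lp_mv E))).eval (lp_pt θ)) := by
  conv_lhs => rw [← lp_split E]
  rw [Multiset.map_add, Multiset.prod_add, lp_prod_eval, mul_comm]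
  congr 1
  rw [lp_vals_eq, Multiset.map_map]
  congr 1
  apply Multiset.map_congr rfl
  intro t ht
  have : t.2 = 0 := by
    have := (Multiset.mem_filter.1 ht).2
    omega
  simp [this]

theorem lp_vals_pos (E : Multiset ℚ) (h : ∀ x ∈ E, c2 (x : ℝ) ≠ 0) : 0 < (vals E).prod := by
  rw [lp_vals_eq]
  apply Multiset.prod_pos
  intro y hy
  obtain ⟨x, hx, rfl⟩ := Multiset.mem_map.1 hy
  have h1 : 0 ≤ c2 (x : ℝ) := by
    unfold c2
    positivity
  exact lt_of_le_of_ne h1 (h x hx).symm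

theorem line_poly (a : Fin 6 → ℚ) (hs : Sol a) (h : NI a) :
    ∃ (L R : Multiset (ℚ × ℕ)) (U V : Multiset ℚ),
      (L ≠ 0 ∨ R ≠ 0) ∧ (∀ t ∈ L, 0 < t.2 ∧ c2 (t.1 : ℝ) ≠ 1) ∧ (∀ t ∈ R, 0 < t.2 ∧ c2 (t.1 : ℝ) ≠ 1) ∧
      L.card + U.card = 3 ∧ R.card + V.card = 3 ∧
      L3 a = vals (L.map Prod.fst) + vals U ∧ R3 a = vals (R.map Prod.fst) + vals V ∧
      (vals U).prod = (vals V).prod ∧ PP (prs L) = PP (prs R) := by
  obtain ⟨v, hv, hone, hline⟩ := h
  set e : Fin 6 → ℚ × ℕ := fun i => lp_ent (a i) (v i) with he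
  set E : Multiset (ℚ × ℕ) := {e 0, e 1, e 2} with hE
  set F : Multiset (ℚ × ℕ) := {e 3, e 4, e 5} with hF
  have hmemE : ∀ t ∈ E, ∃ i, t = e i := by
    intro t ht
    simp only [hE, Multiset.insert_eq_cons, Multiset.mem_cons, Multiset.mem_singleton] at ht
    rcases ht with h | h | h
    · exact ⟨0, h⟩
    · exact ⟨1, h⟩
    · exact ⟨2, h⟩
  have hmemF : ∀ t ∈ F, ∃ i, t = e i := by
    intro t ht
    simp only [hF, Multiset.insert_eq_cons, Multiset.mem_cons, Multiset.mem_singleton] at ht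
    rcases ht with h | h | h
    · exact ⟨3, h⟩
    · exact ⟨4, h⟩
    · exact ⟨5, h⟩
  have hmv : ∀ i, 0 < (e i).2 → c2 ((e i).1 : ℝ) ≠ 1 := by
    intro i hi h1
    rw [he] at hi h1
    rw [lp_c2_ent0] at h1
    have := hone i h1
    simp only [lp_ent, this, Int.natAbs_zero] at hi
    omega
  have hne : ∀ i, c2 ((e i).1 : ℝ) ≠ 0 := by
    intro i
    rw [he, lp_c2_ent0]
    exact hs.1 i
  have hEl : ∀ t ∈ lp_mv E, 0 < t.2 ∧ c2 (t.1 : ℝ) ≠ 1 := by
    intro t ht
    obtain ⟨h1, h2⟩ := Multiset.mem_filter.1 ht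
    obtain ⟨i, rfl⟩ := hmemE t h1
    exact ⟨h2, hmv i h2⟩
  have hFl : ∀ t ∈ lp_mv F, 0 < t.2 ∧ c2 (t.1 : ℝ) ≠ 1 := by
    intro t ht
    obtain ⟨h1, h2⟩ := Multiset.mem_filter.1 ht
    obtain ⟨i, rfl⟩ := hmemF t h1
    exact ⟨h2, hmv i h2⟩
  have hEu : 0 < (vals ((lp_fx E).map Prod.fst)).prod := by
    apply lp_vals_pos
    intro x hx
    obtain ⟨t, ht, rfl⟩ := Multiset.mem_map.1 hx
    obtain ⟨i, rfl⟩ := hmemE t (Multiset.mem_filter.1 ht).1
    exact hne i
  have hFu : 0 < (vals ((lp_fx F).map Prod.fst)).prod := by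
    apply lp_vals_pos
    intro x hx
    obtain ⟨t, ht, rfl⟩ := Multiset.mem_map.1 hx
    obtain ⟨i, rfl⟩ := hmemF t (Multiset.mem_filter.1 ht).1
    exact hne i
  have hEF : ∀ θ : ℝ, (E.map (fun t => c2 ((t.1 : ℝ) + (t.2 : ℝ) * θ))).prod =
      (F.map (fun t => c2 ((t.1 : ℝ) + (t.2 : ℝ) * θ))).prod := by
    intro θ
    have h1 := hline θ
    simp only [hE, hF, Multiset.insert_eq_cons, Multiset.map_cons, Multiset.map_singleton,
      Multiset.prod_cons, Multiset.prod_singleton, he, lp_c2_ent]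
    linarith
  have hmain := lp_main (prs (lp_mv E)) (prs (lp_mv F)) (by
      intro t ht
      obtain ⟨s, hs', rfl⟩ := Multiset.mem_map.1 ht
      exact ⟨lp_ee_norm _, (hEl s hs').1⟩) (by
      intro t ht
      obtain ⟨s, hs', rfl⟩ := Multiset.mem_map.1 ht
      exact ⟨lp_ee_norm _, (hFl s hs').1⟩) _ _ hEu hFu (by
      intro θ
      rw [← lp_prod_split, ← lp_prod_split]
      exact hEF θ)
  have hcard : ∀ G : Multiset (ℚ × ℕ), (lp_mv G).card + ((lp_fx G).map Prod.fst).card = G.card := by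
    intro G
    rw [Multiset.card_map, ← Multiset.card_add, lp_split]
  have hvals : ∀ G : Multiset (ℚ × ℕ), vals ((lp_mv G).map Prod.fst) +
      vals ((lp_fx G).map Prod.fst) = vals (G.map Prod.fst) := by
    intro G
    rw [lp_vals_eq, lp_vals_eq, lp_vals_eq]
    rw [← Multiset.map_add, ← Multiset.map_add, lp_split]
  refine ⟨lp_mv E, lp_mv F, (lp_fx E).map Prod.fst, (lp_fx F).map Prod.fst, ?_, hEl, hFl, ?_, ?_,
    ?_, ?_, hmain.1, hmain.2⟩
  · by_contra hcon
    rw [not_or, not_not, not_not] at hcon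
    apply hv
    funext i
    have hz : ∀ t : ℚ × ℕ, t ∈ E ∨ t ∈ F → t.2 = 0 := by
      intro t ht
      by_contra ht0
      have hpos : 0 < t.2 := by omega
      rcases ht with ht | ht
      · have : t ∈ lp_mv E := Multiset.mem_filter.2 ⟨ht, hpos⟩
        rw [hcon.1] at this
        exact Multiset.notMem_zero _ this
      · have : t ∈ lp_mv F := Multiset.mem_filter.2 ⟨ht, hpos⟩
        rw [hcon.2] at this
        exact Multiset.notMem_zero _ this
    have hi : e i ∈ E ∨ e i ∈ F := by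
      fin_cases i <;> simp [hE, hF]
    have := hz _ hi
    simpa [he, lp_ent] using this
  · rw [hcard, hE]
    simp
  · rw [hcard, hF]
    simp
  · rw [hvals, hE, lp_vals_eq]
    unfold L3
    simp [he, lp_c2_ent0]
  · rw [hvals, hF, lp_vals_eq]
    unfold R3
    simp [he, lp_c2_ent0]

end Pool.Agent.TriCos
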