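import Mathlib

/-!
# The list of all solutions of the triple cosine product equation

`Family m x y` lists the pairs of triples `x`, `y` of integers for which the products of
`|cos (πk/m)|` over the entries `k` of `x` and of `y` are equal (up to the order of the entries, the
exchange of `x` and `y`, and replacing entries by integers congruent to plus or minus them modulo
`m`). `Listed m S T` says that the multisets `S`, `T` of natural numbers at most `m/2` are obtained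
from such a pair.
-/

namespace Pool.Agent.TriCos

/-- The sporadic solutions `(n, [a, b, c, d])` of the two cosine equation
`cos (πa/n) cos (πb/n) = cos (πc/n) cos (πd/n)` (up to the multipliers `u` prime to `2n`). -/
def pairTable : List (ℕ × List ℕ) :=
  [(15, [1, 4, 3, 3]), (15, [3, 6, 5, 5]), (30, [1, 7, 4, 6]), (30, [1, 11, 6, 10]),
   (42, [1, 13, 6, 12]), (60, [2, 22, 9, 21]), (60, [5, 25, 12, 24])]

/-- The rows `(n, [a, b, c, d, e, f])` of `tripleTable` with `n ≤ 60`. -/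
def tripleTable₁ : List (ℕ × List ℕ) :=
  [(21, [1, 7, 8, 3, 3, 9]), (21, [3, 6, 9, 7, 7, 7]), (30, [1, 1, 10, 4, 6, 8]),
   (30, [1, 1, 12, 4, 8, 10]), (30, [1, 1, 14, 8, 10, 12]), (30, [1, 2, 10, 6, 6, 7]),
   (30, [1, 2, 13, 6, 6, 12]), (30, [1, 2, 13, 6, 10, 10]), (30, [1, 6, 7, 2, 4, 8]),
   (30, [1, 6, 11, 2, 8, 10]), (30, [1, 6, 13, 8, 10, 10]), (30, [1, 10, 11, 2, 8, 12]),
   (30, [1, 10, 11, 6, 6, 12]), (30, [1, 11, 12, 10, 10, 10]), (42, [1, 1, 18, 8, 10, 16]),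
   (42, [1, 2, 11, 6, 6, 8]), (42, [1, 2, 19, 6, 10, 18]), (42, [1, 4, 17, 6, 12, 14]),
   (42, [1, 5, 12, 4, 8, 10]), (42, [1, 5, 14, 6, 8, 12]), (42, [1, 5, 18, 8, 14, 14]),
   (42, [1, 6, 19, 10, 14, 16]), (42, [1, 12, 13, 4, 10, 14]), (42, [1, 13, 18, 14, 14, 14]),
   (60, [1, 2, 12, 5, 7, 9]), (60, [1, 2, 13, 3, 5, 12]), (60, [1, 2, 14, 3, 9, 11]),
   (60, [1, 2, 21, 5, 7, 20]), (60, [1, 2, 25, 7, 9, 24]), (60, [1, 4, 23, 5, 9, 22]),
   (60, [1, 4, 25, 3, 17, 22]), (60, [1, 4, 29, 22, 22, 24]), (60, [1, 8, 29, 3, 24, 27]),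
   (60, [1, 8, 29, 14, 24, 26]), (60, [1, 8, 29, 20, 24, 24]), (60, [1, 12, 14, 3, 5, 17]),
   (60, [1, 12, 21, 5, 7, 22]), (60, [1, 12, 29, 4, 26, 26]), (60, [1, 12, 29, 20, 22, 26]),
   (60, [1, 13, 20, 3, 5, 22]), (60, [1, 13, 25, 3, 4, 26]), (60, [1, 13, 25, 3, 20, 22]),
   (60, [1, 13, 27, 5, 22, 24]), (60, [1, 14, 29, 22, 24, 24]), (60, [1, 16, 25, 7, 9, 26]),
   (60, [1, 16, 29, 12, 26, 26]), (60, [1, 19, 20, 3, 9, 24]), (60, [1, 19, 27, 9, 24, 24]),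
   (60, [1, 20, 29, 22, 24, 26]), (60, [2, 2, 28, 3, 16, 27]), (60, [2, 4, 26, 5, 12, 25]),
   (60, [2, 4, 26, 9, 20, 21]), (60, [2, 12, 26, 5, 16, 25]), (60, [2, 14, 20, 8, 9, 21]),
   (60, [2, 22, 24, 5, 20, 25]), (60, [3, 12, 27, 5, 20, 25]), (60, [3, 12, 27, 20, 20, 20]),
   (60, [3, 24, 27, 8, 20, 28])]

/-- The rows `(n, [a, b, c, d, e, f])` of `tripleTable` with `n > 60`. -/
def tripleTable₂ : List (ℕ × List ℕ) :=
  [(63, [7, 14, 28, 9, 18, 27]), (66, [1, 5, 28, 12, 18, 24]), (66, [1, 22, 23, 12, 18, 24]),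
   (70, [1, 10, 29, 14, 16, 26]), (84, [1, 2, 25, 5, 7, 24]), (84, [1, 4, 41, 26, 34, 36]),
   (84, [1, 12, 25, 5, 7, 26]), (84, [1, 16, 41, 10, 36, 38]), (84, [1, 16, 41, 24, 36, 36]),
   (84, [1, 20, 41, 24, 34, 38]), (84, [1, 28, 41, 26, 36, 38]), (84, [2, 8, 34, 9, 12, 33]),
   (84, [2, 8, 34, 15, 24, 27]), (84, [2, 10, 36, 7, 16, 35]), (84, [2, 26, 28, 9, 12, 33]),
   (84, [2, 26, 28, 15, 24, 27]), (84, [2, 26, 36, 7, 28, 35]), (84, [7, 28, 35, 12, 24, 36]),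
   (90, [1, 2, 31, 10, 18, 26]), (90, [1, 4, 33, 10, 20, 28]), (90, [1, 4, 40, 3, 28, 36]),
   (90, [1, 19, 36, 16, 20, 34]), (90, [1, 21, 40, 26, 28, 34]), (90, [2, 28, 32, 18, 21, 33]),
   (90, [3, 33, 36, 10, 20, 40]), (105, [15, 30, 45, 21, 35, 42]), (120, [1, 2, 59, 44, 48, 52]),
   (120, [1, 4, 43, 7, 11, 42]), (120, [1, 10, 49, 7, 17, 48]), (120, [1, 10, 59, 26, 52, 54]),
   (120, [1, 14, 59, 42, 50, 52]), (120, [1, 22, 59, 42, 48, 54]), (120, [1, 34, 59, 44, 50, 54]),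
   (120, [2, 4, 42, 14, 25, 35]), (120, [2, 26, 50, 27, 33, 44]), (120, [3, 6, 57, 4, 28, 56]),
   (120, [3, 6, 57, 28, 40, 52]), (120, [4, 44, 48, 5, 10, 55]), (120, [5, 10, 55, 6, 24, 54]),
   (126, [2, 40, 44, 15, 18, 51]), (126, [3, 39, 54, 14, 28, 56]), (140, [7, 28, 63, 20, 40, 60]),
   (168, [1, 2, 83, 52, 72, 76]), (168, [4, 52, 72, 7, 14, 77]), (168, [7, 14, 77, 24, 48, 72]),
   (180, [9, 36, 81, 20, 40, 80]), (210, [2, 7, 51, 22, 30, 38]), (210, [2, 68, 84, 30, 69, 81]),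
   (210, [5, 25, 90, 40, 42, 84]), (210, [5, 65, 90, 7, 77, 84]), (210, [5, 65, 90, 42, 70, 84]),
   (210, [7, 77, 84, 30, 60, 90]), (420, [10, 130, 180, 21, 84, 189])]

/-- The sporadic solutions `(n, [a, b, c, d, e, f])` of the three cosine equation
`cos (πa/n) cos (πb/n) cos (πc/n) = cos (πd/n) cos (πe/n) cos (πf/n)` (up to the multipliers `u`
prime to `2n`); 111 rows. -/
def tripleTable : List (ℕ × List ℕ) := tripleTable₁ ++ tripleTable₂

/-- The solutions: in each line the first entry is the modulus `m` and the products of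
`|cos (πk/m)|` over the entries `k` of the two lists are equal. -/
inductive Family : ℤ → List ℤ → List ℤ → Prop
  | cancel (q p r : ℤ) : Family (6 * q) [r, p, 3 * q - p] [r, 2 * q, 3 * q - 2 * p]
  | cancelSporadic (n a b c d : ℕ) (u q r : ℤ) (h : (n, [a, b, c, d]) ∈ pairTable)
      (hu : IsCoprime u (2 * n)) :
      Family (n * q) [r, u * a * q, u * b * q] [r, u * c * q, u * d * q]
  | double (q p r : ℤ) : Family (2 * q) [p, p + q, 2 * r + q] [r, r + q, 2 * p + q]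
  | double₁ (q p : ℤ) : Family (30 * q) [p, p + 15 * q, 10 * q] [2 * p + 15 * q, 6 * q, 12 * q]
  | double₂ (q p : ℤ) : Family (30 * q) [p, p + 15 * q, 6 * q] [2 * p + 15 * q, q, 11 * q]
  | double₃ (q p : ℤ) : Family (30 * q) [p, p + 15 * q, 12 * q] [2 * p + 15 * q, 7 * q, 13 * q]
  | triple₁ (q p : ℤ) : Family (3 * q) [p, p + q, p - q] [3 * p, q, q]
  | triple₂ (q p : ℤ) : Family (15 * q) [p, p + 5 * q, p - 5 * q] [3 * p, 3 * q, 6 * q]
  | triple₃ (q p : ℤ) : Family (12 * q) [p, p + 4 * q, p - 4 * q] [3 * p, q, 5 * q]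
  | quadruple₁ (q p : ℤ) : Family (6 * q) [p, p + 3 * q, 2 * p] [4 * p + 3 * q, 2 * q, 2 * q]
  | quadruple₂ (q p : ℤ) : Family (10 * q) [p, p + 5 * q, 2 * p] [4 * p + 5 * q, 2 * q, 4 * q]
  | quadruple₃ (q p : ℤ) : Family (12 * q) [p, p + 6 * q, 2 * p] [4 * p + 6 * q, q, 5 * q]
  | mixed₁ (q p : ℤ) : Family (6 * q) [p + q, p - q, 2 * p + 3 * q] [p, 3 * p + 3 * q, 2 * q]
  | mixed₂ (q p : ℤ) :
      Family (6 * q) [2 * p + 3 * q, 2 * p + q, 2 * p - q] [3 * p, 3 * p + 3 * q, 2 * q]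
  | mixed₃ (q p : ℤ) : Family (6 * q) [p + q, p - q, 3 * p] [p, 2 * p + q, 2 * p - q]
  | mixed₄ (q p : ℤ) : Family (6 * q) [p + q, p - q, 4 * p + 3 * q] [p, 2 * p, 3 * p + 3 * q]
  | mixed₅ (q p : ℤ) :
      Family (6 * q) [2 * p + q, 2 * p - q, 4 * p + 3 * q] [2 * p, 3 * p, 3 * p + 3 * q]
  | mixed₆ (q p : ℤ) :
      Family (6 * q) [p, p + 3 * q, 6 * p] [2 * p + 2 * q, 2 * p - 2 * q, 4 * p + 3 * q]
  | mixed₇ (q p : ℤ) :
      Family (6 * q) [3 * p, 3 * p + 3 * q, 6 * p] [4 * p + 3 * q, 4 * p + q, 4 * p - q]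
  | sporadic (n a b c d e f : ℕ) (u q : ℤ) (h : (n, [a, b, c, d, e, f]) ∈ tripleTable)
      (hu : IsCoprime u (2 * n)) :
      Family (n * q) [u * a * q, u * b * q, u * c * q] [u * d * q, u * e * q, u * f * q]

/-- The distance of `k` to the nearest multiple of `m`. -/
def dist (m : ℕ) (k : ℤ) : ℕ := min (k % m).toNat (m - (k % m).toNat)

/-- The multisets `S` and `T` consist, in this order or exchanged, of the distances to the nearest
multiple of `m` of the entries of two lists `x`, `y` with `Family m x y`. -/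
def Listed (m : ℕ) (S T : Multiset ℕ) : Prop :=
  ∃ x y : List ℤ, Family m x y ∧
    ((S = ↑(x.map (dist m)) ∧ T = ↑(y.map (dist m))) ∨
      (S = ↑(y.map (dist m)) ∧ T = ↑(x.map (dist m))))

end Pool.Agent.TriCos
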