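import Pool.Agent.Lib_MP_6e4ab6_nt.Full.Conc
import Pool.Agent.Lib_MP_6e4ab6_nt.Full.Statement

/-!
# The list of solutions for rational angles
-/

namespace Pool.Agent.TriCos

/-- values of the squared cosines -/
noncomputable def vals (X : Multiset ℚ) : Multiset ℝ := X.map (fun x => c2 (x : ℝ))

/-- the list with rational angles, measured in half turns -/
inductive FamQ : Multiset ℚ → Multiset ℚ → Prop
  | cancel (x y : ℚ) : FamQ {y, x, 1/2 - x} {y, 1/3, 1/2 - 2 * x}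
  | cancelSporadic (n a b c d : ℕ) (u : ℤ) (y : ℚ) (h : (n, [a, b, c, d]) ∈ pairTable)
      (hu : IsCoprime u (2 * n)) :
      FamQ {y, (u * a / n : ℚ), (u * b / n : ℚ)} {y, (u * c / n : ℚ), (u * d / n : ℚ)}
  | double (x y : ℚ) : FamQ {x, x + 1/2, 2 * y + 1/2} {y, y + 1/2, 2 * x + 1/2}
  | double₁ (x : ℚ) : FamQ {x, x + 1/2, 1/3} {2 * x + 1/2, 1/5, 2/5}
  | double₂ (x : ℚ) : FamQ {x, x + 1/2, 1/5} {2 * x + 1/2, 1/30, 11/30}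
  | double₃ (x : ℚ) : FamQ {x, x + 1/2, 2/5} {2 * x + 1/2, 7/30, 13/30}
  | triple₁ (x : ℚ) : FamQ {x, x + 1/3, x - 1/3} {3 * x, 1/3, 1/3}
  | triple₂ (x : ℚ) : FamQ {x, x + 1/3, x - 1/3} {3 * x, 1/5, 2/5}
  | triple₃ (x : ℚ) : FamQ {x, x + 1/3, x - 1/3} {3 * x, 1/12, 5/12}
  | quadruple₁ (x : ℚ) : FamQ {x, x + 1/2, 2 * x} {4 * x + 1/2, 1/3, 1/3}
  | quadruple₂ (x : ℚ) : FamQ {x, x + 1/2, 2 * x} {4 * x + 1/2, 1/5, 2/5}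
  | quadruple₃ (x : ℚ) : FamQ {x, x + 1/2, 2 * x} {4 * x + 1/2, 1/12, 5/12}
  | mixed₁ (x : ℚ) : FamQ {x + 1/6, x - 1/6, 2 * x + 1/2} {x, 3 * x + 1/2, 1/3}
  | mixed₂ (x : ℚ) : FamQ {2 * x + 1/2, 2 * x + 1/6, 2 * x - 1/6} {3 * x, 3 * x + 1/2, 1/3}
  | mixed₃ (x : ℚ) : FamQ {x + 1/6, x - 1/6, 3 * x} {x, 2 * x + 1/6, 2 * x - 1/6}
  | mixed₄ (x : ℚ) : FamQ {x + 1/6, x - 1/6, 4 * x + 1/2} {x, 2 * x, 3 * x + 1/2}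
  | mixed₅ (x : ℚ) : FamQ {2 * x + 1/6, 2 * x - 1/6, 4 * x + 1/2} {2 * x, 3 * x, 3 * x + 1/2}
  | mixed₆ (x : ℚ) : FamQ {x, x + 1/2, 6 * x} {2 * x + 1/3, 2 * x - 1/3, 4 * x + 1/2}
  | mixed₇ (x : ℚ) : FamQ {3 * x, 3 * x + 1/2, 6 * x} {4 * x + 1/2, 4 * x + 1/6, 4 * x - 1/6}

/-- the values `A`, `B` of the two sides are in the list -/
def ListQ (A B : Multiset ℝ) : Prop :=
  ∃ X Y : Multiset ℚ, FamQ X Y ∧ ((A = vals X ∧ B = vals Y) ∨ (A = vals Y ∧ B = vals X))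

end Pool.Agent.TriCos
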