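import Mathlib

/-!
# Identities between products of at most three factors `1 + ξ X^x`
-/

namespace Pool.Agent.TriCos

open Finset

open Polynomial in
/-- `∏ (1 + ξ X^x)` -/
noncomputable def PP (L : Multiset (ℂ × ℕ)) : ℂ[X] :=
  (L.map (fun t => 1 + Polynomial.C t.1 * Polynomial.X ^ t.2)).prod

/-- the primitive identities `PP L = PP R` -/
def Fam (L R : Multiset (ℂ × ℕ)) : Prop :=
  ∃ (ω z : ℂ) (n : ℕ), ω ^ 2 + ω + 1 = 0 ∧ ‖z‖ = 1 ∧ 0 < n ∧
   ((L = {(z, n), (-z, n)} ∧ R = {(-z ^ 2, 2 * n)}) ∨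
    (L = {(z, n), (ω * z, n), (ω ^ 2 * z, n)} ∧ R = {(z ^ 3, 3 * n)}) ∨
    (L = {(z, n), (-z, n), (z ^ 2, 2 * n)} ∧ R = {(-z ^ 4, 4 * n)}) ∨
    (L = {(-ω * z, n), (-ω ^ 2 * z, n), (-z ^ 2, 2 * n)} ∧ R = {(z, n), (-z ^ 3, 3 * n)}) ∨
    (L = {(-z ^ 2, 2 * n), (-ω * z ^ 2, 2 * n), (-ω ^ 2 * z ^ 2, 2 * n)} ∧
      R = {(z ^ 3, 3 * n), (-z ^ 3, 3 * n)}) ∨
    (∃ (w : ℂ) (k : ℕ), ‖w‖ = 1 ∧ 0 < k ∧ L = {(z, n), (-z, n), (-w ^ 2, 2 * k)} ∧
      R = {(w, k), (-w, k), (-z ^ 2, 2 * n)}) ∨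
    (L = {(z, n), (-z, n), (z ^ 6, 6 * n)} ∧
      R = {(ω * z ^ 2, 2 * n), (ω ^ 2 * z ^ 2, 2 * n), (-z ^ 4, 4 * n)}) ∨
    (L = {(z ^ 3, 3 * n), (-z ^ 3, 3 * n), (z ^ 6, 6 * n)} ∧
      R = {(-z ^ 4, 4 * n), (-ω * z ^ 4, 4 * n), (-ω ^ 2 * z ^ 4, 4 * n)}) ∨
    (L = {(-ω * z ^ 2, 2 * n), (-ω ^ 2 * z ^ 2, 2 * n), (-z ^ 4, 4 * n)} ∧
      R = {(z ^ 2, 2 * n), (z ^ 3, 3 * n), (-z ^ 3, 3 * n)}) ∨
    (L = {(-ω * z, n), (-ω ^ 2 * z, n), (-z ^ 4, 4 * n)} ∧
      R = {(z, n), (z ^ 2, 2 * n), (-z ^ 3, 3 * n)}) ∨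
    (L = {(-ω * z, n), (-ω ^ 2 * z, n), (z ^ 3, 3 * n)} ∧
      R = {(z, n), (-ω * z ^ 2, 2 * n), (-ω ^ 2 * z ^ 2, 2 * n)}))

/-! ### unit numbers -/

theorem pp_conj {a : ℂ} (ha : ‖a‖ = 1) : (starRingEnd ℂ) a * a = 1 := by
  rw [← Complex.normSq_eq_conj_mul_self, Complex.normSq_eq_norm_sq, ha]; norm_num

theorem pp_ne {a : ℂ} (ha : ‖a‖ = 1) : a ≠ 0 := by
  rintro rfl; simp at ha

theorem pp_three (a b c : ℂ) (ha : ‖a‖ = 1) (hb : ‖b‖ = 1) (hc : ‖c‖ = 1) (h : a + b + c = 0) :
    ∃ ω : ℂ, ω ^ 2 + ω + 1 = 0 ∧ b = ω * a ∧ c = ω ^ 2 * a := by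
  have h1 := congrArg (starRingEnd ℂ) h
  simp only [map_add, map_zero] at h1
  have ea := pp_conj ha
  have eb := pp_conj hb
  have ec := pp_conj hc
  have na := pp_ne ha
  have h2 : a * b + b * c + c * a = 0 := by
    linear_combination (a * b * c) * h1 - (b * c) * ea - (a * c) * eb - (a * b) * ec
  have h3 : b ^ 2 + a * b + a ^ 2 = 0 := by
    linear_combination -h2 + (a + b) * h
  refine ⟨b / a, ?_, ?_, ?_⟩
  · field_simp
    linear_combination h3
  · field_simp
  · field_simp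
    linear_combination a * h - h3

theorem pp_four (a b c d : ℂ) (ha : ‖a‖ = 1) (hb : ‖b‖ = 1) (hc : ‖c‖ = 1) (hd : ‖d‖ = 1)
    (h : a + b + c + d = 0) :
    (a + b = 0 ∧ c + d = 0) ∨ (a + c = 0 ∧ b + d = 0) ∨ (a + d = 0 ∧ b + c = 0) := by
  have h1 := congrArg (starRingEnd ℂ) h
  simp only [map_add, map_zero] at h1
  have ea := pp_conj ha
  have eb := pp_conj hb
  have ec := pp_conj hc
  have ed := pp_conj hd
  have h2 : (a + b) * (c * d - a * b) = 0 := by
    linear_combination (a * b * c * d) * h1 - (b * c * d) * ea - (a * c * d) * eb -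
      (a * b * d) * ec - (a * b * c) * ed - (a * b) * h
  rcases mul_eq_zero.mp h2 with h3 | h3
  · left
    exact ⟨h3, by linear_combination h - h3⟩
  · have h4 : (a + c) * (a + d) = 0 := by
      linear_combination h3 + a * h
    rcases mul_eq_zero.mp h4 with h5 | h5
    · right; left
      exact ⟨h5, by linear_combination h - h5⟩
    · right; right
      exact ⟨h5, by linear_combination h - h5⟩

/-! ### factors -/

/-- valid factor -/
def Vd (t : ℂ × ℕ) : Prop := ‖t.1‖ = 1 ∧ 0 < t.2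

noncomputable def fac (t : ℂ × ℕ) : Polynomial ℂ := 1 + Polynomial.C t.1 * Polynomial.X ^ t.2

theorem PP_zero : PP 0 = 1 := by simp [PP]

theorem PP_one (a : ℂ × ℕ) : PP {a} = fac a := by simp [PP, fac]

theorem PP_two (a b : ℂ × ℕ) : PP {a, b} = fac a * fac b := by simp [PP, fac]

theorem PP_three (a b c : ℂ × ℕ) : PP {a, b, c} = fac a * (fac b * fac c) := by simp [PP, fac]

theorem fac_coeff (t : ℂ × ℕ) (P : Polynomial ℂ) (j : ℕ) :
    (fac t * P).coeff j = P.coeff j + (if t.2 ≤ j then t.1 * P.coeff (j - t.2) else 0) := by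
  have : fac t * P = P + Polynomial.C t.1 * (P * Polynomial.X ^ t.2) := by unfold fac; ring
  rw [this, Polynomial.coeff_add, Polynomial.coeff_C_mul, Polynomial.coeff_mul_X_pow']
  split_ifs <;> simp

theorem fac_lead {t : ℂ × ℕ} (ht : Vd t) :
    (fac t).natDegree = t.2 ∧ (fac t).leadingCoeff = t.1 := by
  have h0 := pp_ne ht.1
  have h1 : (Polynomial.C t.1 * Polynomial.X ^ t.2 : Polynomial ℂ).natDegree = t.2 :=
    Polynomial.natDegree_C_mul_X_pow _ _ h0
  have h2 : (1 : Polynomial ℂ).natDegree < (Polynomial.C t.1 * Polynomial.X ^ t.2 : Polynomial ℂ).natDegree := by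
    rw [h1, Polynomial.natDegree_one]; exact ht.2
  constructor
  · unfold fac
    rw [Polynomial.natDegree_add_eq_right_of_natDegree_lt h2, h1]
  · unfold fac
    rw [Polynomial.leadingCoeff_add_of_degree_lt (Polynomial.degree_lt_degree h2)]
    simp

theorem fac_ne {t : ℂ × ℕ} (ht : Vd t) : fac t ≠ 0 := by
  intro h
  have := (fac_lead ht).2
  rw [h, Polynomial.leadingCoeff_zero] at this
  exact pp_ne ht.1 this.symm

/-- low order coefficients -/
def Low (d : ℕ) (P : Polynomial ℂ) (c : ℂ) : Prop :=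
  P.coeff 0 = 1 ∧ (∀ j, 0 < j → j < d → P.coeff j = 0) ∧ P.coeff d = c

theorem low_fac {d : ℕ} (hd : 0 < d) {t : ℂ × ℕ} (ht : d ≤ t.2) :
    Low d (fac t) (if t.2 = d then t.1 else 0) := by
  have key : ∀ j, (fac t).coeff j = (if j = 0 then 1 else 0) + (if t.2 = j then t.1 else 0) := by
    intro j
    unfold fac
    rw [Polynomial.coeff_add, Polynomial.coeff_one, Polynomial.coeff_C_mul, Polynomial.coeff_X_pow]
    by_cases h : j = t.2
    · subst h; simp
    · rw [if_neg h, if_neg (Ne.symm h)]; simp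
  refine ⟨?_, ?_, ?_⟩
  · rw [key, if_pos rfl, if_neg (by omega)]; simp
  · intro j h1 h2
    rw [key, if_neg (by omega), if_neg (by omega)]; simp
  · rw [key, if_neg (by omega)]; simp

theorem low_mul {d : ℕ} (hd : 0 < d) {t : ℂ × ℕ} (ht : d ≤ t.2) {P : Polynomial ℂ} {c : ℂ}
    (hP : Low d P c) : Low d (fac t * P) ((if t.2 = d then t.1 else 0) + c) := by
  obtain ⟨h0, h1, h2⟩ := hP
  refine ⟨?_, ?_, ?_⟩
  · rw [fac_coeff, h0, if_neg (by omega)]; simp
  · intro j hj hj'
    rw [fac_coeff, h1 j hj hj', if_neg (by omega)]; simp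
  · rw [fac_coeff, h2]
    by_cases h : t.2 = d
    · rw [if_pos h.le, if_pos h, h, Nat.sub_self, h0]; ring
    · rw [if_neg (by omega), if_neg h]; ring

theorem Low.unique {d : ℕ} {P Q : Polynomial ℂ} {c c' : ℂ} (h : Low d P c) (h' : Low d Q c')
    (hPQ : P = Q) : c = c' := by
  rw [← h.2.2, ← h'.2.2, hPQ]

theorem fac_inj {a b : ℂ × ℕ} (ha : Vd a) (hb : Vd b) (h : fac a = fac b) : a = b := by
  have h1 := (fac_lead ha)
  have h2 := (fac_lead hb)
  rw [h] at h1
  apply Prod.ext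
  · exact h1.2.symm.trans h2.2
  · exact h1.1.symm.trans h2.1

theorem lead2 {a b : ℂ × ℕ} (ha : Vd a) (hb : Vd b) :
    (fac a * fac b).natDegree = a.2 + b.2 ∧ (fac a * fac b).leadingCoeff = a.1 * b.1 := by
  rw [Polynomial.natDegree_mul (fac_ne ha) (fac_ne hb), Polynomial.leadingCoeff_mul,
    (fac_lead ha).1, (fac_lead hb).1, (fac_lead ha).2, (fac_lead hb).2]
  exact ⟨rfl, rfl⟩

theorem lead3 {a b c : ℂ × ℕ} (ha : Vd a) (hb : Vd b) (hc : Vd c) :
    (fac a * (fac b * fac c)).natDegree = a.2 + (b.2 + c.2) ∧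
      (fac a * (fac b * fac c)).leadingCoeff = a.1 * (b.1 * c.1) := by
  rw [Polynomial.natDegree_mul (fac_ne ha) (mul_ne_zero (fac_ne hb) (fac_ne hc)),
    Polynomial.leadingCoeff_mul, (lead2 hb hc).1, (lead2 hb hc).2, (fac_lead ha).1, (fac_lead ha).2]
  exact ⟨rfl, rfl⟩

theorem fac_merge (z : ℂ) (n : ℕ) : fac (z, n) * fac (-z, n) = fac (-z ^ 2, 2 * n) := by
  simp only [fac, map_neg, map_pow, two_mul, pow_add]; ring

theorem fac_cube (ω z : ℂ) (n : ℕ) (h : ω ^ 2 + ω + 1 = 0) :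
    fac (z, n) * (fac (ω * z, n) * fac (ω ^ 2 * z, n)) = fac (z ^ 3, 3 * n) := by
  have h' : Polynomial.C ω ^ 2 + Polynomial.C ω + 1 = 0 := by
    have := congrArg Polynomial.C h
    simpa using this
  have h3 : (Polynomial.X : Polynomial ℂ) ^ (3 * n) = (Polynomial.X ^ n) ^ 3 := by
    rw [← pow_mul, mul_comm]
  simp only [fac, map_mul, map_pow, h3]
  linear_combination (Polynomial.C z * Polynomial.X ^ n +
    Polynomial.C ω * Polynomial.C z ^ 2 * (Polynomial.X ^ n) ^ 2 +
    (Polynomial.C ω - 1) * Polynomial.C z ^ 3 * (Polynomial.X ^ n) ^ 3) * h'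

theorem vd_neg_sq {z : ℂ} {n : ℕ} (hz : ‖z‖ = 1) (hn : 0 < n) : Vd (-z ^ 2, 2 * n) := by
  refine ⟨?_, by simp only []; omega⟩
  simp [hz]

theorem vd_pow {z : ℂ} {n : ℕ} (hz : ‖z‖ = 1) (hn : 0 < n) (k : ℕ) (hk : 0 < k) :
    Vd (z ^ k, k * n) := by
  refine ⟨?_, Nat.mul_pos hk hn⟩
  simp [hz]

theorem vd_neg_pow {z : ℂ} {n : ℕ} (hz : ‖z‖ = 1) (hn : 0 < n) (k : ℕ) (hk : 0 < k) :
    Vd (-z ^ k, k * n) := by
  refine ⟨?_, Nat.mul_pos hk hn⟩
  simp [hz]

/-! ### (2|1) and (2|2) -/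

theorem p21_le {a b t : ℂ × ℕ} (ha : Vd a) (hb : Vd b) (ht : Vd t) (hab : a.2 ≤ b.2)
    (h : fac a * fac b = fac t) : b = (-a.1, a.2) ∧ t = (-a.1 ^ 2, 2 * a.2) := by
  obtain ⟨e1, e2⟩ := lead2 ha hb
  obtain ⟨f1, f2⟩ := fac_lead ht
  rw [h] at e1 e2
  rw [f1] at e1
  rw [f2] at e2
  have hb2 := hb.2
  have hl := (low_mul ha.2 le_rfl (low_fac ha.2 hab)).unique (low_fac ha.2 (t := t) (by omega)) h
  rw [if_pos rfl, if_neg (show ¬ t.2 = a.2 by omega)] at hl
  by_cases hab' : b.2 = a.2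
  · rw [if_pos hab'] at hl
    have hb1 : b.1 = -a.1 := by linear_combination hl
    refine ⟨Prod.ext hb1 hab', Prod.ext ?_ ?_⟩
    · rw [e2, hb1]; ring
    · rw [e1, hab']; simp only []; omega
  · rw [if_neg hab', add_zero] at hl
    exact absurd hl (pp_ne ha.1)

theorem p21 {a b t : ℂ × ℕ} (ha : Vd a) (hb : Vd b) (ht : Vd t)
    (h : fac a * fac b = fac t) : b = (-a.1, a.2) ∧ t = (-a.1 ^ 2, 2 * a.2) := by
  rcases le_total a.2 b.2 with hab | hab
  · exact p21_le ha hb ht hab h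
  · obtain ⟨h1, h2⟩ := p21_le hb ha ht hab (by rw [mul_comm]; exact h)
    have e1 : a.1 = -b.1 := by rw [h1]
    have e2 : a.2 = b.2 := by rw [h1]
    refine ⟨Prod.ext ?_ e2.symm, ?_⟩
    · simp only []; rw [e1]; ring
    · rw [h2, e1, e2]
      apply Prod.ext
      · simp only []; ring
      · rfl

theorem p22_aux {a b c e : ℂ × ℕ} (ha : Vd a) (hb : Vd b) (hc : Vd c) (he : Vd e)
    (hab : a.2 ≤ b.2) (hce : c.2 ≤ e.2) (hac : a.2 ≤ c.2)
    (h : fac a * fac b = fac c * fac e) : (a = c ∧ b = e) ∨ (a = e ∧ b = c) := by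
  obtain ⟨e1, e2⟩ := lead2 ha hb
  obtain ⟨f1, f2⟩ := lead2 hc he
  rw [h] at e1 e2
  rw [f1] at e1
  rw [f2] at e2
  have hl := (low_mul ha.2 le_rfl (low_fac ha.2 hab)).unique
    (low_mul ha.2 hac (low_fac ha.2 (hac.trans hce))) h
  rw [if_pos rfl] at hl
  by_cases h1 : c.2 = a.2
  · have h2 : b.2 = e.2 := by omega
    rw [if_pos h1] at hl
    by_cases h3 : b.2 = a.2
    · rw [if_pos h3, if_pos (by omega)] at hl
      have h4 : (c.1 - a.1) * (c.1 - b.1) = 0 := by linear_combination -c.1 * hl - e2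
      rcases mul_eq_zero.mp h4 with h5 | h5
      · left
        have h6 : c.1 = a.1 := sub_eq_zero.mp h5
        refine ⟨Prod.ext h6.symm h1.symm, Prod.ext ?_ h2⟩
        linear_combination hl + h6
      · right
        have h6 : c.1 = b.1 := sub_eq_zero.mp h5
        refine ⟨Prod.ext ?_ (by omega), Prod.ext h6.symm (by omega)⟩
        linear_combination hl + h6
    · rw [if_neg h3, if_neg (by omega), add_zero, add_zero] at hl
      left
      refine ⟨Prod.ext hl h1.symm, Prod.ext ?_ h2⟩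
      rw [hl] at e2
      exact (mul_left_cancel₀ (pp_ne hc.1) e2).symm
  · exfalso
    rw [if_neg h1, if_neg (show ¬ e.2 = a.2 by omega)] at hl
    by_cases h3 : b.2 = a.2
    · rw [if_pos h3] at hl
      have hb1 : b = (-a.1, a.2) := Prod.ext (by simp only []; linear_combination hl) h3
      have ha1 : a = (a.1, a.2) := rfl
      rw [hb1, ha1, fac_merge] at h
      obtain ⟨_, h5⟩ := p21 hc he (vd_neg_sq ha.1 ha.2) h.symm
      have h6 := congrArg Prod.snd h5
      simp only [] at h6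
      omega
    · rw [if_neg h3] at hl
      exact pp_ne ha.1 (by linear_combination hl)

theorem p22 {a b c e : ℂ × ℕ} (ha : Vd a) (hb : Vd b) (hc : Vd c) (he : Vd e)
    (h : fac a * fac b = fac c * fac e) : (a = c ∧ b = e) ∨ (a = e ∧ b = c) := by
  have key : ∀ {a b c e : ℂ × ℕ}, Vd a → Vd b → Vd c → Vd e → a.2 ≤ b.2 → c.2 ≤ e.2 →
      fac a * fac b = fac c * fac e → (a = c ∧ b = e) ∨ (a = e ∧ b = c) := by
    intro a b c e ha hb hc he hab hce h
    rcases le_total a.2 c.2 with hac | hac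
    · exact p22_aux ha hb hc he hab hce hac h
    · rcases p22_aux hc he ha hb hce hab hac h.symm with ⟨h1, h2⟩ | ⟨h1, h2⟩
      · exact Or.inl ⟨h1.symm, h2.symm⟩
      · exact Or.inr ⟨h2.symm, h1.symm⟩
  rcases le_total a.2 b.2 with hab | hab <;> rcases le_total c.2 e.2 with hce | hce
  · exact key ha hb hc he hab hce h
  · rcases key ha hb he hc hab hce (by rw [h, mul_comm]) with h1 | h1
    · exact Or.inr h1
    · exact Or.inl h1
  · rcases key hb ha hc he hab hce (by rw [← h, mul_comm]) with h1 | h1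
    · exact Or.inr ⟨h1.2, h1.1⟩
    · exact Or.inl ⟨h1.2, h1.1⟩
  · rcases key hb ha he hc hab hce (by rw [mul_comm, h, mul_comm]) with h1 | h1
    · exact Or.inl ⟨h1.2, h1.1⟩
    · exact Or.inr ⟨h1.2, h1.1⟩

/-! ### multisets -/

theorem ms12 (a b c : ℂ × ℕ) : ({a, b, c} : Multiset (ℂ × ℕ)) = {b, a, c} :=
  Multiset.cons_swap a b {c}

theorem ms23 (a b c : ℂ × ℕ) : ({a, b, c} : Multiset (ℂ × ℕ)) = {a, c, b} := by
  change a ::ₘ ({b, c} : Multiset (ℂ × ℕ)) = a ::ₘ {c, b}
  rw [Multiset.pair_comm]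

theorem ms13 (a b c : ℂ × ℕ) : ({a, b, c} : Multiset (ℂ × ℕ)) = {c, a, b} := by
  rw [ms23, ms12]

theorem ms_rot (a b c : ℂ × ℕ) : ({a, b, c} : Multiset (ℂ × ℕ)) = {b, c, a} := by
  rw [ms12, ms23]

theorem ms_rev (a b c : ℂ × ℕ) : ({a, b, c} : Multiset (ℂ × ℕ)) = {c, b, a} := by
  rw [ms13, ms23]

theorem sort2 (L : Multiset (ℂ × ℕ)) (h : L.card = 2) :
    ∃ a b : ℂ × ℕ, L = {a, b} ∧ a.2 ≤ b.2 := by
  obtain ⟨a, b, rfl⟩ := Multiset.card_eq_two.mp h
  rcases le_total a.2 b.2 with h1 | h1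
  · exact ⟨a, b, rfl, h1⟩
  · exact ⟨b, a, Multiset.pair_comm a b, h1⟩

theorem sort3 (L : Multiset (ℂ × ℕ)) (h : L.card = 3) :
    ∃ a b c : ℂ × ℕ, L = {a, b, c} ∧ a.2 ≤ b.2 ∧ b.2 ≤ c.2 := by
  obtain ⟨a, b, c, rfl⟩ := Multiset.card_eq_three.mp h
  rcases le_total a.2 b.2 with h1 | h1
  · rcases le_total b.2 c.2 with h2 | h2
    · exact ⟨a, b, c, rfl, h1, h2⟩
    · rcases le_total a.2 c.2 with h3 | h3
      · exact ⟨a, c, b, ms23 a b c, h3, h2⟩
      · exact ⟨c, a, b, ms13 a b c, h3, h1⟩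
  · rcases le_total a.2 c.2 with h2 | h2
    · exact ⟨b, a, c, ms12 a b c, h1, h2⟩
    · rcases le_total b.2 c.2 with h3 | h3
      · exact ⟨b, c, a, ms_rot a b c, h3, h2⟩
      · exact ⟨c, b, a, ms_rev a b c, h3, h1⟩

theorem pair_cases {a b c e : ℂ × ℕ} (h : ({a, b} : Multiset (ℂ × ℕ)) = {c, e}) :
    (a = c ∧ b = e) ∨ (a = e ∧ b = c) := by
  rcases Multiset.cons_eq_cons.mp h with ⟨h1, h2⟩ | ⟨_, cs, h2, h3⟩
  · exact Or.inl ⟨h1, Multiset.singleton_inj.mp h2⟩
  · have h4 : cs = 0 := by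
      have := congrArg Multiset.card h2
      simp at this
      exact this
    rw [h4] at h2 h3
    right
    exact ⟨(Multiset.singleton_inj.mp h3).symm, Multiset.singleton_inj.mp h2⟩

/-! ### (3|1) -/

theorem low3 {d : ℕ} (hd : 0 < d) {a b c : ℂ × ℕ} (ha : d ≤ a.2) (hb : d ≤ b.2) (hc : d ≤ c.2) :
    Low d (fac a * (fac b * fac c)) ((if a.2 = d then a.1 else 0) +
      ((if b.2 = d then b.1 else 0) + (if c.2 = d then c.1 else 0))) :=
  low_mul hd ha (low_mul hd hb (low_fac hd hc))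

theorem low2 {d : ℕ} (hd : 0 < d) {a b : ℂ × ℕ} (ha : d ≤ a.2) (hb : d ≤ b.2) :
    Low d (fac a * fac b) ((if a.2 = d then a.1 else 0) + (if b.2 = d then b.1 else 0)) :=
  low_mul hd ha (low_fac hd hb)

theorem p31 {a b c t : ℂ × ℕ} (ha : Vd a) (hb : Vd b) (hc : Vd c) (ht : Vd t)
    (hab : a.2 ≤ b.2) (hbc : b.2 ≤ c.2) (h : fac a * (fac b * fac c) = fac t) :
    (b = (-a.1, a.2) ∧ c = (a.1 ^ 2, 2 * a.2) ∧ t = (-a.1 ^ 4, 4 * a.2)) ∨
    ∃ ω : ℂ, ω ^ 2 + ω + 1 = 0 ∧ b = (ω * a.1, a.2) ∧ c = (ω ^ 2 * a.1, a.2) ∧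
      t = (a.1 ^ 3, 3 * a.2) := by
  obtain ⟨e1, e2⟩ := lead3 ha hb hc
  obtain ⟨f1, f2⟩ := fac_lead ht
  rw [h, f1] at e1
  have hb2 := hb.2
  have ha2 := ha.2
  have hl := (low3 ha.2 le_rfl hab (hab.trans hbc)).unique (low_fac ha.2 (t := t) (by omega)) h
  rw [if_pos rfl, if_neg (show ¬ t.2 = a.2 by omega)] at hl
  by_cases h1 : b.2 = a.2
  · rw [if_pos h1] at hl
    by_cases h2 : c.2 = a.2
    · right
      rw [if_pos h2] at hl
      obtain ⟨ω, h3, h4, h5⟩ := pp_three a.1 b.1 c.1 ha.1 hb.1 hc.1 (by linear_combination hl)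
      have hb' : b = (ω * a.1, a.2) := Prod.ext h4 h1
      have hc' : c = (ω ^ 2 * a.1, a.2) := Prod.ext h5 h2
      refine ⟨ω, h3, hb', hc', ?_⟩
      have ha' : a = (a.1, a.2) := rfl
      rw [hb', hc'] at h
      have h6 := fac_cube ω a.1 a.2 h3
      rw [← ha', h] at h6
      exact fac_inj ht (vd_pow ha.1 ha.2 3 (by norm_num)) h6
    · left
      rw [if_neg h2] at hl
      have hb' : b = (-a.1, a.2) := Prod.ext (by simp only []; linear_combination hl) h1
      have h6 := fac_merge a.1 a.2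
      have ha' : a = (a.1, a.2) := rfl
      rw [← ha', ← hb'] at h6
      rw [← mul_assoc, h6] at h
      obtain ⟨h7, h8⟩ := p21 (vd_neg_sq ha.1 ha.2) hc ht h
      refine ⟨hb', ?_, ?_⟩
      · rw [h7]; simp
      · rw [h8]
        apply Prod.ext
        · simp only []; ring
        · simp only []; ring
  · exfalso
    rw [if_neg h1, if_neg (show ¬ c.2 = a.2 by omega)] at hl
    exact pp_ne ha.1 (by linear_combination hl)

theorem exists_omega : ∃ ω : ℂ, ω ^ 2 + ω + 1 = 0 := by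
  refine ⟨⟨-1 / 2, Real.sqrt 3 / 2⟩, ?_⟩
  have h3 : Real.sqrt 3 * Real.sqrt 3 = 3 := Real.mul_self_sqrt (by norm_num)
  apply Complex.ext
  · simp only [pow_two, Complex.add_re, Complex.mul_re, Complex.one_re, Complex.zero_re]
    linarith
  · simp only [pow_two, Complex.add_im, Complex.mul_im, Complex.one_im, Complex.zero_im]
    ring

theorem omega_two {ω ω' : ℂ} (h : ω ^ 2 + ω + 1 = 0) (h' : ω' ^ 2 + ω' + 1 = 0) :
    ω' = ω ∨ ω' = ω ^ 2 := by
  have : (ω' - ω) * (ω' - ω ^ 2) = 0 := by linear_combination h' + (-ω' + ω - 1) * h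
  rcases mul_eq_zero.mp this with h1 | h1
  · exact Or.inl (sub_eq_zero.mp h1)
  · exact Or.inr (sub_eq_zero.mp h1)

/-! ### (3|2) -/

def Q32 (L R : Multiset (ℂ × ℕ)) : Prop :=
  (∃ t, t ∈ L ∧ t ∈ R) ∨ ∃ (ω z : ℂ) (n : ℕ), ω ^ 2 + ω + 1 = 0 ∧ ‖z‖ = 1 ∧ 0 < n ∧
    ((L = {(-ω * z, n), (-ω ^ 2 * z, n), (-z ^ 2, 2 * n)} ∧ R = {(z, n), (-z ^ 3, 3 * n)}) ∨
    (L = {(-z ^ 2, 2 * n), (-ω * z ^ 2, 2 * n), (-ω ^ 2 * z ^ 2, 2 * n)} ∧
      R = {(z ^ 3, 3 * n), (-z ^ 3, 3 * n)}))

theorem p32s {a b c e f : ℂ × ℕ} (ha : Vd a) (hb : Vd b) (hc : Vd c) (he : Vd e) (hf : Vd f)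
    (hab : a.2 ≤ b.2) (hbc : b.2 ≤ c.2) (hef : e.2 ≤ f.2)
    (h : fac a * (fac b * fac c) = fac e * fac f) : Q32 {a, b, c} {e, f} := by
  obtain ⟨e1, e2⟩ := lead3 ha hb hc
  obtain ⟨f1, f2⟩ := lead2 he hf
  rw [h, f1] at e1
  have hb2 := hb.2
  have ha2 := ha.2
  have he2 := he.2
  have haa : a = (a.1, a.2) := rfl
  rcases lt_trichotomy a.2 e.2 with hae | hae | hae
  · -- a.2 < e.2
    have hl := (low3 ha.2 le_rfl hab (hab.trans hbc)).unique
      (low2 ha.2 hae.le (hae.le.trans hef)) h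
    rw [if_pos rfl, if_neg (show ¬ e.2 = a.2 by omega), if_neg (show ¬ f.2 = a.2 by omega)] at hl
    by_cases h1 : b.2 = a.2
    · rw [if_pos h1] at hl
      by_cases h2 : c.2 = a.2
      · rw [if_pos h2] at hl
        obtain ⟨ω, h3, h4, h5⟩ := pp_three a.1 b.1 c.1 ha.1 hb.1 hc.1 (by linear_combination hl)
        have hb' : b = (ω * a.1, a.2) := Prod.ext h4 h1
        have hc' : c = (ω ^ 2 * a.1, a.2) := Prod.ext h5 h2
        have h6 := fac_cube ω a.1 a.2 h3
        rw [← haa, ← hb', ← hc', h] at h6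
        obtain ⟨h7, h8⟩ := p21 he hf (vd_pow ha.1 ha.2 3 (by norm_num)) h6
        have h9 : a.1 ^ 3 = -e.1 ^ 2 := congrArg Prod.fst h8
        have h10 : 3 * a.2 = 2 * e.2 := congrArg Prod.snd h8
        obtain ⟨n, hn⟩ : ∃ n, n = e.2 - a.2 := ⟨_, rfl⟩
        have hn1 : a.2 = 2 * n := by omega
        have hn2 : e.2 = 3 * n := by omega
        have na := pp_ne ha.1
        obtain ⟨z, hz⟩ : ∃ z, z = -e.1 / a.1 := ⟨_, rfl⟩
        have hz2 : z ^ 2 = -a.1 := by
          rw [hz, div_pow, div_eq_iff (pow_ne_zero 2 na)]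
          linear_combination h9
        have hz3 : z ^ 3 = e.1 := by
          have : z ^ 3 = z * z ^ 2 := by ring
          rw [this, hz2, hz]
          field_simp
        right
        refine ⟨ω, z, n, h3, ?_, by omega, Or.inr ⟨?_, ?_⟩⟩
        · rw [hz, norm_div, norm_neg, he.1, ha.1, div_one]
        · rw [haa, hb', hc', hz2, hn1]
          simp
        · have hee : e = (e.1, e.2) := rfl
          rw [h7, hee, hz3, hn2]
      · rw [if_neg h2] at hl
        have hb' : b = (-a.1, a.2) := Prod.ext (by simp only []; linear_combination hl) h1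
        have h6 := fac_merge a.1 a.2
        rw [← haa, ← hb'] at h6
        rw [← mul_assoc, h6] at h
        left
        rcases p22 (vd_neg_sq ha.1 ha.2) hc he hf h with ⟨_, h7⟩ | ⟨_, h7⟩
        · exact ⟨c, by simp, by simp [h7]⟩
        · exact ⟨c, by simp, by simp [h7]⟩
    · exfalso
      rw [if_neg h1, if_neg (show ¬ c.2 = a.2 by omega)] at hl
      exact pp_ne ha.1 (by linear_combination hl)
  · -- equal
    have hl := (low3 ha.2 le_rfl hab (hab.trans hbc)).unique
      (low2 ha.2 hae.le (hae.le.trans hef)) h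
    rw [if_pos rfl, if_pos hae.symm, if_neg (show ¬ f.2 = a.2 by omega)] at hl
    by_cases h1 : b.2 = a.2
    · rw [if_pos h1] at hl
      by_cases h2 : c.2 = a.2
      · rw [if_pos h2] at hl
        left
        rcases pp_four a.1 b.1 c.1 (-e.1) ha.1 hb.1 hc.1 (by rw [norm_neg]; exact he.1)
          (by linear_combination hl) with ⟨_, h3⟩ | ⟨_, h3⟩ | ⟨h3, _⟩
        · refine ⟨c, by simp, ?_⟩
          have : c = e := Prod.ext (by linear_combination h3) (by omega)
          rw [this]; simp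
        · refine ⟨b, by simp, ?_⟩
          have : b = e := Prod.ext (by linear_combination h3) (by omega)
          rw [this]; simp
        · refine ⟨a, by simp, ?_⟩
          have : a = e := Prod.ext (by linear_combination h3) (by omega)
          rw [this]; simp
      · rw [if_neg h2] at hl
        obtain ⟨ω, h3, h4, h5⟩ := pp_three (-e.1) a.1 b.1 (by rw [norm_neg]; exact he.1) ha.1 hb.1
          (by linear_combination hl)
        have ha' : a = (ω * -e.1, e.2) := Prod.ext h4 hae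
        have hb' : b = (ω ^ 2 * -e.1, e.2) := Prod.ext h5 (by rw [h1, hae])
        have h6 := fac_cube ω (-e.1) e.2 h3
        rw [← ha', ← hb'] at h6
        have h7 := fac_merge e.1 e.2
        have hee : e = (e.1, e.2) := rfl
        rw [← hee] at h7
        have h8 : fac ((-e.1) ^ 3, 3 * e.2) * fac c = fac (-e.1 ^ 2, 2 * e.2) * fac f := by
          rw [← h6, ← h7]
          linear_combination (fac (-e.1, e.2)) * h
        have hv : Vd ((-e.1) ^ 3, 3 * e.2) := vd_pow (by rw [norm_neg]; exact he.1) he.2 3 (by norm_num)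
        rcases p22 hv hc (vd_neg_sq he.1 he.2) hf h8 with ⟨h9, _⟩ | ⟨h9, h10⟩
        · exfalso
          have := congrArg Prod.snd h9
          simp only [] at this
          omega
        · right
          refine ⟨ω, e.1, e.2, h3, he.1, he.2, Or.inl ⟨?_, ?_⟩⟩
          · rw [ha', hb', h10]
            simp
          · rw [← h9, ← hee]
            have : (-e.1) ^ 3 = -e.1 ^ 3 := by ring
            rw [this]
    · rw [if_neg h1, if_neg (show ¬ c.2 = a.2 by omega)] at hl
      left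
      refine ⟨a, by simp, ?_⟩
      have : a = e := Prod.ext (by linear_combination hl) hae
      rw [this]; simp
  · -- e.2 < a.2
    exfalso
    have hl := (low3 he.2 hae.le (hae.le.trans hab) (hae.le.trans (hab.trans hbc))).unique
      (low2 he.2 le_rfl hef) h
    rw [if_neg (show ¬ a.2 = e.2 by omega), if_neg (show ¬ b.2 = e.2 by omega),
      if_neg (show ¬ c.2 = e.2 by omega), if_pos rfl] at hl
    by_cases h1 : f.2 = e.2
    · rw [if_pos h1] at hl
      have hf' : f = (-e.1, e.2) := Prod.ext (by simp only []; linear_combination -hl) h1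
      have h6 := fac_merge e.1 e.2
      have hee : e = (e.1, e.2) := rfl
      rw [← hee, ← hf', ← h] at h6
      rcases p31 ha hb hc (vd_neg_sq he.1 he.2) hab hbc h6 with ⟨_, _, h7⟩ | ⟨_, _, _, _, h7⟩
      · have := congrArg Prod.snd h7
        simp only [] at this
        omega
      · have := congrArg Prod.snd h7
        simp only [] at this
        omega
    · rw [if_neg h1] at hl
      exact pp_ne he.1 (by linear_combination -hl)

theorem p32 (L R : Multiset (ℂ × ℕ)) (hL : ∀ t ∈ L, Vd t) (hR : ∀ t ∈ R, Vd t)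
    (cL : L.card = 3) (cR : R.card = 2) (h : PP L = PP R) : Q32 L R := by
  obtain ⟨a, b, c, rfl, hab, hbc⟩ := sort3 L cL
  obtain ⟨e, f, rfl, hef⟩ := sort2 R cR
  rw [PP_three, PP_two] at h
  exact p32s (hL a (by simp)) (hL b (by simp)) (hL c (by simp)) (hR e (by simp)) (hR f (by simp))
    hab hbc hef h

/-! ### (3|3) -/

/-- the conclusion of the classification -/
def QQ (L R : Multiset (ℂ × ℕ)) : Prop := (∃ t, t ∈ L ∧ t ∈ R) ∨ Fam L R ∨ Fam R L

theorem QQ.symm {L R : Multiset (ℂ × ℕ)} (h : QQ L R) : QQ R L := by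
  rcases h with ⟨t, h1, h2⟩ | h | h
  · exact Or.inl ⟨t, h2, h1⟩
  · exact Or.inr (Or.inr h)
  · exact Or.inr (Or.inl h)

/-- splitting off a member -/
theorem split_mem {e f g A : ℂ × ℕ} (hA : A ∈ ({e, f, g} : Multiset (ℂ × ℕ))) :
    ∃ f' g' : ℂ × ℕ, ({e, f, g} : Multiset (ℂ × ℕ)) = {A, f', g'} ∧
      fac e * (fac f * fac g) = fac A * (fac f' * fac g') := by
  simp only [Multiset.insert_eq_cons, Multiset.mem_cons, Multiset.mem_singleton] at hA
  rcases hA with rfl | rfl | rfl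
  · exact ⟨f, g, rfl, rfl⟩
  · exact ⟨e, g, ms12 _ _ _, by ring⟩
  · exact ⟨e, f, ms13 _ _ _, by ring⟩

/-- the smallest exponent occurs exactly on one side -/
theorem p33A {a b c e f g : ℂ × ℕ} (ha : Vd a) (hb : Vd b) (hc : Vd c) (he : Vd e) (hf : Vd f)
    (hg : Vd g) (hab : a.2 ≤ b.2) (hbc : b.2 ≤ c.2) (hef : e.2 ≤ f.2) (hfg : f.2 ≤ g.2)
    (hae : a.2 < e.2) (h : fac a * (fac b * fac c) = fac e * (fac f * fac g)) :
    QQ {a, b, c} {e, f, g} := by
  obtain ⟨e1, e2⟩ := lead3 ha hb hc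
  obtain ⟨f1, f2⟩ := lead3 he hf hg
  rw [h, f1] at e1
  have ha2 := ha.2
  have haa : a = (a.1, a.2) := rfl
  have hl := (low3 ha.2 le_rfl hab (hab.trans hbc)).unique
    (low3 ha.2 hae.le (hae.le.trans hef) (hae.le.trans (hef.trans hfg))) h
  rw [if_pos rfl, if_neg (show ¬ e.2 = a.2 by omega), if_neg (show ¬ f.2 = a.2 by omega),
    if_neg (show ¬ g.2 = a.2 by omega)] at hl
  by_cases h1 : b.2 = a.2
  · rw [if_pos h1] at hl
    rw [if_neg (show ¬ c.2 = a.2 by omega)] at hl
    have hb' : b = (-a.1, a.2) := Prod.ext (by simp only []; linear_combination hl) h1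
    have h6 := fac_merge a.1 a.2
    rw [← haa, ← hb'] at h6
    rw [← mul_assoc, h6] at h
    obtain ⟨A, hA⟩ : ∃ A : ℂ × ℕ, A = (-a.1 ^ 2, 2 * a.2) := ⟨_, rfl⟩
    have hVA : Vd A := by rw [hA]; exact vd_neg_sq ha.1 ha.2
    rw [← hA] at h
    have hall : ∀ t ∈ ({e, f, g} : Multiset (ℂ × ℕ)), Vd t ∧ a.2 < t.2 := by
      intro t ht
      simp only [Multiset.insert_eq_cons, Multiset.mem_cons, Multiset.mem_singleton] at ht
      rcases ht with rfl | rfl | rfl
      · exact ⟨he, hae⟩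
      · exact ⟨hf, by omega⟩
      · exact ⟨hg, by omega⟩
    have hq := p32 {e, f, g} {A, c} (fun t ht => (hall t ht).1) (by
      intro t ht
      simp only [Multiset.insert_eq_cons, Multiset.mem_cons, Multiset.mem_singleton] at ht
      rcases ht with rfl | rfl
      · exact hVA
      · exact hc) (by simp) (by simp) (by rw [PP_three, PP_two]; exact h.symm)
    rcases hq with ⟨t, ht, ht2⟩ | ⟨ω, z, n, hω, hz, hn, ⟨h7, h8⟩ | ⟨h7, h8⟩⟩
    · simp only [Multiset.insert_eq_cons, Multiset.mem_cons, Multiset.mem_singleton] at ht2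
      rcases ht2 with h9 | h9
      · rw [h9] at ht
        obtain ⟨f', g', h10, h11⟩ := split_mem ht
        have hf' : Vd f' := (hall f' (by rw [h10]; simp)).1
        have hg' : Vd g' := (hall g' (by rw [h10]; simp)).1
        rw [h11] at h
        have h12 := mul_left_cancel₀ (fac_ne hVA) h
        obtain ⟨h13, h14⟩ := p21 hf' hg' hc h12.symm
        obtain ⟨ω, hω⟩ := exists_omega
        right; left
        refine ⟨ω, a.1, a.2, hω, ha.1, ha.2, Or.inr (Or.inr (Or.inr (Or.inr (Or.inr (Or.inl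
          ⟨f'.1, f'.2, hf'.1, hf'.2, ?_, ?_⟩)))))⟩
        · rw [← haa, ← hb', h14]
        · rw [h10, h13, hA, ms_rot]
      · left
        exact ⟨c, by simp, by rw [← h9]; exact ht⟩
    · rcases pair_cases h8 with ⟨h9, h10⟩ | ⟨h9, h10⟩
      · rw [hA] at h9
        have hz1 : -a.1 ^ 2 = z := congrArg Prod.fst h9
        have hn1 : 2 * a.2 = n := congrArg Prod.snd h9
        right; left
        refine ⟨ω, a.1, a.2, hω, ha.1, ha.2, Or.inr (Or.inr (Or.inr (Or.inr (Or.inr (Or.inr (Or.inl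
          ⟨?_, ?_⟩))))))⟩
        · rw [← haa, ← hb', h10, ← hz1, ← hn1]
          congr 3
          apply Prod.ext
          · simp only []; ring
          · simp only []; ring
        · rw [h7, ← hz1, ← hn1]
          have q1 : (-ω * -a.1 ^ 2, 2 * a.2) = (ω * a.1 ^ 2, 2 * a.2) := by
            apply Prod.ext
            · simp only []; ring
            · rfl
          have q2 : (-ω ^ 2 * -a.1 ^ 2, 2 * a.2) = (ω ^ 2 * a.1 ^ 2, 2 * a.2) := by
            apply Prod.ext
            · simp only []; ring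
            · rfl
          have q3 : (-(-a.1 ^ 2) ^ 2, 2 * (2 * a.2)) = (-a.1 ^ 4, 4 * a.2) := by
            apply Prod.ext
            · simp only []; ring
            · simp only []; ring
          rw [q1, q2, q3]
      · exfalso
        rw [hA] at h9
        have hn1 : 2 * a.2 = 3 * n := congrArg Prod.snd h9
        have h11 := (hall (-ω * z, n) (by rw [h7]; simp)).2
        simp only [] at h11
        omega
    · -- A = (± z³, 3n)
      have key : ∃ ε : ℂ, (ε = 1 ∨ ε = -1) ∧ A = (ε * z ^ 3, 3 * n) ∧ c = (-ε * z ^ 3, 3 * n) := by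
        rcases pair_cases h8 with ⟨h9, h10⟩ | ⟨h9, h10⟩
        · refine ⟨1, Or.inl rfl, ?_, ?_⟩
          · rw [h9]; simp
          · rw [h10]; simp
        · refine ⟨-1, Or.inr rfl, ?_, ?_⟩
          · rw [h9]; simp
          · rw [h10]; simp
      obtain ⟨ε, hε, hA2, hc2⟩ := key
      rw [hA] at hA2
      have hz1 : -a.1 ^ 2 = ε * z ^ 3 := congrArg Prod.fst hA2
      have hn1 : 2 * a.2 = 3 * n := congrArg Prod.snd hA2
      have nz := pp_ne hz
      obtain ⟨m, hm⟩ : ∃ m, m = a.2 - n := ⟨_, rfl⟩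
      have hm1 : a.2 = 3 * m := by omega
      have hm2 : n = 2 * m := by omega
      obtain ⟨y, hy⟩ : ∃ y, y = a.1 / z := ⟨_, rfl⟩
      have hε2 : ε ^ 2 = 1 := by rcases hε with rfl | rfl <;> norm_num
      have hay : a.1 = y * z := by rw [hy]; field_simp
      have hy2 : y ^ 2 = -ε * z := by
        rw [hay] at hz1
        have : (y ^ 2 - -ε * z) * z ^ 2 = 0 := by linear_combination -hz1
        exact sub_eq_zero.mp ((mul_eq_zero.mp this).resolve_right (pow_ne_zero 2 nz))
      have hy3 : y ^ 3 = -ε * a.1 := by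
        have : y ^ 3 = y * y ^ 2 := by ring
        rw [this, hy2, hay]; ring
      have hy4 : y ^ 4 = z ^ 2 := by
        have : y ^ 4 = (y ^ 2) ^ 2 := by ring
        rw [this, hy2]
        linear_combination z ^ 2 * hε2
      have hy6 : y ^ 6 = a.1 ^ 2 := by
        have : y ^ 6 = (y ^ 3) ^ 2 := by ring
        rw [this, hy3]
        linear_combination a.1 ^ 2 * hε2
      have hc3 : c = (y ^ 6, 6 * m) := by
        rw [hc2]
        apply Prod.ext
        · simp only []
          rw [hy6]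
          linear_combination hz1
        · simp only []; omega
      have hR : ({e, f, g} : Multiset (ℂ × ℕ)) =
          {(-y ^ 4, 4 * m), (-ω * y ^ 4, 4 * m), (-ω ^ 2 * y ^ 4, 4 * m)} := by
        rw [h7, hy4, hm2, show 2 * (2 * m) = 4 * m by ring]
      have hyn : ‖y‖ = 1 := by rw [hy, norm_div, ha.1, hz, div_one]
      right; left
      refine ⟨ω, y, m, hω, hyn, by omega, Or.inr (Or.inr (Or.inr (Or.inr (Or.inr (Or.inr (Or.inr
        (Or.inl ⟨?_, hR⟩)))))))⟩
      rw [hc3]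
      rcases hε with rfl | rfl
      · have q1 : a = (-y ^ 3, 3 * m) := by
          apply Prod.ext
          · simp only []; rw [hy3]; ring
          · exact hm1
        have q2 : b = (y ^ 3, 3 * m) := by
          rw [hb']
          apply Prod.ext
          · simp only []; rw [hy3]; ring
          · exact hm1
        rw [q1, q2, ms12]
      · have q1 : a = (y ^ 3, 3 * m) := by
          apply Prod.ext
          · simp only []; rw [hy3]; ring
          · exact hm1
        have q2 : b = (-y ^ 3, 3 * m) := by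
          rw [hb']
          apply Prod.ext
          · simp only []; rw [hy3]; ring
          · exact hm1
        rw [q1, q2]
  · exfalso
    rw [if_neg h1, if_neg (show ¬ c.2 = a.2 by omega)] at hl
    exact pp_ne ha.1 (by linear_combination hl)

/-- two smallest exponents on the left, one on the right -/
theorem p33B {a b c e f g : ℂ × ℕ} (ha : Vd a) (hb : Vd b) (hc : Vd c) (he : Vd e) (hf : Vd f)
    (hg : Vd g) (hba : b.2 = a.2) (hea : e.2 = a.2) (hca : a.2 < c.2) (hfa : a.2 < f.2)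
    (hga : a.2 < g.2) (h : fac a * (fac b * fac c) = fac e * (fac f * fac g)) :
    QQ {a, b, c} {e, f, g} := by
  have ha2 := ha.2
  have hl := (low3 ha.2 le_rfl hba.ge hca.le).unique (low3 ha.2 hea.ge hfa.le hga.le) h
  rw [if_pos rfl, if_pos hba, if_neg (show ¬ c.2 = a.2 by omega), if_pos hea,
    if_neg (show ¬ f.2 = a.2 by omega), if_neg (show ¬ g.2 = a.2 by omega)] at hl
  obtain ⟨ω, h3, h4, h5⟩ := pp_three (-e.1) a.1 b.1 (by rw [norm_neg]; exact he.1) ha.1 hb.1
    (by linear_combination hl)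
  have ha' : a = (ω * -e.1, e.2) := Prod.ext h4 hea.symm
  have hb' : b = (ω ^ 2 * -e.1, e.2) := Prod.ext h5 (by rw [hba, hea])
  have h6 := fac_cube ω (-e.1) e.2 h3
  rw [← ha', ← hb'] at h6
  have h7 := fac_merge e.1 e.2
  have hee : e = (e.1, e.2) := rfl
  rw [← hee] at h7
  obtain ⟨C, hC⟩ : ∃ C : ℂ × ℕ, C = (-e.1 ^ 3, 3 * e.2) := ⟨_, rfl⟩
  obtain ⟨D, hD⟩ : ∃ D : ℂ × ℕ, D = (-e.1 ^ 2, 2 * e.2) := ⟨_, rfl⟩
  have hC' : ((-e.1) ^ 3, 3 * e.2) = C := by
    rw [hC]
    apply Prod.ext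
    · simp only []; ring
    · rfl
  rw [hC'] at h6
  rw [← hD] at h7
  have hVC : Vd C := by rw [hC]; exact vd_neg_pow he.1 he.2 3 (by norm_num)
  have hVD : Vd D := by rw [hD]; exact vd_neg_sq he.1 he.2
  have hC2 : C.2 = 3 * e.2 := by rw [hC]
  have hD2 : D.2 = 2 * e.2 := by rw [hD]
  have h8 : fac D * (fac f * fac g) = fac C * fac c := by
    rw [← h6, ← h7]
    linear_combination -(fac (-e.1, e.2)) * h
  have hLa : ({a, b, c} : Multiset (ℂ × ℕ)) = {(-ω * e.1, e.2), (-ω ^ 2 * e.1, e.2), c} := by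
    rw [ha', hb']
    simp
  have hq := p32 {D, f, g} {C, c} (by
      intro t ht
      simp only [Multiset.insert_eq_cons, Multiset.mem_cons, Multiset.mem_singleton] at ht
      rcases ht with rfl | rfl | rfl
      · exact hVD
      · exact hf
      · exact hg) (by
      intro t ht
      simp only [Multiset.insert_eq_cons, Multiset.mem_cons, Multiset.mem_singleton] at ht
      rcases ht with rfl | rfl
      · exact hVC
      · exact hc) (by simp) (by simp) (by rw [PP_three, PP_two]; exact h8)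
  rcases hq with ⟨t, ht, ht2⟩ | ⟨ω', u, n, hω', hu, hn, ⟨h9, h10⟩ | ⟨h9, h10⟩⟩
  · simp only [Multiset.insert_eq_cons, Multiset.mem_cons, Multiset.mem_singleton] at ht ht2
    -- the case where `C` is one of `f, g`
    have caseC : ∀ {x y : ℂ × ℕ}, Vd x → Vd y → C = x → fac D * (fac x * fac y) = fac C * fac c →
        ({e, x, y} : Multiset (ℂ × ℕ)) = {e, f, g} → Fam {a, b, c} {e, f, g} := by
      intro x y hx hy hCx hxy hm
      rw [← hCx] at hxy
      have h11 : fac D * fac y = fac c := by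
        apply mul_left_cancel₀ (fac_ne hVC)
        rw [← hxy]; ring
      obtain ⟨h12, h13⟩ := p21 hVD hy hc h11
      refine ⟨ω, e.1, e.2, h3, he.1, he.2, Or.inr (Or.inr (Or.inr (Or.inr (Or.inr (Or.inr (Or.inr
        (Or.inr (Or.inr (Or.inl ⟨?_, ?_⟩)))))))))⟩
      · rw [hLa, h13, hD]
        congr 3
        apply Prod.ext
        · simp only []; ring
        · simp only []; ring
      · rw [← hm, ← hCx, h12, hC, hD, ms23]
        simp
    rcases ht2 with h11 | h11
    · rw [h11] at ht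
      rcases ht with h12 | h12 | h12
      · exfalso
        rw [h12] at hC2
        omega
      · right; left
        exact caseC hf hg h12 h8 rfl
      · right; left
        exact caseC hg hf h12 (by rw [← h8]; ring) (ms23 _ _ _)
    · rw [h11] at ht
      rcases ht with h12 | h12 | h12
      · -- c = D
        right; left
        have h13 : fac f * fac g = fac C := by
          apply mul_left_cancel₀ (fac_ne hVD)
          rw [h8, h12]; ring
        obtain ⟨h14, h15⟩ := p21 hf hg hVC h13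
        rw [hC] at h15
        have q1 : -e.1 ^ 3 = -f.1 ^ 2 := congrArg Prod.fst h15
        have q2 : 3 * e.2 = 2 * f.2 := congrArg Prod.snd h15
        obtain ⟨n, hn⟩ : ∃ n, n = f.2 - e.2 := ⟨_, rfl⟩
        have hn1 : e.2 = 2 * n := by omega
        have hn2 : f.2 = 3 * n := by omega
        have ne := pp_ne he.1
        obtain ⟨y, hy⟩ : ∃ y, y = f.1 / e.1 := ⟨_, rfl⟩
        have hfy : f.1 = y * e.1 := by rw [hy]; field_simp
        have hy2 : y ^ 2 = e.1 := by
          rw [hfy] at q1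
          have : (y ^ 2 - e.1) * e.1 ^ 2 = 0 := by linear_combination q1
          exact sub_eq_zero.mp ((mul_eq_zero.mp this).resolve_right (pow_ne_zero 2 ne))
        have hy3 : y ^ 3 = f.1 := by
          have : y ^ 3 = y * y ^ 2 := by ring
          rw [this, hy2, hfy]
        have hy4 : y ^ 4 = e.1 ^ 2 := by
          have : y ^ 4 = (y ^ 2) ^ 2 := by ring
          rw [this, hy2]
        refine ⟨ω, y, n, h3, by rw [hy, norm_div, hf.1, he.1, div_one], by omega,
          Or.inr (Or.inr (Or.inr (Or.inr (Or.inr (Or.inr (Or.inr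
          (Or.inr (Or.inl ⟨?_, ?_⟩))))))))⟩
        · rw [hLa, h12, hD, hy2, hy4, hn1, show 2 * (2 * n) = 4 * n by ring]
        · have hff : f = (f.1, f.2) := rfl
          rw [h14, hee, hff, hy2, hy3, hn1, hn2]
      · left
        exact ⟨c, by simp, by rw [h12]; simp⟩
      · left
        exact ⟨c, by simp, by rw [h12]; simp⟩
  · exfalso
    have m1 : D ∈ ({D, f, g} : Multiset (ℂ × ℕ)) := by simp
    rw [h9] at m1
    simp only [Multiset.insert_eq_cons, Multiset.mem_cons, Multiset.mem_singleton] at m1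
    have m2 : D.2 = n ∨ D.2 = 2 * n := by
      rcases m1 with h | h | h
      · left; rw [h]
      · left; rw [h]
      · right; rw [h]
    rcases pair_cases h10 with ⟨k1, k2⟩ | ⟨k1, k2⟩
    · have : C.2 = n := by rw [k1]
      omega
    · have k3 : C.2 = 3 * n := by rw [k1]
      have k4 : c.2 = n := by rw [k2]
      omega
  · -- all exponents on the right are 2d
    right; left
    have k0 : C.2 = 3 * n ∧ c = (-C.1, 3 * n) := by
      rcases pair_cases h10 with ⟨k1, k2⟩ | ⟨k1, k2⟩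
      · rw [k1, k2]; exact ⟨rfl, rfl⟩
      · rw [k1, k2]; simp
    have hn1 : n = e.2 := by omega
    have hexp : ∀ t ∈ ({D, f, g} : Multiset (ℂ × ℕ)), t.2 = 2 * n := by
      intro t ht
      rw [h9] at ht
      simp only [Multiset.insert_eq_cons, Multiset.mem_cons, Multiset.mem_singleton] at ht
      rcases ht with rfl | rfl | rfl <;> rfl
    have hf2 := hexp f (by simp)
    have hg2 := hexp g (by simp)
    have hc2 : c.2 = 3 * n := by rw [k0.2]
    have hl2 := (low3 (d := D.2) hVD.2 le_rfl (by omega) (by omega)).unique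
      (low2 (a := C) (b := c) hVD.2 (by omega) (by omega)) h8
    rw [if_pos rfl, if_pos (show f.2 = D.2 by omega), if_pos (show g.2 = D.2 by omega),
      if_neg (show ¬ C.2 = D.2 by omega), if_neg (show ¬ c.2 = D.2 by omega)] at hl2
    obtain ⟨ω'', w1, w2, w3⟩ := pp_three D.1 f.1 g.1 hVD.1 hf.1 hg.1 (by linear_combination hl2)
    have hD1 : D.1 = -e.1 ^ 2 := by rw [hD]
    have hcc : c = (e.1 ^ 3, 3 * e.2) := by
      rw [k0.2, hC, hn1]
      simp
    have hω3 : ω ^ 3 = 1 := by linear_combination (ω - 1) * h3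
    refine ⟨ω, e.1, e.2, h3, he.1, he.2, Or.inr (Or.inr (Or.inr (Or.inr (Or.inr (Or.inr (Or.inr
        (Or.inr (Or.inr (Or.inr ⟨?_, ?_⟩)))))))))⟩
    · rw [hLa, hcc]
    · rcases omega_two h3 w1 with h | h
      · have q1 : f = (-ω * e.1 ^ 2, 2 * e.2) := by
          apply Prod.ext
          · simp only []; rw [w2, h, hD1]; ring
          · simp only []; omega
        have q2 : g = (-ω ^ 2 * e.1 ^ 2, 2 * e.2) := by
          apply Prod.ext
          · simp only []; rw [w3, h, hD1]; ring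
          · simp only []; omega
        rw [q1, q2]
      · have q1 : f = (-ω ^ 2 * e.1 ^ 2, 2 * e.2) := by
          apply Prod.ext
          · simp only []; rw [w2, h, hD1]; ring
          · simp only []; omega
        have q2 : g = (-ω * e.1 ^ 2, 2 * e.2) := by
          apply Prod.ext
          · simp only []; rw [w3, h, hD1]; linear_combination (-ω * e.1 ^ 2) * hω3
          · simp only []; omega
        rw [q1, q2, ms23]

theorem p33s {a b c e f g : ℂ × ℕ} (ha : Vd a) (hb : Vd b) (hc : Vd c) (he : Vd e) (hf : Vd f)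
    (hg : Vd g) (hab : a.2 ≤ b.2) (hbc : b.2 ≤ c.2) (hef : e.2 ≤ f.2) (hfg : f.2 ≤ g.2)
    (h : fac a * (fac b * fac c) = fac e * (fac f * fac g)) :
    QQ {a, b, c} {e, f, g} := by
  rcases lt_trichotomy a.2 e.2 with hae | hae | hae
  · exact p33A ha hb hc he hf hg hab hbc hef hfg hae h
  · obtain ⟨e1, e2⟩ := lead3 ha hb hc
    obtain ⟨f1, f2⟩ := lead3 he hf hg
    rw [h, f1] at e1
    rw [h, f2] at e2
    have hl := (low3 ha.2 le_rfl hab (hab.trans hbc)).unique
      (low3 ha.2 hae.le (hae.le.trans hef) (hae.le.trans (hef.trans hfg))) h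
    rw [if_pos rfl, if_pos hae.symm] at hl
    have haa : a = (a.1, a.2) := rfl
    have hee : e = (e.1, e.2) := rfl
    by_cases hc3 : c.2 = a.2
    · -- all exponents are equal
      have k1 : b.2 = a.2 := by omega
      have k2 : f.2 = a.2 := by omega
      have k3 : g.2 = a.2 := by omega
      rw [if_pos k1, if_pos hc3, if_pos k2, if_pos k3] at hl
      have hl' := congrArg (starRingEnd ℂ) hl
      simp only [map_add] at hl'
      have ea := pp_conj ha.1
      have eb := pp_conj hb.1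
      have ec := pp_conj hc.1
      have ee := pp_conj he.1
      have ef := pp_conj hf.1
      have eg := pp_conj hg.1
      have s2 : a.1 * b.1 + b.1 * c.1 + c.1 * a.1 = e.1 * f.1 + f.1 * g.1 + g.1 * e.1 := by
        have t1 : a.1 * (b.1 * c.1) * ((starRingEnd ℂ) a.1 + ((starRingEnd ℂ) b.1 +
            (starRingEnd ℂ) c.1)) = a.1 * b.1 + b.1 * c.1 + c.1 * a.1 := by
          linear_combination (b.1 * c.1) * ea + (a.1 * c.1) * eb + (a.1 * b.1) * ec
        have t2 : e.1 * (f.1 * g.1) * ((starRingEnd ℂ) e.1 + ((starRingEnd ℂ) f.1 +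
            (starRingEnd ℂ) g.1)) = e.1 * f.1 + f.1 * g.1 + g.1 * e.1 := by
          linear_combination (f.1 * g.1) * ee + (e.1 * g.1) * ef + (e.1 * f.1) * eg
        rw [← t1, ← t2, hl', e2]
      have h5 : (e.1 - a.1) * ((e.1 - b.1) * (e.1 - c.1)) = 0 := by
        linear_combination -e.1 ^ 2 * hl + e.1 * s2 + e2
      left
      rcases mul_eq_zero.mp h5 with h6 | h6
      · refine ⟨a, by simp, ?_⟩
        have : a = e := Prod.ext (sub_eq_zero.mp h6).symm hae
        rw [this]; simp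
      · rcases mul_eq_zero.mp h6 with h7 | h7
        · refine ⟨b, by simp, ?_⟩
          have : b = e := Prod.ext (sub_eq_zero.mp h7).symm (by omega)
          rw [this]; simp
        · refine ⟨c, by simp, ?_⟩
          have : c = e := Prod.ext (sub_eq_zero.mp h7).symm (by omega)
          rw [this]; simp
    · rw [if_neg hc3, if_neg (show ¬ g.2 = a.2 by omega)] at hl
      by_cases hb3 : b.2 = a.2
      · rw [if_pos hb3] at hl
        by_cases hf3 : f.2 = a.2
        · rw [if_pos hf3] at hl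
          rcases pp_four a.1 b.1 (-e.1) (-f.1) ha.1 hb.1 (by rw [norm_neg]; exact he.1)
            (by rw [norm_neg]; exact hf.1) (by linear_combination hl) with
            ⟨h3, h4⟩ | ⟨h3, _⟩ | ⟨h3, _⟩
          · have hb' : b = (-a.1, a.2) := Prod.ext (by simp only []; linear_combination h3) hb3
            have hf' : f = (-e.1, e.2) := Prod.ext (by simp only []; linear_combination -h4)
              (by simp only []; omega)
            have h6 := fac_merge a.1 a.2
            rw [← haa, ← hb'] at h6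
            have h7 := fac_merge e.1 e.2
            rw [← hee, ← hf'] at h7
            rw [← mul_assoc, h6, ← mul_assoc, h7] at h
            rcases p22 (vd_neg_sq ha.1 ha.2) hc (vd_neg_sq he.1 he.2) hg h with ⟨_, h8⟩ | ⟨h8, h9⟩
            · left
              exact ⟨c, by simp, by rw [h8]; simp⟩
            · right; left
              obtain ⟨ω, hω⟩ := exists_omega
              refine ⟨ω, a.1, a.2, hω, ha.1, ha.2, Or.inr (Or.inr (Or.inr (Or.inr (Or.inr (Or.inl
                ⟨e.1, e.2, he.1, he.2, ?_, ?_⟩)))))⟩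
              · rw [← haa, ← hb', ← h9]
              · rw [← hee, ← hf', h8]
          · left
            refine ⟨a, by simp, ?_⟩
            have : a = e := Prod.ext (by linear_combination h3) hae
            rw [this]; simp
          · left
            refine ⟨a, by simp, ?_⟩
            have : a = f := Prod.ext (by linear_combination h3) hf3.symm
            rw [this]; simp
        · exact p33B ha hb hc he hf hg hb3 hae.symm (by omega) (by omega) (by omega) h
      · rw [if_neg hb3] at hl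
        by_cases hf3 : f.2 = a.2
        · exact (p33B he hf hg ha hb hc (by omega) hae (by omega) (by omega) (by omega) h.symm).symm
        · rw [if_neg hf3] at hl
          left
          refine ⟨a, by simp, ?_⟩
          have : a = e := Prod.ext (by linear_combination hl) hae
          rw [this]; simp
  · exact (p33A he hf hg ha hb hc hef hfg hab hbc hae h.symm).symm

/-! ### the classification -/

theorem PP_deg (L : Multiset (ℂ × ℕ)) (hL : ∀ t ∈ L, Vd t) (h : PP L = 1) : L = 0 := by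
  by_contra hne
  obtain ⟨a, ha⟩ := Multiset.exists_mem_of_ne_zero hne
  obtain ⟨M, rfl⟩ := Multiset.exists_cons_of_mem ha
  have h1 : PP (a ::ₘ M) = fac a * PP M := by simp [PP, fac]
  rw [h1] at h
  have h2 : IsUnit (fac a) := IsUnit.of_mul_eq_one _ h
  have h3 := Polynomial.natDegree_eq_zero_of_isUnit h2
  rw [(fac_lead (hL a ha)).1] at h3
  have := (hL a ha).2
  omega

theorem poly_class_aux (L R : Multiset (ℂ × ℕ)) (hL : ∀ t ∈ L, Vd t) (hR : ∀ t ∈ R, Vd t)
    (cL : L.card ≤ 3) (hRL : R.card ≤ L.card) (hne : L ≠ 0) (h : PP L = PP R) : QQ L R := by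
  obtain ⟨ω, hω⟩ := exists_omega
  have hR0 : R.card ≠ 0 := by
    intro h0
    rw [Multiset.card_eq_zero] at h0
    rw [h0, PP_zero] at h
    exact hne (PP_deg L hL h)
  have hcases : L.card = 1 ∨ L.card = 2 ∨ L.card = 3 := by omega
  rcases hcases with hL1 | hL2 | hL3
  · have hR1 : R.card = 1 := by omega
    obtain ⟨a, rfl⟩ := Multiset.card_eq_one.mp hL1
    obtain ⟨b, rfl⟩ := Multiset.card_eq_one.mp hR1
    rw [PP_one, PP_one] at h
    left
    have := fac_inj (hL a (by simp)) (hR b (by simp)) h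
    exact ⟨a, by simp, by simp [this]⟩
  · obtain ⟨a, b, rfl, hab⟩ := sort2 L hL2
    have va := hL a (by simp)
    have vb := hL b (by simp)
    have hRc : R.card = 1 ∨ R.card = 2 := by omega
    rcases hRc with hR1 | hR2
    · obtain ⟨c, rfl⟩ := Multiset.card_eq_one.mp hR1
      rw [PP_one, PP_two] at h
      obtain ⟨h1, h2⟩ := p21 va vb (hR c (by simp)) h
      right; left
      refine ⟨ω, a.1, a.2, hω, va.1, va.2, Or.inl ⟨?_, ?_⟩⟩
      · rw [h1]
      · rw [h2]
    · obtain ⟨c, e, rfl, hce⟩ := sort2 R hR2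
      rw [PP_two, PP_two] at h
      left
      rcases p22 va vb (hR c (by simp)) (hR e (by simp)) h with ⟨h1, _⟩ | ⟨h1, _⟩
      · exact ⟨a, by simp, by simp [h1]⟩
      · exact ⟨a, by simp, by simp [h1]⟩
  · have hRc : R.card = 1 ∨ R.card = 2 ∨ R.card = 3 := by omega
    rcases hRc with hR1 | hR2 | hR3
    · obtain ⟨a, b, c, rfl, hab, hbc⟩ := sort3 L hL3
      have va := hL a (by simp)
      have vb := hL b (by simp)
      have vc := hL c (by simp)
      obtain ⟨t, rfl⟩ := Multiset.card_eq_one.mp hR1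
      rw [PP_one, PP_three] at h
      have haa : a = (a.1, a.2) := rfl
      right; left
      rcases p31 va vb vc (hR t (by simp)) hab hbc h with ⟨h1, h2, h3⟩ | ⟨ω', h0, h1, h2, h3⟩
      · refine ⟨ω, a.1, a.2, hω, va.1, va.2, Or.inr (Or.inr (Or.inl ⟨?_, ?_⟩))⟩
        · rw [h1, h2]
        · rw [h3]
      · refine ⟨ω', a.1, a.2, h0, va.1, va.2, Or.inr (Or.inl ⟨?_, ?_⟩)⟩
        · rw [h1, h2]
        · rw [h3]
    · rcases p32 L R hL hR hL3 hR2 h with h1 | ⟨ω', z, n, h0, hz, hn, h1 | h1⟩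
      · exact Or.inl h1
      · right; left
        exact ⟨ω', z, n, h0, hz, hn, Or.inr (Or.inr (Or.inr (Or.inl h1)))⟩
      · right; left
        exact ⟨ω', z, n, h0, hz, hn, Or.inr (Or.inr (Or.inr (Or.inr (Or.inl h1))))⟩
    · obtain ⟨a, b, c, rfl, hab, hbc⟩ := sort3 L hL3
      obtain ⟨e, f, g, rfl, hef, hfg⟩ := sort3 R hR3
      rw [PP_three, PP_three] at h
      exact p33s (hL a (by simp)) (hL b (by simp)) (hL c (by simp)) (hR e (by simp))
        (hR f (by simp)) (hR g (by simp)) hab hbc hef hfg h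

theorem poly_class (L R : Multiset (ℂ × ℕ)) (hL : ∀ t ∈ L, ‖t.1‖ = 1 ∧ 0 < t.2)
    (hR : ∀ t ∈ R, ‖t.1‖ = 1 ∧ 0 < t.2) (cL : L.card ≤ 3) (cR : R.card ≤ 3) (hne : L ≠ 0 ∨ R ≠ 0)
    (h : PP L = PP R) : (∃ t, t ∈ L ∧ t ∈ R) ∨ Fam L R ∨ Fam R L := by
  have hR0 : R = 0 → L = 0 := by
    intro h0
    rw [h0, PP_zero] at h
    exact PP_deg L hL h
  have hL0 : L = 0 → R = 0 := by
    intro h0
    rw [h0, PP_zero] at h
    exact PP_deg R hR h.symm
  have h1 : L ≠ 0 := by
    intro h0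
    rcases hne with h2 | h2
    · exact h2 h0
    · exact h2 (hL0 h0)
  have h2 : R ≠ 0 := fun h0 => h1 (hR0 h0)
  rcases le_total R.card L.card with h3 | h3
  · exact poly_class_aux L R hL hR cL h3 h1 h
  · exact (poly_class_aux R L hR hL cR h3 h2 h.symm).symm

end Pool.Agent.TriCos
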