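import Pool.Agent.Lib_MP_6e4ab6_nt.Full.ListDefs
import Pool.Agent.Lib_MP_6e4ab6_nt.Full.NIlem
import Pool.Agent.Lib_MP_6e4ab6_nt.Full.GalConc
import Pool.Agent.Lib_MP_6e4ab6_nt.Full.LiftNI
import Pool.Agent.Lib_MP_6e4ab6_nt.Full.Poly

/-! Definitions used in the passage from lines to the list of families. -/

namespace Pool.Agent.TriCos

/-- `exp (2πi x)` -/
noncomputable def ee (x : ℚ) : ℂ := Complex.exp (2 * Real.pi * Complex.I * (x : ℂ))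

/-- pairs (coefficient, exponent) of the moved entries -/
noncomputable def prs (L : Multiset (ℚ × ℕ)) : Multiset (ℂ × ℕ) := L.map (fun t => (ee t.1, t.2))

/-- values of the primitive families -/
def FamV (L R : Multiset ℝ) : Prop := ∃ x y : ℚ,
  (L = vals {x, x + 1/2} ∧ R = vals {2 * x + 1/2}) ∨
  (L = vals {x, x + 1/3, x - 1/3} ∧ R = vals {3 * x}) ∨
  (L = vals {x, x + 1/2, 2 * x} ∧ R = vals {4 * x + 1/2}) ∨
  (L = vals {x + 1/6, x - 1/6, 2 * x + 1/2} ∧ R = vals {x, 3 * x + 1/2}) ∨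
  (L = vals {2 * x + 1/2, 2 * x + 1/6, 2 * x - 1/6} ∧ R = vals {3 * x, 3 * x + 1/2}) ∨
  (L = vals {x, x + 1/2, 2 * y + 1/2} ∧ R = vals {y, y + 1/2, 2 * x + 1/2}) ∨
  (L = vals {x, x + 1/2, 6 * x} ∧ R = vals {2 * x + 1/3, 2 * x - 1/3, 4 * x + 1/2}) ∨
  (L = vals {3 * x, 3 * x + 1/2, 6 * x} ∧ R = vals {4 * x + 1/2, 4 * x + 1/6, 4 * x - 1/6}) ∨
  (L = vals {2 * x + 1/6, 2 * x - 1/6, 4 * x + 1/2} ∧ R = vals {2 * x, 3 * x, 3 * x + 1/2}) ∨
  (L = vals {x + 1/6, x - 1/6, 4 * x + 1/2} ∧ R = vals {x, 2 * x, 3 * x + 1/2}) ∨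
  (L = vals {x + 1/6, x - 1/6, 3 * x} ∧ R = vals {x, 2 * x + 1/6, 2 * x - 1/6})

/-- the classification of all rational solutions (proved elsewhere) -/
def MainStatement : Prop := ∀ a : Fin 6 → ℚ, Sol a → Concl a

end Pool.Agent.TriCos
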