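import Pool.Agent.Lib_MP_6e4ab6_nt.Full.GaloisA
import Pool.Agent.Lib_MP_6e4ab6_nt.Full.Sym
import Pool.Agent.Lib_MP_6e4ab6_nt.Full.Short

/-! Piece M9: triples modulo 9, and the prime 7 in presence of 9. -/

set_option autoImplicit false

namespace Pool.Agent.TriCos

open Finset

/-- the class sums modulo 3 vanish when `9 ∣ m` -/
theorem nine_graded3 (m : ℕ) (hm : 0 < m) (h9 : 9 ∣ m) (s : Fin 6 → ℤ) (hrel : Rel (2 * m) s) :
    Graded (2 * m) 3 s := by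
  obtain ⟨t, rfl⟩ := h9
  intro r
  apply class_sum univ (2 * (9 * t)) 3 (by omega) ⟨2 * (3 * t), by ring⟩ ?_ sg (fun μ => dot μ s) hrel r
  intro p hp hpd
  have h1 : 2 * (9 * t) / 3 = 2 * (3 * t) := by omega
  rw [h1]
  by_cases hp3 : p = 3
  · subst hp3
    exact ⟨2 * t, by ring⟩
  · have h2 : 2 * (9 * t) = 3 * (2 * (3 * t)) := by ring
    rw [h2] at hpd
    rcases (Nat.Prime.dvd_mul hp).1 hpd with h | h
    · exact absurd ((Nat.prime_dvd_prime_iff_eq hp Nat.prime_three).1 h) hp3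
    · exact h

/-- orientation of an integer modulo 3 -/
theorem nine_orient (a : ℤ) : ∃ ε : ℤˣ, (3 : ℤ) ∣ (ε : ℤ) * a ∨ (3 : ℤ) ∣ (ε : ℤ) * a - 1 := by
  rcases (by omega : a % 3 = 0 ∨ a % 3 = 1 ∨ a % 3 = 2) with h | h | h
  · exact ⟨1, Or.inl (by simp; omega)⟩
  · exact ⟨1, Or.inr (by simp; omega)⟩
  · exact ⟨-1, Or.inr (by simp; omega)⟩

theorem nine_omega {m : ℕ} (hm : 0 < m) {k : ℤ} (h : rt m k ^ 2 + rt m k + 1 = 0) :
    (3 * m : ℤ) ∣ 3 * k - m ∨ (3 * m : ℤ) ∣ 3 * k + m := by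
  have h1 : rt m k ^ 3 = 1 := by linear_combination (rt m k - 1) * h
  have h2 : rt m k ≠ 1 := by
    intro h3
    rw [h3] at h
    norm_num at h
  rw [rt_pow, rt_eq_one_iff m hm] at h1
  rw [Ne, rt_eq_one_iff m hm] at h2
  obtain ⟨c, hc⟩ := h1
  push_cast at hc
  have h3 : ¬ (3 : ℤ) ∣ c := by
    rintro ⟨d, rfl⟩
    apply h2
    exact ⟨d, by linarith⟩
  rcases (by omega : c % 3 = 1 ∨ c % 3 = 2) with h | h
  · left
    refine ⟨c / 3, ?_⟩
    have : c = 3 * (c / 3) + 1 := by omega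
    rw [hc]
    linear_combination (m : ℤ) * this
  · right
    refine ⟨c / 3 + 1, ?_⟩
    have : c = 3 * (c / 3) + 2 := by omega
    rw [hc]
    linear_combination (m : ℤ) * this

theorem nine_core (m : ℕ) (hm : 0 < m) (h9 : 9 ∣ m) (s : Fin 6 → ℤ) (hrel : Rel (2 * m) s)
    (h0 : (3 : ℤ) ∣ s 0 - 1) (h1 : (3 : ℤ) ∣ s 1 - 1) (h2 : (3 : ℤ) ∣ s 2 - 1)
    (hr : (3 : ℤ) ∣ s 3 ∧ (3 : ℤ) ∣ s 4 ∧ (3 : ℤ) ∣ s 5) :
    ((3 * m : ℤ) ∣ 3 * (s 1 - s 0) - m ∧ (3 * m : ℤ) ∣ 3 * (s 2 - s 0) + m) ∨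
      ((3 * m : ℤ) ∣ 3 * (s 1 - s 0) + m ∧ (3 * m : ℤ) ∣ 3 * (s 2 - s 0) - m) := by
  have hG := nine_graded3 m hm h9 s hrel 1
  have hfil : univ.filter (fun μ : Fin 16 => ((3 : ℕ) : ℤ) ∣ dot μ s - 1) = {1, 2, 4} := by
    ext μ
    obtain ⟨h3, h4, h5⟩ := hr
    fin_cases μ <;> simp [dot] <;> omega
  rw [hfil] at hG
  have hsum : rt (2 * m) (s 0 + s 1 - s 2) + rt (2 * m) (s 0 - s 1 + s 2) +
      rt (2 * m) (- s 0 + s 1 + s 2) = 0 := by
    rw [← hG]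
    simp [dot, sg]
    ring
  obtain ⟨ω, hω, hb, hc⟩ := three_unit _ _ _ (norm_rt _ _) (norm_rt _ _) (norm_rt _ _) hsum
  -- ratios
  have e1 : rt m (s 2 - s 1) = ω := by
    have : rt (2 * m) (s 0 - s 1 + s 2) = rt m (s 2 - s 1) * rt (2 * m) (s 0 + s 1 - s 2) := by
      rw [← rt_scale m 2 two_pos (s 2 - s 1), ← rt_add]
      congr 1
      push_cast
      ring
    rw [this] at hb
    exact mul_right_cancel₀ (rt_ne_zero _ _) hb
  have e2 : rt m (s 2 - s 0) = ω ^ 2 := by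
    have : rt (2 * m) (- s 0 + s 1 + s 2) = rt m (s 2 - s 0) * rt (2 * m) (s 0 + s 1 - s 2) := by
      rw [← rt_scale m 2 two_pos (s 2 - s 0), ← rt_add]
      congr 1
      push_cast
      ring
    rw [this] at hc
    exact mul_right_cancel₀ (rt_ne_zero _ _) hc
  have hω3 : ω ^ 3 = 1 := by linear_combination (ω - 1) * hω
  have e3 : rt m (s 1 - s 0) = ω := by
    have : rt m (s 2 - s 0) = rt m (s 2 - s 1) * rt m (s 1 - s 0) := by
      rw [← rt_add]; congr 1; ring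
    rw [e1, e2] at this
    have hω0 : ω ≠ 0 := by
      rintro rfl
      simp at hω3
    have h4 : ω * ω = ω * rt m (s 1 - s 0) := by rw [← this]; ring
    exact (mul_left_cancel₀ hω0 h4).symm
  have e4 : rt m (s 0 - s 2) = ω := by
    have : rt m (s 0 - s 2) * rt m (s 2 - s 0) = 1 := by
      rw [← rt_add, ← rt_zero m]; congr 1; ring
    rw [e2] at this
    have h5 : rt m (s 0 - s 2) * ω ^ 2 * ω = ω := by rw [this, one_mul]
    rw [mul_assoc, ← pow_succ, hω3, mul_one] at h5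
    exact h5
  have hA := nine_omega hm (k := s 1 - s 0) (by rw [e3]; exact hω)
  have hB := nine_omega hm (k := s 0 - s 2) (by rw [e4]; exact hω)
  have hC : (m : ℤ) ∣ (s 1 - s 0) - (s 0 - s 2) := by
    rw [← rt_eq_iff m hm, e3, e4]
  obtain ⟨c, hc'⟩ := hC
  have hmZ : (0 : ℤ) < m := by exact_mod_cast hm
  rcases hA with hA | hA
  · left
    refine ⟨hA, ?_⟩
    obtain ⟨d, hd⟩ := hA
    exact ⟨c - d, by linear_combination 3 * hc' - hd⟩
  · right
    refine ⟨hA, ?_⟩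
    obtain ⟨d, hd⟩ := hA
    exact ⟨c - d, by linear_combination 3 * hc' - hd⟩

theorem triple9 (m : ℕ) (hm : 0 < m) (h9 : 9 ∣ m) (s : Fin 6 → ℤ) (hrel : Rel (2 * m) s)
    (hnd : ND (2 * m) s)
    (hl : ¬ (3 : ℤ) ∣ s 0 ∧ ¬ (3 : ℤ) ∣ s 1 ∧ ¬ (3 : ℤ) ∣ s 2)
    (hr : (3 : ℤ) ∣ s 3 ∧ (3 : ℤ) ∣ s 4 ∧ (3 : ℤ) ∣ s 5) :
    ∃ ε₁ ε₂ : ℤˣ, (3 * m : ℤ) ∣ 3 * ((ε₁ : ℤ) * s 1 - s 0) - m ∧
      (3 * m : ℤ) ∣ 3 * ((ε₂ : ℤ) * s 2 - s 0) + m ∨
      (3 * m : ℤ) ∣ 3 * ((ε₁ : ℤ) * s 1 - s 0) + m ∧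
      (3 * m : ℤ) ∣ 3 * ((ε₂ : ℤ) * s 2 - s 0) - m := by
  clear hnd
  have hor : ∀ a : ℤ, ¬ (3 : ℤ) ∣ a → ∃ ε : ℤˣ, (3 : ℤ) ∣ (ε : ℤ) * a - 1 := by
    intro a ha
    obtain ⟨ε, h | h⟩ := nine_orient a
    · exfalso
      apply ha
      rcases Int.units_eq_one_or ε with rfl | rfl
      · simpa using h
      · simpa using h
    · exact ⟨ε, h⟩
  obtain ⟨ε0, h0⟩ := hor _ hl.1
  obtain ⟨ε1, h1⟩ := hor _ hl.2.1
  obtain ⟨ε2, h2⟩ := hor _ hl.2.2
  set ε : Fin 6 → ℤˣ := ![ε0, ε1, ε2, 1, 1, 1] with hε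
  have hrel' : Rel (2 * m) (sact 1 ε s) := by
    rw [rel_sact]
    · exact hrel
    · left
      intro i
      simp
  have h := nine_core m hm h9 (sact 1 ε s) hrel' (by simpa [sact, hε] using h0)
    (by simpa [sact, hε] using h1) (by simpa [sact, hε] using h2)
    ⟨by simpa [sact, hε] using hr.1, by simpa [sact, hε] using hr.2.1,
      by simpa [sact, hε] using hr.2.2⟩
  simp only [sact, hε, Equiv.Perm.coe_one, id_eq, Matrix.cons_val_zero, Matrix.cons_val_one,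
    Matrix.cons_val, smul_eq_mul] at h
  rcases Int.units_eq_one_or ε0 with rfl | rfl
  · refine ⟨ε1, ε2, ?_⟩
    simpa using h
  · refine ⟨-ε1, -ε2, ?_⟩
    simp only [Units.val_neg, Units.val_one] at h ⊢
    rcases h with ⟨⟨a, ha⟩, ⟨b, hb⟩⟩ | ⟨⟨a, ha⟩, ⟨b, hb⟩⟩
    · right
      exact ⟨⟨-a, by linear_combination -ha⟩, ⟨-b, by linear_combination -hb⟩⟩
    · left
      exact ⟨⟨-a, by linear_combination -ha⟩, ⟨-b, by linear_combination -hb⟩⟩

theorem nine_missing (F : Finset (Fin 16)) (k : Fin 16 → ℤ) (hF : F.card ≤ 6) :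
    ∃ r₀ : ℤ, ∀ i ∈ F, ¬ ((7 : ℕ) : ℤ) ∣ k i - r₀ := by
  have h1 : (F.image (fun i => (k i : ZMod 7))).card < (univ : Finset (ZMod 7)).card := by
    have h2 : (univ : Finset (ZMod 7)).card = 7 := by
      rw [Finset.card_univ, ZMod.card]
    rw [h2]
    exact lt_of_le_of_lt Finset.card_image_le (by omega)
  obtain ⟨z, -, hz⟩ := Finset.exists_mem_notMem_of_card_lt_card h1
  refine ⟨z.val, fun i hi hd => hz ?_⟩
  rw [Finset.mem_image]
  refine ⟨i, hi, ?_⟩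
  rw [← ZMod.intCast_zmod_eq_zero_iff_dvd] at hd
  push_cast at hd
  rw [ZMod.natCast_zmod_val, sub_eq_zero] at hd
  exact hd

theorem nine_missing' (F : Finset (Fin 16)) (k : Fin 16 → ℤ) (hF : F.card = 7) :
    (∃ r₀ : ℤ, ∀ i ∈ F, ¬ ((7 : ℕ) : ℤ) ∣ k i - r₀) ∨
      (∀ i ∈ F, ∀ j ∈ F, ((7 : ℕ) : ℤ) ∣ k i - k j → i = j) := by
  by_cases h : ∃ z : ZMod 7, z ∉ F.image (fun i => (k i : ZMod 7))
  · left
    obtain ⟨z, hz⟩ := h
    refine ⟨z.val, fun i hi hd => hz ?_⟩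
    rw [Finset.mem_image]
    refine ⟨i, hi, ?_⟩
    rw [← ZMod.intCast_zmod_eq_zero_iff_dvd] at hd
    push_cast at hd
    rw [ZMod.natCast_zmod_val, sub_eq_zero] at hd
    exact hd
  · right
    push Not at h
    have h1 : F.image (fun i => (k i : ZMod 7)) = univ := Finset.eq_univ_of_forall h
    have h2 : (F.image (fun i => (k i : ZMod 7))).card = F.card := by
      rw [h1, Finset.card_univ, ZMod.card, hF]
    have h3 := Finset.card_image_iff.1 h2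
    intro i hi j hj hd
    apply h3 hi hj
    rw [← ZMod.intCast_zmod_eq_zero_iff_dvd] at hd
    push_cast at hd
    exact sub_eq_zero.1 hd

theorem nine_three : ∀ t : ZMod 3, t = 0 ∨ t = 1 ∨ t = 2 := by decide

theorem nine_cards : ∀ a b c : ZMod 3, (a = 0 ∨ a = 1) → (b = 0 ∨ b = 1) → (c = 0 ∨ c = 1) →
    (a ≠ 0 ∨ b ≠ 0 ∨ c ≠ 0) →
    (∀ t : ZMod 3, (univ.filter (fun μ : Fin 16 => dot μ ![1, 1, 1, a, b, c] = t)).card ≤ 6) ∨
    (univ.filter (fun μ : Fin 16 => dot μ ![1, 1, 1, a, b, c] = 0) = {0, 7} ∧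
      (univ.filter (fun μ : Fin 16 => dot μ ![1, 1, 1, a, b, c] = 1)).card = 7 ∧
      (univ.filter (fun μ : Fin 16 => dot μ ![1, 1, 1, a, b, c] = 2)).card = 7) := by
  decide +kernel

theorem seven_contra (N' : ℕ) (hN' : 0 < N') (h9 : 9 ∣ N') (p' : ℤ)
    (hp' : (N' : ℤ) ∣ 7 * p' - 1) (a b c : ℤ) (ha : ¬ (3 : ℤ) ∣ a) (C : ℂ)
    (h1 : rt N' (p' * (a + b - c)) = C) (h2 : rt N' (p' * (a - b + c)) = C)
    (h3 : rt N' (p' * (- a + b + c)) = C) (h4 : (N' : ℤ) ∣ 4 * (a + b + c)) : False := by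
  have e0 : rt N' (p' * (a + b + c)) = C ^ 3 := by
    have : p' * (a + b + c) = p' * (a + b - c) + p' * (a - b + c) + p' * (- a + b + c) := by ring
    rw [this, rt_add, rt_add, h1, h2, h3]
    ring
  have e1 : C ^ 12 = 1 := by
    have : rt N' (p' * (a + b + c)) ^ 4 = 1 := by
      rw [rt_pow, rt_eq_one_iff N' hN']
      obtain ⟨d, hd⟩ := h4
      exact ⟨p' * d, by push_cast; linear_combination p' * hd⟩
    rw [e0] at this
    rw [← this]
    ring
  have hC : C ≠ 0 := by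
    rintro rfl
    simp at e1
  have e2 : rt N' (p' * (2 * a)) = C ^ 2 := by
    have h5 : rt N' (p' * (2 * a)) * rt N' (p' * (- a + b + c)) = rt N' (p' * (a + b + c)) := by
      rw [← rt_add]
      congr 1
      ring
    rw [h3, e0] at h5
    have h6 : rt N' (p' * (2 * a)) * C = C ^ 2 * C := by rw [h5]; ring
    exact mul_right_cancel₀ hC h6
  have e3 : rt N' (p' * (2 * a)) ^ 6 = 1 := by
    rw [e2, ← e1]
    ring
  rw [rt_pow, rt_eq_one_iff N' hN'] at e3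
  obtain ⟨d, hd⟩ := e3
  obtain ⟨f, hf⟩ := hp'
  push_cast at hd
  have h7 : (N' : ℤ) ∣ 12 * a := ⟨7 * d - 12 * a * f, by linear_combination 7 * hd - 12 * a * hf⟩
  have h8 : (9 : ℤ) ∣ 12 * a := (by exact_mod_cast h9 : (9 : ℤ) ∣ N').trans h7
  omega

theorem seven9_core (m : ℕ) (hm : 0 < m) (h9 : 9 ∣ m) (h7 : 7 ∣ m) (h49 : ¬ 49 ∣ m)
    (s : Fin 6 → ℤ) (hrel : Rel (2 * m) s)
    (h0 : (3 : ℤ) ∣ s 0 - 1) (h1 : (3 : ℤ) ∣ s 1 - 1) (h2 : (3 : ℤ) ∣ s 2 - 1)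
    (h3 : (3 : ℤ) ∣ s 3 ∨ (3 : ℤ) ∣ s 3 - 1) (h4 : (3 : ℤ) ∣ s 4 ∨ (3 : ℤ) ∣ s 4 - 1)
    (h5 : (3 : ℤ) ∣ s 5 ∨ (3 : ℤ) ∣ s 5 - 1)
    (hr : ¬ (3 : ℤ) ∣ s 3 ∨ ¬ (3 : ℤ) ∣ s 4 ∨ ¬ (3 : ℤ) ∣ s 5) :
    Graded (2 * m) 7 s := by
  obtain ⟨m', rfl⟩ := h7
  have hm' : 0 < m' := by omega
  have hc : ¬ 7 ∣ 2 * m' := by
    intro h
    apply h49
    have h6 : 7 ∣ m' := by omega
    obtain ⟨t, rfl⟩ := h6
    exact ⟨t, by ring⟩
  have h9' : 9 ∣ 2 * m' := by
    have : Nat.Coprime 9 7 := by norm_num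
    exact (this.dvd_of_dvd_mul_left h9).mul_left 2
  have hN : 2 * (7 * m') = 7 * (2 * m') := by ring
  have hG := nine_graded3 (7 * m') hm h9 s hrel
  set w : Fin 6 → ZMod 3 := fun i => (s i : ZMod 3) with hw
  have hdot : ∀ μ : Fin 16, dot μ w = ((dot μ s : ℤ) : ZMod 3) := by
    intro μ
    fin_cases μ <;> simp [dot, hw]
  have hfil : ∀ r : ℤ, univ.filter (fun μ : Fin 16 => ((3 : ℕ) : ℤ) ∣ dot μ s - r) =
      univ.filter (fun μ : Fin 16 => dot μ w = (r : ZMod 3)) := by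
    intro r
    ext μ
    simp only [mem_filter, mem_univ, true_and]
    rw [hdot, ← sub_eq_zero, ← Int.cast_sub]
    exact (ZMod.intCast_zmod_eq_zero_iff_dvd _ 3).symm
  have hGt : ∀ t : ZMod 3, ∑ μ ∈ univ.filter (fun μ : Fin 16 => dot μ w = t),
      (sg μ : ℂ) * rt (7 * (2 * m')) (dot μ s) = 0 := by
    intro t
    have h := hG (t.val : ℤ)
    rw [hfil, hN] at h
    have ht : (((t.val : ℕ) : ℤ) : ZMod 3) = t := by
      rw [Int.cast_natCast, ZMod.natCast_zmod_val]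
    rw [ht] at h
    exact h
  have hw01 : ∀ i, (3 : ℤ) ∣ s i ∨ (3 : ℤ) ∣ s i - 1 → w i = 0 ∨ w i = 1 := by
    intro i hi
    rcases hi with hi | hi
    · left
      exact (ZMod.intCast_zmod_eq_zero_iff_dvd _ 3).2 hi
    · right
      have := (ZMod.intCast_zmod_eq_zero_iff_dvd (s i - 1) 3).2 hi
      push_cast at this
      exact sub_eq_zero.1 this
  have hw1 : ∀ i, (3 : ℤ) ∣ s i - 1 → w i = 1 := by
    intro i hi
    have := (ZMod.intCast_zmod_eq_zero_iff_dvd (s i - 1) 3).2 hi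
    push_cast at this
    exact sub_eq_zero.1 this
  have hwv : w = ![1, 1, 1, w 3, w 4, w 5] := by
    funext i
    fin_cases i
    · exact hw1 0 h0
    · exact hw1 1 h1
    · exact hw1 2 h2
    · rfl
    · rfl
    · rfl
  have hrw : w 3 ≠ 0 ∨ w 4 ≠ 0 ∨ w 5 ≠ 0 := by
    rcases hr with h | h | h
    · left
      intro h'
      exact h ((ZMod.intCast_zmod_eq_zero_iff_dvd _ 3).1 h')
    · right; left
      intro h'
      exact h ((ZMod.intCast_zmod_eq_zero_iff_dvd _ 3).1 h')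
    · right; right
      intro h'
      exact h ((ZMod.intCast_zmod_eq_zero_iff_dvd _ 3).1 h')
  have hcards := nine_cards (w 3) (w 4) (w 5) (hw01 3 h3) (hw01 4 h4) (hw01 5 h5) hrw
  rw [← hwv] at hcards
  -- the class sums in every class modulo 3
  have key : ∀ t : ZMod 3, ∀ r : ℤ,
      ∑ μ ∈ (univ.filter (fun μ : Fin 16 => dot μ w = t)).filter
        (fun μ => ((7 : ℕ) : ℤ) ∣ dot μ s - r), (sg μ : ℂ) * rt (7 * (2 * m')) (dot μ s) = 0 := by
    intro t r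
    have hsmall : (univ.filter (fun μ : Fin 16 => dot μ w = t)).card ≤ 6 →
        ∑ μ ∈ (univ.filter (fun μ : Fin 16 => dot μ w = t)).filter
          (fun μ => ((7 : ℕ) : ℤ) ∣ dot μ s - r), (sg μ : ℂ) * rt (7 * (2 * m')) (dot μ s) = 0 := by
      intro hcard
      obtain ⟨r₀, hr₀⟩ := nine_missing _ (fun μ => dot μ s) hcard
      exact class_empty _ 7 (2 * m') (by norm_num) (by omega) hc sg (fun μ => dot μ s) (hGt t) r₀
        hr₀ r
    rcases hcards with hcards | ⟨hc0, hc1, hc2⟩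
    · exact hsmall (hcards t)
    · -- exactly one nonzero weight on the right
      have hM0 : ((2 * m' : ℕ) : ℤ) ∣ 4 * (s 0 + s 1 + s 2) := by
        have h6 := hGt 0
        rw [hc0] at h6
        have h7 : rt (7 * (2 * m')) (s 0 + s 1 + s 2) + rt (7 * (2 * m')) (-(s 0 + s 1 + s 2)) = 0 := by
          rw [← h6]
          rw [Finset.sum_pair (by decide)]
          have e1 : -(s 0 + s 1 + s 2) = - s 0 - s 1 - s 2 := by ring
          rw [e1]
          simp [dot, sg]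
        have h8 : rt (7 * (2 * m')) (s 0 + s 1 + s 2) ^ 4 = 1 := by
          rw [rt_neg] at h7
          have h9 : rt (7 * (2 * m')) (s 0 + s 1 + s 2) ≠ 0 := rt_ne_zero _ _
          have h10 : rt (7 * (2 * m')) (s 0 + s 1 + s 2) ^ 2 = -1 := by
            field_simp at h7
            linear_combination h7
          have : rt (7 * (2 * m')) (s 0 + s 1 + s 2) ^ 4 =
            (rt (7 * (2 * m')) (s 0 + s 1 + s 2) ^ 2) ^ 2 := by ring
          rw [this, h10]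
          norm_num
        rw [rt_pow, rt_eq_one_iff _ (by omega)] at h8
        refine dvd_trans ?_ h8
        exact ⟨7, by push_cast; ring⟩
      -- the prime 7
      obtain ⟨p', hp'⟩ : ∃ p' : ℤ, ((2 * m' : ℕ) : ℤ) ∣ 7 * p' - 1 := by
        have hcop : Nat.Coprime 7 (2 * m') :=
          (Nat.Prime.coprime_iff_not_dvd (by norm_num)).2 hc
        obtain ⟨u, v, huv⟩ := Nat.isCoprime_iff_coprime.2 hcop
        exact ⟨u, ⟨-v, by push_cast at huv ⊢; linear_combination huv⟩⟩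
      have hns0 : ¬ (3 : ℤ) ∣ s 0 := by omega
      have hbig : (univ.filter (fun μ : Fin 16 => dot μ w = t)).card = 7 →
          (∃ δ : ℤ, (δ = 1 ∨ δ = -1) ∧ ∃ μ₁ μ₂ μ₃ : Fin 16,
            (dot μ₁ w = t ∧ dot μ₂ w = t ∧ dot μ₃ w = t) ∧
            (sg μ₁ = 1 ∧ sg μ₂ = 1 ∧ sg μ₃ = 1) ∧ dot μ₁ s = δ * (s 0 + s 1 - s 2) ∧
            dot μ₂ s = δ * (s 0 - s 1 + s 2) ∧ dot μ₃ s = δ * (- s 0 + s 1 + s 2)) →
          ∑ μ ∈ (univ.filter (fun μ : Fin 16 => dot μ w = t)).filter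
            (fun μ => ((7 : ℕ) : ℤ) ∣ dot μ s - r),
              (sg μ : ℂ) * rt (7 * (2 * m')) (dot μ s) = 0 := by
        rintro hcard ⟨δ, hδ, μ₁, μ₂, μ₃, ⟨hd1, hd2, hd3⟩, ⟨hs1, hs2, hs3⟩, he1, he2, he3⟩
        rcases nine_missing' _ (fun μ => dot μ s) hcard with ⟨r₀, hr₀⟩ | hinj
        · exact class_empty _ 7 (2 * m') (by norm_num) (by omega) hc sg (fun μ => dot μ s) (hGt t)
            r₀ hr₀ r
        · exfalso
          obtain ⟨C, hC⟩ := class_const _ 7 (2 * m') (by norm_num) (by omega) hc p'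
            (by exact_mod_cast hp') sg (fun μ => dot μ s) (hGt t)
          have hsingle : ∀ μ : Fin 16, dot μ w = t → sg μ = 1 →
              rt (2 * m') (p' * dot μ s) = C := by
            intro μ hμ hsg
            have h6 := hC (dot μ s)
            have h7 : (univ.filter (fun μ : Fin 16 => dot μ w = t)).filter
                (fun i => ((7 : ℕ) : ℤ) ∣ dot i s - dot μ s) = {μ} := by
              ext i
              simp only [mem_filter, mem_univ, true_and, mem_singleton]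
              constructor
              · rintro ⟨hi1, hi2⟩
                exact hinj i (by simpa using hi1) μ (by simpa using hμ) hi2
              · rintro rfl
                exact ⟨hμ, by simp⟩
            rw [h7, sum_singleton, hsg] at h6
            simpa using h6
          have e1 := hsingle μ₁ hd1 hs1
          have e2 := hsingle μ₂ hd2 hs2
          have e3 := hsingle μ₃ hd3 hs3
          rw [he1] at e1
          rw [he2] at e2
          rw [he3] at e3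
          refine seven_contra (2 * m') (by omega) h9' p' hp' (δ * s 0) (δ * s 1) (δ * s 2) ?_ C ?_
            ?_ ?_ ?_
          · rcases hδ with rfl | rfl
            · simpa using hns0
            · simpa using hns0
          · rw [← e1]; congr 1; ring
          · rw [← e2]; congr 1; ring
          · rw [← e3]; congr 1; ring
          · have : 4 * (δ * s 0 + δ * s 1 + δ * s 2) = δ * (4 * (s 0 + s 1 + s 2)) := by ring
            rw [this]
            exact hM0.mul_left δ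
      have ht : t = 0 ∨ t = 1 ∨ t = 2 := nine_three t
      rcases ht with rfl | rfl | rfl
      · apply hsmall
        rw [hc0]
        decide
      · apply hbig hc1
        refine ⟨1, Or.inl rfl, 1, 2, 4, ⟨?_, ?_, ?_⟩, ⟨rfl, rfl, rfl⟩, ?_, ?_, ?_⟩
        · rw [hwv]; simp [dot]
        · rw [hwv]; simp [dot]
        · rw [hwv]; simp [dot]
        · simp [dot]
        · simp [dot]
        · simp [dot]
      · apply hbig hc2
        refine ⟨-1, Or.inr rfl, 6, 5, 3, ⟨?_, ?_, ?_⟩, ⟨rfl, rfl, rfl⟩, ?_, ?_, ?_⟩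
        · rw [hwv]; simp [dot]; decide
        · rw [hwv]; simp [dot]; decide
        · rw [hwv]; simp [dot]; decide
        · simp [dot]; ring
        · simp [dot]; ring
        · simp [dot]; ring
  intro r
  rw [hN]
  have h6 := Finset.sum_fiberwise (univ.filter (fun μ : Fin 16 => ((7 : ℕ) : ℤ) ∣ dot μ s - r))
    (fun μ => dot μ w) (fun μ => (sg μ : ℂ) * rt (7 * (2 * m')) (dot μ s))
  rw [← h6]
  apply Finset.sum_eq_zero
  intro t _
  rw [Finset.filter_comm]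
  exact key t r

theorem seven9 (m : ℕ) (hm : 0 < m) (h9 : 9 ∣ m) (h7 : 7 ∣ m) (h49 : ¬ 49 ∣ m)
    (s : Fin 6 → ℤ) (hrel : Rel (2 * m) s)
    (hl : ¬ (3 : ℤ) ∣ s 0 ∧ ¬ (3 : ℤ) ∣ s 1 ∧ ¬ (3 : ℤ) ∣ s 2)
    (hr : ¬ (3 : ℤ) ∣ s 3 ∨ ¬ (3 : ℤ) ∣ s 4 ∨ ¬ (3 : ℤ) ∣ s 5) :
    Graded (2 * m) 7 s := by
  choose e he using nine_orient
  set ε : Fin 6 → ℤˣ := fun i => e (s i) with hε
  have hSP : SP 1 := by
    intro i
    simp
  rw [← graded_sact (2 * m) 7 1 ε (Or.inl hSP) s]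
  have hv : ∀ i, sact 1 ε s i = (e (s i) : ℤ) * s i := by
    intro i
    simp [sact, hε]
  have hdiv : ∀ i, (3 : ℤ) ∣ (e (s i) : ℤ) * s i ↔ (3 : ℤ) ∣ s i := by
    intro i
    rcases Int.units_eq_one_or (e (s i)) with h | h <;> rw [h] <;> simp
  apply seven9_core m hm h9 h7 h49 (sact 1 ε s) ((rel_sact _ _ _ (Or.inl hSP) _).2 hrel)
  · rw [hv]
    exact (he (s 0)).resolve_left (fun h => hl.1 ((hdiv 0).1 h))
  · rw [hv]
    exact (he (s 1)).resolve_left (fun h => hl.2.1 ((hdiv 1).1 h))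
  · rw [hv]
    exact (he (s 2)).resolve_left (fun h => hl.2.2 ((hdiv 2).1 h))
  · rw [hv]; exact he (s 3)
  · rw [hv]; exact he (s 4)
  · rw [hv]; exact he (s 5)
  · simp only [hv, hdiv]
    exact hr

end Pool.Agent.TriCos
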