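import Pool.Agent.Lib_MP_6e4ab6_nt.Full.GaloisA
import Pool.Agent.Lib_MP_6e4ab6_nt.Full.Sym
import Pool.Agent.Lib_MP_6e4ab6_nt.Full.Short

/-!
# Primes exactly dividing the modulus: `p ≥ 17`, and `p = 11, 13`
-/

namespace Pool.Agent.TriCos

open Finset

theorem t2_big (p N' : ℕ) (hp : p.Prime) (h17 : 17 ≤ p) (hN' : 0 < N') (hc : ¬ p ∣ N')
    (s : Fin 6 → ℤ) (hrel : Rel (p * N') s) : Graded (p * N') p s := by
  have : NeZero p := ⟨hp.ne_zero⟩
  have hcard : (univ.image (fun μ : Fin 16 => ((dot μ s : ℤ) : ZMod p))).card <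
      Fintype.card (ZMod p) := by
    rw [ZMod.card]
    calc _ ≤ (univ : Finset (Fin 16)).card := card_image_le
      _ = 16 := by simp
      _ < p := by omega
  obtain ⟨x, hx⟩ : ∃ x : ZMod p, x ∉ univ.image (fun μ : Fin 16 => ((dot μ s : ℤ) : ZMod p)) := by
    by_contra hcon
    push Not at hcon
    rw [eq_univ_iff_forall.2 hcon, card_univ] at hcard
    exact lt_irrefl _ hcard
  intro r
  refine class_empty univ p N' hp hN' hc _ _ hrel (x.val : ℤ) ?_ r
  intro μ _ hd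
  apply hx
  rw [mem_image]
  refine ⟨μ, mem_univ _, ?_⟩
  rw [← ZMod.intCast_zmod_eq_zero_iff_dvd] at hd
  push_cast at hd
  rw [sub_eq_zero] at hd
  rw [hd]
  simp

/-! ### the finite check -/

/-- residue of the monomial with index `i` for the weights `a b c | d e f` modulo `p` -/
def cl (p a b c d e f : ℕ) (i : ℕ) : ℕ :=
  match i with
  | 0 => (a + b + c) % p
  | 1 => (a + b + (p - c)) % p
  | 2 => (a + (p - b) + c) % p
  | 3 => (a + (p - b) + (p - c)) % p
  | 4 => ((p - a) + b + c) % p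
  | 5 => ((p - a) + b + (p - c)) % p
  | 6 => ((p - a) + (p - b) + c) % p
  | 7 => ((p - a) + (p - b) + (p - c)) % p
  | 8 => (d + e + f) % p
  | 9 => (d + e + (p - f)) % p
  | 10 => (d + (p - e) + f) % p
  | 11 => (d + (p - e) + (p - f)) % p
  | 12 => ((p - d) + e + f) % p
  | 13 => ((p - d) + e + (p - f)) % p
  | 14 => ((p - d) + (p - e) + f) % p
  | _ => ((p - d) + (p - e) + (p - f)) % p

/-- mask of the residues of a triple -/
def m3 (p a b c : ℕ) : ℕ :=
  Nat.lor (Nat.lor (Nat.lor (2 ^ ((a + b + c) % p)) (2 ^ ((a + b + (p - c)) % p)))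
    (Nat.lor (2 ^ ((a + (p - b) + c) % p)) (2 ^ ((a + (p - b) + (p - c)) % p))))
   (Nat.lor (Nat.lor (2 ^ (((p - a) + b + c) % p)) (2 ^ (((p - a) + b + (p - c)) % p)))
    (Nat.lor (2 ^ (((p - a) + (p - b) + c) % p)) (2 ^ (((p - a) + (p - b) + (p - c)) % p))))

/-- number of indices `i < n` with `k i = x` -/
def cnt (k : ℕ → ℕ) (x : ℕ) : ℕ → ℕ
  | 0 => 0
  | n + 1 => bif Nat.beq (k n) x then Nat.succ (cnt k x n) else cnt k x n

/-- size of the class of `i` -/
def cn (k : ℕ → ℕ) (i : ℕ) : ℕ := cnt k (k i) 16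

/-- class with at most two elements -/
def kb (k : ℕ → ℕ) (i : ℕ) : Bool := Nat.ble (cn k i) 2

/-- bounded quantifier -/
def al (n : ℕ) (f : ℕ → Bool) : Bool :=
  Nat.rec (f 0) (fun k ih => f (k + 1) && ih) n

/-- a singleton class together with its inverse -/
def sing (k : ℕ → ℕ) : Bool :=
  !(al 15 fun i => !(Nat.beq (cn k i) 1 && Nat.beq (cn k (Nat.xor i 7)) 1))

/-- three of the four monomials of a side are in small classes -/
def s3 (k : ℕ → ℕ) (o : ℕ) : Bool :=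
  (kb k o && kb k (o + 3) && kb k (o + 5)) || (kb k o && kb k (o + 3) && kb k (o + 6)) ||
  (kb k o && kb k (o + 5) && kb k (o + 6)) || (kb k (o + 3) && kb k (o + 5) && kb k (o + 6))

/-- the case with a zero class of size four in one side -/
def gb (k : ℕ → ℕ) (o o' : ℕ) : Bool :=
  s3 k o' && Nat.beq (cn k o) 2 && Nat.beq (k (o + 4)) (k o) &&
   Nat.beq (cn k (o + 1)) 4 && Nat.beq (k (o + 2)) (k (o + 1)) && Nat.beq (k (o + 5)) (k (o + 1)) &&
   Nat.beq (k (o + 6)) (k (o + 1))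

/-- a class of three monomials of the same side -/
def gc (k : ℕ → ℕ) (o o' : ℕ) : Bool :=
  s3 k o' && kb k o && Nat.beq (cn k (o + 1)) 3 && Nat.beq (k (o + 2)) (k (o + 1)) &&
   Nat.beq (k (o + 4)) (k (o + 1))

/-- a class of two monomials of one side and one of the other -/
def gd (k : ℕ → ℕ) (o o' i j l : ℕ) : Bool :=
  s3 k o' && kb k o && kb k (o + l) && Nat.beq (cn k (o + i)) 3 && Nat.beq (k (o + j)) (k (o + i)) &&
    !(al 7 fun x => !(Nat.beq (k (o' + x)) (k (o + i))))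

/-- the covering patterns are good -/
def good (k : ℕ → ℕ) : Bool :=
  sing k && ((s3 k 0 && s3 k 8) || gb k 0 8 || gb k 8 0 || gc k 0 8 || gc k 8 0 ||
   gd k 0 8 2 4 6 || gd k 0 8 1 2 3 || gd k 8 0 2 4 6 || gd k 8 0 1 2 3)

/-- some class is empty, or good -/
def eg (p a b c d e f : ℕ) : Bool :=
  !(Nat.beq (Nat.lor (m3 p a b c) (m3 p d e f)) (2 ^ p - 1)) || good (cl p a b c d e f)

/-- the check -/
def chk (p h : ℕ) : Bool :=
  al h fun a => al h fun b => !(Nat.ble a b) || al h fun c => !(Nat.ble b c) ||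
   al h fun d => al h fun e => !(Nat.ble d e) || al h fun f => !(Nat.ble e f) || eg p a b c d e f

theorem chk11 : chk 11 5 = true := by decide +kernel

theorem chk13 : chk 13 6 = true := by decide +kernel

/-! ### reading the check -/

theorem al_iff (n : ℕ) (f : ℕ → Bool) : al n f = true ↔ ∀ i, i ≤ n → f i = true := by
  induction n with
  | zero =>
    constructor
    · intro h i hi
      have : i = 0 := by omega
      rw [this]; exact h
    · intro h
      exact h 0 le_rfl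
  | succ n ih =>
    have e : al (n + 1) f = (f (n + 1) && al n f) := rfl
    rw [e, Bool.and_eq_true, ih]
    constructor
    · rintro ⟨h1, h2⟩ i hi
      rcases Nat.lt_or_ge i (n + 1) with h | h
      · exact h2 i (by omega)
      · have : i = n + 1 := by omega
        rw [this]; exact h1
    · intro h
      exact ⟨h _ le_rfl, fun i hi => h i (by omega)⟩

theorem al_not (n : ℕ) (f : ℕ → Bool) (h : (!(al n fun i => !(f i))) = true) :
    ∃ i, i ≤ n ∧ f i = true := by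
  by_contra hcon
  push Not at hcon
  have : (al n fun i => !(f i)) = true := by
    rw [al_iff]
    intro i hi
    have := hcon i hi
    simpa using this
  rw [this] at h
  simp at h

theorem chk_eg (p h : ℕ) (hc : chk p h = true) (a b c d e f : ℕ) (hc' : c ≤ h) (hf : f ≤ h)
    (hab : a ≤ b) (hbc : b ≤ c) (hde : d ≤ e) (hef : e ≤ f) : eg p a b c d e f = true := by
  have h1 := (al_iff _ _).1 hc a (by omega)
  have h2 := (al_iff _ _).1 h1 b (by omega)
  rw [Nat.ble_eq_true_of_le hab, Bool.not_true, Bool.false_or] at h2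
  have h3 := (al_iff _ _).1 h2 c (by omega)
  rw [Nat.ble_eq_true_of_le hbc, Bool.not_true, Bool.false_or] at h3
  have h4 := (al_iff _ _).1 h3 d (by omega)
  have h5 := (al_iff _ _).1 h4 e (by omega)
  rw [Nat.ble_eq_true_of_le hde, Bool.not_true, Bool.false_or] at h5
  have h6 := (al_iff _ _).1 h5 f (by omega)
  rw [Nat.ble_eq_true_of_le hef, Bool.not_true, Bool.false_or] at h6
  exact h6

theorem cnt_eq (k : ℕ → ℕ) (x n : ℕ) :
    cnt k x n = ((range n).filter (fun j => k j = x)).card := by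
  induction n with
  | zero => rfl
  | succ n ih =>
    have e : cnt k x (n + 1) = bif Nat.beq (k n) x then Nat.succ (cnt k x n) else cnt k x n := rfl
    rw [range_add_one, filter_insert, e]
    by_cases h : k n = x
    · have hb : Nat.beq (k n) x = true := by rw [Nat.beq_eq]; exact h
      rw [hb, if_pos h, card_insert_of_notMem (by simp), ← ih]
      rfl
    · have hb : Nat.beq (k n) x = false := by
        rw [Bool.eq_false_iff, Ne, Nat.beq_eq]; exact h
      rw [hb, if_neg h, ← ih]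
      rfl

/-- the class of `i` -/
def cs (k : ℕ → ℕ) (i : ℕ) : Finset ℕ := (range 16).filter (fun j => k j = k i)

theorem cn_eq (k : ℕ → ℕ) (i : ℕ) : cn k i = (cs k i).card := cnt_eq _ _ _

theorem mem_cs (k : ℕ → ℕ) (i j : ℕ) : j ∈ cs k i ↔ j < 16 ∧ k j = k i := by
  simp [cs]

/-! ### the algebra -/

/-- the relations between the monomials of one side -/
def Side (z : ℕ → ℂ) (o : ℕ) : Prop :=
  z o * z (o + 7) = 1 ∧ z (o + 1) * z (o + 6) = 1 ∧ z (o + 2) * z (o + 5) = 1 ∧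
    z (o + 3) * z (o + 4) = 1 ∧ z o * z (o + 3) * z (o + 5) * z (o + 6) = 1

/-- sign of the index -/
noncomputable def t2ee (j : ℕ) : ℂ := if j < 8 then 1 else -1

theorem ee_sq (j : ℕ) : t2ee j ^ 2 = 1 := by
  unfold t2ee; split_ifs <;> norm_num

theorem norm_ee (j : ℕ) : ‖t2ee j‖ = 1 := by
  unfold t2ee; split_ifs <;> simp

theorem pow6_of_three (a b c : ℂ) (ha : ‖a‖ = 1) (hb : ‖b‖ = 1) (hc : ‖c‖ = 1) (hc6 : c ^ 6 = 1)
    (h : a + b = c) : a ^ 6 = 1 := by
  have hc' : ‖-c‖ = 1 := by rw [norm_neg, hc]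
  obtain ⟨ω, hω, h1, h2⟩ := three_unit a b (-c) ha hb hc' (by rw [h]; ring)
  have hω3 : ω ^ 3 = 1 := by linear_combination (ω - 1) * hω
  have h3 : (-c) ^ 6 = (ω ^ 3) ^ 4 * a ^ 6 := by rw [h2]; ring
  rw [hω3, one_pow, one_mul] at h3
  rw [← h3]
  have : (-c) ^ 6 = c ^ 6 := by ring
  rw [this, hc6]

theorem norm_of_sq {c : ℂ} (h : c ^ 2 = 1) : ‖c‖ = 1 := by
  have h1 : ‖c‖ ^ 2 = 1 := by rw [← norm_pow, h, norm_one]
  nlinarith [norm_nonneg c]

theorem pow6_of_sq {c : ℂ} (h : c ^ 2 = 1) : c ^ 6 = 1 := by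
  have : c ^ 6 = (c ^ 2) ^ 3 := by ring
  rw [this, h, one_pow]

theorem pow12_of_six {c : ℂ} (h : c ^ 6 = 1) : c ^ 12 = 1 := by
  have : c ^ 12 = (c ^ 6) ^ 2 := by ring
  rw [this, h, one_pow]

variable {k : ℕ → ℕ} {z : ℕ → ℂ} {C : ℂ}

theorem small (hn : ∀ j, ‖z j‖ = 1)
    (hC : ∀ i, i < 16 → ∑ j ∈ cs k i, t2ee j * z j = C) (hC2 : C ^ 2 = 1)
    (i : ℕ) (hi : i < 16) (h : kb k i = true) : z i ^ 6 = 1 := by
  have h1 : cn k i ≤ 2 := Nat.le_of_ble_eq_true h
  rw [cn_eq] at h1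
  have hmem : i ∈ cs k i := (mem_cs _ _ _).2 ⟨hi, rfl⟩
  have h6 : (t2ee i * z i) ^ 6 = z i ^ 6 := by
    have : (t2ee i * z i) ^ 6 = (t2ee i ^ 2) ^ 3 * z i ^ 6 := by ring
    rw [this, ee_sq, one_pow, one_mul]
  have hpos : 0 < (cs k i).card := card_pos.2 ⟨i, hmem⟩
  rw [← h6]
  rcases (show (cs k i).card = 1 ∨ (cs k i).card = 2 by omega) with h2 | h2
  · obtain ⟨x, hx⟩ := card_eq_one.1 h2
    have hxi : i = x := by rw [hx] at hmem; simpa using hmem
    have h3 := hC i hi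
    rw [hx, sum_singleton, ← hxi] at h3
    rw [h3]
    have : C ^ 6 = (C ^ 2) ^ 3 := by ring
    rw [this, hC2, one_pow]
  · obtain ⟨x, hx, hx1⟩ := (Finset.exists_mem_ne (by omega) i : ∃ b ∈ cs k i, b ≠ i)
    have hset : cs k i = {i, x} := by
      symm
      apply eq_of_subset_of_card_le
      · intro y hy
        rw [mem_insert, mem_singleton] at hy
        rcases hy with rfl | rfl
        · exact hmem
        · exact hx
      · rw [card_pair hx1.symm, h2]
    have h3 := hC i hi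
    rw [hset, sum_pair hx1.symm] at h3
    refine pow6_of_three _ _ _ ?_ ?_ (norm_of_sq hC2) (pow6_of_sq hC2) h3
    · rw [norm_mul, norm_ee, hn, one_mul]
    · rw [norm_mul, norm_ee, hn, one_mul]

theorem side_closure (o : ℕ) (hz : Side z o) (n : ℕ)
    (h : (z o ^ n = 1 ∧ z (o + 3) ^ n = 1 ∧ z (o + 5) ^ n = 1) ∨
      (z o ^ n = 1 ∧ z (o + 3) ^ n = 1 ∧ z (o + 6) ^ n = 1) ∨
      (z o ^ n = 1 ∧ z (o + 5) ^ n = 1 ∧ z (o + 6) ^ n = 1) ∨
      (z (o + 3) ^ n = 1 ∧ z (o + 5) ^ n = 1 ∧ z (o + 6) ^ n = 1)) :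
    ∀ i, i < 8 → z (o + i) ^ n = 1 := by
  obtain ⟨h1, h2, h3, h4, h5⟩ := hz
  have g1 : z o ^ n * z (o + 7) ^ n = 1 := by rw [← mul_pow, h1, one_pow]
  have g2 : z (o + 1) ^ n * z (o + 6) ^ n = 1 := by rw [← mul_pow, h2, one_pow]
  have g3 : z (o + 2) ^ n * z (o + 5) ^ n = 1 := by rw [← mul_pow, h3, one_pow]
  have g4 : z (o + 3) ^ n * z (o + 4) ^ n = 1 := by rw [← mul_pow, h4, one_pow]
  have g5 : z o ^ n * z (o + 3) ^ n * z (o + 5) ^ n * z (o + 6) ^ n = 1 := by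
    rw [← mul_pow, ← mul_pow, ← mul_pow, h5, one_pow]
  have key : z o ^ n = 1 ∧ z (o + 3) ^ n = 1 ∧ z (o + 5) ^ n = 1 ∧ z (o + 6) ^ n = 1 := by
    rcases h with ⟨a, b, c⟩ | ⟨a, b, c⟩ | ⟨a, b, c⟩ | ⟨a, b, c⟩ <;>
      rw [a, b, c] at g5 <;> simp only [one_mul, mul_one] at g5
    · exact ⟨a, b, c, g5⟩
    · exact ⟨a, b, g5, c⟩
    · exact ⟨a, g5, b, c⟩
    · exact ⟨g5, a, b, c⟩
  obtain ⟨k0, k3, k5, k6⟩ := key
  rw [k0, one_mul] at g1
  rw [k6, mul_one] at g2
  rw [k5, mul_one] at g3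
  rw [k3, one_mul] at g4
  intro i hi
  interval_cases i
  · exact k0
  · exact g2
  · exact g3
  · exact k3
  · exact g4
  · exact k5
  · exact k6
  · exact g1

theorem s3_side (hn : ∀ j, ‖z j‖ = 1)
    (hC : ∀ i, i < 16 → ∑ j ∈ cs k i, t2ee j * z j = C) (hC2 : C ^ 2 = 1)
    (o : ℕ) (ho : o = 0 ∨ o = 8) (hz : Side z o) (h : s3 k o = true) :
    ∀ i, i < 8 → z (o + i) ^ 12 = 1 := by
  intro i hi
  refine pow12_of_six ?_
  refine side_closure o hz 6 ?_ i hi
  have g0 : kb k o = true → z o ^ 6 = 1 := small hn hC hC2 o (by omega)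
  have g3 : kb k (o + 3) = true → z (o + 3) ^ 6 = 1 := small hn hC hC2 _ (by omega)
  have g5 : kb k (o + 5) = true → z (o + 5) ^ 6 = 1 := small hn hC hC2 _ (by omega)
  have g6 : kb k (o + 6) = true → z (o + 6) ^ 6 = 1 := small hn hC hC2 _ (by omega)
  unfold s3 at h
  simp only [Bool.or_eq_true, Bool.and_eq_true] at h
  tauto

theorem side_rel (o : ℕ) (hz : Side z o) : z (o + 1) * z (o + 2) * z (o + 4) = z o := by
  obtain ⟨h1, h2, h3, h4, h5⟩ := hz
  have e : z o = z o * (z (o + 1) * z (o + 6)) * (z (o + 2) * z (o + 5)) * (z (o + 3) * z (o + 4)) := by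
    rw [h2, h3, h4]; ring
  calc z (o + 1) * z (o + 2) * z (o + 4)
      = (z (o + 1) * z (o + 2) * z (o + 4)) * (z o * z (o + 3) * z (o + 5) * z (o + 6)) := by
        rw [h5, mul_one]
    _ = z o * (z (o + 1) * z (o + 6)) * (z (o + 2) * z (o + 5)) * (z (o + 3) * z (o + 4)) := by ring
    _ = z o := e.symm

theorem gb_side (hn : ∀ j, ‖z j‖ = 1)
    (hC : ∀ i, i < 16 → ∑ j ∈ cs k i, t2ee j * z j = C) (hC2 : C ^ 2 = 1)
    (o o' : ℕ) (ho : o = 0 ∨ o = 8) (hz : Side z o) (h : gb k o o' = true) :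
    ∀ i, i < 8 → z (o + i) ^ 12 = 1 := by
  unfold gb at h
  simp only [Bool.and_eq_true, Nat.beq_eq] at h
  obtain ⟨⟨⟨⟨⟨⟨_, c0⟩, k4⟩, c1⟩, k2⟩, k5⟩, k6⟩ := h
  have z06 : z o ^ 6 = 1 := small hn hC hC2 o (by omega) (by
    unfold kb; rw [c0]; rfl)
  rw [cn_eq] at c0 c1
  have hs0 : cs k o = {o, o + 4} := by
    symm
    apply eq_of_subset_of_card_le
    · intro y hy
      simp only [mem_insert, mem_singleton] at hy
      rcases hy with rfl | rfl
      · exact (mem_cs _ _ _).2 ⟨by omega, rfl⟩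
      · exact (mem_cs _ _ _).2 ⟨by omega, k4⟩
    · rw [c0, card_pair (by omega)]
  have hs1 : cs k (o + 1) = {o + 1, o + 2, o + 5, o + 6} := by
    symm
    apply eq_of_subset_of_card_le
    · intro y hy
      simp only [mem_insert, mem_singleton] at hy
      rcases hy with rfl | rfl | rfl | rfl
      · exact (mem_cs _ _ _).2 ⟨by omega, rfl⟩
      · exact (mem_cs _ _ _).2 ⟨by omega, k2⟩
      · exact (mem_cs _ _ _).2 ⟨by omega, k5⟩
      · exact (mem_cs _ _ _).2 ⟨by omega, k6⟩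
    · rw [c1, card_insert_of_notMem (by simp), card_insert_of_notMem (by simp),
        card_pair (by omega)]
  have e0 := hC o (by omega)
  have e1 := hC (o + 1) (by omega)
  rw [hs0, sum_pair (by omega)] at e0
  rw [hs1, sum_insert (by simp), sum_insert (by simp), sum_pair (by omega)] at e1
  have ee4 : t2ee (o + 4) = t2ee o := by rcases ho with rfl | rfl <;> simp [t2ee]
  have ee1 : t2ee (o + 1) = t2ee o := by rcases ho with rfl | rfl <;> simp [t2ee]
  have ee2 : t2ee (o + 2) = t2ee o := by rcases ho with rfl | rfl <;> simp [t2ee]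
  have ee5 : t2ee (o + 5) = t2ee o := by rcases ho with rfl | rfl <;> simp [t2ee]
  have ee6 : t2ee (o + 6) = t2ee o := by rcases ho with rfl | rfl <;> simp [t2ee]
  rw [ee4] at e0
  rw [ee1, ee2, ee5, ee6] at e1
  have hrel := side_rel o hz
  obtain ⟨h1, h2, h3, h4, h5⟩ := hz
  have hee := ee_sq o
  have hC0 : C ≠ 0 := by
    intro h0; rw [h0] at hC2; norm_num at hC2
  have hsum : z (o + 1) + z (o + 2) = z o := by
    have hm : (z (o + 1) + z (o + 2)) * C = z o * C := by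
      rw [← e0]
      rw [← e0] at e1
      have a1 : z (o + 1) * z (o + 4) = z o * z (o + 5) := by
        linear_combination z (o + 5) * hrel - z (o + 1) * z (o + 4) * h3
      have a2 : z (o + 2) * z (o + 4) = z o * z (o + 6) := by
        linear_combination z (o + 6) * hrel - z (o + 2) * z (o + 4) * h2
      linear_combination t2ee o * a1 + t2ee o * a2 + z o * e1
    exact mul_right_cancel₀ hC0 hm
  have z16 : z (o + 1) ^ 6 = 1 := pow6_of_three _ _ _ (hn _) (hn _) (hn _) z06 hsum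
  have z26 : z (o + 2) ^ 6 = 1 :=
    pow6_of_three (z (o + 2)) (z (o + 1)) (z o) (hn _) (hn _) (hn _) z06
      (by linear_combination hsum)
  intro i hi
  refine pow12_of_six ?_
  refine side_closure o ⟨h1, h2, h3, h4, h5⟩ 6 (Or.inr (Or.inr (Or.inl ⟨z06, ?_, ?_⟩))) i hi
  · have g3 : z (o + 2) ^ 6 * z (o + 5) ^ 6 = 1 := by rw [← mul_pow, h3, one_pow]
    rwa [z26, one_mul] at g3
  · have g2 : z (o + 1) ^ 6 * z (o + 6) ^ 6 = 1 := by rw [← mul_pow, h2, one_pow]
    rwa [z16, one_mul] at g2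

theorem closure_124 (o : ℕ) (hz : Side z o) (h0 : z o ^ 12 = 1) (h1 : z (o + 1) ^ 12 = 1)
    (h2 : z (o + 2) ^ 12 = 1) : ∀ i, i < 8 → z (o + i) ^ 12 = 1 := by
  have hz' := hz
  obtain ⟨-, g2, g3, -, -⟩ := hz
  refine side_closure o hz' 12 (Or.inr (Or.inr (Or.inl ⟨h0, ?_, ?_⟩)))
  · have g3 : z (o + 2) ^ 12 * z (o + 5) ^ 12 = 1 := by rw [← mul_pow, g3, one_pow]
    rwa [h2, one_mul] at g3
  · have g2 : z (o + 1) ^ 12 * z (o + 6) ^ 12 = 1 := by rw [← mul_pow, g2, one_pow]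
    rwa [h1, one_mul] at g2

/-- `a b c = w` with `a = - b`, `c² = 1`, `w⁶ = 1` -/
theorem opp_aux {a b c w : ℂ} (h : a * b * c = w) (hab : a + b = 0) (hc : c ^ 2 = 1)
    (hw : w ^ 6 = 1) : a ^ 12 = 1 ∧ b ^ 12 = 1 := by
  have hb : b = -a := by linear_combination hab
  rw [hb] at h ⊢
  have h1 : a ^ 12 = w ^ 6 := by
    rw [← h]
    have : (a * -a * c) ^ 6 = a ^ 12 * (c ^ 2) ^ 3 := by ring
    rw [this, hc]; ring
  rw [hw] at h1
  refine ⟨h1, ?_⟩
  rw [← h1]; ring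

theorem gc_side (hn : ∀ j, ‖z j‖ = 1)
    (hC : ∀ i, i < 16 → ∑ j ∈ cs k i, t2ee j * z j = C) (hC2 : C ^ 2 = 1)
    (o o' : ℕ) (ho : o = 0 ∨ o = 8) (hz : Side z o) (h : gc k o o' = true) :
    ∀ i, i < 8 → z (o + i) ^ 12 = 1 := by
  unfold gc at h
  simp only [Bool.and_eq_true, Nat.beq_eq] at h
  obtain ⟨⟨⟨⟨_, kb0⟩, c1⟩, k2⟩, k4⟩ := h
  have z06 : z o ^ 6 = 1 := small hn hC hC2 o (by omega) kb0
  rw [cn_eq] at c1
  have hs1 : cs k (o + 1) = {o + 1, o + 2, o + 4} := by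
    symm
    apply eq_of_subset_of_card_le
    · intro y hy
      simp only [mem_insert, mem_singleton] at hy
      rcases hy with rfl | rfl | rfl
      · exact (mem_cs _ _ _).2 ⟨by omega, rfl⟩
      · exact (mem_cs _ _ _).2 ⟨by omega, k2⟩
      · exact (mem_cs _ _ _).2 ⟨by omega, k4⟩
    · rw [c1, card_insert_of_notMem (by simp), card_pair (by omega)]
  have e1 := hC (o + 1) (by omega)
  rw [hs1, sum_insert (by simp), sum_pair (by omega)] at e1
  have ee4 : t2ee (o + 4) = t2ee o := by rcases ho with rfl | rfl <;> simp [t2ee]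
  have ee1 : t2ee (o + 1) = t2ee o := by rcases ho with rfl | rfl <;> simp [t2ee]
  have ee2 : t2ee (o + 2) = t2ee o := by rcases ho with rfl | rfl <;> simp [t2ee]
  rw [ee1, ee2, ee4] at e1
  have hrel := side_rel o hz
  have hee := ee_sq o
  set c' := t2ee o * C with hc'
  have hc2 : c' ^ 2 = 1 := by rw [hc', mul_pow, hee, hC2, one_mul]
  have e2 : z (o + 1) + z (o + 2) + z (o + 4) + -c' = 0 := by
    rw [hc', ← e1]
    linear_combination (-(z (o + 1) + z (o + 2) + z (o + 4))) * hee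
  have hnc : ‖-c'‖ = 1 := by rw [norm_neg]; exact norm_of_sq hc2
  have h12 : z o ^ 12 = 1 := pow12_of_six z06
  rcases four_unit _ _ _ _ (hn (o + 1)) (hn (o + 2)) (hn (o + 4)) hnc e2 with ⟨a, b⟩ | ⟨a, b⟩ | ⟨a, b⟩
  · have e4 : z (o + 4) = c' := by linear_combination b
    rw [e4] at hrel
    obtain ⟨x, y⟩ := opp_aux hrel a hc2 z06
    exact closure_124 o hz h12 x y
  · have e4 : z (o + 2) = c' := by linear_combination b
    have hrel' : z (o + 1) * z (o + 4) * c' = z o := by rw [← hrel, e4]; ring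
    obtain ⟨x, y⟩ := opp_aux hrel' a hc2 z06
    refine closure_124 o hz h12 x ?_
    rw [e4]; exact pow12_of_six (pow6_of_sq hc2)
  · have e4 : z (o + 1) = c' := by linear_combination a
    have hrel' : z (o + 2) * z (o + 4) * c' = z o := by rw [← hrel, e4]; ring
    obtain ⟨x, y⟩ := opp_aux hrel' b hc2 z06
    refine closure_124 o hz h12 ?_ x
    rw [e4]; exact pow12_of_six (pow6_of_sq hc2)

theorem gd_side (hn : ∀ j, ‖z j‖ = 1)
    (hC : ∀ i, i < 16 → ∑ j ∈ cs k i, t2ee j * z j = C) (hC2 : C ^ 2 = 1)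
    (o o' : ℕ) (ho : (o = 0 ∧ o' = 8) ∨ (o = 8 ∧ o' = 0)) (i j l : ℕ)
    (hij : i < 8 ∧ j < 8 ∧ l < 8 ∧ i < j)
    (hrel : z (o + i) * z (o + j) = z o * z (o + l)) (h : gd k o o' i j l = true) :
    z o ^ 12 = 1 ∧ z (o + l) ^ 12 = 1 ∧ z (o + i) ^ 12 = 1 ∧ z (o + j) ^ 12 = 1 := by
  unfold gd at h
  simp only [Bool.and_eq_true, Nat.beq_eq] at h
  obtain ⟨⟨⟨⟨⟨_, kb0⟩, kbl⟩, c1⟩, kj⟩, hx⟩ := h
  obtain ⟨x, hx7, hx⟩ := al_not _ _ hx
  rw [Nat.beq_eq] at hx
  have z06 : z o ^ 6 = 1 := small hn hC hC2 o (by omega) kb0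
  have zl6 : z (o + l) ^ 6 = 1 := small hn hC hC2 _ (by omega) kbl
  rw [cn_eq] at c1
  have n1 : o + i ≠ o + j := by omega
  have n2 : o + i ≠ o' + x := by omega
  have n3 : o + j ≠ o' + x := by omega
  have hs1 : cs k (o + i) = {o + i, o + j, o' + x} := by
    symm
    apply eq_of_subset_of_card_le
    · intro y hy
      simp only [mem_insert, mem_singleton] at hy
      rcases hy with rfl | rfl | rfl
      · exact (mem_cs _ _ _).2 ⟨by omega, rfl⟩
      · exact (mem_cs _ _ _).2 ⟨by omega, kj⟩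
      · exact (mem_cs _ _ _).2 ⟨by omega, hx⟩
    · rw [c1, card_insert_of_notMem (by simp only [mem_insert, mem_singleton]; tauto), card_pair n3]
  have e1 := hC (o + i) (by omega)
  rw [hs1, sum_insert (by simp only [mem_insert, mem_singleton]; tauto), sum_pair n3] at e1
  have hnc : ‖-C‖ = 1 := by rw [norm_neg]; exact norm_of_sq hC2
  have e2 : t2ee (o + i) * z (o + i) + t2ee (o + j) * z (o + j) + t2ee (o' + x) * z (o' + x) + -C = 0 := by
    rw [← e1]; ring
  have hnn : ∀ y, ‖t2ee y * z y‖ = 1 := fun y => by rw [norm_mul, norm_ee, hn, one_mul]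
  have eij : t2ee (o + j) = t2ee (o + i) := by
    rcases ho with ⟨rfl, rfl⟩ | ⟨rfl, rfl⟩ <;> unfold t2ee
    · rw [if_pos (by omega), if_pos (by omega)]
    · rw [if_neg (by omega), if_neg (by omega)]
  have hei := ee_sq (o + i)
  have hej := ee_sq (o + j)
  have hw : (z o * z (o + l)) ^ 6 = 1 := by rw [mul_pow, z06, zl6, one_mul]
  refine ⟨pow12_of_six z06, pow12_of_six zl6, ?_⟩
  rcases four_unit _ _ _ _ (hnn (o + i)) (hnn (o + j)) (hnn (o' + x)) hnc e2 with
    ⟨a, b⟩ | ⟨a, b⟩ | ⟨a, b⟩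
  · have hab : z (o + i) + z (o + j) = 0 := by
      rw [eij] at a
      linear_combination t2ee (o + i) * a - (z (o + i) + z (o + j)) * hei
    have hrel' : z (o + i) * z (o + j) * 1 = z o * z (o + l) := by rw [mul_one, hrel]
    exact opp_aux hrel' hab (by norm_num) hw
  · have hz2 : z (o + j) ^ 2 = 1 := by
      have : (t2ee (o + j) * z (o + j)) = C := by linear_combination b
      have h2 : (t2ee (o + j) * z (o + j)) ^ 2 = 1 := by rw [this, hC2]
      rwa [mul_pow, hej, one_mul] at h2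
    have hj6 := pow6_of_sq hz2
    have hi6 : z (o + i) ^ 6 = 1 := by
      rw [← hrel, mul_pow, hj6, mul_one] at hw
      exact hw
    exact ⟨pow12_of_six hi6, pow12_of_six hj6⟩
  · have hz2 : z (o + i) ^ 2 = 1 := by
      have : (t2ee (o + i) * z (o + i)) = C := by linear_combination a
      have h2 : (t2ee (o + i) * z (o + i)) ^ 2 = 1 := by rw [this, hC2]
      rwa [mul_pow, hei, one_mul] at h2
    have hi6 := pow6_of_sq hz2
    have hj6 : z (o + j) ^ 6 = 1 := by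
      rw [← hrel, mul_pow, hi6, one_mul] at hw
      exact hw
    exact ⟨pow12_of_six hi6, pow12_of_six hj6⟩

theorem gd246_side (hn : ∀ j, ‖z j‖ = 1)
    (hC : ∀ i, i < 16 → ∑ j ∈ cs k i, t2ee j * z j = C) (hC2 : C ^ 2 = 1)
    (o o' : ℕ) (ho : (o = 0 ∧ o' = 8) ∨ (o = 8 ∧ o' = 0)) (hz : Side z o)
    (h : gd k o o' 2 4 6 = true) : ∀ i, i < 8 → z (o + i) ^ 12 = 1 := by
  have hr := side_rel o hz
  have hz' := hz
  obtain ⟨h1, h2, h3, h4, h5⟩ := hz
  have hrel : z (o + 2) * z (o + 4) = z o * z (o + 6) := by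
    linear_combination z (o + 6) * hr - z (o + 2) * z (o + 4) * h2
  obtain ⟨a, b, c, d⟩ := gd_side hn hC hC2 o o' ho 2 4 6 (by omega) hrel h
  refine side_closure o hz' 12 (Or.inr (Or.inl ⟨a, ?_, b⟩))
  have g : z (o + 3) ^ 12 * z (o + 4) ^ 12 = 1 := by rw [← mul_pow, h4, one_pow]
  rwa [d, mul_one] at g

theorem gd123_side (hn : ∀ j, ‖z j‖ = 1)
    (hC : ∀ i, i < 16 → ∑ j ∈ cs k i, t2ee j * z j = C) (hC2 : C ^ 2 = 1)
    (o o' : ℕ) (ho : (o = 0 ∧ o' = 8) ∨ (o = 8 ∧ o' = 0)) (hz : Side z o)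
    (h : gd k o o' 1 2 3 = true) : ∀ i, i < 8 → z (o + i) ^ 12 = 1 := by
  have hr := side_rel o hz
  have hz' := hz
  obtain ⟨h1, h2, h3, h4, h5⟩ := hz
  have hrel : z (o + 1) * z (o + 2) = z o * z (o + 3) := by
    linear_combination z (o + 3) * hr - z (o + 1) * z (o + 2) * h4
  obtain ⟨a, b, c, d⟩ := gd_side hn hC hC2 o o' ho 1 2 3 (by omega) hrel h
  exact closure_124 o hz' a c d

theorem sing_sq (hz0 : Side z 0) (hz8 : Side z 8)
    (hC : ∀ i, i < 16 → ∑ j ∈ cs k i, t2ee j * z j = C) (h : sing k = true) : C ^ 2 = 1 := by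
  obtain ⟨i, hi, h⟩ := al_not _ _ h
  simp only [Bool.and_eq_true, Nat.beq_eq] at h
  obtain ⟨c1, c2⟩ := h
  rw [cn_eq] at c1 c2
  have hone : ∀ x, x < 16 → (cs k x).card = 1 → t2ee x * z x = C := by
    intro x hx hc
    obtain ⟨y, hy⟩ := card_eq_one.1 hc
    have hm : x ∈ cs k x := (mem_cs _ _ _).2 ⟨hx, rfl⟩
    have hxy : x = y := by rw [hy] at hm; simpa using hm
    have h3 := hC x hx
    rw [hy, sum_singleton, ← hxy] at h3
    exact h3
  have g1 := hone i (by omega) c1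
  have key : Nat.xor i 7 < 16 ∧ t2ee (Nat.xor i 7) = t2ee i ∧ z i * z (Nat.xor i 7) = 1 := by
    obtain ⟨h1, h2, h3, h4, h5⟩ := hz0
    obtain ⟨h1', h2', h3', h4', h5'⟩ := hz8
    have hi' : i < 16 := by omega
    have sw : ∀ {x y : ℂ}, x * y = 1 → y * x = 1 := fun h => by rw [mul_comm]; exact h
    interval_cases i
    · exact ⟨by decide, by simp [t2ee], h1⟩
    · exact ⟨by decide, by simp [t2ee], h2⟩
    · exact ⟨by decide, by simp [t2ee], h3⟩
    · exact ⟨by decide, by simp [t2ee], h4⟩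
    · exact ⟨by decide, by simp [t2ee], sw h4⟩
    · exact ⟨by decide, by simp [t2ee], sw h3⟩
    · exact ⟨by decide, by simp [t2ee], sw h2⟩
    · exact ⟨by decide, by simp [t2ee], sw h1⟩
    · exact ⟨by decide, by simp [t2ee], h1'⟩
    · exact ⟨by decide, by simp [t2ee], h2'⟩
    · exact ⟨by decide, by simp [t2ee], h3'⟩
    · exact ⟨by decide, by simp [t2ee], h4'⟩
    · exact ⟨by decide, by simp [t2ee], sw h4'⟩
    · exact ⟨by decide, by simp [t2ee], sw h3'⟩
    · exact ⟨by decide, by simp [t2ee], sw h2'⟩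
    · exact ⟨by decide, by simp [t2ee], sw h1'⟩
  obtain ⟨k1, k2, k3⟩ := key
  have g2 := hone _ k1 c2
  rw [k2] at g2
  have hee := ee_sq i
  have : C ^ 2 = (t2ee i * z i) * (t2ee i * z (Nat.xor i 7)) := by rw [g1, g2]; ring
  rw [this]
  linear_combination t2ee i ^ 2 * k3 + hee

theorem core (hn : ∀ j, ‖z j‖ = 1) (hz0 : Side z 0) (hz8 : Side z 8)
    (hC : ∀ i, i < 16 → ∑ j ∈ cs k i, t2ee j * z j = C) (h : good k = true) :
    ∀ i, i < 16 → z i ^ 12 = 1 := by
  unfold good at h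
  rw [Bool.and_eq_true] at h
  obtain ⟨hs, h⟩ := h
  have hC2 := sing_sq hz0 hz8 hC hs
  have fin : (∀ i, i < 8 → z (0 + i) ^ 12 = 1) → (∀ i, i < 8 → z (8 + i) ^ 12 = 1) →
      ∀ i, i < 16 → z i ^ 12 = 1 := by
    intro a b i hi
    rcases Nat.lt_or_ge i 8 with h | h
    · have := a i h
      rwa [zero_add] at this
    · have := b (i - 8) (by omega)
      rwa [Nat.add_sub_cancel' h] at this
  have a0 : s3 k 0 = true → ∀ i, i < 8 → z (0 + i) ^ 12 = 1 :=
    s3_side hn hC hC2 0 (Or.inl rfl) hz0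
  have a8 : s3 k 8 = true → ∀ i, i < 8 → z (8 + i) ^ 12 = 1 :=
    s3_side hn hC hC2 8 (Or.inr rfl) hz8
  have gbs : ∀ o o', gb k o o' = true → s3 k o' = true := by
    intro o o' h
    unfold gb at h
    simp only [Bool.and_eq_true] at h
    tauto
  have gcs : ∀ o o', gc k o o' = true → s3 k o' = true := by
    intro o o' h
    unfold gc at h
    simp only [Bool.and_eq_true] at h
    tauto
  have gds : ∀ o o' i j l, gd k o o' i j l = true → s3 k o' = true := by
    intro o o' i j l h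
    unfold gd at h
    simp only [Bool.and_eq_true] at h
    tauto
  simp only [Bool.or_eq_true, Bool.and_eq_true] at h
  rcases h with ((((((((h | h) | h) | h) | h) | h) | h) | h) | h)
  · exact fin (a0 h.1) (a8 h.2)
  · exact fin (gb_side hn hC hC2 0 8 (Or.inl rfl) hz0 h) (a8 (gbs _ _ h))
  · exact fin (a0 (gbs _ _ h)) (gb_side hn hC hC2 8 0 (Or.inr rfl) hz8 h)
  · exact fin (gc_side hn hC hC2 0 8 (Or.inl rfl) hz0 h) (a8 (gcs _ _ h))
  · exact fin (a0 (gcs _ _ h)) (gc_side hn hC hC2 8 0 (Or.inr rfl) hz8 h)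
  · exact fin (gd246_side hn hC hC2 0 8 (Or.inl ⟨rfl, rfl⟩) hz0 h) (a8 (gds _ _ _ _ _ h))
  · exact fin (gd123_side hn hC hC2 0 8 (Or.inl ⟨rfl, rfl⟩) hz0 h) (a8 (gds _ _ _ _ _ h))
  · exact fin (a0 (gds _ _ _ _ _ h)) (gd246_side hn hC hC2 8 0 (Or.inr ⟨rfl, rfl⟩) hz8 h)
  · exact fin (a0 (gds _ _ _ _ _ h)) (gd123_side hn hC hC2 8 0 (Or.inr ⟨rfl, rfl⟩) hz8 h)

/-! ### the theorem for 11 and 13 -/

theorem tb_lor (x y i : ℕ) : (Nat.lor x y).testBit i = (x.testBit i || y.testBit i) :=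
  Nat.testBit_or x y i

theorem tb_pow (x i : ℕ) : (2 ^ x).testBit i = decide (x = i) := Nat.testBit_two_pow

theorem cl_lt (p a b c d e f i : ℕ) (hp : 0 < p) : cl p a b c d e f i < p := by
  unfold cl
  split <;> exact Nat.mod_lt _ hp

theorem exists_empty (p a b c d e f : ℕ) (hp : 0 < p)
    (h : Nat.lor (m3 p a b c) (m3 p d e f) ≠ 2 ^ p - 1) :
    ∃ r, r < p ∧ ∀ j, j < 16 → cl p a b c d e f j ≠ r := by
  by_contra hcon
  push Not at hcon
  apply h
  apply Nat.eq_of_testBit_eq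
  intro i
  rw [Nat.testBit_two_pow_sub_one]
  by_cases hi : i < p
  · obtain ⟨j, hj, hji⟩ := hcon i hi
    rw [decide_eq_true hi]
    unfold m3
    simp only [tb_lor, tb_pow, Bool.or_eq_true, decide_eq_true_eq]
    interval_cases j <;> simp only [cl] at hji <;> tauto
  · rw [decide_eq_false hi]
    have hne : ∀ X : ℕ, (2 ^ (X % p)).testBit i = false := by
      intro X
      rw [tb_pow]
      apply decide_eq_false
      have := Nat.mod_lt X hp
      omega
    unfold m3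
    simp only [tb_lor, hne, Bool.or_false]

theorem dot_cl (p a b c d e f : ℕ) (s : Fin 6 → ℤ) (ha : a ≤ p) (hb : b ≤ p) (hc : c ≤ p)
    (hd : d ≤ p) (he : e ≤ p) (hf : f ≤ p)
    (h0 : ((s 0 : ℤ) : ZMod p) = (a : ZMod p)) (h1 : ((s 1 : ℤ) : ZMod p) = (b : ZMod p))
    (h2 : ((s 2 : ℤ) : ZMod p) = (c : ZMod p)) (h3 : ((s 3 : ℤ) : ZMod p) = (d : ZMod p))
    (h4 : ((s 4 : ℤ) : ZMod p) = (e : ZMod p)) (h5 : ((s 5 : ℤ) : ZMod p) = (f : ZMod p))
    (μ : Fin 16) : ((dot μ s : ℤ) : ZMod p) = ((cl p a b c d e f μ.val : ℕ) : ZMod p) := by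
  fin_cases μ <;>
    simp [cl, dot, h0, h1, h2, h3, h4, h5, Nat.cast_sub ha, Nat.cast_sub hb, Nat.cast_sub hc,
      Nat.cast_sub hd, Nat.cast_sub he, Nat.cast_sub hf, sub_eq_add_neg]

theorem t2_norm (p N' : ℕ) (hp : p.Prime) (hchk : chk p (p / 2) = true) (hN' : 0 < N')
    (hc : ¬ p ∣ N') (s : Fin 6 → ℤ) (hrel : Rel (p * N') s)
    (hb : ∀ i, 2 * (s i % p) ≤ p) (h01 : s 0 % p ≤ s 1 % p) (h12 : s 1 % p ≤ s 2 % p)
    (h34 : s 3 % p ≤ s 4 % p) (h45 : s 4 % p ≤ s 5 % p) :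
    Graded (p * N') p s ∨ ∀ i, (N' : ℤ) ∣ 24 * s i := by
  have hp0 : 0 < p := hp.pos
  have : NeZero p := ⟨hp0.ne'⟩
  have hpz : (0 : ℤ) < p := by exact_mod_cast hp0
  have hw : ∀ i, ∃ w : ℕ, (w : ℤ) = s i % p ∧ 2 * w ≤ p ∧ ((s i : ℤ) : ZMod p) = (w : ZMod p) := by
    intro i
    have h0 : 0 ≤ s i % p := Int.emod_nonneg _ hpz.ne'
    obtain ⟨w, hw⟩ := Int.eq_ofNat_of_zero_le h0
    refine ⟨w, hw.symm, ?_, ?_⟩
    · have := hb i
      rw [hw] at this
      exact_mod_cast this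
    · have h1 : ((s i % p : ℤ) : ZMod p) = ((s i : ℤ) : ZMod p) := by
        rw [ZMod.intCast_mod]
      rw [← h1, hw]
      simp
  choose w hw1 hw2 hw3 using hw
  have l01 : w 0 ≤ w 1 := by have := h01; rw [← hw1, ← hw1] at this; exact_mod_cast this
  have l12 : w 1 ≤ w 2 := by have := h12; rw [← hw1, ← hw1] at this; exact_mod_cast this
  have l34 : w 3 ≤ w 4 := by have := h34; rw [← hw1, ← hw1] at this; exact_mod_cast this
  have l45 : w 4 ≤ w 5 := by have := h45; rw [← hw1, ← hw1] at this; exact_mod_cast this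
  have heg := chk_eg p (p / 2) hchk (w 0) (w 1) (w 2) (w 3) (w 4) (w 5)
    (by have := hw2 2; omega) (by have := hw2 5; omega) l01 l12 l34 l45
  set k := cl p (w 0) (w 1) (w 2) (w 3) (w 4) (w 5) with hk
  have hdot : ∀ μ : Fin 16, ((dot μ s : ℤ) : ZMod p) = ((k μ.val : ℕ) : ZMod p) :=
    dot_cl p _ _ _ _ _ _ s (by have := hw2 0; omega) (by have := hw2 1; omega)
      (by have := hw2 2; omega) (by have := hw2 3; omega) (by have := hw2 4; omega)
      (by have := hw2 5; omega) (hw3 0) (hw3 1) (hw3 2) (hw3 3) (hw3 4) (hw3 5)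
  have hklt : ∀ i, k i < p := fun i => cl_lt p _ _ _ _ _ _ i hp0
  have hcast : ∀ x y : ℕ, x < p → y < p → ((x : ZMod p) = (y : ZMod p) ↔ x = y) := by
    intro x y hx hy
    rw [ZMod.natCast_eq_natCast_iff', Nat.mod_eq_of_lt hx, Nat.mod_eq_of_lt hy]
  unfold eg at heg
  rw [Bool.or_eq_true] at heg
  rcases heg with heg | heg
  · left
    have hne : Nat.lor (m3 p (w 0) (w 1) (w 2)) (m3 p (w 3) (w 4) (w 5)) ≠ 2 ^ p - 1 := by
      intro h
      rw [h] at heg
      simp at heg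
    obtain ⟨r₀, hr, hempty⟩ := exists_empty p _ _ _ _ _ _ hp0 hne
    intro r
    refine class_empty univ p N' hp hN' hc _ _ hrel (r₀ : ℤ) ?_ r
    intro μ _ hd
    refine hempty μ.val μ.isLt ?_
    rw [← ZMod.intCast_zmod_eq_zero_iff_dvd] at hd
    push_cast at hd
    rw [sub_eq_zero, hdot μ] at hd
    exact (hcast _ _ (hklt _) hr).1 hd
  · right
    have hcop : Nat.Coprime p N' := (Nat.Prime.coprime_iff_not_dvd hp).2 hc
    obtain ⟨p', hp'⟩ := exists_inv N' p hcop.symm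
    have hp'' : (N' : ℤ) ∣ p * p' - 1 := by rw [mul_comm]; exact hp'
    obtain ⟨C, hC⟩ := class_const univ p N' hp hN' hc p' hp'' sg (fun μ => dot μ s) hrel
    let z : ℕ → ℂ := fun j => rt N' (p' * dot (Fin.ofNat 16 j) s)
    have hzn : ∀ j, ‖z j‖ = 1 := fun j => norm_rt _ _
    have hzi : ∀ (j : ℕ) (hj : j < 16), z j = rt N' (p' * dot ⟨j, hj⟩ s) := by
      intro j hj
      show rt N' (p' * dot (Fin.ofNat 16 j) s) = _
      congr 3
      apply Fin.ext
      simp [Fin.ofNat, Nat.mod_eq_of_lt hj]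
    have hside : ∀ o, o = 0 ∨ o = 8 → Side z o := by
      intro o ho
      have one : ∀ x : ℤ, x = 0 → rt N' (p' * x) = 1 := by
        intro x hx; rw [hx, mul_zero, rt_zero]
      have m2 : ∀ x y : ℤ, x + y = 0 → rt N' (p' * x) * rt N' (p' * y) = 1 := by
        intro x y h; rw [← rt_add, ← mul_add]; exact one _ h
      have m4 : ∀ x y u v : ℤ, x + y + u + v = 0 →
          rt N' (p' * x) * rt N' (p' * y) * rt N' (p' * u) * rt N' (p' * v) = 1 := by
        intro x y u v h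
        rw [← rt_add, ← rt_add, ← rt_add, ← mul_add, ← mul_add, ← mul_add]; exact one _ h
      rcases ho with rfl | rfl
      · refine ⟨m2 _ _ ?_, m2 _ _ ?_, m2 _ _ ?_, m2 _ _ ?_, m4 _ _ _ _ ?_⟩ <;>
          simp [dot, Fin.ofNat] <;> ring
      · refine ⟨m2 _ _ ?_, m2 _ _ ?_, m2 _ _ ?_, m2 _ _ ?_, m4 _ _ _ _ ?_⟩ <;>
          simp [dot, Fin.ofNat] <;> ring
    have hCk : ∀ i, i < 16 → ∑ j ∈ cs k i, t2ee j * z j = C := by
      intro i hi
      have h1 := hC (dot ⟨i, hi⟩ s)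
      rw [← h1, cs, sum_filter, sum_filter, Finset.sum_range]
      refine Finset.sum_congr rfl fun μ _ => ?_
      have hiff : (k μ.val = k i) ↔ (p : ℤ) ∣ dot μ s - dot ⟨i, hi⟩ s := by
        rw [← ZMod.intCast_zmod_eq_zero_iff_dvd]
        push_cast
        rw [sub_eq_zero, hdot μ, hdot ⟨i, hi⟩]
        exact (hcast _ _ (hklt _) (hklt _)).symm
      by_cases hh : k μ.val = k i
      · rw [if_pos hh, if_pos (hiff.1 hh), hzi μ.val μ.isLt]
        congr 1
        unfold t2ee sg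
        split_ifs <;> simp
      · rw [if_neg hh, if_neg (fun h => hh (hiff.2 h))]
    have hall := core hzn (hside 0 (Or.inl rfl)) (hside 8 (Or.inr rfl)) hCk heg
    have hfin : ∀ (i : Fin 6) (x y : ℕ) (hx : x < 16) (hy : y < 16),
        dot ⟨x, hx⟩ s - dot ⟨y, hy⟩ s = 2 * s i → (N' : ℤ) ∣ 24 * s i := by
      intro i x y hx hy h
      have h1 := hall x hx
      have h2 := hall y hy
      rw [hzi x hx, ← rt_mul] at h1
      rw [hzi y hy, ← rt_mul] at h2
      rw [rt_eq_one_iff N' hN'] at h1 h2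
      have h3 : (N' : ℤ) ∣ p' * (24 * s i) := by
        have := dvd_sub h1 h2
        have e : ((12 : ℕ) : ℤ) * (p' * dot ⟨x, hx⟩ s) - ((12 : ℕ) : ℤ) * (p' * dot ⟨y, hy⟩ s) =
            p' * (24 * s i) := by
          push_cast
          linear_combination (12 * p') * h
        rwa [e] at this
      have h4 : (24 * s i) = p * (p' * (24 * s i)) - (p * p' - 1) * (24 * s i) := by ring
      rw [h4]
      exact dvd_sub (h3.mul_left _) (hp''.mul_right _)
    intro i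
    fin_cases i
    · exact hfin 0 0 4 (by norm_num) (by norm_num) (by simp [dot]; ring)
    · exact hfin 1 0 2 (by norm_num) (by norm_num) (by simp [dot]; ring)
    · exact hfin 2 0 1 (by norm_num) (by norm_num) (by simp [dot]; ring)
    · exact hfin 3 8 12 (by norm_num) (by norm_num) (by simp [dot]; ring)
    · exact hfin 4 8 10 (by norm_num) (by norm_num) (by simp [dot]; ring)
    · exact hfin 5 8 9 (by norm_num) (by norm_num) (by simp [dot]; ring)

theorem t2_small (p N' : ℕ) (hp : p = 11 ∨ p = 13) (hN' : 0 < N') (hc : ¬ p ∣ N')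
    (s : Fin 6 → ℤ) (hrel : Rel (p * N') s) (hs : ∃ i, ¬ (p : ℤ) ∣ s i) :
    Graded (p * N') p s ∨ ∀ i, (N' : ℤ) ∣ 24 * s i := by
  have hpp : p.Prime ∧ chk p (p / 2) = true := by
    rcases hp with rfl | rfl
    · exact ⟨by norm_num, chk11⟩
    · exact ⟨by norm_num, chk13⟩
  obtain ⟨σ, ε, hσ, hb, h1, h2, h3, h4⟩ := exists_norm p hpp.1.pos s
  have hrel' : Rel (p * N') (sact σ ε s) := (rel_sact _ σ ε (Or.inl hσ) s).2 hrel
  rcases t2_norm p N' hpp.1 hpp.2 hN' hc _ hrel' hb h1 h2 h3 h4 with h | h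
  · exact Or.inl ((graded_sact _ _ σ ε (Or.inl hσ) s).1 h)
  · right
    intro i
    have h5 := h (σ⁻¹ i)
    have h6 : sact σ ε s (σ⁻¹ i) = ((ε (σ⁻¹ i) : ℤˣ) : ℤ) * s i := by
      simp [sact]
    rw [h6] at h5
    rcases Int.units_eq_one_or (ε (σ⁻¹ i)) with h7 | h7
    · rw [h7] at h5
      simpa using h5
    · rw [h7] at h5
      simpa using h5

end Pool.Agent.TriCos
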