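import Pool.Agent.Lib_MP_6e4ab6_nt.Full.Steps
import Pool.Agent.Lib_MP_6e4ab6_nt.Full.T2
import Pool.Agent.Lib_MP_6e4ab6_nt.Full.Lift11
import Pool.Agent.Lib_MP_6e4ab6_nt.Full.Grad7
import Pool.Agent.Lib_MP_6e4ab6_nt.Full.Grad5
import Pool.Agent.Lib_MP_6e4ab6_nt.Full.Grad3
import Pool.Agent.Lib_MP_6e4ab6_nt.Full.Nine
import Pool.Agent.Lib_MP_6e4ab6_nt.Full.NIdefs
import Pool.Agent.Lib_MP_6e4ab6_nt.Full.BF.B132
import Pool.Agent.Lib_MP_6e4ab6_nt.Full.BF.B156
import Pool.Agent.Lib_MP_6e4ab6_nt.Full.BF.B180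
import Pool.Agent.Lib_MP_6e4ab6_nt.Full.BF.B420

/-! The classification of all rational solutions: induction on the level. -/

namespace Pool.Agent.TriCos

open Finset

theorem concl_of_nic (m : ℕ) (hm : 0 < m) (s : Fin 6 → ℤ) (h : NIc (2 * m) s) : Concl (ang m s) :=
  Or.inr (Or.inl (ni_of_nic m hm s h))

theorem graded_mk (N Q K : ℕ) (hN : N = Q * K) (hQ : 0 < Q) (hK : 0 < K)
    (h : ∀ r : ℕ, r.Prime → r ∣ Q → r ∣ K) (s : Fin 6 → ℤ) (hrel : Rel N s) : Graded N Q s := by
  intro r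
  have hN0 : 0 < N := by rw [hN]; exact Nat.mul_pos hQ hK
  refine class_sum univ N Q hN0 ⟨K, hN⟩ ?_ (fun μ => sg μ) (fun μ => dot μ s) hrel r
  intro p hp hd
  have : N / Q = K := by rw [hN, Nat.mul_div_cancel_left _ hQ]
  rw [this]
  rw [hN] at hd
  rcases (hp.dvd_mul).1 hd with h1 | h1
  · exact h p hp h1
  · exact h1

theorem ang_up (m k : ℕ) (hk : 0 < k) (s : Fin 6 → ℤ) : ang m s = ang (m * k) (fun i => s i * k) := by
  funext i
  unfold ang
  push_cast
  have : (k : ℚ) ≠ 0 := Nat.cast_ne_zero.2 hk.ne'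
  rw [mul_div_mul_right _ _ this]

theorem ang_down (m p : ℕ) (hp : 0 < p) (s : Fin 6 → ℤ) (h : ∀ i, (p : ℤ) ∣ s i) :
    ∃ t, ang (p * m) s = ang m t := by
  choose t ht using h
  refine ⟨t, ?_⟩
  funext i
  unfold ang
  rw [ht i]
  push_cast
  have : (p : ℚ) ≠ 0 := Nat.cast_ne_zero.2 hp.ne'
  rw [mul_div_mul_left _ _ this]

/-- a level dividing an enumerated level -/
theorem concl_of_dvd (m M : ℕ) (hM : 0 < M) (hd : m ∣ M)
    (bf : ∀ s : Fin 6 → ℤ, Sol (ang M s) → Concl (ang M s)) (s : Fin 6 → ℤ) (hs : Sol (ang m s)) :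
    Concl (ang m s) := by
  obtain ⟨k, rfl⟩ := hd
  have hk : 0 < k := Nat.pos_of_ne_zero (by rintro rfl; simp at hM)
  rw [ang_up m k hk s] at hs ⊢
  exact bf _ hs

theorem third_dvd (p : ℕ) (hp : p.Prime) (h5 : 5 ≤ p) (N : ℕ) (hN : p ∣ N) (k : ℤ)
    (h : Third N k) : (p : ℤ) ∣ k := by
  obtain ⟨h1, -⟩ := h
  have h2 : (p : ℤ) ∣ 6 * k := (Int.natCast_dvd_natCast.2 hN).trans h1
  have hpZ : Prime (p : ℤ) := Nat.prime_iff_prime_int.1 hp
  rcases hpZ.dvd_or_dvd h2 with h3 | h3
  · exfalso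
    have h4 : p ∣ 6 := by exact_mod_cast h3
    have h5' := Nat.le_of_dvd (by norm_num) h4
    interval_cases p
    · norm_num at h4
    · norm_num at hp
  · exact h3

theorem concl_of_graded (m p : ℕ) (hm : 0 < m) (hp : p.Prime) (h11 : 11 ≤ p) (hpm : p ∣ 2 * m)
    (s : Fin 6 → ℤ) (hG : Graded (2 * m) p s) (hex : ∃ i, ¬ (p : ℤ) ∣ s i) : Concl (ang m s) := by
  obtain ⟨v, hv, hv0, hc⟩ := lift_lemma p hp h11 s hex
  exact concl_of_nic m hm s (nic_of_graded (2 * m) p s v hv
    (fun i hi => hv0 i (third_dvd p hp (by omega) (2 * m) hpm _ hi)) hG hc)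

theorem big_prime (m p : ℕ) (hm : 0 < m) (hp : p.Prime) (h11 : 11 ≤ p) (hpm : p ∣ m)
    (s : Fin 6 → ℤ) (hrel : Rel (2 * m) s) (hs : Sol (ang m s)) (hex : ∃ i, ¬ (p : ℤ) ∣ s i) :
    Concl (ang m s) := by
  have hG : Graded (2 * m) p s → Concl (ang m s) := fun h =>
    concl_of_graded m p hm hp h11 (hpm.mul_left 2) s h hex
  obtain ⟨m', rfl⟩ := hpm
  have hp0 : 0 < p := hp.pos
  have hm' : 0 < m' := Nat.pos_of_ne_zero (by rintro rfl; simp at hm)
  by_cases hsq : p ∣ m'
  · apply hG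
    apply graded_mk (2 * (p * m')) p (2 * m') (by ring) hp0 (by omega) _ s hrel
    intro r hr hrp
    have : r = p := (Nat.prime_dvd_prime_iff_eq hr hp).1 hrp
    rw [this]
    exact hsq.mul_left 2
  · have hc : ¬ p ∣ 2 * m' := by
      intro h
      rcases (hp.dvd_mul).1 h with h1 | h1
      · have := Nat.le_of_dvd (by norm_num) h1
        omega
      · exact hsq h1
    have e : 2 * (p * m') = p * (2 * m') := by ring
    have hrel' : Rel (p * (2 * m')) s := by rw [← e]; exact hrel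
    by_cases h17 : 17 ≤ p
    · apply hG
      rw [e]
      exact t2_big p (2 * m') hp h17 (by omega) hc s hrel'
    · have h1113 : p = 11 ∨ p = 13 := by
        have : p < 17 := by omega
        interval_cases p
        · left; rfl
        · norm_num at hp
        · right; rfl
        · norm_num at hp
        · norm_num at hp
        · norm_num at hp
      rcases t2_small p (2 * m') h1113 (by omega) hc s hrel' hex with h | h
      · apply hG
        rw [e]; exact h
      · -- level 12 p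
        choose k hk using h
        have hlev : ang (p * m') s = ang (12 * p) k := by
          funext i
          unfold ang
          have h1 : (24 : ℚ) * s i = 2 * m' * k i := by exact_mod_cast hk i
          have hpQ : (p : ℚ) ≠ 0 := Nat.cast_ne_zero.2 hp0.ne'
          have hmQ : (m' : ℚ) ≠ 0 := Nat.cast_ne_zero.2 hm'.ne'
          push_cast
          rw [div_eq_div_iff (by positivity) (by positivity)]
          linear_combination (p / 2 : ℚ) * h1
        rw [hlev] at hs ⊢
        rcases h1113 with rfl | rfl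
        · exact Eng.B132.bf k hs
        · exact Eng.B156.bf k hs

/-- numbers with small prime divisors -/
theorem dvd_180 (m : ℕ) (hbig : ∀ p : ℕ, p.Prime → p ∣ m → p < 11) (h8 : ¬ 8 ∣ m) (h27 : ¬ 27 ∣ m)
    (h25 : ¬ 25 ∣ m) (h7 : ¬ 7 ∣ m) : m ∣ 180 := by
  rw [Nat.dvd_iff_prime_pow_dvd_dvd]
  intro p k hp hk
  rcases Nat.eq_zero_or_pos k with rfl | hk0
  · simp
  have hpm : p ∣ m := (dvd_pow_self p hk0.ne').trans hk
  have h11 := hbig p hp hpm
  have hle : ∀ j, j ≤ k → p ^ j ∣ m := fun j hj => (pow_dvd_pow p hj).trans hk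
  interval_cases p
  · norm_num at hp
  · norm_num at hp
  · have : k ≤ 2 := by
      by_contra h
      exact h8 (hle 3 (by omega))
    interval_cases k <;> norm_num
  · have : k ≤ 2 := by
      by_contra h
      exact h27 (hle 3 (by omega))
    interval_cases k <;> norm_num
  · norm_num at hp
  · have : k ≤ 1 := by
      by_contra h
      exact h25 (hle 2 (by omega))
    interval_cases k; norm_num
  · norm_num at hp
  · exact absurd hpm h7
  · norm_num at hp
  · norm_num at hp
  · norm_num at hp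

theorem dvd_420 (m : ℕ) (hbig : ∀ p : ℕ, p.Prime → p ∣ m → p < 11) (h8 : ¬ 8 ∣ m) (h9 : ¬ 9 ∣ m)
    (h25 : ¬ 25 ∣ m) (h49 : ¬ 49 ∣ m) : m ∣ 420 := by
  rw [Nat.dvd_iff_prime_pow_dvd_dvd]
  intro p k hp hk
  rcases Nat.eq_zero_or_pos k with rfl | hk0
  · simp
  have hpm : p ∣ m := (dvd_pow_self p hk0.ne').trans hk
  have h11 := hbig p hp hpm
  have hle : ∀ j, j ≤ k → p ^ j ∣ m := fun j hj => (pow_dvd_pow p hj).trans hk
  interval_cases p
  · norm_num at hp
  · norm_num at hp
  · have : k ≤ 2 := by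
      by_contra h
      exact h8 (hle 3 (by omega))
    interval_cases k <;> norm_num
  · have : k ≤ 1 := by
      by_contra h
      exact h9 (hle 2 (by omega))
    interval_cases k; norm_num
  · norm_num at hp
  · have : k ≤ 1 := by
      by_contra h
      exact h25 (hle 2 (by omega))
    interval_cases k; norm_num
  · norm_num at hp
  · have : k ≤ 1 := by
      by_contra h
      exact h49 (hle 2 (by omega))
    interval_cases k; norm_num
  · norm_num at hp
  · norm_num at hp
  · norm_num at hp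

theorem nine_left (m : ℕ) (hm : 0 < m) (h9 : 9 ∣ m)
    (hbig : ∀ p : ℕ, p.Prime → p ∣ m → p < 11) (h8 : ¬ 8 ∣ m) (h25 : ¬ 25 ∣ m) (h49 : ¬ 49 ∣ m)
    (s : Fin 6 → ℤ) (hex : ∀ p : ℕ, p.Prime → 3 * p ∣ m → ∃ i, ¬ (p : ℤ) ∣ s i)
    (hrel : Rel (2 * m) s) (hnd : ND (2 * m) s) (hs : Sol (ang m s))
    (hl : ¬ (3 : ℤ) ∣ s 0 ∧ ¬ (3 : ℤ) ∣ s 1 ∧ ¬ (3 : ℤ) ∣ s 2)
    (IH : ∀ m' : ℕ, 0 < m' → m' < m → 3 ∣ m' → ∀ t, Sol (ang m' t) → Concl (ang m' t)) :
    Concl (ang m s) := by
  by_cases hr : (3 : ℤ) ∣ s 3 ∧ (3 : ℤ) ∣ s 4 ∧ (3 : ℤ) ∣ s 5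
  · have ht := triple9 m hm h9 s hrel hnd hl hr
    obtain ⟨j, rfl⟩ := h9
    have hj : 0 < j := Nat.pos_of_ne_zero (by rintro rfl; simp at hm)
    exact t3_step j hj s hl hr ht hs (IH (3 * j) (by omega) (by omega) ⟨j, rfl⟩)
  · by_cases h27 : 27 ∣ m
    · obtain ⟨c, hc⟩ := h27
      have hG : Graded (2 * m) 9 s := by
        apply graded_mk (2 * m) 9 (2 * (3 * c)) (by rw [hc]; ring) (by norm_num) (by omega) _ s hrel
        intro r hr hr9
        have : r = 3 := by
          have h1 : r ∣ 3 ^ 2 := by norm_num; exact hr9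
          exact (Nat.prime_dvd_prime_iff_eq hr Nat.prime_three).1 (hr.dvd_of_dvd_pow h1)
        rw [this]
        exact ⟨2 * c, by ring⟩
      rcases grad9 (2 * m) (by omega) (by rw [hc]; exact ⟨2 * c, by ring⟩) s hG
        (hex 3 Nat.prime_three (by rw [hc]; exact ⟨3 * c, by ring⟩)) with h | ⟨-, h1, h2, h3⟩ | ⟨-, h1, h2, h3⟩
      · exact concl_of_nic m hm s h
      · exact absurd ⟨h1, h2, h3⟩ hr
      · exact absurd h1 hl.1
    · by_cases h7 : 7 ∣ m
      · have hr' : ¬ (3 : ℤ) ∣ s 3 ∨ ¬ (3 : ℤ) ∣ s 4 ∨ ¬ (3 : ℤ) ∣ s 5 := by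
          by_contra hcon
          push Not at hcon
          exact hr hcon
        have hG := seven9 m hm h9 h7 h49 s hrel hl hr'
        have h21 : 3 * 7 ∣ m := Nat.Coprime.mul_dvd_of_dvd_of_dvd (by norm_num)
          ((show 3 ∣ 9 by norm_num).trans h9) h7
        exact concl_of_nic m hm s (grad7 (2 * m) (by omega) (h7.mul_left 2) s hG
          (hex 7 (by norm_num) h21))
      · exact concl_of_dvd m 180 (by norm_num) (dvd_180 m hbig h8 h27 h25 h7) Eng.B180.bf s hs

/-- exchange of the sides -/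
theorem rel_swap (N : ℕ) (s : Fin 6 → ℤ) (h : Rel N s) : Rel N ![s 3, s 4, s 5, s 0, s 1, s 2] := by
  rw [rel_iff] at h ⊢
  exact h.symm

theorem core_step (m : ℕ) (hm : 0 < m) (h3 : 3 ∣ m)
    (IH : ∀ m' : ℕ, 0 < m' → m' < m → 3 ∣ m' → ∀ t, Sol (ang m' t) → Concl (ang m' t))
    (s : Fin 6 → ℤ) (hrel : Rel (2 * m) s) (hnd : ND (2 * m) s) (hs : Sol (ang m s)) :
    Concl (ang m s) := by
  by_cases hred : ∃ p : ℕ, p.Prime ∧ 3 * p ∣ m ∧ ∀ i, (p : ℤ) ∣ s i
  · obtain ⟨p, hp, ⟨c, hc⟩, hd⟩ := hred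
    have hc0 : 0 < c := Nat.pos_of_ne_zero (by rintro rfl; simp at hc; omega)
    have hm' : m = p * (3 * c) := by rw [hc]; ring
    subst hm'
    obtain ⟨t, ht⟩ := ang_down (3 * c) p hp.pos s hd
    rw [ht] at hs ⊢
    refine IH (3 * c) (by omega) ?_ ⟨c, rfl⟩ t hs
    have := hp.two_le
    nlinarith
  · have hex : ∀ p : ℕ, p.Prime → 3 * p ∣ m → ∃ i, ¬ (p : ℤ) ∣ s i := by
      intro p hp hd
      by_contra hcon
      push Not at hcon
      exact hred ⟨p, hp, hd, hcon⟩
    have h3p : ∀ p : ℕ, p.Prime → p ∣ m → p ≠ 3 → 3 * p ∣ m := by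
      intro p hp hd hne
      apply Nat.Coprime.mul_dvd_of_dvd_of_dvd _ h3 hd
      exact (Nat.coprime_primes Nat.prime_three hp).2 (Ne.symm hne)
    by_cases hbig : ∃ p : ℕ, p.Prime ∧ p ∣ m ∧ 11 ≤ p
    · obtain ⟨p, hp, hd, h11⟩ := hbig
      exact big_prime m p hm hp h11 hd s hrel hs (hex p hp (h3p p hp hd (by omega)))
    have hbig' : ∀ p : ℕ, p.Prime → p ∣ m → p < 11 := by
      intro p hp hd
      by_contra hcon
      exact hbig ⟨p, hp, hd, by omega⟩
    by_cases h49 : 49 ∣ m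
    · obtain ⟨c, hc⟩ := h49
      have hc0 : 0 < c := Nat.pos_of_ne_zero (by rintro rfl; simp at hc; omega)
      have hG : Graded (2 * m) 7 s := by
        apply graded_mk (2 * m) 7 (2 * (7 * c)) (by rw [hc]; ring) (by norm_num) (by omega) _ s hrel
        intro r hr hr7
        have : r = 7 := (Nat.prime_dvd_prime_iff_eq hr (by norm_num)).1 hr7
        rw [this]
        exact ⟨2 * c, by ring⟩
      have h7 : 7 ∣ m := by rw [hc]; exact ⟨7 * c, by ring⟩
      exact concl_of_nic m hm s (grad7 (2 * m) (by omega) (h7.mul_left 2) s hG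
        (hex 7 (by norm_num) (h3p 7 (by norm_num) h7 (by norm_num))))
    by_cases h25 : 25 ∣ m
    · obtain ⟨c, hc⟩ := h25
      have hc0 : 0 < c := Nat.pos_of_ne_zero (by rintro rfl; simp at hc; omega)
      have hG : Graded (2 * m) 5 s := by
        apply graded_mk (2 * m) 5 (2 * (5 * c)) (by rw [hc]; ring) (by norm_num) (by omega) _ s hrel
        intro r hr hr5
        have : r = 5 := (Nat.prime_dvd_prime_iff_eq hr (by norm_num)).1 hr5
        rw [this]
        exact ⟨2 * c, by ring⟩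
      have h5 : 5 ∣ m := by rw [hc]; exact ⟨5 * c, by ring⟩
      exact concl_of_nic m hm s (grad5 (2 * m) (by omega) (h5.mul_left 2) s hG
        (hex 5 (by norm_num) (h3p 5 (by norm_num) h5 (by norm_num))))
    by_cases h8 : 8 ∣ m
    · have h24 : 24 ∣ m := by
        have := Nat.Coprime.mul_dvd_of_dvd_of_dvd (show Nat.Coprime 3 8 by norm_num) h3 h8
        exact this
      obtain ⟨j, hj⟩ := h24
      have hj0 : 0 < j := Nat.pos_of_ne_zero (by rintro rfl; simp at hj; omega)
      have ho : ∃ i, Odd (s i) := by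
        obtain ⟨i, hi⟩ := hex 2 Nat.prime_two (h3p 2 Nat.prime_two (by omega) (by norm_num))
        refine ⟨i, ?_⟩
        rw [← Int.not_even_iff_odd, even_iff_two_dvd]
        exact_mod_cast hi
      subst hj
      have e12 : 24 * j = 12 * (2 * j) := by ring
      have IH12 : ∀ t, Sol (ang (12 * j) t) → Concl (ang (12 * j) t) :=
        IH (12 * j) (by omega) (by omega) ⟨4 * j, by ring⟩
      have IH6 : ∀ t, Sol (ang (6 * (2 * j)) t) → Concl (ang (6 * (2 * j)) t) :=
        IH (6 * (2 * j)) (by omega) (by omega) ⟨4 * j, by ring⟩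
      rcases t4_low (24 * j) hm ⟨6 * j, by ring⟩ s hrel hnd ho with h | ⟨s', hS, hM⟩ | h
      · exact Or.inr (Or.inl h)
      · apply same_concl _ _ (same_symm _ _ hS)
        have hs' := same_sol _ _ hS hs
        rw [e12] at hs' hM ⊢
        exact m20_step (2 * j) (by omega) s' hM hs' IH6
      · rcases t4_high (24 * j) hm ⟨3 * j, by ring⟩ s hrel hnd h with h | h | ⟨s', hS, hM⟩
        · exact Or.inl h
        · exact Or.inr (Or.inl h)
        · apply same_concl _ _ (same_symm _ _ hS)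
          have hs' := same_sol _ _ hS hs
          rcases hM with hM | ⟨hR, hM⟩
          · rw [e12] at hs' hM ⊢
            exact m22_step (2 * j) (by omega) s' hM hs' IH6
          · exact spc_step j hj0 s' hR hM hs' IH12
    by_cases h9 : 9 ∣ m
    · obtain ⟨c, hc⟩ := h9
      have hc0 : 0 < c := Nat.pos_of_ne_zero (by rintro rfl; simp at hc; omega)
      have h9' : 9 ∣ m := ⟨c, hc⟩
      have hG : Graded (2 * m) 3 s := by
        apply graded_mk (2 * m) 3 (2 * (3 * c)) (by rw [hc]; ring) (by norm_num) (by omega) _ s hrel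
        intro r hr hr3
        have : r = 3 := (Nat.prime_dvd_prime_iff_eq hr (by norm_num)).1 hr3
        rw [this]
        exact ⟨2 * c, by ring⟩
      rcases grad3 (2 * m) (by omega) (h9'.mul_left 2) s hG
        (hex 3 Nat.prime_three (by rw [hc]; exact ⟨c, by ring⟩)) with h | h | h
      · exact concl_of_nic m hm s h
      · exact nine_left m hm h9' hbig' h8 h25 h49 s hex hrel hnd hs h IH
      · have hS : Same (ang m s) (ang m ![s 3, s 4, s 5, s 0, s 1, s 2]) := Or.inr ⟨rfl, rfl⟩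
        apply same_concl _ _ (same_symm _ _ hS)
        have hs' := same_sol _ _ hS hs
        refine nine_left m hm h9' hbig' h8 h25 h49 _ ?_ (rel_swap _ s hrel)
          ((nd_iff m hm _).2 fun i => ?_) hs' h IH
        · intro p hp hd
          obtain ⟨i, hi⟩ := hex p hp hd
          fin_cases i
          · exact ⟨3, hi⟩
          · exact ⟨4, hi⟩
          · exact ⟨5, hi⟩
          · exact ⟨0, hi⟩
          · exact ⟨1, hi⟩
          · exact ⟨2, hi⟩
        · have := hs'.1 i
          rw [c2_ang] at this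
          exact this
    · exact concl_of_dvd m 420 (by norm_num) (dvd_420 m hbig' h8 h9 h25 h49) Eng.B420.bf s hs

theorem main_level (m : ℕ) : 0 < m → 3 ∣ m → ∀ s : Fin 6 → ℤ, Sol (ang m s) → Concl (ang m s) := by
  induction m using Nat.strong_induction_on with
  | _ m IH =>
    intro hm h3 s hs
    have IH' : ∀ m' : ℕ, 0 < m' → m' < m → 3 ∣ m' → ∀ t, Sol (ang m' t) → Concl (ang m' t) :=
      fun m' h0 hlt hd => IH m' hlt h0 hd
    obtain ⟨hnd, hR | hR⟩ := rel_of_sol m hm s hs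
    · exact core_step m hm h3 IH' s hR hnd hs
    · have hS : Same (ang m s) (ang m (Function.update s 5 (s 5 + m))) := by
        apply same_of_dvd m hm
        intro i
        left
        by_cases hi : i = 5
        · subst hi
          rw [Function.update_self]
          exact ⟨-1, by ring⟩
        · rw [Function.update_of_ne hi]
          simp
      apply same_concl _ _ (same_symm _ _ hS)
      have hs' := same_sol _ _ hS hs
      refine core_step m hm h3 IH' _ hR ((nd_iff m hm _).2 fun i => ?_) hs'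
      have := hs'.1 i
      rw [c2_ang] at this
      exact this

/-- every rational solution is trivial, lies on a line, or is a table entry -/
theorem main : MainStatement := by
  intro a hs
  obtain ⟨M, s, hM, h3, rfl⟩ := exists_level a 3 (by norm_num)
  exact main_level M hM h3 s hs

end Pool.Agent.TriCos
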