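import Pool.Agent.Lib_MP_6e4ab6_nt.Full.Lifts

/-! The lifting steps with levels. -/

namespace Pool.Agent.TriCos

open Finset

theorem not_one_of (m : ℕ) (hm : 0 < m) (k : ℤ) (h : ¬ (m : ℤ) ∣ 3 * k) : c2 ((k : ℝ) / m) ≠ 1 := by
  rw [Ne, c2_eq_one_iff m hm]
  rintro ⟨⟨c, hc⟩, -⟩
  apply h
  push_cast at hc
  exact ⟨c, by linarith⟩

theorem odd_not_one (m : ℕ) (hm : 0 < m) (h4 : 4 ∣ m) (k : ℤ) (hk : Odd k) :
    c2 ((k : ℝ) / m) ≠ 1 := by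
  apply not_one_of m hm
  rintro ⟨c, hc⟩
  obtain ⟨d, hd⟩ := h4
  obtain ⟨e, he⟩ := hk
  rw [hd] at hc
  push_cast at hc
  rw [mul_assoc] at hc
  generalize (d : ℤ) * c = w at hc
  omega

theorem m20_step (j : ℕ) (hj : 0 < j) (s : Fin 6 → ℤ) (h : M20 (12 * j) s)
    (hs : Sol (ang (12 * j) s))
    (IH : ∀ t, Sol (ang (6 * j) t) → Concl (ang (6 * j) t)) : Concl (ang (12 * j) s) := by
  obtain ⟨⟨k, hk⟩, o0, o1, ⟨y', hy⟩, ⟨b0, hb0⟩, ⟨b1, hb1⟩, ⟨b2, hb2⟩⟩ := h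
  have hjQ : (j : ℚ) ≠ 0 := Nat.cast_ne_zero.2 hj.ne'
  have h1 : s 1 = s 0 + 6 * j + 12 * j * k := by push_cast at hk; linarith
  have ex1 : (s 1 : ℚ) / ((12 * j : ℕ) : ℚ) = (s 0 : ℚ) / ((12 * j : ℕ) : ℚ) + 1/2 + (k : ℤ) := by
    rw [h1]; push_cast; field_simp; ring
  have hS : Same (ang (12 * j) s) ![(s 0 : ℚ) / ((12 * j : ℕ) : ℚ), (s 0 : ℚ) / ((12 * j : ℕ) : ℚ) + 1/2,
      (s 2 : ℚ) / ((12 * j : ℕ) : ℚ), (s 3 : ℚ) / ((12 * j : ℕ) : ℚ), (s 4 : ℚ) / ((12 * j : ℕ) : ℚ),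
      (s 5 : ℚ) / ((12 * j : ℕ) : ℚ)] := by
    apply same_of_vals
    intro i
    fin_cases i
    · rfl
    · show c2 (((s 1 : ℚ) / ((12 * j : ℕ) : ℚ) : ℚ) : ℝ) = c2 (((s 0 : ℚ) / ((12 * j : ℕ) : ℚ) + 1/2 : ℚ) : ℝ)
      rw [ex1]
      push_cast
      rw [c2_add_int]
    · rfl
    · rfl
    · rfl
    · rfl
  have hup := same_sol _ _ hS hs
  have hlow := D2_sol _ _ _ _ _ hup
  have hl : (![2 * ((s 0 : ℚ) / ((12 * j : ℕ) : ℚ)) + 1/2, (s 2 : ℚ) / ((12 * j : ℕ) : ℚ), 1/3,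
      (s 3 : ℚ) / ((12 * j : ℕ) : ℚ), (s 4 : ℚ) / ((12 * j : ℕ) : ℚ),
      (s 5 : ℚ) / ((12 * j : ℕ) : ℚ)] : Fin 6 → ℚ) = ang (6 * j) ![s 0 + 3 * j, y', 2 * j, b0, b1, b2] := by
    funext i
    unfold ang
    fin_cases i
    · show 2 * ((s 0 : ℚ) / ((12 * j : ℕ) : ℚ)) + 1/2 = ((s 0 + 3 * j : ℤ) : ℚ) / ((6 * j : ℕ) : ℚ)
      push_cast; field_simp; ring
    · show (s 2 : ℚ) / ((12 * j : ℕ) : ℚ) = (y' : ℚ) / ((6 * j : ℕ) : ℚ)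
      rw [hy]; push_cast; field_simp; ring
    · show (1/3 : ℚ) = ((2 * j : ℤ) : ℚ) / ((6 * j : ℕ) : ℚ)
      push_cast; field_simp; norm_num
    · show (s 3 : ℚ) / ((12 * j : ℕ) : ℚ) = (b0 : ℚ) / ((6 * j : ℕ) : ℚ)
      rw [hb0]; push_cast; field_simp; ring
    · show (s 4 : ℚ) / ((12 * j : ℕ) : ℚ) = (b1 : ℚ) / ((6 * j : ℕ) : ℚ)
      rw [hb1]; push_cast; field_simp; ring
    · show (s 5 : ℚ) / ((12 * j : ℕ) : ℚ) = (b2 : ℚ) / ((6 * j : ℕ) : ℚ)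
      rw [hb2]; push_cast; field_simp; ring
  have hC : Concl ![2 * ((s 0 : ℚ) / ((12 * j : ℕ) : ℚ)) + 1/2, (s 2 : ℚ) / ((12 * j : ℕ) : ℚ), 1/3,
      (s 3 : ℚ) / ((12 * j : ℕ) : ℚ), (s 4 : ℚ) / ((12 * j : ℕ) : ℚ),
      (s 5 : ℚ) / ((12 * j : ℕ) : ℚ)] := by
    rw [hl] at hlow ⊢
    exact IH _ hlow
  have n0 : c2 (((s 0 : ℚ) / ((12 * j : ℕ) : ℚ) : ℚ) : ℝ) ≠ 1 := by
    have := odd_not_one (12 * j) (by omega) ⟨3 * j, by ring⟩ (s 0) o0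
    push_cast at this ⊢
    exact this
  have n1 : c2 (((s 0 : ℚ) / ((12 * j : ℕ) : ℚ) + 1/2 : ℚ) : ℝ) ≠ 1 := by
    have h3 := odd_not_one (12 * j) (by omega) ⟨3 * j, by ring⟩ (s 1) o1
    have e : ((s 1 : ℝ) / ((12 * j : ℕ) : ℝ)) = (((s 0 : ℚ) / ((12 * j : ℕ) : ℚ) + 1/2 : ℚ) : ℝ) + (k : ℤ) := by
      have := congrArg (fun q : ℚ => (q : ℝ)) ex1
      push_cast at this ⊢
      exact this
    rw [e, c2_add_int] at h3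
    exact h3
  exact same_concl _ _ (same_symm _ _ hS) (D2_concl _ _ _ _ _ n0 n1 hup hC)

theorem same_swap (a0 a1 a2 a3 a4 a5 : ℚ) :
    Same ![a0, a1, a2, a3, a4, a5] ![a3, a4, a5, a0, a1, a2] := Or.inr ⟨rfl, rfl⟩

theorem m22_step (j : ℕ) (hj : 0 < j) (s : Fin 6 → ℤ) (h : M22 (12 * j) s)
    (hs : Sol (ang (12 * j) s))
    (IH : ∀ t, Sol (ang (6 * j) t) → Concl (ang (6 * j) t)) : Concl (ang (12 * j) s) := by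
  obtain ⟨⟨k, hk⟩, ⟨l, hl⟩, o0, o1, ⟨y', hy⟩, o3, o4, ⟨w', hw⟩⟩ := h
  have hjQ : (j : ℚ) ≠ 0 := Nat.cast_ne_zero.2 hj.ne'
  have h1 : s 1 = s 0 + 6 * j + 12 * j * k := by push_cast at hk; linarith
  have h4 : s 4 = s 3 + 6 * j + 12 * j * l := by push_cast at hl; linarith
  have ex1 : (s 1 : ℚ) / ((12 * j : ℕ) : ℚ) = (s 0 : ℚ) / ((12 * j : ℕ) : ℚ) + 1/2 + (k : ℤ) := by
    rw [h1]; push_cast; field_simp; ring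
  have ex4 : (s 4 : ℚ) / ((12 * j : ℕ) : ℚ) = (s 3 : ℚ) / ((12 * j : ℕ) : ℚ) + 1/2 + (l : ℤ) := by
    rw [h4]; push_cast; field_simp; ring
  have hS : Same (ang (12 * j) s) ![(s 0 : ℚ) / ((12 * j : ℕ) : ℚ), (s 0 : ℚ) / ((12 * j : ℕ) : ℚ) + 1/2,
      (s 2 : ℚ) / ((12 * j : ℕ) : ℚ), (s 3 : ℚ) / ((12 * j : ℕ) : ℚ),
      (s 3 : ℚ) / ((12 * j : ℕ) : ℚ) + 1/2, (s 5 : ℚ) / ((12 * j : ℕ) : ℚ)] := by
    apply same_of_vals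
    intro i
    fin_cases i
    · rfl
    · show c2 (((s 1 : ℚ) / ((12 * j : ℕ) : ℚ) : ℚ) : ℝ) = c2 (((s 0 : ℚ) / ((12 * j : ℕ) : ℚ) + 1/2 : ℚ) : ℝ)
      rw [ex1]
      push_cast
      rw [c2_add_int]
    · rfl
    · rfl
    · show c2 (((s 4 : ℚ) / ((12 * j : ℕ) : ℚ) : ℚ) : ℝ) = c2 (((s 3 : ℚ) / ((12 * j : ℕ) : ℚ) + 1/2 : ℚ) : ℝ)
      rw [ex4]
      push_cast
      rw [c2_add_int]
    · rfl
  have hup := same_sol _ _ hS hs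
  have hlow1 := D2_sol _ _ _ _ _ hup
  have hlow1' := same_sol _ _ (same_swap _ _ _ _ _ _) hlow1
  have hlow2 := D2_sol _ _ _ _ _ hlow1'
  have hl : (![2 * ((s 3 : ℚ) / ((12 * j : ℕ) : ℚ)) + 1/2, (s 5 : ℚ) / ((12 * j : ℕ) : ℚ), 1/3,
      2 * ((s 0 : ℚ) / ((12 * j : ℕ) : ℚ)) + 1/2, (s 2 : ℚ) / ((12 * j : ℕ) : ℚ), 1/3] : Fin 6 → ℚ)
      = ang (6 * j) ![s 3 + 3 * j, w', 2 * j, s 0 + 3 * j, y', 2 * j] := by
    funext i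
    unfold ang
    fin_cases i
    · show 2 * ((s 3 : ℚ) / ((12 * j : ℕ) : ℚ)) + 1/2 = ((s 3 + 3 * j : ℤ) : ℚ) / ((6 * j : ℕ) : ℚ)
      push_cast; field_simp; ring
    · show (s 5 : ℚ) / ((12 * j : ℕ) : ℚ) = (w' : ℚ) / ((6 * j : ℕ) : ℚ)
      rw [hw]; push_cast; field_simp; ring
    · show (1/3 : ℚ) = ((2 * j : ℤ) : ℚ) / ((6 * j : ℕ) : ℚ)
      push_cast; field_simp; norm_num
    · show 2 * ((s 0 : ℚ) / ((12 * j : ℕ) : ℚ)) + 1/2 = ((s 0 + 3 * j : ℤ) : ℚ) / ((6 * j : ℕ) : ℚ)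
      push_cast; field_simp; ring
    · show (s 2 : ℚ) / ((12 * j : ℕ) : ℚ) = (y' : ℚ) / ((6 * j : ℕ) : ℚ)
      rw [hy]; push_cast; field_simp; ring
    · show (1/3 : ℚ) = ((2 * j : ℤ) : ℚ) / ((6 * j : ℕ) : ℚ)
      push_cast; field_simp; norm_num
  have hC2 : Concl ![2 * ((s 3 : ℚ) / ((12 * j : ℕ) : ℚ)) + 1/2, (s 5 : ℚ) / ((12 * j : ℕ) : ℚ), 1/3,
      2 * ((s 0 : ℚ) / ((12 * j : ℕ) : ℚ)) + 1/2, (s 2 : ℚ) / ((12 * j : ℕ) : ℚ), 1/3] := by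
    rw [hl] at hlow2 ⊢
    exact IH _ hlow2
  have nodd : ∀ a b : ℤ, ∀ c : ℤ, Odd a → Odd b → (b : ℚ) / ((12 * j : ℕ) : ℚ) =
      (a : ℚ) / ((12 * j : ℕ) : ℚ) + 1/2 + (c : ℤ) →
      c2 (((a : ℚ) / ((12 * j : ℕ) : ℚ) : ℚ) : ℝ) ≠ 1 ∧
      c2 (((a : ℚ) / ((12 * j : ℕ) : ℚ) + 1/2 : ℚ) : ℝ) ≠ 1 := by
    intro a b c ha hb hab
    constructor
    · have := odd_not_one (12 * j) (by omega) ⟨3 * j, by ring⟩ a ha
      push_cast at this ⊢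
      exact this
    · have h3 := odd_not_one (12 * j) (by omega) ⟨3 * j, by ring⟩ b hb
      have e : ((b : ℝ) / ((12 * j : ℕ) : ℝ)) = (((a : ℚ) / ((12 * j : ℕ) : ℚ) + 1/2 : ℚ) : ℝ) + (c : ℤ) := by
        have := congrArg (fun q : ℚ => (q : ℝ)) hab
        push_cast at this ⊢
        exact this
      rw [e, c2_add_int] at h3
      exact h3
  obtain ⟨n3, n4⟩ := nodd (s 3) (s 4) l o3 o4 ex4
  obtain ⟨n0, n1⟩ := nodd (s 0) (s 1) k o0 o1 ex1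
  have hC1' := D2_concl _ _ _ _ _ n3 n4 hlow1' hC2
  have hC1 := same_concl _ _ (same_swap _ _ _ _ _ _) hC1'
  exact same_concl _ _ (same_symm _ _ hS) (D2_concl _ _ _ _ _ n0 n1 hup hC1)

/-- `c1` at an exponent -/
theorem c1_rt (m : ℕ) (hm : 0 < m) (k : ℤ) :
    ((c1 ((k : ℝ) / m) : ℝ) : ℂ) = rt (2 * m) k + rt (2 * m) (-k) := by
  rw [rt_add_inv m hm]
  unfold c1
  rfl

theorem c1_add_even (a : ℝ) (n : ℤ) (h : Even n) : c1 (a + n) = c1 a := by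
  unfold c1
  have : Real.pi * (a + n) = Real.pi * a + n * Real.pi := by ring
  rw [this, Real.cos_add_int_mul_pi, h.neg_one_zpow, one_mul]

theorem c1_add_odd (a : ℝ) (n : ℤ) (h : Odd n) : c1 (a + n) = - c1 a := by
  unfold c1
  have : Real.pi * (a + n) = Real.pi * a + n * Real.pi := by ring
  rw [this, Real.cos_add_int_mul_pi, h.neg_one_zpow]
  ring

theorem spc_step (j : ℕ) (hj : 0 < j) (s : Fin 6 → ℤ) (hrel : Rel (2 * (24 * j)) s)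
    (h : Spc (24 * j) s) (hs : Sol (ang (24 * j) s))
    (IH : ∀ t, Sol (ang (12 * j) t) → Concl (ang (12 * j) t)) : Concl (ang (24 * j) s) := by
  obtain ⟨⟨k, hk⟩, ⟨a, ha⟩, ⟨b, hb⟩, ⟨c, hc⟩, o0, o1, o3, o4, ⟨e, he⟩, ⟨f, hf⟩⟩ := h
  have hjQ : (j : ℚ) ≠ 0 := Nat.cast_ne_zero.2 hj.ne'
  have hjR : (j : ℝ) ≠ 0 := Nat.cast_ne_zero.2 hj.ne'
  have hjZ : (j : ℤ) ≠ 0 := Nat.cast_ne_zero.2 hj.ne'
  push_cast at hk ha hb hc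
  have hab : a + b = 2 * c := by
    have : (24 * (j : ℤ)) * (a + b) = (24 * j) * (2 * c) := by linarith
    exact mul_left_cancel₀ (by positivity) this
  have hm : 0 < 24 * j := by omega
  obtain ⟨x, hx⟩ : ∃ x : ℚ, x = (s 0 : ℚ) / ((24 * j : ℕ) : ℚ) := ⟨_, rfl⟩
  obtain ⟨y, hy⟩ : ∃ y : ℚ, y = (s 1 : ℚ) / ((24 * j : ℕ) : ℚ) := ⟨_, rfl⟩
  obtain ⟨z, hz⟩ : ∃ z : ℚ, z = (s 3 : ℚ) / ((24 * j : ℕ) : ℚ) := ⟨_, rfl⟩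
  obtain ⟨w, hw⟩ : ∃ w : ℚ, w = 1/2 - x - y := ⟨_, rfl⟩
  have e2 : (s 2 : ℚ) / ((24 * j : ℕ) : ℚ) = w + (k : ℤ) := by
    rw [hw, hx, hy]
    have : (s 2 : ℚ) = 12 * j + 24 * j * k - s 0 - s 1 := by
      have : s 2 = 12 * j + 24 * j * k - s 0 - s 1 := by linarith
      rw [this]; push_cast; ring
    rw [this]; push_cast; field_simp; ring
  have e4 : (s 4 : ℚ) / ((24 * j : ℕ) : ℚ) = (w - z) + ((k + a : ℤ) : ℚ) := by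
    have h1 : (s 4 : ℚ) = s 2 - s 3 + 24 * j * a := by
      have : s 4 = s 2 - s 3 + 24 * j * a := by linarith
      rw [this]; push_cast; ring
    have h2 : (s 4 : ℚ) / ((24 * j : ℕ) : ℚ) = (s 2 : ℚ) / ((24 * j : ℕ) : ℚ) - z + a := by
      rw [h1, hz]; push_cast; field_simp
    rw [h2, e2]; push_cast; ring
  have e5 : (s 5 : ℚ) / ((24 * j : ℕ) : ℚ) = (x - y) + (b : ℤ) := by
    have h1 : (s 5 : ℚ) = s 0 - s 1 + 24 * j * b := by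
      have : s 5 = s 0 - s 1 + 24 * j * b := by linarith
      rw [this]; push_cast; ring
    rw [h1, hx, hy]; push_cast; field_simp
  -- real versions
  have r0 : ((s 0 : ℝ) / ((24 * j : ℕ) : ℝ)) = (x : ℝ) := by rw [hx]; push_cast; rfl
  have r1 : ((s 1 : ℝ) / ((24 * j : ℕ) : ℝ)) = (y : ℝ) := by rw [hy]; push_cast; rfl
  have r3 : ((s 3 : ℝ) / ((24 * j : ℕ) : ℝ)) = (z : ℝ) := by rw [hz]; push_cast; rfl
  have r2 : ((s 2 : ℝ) / ((24 * j : ℕ) : ℝ)) = (w : ℝ) + (k : ℤ) := by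
    have := congrArg (fun q : ℚ => (q : ℝ)) e2
    push_cast at this ⊢; exact this
  have r4 : ((s 4 : ℝ) / ((24 * j : ℕ) : ℝ)) = ((w : ℝ) - z) + ((k + a : ℤ) : ℝ) := by
    have := congrArg (fun q : ℚ => (q : ℝ)) e4
    push_cast at this ⊢; exact this
  have r5 : ((s 5 : ℝ) / ((24 * j : ℕ) : ℝ)) = ((x : ℝ) - y) + (b : ℤ) := by
    have := congrArg (fun q : ℚ => (q : ℝ)) e5
    push_cast at this ⊢; exact this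
  -- the relation
  have hR : c1 ((s 0 : ℝ) / ((24 * j : ℕ) : ℝ)) * c1 ((s 1 : ℝ) / ((24 * j : ℕ) : ℝ)) *
      c1 ((s 2 : ℝ) / ((24 * j : ℕ) : ℝ)) = c1 ((s 3 : ℝ) / ((24 * j : ℕ) : ℝ)) *
      c1 ((s 4 : ℝ) / ((24 * j : ℕ) : ℝ)) * c1 ((s 5 : ℝ) / ((24 * j : ℕ) : ℝ)) := by
    rw [rel_iff] at hrel
    simp only [← c1_rt (24 * j) hm] at hrel
    exact_mod_cast hrel
  rw [r0, r1, r2, r3, r4, r5] at hR
  have hrel2 : c1 (x : ℝ) * c1 (y : ℝ) * c1 (w : ℝ) = c1 (z : ℝ) * c1 ((w : ℝ) - z) * c1 ((x : ℝ) - y) := by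
    rcases Int.even_or_odd k with hk2 | hk2 <;> rcases Int.even_or_odd a with ha2 | ha2 <;>
      rcases Int.even_or_odd b with hb2 | hb2
    · rw [c1_add_even _ _ hk2, c1_add_even _ _ (hk2.add ha2), c1_add_even _ _ hb2] at hR
      exact hR
    · exfalso; rcases ha2 with ⟨p, hp⟩; rcases hb2 with ⟨q, hq⟩; omega
    · exfalso; rcases ha2 with ⟨p, hp⟩; rcases hb2 with ⟨q, hq⟩; omega
    · rw [c1_add_even _ _ hk2, c1_add_odd _ _ (hk2.add_odd ha2), c1_add_odd _ _ hb2] at hR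
      linear_combination hR
    · rw [c1_add_odd _ _ hk2, c1_add_odd _ _ (hk2.add_even ha2), c1_add_even _ _ hb2] at hR
      linear_combination -hR
    · exfalso; rcases ha2 with ⟨p, hp⟩; rcases hb2 with ⟨q, hq⟩; omega
    · exfalso; rcases ha2 with ⟨p, hp⟩; rcases hb2 with ⟨q, hq⟩; omega
    · rw [c1_add_odd _ _ hk2, c1_add_even _ _ (hk2.add_odd ha2), c1_add_odd _ _ hb2] at hR
      linear_combination -hR
  -- the same configuration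
  have hS : Same (ang (24 * j) s) ![x, y, w, z, w - z, x - y] := by
    apply same_of_vals
    intro i
    rw [c2_ang]
    fin_cases i
    · show c2 ((s 0 : ℝ) / ((24 * j : ℕ) : ℝ)) = c2 (x : ℝ)
      rw [r0]
    · show c2 ((s 1 : ℝ) / ((24 * j : ℕ) : ℝ)) = c2 (y : ℝ)
      rw [r1]
    · show c2 ((s 2 : ℝ) / ((24 * j : ℕ) : ℝ)) = c2 (w : ℝ)
      rw [r2, c2_add_int]
    · show c2 ((s 3 : ℝ) / ((24 * j : ℕ) : ℝ)) = c2 (z : ℝ)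
      rw [r3]
    · show c2 ((s 4 : ℝ) / ((24 * j : ℕ) : ℝ)) = c2 ((w - z : ℚ) : ℝ)
      rw [r4, c2_add_int]; push_cast; rfl
    · show c2 ((s 5 : ℝ) / ((24 * j : ℕ) : ℝ)) = c2 ((x - y : ℚ) : ℝ)
      rw [r5, c2_add_int]; push_cast; rfl
  have hup := same_sol _ _ hS hs
  rw [sol_iff] at hup
  obtain ⟨⟨g0, g1, g2, g3, g4, g5⟩, -⟩ := hup
  push_cast at g4 g5
  have nz : ∀ t : ℝ, c2 t ≠ 0 → c1 t ≠ 0 := by
    intro t ht h0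
    apply ht
    rw [ln_c2_c1, h0]; ring
  have hn : c1 (x : ℝ) ≠ 0 ∧ c1 (y : ℝ) ≠ 0 ∧ c1 (w : ℝ) ≠ 0 ∧ c1 (z : ℝ) ≠ 0 ∧
      c1 ((w : ℝ) - z) ≠ 0 ∧ c1 ((x : ℝ) - y) ≠ 0 :=
    ⟨nz _ g0, nz _ g1, nz _ g2, nz _ g3, nz _ g4, nz _ g5⟩
  have hsin : Real.sin (Real.pi * w) ≠ 0 := by
    intro h0
    rw [Real.sin_eq_zero_iff] at h0
    obtain ⟨n, hn'⟩ := h0
    have h1 : (w : ℝ) = n := by
      have hpi := Real.pi_ne_zero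
      have : Real.pi * (w : ℝ) = Real.pi * n := by rw [← hn']; ring
      exact mul_left_cancel₀ hpi this
    have h2 : (w : ℚ) = n := by exact_mod_cast h1
    rw [h2] at e2
    have h3 : (s 2 : ℚ) = 24 * j * (n + k) := by
      push_cast at e2
      field_simp at e2
      linarith
    have h4 : s 2 = 24 * j * (n + k) := by exact_mod_cast h3
    rw [h4] at he
    have h5 : (24 * (j : ℤ) * (n + k)) = 4 * (6 * (j * (n + k))) := by ring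
    rw [h5] at he
    omega
  have hl : (![1/2 - 2 * w, 1/3, 1/3, 2 * z - w, x - y, 1/3] : Fin 6 → ℚ)
      = ang (12 * j) ![6 * j - s 2 + 24 * j * k, 4 * j, 4 * j, s 3 - 2 * e - 1 + 12 * j * k,
        2 * f - 12 * j * b, 4 * j] := by
    have hw2 : w = (s 2 : ℚ) / ((24 * j : ℕ) : ℚ) - k := by rw [e2]; ring
    have hxy : x - y = (s 5 : ℚ) / ((24 * j : ℕ) : ℚ) - b := by rw [e5]; ring
    have hs2 : (s 2 : ℚ) = 4 * e + 2 := by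
      have : s 2 = 4 * e + 2 := by linarith
      rw [this]; push_cast; ring
    have hs5 : (s 5 : ℚ) = 4 * f := by
      rw [hf]; push_cast; ring
    funext i
    unfold ang
    fin_cases i
    · show 1/2 - 2 * w = ((6 * j - s 2 + 24 * j * k : ℤ) : ℚ) / ((12 * j : ℕ) : ℚ)
      rw [hw2]; push_cast; field_simp; ring
    · show (1/3 : ℚ) = ((4 * j : ℤ) : ℚ) / ((12 * j : ℕ) : ℚ)
      push_cast; field_simp; norm_num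
    · show (1/3 : ℚ) = ((4 * j : ℤ) : ℚ) / ((12 * j : ℕ) : ℚ)
      push_cast; field_simp; norm_num
    · show 2 * z - w = ((s 3 - 2 * e - 1 + 12 * j * k : ℤ) : ℚ) / ((12 * j : ℕ) : ℚ)
      rw [hw2, hz, hs2]; push_cast; field_simp; ring
    · show x - y = ((2 * f - 12 * j * b : ℤ) : ℚ) / ((12 * j : ℕ) : ℚ)
      rw [hxy, hs5]; push_cast; field_simp; ring
    · show (1/3 : ℚ) = ((4 * j : ℤ) : ℚ) / ((12 * j : ℕ) : ℚ)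
      push_cast; field_simp; norm_num
  have hsl := Sp_sol x y w z hw hsin hn hrel2
  have hC : Concl ![1/2 - 2 * w, 1/3, 1/3, 2 * z - w, x - y, 1/3] := by
    rw [hl] at hsl ⊢
    exact IH _ hsl
  have h8 : 4 ∣ 24 * j := ⟨6 * j, by ring⟩
  have n0 : c2 (x : ℝ) ≠ 1 := by rw [← r0]; exact odd_not_one _ hm h8 _ o0
  have n1 : c2 (y : ℝ) ≠ 1 := by rw [← r1]; exact odd_not_one _ hm h8 _ o1
  have n3 : c2 (z : ℝ) ≠ 1 := by rw [← r3]; exact odd_not_one _ hm h8 _ o3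
  have n4 : c2 ((w : ℝ) - z) ≠ 1 := by
    have := odd_not_one _ hm h8 _ o4
    rw [r4, c2_add_int] at this; exact this
  have n2 : c2 (w : ℝ) ≠ 1 := by
    have h1 : c2 ((s 2 : ℝ) / ((24 * j : ℕ) : ℝ)) ≠ 1 := by
      apply not_one_of _ hm
      rintro ⟨q, hq⟩
      have h2 : s 2 = 4 * e + 2 := by linarith
      rw [h2] at hq
      push_cast at hq
      have h5 : (24 * (j : ℤ) * q) = 24 * (j * q) := by ring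
      rw [h5] at hq
      omega
    rw [r2, c2_add_int] at h1; exact h1
  apply same_concl _ _ (same_symm _ _ hS)
  rcases hC with hC | hC | hC
  · exact Or.inr (Or.inl (Sp_ni x y w z hw hsin hn hrel2 n0 n1 n2 n3 n4 (Or.inl hC)))
  · exact Or.inr (Or.inl (Sp_ni x y w z hw hsin hn hrel2 n0 n1 n2 n3 n4 (Or.inr hC)))
  · exact Sp_tab x y w z hw hsin hn hrel2 hC

theorem unit_c2 (m : ℕ) (hm : 0 < m) (ε : ℤˣ) (k : ℤ) :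
    c2 ((((ε : ℤ) * k : ℤ) : ℝ) / m) = c2 ((k : ℝ) / m) := by
  apply gc_c2_congr m hm
  rcases Int.units_eq_one_or ε with rfl | rfl
  · left; simp
  · right; simp

theorem t3_step (j : ℕ) (hj : 0 < j) (s : Fin 6 → ℤ)
    (hl : ¬ (3 : ℤ) ∣ s 0 ∧ ¬ (3 : ℤ) ∣ s 1 ∧ ¬ (3 : ℤ) ∣ s 2)
    (hr : (3 : ℤ) ∣ s 3 ∧ (3 : ℤ) ∣ s 4 ∧ (3 : ℤ) ∣ s 5)
    (ht : ∃ ε₁ ε₂ : ℤˣ, (3 * (9 * j : ℕ) : ℤ) ∣ 3 * ((ε₁ : ℤ) * s 1 - s 0) - (9 * j : ℕ) ∧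
      (3 * (9 * j : ℕ) : ℤ) ∣ 3 * ((ε₂ : ℤ) * s 2 - s 0) + (9 * j : ℕ) ∨
      (3 * (9 * j : ℕ) : ℤ) ∣ 3 * ((ε₁ : ℤ) * s 1 - s 0) + (9 * j : ℕ) ∧
      (3 * (9 * j : ℕ) : ℤ) ∣ 3 * ((ε₂ : ℤ) * s 2 - s 0) - (9 * j : ℕ))
    (hs : Sol (ang (9 * j) s))
    (IH : ∀ t, Sol (ang (3 * j) t) → Concl (ang (3 * j) t)) : Concl (ang (9 * j) s) := by
  have hjQ : (j : ℚ) ≠ 0 := Nat.cast_ne_zero.2 hj.ne'
  have hjR : (j : ℝ) ≠ 0 := Nat.cast_ne_zero.2 hj.ne'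
  have hm : 0 < 9 * j := by omega
  obtain ⟨⟨b0, hb0⟩, ⟨b1, hb1⟩, ⟨b2, hb2⟩⟩ := hr
  obtain ⟨x, hx⟩ : ∃ x : ℚ, x = (s 0 : ℚ) / ((9 * j : ℕ) : ℚ) := ⟨_, rfl⟩
  have r0 : ((s 0 : ℝ) / ((9 * j : ℕ) : ℝ)) = (x : ℝ) := by rw [hx]; push_cast; rfl
  have plus : ∀ (ε : ℤˣ) (k : ℤ), (3 * (9 * j : ℕ) : ℤ) ∣ 3 * ((ε : ℤ) * k - s 0) - (9 * j : ℕ) →
      c2 ((k : ℝ) / ((9 * j : ℕ) : ℝ)) = c2 ((x + 1/3 : ℚ) : ℝ) := by
    rintro ε k ⟨c, hc⟩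
    have h1 : (((ε : ℤ) * k : ℤ) : ℝ) / ((9 * j : ℕ) : ℝ) = ((x + 1/3 : ℚ) : ℝ) + (c : ℤ) := by
      have h2 : (ε : ℤ) * k = s 0 + 3 * j + 9 * j * c := by push_cast at hc; linarith
      rw [h2, hx]; push_cast; field_simp; ring
    rw [← unit_c2 _ hm ε k, h1, c2_add_int]
  have minus : ∀ (ε : ℤˣ) (k : ℤ), (3 * (9 * j : ℕ) : ℤ) ∣ 3 * ((ε : ℤ) * k - s 0) + (9 * j : ℕ) →
      c2 ((k : ℝ) / ((9 * j : ℕ) : ℝ)) = c2 ((x - 1/3 : ℚ) : ℝ) := by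
    rintro ε k ⟨c, hc⟩
    have h1 : (((ε : ℤ) * k : ℤ) : ℝ) / ((9 * j : ℕ) : ℝ) = ((x - 1/3 : ℚ) : ℝ) + (c : ℤ) := by
      have h2 : (ε : ℤ) * k = s 0 - 3 * j + 9 * j * c := by push_cast at hc; linarith
      rw [h2, hx]; push_cast; field_simp; ring
    rw [← unit_c2 _ hm ε k, h1, c2_add_int]
  have h9 : ∀ k : ℤ, ¬ (3 : ℤ) ∣ k → c2 ((k : ℝ) / ((9 * j : ℕ) : ℝ)) ≠ 1 := by
    intro k hk
    apply not_one_of _ hm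
    rintro ⟨c, hc⟩
    apply hk
    push_cast at hc
    exact ⟨j * c, by linarith⟩
  have hS : Same (ang (9 * j) s) ![x, x + 1/3, x - 1/3, (s 3 : ℚ) / ((9 * j : ℕ) : ℚ),
      (s 4 : ℚ) / ((9 * j : ℕ) : ℚ), (s 5 : ℚ) / ((9 * j : ℕ) : ℚ)] ∧
      c2 ((x + 1/3 : ℚ) : ℝ) ≠ 1 ∧ c2 ((x - 1/3 : ℚ) : ℝ) ≠ 1 := by
    obtain ⟨ε₁, ε₂, ⟨h1, h2⟩ | ⟨h1, h2⟩⟩ := ht
    · have p1 := plus _ _ h1
      have p2 := minus _ _ h2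
      refine ⟨?_, by rw [← p1]; exact h9 _ hl.2.1, by rw [← p2]; exact h9 _ hl.2.2⟩
      apply same_of_vals
      intro i
      rw [c2_ang]
      fin_cases i
      · show c2 ((s 0 : ℝ) / ((9 * j : ℕ) : ℝ)) = c2 (x : ℝ)
        rw [r0]
      · exact p1
      · exact p2
      · show c2 ((s 3 : ℝ) / ((9 * j : ℕ) : ℝ)) = c2 (((s 3 : ℚ) / ((9 * j : ℕ) : ℚ) : ℚ) : ℝ)
        push_cast; rfl
      · show c2 ((s 4 : ℝ) / ((9 * j : ℕ) : ℝ)) = c2 (((s 4 : ℚ) / ((9 * j : ℕ) : ℚ) : ℚ) : ℝ)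
        push_cast; rfl
      · show c2 ((s 5 : ℝ) / ((9 * j : ℕ) : ℝ)) = c2 (((s 5 : ℚ) / ((9 * j : ℕ) : ℚ) : ℚ) : ℝ)
        push_cast; rfl
    · have p1 := minus _ _ h1
      have p2 := plus _ _ h2
      refine ⟨?_, by rw [← p2]; exact h9 _ hl.2.2, by rw [← p1]; exact h9 _ hl.2.1⟩
      left
      unfold L3 R3
      simp only [c2_ang]
      constructor
      · show ({c2 ((s 0 : ℝ) / ((9 * j : ℕ) : ℝ)), c2 ((s 1 : ℝ) / ((9 * j : ℕ) : ℝ)),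
          c2 ((s 2 : ℝ) / ((9 * j : ℕ) : ℝ))} : Multiset ℝ) = {c2 (x : ℝ), c2 ((x + 1/3 : ℚ) : ℝ),
          c2 ((x - 1/3 : ℚ) : ℝ)}
        rw [r0, p1, p2, Multiset.pair_comm]
      · show ({c2 ((s 3 : ℝ) / ((9 * j : ℕ) : ℝ)), c2 ((s 4 : ℝ) / ((9 * j : ℕ) : ℝ)),
          c2 ((s 5 : ℝ) / ((9 * j : ℕ) : ℝ))} : Multiset ℝ) =
          {c2 (((s 3 : ℚ) / ((9 * j : ℕ) : ℚ) : ℚ) : ℝ),
          c2 (((s 4 : ℚ) / ((9 * j : ℕ) : ℚ) : ℚ) : ℝ),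
          c2 (((s 5 : ℚ) / ((9 * j : ℕ) : ℚ) : ℚ) : ℝ)}
        push_cast
        rfl
  obtain ⟨hS, n1, n2⟩ := hS
  have n0 : c2 (x : ℝ) ≠ 1 := by rw [← r0]; exact h9 _ hl.1
  have hup := same_sol _ _ hS hs
  have hlow := T3_sol _ _ _ _ hup
  have hL : (![3 * x, 1/3, 1/3, (s 3 : ℚ) / ((9 * j : ℕ) : ℚ),
      (s 4 : ℚ) / ((9 * j : ℕ) : ℚ), (s 5 : ℚ) / ((9 * j : ℕ) : ℚ)] : Fin 6 → ℚ)
      = ang (3 * j) ![s 0, j, j, b0, b1, b2] := by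
    funext i
    unfold ang
    fin_cases i
    · show 3 * x = ((s 0 : ℤ) : ℚ) / ((3 * j : ℕ) : ℚ)
      rw [hx]; push_cast; field_simp; ring
    · show (1/3 : ℚ) = ((j : ℤ) : ℚ) / ((3 * j : ℕ) : ℚ)
      push_cast; field_simp
    · show (1/3 : ℚ) = ((j : ℤ) : ℚ) / ((3 * j : ℕ) : ℚ)
      push_cast; field_simp
    · show (s 3 : ℚ) / ((9 * j : ℕ) : ℚ) = (b0 : ℚ) / ((3 * j : ℕ) : ℚ)
      rw [hb0]; push_cast; field_simp; ring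
    · show (s 4 : ℚ) / ((9 * j : ℕ) : ℚ) = (b1 : ℚ) / ((3 * j : ℕ) : ℚ)
      rw [hb1]; push_cast; field_simp; ring
    · show (s 5 : ℚ) / ((9 * j : ℕ) : ℚ) = (b2 : ℚ) / ((3 * j : ℕ) : ℚ)
      rw [hb2]; push_cast; field_simp; ring
  have hC : Concl ![3 * x, 1/3, 1/3, (s 3 : ℚ) / ((9 * j : ℕ) : ℚ),
      (s 4 : ℚ) / ((9 * j : ℕ) : ℚ), (s 5 : ℚ) / ((9 * j : ℕ) : ℚ)] := by
    rw [hL] at hlow ⊢
    exact IH _ hlow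
  exact same_concl _ _ (same_symm _ _ hS) (T3_concl _ _ _ _ n0 n1 n2 hup hC)

end Pool.Agent.TriCos
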