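import Pool.Agent.Lib_MP_6e4ab6_nt.Full.GaloisA
import Pool.Agent.Lib_MP_6e4ab6_nt.Full.Sym
import Pool.Agent.Lib_MP_6e4ab6_nt.Full.NIlem
import Pool.Agent.Lib_MP_6e4ab6_nt.Full.Short

/-!
# Piece T4, first part: the 2-adic analysis
-/

namespace Pool.Agent.TriCos

namespace T4

open Finset

theorem rt_two (m : ℕ) (k : ℤ) : rt (2 * m) (2 * k) = rt m k :=
  rt_scale m 2 (by norm_num) k

theorem rt_shift (m : ℕ) (k a c : ℤ) (h : k = a + 2 * c) :
    rt (2 * m) k = rt (2 * m) a * rt m c := by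
  rw [h, rt_add, rt_two]

/-- indicator -/
noncomputable def chi (c : Prop) [Decidable c] : ℂ := if c then 1 else 0

theorem ite_chi (c : Prop) [Decidable c] (x : ℂ) : (if c then x else 0) = x * chi c := by
  unfold chi
  split_ifs <;> simp

theorem expand (m Q : ℕ) (s : Fin 6 → ℤ) (h : Graded (2 * m) Q s) (r : ℤ) :
    rt (2 * m) (-s 0 - s 1 - s 2) *
      ((if (Q : ℤ) ∣ s 0 + s 1 + s 2 - r then rt m (s 0) * rt m (s 1) * rt m (s 2) else 0) +
       (if (Q : ℤ) ∣ s 0 + s 1 - s 2 - r then rt m (s 0) * rt m (s 1) else 0) +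
       (if (Q : ℤ) ∣ s 0 - s 1 + s 2 - r then rt m (s 0) * rt m (s 2) else 0) +
       (if (Q : ℤ) ∣ s 0 - s 1 - s 2 - r then rt m (s 0) else 0) +
       (if (Q : ℤ) ∣ -s 0 + s 1 + s 2 - r then rt m (s 1) * rt m (s 2) else 0) +
       (if (Q : ℤ) ∣ -s 0 + s 1 - s 2 - r then rt m (s 1) else 0) +
       (if (Q : ℤ) ∣ -s 0 - s 1 + s 2 - r then rt m (s 2) else 0) +
       (if (Q : ℤ) ∣ -s 0 - s 1 - s 2 - r then 1 else 0)) =
    rt (2 * m) (-s 3 - s 4 - s 5) *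
      ((if (Q : ℤ) ∣ s 3 + s 4 + s 5 - r then rt m (s 3) * rt m (s 4) * rt m (s 5) else 0) +
       (if (Q : ℤ) ∣ s 3 + s 4 - s 5 - r then rt m (s 3) * rt m (s 4) else 0) +
       (if (Q : ℤ) ∣ s 3 - s 4 + s 5 - r then rt m (s 3) * rt m (s 5) else 0) +
       (if (Q : ℤ) ∣ s 3 - s 4 - s 5 - r then rt m (s 3) else 0) +
       (if (Q : ℤ) ∣ -s 3 + s 4 + s 5 - r then rt m (s 4) * rt m (s 5) else 0) +
       (if (Q : ℤ) ∣ -s 3 + s 4 - s 5 - r then rt m (s 4) else 0) +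
       (if (Q : ℤ) ∣ -s 3 - s 4 + s 5 - r then rt m (s 5) else 0) +
       (if (Q : ℤ) ∣ -s 3 - s 4 - s 5 - r then 1 else 0)) := by
  have h1 := h r
  rw [sum_filter] at h1
  simp only [Fin.sum_univ_succ, Fin.sum_univ_zero, dot, sg] at h1
  simp at h1
  have e : ∀ a b c : ℤ,
      rt (2 * m) (a + b + c) = rt (2 * m) (-a - b - c) * (rt m a * rt m b * rt m c) ∧
      rt (2 * m) (a + b - c) = rt (2 * m) (-a - b - c) * (rt m a * rt m b) ∧
      rt (2 * m) (a - b + c) = rt (2 * m) (-a - b - c) * (rt m a * rt m c) ∧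
      rt (2 * m) (a - b - c) = rt (2 * m) (-a - b - c) * (rt m a) ∧
      rt (2 * m) (-a + b + c) = rt (2 * m) (-a - b - c) * (rt m b * rt m c) ∧
      rt (2 * m) (-a + b - c) = rt (2 * m) (-a - b - c) * (rt m b) ∧
      rt (2 * m) (-a - b + c) = rt (2 * m) (-a - b - c) * (rt m c) := by
    intro a b c
    refine ⟨?_, ?_, ?_, ?_, ?_, ?_, ?_⟩
    · rw [← rt_add, ← rt_add]; exact rt_shift m _ _ _ (by ring)
    · rw [← rt_add]; exact rt_shift m _ _ _ (by ring)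
    · rw [← rt_add]; exact rt_shift m _ _ _ (by ring)
    · exact rt_shift m _ _ _ (by ring)
    · rw [← rt_add]; exact rt_shift m _ _ _ (by ring)
    · exact rt_shift m _ _ _ (by ring)
    · exact rt_shift m _ _ _ (by ring)
  obtain ⟨l1, l2, l3, l4, l5, l6, l7⟩ := e (s 0) (s 1) (s 2)
  obtain ⟨r1, r2, r3, r4, r5, r6, r7⟩ := e (s 3) (s 4) (s 5)
  rw [l1, l2, l3, l4, l5, l6, l7, r1, r2, r3, r4, r5, r6, r7] at h1
  simp only [ite_chi] at h1 ⊢
  linear_combination h1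

theorem one_add_ne (m : ℕ) (s : Fin 6 → ℤ) (hnd : ND (2 * m) s) (i : Fin 6) :
    1 + rt m (s i) ≠ 0 := by
  intro h
  apply hnd i
  have h1 : rt (2 * m) (s i) = rt (2 * m) (-s i) * rt m (s i) :=
    rt_shift m _ _ _ (by ring)
  rw [h1]
  linear_combination rt (2 * m) (-s i) * h

theorem graded_pow (m Q c : ℕ) (hm : 0 < m) (hQ : Q = 2 ∨ Q = 4 ∨ Q = 8)
    (hc : 2 * m = Q * (2 * c)) (s : Fin 6 → ℤ) (hrel : Rel (2 * m) s) : Graded (2 * m) Q s := by
  have hQ0 : 0 < Q := by omega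
  have hdiv : 2 * m / Q = 2 * c := by
    rw [hc]; exact Nat.mul_div_cancel_left _ hQ0
  intro r
  refine class_sum univ (2 * m) Q (by omega) ⟨2 * c, hc⟩ ?_ sg (fun μ => dot μ s) hrel r
  intro p hp hpN
  rw [hdiv]
  rw [hc] at hpN
  rcases (Nat.Prime.dvd_mul hp).1 hpN with h | h
  · have h2 : p ∣ 2 := by
      have : Q ∣ 2 ^ 3 := by rcases hQ with rfl | rfl | rfl <;> norm_num
      exact Nat.Prime.dvd_of_dvd_pow hp (h.trans this)
    exact h2.trans ⟨c, rfl⟩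
  · exact h

theorem not_third_odd (m : ℕ) (h4 : 4 ∣ m) (k : ℤ) (hk : k % 2 = 1) : ¬ Third (2 * m) k := by
  rintro ⟨h, _⟩
  obtain ⟨c, rfl⟩ := h4
  have : (8 : ℤ) ∣ 6 * k := Dvd.dvd.trans ⟨c, by push_cast; ring⟩ h
  omega

theorem not_third_two (m : ℕ) (h8 : 8 ∣ m) (k : ℤ) (hk : k % 4 = 2) : ¬ Third (2 * m) k := by
  rintro ⟨h, _⟩
  obtain ⟨c, rfl⟩ := h8
  have : (16 : ℤ) ∣ 6 * k := Dvd.dvd.trans ⟨c, by push_cast; ring⟩ h
  omega

theorem cast_ang (m : ℕ) (s : Fin 6 → ℤ) (i : Fin 6) :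
    ((ang m s i : ℚ) : ℝ) = (s i : ℝ) / m := by
  unfold ang
  push_cast
  rfl

theorem c2_of_rt (m : ℕ) (hm : 0 < m) (k l : ℤ) (h : rt m k = rt m l ∨ rt m k * rt m l = 1) :
    c2 ((k : ℝ) / m) = c2 ((l : ℝ) / m) := by
  rw [c2_eq_iff m hm]
  rcases h with h | h
  · left; exact (rt_eq_iff m hm k l).1 h
  · right
    rw [← rt_add] at h
    exact (rt_eq_one_iff m hm _).1 h

theorem common (m : ℕ) (hm : 0 < m) (s : Fin 6 → ℤ) (hrel : Rel (2 * m) s)
    (hnd : ND (2 * m) s) (i j : Fin 6) (hi : i.val < 3) (hj : 3 ≤ j.val)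
    (h : rt m (s i) = rt m (s j) ∨ rt m (s i) * rt m (s j) = 1)
    (hT : ¬ Third (2 * m) (s i)) : NI (ang m s) := by
  refine ni_of_common _ (sol_of_rel m hm s hrel hnd) i j hi hj ?_ ?_
  · rw [cast_ang, cast_ang]
    exact c2_of_rt m hm _ _ h
  · rw [cast_ang, Ne, c2_eq_one_iff m hm]
    exact hT

theorem rt_eq_neg_one (m : ℕ) (hm : 0 < m) (k : ℤ) (h : rt m k = -1) :
    (2 * m : ℤ) ∣ 2 * k - m := by
  rw [← rt_two, ← rt_half m hm] at h
  have := (rt_eq_iff (2 * m) (by omega) _ _).1 h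
  exact_mod_cast this

theorem Same.refl (a : Fin 6 → ℚ) : Same a a := Or.inl ⟨rfl, rfl⟩

theorem Same.symm' {a b : Fin 6 → ℚ} (h : Same a b) : Same b a := by
  rcases h with ⟨h1, h2⟩ | ⟨h1, h2⟩
  · exact Or.inl ⟨h1.symm, h2.symm⟩
  · exact Or.inr ⟨h2.symm, h1.symm⟩

theorem Same.trans' {a b c : Fin 6 → ℚ} (h : Same a b) (h' : Same b c) : Same a c := by
  rcases h with ⟨h1, h2⟩ | ⟨h1, h2⟩ <;> rcases h' with ⟨h3, h4⟩ | ⟨h3, h4⟩
  · exact Or.inl ⟨h1.trans h3, h2.trans h4⟩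
  · exact Or.inr ⟨h1.trans h3, h2.trans h4⟩
  · exact Or.inr ⟨h1.trans h4, h2.trans h3⟩
  · exact Or.inl ⟨h1.trans h4, h2.trans h3⟩

/-- rotation of the left side `(s₀,s₁,s₂) ↦ (s₁,s₂,s₀)` -/
def rotL : Equiv.Perm (Fin 6) := ⟨![1, 2, 0, 3, 4, 5], ![2, 0, 1, 3, 4, 5], by decide, by decide⟩

/-- rotation of the right side -/
def rotR : Equiv.Perm (Fin 6) := ⟨![0, 1, 2, 4, 5, 3], ![0, 1, 2, 5, 3, 4], by decide, by decide⟩

/-- exchange of the sides -/
def exch : Equiv.Perm (Fin 6) := ⟨![3, 4, 5, 0, 1, 2], ![3, 4, 5, 0, 1, 2], by decide, by decide⟩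

theorem rotL_SP : SP rotL := by unfold SP; decide
theorem rotR_SP : SP rotR := by unfold SP; decide
theorem exch_SW : SW exch := by unfold SW; decide
theorem one_SP : SP 1 := fun _ => Iff.rfl

theorem parity (m : ℕ) (hm : 0 < m) (h4 : 4 ∣ m) (s : Fin 6 → ℤ) (hrel : Rel (2 * m) s)
    (hnd : ND (2 * m) s) : (s 0 + s 1 + s 2 - s 3 - s 4 - s 5) % 2 = 0 := by
  by_contra hcon
  obtain ⟨c, hc⟩ := h4
  have hG := graded_pow m 2 (2 * c) hm (by norm_num) (by omega) s hrel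
  have h1 := expand m 2 s hG (s 0 + s 1 + s 2)
  simp (disch := (push_cast; omega)) only [if_pos, if_neg] at h1
  have e : rt (2 * m) (-s 0 - s 1 - s 2) *
      ((1 + rt m (s 0)) * (1 + rt m (s 1)) * (1 + rt m (s 2))) = 0 := by
    linear_combination h1
  have h0 := one_add_ne m s hnd 0
  have h1' := one_add_ne m s hnd 1
  have h2 := one_add_ne m s hnd 2
  have h3 := rt_ne_zero (2 * m) (-s 0 - s 1 - s 2)
  simp [h0, h1', h2, h3] at e

theorem low11 (m : ℕ) (hm : 0 < m) (h4 : 4 ∣ m) (s : Fin 6 → ℤ) (hrel : Rel (2 * m) s)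
    (hnd : ND (2 * m) s) (h0 : s 0 % 2 = 0) (h1 : s 1 % 2 = 0) (h2 : s 2 % 2 = 1)
    (h3 : s 3 % 2 = 0) (h4' : s 4 % 2 = 0) (h5 : s 5 % 2 = 1) : NI (ang m s) := by
  obtain ⟨c, hc⟩ := id h4
  have hG := graded_pow m 4 c hm (by norm_num) (by omega) s hrel
  have hT := not_third_odd m h4 (s 2) h2
  have n0 := one_add_ne m s hnd 0
  have n1 := one_add_ne m s hnd 1
  have n2 := rt_ne_zero m (s 2)
  have n3 := one_add_ne m s hnd 3
  have n4 := one_add_ne m s hnd 4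
  have n5 := rt_ne_zero m (s 5)
  have na := rt_ne_zero (2 * m) (-s 0 - s 1 - s 2)
  have nb := rt_ne_zero (2 * m) (-s 3 - s 4 - s 5)
  have e0 := expand m 4 s hG (-s 0 - s 1 - s 2)
  have e1 := expand m 4 s hG (-s 0 - s 1 - s 2 + 2)
  have hd : (s 0 + s 1 + s 2 - s 3 - s 4 - s 5) % 4 = 0 ∨
      (s 0 + s 1 + s 2 - s 3 - s 4 - s 5) % 4 = 2 := by omega
  refine common m hm s hrel hnd 2 5 (by decide) (by decide) ?_ hT
  rcases hd with hd | hd
  · simp (disch := (push_cast; omega)) only [if_pos, if_neg] at e0 e1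
    left
    have f0 : rt (2 * m) (-s 0 - s 1 - s 2) * ((1 + rt m (s 0)) * (1 + rt m (s 1))) =
        rt (2 * m) (-s 3 - s 4 - s 5) * ((1 + rt m (s 3)) * (1 + rt m (s 4))) := by
      linear_combination e0
    have f1 : (rt (2 * m) (-s 3 - s 4 - s 5) * ((1 + rt m (s 3)) * (1 + rt m (s 4)))) *
        (rt m (s 2) - rt m (s 5)) = 0 := by
      linear_combination e1 - rt m (s 2) * f0
    have n : rt (2 * m) (-s 3 - s 4 - s 5) * ((1 + rt m (s 3)) * (1 + rt m (s 4))) ≠ 0 :=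
      mul_ne_zero nb (mul_ne_zero n3 n4)
    exact sub_eq_zero.1 ((mul_eq_zero.1 f1).resolve_left n)
  · simp (disch := (push_cast; omega)) only [if_pos, if_neg] at e0 e1
    right
    have f0 : rt (2 * m) (-s 0 - s 1 - s 2) * ((1 + rt m (s 0)) * (1 + rt m (s 1))) =
        rt (2 * m) (-s 3 - s 4 - s 5) * (rt m (s 5) * ((1 + rt m (s 3)) * (1 + rt m (s 4)))) := by
      linear_combination e0
    have f1 : (rt (2 * m) (-s 3 - s 4 - s 5) * ((1 + rt m (s 3)) * (1 + rt m (s 4)))) *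
        (rt m (s 2) * rt m (s 5) - 1) = 0 := by
      linear_combination e1 - rt m (s 2) * f0
    have n : rt (2 * m) (-s 3 - s 4 - s 5) * ((1 + rt m (s 3)) * (1 + rt m (s 4))) ≠ 0 :=
      mul_ne_zero nb (mul_ne_zero n3 n4)
    exact sub_eq_zero.1 ((mul_eq_zero.1 f1).resolve_left n)

theorem low20 (m : ℕ) (hm : 0 < m) (h4 : 4 ∣ m) (s : Fin 6 → ℤ) (hrel : Rel (2 * m) s)
    (hnd : ND (2 * m) s) (h0 : s 0 % 2 = 0) (h1 : s 1 % 2 = 1) (h2 : s 2 % 2 = 1)
    (h3 : s 3 % 2 = 0) (h4' : s 4 % 2 = 0) (h5 : s 5 % 2 = 0) :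
    ∃ s', Same (ang m s) (ang m s') ∧ M20 m s' := by
  obtain ⟨c, hc⟩ := id h4
  have hG := graded_pow m 4 c hm (by norm_num) (by omega) s hrel
  have n0 := one_add_ne m s hnd 0
  have na := rt_ne_zero (2 * m) (-s 0 - s 1 - s 2)
  have e0 := expand m 4 s hG (-s 0 - s 1 - s 2)
  have e1 := expand m 4 s hG (-s 0 - s 1 - s 2 + 2)
  have hd : (s 0 + s 1 + s 2 - s 3 - s 4 - s 5) % 4 = 0 ∨
      (s 0 + s 1 + s 2 - s 3 - s 4 - s 5) % 4 = 2 := by omega
  have key : rt m (s 2 - s 1) = -1 ∨ rt m (s 2 + s 1) = -1 := by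
    rcases hd with hd | hd
    · left
      simp (disch := (push_cast; omega)) only [if_pos, if_neg] at e0 e1
      have f1 : rt (2 * m) (-s 0 - s 1 - s 2) * (1 + rt m (s 0)) * (rt m (s 1) + rt m (s 2))
          = 0 := by linear_combination e1
      have f2 : rt m (s 1) + rt m (s 2) = 0 := by
        rcases mul_eq_zero.1 f1 with h | h
        · exact absurd h (mul_ne_zero na n0)
        · exact h
      rw [rt_sub, div_eq_iff (rt_ne_zero _ _)]
      linear_combination f2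
    · right
      simp (disch := (push_cast; omega)) only [if_pos, if_neg] at e0 e1
      have f1 : rt (2 * m) (-s 0 - s 1 - s 2) * (1 + rt m (s 0)) *
          (1 + rt m (s 1) * rt m (s 2)) = 0 := by linear_combination e0
      have f2 : 1 + rt m (s 1) * rt m (s 2) = 0 := by
        rcases mul_eq_zero.1 f1 with h | h
        · exact absurd h (mul_ne_zero na n0)
        · exact h
      rw [rt_add]
      linear_combination f2
  rcases key with key | key
  · refine ⟨sact rotL 1 s, same_sact m rotL 1 (Or.inl rotL_SP) s, ?_⟩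
    have := rt_eq_neg_one m hm _ key
    refine ⟨?_, ?_, ?_, ?_, ?_, ?_, ?_⟩
    · simpa [sact, rotL] using this
    all_goals
      simp [sact, rotL, Int.odd_iff, Int.even_iff]
      omega
  · refine ⟨sact rotL ![-1, 1, 1, 1, 1, 1] s, same_sact m rotL _ (Or.inl rotL_SP) s, ?_⟩
    have := rt_eq_neg_one m hm _ key
    refine ⟨?_, ?_, ?_, ?_, ?_, ?_, ?_⟩
    · simpa [sact, rotL, sub_neg_eq_add] using this
    all_goals
      simp [sact, rotL, Int.odd_iff, Int.even_iff]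
      omega

theorem oddType_sact_iff (σ : Equiv.Perm (Fin 6)) (ε : Fin 6 → ℤˣ) (hσ : SP σ)
    (s : Fin 6 → ℤ) : OddType (sact σ ε s) ↔ OddType s := by
  have hodd : ∀ i, Odd (sact σ ε s i) ↔ Odd (s (σ i)) := by
    intro i
    unfold sact
    rcases Int.units_eq_one_or (ε i) with h | h <;> simp [h]
  have hl : (univ.filter (fun i : Fin 6 => i.val < 3 ∧ Odd (sact σ ε s i))).card =
      (univ.filter (fun i : Fin 6 => i.val < 3 ∧ Odd (s i))).card := by
    refine card_bij (fun i _ => σ i) ?_ ?_ ?_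
    · intro i hi
      simp only [mem_filter, mem_univ, true_and] at hi ⊢
      exact ⟨(hσ i).1 hi.1, (hodd i).1 hi.2⟩
    · intro i _ j _ hij
      exact σ.injective hij
    · intro j hj
      simp only [mem_filter, mem_univ, true_and] at hj
      refine ⟨σ.symm j, ?_, by simp⟩
      simp only [mem_filter, mem_univ, true_and]
      have h1 := hσ (σ.symm j)
      have h2 := hodd (σ.symm j)
      rw [Equiv.apply_symm_apply] at h1 h2
      exact ⟨h1.2 hj.1, h2.2 hj.2⟩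
  have hr : (univ.filter (fun i : Fin 6 => 3 ≤ i.val ∧ Odd (sact σ ε s i))).card =
      (univ.filter (fun i : Fin 6 => 3 ≤ i.val ∧ Odd (s i))).card := by
    refine card_bij (fun i _ => σ i) ?_ ?_ ?_
    · intro i hi
      simp only [mem_filter, mem_univ, true_and] at hi ⊢
      have h1 := hσ i
      exact ⟨by omega, (hodd i).1 hi.2⟩
    · intro i _ j _ hij
      exact σ.injective hij
    · intro j hj
      simp only [mem_filter, mem_univ, true_and] at hj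
      refine ⟨σ.symm j, ?_, by simp⟩
      simp only [mem_filter, mem_univ, true_and]
      have h1 := hσ (σ.symm j)
      have h2 := hodd (σ.symm j)
      rw [Equiv.apply_symm_apply] at h1 h2
      exact ⟨by omega, h2.2 hj.2⟩
  unfold OddType
  rw [hl, hr]

theorem oddType_sact (σ : Equiv.Perm (Fin 6)) (ε : Fin 6 → ℤˣ) (hσ : SP σ) (s : Fin 6 → ℤ)
    (h : OddType (sact σ ε s)) : OddType s := (oddType_sact_iff σ ε hσ s).1 h

theorem oddType_sact' (σ : Equiv.Perm (Fin 6)) (ε : Fin 6 → ℤˣ) (hσ : SP σ) (s : Fin 6 → ℤ)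
    (h : OddType s) : OddType (sact σ ε s) := (oddType_sact_iff σ ε hσ s).2 h

theorem oddType_iff (s : Fin 6 → ℤ) :
    OddType s ↔
      let l := (s 0 % 2) + (s 1 % 2) + (s 2 % 2)
      let r := (s 3 % 2) + (s 4 % 2) + (s 5 % 2)
      (l = 2 ∧ r = 2) ∨ (l = 3 ∧ r = 1) ∨ (l = 1 ∧ r = 3) ∨ (l = 3 ∧ r = 3) := by
  have hc : ∀ k : ℤ, ((if Odd k then 1 else 0 : ℕ) : ℤ) = k % 2 := by
    intro k
    by_cases h : Odd k
    · rw [if_pos h, Int.odd_iff.1 h]; rfl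
    · rw [if_neg h]
      rw [Int.not_odd_iff_even, Int.even_iff] at h
      rw [h]; rfl
  have hl : ((univ.filter (fun i : Fin 6 => i.val < 3 ∧ Odd (s i))).card : ℤ) =
      (s 0 % 2) + (s 1 % 2) + (s 2 % 2) := by
    rw [card_filter, ← hc, ← hc, ← hc]
    rw [Fin.sum_univ_six]
    simp [-Finset.sum_boole]
  have hr : ((univ.filter (fun i : Fin 6 => 3 ≤ i.val ∧ Odd (s i))).card : ℤ) =
      (s 3 % 2) + (s 4 % 2) + (s 5 % 2) := by
    rw [card_filter, ← hc, ← hc, ← hc]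
    rw [Fin.sum_univ_six]
    simp [-Finset.sum_boole]
  unfold OddType
  simp only
  rw [← hl, ← hr]
  norm_cast

/-! ### high part: `8 ∣ m` -/

def Goal (m : ℕ) (s : Fin 6 → ℤ) : Prop :=
  Triv (ang m s) ∨ NI (ang m s) ∨ ∃ s', Same (ang m s) (ang m s') ∧ (M22 m s' ∨ (Rel (2 * m) s' ∧ Spc m s'))

theorem goal_of_same (m : ℕ) (s t : Fin 6 → ℤ) (h : Same (ang m s) (ang m t)) (hg : Goal m t) :
    Goal m s := by
  rcases hg with hg | hg | ⟨s', h1, h2⟩
  · left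
    unfold Triv at hg ⊢
    rcases h with ⟨h1, h2⟩ | ⟨h1, h2⟩
    · rw [h1, h2]; exact hg
    · rw [h1, h2]; exact hg.symm
  · right; left; exact same_ni _ _ (Same.symm' h) hg
  · right; right; exact ⟨s', Same.trans' h h1, h2⟩

theorem c2_line (m : ℕ) (s : Fin 6 → ℤ) (i : Fin 6) (v : ℤ) (θ : ℝ) :
    c2 ((ang m s i : ℝ) + v * θ) =
      Complex.normSq (1 + rt m (s i) * (Complex.exp (2 * Real.pi * Complex.I * θ)) ^ v) := by
  rw [c2_eq_normSq, cast_ang]
  congr 2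
  unfold rt
  rw [← Complex.exp_int_mul, ← Complex.exp_add]
  congr 1
  push_cast
  ring

theorem ni_of (m : ℕ) (hm : 0 < m) (s v : Fin 6 → ℤ) (hv : v ≠ 0)
    (hT : ∀ i, v i = 0 ∨ ¬ Third (2 * m) (s i))
    (h : ∀ z : ℂ, ‖z‖ = 1 →
      ‖(1 + rt m (s 0) * z ^ v 0) * (1 + rt m (s 1) * z ^ v 1) * (1 + rt m (s 2) * z ^ v 2)‖ =
      ‖(1 + rt m (s 3) * z ^ v 3) * (1 + rt m (s 4) * z ^ v 4) * (1 + rt m (s 5) * z ^ v 5)‖) :
    NI (ang m s) := by
  refine ⟨v, hv, ?_, ?_⟩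
  · intro i hi
    rcases hT i with h | h
    · exact h
    · rw [cast_ang, c2_eq_one_iff m hm] at hi
      exact absurd hi h
  · intro θ
    simp only [c2_line]
    rw [← map_mul, ← map_mul, ← map_mul, ← map_mul, Complex.normSq_eq_norm_sq,
      Complex.normSq_eq_norm_sq]
    rw [h]
    rw [show (2 * Real.pi * Complex.I * θ : ℂ) = ((2 * Real.pi * θ : ℝ) : ℂ) * Complex.I by
      push_cast; ring]
    exact Complex.norm_exp_ofReal_mul_I _

theorem rt_sq (m : ℕ) (k : ℤ) : rt (2 * m) k ^ 2 = rt m k := by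
  rw [sq, ← rt_add, ← two_mul, rt_two]

/-- both sides rotated -/
def rotB : Equiv.Perm (Fin 6) := ⟨![1, 2, 0, 4, 5, 3], ![2, 0, 1, 5, 3, 4], by decide, by decide⟩

theorem rotB_SP : SP rotB := by unfold SP; decide

theorem opp_dvd (m : ℕ) (hm : 0 < m) (k l : ℤ) (h : rt m l + rt m k = 0) :
    (2 * m : ℤ) ∣ 2 * (k - l) - m := by
  refine rt_eq_neg_one m hm _ ?_
  rw [rt_sub, div_eq_iff (rt_ne_zero _ _)]
  linear_combination h

theorem H1 (m : ℕ) (hm : 0 < m) (h8 : 8 ∣ m) (s : Fin 6 → ℤ) (hrel : Rel (2 * m) s)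
    (hnd : ND (2 * m) s) (w0 : s 0 % 4 = 0) (w1 : s 1 % 4 = 1) (w2 : s 2 % 4 = 1)
    (w3 : s 3 % 4 = 0) (w4 : s 4 % 4 = 1) (w5 : s 5 % 4 = 1)
    (hd : (s 0 + s 1 + s 2 - s 3 - s 4 - s 5) % 8 = 0 ∨
      (s 0 + s 1 + s 2 - s 3 - s 4 - s 5) % 8 = 4) : Goal m s := by
  obtain ⟨c, hc⟩ := id h8
  have hG := graded_pow m 8 c hm (by norm_num) (by omega) s hrel
  have hT := not_third_odd m (Dvd.dvd.trans (by norm_num) h8) (s 1) (by omega)
  have n0 := one_add_ne m s hnd 0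
  have n3 := one_add_ne m s hnd 3
  have na := rt_ne_zero (2 * m) (-s 0 - s 1 - s 2)
  have nb := rt_ne_zero (2 * m) (-s 3 - s 4 - s 5)
  have e0 := expand m 8 s hG (-s 0 - s 1 - s 2)
  have e1 := expand m 8 s hG (-s 0 - s 1 - s 2 + 2)
  have e2 := expand m 8 s hG (-s 0 - s 1 - s 2 + 4)
  have e3 := expand m 8 s hG (-s 0 - s 1 - s 2 + 6)
  rcases hd with hd | hd
  · simp (disch := (push_cast; omega)) only [if_pos, if_neg] at e0 e1 e2 e3
    have n : rt (2 * m) (-s 3 - s 4 - s 5) * (1 + rt m (s 3)) ≠ 0 := mul_ne_zero nb n3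
    have f0 : rt (2 * m) (-s 0 - s 1 - s 2) * (1 + rt m (s 0)) =
        rt (2 * m) (-s 3 - s 4 - s 5) * (1 + rt m (s 3)) := by linear_combination e0
    have f1 : rt m (s 1) + rt m (s 2) = rt m (s 4) + rt m (s 5) := by
      apply mul_left_cancel₀ n
      linear_combination e1 - (rt m (s 1) + rt m (s 2)) * f0
    have f2 : rt m (s 1) * rt m (s 2) = rt m (s 4) * rt m (s 5) := by
      apply mul_left_cancel₀ n
      linear_combination e2 - (rt m (s 1) * rt m (s 2)) * f0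
    have f3 : (rt m (s 1) - rt m (s 4)) * (rt m (s 1) - rt m (s 5)) = 0 := by
      linear_combination rt m (s 1) * f1 - f2
    right; left
    rcases mul_eq_zero.1 f3 with h | h
    · exact common m hm s hrel hnd 1 4 (by decide) (by decide) (Or.inl (sub_eq_zero.1 h)) hT
    · exact common m hm s hrel hnd 1 5 (by decide) (by decide) (Or.inl (sub_eq_zero.1 h)) hT
  · simp (disch := (push_cast; omega)) only [if_pos, if_neg] at e0 e1 e2 e3
    have na' : rt (2 * m) (-s 0 - s 1 - s 2) * (1 + rt m (s 0)) ≠ 0 := mul_ne_zero na n0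
    have nb' : rt (2 * m) (-s 3 - s 4 - s 5) * (1 + rt m (s 3)) ≠ 0 := mul_ne_zero nb n3
    have f1 : rt m (s 1) + rt m (s 2) = 0 := by
      apply mul_left_cancel₀ na'
      linear_combination e1
    have f2 : rt m (s 4) + rt m (s 5) = 0 := by
      apply mul_left_cancel₀ nb'
      linear_combination -e3
    right; right
    refine ⟨sact rotB 1 s, same_sact m rotB 1 (Or.inl rotB_SP) s, Or.inl ?_⟩
    have g1 := opp_dvd m hm _ _ f1
    have g2 := opp_dvd m hm _ _ f2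
    refine ⟨?_, ?_, ?_, ?_, ?_, ?_, ?_, ?_⟩
    · simpa [sact, rotB] using g1
    · simpa [sact, rotB] using g2
    all_goals
      simp [sact, rotB, Int.odd_iff, Int.even_iff]
      omega

theorem H2 (m : ℕ) (hm : 0 < m) (h8 : 8 ∣ m) (s : Fin 6 → ℤ) (hrel : Rel (2 * m) s)
    (hnd : ND (2 * m) s) (w0 : s 0 % 4 = 1) (w1 : s 1 % 4 = 1) (w2 : s 2 % 4 = 2)
    (w3 : s 3 % 4 = 1) (w4 : s 4 % 4 = 1) (w5 : s 5 % 4 = 2)
    (hd : (s 0 + s 1 + s 2 - s 3 - s 4 - s 5) % 8 = 0 ∨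
      (s 0 + s 1 + s 2 - s 3 - s 4 - s 5) % 8 = 4) : Goal m s := by
  obtain ⟨c, hc⟩ := id h8
  have hG := graded_pow m 8 c hm (by norm_num) (by omega) s hrel
  have hT := not_third_two m h8 (s 2) w2
  have na := rt_ne_zero (2 * m) (-s 0 - s 1 - s 2)
  have nb := rt_ne_zero (2 * m) (-s 3 - s 4 - s 5)
  have e1 := expand m 8 s hG (-s 0 - s 1 - s 2 + 2)
  have e3 := expand m 8 s hG (-s 0 - s 1 - s 2 + 6)
  have key : (rt m (s 3) + rt m (s 4) = 0 ∧ rt m (s 0) + rt m (s 1) = 0) ∨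
      (rt m (s 2) = rt m (s 5) ∨ rt m (s 2) * rt m (s 5) = 1) := by
    by_cases hy : rt m (s 3) + rt m (s 4) = 0
    · left
      refine ⟨hy, ?_⟩
      apply mul_left_cancel₀ na
      rcases hd with hd | hd
      · simp (disch := (push_cast; omega)) only [if_pos, if_neg] at e1 e3
        linear_combination e1 + rt (2 * m) (-s 3 - s 4 - s 5) * hy
      · simp (disch := (push_cast; omega)) only [if_pos, if_neg] at e1 e3
        linear_combination e1 + rt (2 * m) (-s 3 - s 4 - s 5) * rt m (s 5) * hy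
    · right
      have nb' : rt (2 * m) (-s 3 - s 4 - s 5) * (rt m (s 3) + rt m (s 4)) ≠ 0 :=
        mul_ne_zero nb hy
      rcases hd with hd | hd
      · left
        simp (disch := (push_cast; omega)) only [if_pos, if_neg] at e1 e3
        apply mul_left_cancel₀ nb'
        linear_combination e3 - rt m (s 2) * e1
      · right
        simp (disch := (push_cast; omega)) only [if_pos, if_neg] at e1 e3
        apply mul_left_cancel₀ nb'
        linear_combination e3 - rt m (s 2) * e1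
  rcases key with ⟨k1, k2⟩ | k
  · right; right
    refine ⟨s, Same.refl _, Or.inl ?_⟩
    have g1 := opp_dvd m hm _ _ k2
    have g2 := opp_dvd m hm _ _ k1
    refine ⟨g1, g2, ?_, ?_, ?_, ?_, ?_, ?_⟩
    all_goals
      simp only [Int.odd_iff, Int.even_iff]
      omega
  · right; left
    exact common m hm s hrel hnd 2 5 (by decide) (by decide) k hT

theorem H3a (m : ℕ) (hm : 0 < m) (h8 : 8 ∣ m) (s : Fin 6 → ℤ) (hrel : Rel (2 * m) s)
    (hnd : ND (2 * m) s) (w0 : s 0 % 4 = 1) (w1 : s 1 % 4 = 1) (w2 : s 2 % 4 = 2)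
    (w3 : s 3 % 4 = 0) (w4 : s 4 % 4 = 1) (w5 : s 5 % 4 = 1)
    (hd : (s 0 + s 1 + s 2 - s 3 - s 4 - s 5) % 8 = 2) : Goal m s := by
  obtain ⟨c, hc⟩ := id h8
  have hG := graded_pow m 8 c hm (by norm_num) (by omega) s hrel
  have na := rt_ne_zero (2 * m) (-s 0 - s 1 - s 2)
  have nb := rt_ne_zero (2 * m) (-s 3 - s 4 - s 5)
  have n3 := one_add_ne m s hnd 3
  have r3 := rt_ne_zero m (s 3)
  have r0 := rt_ne_zero m (s 0)
  have r1 := rt_ne_zero m (s 1)
  have r2 := rt_ne_zero m (s 2)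
  have r4 := rt_ne_zero m (s 4)
  have r5 := rt_ne_zero m (s 5)
  have e0 := expand m 8 s hG (-s 0 - s 1 - s 2)
  have e1 := expand m 8 s hG (-s 0 - s 1 - s 2 + 2)
  have e3 := expand m 8 s hG (-s 0 - s 1 - s 2 + 6)
  simp (disch := (push_cast; omega)) only [if_pos, if_neg] at e0 e1 e3
  have f0 : rt m (s 0) * rt m (s 1) * rt m (s 2) = -1 := by
    apply mul_left_cancel₀ na
    linear_combination e0
  have f1 : rt (2 * m) (-s 0 - s 1 - s 2) * (rt m (s 0) + rt m (s 1)) =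
      rt (2 * m) (-s 3 - s 4 - s 5) * (1 + rt m (s 3)) := by linear_combination e1
  have f2 : rt m (s 2) = rt m (s 4) * rt m (s 5) := by
    apply mul_left_cancel₀ (mul_ne_zero nb n3)
    linear_combination e3 - rt m (s 2) * f1
  have qa : rt (2 * m) (-s 0 - s 1 - s 2) ^ 2 = -1 := by
    rw [rt_sq, show -s 0 - s 1 - s 2 = -(s 0 + s 1 + s 2) by ring, rt_neg, rt_add, rt_add, f0]
    norm_num
  have qb : rt (2 * m) (-s 3 - s 4 - s 5) ^ 2 * (rt m (s 3) * rt m (s 2)) = 1 := by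
    rw [f2, rt_sq, ← rt_add, ← rt_add, ← rt_add]
    rw [show -s 3 - s 4 - s 5 + (s 3 + (s 4 + s 5)) = 0 by ring, rt_zero]
  have f3 : (rt m (s 0) + rt m (s 1)) ^ 2 * rt m (s 3) =
      rt m (s 0) * rt m (s 1) * (1 + rt m (s 3)) ^ 2 := by
    have h2 : rt (2 * m) (-s 0 - s 1 - s 2) ^ 2 * (rt m (s 0) + rt m (s 1)) ^ 2 =
        rt (2 * m) (-s 3 - s 4 - s 5) ^ 2 * (1 + rt m (s 3)) ^ 2 := by
      rw [← mul_pow, ← mul_pow, f1]
    rw [qa] at h2
    apply mul_left_cancel₀ r2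
    linear_combination (-rt m (s 2) * rt m (s 3)) * h2 - (1 + rt m (s 3)) ^ 2 * f0
      - (1 + rt m (s 3)) ^ 2 * qb
  have f4 : (rt m (s 3) * rt m (s 1) - rt m (s 0)) * (rt m (s 3) * rt m (s 0) - rt m (s 1)) = 0 := by
    linear_combination -f3
  have g0 : (2 * m : ℤ) ∣ 2 * (s 0 + s 1 + s 2) - m := by
    apply rt_eq_neg_one m hm
    rw [rt_add, rt_add, f0]
  have g1 : (m : ℤ) ∣ s 4 + s 5 - s 2 := by
    rw [← rt_eq_iff m hm, rt_add, f2]
  have hx : rt m (s 0) + rt m (s 1) ≠ 0 := by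
    intro h
    rw [h, mul_zero] at f1
    exact mul_ne_zero nb n3 f1.symm
  have hR : rt (2 * m) (-s 3 - s 4 - s 5) = rt (2 * m) (-s 0 - s 1 - s 2) *
      rt (2 * m) (s 0 + s 1 + s 2 - s 3 - s 4 - s 5) := by
    rw [← rt_add]; congr 1; ring
  have f5 : rt m (s 0) + rt m (s 1) =
      rt (2 * m) (s 0 + s 1 + s 2 - s 3 - s 4 - s 5) * (1 + rt m (s 3)) := by
    apply mul_left_cancel₀ na
    rw [f1, hR]; ring
  right; right
  rcases mul_eq_zero.1 f4 with h | h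
  · refine ⟨sact rotR 1 s, same_sact m rotR 1 (Or.inl rotR_SP) s, Or.inr
      ⟨(rel_sact _ rotR 1 (Or.inl rotR_SP) s).2 hrel, ?_⟩⟩
    have g2 : (m : ℤ) ∣ s 3 - (s 0 - s 1) := by
      rw [← rt_eq_iff m hm, rt_sub, eq_div_iff r1]
      linear_combination h
    have g3 : (2 * m : ℤ) ∣ s 4 + s 5 - s 2 + s 3 - s 0 + s 1 := by
      have : rt (2 * m) (s 0 + s 1 + s 2 - s 3 - s 4 - s 5) = rt (2 * m) (2 * s 1) := by
        rw [rt_two]
        apply mul_right_cancel₀ hx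
        linear_combination -rt m (s 1) * f5 -
          rt (2 * m) (s 0 + s 1 + s 2 - s 3 - s 4 - s 5) * h
      have := (rt_eq_iff (2 * m) (by omega) _ _).1 this
      push_cast at this
      obtain ⟨k, hk⟩ := this
      refine ⟨-k, ?_⟩
      linear_combination -hk
    refine ⟨?_, ?_, ?_, ?_, ?_, ?_, ?_, ?_, ?_, ?_⟩
    · simpa [sact, rotR] using g0
    · simpa [sact, rotR] using g1
    · simpa [sact, rotR] using g2
    · simpa [sact, rotR] using g3
    all_goals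
      simp [sact, rotR, Int.odd_iff]
      omega
  · refine ⟨sact rotR ![1, 1, 1, 1, 1, -1] s, same_sact m rotR _ (Or.inl rotR_SP) s, Or.inr
      ⟨(rel_sact _ rotR _ (Or.inl rotR_SP) s).2 hrel, ?_⟩⟩
    have g2' : rt m (-s 3) = rt m (s 0 - s 1) := by
      rw [rt_sub, rt_neg, eq_div_iff r1]
      field_simp
      linear_combination -h
    have g2 : (m : ℤ) ∣ -s 3 - (s 0 - s 1) := (rt_eq_iff m hm _ _).1 g2'
    have g3 : (2 * m : ℤ) ∣ s 4 + s 5 - s 2 + -s 3 - s 0 + s 1 := by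
      have : rt (2 * m) (s 0 + s 1 + s 2 - s 3 - s 4 - s 5) = rt (2 * m) (2 * s 0) := by
        rw [rt_two]
        apply mul_right_cancel₀ hx
        linear_combination -rt m (s 0) * f5 -
          rt (2 * m) (s 0 + s 1 + s 2 - s 3 - s 4 - s 5) * h
      have := (rt_eq_iff (2 * m) (by omega) _ _).1 this
      push_cast at this
      obtain ⟨k, hk⟩ := this
      obtain ⟨l, hl⟩ := g2
      refine ⟨l - k, ?_⟩
      linear_combination 2 * hl - hk
    refine ⟨?_, ?_, ?_, ?_, ?_, ?_, ?_, ?_, ?_, ?_⟩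
    · simpa [sact, rotR] using g0
    · simpa [sact, rotR] using g1
    · simpa [sact, rotR] using g2
    · simpa [sact, rotR] using g3
    all_goals
      simp [sact, rotR, Int.odd_iff]
      omega

theorem H3 (m : ℕ) (hm : 0 < m) (h8 : 8 ∣ m) (s : Fin 6 → ℤ) (hrel : Rel (2 * m) s)
    (hnd : ND (2 * m) s) (w0 : s 0 % 4 = 1) (w1 : s 1 % 4 = 1) (w2 : s 2 % 4 = 2)
    (w3 : s 3 % 4 = 0) (w4 : s 4 % 4 = 1) (w5 : s 5 % 4 = 1)
    (hd : (s 0 + s 1 + s 2 - s 3 - s 4 - s 5) % 8 = 2 ∨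
      (s 0 + s 1 + s 2 - s 3 - s 4 - s 5) % 8 = 6) : Goal m s := by
  rcases hd with hd | hd
  · exact H3a m hm h8 s hrel hnd w0 w1 w2 w3 w4 w5 hd
  · have E : ∀ i, sact 1 ![1, 1, -1, 1, 1, 1] s i =
        ((![1, 1, -1, 1, 1, 1] : Fin 6 → ℤˣ) i : ℤ) * s i := fun i => by simp [sact]
    have E0 : sact 1 ![1, 1, -1, 1, 1, 1] s 0 = s 0 := by rw [E]; simp
    have E1 : sact 1 ![1, 1, -1, 1, 1, 1] s 1 = s 1 := by rw [E]; simp
    have E2 : sact 1 ![1, 1, -1, 1, 1, 1] s 2 = -s 2 := by rw [E]; simp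
    have E3 : sact 1 ![1, 1, -1, 1, 1, 1] s 3 = s 3 := by rw [E]; simp
    have E4 : sact 1 ![1, 1, -1, 1, 1, 1] s 4 = s 4 := by rw [E]; simp
    have E5 : sact 1 ![1, 1, -1, 1, 1, 1] s 5 = s 5 := by rw [E]; simp
    refine goal_of_same m s _ (same_sact m 1 ![1, 1, -1, 1, 1, 1] (Or.inl one_SP) s) ?_
    exact H3a m hm h8 _ ((rel_sact _ _ _ (Or.inl one_SP) s).2 hrel) ((nd_sact _ _ _ s).2 hnd)
      (by omega) (by omega) (by omega) (by omega) (by omega) (by omega) (by omega)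

theorem norm_e (m : ℕ) (k : ℤ) : ‖rt m k‖ = 1 := norm_rt m k

/-- a sum of three unit numbers which is a unit number -/
theorem pick (x1 x2 x3 c : ℂ) (h1 : ‖x1‖ = 1) (h2 : ‖x2‖ = 1) (h3 : ‖x3‖ = 1) (hc : ‖c‖ = 1)
    (h : x1 + x2 + x3 = c) :
    (x1 = c ∧ x2 + x3 = 0) ∨ (x2 = c ∧ x1 + x3 = 0) ∨ (x3 = c ∧ x1 + x2 = 0) := by
  rcases four_unit x1 x2 x3 (-c) h1 h2 h3 (by rw [norm_neg, hc]) (by linear_combination h) with
    ⟨a, b⟩ | ⟨a, b⟩ | ⟨a, b⟩
  · right; right; exact ⟨by linear_combination b, a⟩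
  · right; left; exact ⟨by linear_combination b, a⟩
  · left; exact ⟨by linear_combination a, b⟩

theorem sym3 (x1 x2 x3 y1 y2 y3 : ℂ) (h1 : x1 + x2 + x3 = y1 + y2 + y3)
    (h2 : x1 * x2 + x1 * x3 + x2 * x3 = y1 * y2 + y1 * y3 + y2 * y3)
    (h3 : x1 * x2 * x3 = y1 * y2 * y3) :
    (x1 = y1 ∧ ((x2 = y2 ∧ x3 = y3) ∨ (x2 = y3 ∧ x3 = y2))) ∨
    (x1 = y2 ∧ ((x2 = y1 ∧ x3 = y3) ∨ (x2 = y3 ∧ x3 = y1))) ∨
    (x1 = y3 ∧ ((x2 = y1 ∧ x3 = y2) ∨ (x2 = y2 ∧ x3 = y1))) := by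
  have h : (x1 - y1) * (x1 - y2) * (x1 - y3) = 0 := by
    linear_combination x1 ^ 2 * h1 - x1 * h2 + h3
  rcases mul_eq_zero.1 h with h | h
  · rcases mul_eq_zero.1 h with h | h
    · have hx : x1 = y1 := sub_eq_zero.1 h
      subst hx
      left
      refine ⟨rfl, ?_⟩
      have g1 : x2 + x3 = y2 + y3 := by linear_combination h1
      have g2 : x2 * x3 = y2 * y3 := by linear_combination h2 - x1 * g1
      have g : (x2 - y2) * (x2 - y3) = 0 := by linear_combination x2 * g1 - g2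
      rcases mul_eq_zero.1 g with g | g
      · left; exact ⟨by linear_combination g, by linear_combination g1 - g⟩
      · right; exact ⟨by linear_combination g, by linear_combination g1 - g⟩
    · have hx : x1 = y2 := sub_eq_zero.1 h
      subst hx
      right; left
      refine ⟨rfl, ?_⟩
      have g1 : x2 + x3 = y1 + y3 := by linear_combination h1
      have g2 : x2 * x3 = y1 * y3 := by linear_combination h2 - x1 * g1
      have g : (x2 - y1) * (x2 - y3) = 0 := by linear_combination x2 * g1 - g2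
      rcases mul_eq_zero.1 g with g | g
      · left; exact ⟨by linear_combination g, by linear_combination g1 - g⟩
      · right; exact ⟨by linear_combination g, by linear_combination g1 - g⟩
  · have hx : x1 = y3 := sub_eq_zero.1 h
    subst hx
    right; right
    refine ⟨rfl, ?_⟩
    have g1 : x2 + x3 = y1 + y2 := by linear_combination h1
    have g2 : x2 * x3 = y1 * y2 := by linear_combination h2 - x1 * g1
    have g : (x2 - y1) * (x2 - y2) = 0 := by linear_combination x2 * g1 - g2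
    rcases mul_eq_zero.1 g with g | g
    · left; exact ⟨by linear_combination g, by linear_combination g1 - g⟩
    · right; exact ⟨by linear_combination g, by linear_combination g1 - g⟩

theorem triv_of (m : ℕ) (hm : 0 < m) (s : Fin 6 → ℤ)
    (h1 : rt m (s 0) + rt m (s 1) + rt m (s 2) = rt m (s 3) + rt m (s 4) + rt m (s 5))
    (h2 : rt m (s 0) * rt m (s 1) + rt m (s 0) * rt m (s 2) + rt m (s 1) * rt m (s 2) =
      rt m (s 3) * rt m (s 4) + rt m (s 3) * rt m (s 5) + rt m (s 4) * rt m (s 5))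
    (h3 : rt m (s 0) * rt m (s 1) * rt m (s 2) = rt m (s 3) * rt m (s 4) * rt m (s 5)) :
    Triv (ang m s) := by
  have key : ∀ i j : Fin 6, rt m (s i) = rt m (s j) → c2 (ang m s i) = c2 (ang m s j) := by
    intro i j h
    rw [cast_ang, cast_ang]
    exact c2_of_rt m hm _ _ (Or.inl h)
  unfold Triv L3 R3
  rcases sym3 _ _ _ _ _ _ h1 h2 h3 with ⟨a, ⟨b, c⟩ | ⟨b, c⟩⟩ | ⟨a, ⟨b, c⟩ | ⟨b, c⟩⟩ |
    ⟨a, ⟨b, c⟩ | ⟨b, c⟩⟩ <;>
  · rw [key _ _ a, key _ _ b, key _ _ c]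
    try simp only [Multiset.insert_eq_cons, ← Multiset.singleton_add]
    try abel

theorem H4 (m : ℕ) (hm : 0 < m) (h8 : 8 ∣ m) (s : Fin 6 → ℤ) (hrel : Rel (2 * m) s)
    (hnd : ND (2 * m) s) (w0 : s 0 % 4 = 1) (w1 : s 1 % 4 = 1) (w2 : s 2 % 4 = 1)
    (w3 : s 3 % 4 = 1) (w4 : s 4 % 4 = 1) (w5 : s 5 % 4 = 1)
    (hd : (s 0 + s 1 + s 2 - s 3 - s 4 - s 5) % 8 = 0 ∨
      (s 0 + s 1 + s 2 - s 3 - s 4 - s 5) % 8 = 4) : Goal m s := by
  obtain ⟨c, hc⟩ := id h8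
  have hG := graded_pow m 8 c hm (by norm_num) (by omega) s hrel
  have na := rt_ne_zero (2 * m) (-s 0 - s 1 - s 2)
  have nb := rt_ne_zero (2 * m) (-s 3 - s 4 - s 5)
  have e0 := expand m 8 s hG (-s 0 - s 1 - s 2)
  have e1 := expand m 8 s hG (-s 0 - s 1 - s 2 + 2)
  have e2 := expand m 8 s hG (-s 0 - s 1 - s 2 + 4)
  have e3 := expand m 8 s hG (-s 0 - s 1 - s 2 + 6)
  rcases hd with hd | hd
  · simp (disch := (push_cast; omega)) only [if_pos, if_neg] at e0 e1 e2 e3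
    have hab : rt (2 * m) (-s 0 - s 1 - s 2) = rt (2 * m) (-s 3 - s 4 - s 5) := by
      linear_combination e0
    rw [hab] at e1 e2 e3
    left
    refine triv_of m hm s ?_ ?_ ?_
    · apply mul_left_cancel₀ nb; linear_combination e1
    · apply mul_left_cancel₀ nb; linear_combination e2
    · apply mul_left_cancel₀ nb; linear_combination e3
  · simp (disch := (push_cast; omega)) only [if_pos, if_neg] at e0 e1 e2 e3
    have hx := pick (rt m (s 0)) (rt m (s 1)) (rt m (s 2))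
      (rt (2 * m) (-s 3 - s 4 - s 5) * (rt m (s 3) * rt m (s 4) * rt m (s 5)) /
        rt (2 * m) (-s 0 - s 1 - s 2)) (norm_rt _ _) (norm_rt _ _) (norm_rt _ _)
      (by simp [norm_rt]) (by rw [eq_div_iff na]; linear_combination e1)
    have hy := pick (rt m (s 3)) (rt m (s 4)) (rt m (s 5))
      (rt (2 * m) (-s 0 - s 1 - s 2) * (rt m (s 0) * rt m (s 1) * rt m (s 2)) /
        rt (2 * m) (-s 3 - s 4 - s 5)) (norm_rt _ _) (norm_rt _ _) (norm_rt _ _)
      (by simp [norm_rt]) (by rw [eq_div_iff nb]; linear_combination -e3)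
    have kx : ∃ i : Fin 6, i.val < 3 ∧
        rt m (s 0) * rt m (s 1) * rt m (s 2) = rt m (s i) *
          (rt m (s 0) * rt m (s 1) + rt m (s 0) * rt m (s 2) + rt m (s 1) * rt m (s 2)) := by
      rcases hx with ⟨_, h⟩ | ⟨_, h⟩ | ⟨_, h⟩
      · exact ⟨0, by decide, by linear_combination -rt m (s 0) * rt m (s 0) * h⟩
      · exact ⟨1, by decide, by linear_combination -rt m (s 1) * rt m (s 1) * h⟩
      · exact ⟨2, by decide, by linear_combination -rt m (s 2) * rt m (s 2) * h⟩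
    have ky : ∃ j : Fin 6, 3 ≤ j.val ∧ rt (2 * m) (-s 3 - s 4 - s 5) * rt m (s j) =
        rt (2 * m) (-s 0 - s 1 - s 2) * (rt m (s 0) * rt m (s 1) * rt m (s 2)) := by
      rcases hy with ⟨h, _⟩ | ⟨h, _⟩ | ⟨h, _⟩
      · exact ⟨3, by decide, by rw [h]; field_simp⟩
      · exact ⟨4, by decide, by rw [h]; field_simp⟩
      · exact ⟨5, by decide, by rw [h]; field_simp⟩
    obtain ⟨i, hi, hxi⟩ := kx
    obtain ⟨j, hj, hyj⟩ := ky
    right; left
    refine common m hm s hrel hnd i j hi hj (Or.inl ?_) ?_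
    · apply mul_left_cancel₀ nb
      rw [hyj, hxi]
      linear_combination -rt m (s i) * e2
    · apply not_third_odd m (Dvd.dvd.trans (by norm_num) h8)
      have : i = 0 ∨ i = 1 ∨ i = 2 := by omega
      rcases this with rfl | rfl | rfl <;> omega

/-- triangle identity along a line -/
theorem tri_line (x1 x2 x3 y z : ℂ) (h1 : x1 + x2 + x3 = 0)
    (h2 : x1 * x2 + x1 * x3 + x2 * x3 = 0) (h3 : x1 * x2 * x3 * y = 1) (hy : ‖y‖ = 1)
    (hz : ‖z‖ = 1) :
    ‖(1 + x1 * z ^ (1 : ℤ)) * (1 + x2 * z ^ (1 : ℤ)) * (1 + x3 * z ^ (1 : ℤ))‖ =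
      ‖1 + y * z ^ (-3 : ℤ)‖ := by
  have hz0 : z ≠ 0 := by
    intro h; rw [h, norm_zero] at hz; exact zero_ne_one hz
  have e : (1 + x1 * z ^ (1 : ℤ)) * (1 + x2 * z ^ (1 : ℤ)) * (1 + x3 * z ^ (1 : ℤ)) =
      (x1 * x2 * x3) * z ^ 3 * (1 + y * z ^ (-3 : ℤ)) := by
    have hz3 : z ^ (-3 : ℤ) = (z ^ 3)⁻¹ := by
      rw [zpow_neg]; norm_cast
    rw [hz3, zpow_one]
    have hzz : z ^ 3 * (z ^ 3)⁻¹ = 1 := mul_inv_cancel₀ (pow_ne_zero _ hz0)
    linear_combination z * h1 + z ^ 2 * h2 - h3 - x1 * x2 * x3 * y * hzz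
  have hn : ‖x1 * x2 * x3‖ = 1 := by
    have := congrArg norm h3
    rw [norm_mul, hy, mul_one, norm_one] at this
    exact this
  rw [e, norm_mul, norm_mul, hn, norm_pow, hz]
  simp

theorem H5 (m : ℕ) (hm : 0 < m) (h8 : 8 ∣ m) (s : Fin 6 → ℤ) (hrel : Rel (2 * m) s)
    (w0 : s 0 % 4 = 1) (w1 : s 1 % 4 = 1) (w2 : s 2 % 4 = 1)
    (w3 : s 3 % 4 = 0) (w4 : s 4 % 4 = 0) (w5 : s 5 % 4 = 1)
    (hd : (s 0 + s 1 + s 2 - s 3 - s 4 - s 5) % 8 = 2 ∨
      (s 0 + s 1 + s 2 - s 3 - s 4 - s 5) % 8 = 6) : Goal m s := by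
  obtain ⟨c, hc⟩ := id h8
  have hG := graded_pow m 8 c hm (by norm_num) (by omega) s hrel
  have na := rt_ne_zero (2 * m) (-s 0 - s 1 - s 2)
  have nb := rt_ne_zero (2 * m) (-s 3 - s 4 - s 5)
  have e0 := expand m 8 s hG (-s 0 - s 1 - s 2)
  have e1 := expand m 8 s hG (-s 0 - s 1 - s 2 + 2)
  have e2 := expand m 8 s hG (-s 0 - s 1 - s 2 + 4)
  have e3 := expand m 8 s hG (-s 0 - s 1 - s 2 + 6)
  rcases hd with hd | hd
  · exfalso
    simp (disch := (push_cast; omega)) only [if_pos, if_neg] at e0 e1 e2 e3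
    apply na
    linear_combination e0
  · simp (disch := (push_cast; omega)) only [if_pos, if_neg] at e0 e1 e2 e3
    have f1 : rt m (s 0) + rt m (s 1) + rt m (s 2) = 0 := by
      apply mul_left_cancel₀ na
      linear_combination e1
    have f2 : rt m (s 0) * rt m (s 1) + rt m (s 0) * rt m (s 2) + rt m (s 1) * rt m (s 2) = 0 := by
      apply mul_left_cancel₀ na
      linear_combination e2
    have f3 : rt m (s 0) * rt m (s 1) * rt m (s 2) * rt m (s 5) = 1 := by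
      apply mul_left_cancel₀ na
      linear_combination rt m (s 5) * e3 - e0
    have f4 : ‖(1 + rt m (s 3)) * (1 + rt m (s 4))‖ = 1 := by
      have h : rt (2 * m) (-s 0 - s 1 - s 2) = rt (2 * m) (-s 3 - s 4 - s 5) *
          ((1 + rt m (s 3)) * (1 + rt m (s 4))) * rt m (s 5) := by linear_combination e0
      have := congrArg norm h
      rw [norm_mul, norm_mul, norm_rt, norm_rt, norm_rt, one_mul, mul_one] at this
      exact this.symm
    right; left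
    have h4 : 4 ∣ m := Dvd.dvd.trans (by norm_num) h8
    refine ni_of m hm s ![1, 1, 1, 0, 0, -3] ?_ ?_ ?_
    · intro h; have := congrFun h 0; simp at this
    · intro i
      fin_cases i
      · right; exact not_third_odd m h4 (s 0) (by omega)
      · right; exact not_third_odd m h4 (s 1) (by omega)
      · right; exact not_third_odd m h4 (s 2) (by omega)
      · left; rfl
      · left; rfl
      · right; exact not_third_odd m h4 (s 5) (by omega)
    · intro z hz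
      have := tri_line _ _ _ _ z f1 f2 f3 (norm_rt _ _) hz
      show ‖(1 + rt m (s 0) * z ^ (1 : ℤ)) * (1 + rt m (s 1) * z ^ (1 : ℤ)) *
        (1 + rt m (s 2) * z ^ (1 : ℤ))‖ = ‖(1 + rt m (s 3) * z ^ (0 : ℤ)) *
        (1 + rt m (s 4) * z ^ (0 : ℤ)) * (1 + rt m (s 5) * z ^ (-3 : ℤ))‖
      rw [this, zpow_zero, mul_one, mul_one, norm_mul, f4, one_mul]

theorem H6 (m : ℕ) (hm : 0 < m) (h8 : 8 ∣ m) (s : Fin 6 → ℤ) (hrel : Rel (2 * m) s)
    (hnd : ND (2 * m) s) (w0 : s 0 % 4 = 1) (w1 : s 1 % 4 = 1) (w2 : s 2 % 4 = 1)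
    (w3 : s 3 % 4 = 0) (w4 : s 4 % 4 = 1) (w5 : s 5 % 4 = 2)
    (hd : (s 0 + s 1 + s 2 - s 3 - s 4 - s 5) % 8 = 0 ∨
      (s 0 + s 1 + s 2 - s 3 - s 4 - s 5) % 8 = 4) : Goal m s := by
  obtain ⟨c, hc⟩ := id h8
  have hG := graded_pow m 8 c hm (by norm_num) (by omega) s hrel
  have na := rt_ne_zero (2 * m) (-s 0 - s 1 - s 2)
  have nb := rt_ne_zero (2 * m) (-s 3 - s 4 - s 5)
  have e0 := expand m 8 s hG (-s 0 - s 1 - s 2)
  have e1 := expand m 8 s hG (-s 0 - s 1 - s 2 + 2)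
  have h4 : 4 ∣ m := Dvd.dvd.trans (by norm_num) h8
  have key : rt m (s 0) + rt m (s 1) + rt m (s 2) = rt m (s 4) := by
    apply mul_left_cancel₀ na
    rcases hd with hd | hd
    · simp (disch := (push_cast; omega)) only [if_pos, if_neg] at e0 e1
      linear_combination e1 - rt m (s 4) * e0
    · simp (disch := (push_cast; omega)) only [if_pos, if_neg] at e0 e1
      linear_combination e1 - rt m (s 4) * e0
  right; left
  rcases pick _ _ _ _ (norm_rt _ _) (norm_rt _ _) (norm_rt _ _) (norm_rt _ _) key with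
    ⟨h, _⟩ | ⟨h, _⟩ | ⟨h, _⟩
  · exact common m hm s hrel hnd 0 4 (by decide) (by decide) (Or.inl h)
      (not_third_odd m h4 (s 0) (by omega))
  · exact common m hm s hrel hnd 1 4 (by decide) (by decide) (Or.inl h)
      (not_third_odd m h4 (s 1) (by omega))
  · exact common m hm s hrel hnd 2 4 (by decide) (by decide) (Or.inl h)
      (not_third_odd m h4 (s 2) (by omega))

/-- the identity behind the third family -/
theorem line_alg (x1 x2 x3 y1 y2 y3 t τ w z ζ v : ℂ) (hz : z * ζ = 1) (ht : t * τ = 1)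
    (hv : (w = τ ∧ v = ζ) ∨ (w = t ∧ v = z))
    (a1 : x1 + x2 = t) (a2 : x1 * x2 = t ^ 2) (a3 : x3 = τ ^ 3) (b1 : y1 = t)
    (b2 : y2 + y3 = w ^ 2) (b3 : y2 * y3 = w ^ 4) (nt : ‖t‖ = 1) (nz : ‖z‖ = 1) :
    ‖(1 + x1 * z) * (1 + x2 * z) * (1 + x3 * ζ ^ 3)‖ =
      ‖(1 + y1 * z) * (1 + y2 * v ^ 2) * (1 + y3 * v ^ 2)‖ := by
  have hT : (t * z) * (τ * ζ) = 1 := by linear_combination ζ * z * ht + hz
  have hL : (1 + x1 * z) * (1 + x2 * z) * (1 + x3 * ζ ^ 3) =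
      (1 + (t * z) + (t * z) ^ 2) * (1 + (τ * ζ) ^ 3) := by
    rw [a3]
    linear_combination (1 + τ ^ 3 * ζ ^ 3) * z * a1 + (1 + τ ^ 3 * ζ ^ 3) * z ^ 2 * a2
  have hR : (1 + y1 * z) * (1 + y2 * v ^ 2) * (1 + y3 * v ^ 2) =
      (1 + t * z) * (1 + (w * v) ^ 2 + (w * v) ^ 4) := by
    rw [b1]
    linear_combination (1 + t * z) * v ^ 2 * b2 + (1 + t * z) * v ^ 4 * b3
  rw [hL, hR]
  have nT : ‖t * z‖ = 1 := by rw [norm_mul, nt, nz, one_mul]
  have nS : ‖τ * ζ‖ = 1 := by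
    have := congrArg norm hT
    rw [norm_mul, nT, one_mul, norm_one] at this
    exact this
  have hwv : w * v = τ * ζ ∨ w * v = t * z := by
    rcases hv with ⟨h1, h2⟩ | ⟨h1, h2⟩
    · left; rw [h1, h2]
    · right; rw [h1, h2]
  rcases hwv with hwv | hwv
  · rw [hwv]
    generalize t * z = T at *
    generalize τ * ζ = S at *
    have e : (1 + T + T ^ 2) * (1 + S ^ 3) = T * ((1 + T) * (1 + S ^ 2 + S ^ 4)) := by
      linear_combination (-(T * S + 1) - S ^ 3 - T * S ^ 3 + T * S ^ 2) * hT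
    rw [e, norm_mul, nT, one_mul]
  · rw [hwv]
    generalize t * z = T at *
    generalize τ * ζ = S at *
    have e : (1 + T + T ^ 2) * (1 + S ^ 3) = S ^ 3 * ((1 + T) * (1 + T ^ 2 + T ^ 4)) := by
      linear_combination (-(1 + T + T ^ 2) * ((T * S) ^ 2 + T * S + 1)) * hT
    rw [e, norm_mul, norm_pow, nS, one_pow, one_mul]

theorem cube_one (ω : ℂ) (h : ω ^ 2 + ω + 1 = 0) : ω ^ 3 = 1 := by
  linear_combination (ω - 1) * h

theorem fam3 (x1 x2 x3 y1 y2 y3 p q ω : ℂ) (n1 : ‖x1‖ = 1) (n2 : ‖x2‖ = 1)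
    (m1 : ‖y1‖ = 1) (m2 : ‖y2‖ = 1) (np : ‖p‖ = 1) (nq : ‖q‖ = 1) (hω : ω ^ 2 + ω + 1 = 0)
    (hy : y3 = ω * y2) (hp : p * (y1 * y2) = ω) (hq : q * y1 = ω ^ 2 * y2)
    (hs : x1 + x2 + x3 + p + q = 0) (he : x1 * x2 * x3 * y1 = 1)
    (h : x3 + q = 0 ∨ x3 + p = 0) :
    (∀ z : ℂ, ‖z‖ = 1 →
      ‖(1 + x1 * z ^ (1 : ℤ)) * (1 + x2 * z ^ (1 : ℤ)) * (1 + x3 * z ^ (-3 : ℤ))‖ =
      ‖(1 + y1 * z ^ (1 : ℤ)) * (1 + y2 * z ^ (-2 : ℤ)) * (1 + y3 * z ^ (-2 : ℤ))‖) ∨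
    (∀ z : ℂ, ‖z‖ = 1 →
      ‖(1 + x1 * z ^ (1 : ℤ)) * (1 + x2 * z ^ (1 : ℤ)) * (1 + x3 * z ^ (-3 : ℤ))‖ =
      ‖(1 + y1 * z ^ (1 : ℤ)) * (1 + y2 * z ^ (2 : ℤ)) * (1 + y3 * z ^ (2 : ℤ))‖) := by
  have hω3 := cube_one ω hω
  have z1 : y1 ≠ 0 := by intro h; rw [h, norm_zero] at m1; exact zero_ne_one m1
  have z2 : y2 ≠ 0 := by intro h; rw [h, norm_zero] at m2; exact zero_ne_one m2
  have hτ : y1 * y1⁻¹ = 1 := mul_inv_cancel₀ z1
  have hpq : p * q * y1 ^ 2 = 1 := by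
    apply mul_left_cancel₀ z2
    linear_combination q * y1 * hp + ω * hq + y2 * hω3
  rcases h with h | h
  · left
    obtain ⟨ρ, hρ, r1, r2⟩ := three_unit p x1 x2 np n1 n2 (by linear_combination hs - h)
    have hρ3 := cube_one ρ hρ
    have hpy : p = -y1 := by
      have : -(p ^ 2 * q * y1) = 1 := by
        rw [r1, r2] at he
        linear_combination he - p ^ 2 * y1 * h + (-p ^ 2 * x3 * y1) * hρ3
      linear_combination -p * hpq - y1 * this
    have hx3 : x3 = y1⁻¹ ^ 3 := by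
      have : x3 * y1 ^ 3 = 1 := by
        rw [hpy] at hpq
        linear_combination hpq + y1 ^ 3 * h
      rw [inv_pow]
      exact eq_inv_of_mul_eq_one_left this
    have hy2 : y2 = -ω * y1⁻¹ ^ 2 := by
      have : y2 * y1 ^ 2 = -ω := by
        rw [hpy] at hp
        linear_combination -hp
      rw [inv_pow, ← div_eq_mul_inv, eq_div_iff (pow_ne_zero _ z1)]
      exact this
    intro z hz
    have z0 : z ≠ 0 := by intro h; rw [h, norm_zero] at hz; exact zero_ne_one hz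
    have hζ : z * z⁻¹ = 1 := mul_inv_cancel₀ z0
    have := line_alg x1 x2 x3 y1 y2 y3 y1 y1⁻¹ y1⁻¹ z z⁻¹ z⁻¹ hζ hτ (Or.inl ⟨rfl, rfl⟩)
      (by rw [r1, r2, hpy]; linear_combination -y1 * hρ)
      (by rw [r1, r2, hpy]; linear_combination y1 ^ 2 * hρ3) hx3 rfl
      (by rw [hy, hy2]; linear_combination (-y1⁻¹ ^ 2) * hω)
      (by rw [hy, hy2]; linear_combination y1⁻¹ ^ 4 * hω3) m1 hz
    have hz3 : z ^ (-3 : ℤ) = z⁻¹ ^ 3 := by
      rw [zpow_neg, inv_pow]; norm_cast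
    have hz2 : z ^ (-2 : ℤ) = z⁻¹ ^ 2 := by
      rw [zpow_neg, inv_pow]; norm_cast
    rw [hz3, hz2, zpow_one]
    exact this
  · right
    obtain ⟨ρ, hρ, r1, r2⟩ := three_unit q x1 x2 nq n1 n2 (by linear_combination hs - h)
    have hρ3 := cube_one ρ hρ
    have hqy : q = -y1 := by
      have : -(q ^ 2 * p * y1) = 1 := by
        rw [r1, r2] at he
        linear_combination he - q ^ 2 * y1 * h + (-q ^ 2 * x3 * y1) * hρ3
      linear_combination -q * hpq - y1 * this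
    have hx3 : x3 = y1⁻¹ ^ 3 := by
      have : x3 * y1 ^ 3 = 1 := by
        rw [hqy] at hpq
        linear_combination hpq + y1 ^ 3 * h
      rw [inv_pow]
      exact eq_inv_of_mul_eq_one_left this
    have hy2 : y2 = -ω * y1 ^ 2 := by
      rw [hqy] at hq
      linear_combination -y2 * hω3 - ω * hq
    intro z hz
    have z0 : z ≠ 0 := by intro h; rw [h, norm_zero] at hz; exact zero_ne_one hz
    have hζ : z * z⁻¹ = 1 := mul_inv_cancel₀ z0
    have := line_alg x1 x2 x3 y1 y2 y3 y1 y1⁻¹ y1 z z⁻¹ z hζ hτ (Or.inr ⟨rfl, rfl⟩)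
      (by rw [r1, r2, hqy]; linear_combination -y1 * hρ)
      (by rw [r1, r2, hqy]; linear_combination y1 ^ 2 * hρ3) hx3 rfl
      (by rw [hy, hy2]; linear_combination (-y1 ^ 2) * hω)
      (by rw [hy, hy2]; linear_combination y1 ^ 4 * hω3) m1 hz
    have hz3 : z ^ (-3 : ℤ) = z⁻¹ ^ 3 := by
      rw [zpow_neg, inv_pow]; norm_cast
    have hz2 : z ^ (2 : ℤ) = z ^ 2 := by norm_cast
    rw [hz3, hz2, zpow_one]
    exact this

end T4

end Pool.Agent.TriCos
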